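import Pool.Agent.LibCIM.ADefs

set_option autoImplicit false
open MvPolynomial

namespace Pool.Agent.LibHP.CIM

/-! # Row A10 (ONLY MATHLIB, MEDIUM): geometrically prime ideals and constants

`κ = K(v)`, `v` a generic zero of `J = span (range g)`, `J` stays prime over `Kb = AlgebraicClosure K`. Then `K` is algebraically closed in `κ`. Template: `algClosed_of_geomPrime` (LibHPF, for one polynomial; grep it). Sketch: let `z ∈ κ` be algebraic, `q` its minimal
polynomial over `K`, of degree `D ≥ 2`, with roots `a_1 ≠ a_2` in `Kb` (separable: characteristic zero). `z * H(v) = G(v)`, `H ∉ J`. `P(X) = ∏_j (G - a_j H)` (product over all roots, coefficients in `K` after expansion: `H^D q(G/H)`) vanishes at `v`, so it is in `J`, so over `Kb` one of the factors, say `G - a H`, is in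
`J Kb` (prime). Choose a `K`-automorphism of `Kb` (or: apply the same argument to the conjugate factors; `Normal`, transitivity of the Galois group on the roots: `minpoly.exists_algEquiv_of_root'`) to get `G - a' H ∈ J Kb` for another root `a'`, so `H ∈ J Kb`, so `H ∈ J` (`mem` descends as in A8.3; or use a
retraction `Kb → K` directly): contradiction. So `D = 1`. -/

/-- apply a linear functional to the coefficients -/
private noncomputable def A10_pr {K L σ : Type} [Field K] [Field L] [Algebra K L] (π : L →ₗ[K] K)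
    (A : MvPolynomial σ L) : MvPolynomial σ K := ∑ m ∈ A.support, monomial m (π (coeff m A))

private theorem A10_coeff_pr {K L σ : Type} [Field K] [Field L] [Algebra K L] (π : L →ₗ[K] K)
    (A : MvPolynomial σ L) (n : σ →₀ ℕ) : coeff n (A10_pr π A) = π (coeff n A) := by
  classical
  unfold A10_pr
  rw [coeff_sum]
  simp only [coeff_monomial]
  rw [Finset.sum_ite_eq']
  split_ifs with h
  · rfl
  · rw [notMem_support_iff.1 h, map_zero]

private theorem A10_pr_mul {K L σ : Type} [Field K] [Field L] [Algebra K L] (π : L →ₗ[K] K)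
    (f : MvPolynomial σ K) (A : MvPolynomial σ L) :
    A10_pr π (A * f.map (algebraMap K L)) = A10_pr π A * f := by
  classical
  ext n
  rw [A10_coeff_pr, mul_comm, coeff_mul, mul_comm, coeff_mul, map_sum]
  refine Finset.sum_congr rfl fun x _ => ?_
  rw [A10_coeff_pr, coeff_map, ← Algebra.smul_def, map_smul, smul_eq_mul]

private theorem A10_pr_add {K L σ : Type} [Field K] [Field L] [Algebra K L] (π : L →ₗ[K] K)
    (A B : MvPolynomial σ L) : A10_pr π (A + B) = A10_pr π A + A10_pr π B := by
  ext n
  rw [A10_coeff_pr, coeff_add, coeff_add, map_add, A10_coeff_pr, A10_coeff_pr]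

private theorem A10_pr_mem_mul {K L : Type} [Field K] [Field L] [Algebra K L] {N : ℕ} {ι : Type}
    (g : ι → MvPolynomial (Fin N) K) (π : L →ₗ[K] K) (A : MvPolynomial (Fin N) L)
    (hA : A ∈ Ideal.span (Set.range (extSys L g))) :
    ∀ B : MvPolynomial (Fin N) L, A10_pr π (B * A) ∈ Ideal.span (Set.range g) := by
  induction hA using Submodule.span_induction with
  | mem x hx =>
    intro B
    obtain ⟨i, rfl⟩ := hx
    have h1 : extSys L g i = (g i).map (algebraMap K L) := rfl
    rw [h1, A10_pr_mul]
    exact Ideal.mul_mem_left _ _ (Ideal.subset_span ⟨i, rfl⟩)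
  | zero =>
    intro B
    have h1 : A10_pr π (B * (0 : MvPolynomial (Fin N) L)) = 0 := by
      ext n
      rw [A10_coeff_pr, mul_zero, coeff_zero, coeff_zero, map_zero]
    rw [h1]
    exact Ideal.zero_mem _
  | add x y _ _ hx hy =>
    intro B
    rw [mul_add, A10_pr_add]
    exact Ideal.add_mem _ (hx B) (hy B)
  | smul a x _ hx =>
    intro B
    rw [smul_eq_mul, ← mul_assoc]
    exact hx (B * a)

private theorem A10_pr_mem {K L : Type} [Field K] [Field L] [Algebra K L] {N : ℕ} {ι : Type}
    (g : ι → MvPolynomial (Fin N) K) (π : L →ₗ[K] K) (A : MvPolynomial (Fin N) L)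
    (hA : A ∈ Ideal.span (Set.range (extSys L g))) : A10_pr π A ∈ Ideal.span (Set.range g) := by
  have h := A10_pr_mem_mul g π A hA 1
  rwa [one_mul] at h

private theorem A10_mem_of_map {K L : Type} [Field K] [Field L] [Algebra K L] {N : ℕ} {ι : Type}
    (g : ι → MvPolynomial (Fin N) K) (G : MvPolynomial (Fin N) K)
    (hA : G.map (algebraMap K L) ∈ Ideal.span (Set.range (extSys L g))) :
    G ∈ Ideal.span (Set.range g) := by
  obtain ⟨π, hπ⟩ := LinearMap.exists_leftInverse_of_injective (Algebra.linearMap K L)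
    (LinearMap.ker_eq_bot.2 (algebraMap K L).injective)
  have h := A10_pr_mem g π _ hA
  have h1 : A10_pr π (G.map (algebraMap K L)) = G := by
    ext n
    rw [A10_coeff_pr, coeff_map]
    exact LinearMap.congr_fun hπ (coeff n G)
  rwa [h1] at h

private theorem A10_map_mem {K L : Type} [Field K] [Field L] [Algebra K L] {N : ℕ} {ι : Type}
    (g : ι → MvPolynomial (Fin N) K) (G : MvPolynomial (Fin N) K)
    (hG : G ∈ Ideal.span (Set.range g)) :
    G.map (algebraMap K L) ∈ Ideal.span (Set.range (extSys L g)) := by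
  have h := Ideal.mem_map_of_mem (MvPolynomial.map (σ := Fin N) (algebraMap K L)) hG
  rw [Ideal.map_span, ← Set.range_comp] at h
  exact h

private theorem A10_hom {F : Type} [Field F] (q : Polynomial F) (n : ℕ) (hn : q.natDegree = n)
    (x y h : F) (hx : x = y * h) :
    ∑ i ∈ Finset.range (n + 1), q.coeff i * x ^ i * h ^ (n - i) = h ^ n * q.eval y := by
  subst hn
  rw [Polynomial.eval_eq_sum_range, Finset.mul_sum]
  refine Finset.sum_congr rfl fun i hi => ?_
  have hi' : i ≤ q.natDegree := Nat.lt_succ_iff.1 (Finset.mem_range.1 hi)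
  have h1 : h ^ q.natDegree = h ^ i * h ^ (q.natDegree - i) := by
    rw [← pow_add, Nat.add_sub_cancel' hi']
  rw [h1, hx]
  ring

theorem closed_of_geomPrime {K : Type} [Field K] [CharZero K] {N : ℕ} {ι : Type}
    (g : ι → MvPolynomial (Fin N) K) (hb : (Ideal.span (Set.range (extSys (AlgebraicClosure K) g))).IsPrime)
    {κ : Type} [Field κ] [Algebra K κ] (v : Fin N → κ) (hv : IsGen (Ideal.span (Set.range g)) v)
    (hgen : GenOver K v) (z : κ) (hz : IsAlgebraic K z) : ∃ c : K, algebraMap K κ c = z := by
  obtain ⟨G, H, hH, hGH⟩ := hgen z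
  set p := minpoly K z with hp
  set n := p.natDegree with hn
  set Φ : MvPolynomial (Fin N) K := ∑ i ∈ Finset.range (n + 1), C (p.coeff i) * G ^ i * H ^ (n - i)
    with hΦ
  have hdvd : Φ ∈ Ideal.span (Set.range g) := by
    rw [← hv, hΦ, map_sum]
    have h1 := A10_hom (p.map (algebraMap K κ)) n (Polynomial.natDegree_map _) (aeval v G) z
      (aeval v H) hGH.symm
    rw [Polynomial.eval_map_algebraMap, hp, minpoly.aeval, mul_zero] at h1
    rw [← h1]
    refine Finset.sum_congr rfl fun i _ => ?_
    rw [map_mul, map_mul, map_pow, map_pow, algHom_C, Polynomial.coeff_map]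
  -- the domain over the algebraic closure
  obtain ⟨J, hJ⟩ : ∃ J, J = Ideal.span (Set.range (extSys (AlgebraicClosure K) g)) := ⟨_, rfl⟩
  rw [← hJ] at hb
  set L' := FractionRing (MvPolynomial (Fin N) (AlgebraicClosure K) ⧸ J) with hL'
  set θ : MvPolynomial (Fin N) (AlgebraicClosure K) →+* L' :=
    (algebraMap (MvPolynomial (Fin N) (AlgebraicClosure K) ⧸ J) L').comp
      (Ideal.Quotient.mk J) with hθ
  have hθ0 : ∀ X, θ X = 0 ↔ X ∈ J := by
    intro X
    rw [hθ, RingHom.comp_apply, map_eq_zero_iff _ (IsFractionRing.injective _ _),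
      Ideal.Quotient.eq_zero_iff_mem]
  set τ := algebraMap K (AlgebraicClosure K) with hτ
  have hH' : θ (H.map τ) ≠ 0 := by
    intro h
    refine hH ((hv H).2 (A10_mem_of_map (L := AlgebraicClosure K) g H ?_))
    rw [← hJ]
    exact (hθ0 _).1 h
  set z' := θ (G.map τ) / θ (H.map τ) with hz'
  have h2 : θ (Φ.map τ) = 0 := by
    refine (hθ0 _).2 ?_
    rw [hJ]
    exact A10_map_mem g Φ hdvd
  have h3 : (p.map (θ.comp (C.comp τ))).eval z' = 0 := by
    have h1 := A10_hom (p.map (θ.comp (C.comp τ))) n (Polynomial.natDegree_map _)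
      (θ (G.map τ)) z' (θ (H.map τ)) (by rw [hz', div_mul_cancel₀ _ hH'])
    have h4 : ∑ i ∈ Finset.range (n + 1), (p.map (θ.comp (C.comp τ))).coeff i *
        (θ (G.map τ)) ^ i * (θ (H.map τ)) ^ (n - i) = 0 := by
      rw [← h2, hΦ, map_sum, map_sum]
      refine Finset.sum_congr rfl fun i _ => ?_
      rw [map_mul, map_mul, map_pow, map_pow, map_mul, map_mul, map_pow, map_pow, map_C,
        Polynomial.coeff_map]
      rfl
    rw [h4] at h1
    rcases mul_eq_zero.1 h1.symm with h5 | h5
    · exact absurd h5 (pow_ne_zero _ hH')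
    · exact h5
  -- a root in the algebraic closure
  have hsp : (p.map τ).Splits := IsAlgClosed.splits _
  have hp0 : p.Monic := minpoly.monic hz.isIntegral
  obtain ⟨c, hc⟩ : ∃ c : AlgebraicClosure K, z' = θ (C c) := by
    have h5 : p.map (θ.comp (C.comp τ)) = (p.map τ).map (θ.comp C) := by
      rw [Polynomial.map_map]
      rfl
    rw [h5, Polynomial.eval_map, hsp.eq_prod_roots, (hp0.map τ).leadingCoeff, Polynomial.C_1,
      one_mul, Polynomial.eval₂_multiset_prod, Multiset.prod_eq_zero_iff, Multiset.map_map] at h3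
    obtain ⟨c, -, hc⟩ := Multiset.mem_map.1 h3
    refine ⟨c, ?_⟩
    simp only [Function.comp_apply, Polynomial.eval₂_sub, Polynomial.eval₂_X,
      Polynomial.eval₂_C] at hc
    exact sub_eq_zero.1 hc
  have h6 : G.map τ - C c * H.map τ ∈ J := by
    rw [← hθ0, map_sub, map_mul, ← hc, hz', div_mul_cancel₀ _ hH', sub_self]
  by_cases hcr : ∃ a : K, τ a = c
  · obtain ⟨a, rfl⟩ := hcr
    refine ⟨a, ?_⟩
    have h7 : G - C a * H ∈ Ideal.span (Set.range g) := by
      refine A10_mem_of_map (L := AlgebraicClosure K) g _ ?_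
      rw [map_sub, map_mul, map_C, ← hJ]
      exact h6
    have h8 := (hv _).2 h7
    rw [map_sub, map_mul, algHom_C, ← hGH, sub_eq_zero] at h8
    exact (mul_right_cancel₀ hH h8).symm
  · exfalso
    have h9 : c ∉ Submodule.span K {(1 : AlgebraicClosure K)} := by
      intro h
      obtain ⟨a, ha⟩ := Submodule.mem_span_singleton.1 h
      exact hcr ⟨a, by rw [← ha, Algebra.smul_def, mul_one]⟩
    obtain ⟨π, hπc, hπ⟩ := Submodule.exists_le_ker_of_notMem h9
    have hπ1 : π 1 = 0 := hπ (Submodule.mem_span_singleton_self 1)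
    have h10 : C (-(π c)) * H ∈ Ideal.span (Set.range g) := by
      rw [hJ] at h6
      have h16 := A10_pr_mem g π _ h6
      have h17 : A10_pr π (G.map τ - C c * H.map τ) = C (-(π c)) * H := by
        ext m
        rw [A10_coeff_pr, coeff_C_mul, coeff_sub, coeff_C_mul, coeff_map, coeff_map, map_sub]
        have h12 : π (τ (coeff m G)) = 0 := by
          have : τ (coeff m G) = coeff m G • (1 : AlgebraicClosure K) := by
            rw [Algebra.smul_def, mul_one]
          rw [this, map_smul, hπ1, smul_zero]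
        have h13 : π (c * τ (coeff m H)) = coeff m H * π c := by
          have : c * τ (coeff m H) = coeff m H • c := by
            rw [Algebra.smul_def, mul_comm]
          rw [this, map_smul, smul_eq_mul]
        rw [h12, h13]
        ring
      rwa [h17] at h16
    have h14 : H ∈ Ideal.span (Set.range g) := by
      have h15 := Ideal.mul_mem_left _ (C (-(π c))⁻¹ : MvPolynomial (Fin N) K) h10
      rwa [← mul_assoc, ← C_mul, inv_mul_cancel₀ (neg_ne_zero.2 hπc), C_1, one_mul] at h15
    exact hH ((hv H).2 h14)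

end Pool.Agent.LibHP.CIM
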