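import Pool.Agent.LibHP2.Defs

set_option autoImplicit false
open IsLocalRing

namespace Pool.Agent.LibHP.CIM

/-! # Row A11 (ONLY MATHLIB + def IsUnif, MEDIUM): the discrete valuation ring of a locally principal prime

`O := Localization.AtPrime p` is a Noetherian local domain whose maximal ideal is generated by `ϖ ≠ 0`: a discrete valuation ring (`IsDiscreteValuationRing.TFAE`/`IsLocalRing.maximalIdeal` principal, not a field). `E` is its fraction field (`IsFractionRing` of the localization,
as in LibHPF/G9.lean). `V` := the valuation subring with elements the image of `O` (`ValuationRing`, `ValuationSubring` from `IsDiscreteValuationRing`: e.g. `(ValuationRing.valuation O E).valuationSubring`, `ValuationRing.mem_integer_iff`). `θ`: `V ≃ O → O / m = p.ResidueField` (`IsLocalRing.residue`). -/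

theorem exists_valuation (A E : Type) [CommRing A] [IsDomain A] [IsNoetherianRing A] [Field E]
    [Algebra A E] [IsFractionRing A E] (p : Ideal A) [p.IsPrime] (ϖ : A) (hϖ : ϖ ∈ p) (h0 : ϖ ≠ 0)
    (hloc : ∀ a ∈ p, ∃ s, s ∉ p ∧ ϖ ∣ s * a) :
    ∃ V : ValuationSubring E, IsUnif V (algebraMap A E ϖ) ∧ ∃ hA : ∀ a, algebraMap A E a ∈ V,
      (∀ a, a ∉ p → (algebraMap A E a)⁻¹ ∈ V) ∧
      ∃ θ : V →+* p.ResidueField, ∀ a : A, θ ⟨algebraMap A E a, hA a⟩ = algebraMap A p.ResidueField a := by
  classical
  have hunits : ∀ y : p.primeCompl, IsUnit (algebraMap A E y) := by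
    intro y
    refine IsUnit.mk0 _ fun h => ?_
    have h1 : (y : A) = 0 := (map_eq_zero_iff _ (IsFractionRing.injective A E)).1 h
    exact y.2 (h1 ▸ p.zero_mem)
  let ψ : Localization.AtPrime p →+* E :=
    IsLocalization.lift (M := p.primeCompl) (g := algebraMap A E) hunits
  have hψ : ∀ a, ψ (algebraMap A (Localization.AtPrime p) a) = algebraMap A E a :=
    IsLocalization.lift_eq hunits
  have hψi : Function.Injective ψ := by
    rw [injective_iff_map_eq_zero]
    intro z hz
    obtain ⟨x, s, rfl⟩ := IsLocalization.exists_mk'_eq p.primeCompl z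
    have h1 : algebraMap A E x = 0 := by
      rw [← hψ x, ← IsLocalization.mk'_spec (Localization.AtPrime p) x s, map_mul, hz, zero_mul]
    have h2 : x = 0 := (map_eq_zero_iff _ (IsFractionRing.injective A E)).1 h1
    rw [h2, IsLocalization.mk'_zero]
  have hdom : IsDomain (Localization.AtPrime p) := hψi.isDomain ψ
  have hnoe : IsNoetherianRing (Localization.AtPrime p) :=
    IsLocalization.isNoetherianRing p.primeCompl _ inferInstance
  have hpm : ∀ a ∈ p, algebraMap A (Localization.AtPrime p) a ∈
      IsLocalRing.maximalIdeal (Localization.AtPrime p) := by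
    intro a ha
    rw [← Localization.AtPrime.map_eq_maximalIdeal]
    exact Ideal.mem_map_of_mem _ ha
  have hspan : IsLocalRing.maximalIdeal (Localization.AtPrime p) =
      Ideal.span {algebraMap A (Localization.AtPrime p) ϖ} := by
    refine le_antisymm ?_ ?_
    · rw [← Localization.AtPrime.map_eq_maximalIdeal, Ideal.map_le_iff_le_comap]
      intro a ha
      obtain ⟨s, hs, c, hc⟩ := hloc a ha
      rw [Ideal.mem_comap, Ideal.mem_span_singleton]
      have hu : IsUnit (algebraMap A (Localization.AtPrime p) s) :=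
        IsLocalization.map_units (Localization.AtPrime p) (⟨s, hs⟩ : p.primeCompl)
      have h1 : algebraMap A (Localization.AtPrime p) s * algebraMap A (Localization.AtPrime p) a =
          algebraMap A (Localization.AtPrime p) ϖ * algebraMap A (Localization.AtPrime p) c := by
        rw [← map_mul, hc, map_mul]
      exact (hu.dvd_mul_left).1 ⟨_, h1⟩
    · rw [Ideal.span_singleton_le_iff_mem]
      exact hpm ϖ hϖ
  have hϖ0 : algebraMap A (Localization.AtPrime p) ϖ ≠ 0 := by
    intro h
    apply h0
    have h1 : algebraMap A E ϖ = 0 := by rw [← hψ ϖ, h, map_zero]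
    exact (map_eq_zero_iff _ (IsFractionRing.injective A E)).1 h1
  have hnf : ¬ IsField (Localization.AtPrime p) := by
    rw [IsLocalRing.isField_iff_maximalIdeal_eq, hspan, Ideal.span_singleton_eq_bot]
    exact hϖ0
  have hprin : (IsLocalRing.maximalIdeal (Localization.AtPrime p)).IsPrincipal := ⟨_, hspan⟩
  have hdvr : IsDiscreteValuationRing (Localization.AtPrime p) :=
    ((IsDiscreteValuationRing.TFAE (Localization.AtPrime p) hnf).out 0 4).2 hprin
  have hirr : Irreducible (algebraMap A (Localization.AtPrime p) ϖ) :=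
    IsDiscreteValuationRing.irreducible_of_span_eq_maximalIdeal _ hϖ0 hspan
  let V : ValuationSubring E :=
    { ψ.range with
      mem_or_inv_mem' := by
        intro x
        obtain ⟨a, b, hb, rfl⟩ := IsFractionRing.div_surjective (A := A) x
        have hb0 : b ≠ 0 := nonZeroDivisors.ne_zero hb
        have hbE : algebraMap A E b ≠ 0 := fun h =>
          hb0 ((map_eq_zero_iff _ (IsFractionRing.injective A E)).1 h)
        obtain ⟨c, hc | hc⟩ := PreValuationRing.cond (algebraMap A (Localization.AtPrime p) a)
          (algebraMap A (Localization.AtPrime p) b)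
        · right
          have h1 : algebraMap A E a * ψ c = algebraMap A E b := by
            rw [← hψ a, ← hψ b, ← map_mul, hc]
          have haE : algebraMap A E a ≠ 0 := fun h => hbE (by rw [← h1, h, zero_mul])
          refine ⟨c, ?_⟩
          rw [inv_div, eq_div_iff haE, mul_comm, h1]
        · left
          have h1 : algebraMap A E b * ψ c = algebraMap A E a := by
            rw [← hψ a, ← hψ b, ← map_mul, hc]
          refine ⟨c, ?_⟩
          rw [eq_div_iff hbE, mul_comm, h1] }
  have hVmem : ∀ x : E, x ∈ V ↔ ∃ z, ψ z = x := fun x => Iff.rfl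
  have hA : ∀ a, algebraMap A E a ∈ V := fun a => (hVmem _).2 ⟨_, hψ a⟩
  let e : Localization.AtPrime p ≃+* ψ.range :=
    RingEquiv.ofBijective ψ.rangeRestrict
      ⟨fun x y h => hψi (congrArg Subtype.val h), ψ.rangeRestrict_surjective⟩
  let inc : V →+* ψ.range :=
    { toFun := fun v => ⟨v.1, v.2⟩
      map_one' := rfl
      map_mul' := fun _ _ => rfl
      map_zero' := rfl
      map_add' := fun _ _ => rfl }
  refine ⟨V, ⟨hA ϖ, ?_, ?_, ?_⟩, hA, ?_, ?_⟩
  · intro h
    exact h0 ((map_eq_zero_iff _ (IsFractionRing.injective A E)).1 h)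
  · intro h
    obtain ⟨c, hc⟩ := (hVmem _).1 h
    have hE : algebraMap A E ϖ ≠ 0 := fun h =>
      h0 ((map_eq_zero_iff _ (IsFractionRing.injective A E)).1 h)
    have h1 : algebraMap A (Localization.AtPrime p) ϖ * c = 1 := by
      apply hψi
      rw [map_mul, hψ, hc, map_one, mul_inv_cancel₀ hE]
    exact hirr.not_isUnit (IsUnit.of_mul_eq_one _ h1)
  · intro a ha ha0
    obtain ⟨z, rfl⟩ := (hVmem _).1 ha
    have hz0 : z ≠ 0 := fun h => ha0 (by rw [h, map_zero])
    obtain ⟨n, u, hu⟩ := IsDiscreteValuationRing.eq_unit_mul_pow_irreducible hz0 hirr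
    refine ⟨n, ψ u, (hVmem _).2 ⟨_, rfl⟩, (hVmem _).2 ⟨(u⁻¹ : (Localization.AtPrime p)ˣ), ?_⟩, ?_⟩
    · refine eq_inv_of_mul_eq_one_left ?_
      rw [← map_mul, Units.inv_mul, map_one]
    · rw [hu, map_mul, map_pow, hψ]
  · intro a ha
    refine (hVmem _).2 ⟨IsLocalization.mk' (Localization.AtPrime p) 1 (⟨a, ha⟩ : p.primeCompl), ?_⟩
    refine eq_inv_of_mul_eq_one_left ?_
    rw [← hψ a, ← map_mul]
    have := IsLocalization.mk'_spec (Localization.AtPrime p) 1 (⟨a, ha⟩ : p.primeCompl)
    rw [map_one] at this
    rw [show algebraMap A (Localization.AtPrime p) a =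
      algebraMap A (Localization.AtPrime p) ((⟨a, ha⟩ : p.primeCompl) : A) from rfl, this, map_one]
  · refine ⟨(IsLocalRing.residue (Localization.AtPrime p)).comp
      ((e.symm : ψ.range →+* Localization.AtPrime p).comp inc), fun a => ?_⟩
    have h1 : e.symm (inc ⟨algebraMap A E a, hA a⟩) = algebraMap A (Localization.AtPrime p) a := by
      rw [RingEquiv.symm_apply_eq]
      apply Subtype.ext
      show algebraMap A E a = ψ (algebraMap A (Localization.AtPrime p) a)
      rw [hψ]
    show IsLocalRing.residue (Localization.AtPrime p) (e.symm (inc ⟨algebraMap A E a, hA a⟩)) = _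
    rw [h1]
    rfl

end Pool.Agent.LibHP.CIM
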