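import Mathlib

set_option autoImplicit false
open IsLocalRing

namespace Pool.Agent.LibHP.CIM

/-! # Row A2 (ONLY MATHLIB, MEDIUM): associated primes and depth

1. `exists_ass_quot`. `R` local Noetherian, `M` finite, `x ∈ m` regular on `M`, `p ∈ Ass M`. Then some `q ∈ Ass (M / xM)` contains
`p` and `x`. Proof: `U = {u : M | p u = 0} ≠ 0`. `U` is not contained in `xM`: otherwise `u = x u'` with `p x u' = 0`, so `p u' = 0`
(`x` regular), so `U = x U`, so `U = 0` by Nakayama (`Submodule.eq_bot_of_le_smul_of_le_jacobson_bot`; `U` is finitely generated). Take `z ∈ U`, `z ∉ xM`: its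
class in `M / xM` is nonzero and killed by `p` and `x`; the annihilator of the class is contained in an associated prime
(`exists_le_isAssociatedPrime_of_isNoetherianRing`).
2. `dim_of_depth`: if `rs` is weakly regular on `M` (elements of the maximal ideal), `p ∈ Ass M`, then `dim R / p ≥ rs.length`. Induction
on `rs` generalising `M` (`RingTheory.Sequence.isWeaklyRegular_cons_iff`): `x :: rs'`; `q` of 1. strictly contains `p`: `x ∈ q`, `x ∉ p` because
`x` is regular (an element of an associated prime is not regular: `IsAssociatedPrime` gives `z ≠ 0` with `p = ann z`). `dim R/p ≥ 1 + dim R/q`: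
`ringKrullDim_quotient_succ_le_of_nonZeroDivisor` or chains of primes (`Order.krullDim`, `ringKrullDim_quotient`). -/

open scoped Pointwise in
theorem exists_ass_quot (R M : Type) [CommRing R] [IsNoetherianRing R] [IsLocalRing R] [AddCommGroup M]
    [Module R M] [Module.Finite R M] (x : R) (hx : x ∈ maximalIdeal R) (hreg : IsSMulRegular M x)
    (p : Ideal R) (hp : p ∈ associatedPrimes R M) :
    ∃ q ∈ associatedPrimes R (QuotSMulTop x M), p ≤ q ∧ x ∈ q := by
  rw [AssociatedPrimes.mem_iff, isAssociatedPrime_iff] at hp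
  obtain ⟨hpp, z₀, hz₀⟩ := hp
  have hz0 : z₀ ≠ 0 := by
    rintro rfl
    apply hpp.ne_top
    rw [hz₀, Ideal.eq_top_iff_one, Submodule.mem_colon_singleton]
    simp
  let U : Submodule R M := Submodule.torsionBySet R M (p : Set R)
  have hU : ∀ u : M, u ∈ U ↔ ∀ a ∈ p, a • u = 0 := by
    intro u
    rw [Submodule.mem_torsionBySet_iff]
    exact ⟨fun h a ha => h ⟨a, ha⟩, fun h a => h a a.2⟩
  have hz₀U : z₀ ∈ U := by
    rw [hU]
    intro a ha
    rw [hz₀, Submodule.mem_colon_singleton, Submodule.mem_bot] at ha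
    exact ha
  have hex : ∃ z ∈ U, z ∉ x • (⊤ : Submodule R M) := by
    by_contra hcon
    push Not at hcon
    have hle : U ≤ maximalIdeal R • U := by
      intro u hu
      obtain ⟨u', -, hu'⟩ := (Submodule.mem_smul_pointwise_iff_exists _ _ _).1 (hcon u hu)
      have hu'U : u' ∈ U := by
        rw [hU]
        intro a ha
        apply hreg
        show x • a • u' = x • (0 : M)
        rw [smul_zero, smul_comm, hu']
        exact (hU u).1 hu a ha
      rw [← hu']
      exact Submodule.smul_mem_smul hx hu'U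
    have hbot : U = ⊥ := by
      refine Submodule.eq_bot_of_le_smul_of_le_jacobson_bot (maximalIdeal R) U
        (IsNoetherian.noetherian U) hle ?_
      exact IsLocalRing.maximalIdeal_le_jacobson _
    rw [hbot, Submodule.mem_bot] at hz₀U
    exact hz0 hz₀U
  obtain ⟨z, hzU, hzx⟩ := hex
  have hne : (Submodule.Quotient.mk z : QuotSMulTop x M) ≠ 0 := by
    rw [Ne, Submodule.Quotient.mk_eq_zero]
    exact hzx
  obtain ⟨q, hq, hle⟩ := exists_le_isAssociatedPrime_of_isNoetherianRing R
    (Submodule.Quotient.mk z : QuotSMulTop x M) hne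
  refine ⟨q, hq, fun a ha => hle ?_, hle ?_⟩
  · rw [Submodule.mem_colon_singleton, ← Submodule.Quotient.mk_smul, (hU z).1 hzU a ha,
      Submodule.Quotient.mk_zero]
    exact Submodule.zero_mem _
  · rw [Submodule.mem_colon_singleton, ← Submodule.Quotient.mk_smul, Submodule.mem_bot,
      Submodule.Quotient.mk_eq_zero]
    exact Submodule.smul_mem_pointwise_smul _ _ _ trivial

/-- `dim R / q + 1 ≤ dim R / p` for primes `p ⊂ q`. -/
private lemma dim_succ_of_lt {R : Type} [CommRing R] (p q : Ideal R) (hp : p.IsPrime)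
    (hpq : p ≤ q) (x : R) (hxq : x ∈ q) (hxp : x ∉ p) :
    ringKrullDim (R ⧸ q) + 1 ≤ ringKrullDim (R ⧸ p) := by
  have hx0 : (Ideal.Quotient.mk p x) ≠ 0 := by
    rw [Ne, Ideal.Quotient.eq_zero_iff_mem]
    exact hxp
  have h1 := ringKrullDim_quotient_succ_le_of_nonZeroDivisor
    (mem_nonZeroDivisors_of_ne_zero hx0)
  have H : ∀ a ∈ Ideal.span {Ideal.Quotient.mk p x}, Ideal.Quotient.factor hpq a = 0 := by
    intro a ha
    obtain ⟨b, rfl⟩ := Ideal.mem_span_singleton'.1 ha
    rw [map_mul, Ideal.Quotient.factor_mk, Ideal.Quotient.eq_zero_iff_mem.2 hxq, mul_zero]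
  have h2 : ringKrullDim (R ⧸ q) ≤
      ringKrullDim ((R ⧸ p) ⧸ Ideal.span {Ideal.Quotient.mk p x}) :=
    ringKrullDim_le_of_surjective (Ideal.Quotient.lift _ (Ideal.Quotient.factor hpq) H)
      (Ideal.Quotient.lift_surjective_of_surjective _ H (Ideal.Quotient.factor_surjective hpq))
  exact (by gcongr : ringKrullDim (R ⧸ q) + 1 ≤ _ + 1).trans h1

theorem dim_of_depth (R : Type) [CommRing R] [IsNoetherianRing R] [IsLocalRing R] (rs : List R) :
    ∀ (M : Type) [AddCommGroup M] [Module R M] [Module.Finite R M],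
      RingTheory.Sequence.IsWeaklyRegular M rs → (∀ r ∈ rs, r ∈ maximalIdeal R) →
      ∀ p ∈ associatedPrimes R M, (rs.length : WithBot ℕ∞) ≤ ringKrullDim (R ⧸ p) := by
  induction rs with
  | nil =>
    intro M _ _ _ _ _ p hp
    have := hp.isPrime
    simpa using ringKrullDim_nonneg_of_nontrivial
  | cons x rs ih =>
    intro M _ _ _ hreg hm p hp
    rw [RingTheory.Sequence.isWeaklyRegular_cons_iff] at hreg
    obtain ⟨q, hq, hpq, hxq⟩ := exists_ass_quot R M x (hm x List.mem_cons_self) hreg.1 p hp
    have h1 := ih (QuotSMulTop x M) hreg.2 (fun r hr => hm r (List.mem_cons_of_mem _ hr)) q hq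
    have hxp : x ∉ p := by
      intro hx
      have hp' := hp
      rw [AssociatedPrimes.mem_iff, isAssociatedPrime_iff] at hp'
      obtain ⟨hpp, z₀, hz₀⟩ := hp'
      have hz0 : z₀ ≠ 0 := by
        rintro rfl
        apply hpp.ne_top
        rw [hz₀, Ideal.eq_top_iff_one, Submodule.mem_colon_singleton]
        simp
      rw [hz₀, Submodule.mem_colon_singleton, Submodule.mem_bot] at hx
      apply hz0
      apply hreg.1
      show x • z₀ = x • (0 : M)
      rw [hx, smul_zero]
    have h2 := dim_succ_of_lt p q hp.isPrime hpq x hxq hxp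
    rw [List.length_cons]
    push_cast
    exact (by gcongr : (rs.length : WithBot ℕ∞) + 1 ≤ ringKrullDim (R ⧸ q) + 1).trans h2

end Pool.Agent.LibHP.CIM
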