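import Mathlib

set_option autoImplicit false
open IsLocalRing

namespace Pool.Agent.LibHP.CIM

/-! # Row A3 (ONLY MATHLIB, MEDIUM): the depth drops by at most one

Either with Mathlib's Rees theorem (`ModuleCat.exists_isRegular_tfae` in Mathlib/RingTheory/Depth/Rees.lean, `I = maximalIdeal R`; long exact
sequence of `Ext` for `0 → M → M → M/yM → 0`), or elementary: induction on the length `d` for all `M`. `d = 1`: `rs' = []`. `d ≥ 2`,
`rs = x :: rs0`. KEY: if `u ∉ yM`, `m u ⊆ yM` then `x u = y w` with `w ∉ xM` and `m w ⊆ xM`, for `M`-regular `x`, `y`; so `m ∈ Ass (M/xM)` iff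
`m ∈ Ass (M/yM)`. As `d ≥ 2`, `m ∉ Ass (M/xM)`, so `m ∉ Ass (M/yM)`; prime avoidance (finitely many associated primes) gives `z ∈ m` regular on
`M/xM`, `M/yM` and `M`. Then (local ring: regular sequences can be permuted, `IsWeaklyRegular` of `[x, z]` and `[z, x]`) by induction `M/(x,z)M`
has a regular sequence of length `d - 2`, so `M/zM` has one of length `d - 1` (starting with `x`), `y` is regular on `M/zM`, by induction `M/(z,y)M`
has one of length `d - 2`, and `M/yM` has one of length `d - 1` starting with `z`. -/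

theorem depth_drop (R : Type) [CommRing R] [IsNoetherianRing R] [IsLocalRing R] (M : Type)
    [AddCommGroup M] [Module R M] [Module.Finite R M] [Nontrivial M] (d : ℕ) (rs : List R)
    (hlen : rs.length = d + 1) (hrs : RingTheory.Sequence.IsWeaklyRegular M rs)
    (hm : ∀ r ∈ rs, r ∈ maximalIdeal R) (y : R) (hy : y ∈ maximalIdeal R) (hreg : IsSMulRegular M y) :
    ∃ rs' : List R, rs'.length = d ∧ RingTheory.Sequence.IsWeaklyRegular (QuotSMulTop y M) rs' ∧
      ∀ r ∈ rs', r ∈ maximalIdeal R := by
  have hjac : maximalIdeal R ≤ Ideal.jacobson ⊥ := IsLocalRing.maximalIdeal_le_jacobson _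
  have hlt : ∀ (M' : Type) [AddCommGroup M'] [Module R M'] [Module.Finite R M'] [Nontrivial M'],
      (maximalIdeal R) • (⊤ : Submodule R M') < ⊤ := by
    intro M' _ _ _ _
    refine lt_top_iff_ne_top.2 fun h => ?_
    have h1 : (⊤ : Submodule R M') = ⊥ :=
      Submodule.eq_bot_of_le_smul_of_le_jacobson_bot (maximalIdeal R) ⊤ Module.Finite.fg_top
        h.ge hjac
    exact (bot_ne_top (α := Submodule R M')) h1.symm
  have hregM : RingTheory.Sequence.IsRegular M rs := by
    rw [RingTheory.Sequence.isRegular_iff]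
    refine ⟨hrs, fun h => ?_⟩
    have h2 : Ideal.ofList rs ≤ maximalIdeal R := by
      rw [Ideal.ofList, Ideal.span_le]
      exact hm
    have h3 : (⊤ : Submodule R M) ≤ maximalIdeal R • ⊤ := by
      conv_lhs => rw [h]
      exact Submodule.smul_mono_left h2
    exact (hlt M).ne (top_le_iff.1 h3)
  have hNsupp : Module.support R (R ⧸ maximalIdeal R) =
      PrimeSpectrum.zeroLocus (maximalIdeal R : Set R) := by
    rw [Module.support_eq_zeroLocus, Ideal.annihilator_quotient]
  have hext : ∀ i < d + 1, Subsingleton (CategoryTheory.Abelian.Ext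
      (ModuleCat.of R (R ⧸ maximalIdeal R)) (ModuleCat.of R M) i) := by
    intro i hi
    exact ModuleCat.subsingleton_ext_of_exists_isRegular (maximalIdeal R)
      (ModuleCat.of R (R ⧸ maximalIdeal R)) hNsupp.subset (ModuleCat.of R M) (hlt M) rs hm hregM i
      (by omega)
  have hext' : ∀ i < d, Subsingleton (CategoryTheory.Abelian.Ext
      (ModuleCat.of R (R ⧸ maximalIdeal R)) (ModuleCat.of R (QuotSMulTop y M)) i) := by
    intro i hi
    have zero1 := AddCommGrpCat.isZero_of_iff_subsingleton.mpr (hext i (by omega))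
    have zero2 := AddCommGrpCat.isZero_of_iff_subsingleton.mpr (hext (i + 1) (by omega))
    exact AddCommGrpCat.subsingleton_of_isZero <|
      CategoryTheory.ShortComplex.Exact.isZero_of_both_zeros
      ((CategoryTheory.Abelian.Ext.covariant_sequence_exact₃'
        (ModuleCat.of R (R ⧸ maximalIdeal R))
        (IsSMulRegular.smulShortComplex_shortExact (M := ModuleCat.of R M) hreg)) i (i + 1) rfl)
      (zero1.eq_zero_of_src _) (zero2.eq_zero_of_tgt _)
  have hnt : Nontrivial (QuotSMulTop y M) := by
    rw [Submodule.Quotient.nontrivial_iff]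
    intro h
    have h4 : (⊤ : Submodule R M) ≤ maximalIdeal R • ⊤ := by
      conv_lhs => rw [← h, ← Submodule.ideal_span_singleton_smul]
      exact Submodule.smul_mono_left ((Ideal.span_singleton_le_iff_mem _).2 hy)
    exact (hlt M).ne (top_le_iff.1 h4)
  obtain ⟨rs', h1, h2, h3⟩ := ModuleCat.exists_isRegular_of_exists_subsingleton_ext
    (maximalIdeal R) d (ModuleCat.of R (QuotSMulTop y M)) (hlt _)
    (ModuleCat.of R (R ⧸ maximalIdeal R)) hNsupp hext'
  exact ⟨rs', h1, h3.toIsWeaklyRegular, h2⟩

end Pool.Agent.LibHP.CIM
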