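import Mathlib

set_option autoImplicit false
open MvPolynomial

namespace Pool.Agent.LibHP.CIM

/-! # Row A5 (ONLY MATHLIB, EASY): homogeneous ideals and multiplication by units at the origin

The ideal `I` spanned by the forms `g i` contains the homogeneous components of its elements (`Ideal.homogeneous_span`,
`mem_iff_homogeneousComponent_mem`; see `E4_homogeneous` in LibHPC/E4.lean). Let `t x ∈ I`, `t(0) ≠ 0`. Show by strong induction on `e` that the component
`x_e ∈ I`: the component of degree `e` of `t x` is `t_0 x_e + ∑_(i < e) t_(e-i) x_i`, `t_0` a nonzero constant (`coeff 0 t`). -/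

private theorem A5_comp {F : Type} [Field F] {N : ℕ} (t y : MvPolynomial (Fin N) F) (e : ℕ)
    (hy : ∀ m : Fin N →₀ ℕ, m.degree < e → coeff m y = 0) :
    homogeneousComponent e (t * y) = C (coeff 0 t) * homogeneousComponent e y := by
  classical
  ext m
  rw [coeff_homogeneousComponent, coeff_C_mul, coeff_homogeneousComponent]
  split_ifs with hm
  · rw [coeff_mul, Finset.sum_eq_single ((0 : Fin N →₀ ℕ), m)]
    · rintro ⟨a, b⟩ hab hne
      rw [Finset.HasAntidiagonal.mem_antidiagonal] at hab
      simp only at hab ⊢
      have h1 : a.degree + b.degree = e := by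
        rw [← hm, ← hab, map_add]
      by_cases ha : a = 0
      · exfalso
        apply hne
        subst ha
        rw [zero_add] at hab
        rw [hab]
      · have h2 : a.degree ≠ 0 := fun h => ha ((Finsupp.degree_eq_zero_iff a).1 h)
        rw [hy b (by omega), mul_zero]
    · intro h
      exact absurd (Finset.HasAntidiagonal.mem_antidiagonal.2 (zero_add m)) h
  · rw [mul_zero]

theorem mem_of_mul_unit {F : Type} [Field F] {N : ℕ} {ι : Type} (g : ι → MvPolynomial (Fin N) F)
    (d : ι → ℕ) (hg : ∀ i, (g i).IsHomogeneous (d i)) (t x : MvPolynomial (Fin N) F)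
    (ht : eval (fun _ => (0 : F)) t ≠ 0) (h : t * x ∈ Ideal.span (Set.range g)) :
    x ∈ Ideal.span (Set.range g) := by
  classical
  let _ : GradedAlgebra (homogeneousSubmodule (Fin N) F) := gradedAlgebra
  have hI : ∀ G : MvPolynomial (Fin N) F, G ∈ Ideal.span (Set.range g) ↔
      ∀ e, homogeneousComponent e G ∈ Ideal.span (Set.range g) := fun G =>
    mem_iff_homogeneousComponent_mem (Ideal.homogeneous_span _ _ (by
      rintro z ⟨i, rfl⟩
      exact ⟨d i, hg i⟩)) G
  have ht0 : coeff 0 t ≠ 0 := by
    intro h0
    apply ht
    rw [eval_zero', constantCoeff_eq]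
    exact h0
  rw [hI]
  intro e
  induction e using Nat.strong_induction_on with
  | _ e ih =>
    set y := x - ∑ i ∈ Finset.range e, homogeneousComponent i x with hy
    have hyc : ∀ m : Fin N →₀ ℕ, m.degree < e → coeff m y = 0 := by
      intro m hm
      rw [hy, coeff_sub, coeff_sum, Finset.sum_eq_single m.degree]
      · rw [coeff_homogeneousComponent, if_pos rfl, sub_self]
      · intro b _ hb
        rw [coeff_homogeneousComponent, if_neg (Ne.symm hb)]
      · intro h
        exact absurd (Finset.mem_range.2 hm) h
    have hye : homogeneousComponent e y = homogeneousComponent e x := by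
      rw [hy, map_sub, map_sum, Finset.sum_eq_zero, sub_zero]
      intro i hi
      rw [homogeneousComponent_of_mem (homogeneousComponent_isHomogeneous i x), if_neg]
      rw [Finset.mem_range] at hi
      omega
    have hty : t * y ∈ Ideal.span (Set.range g) := by
      rw [hy, mul_sub, Finset.mul_sum]
      refine Ideal.sub_mem _ h (Ideal.sum_mem _ fun i hi => Ideal.mul_mem_left _ _ ?_)
      exact ih i (Finset.mem_range.1 hi)
    have h1 := (hI _).1 hty e
    rw [A5_comp t y e hyc, hye] at h1
    have h2 : homogeneousComponent e x =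
        C (coeff 0 t)⁻¹ * (C (coeff 0 t) * homogeneousComponent e x) := by
      rw [← mul_assoc, ← C_mul, inv_mul_cancel₀ ht0, C_1, one_mul]
    rw [h2]
    exact Ideal.mul_mem_left _ _ h1

end Pool.Agent.LibHP.CIM
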