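import Pool.Agent.LibCIM.A2
import Pool.Agent.LibCIM.A3
import Pool.Agent.LibCIM.A5

set_option autoImplicit false
open MvPolynomial

namespace Pool.Agent.LibHP.CIM

/-! # Row A4 (STRONG): `N` forms in `N` variables with only the trivial common zero are a regular sequence (Macaulay)

Typed by helper96. Induction on `i`: the module `M i = R ⧸ (g_(i-1), .., g_0)`, `R` the local ring at the origin, has a weakly regular
sequence of length `N - i` in the maximal ideal (`depth_drop`, A3), and `g_i` is regular on `M i` (`dim_of_depth`, A2 and Krull's height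
theorem). -/

private def a4L {R : Type} (g : ℕ → R) : ℕ → List R
  | 0 => []
  | i + 1 => g i :: a4L g i

private lemma a4L_mem {R : Type} (g : ℕ → R) (i : ℕ) (x : R) : x ∈ a4L g i ↔ ∃ j < i, g j = x := by
  induction i with
  | zero => simp [a4L]
  | succ i ih =>
    rw [a4L, List.mem_cons, ih]
    constructor
    · rintro (h | ⟨j, hj, rfl⟩)
      · exact ⟨i, by omega, h.symm⟩
      · exact ⟨j, by omega, rfl⟩
    · rintro ⟨j, hj, rfl⟩
      rcases Nat.lt_succ_iff_lt_or_eq.mp hj with h | rfl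
      · exact Or.inr ⟨j, h, rfl⟩
      · exact Or.inl rfl

private theorem a4_dim {R : Type} [CommRing R] [IsNoetherianRing R] [IsLocalRing R] (N : ℕ) (g : ℕ → R)
    (hg : ∀ i < N, g i ∈ IsLocalRing.maximalIdeal R)
    (hprim : ∀ q : Ideal R, q.IsPrime → (∀ i < N, g i ∈ q) → q = IsLocalRing.maximalIdeal R)
    (i d : ℕ) (hid : i + 1 + d = N) (p : Ideal R) [hpp : p.IsPrime] (hp : ∀ j ≤ i, g j ∈ p) :
    ringKrullDim (R ⧸ p) ≤ (d : WithBot ℕ∞) := by
  classical
  have : Nontrivial (R ⧸ p) := Ideal.Quotient.nontrivial_iff.mpr hpp.ne_top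
  have : IsLocalRing (R ⧸ p) := IsLocalRing.of_surjective' (Ideal.Quotient.mk p) Ideal.Quotient.mk_surjective
  rw [← IsLocalRing.maximalIdeal_height_eq_ringKrullDim]
  set s : Finset (R ⧸ p) := (Finset.Ico (i + 1) N).image (fun j => Ideal.Quotient.mk p (g j)) with hs
  have hcard : s.card ≤ d := by
    refine Finset.card_image_le.trans ?_
    rw [Nat.card_Ico]; omega
  have hcomap : ∀ x : R, Ideal.Quotient.mk p x ∈ IsLocalRing.maximalIdeal (R ⧸ p) ↔ x ∈ IsLocalRing.maximalIdeal R := by
    intro x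
    have : IsLocalRing.maximalIdeal R = (IsLocalRing.maximalIdeal (R ⧸ p)).comap (Ideal.Quotient.mk p) := by
      symm
      exact IsLocalRing.eq_maximalIdeal (Ideal.comap_isMaximal_of_surjective _ Ideal.Quotient.mk_surjective)
    rw [this, Ideal.mem_comap]
  have hmin : IsLocalRing.maximalIdeal (R ⧸ p) ∈ (Ideal.span (s : Set (R ⧸ p))).minimalPrimes := by
    refine ⟨⟨inferInstance, ?_⟩, ?_⟩
    · rw [Ideal.span_le]
      intro x hx
      rw [hs, Finset.coe_image] at hx
      obtain ⟨j, hj, rfl⟩ := hx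
      rw [Finset.coe_Ico, Set.mem_Ico] at hj
      exact (hcomap _).mpr (hg j hj.2)
    · rintro q ⟨hq, hsq⟩ -
      have := hq
      have h1 : q.comap (Ideal.Quotient.mk p) = IsLocalRing.maximalIdeal R := by
        refine hprim _ (Ideal.comap_isPrime _ _) ?_
        intro j hj
        rw [Ideal.mem_comap]
        by_cases hji : j ≤ i
        · rw [Ideal.Quotient.eq_zero_iff_mem.mpr (hp j hji)]; exact q.zero_mem
        · refine hsq (Ideal.subset_span ?_)
          rw [hs, Finset.coe_image]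
          exact ⟨j, by rw [Finset.coe_Ico, Set.mem_Ico]; omega, rfl⟩
      intro x hx
      obtain ⟨y, rfl⟩ := Ideal.Quotient.mk_surjective x
      have : y ∈ q.comap (Ideal.Quotient.mk p) := by rw [h1]; exact (hcomap y).mp hx
      exact this
  have h := Ideal.height_le_card_of_mem_minimalPrimes_span_finset hmin
  have h2 : (IsLocalRing.maximalIdeal (R ⧸ p)).height ≤ (d : ℕ∞) := h.trans (by exact_mod_cast hcard)
  exact_mod_cast h2

private theorem a4_reg {R : Type} [CommRing R] [IsNoetherianRing R] [IsLocalRing R] (N : ℕ) (g : ℕ → R)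
    (hg : ∀ i < N, g i ∈ IsLocalRing.maximalIdeal R)
    (hprim : ∀ q : Ideal R, q.IsPrime → (∀ i < N, g i ∈ q) → q = IsLocalRing.maximalIdeal R)
    (i d : ℕ) (hid : i + 1 + d = N) (rs : List R) (hlen : rs.length = d + 1)
    (hrs : RingTheory.Sequence.IsWeaklyRegular (R ⧸ (Ideal.ofList (a4L g i) • ⊤ : Submodule R R)) rs)
    (hm : ∀ r ∈ rs, r ∈ IsLocalRing.maximalIdeal R) :
    IsSMulRegular (R ⧸ (Ideal.ofList (a4L g i) • ⊤ : Submodule R R)) (g i) := by
  by_contra hcon
  have hmem : g i ∈ ⋃ p ∈ associatedPrimes R (R ⧸ (Ideal.ofList (a4L g i) • ⊤ : Submodule R R)), (p : Set R) := by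
    rw [biUnion_associatedPrimes_eq_compl_regular]
    exact hcon
  simp only [Set.mem_iUnion] at hmem
  obtain ⟨p, hpA, hgp⟩ := hmem
  have hpp : p.IsPrime := hpA.isPrime
  have hlow := dim_of_depth R rs _ hrs hm p hpA
  have hp : ∀ j ≤ i, g j ∈ p := by
    intro j hj
    rcases Nat.lt_or_eq_of_le hj with h | rfl
    · refine IsAssociatedPrime.annihilator_le hpA ?_
      rw [Submodule.mem_annihilator]
      intro x _
      obtain ⟨y, rfl⟩ := Submodule.Quotient.mk_surjective _ x
      rw [← Submodule.Quotient.mk_smul, Submodule.Quotient.mk_eq_zero]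
      refine Submodule.smul_mem_smul ?_ Submodule.mem_top
      exact Ideal.subset_span ((a4L_mem g i _).mpr ⟨j, h, rfl⟩)
    · exact hgp
  have hup := a4_dim N g hg hprim i d hid p hp
  have := hlow.trans hup
  rw [hlen] at this
  have h3 : d + 1 ≤ d := by exact_mod_cast this
  omega

private theorem a4_main {R : Type} [CommRing R] [IsNoetherianRing R] [IsLocalRing R] (N : ℕ) (g : ℕ → R)
    (hg : ∀ i < N, g i ∈ IsLocalRing.maximalIdeal R)
    (hprim : ∀ q : Ideal R, q.IsPrime → (∀ i < N, g i ∈ q) → q = IsLocalRing.maximalIdeal R)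
    (rs0 : List R) (hlen : rs0.length = N) (hrs0 : RingTheory.Sequence.IsWeaklyRegular R rs0)
    (hm0 : ∀ r ∈ rs0, r ∈ IsLocalRing.maximalIdeal R) (i : ℕ) (hi : i ≤ N) :
    ∃ rs : List R, rs.length = N - i ∧
      RingTheory.Sequence.IsWeaklyRegular (R ⧸ (Ideal.ofList (a4L g i) • ⊤ : Submodule R R)) rs ∧
      ∀ r ∈ rs, r ∈ IsLocalRing.maximalIdeal R := by
  induction i with
  | zero =>
    refine ⟨rs0, by simpa using hlen, ?_, hm0⟩
    have he : (Ideal.ofList (a4L g 0) • ⊤ : Submodule R R) = ⊥ := by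
      rw [a4L, Ideal.ofList_nil, Submodule.bot_smul]
    exact ((Submodule.quotEquivOfEqBot _ he).isWeaklyRegular_congr rs0).mpr hrs0
  | succ i ih =>
    obtain ⟨rs, hl, hw, hm⟩ := ih (by omega)
    have hl' : rs.length = (N - (i + 1)) + 1 := by omega
    have hreg := a4_reg N g hg hprim i (N - (i + 1)) (by omega) rs hl' hw hm
    have : Nontrivial (R ⧸ (Ideal.ofList (a4L g i) • ⊤ : Submodule R R)) := by
      rw [Submodule.Quotient.nontrivial_iff]
      intro htop
      have hle : (Ideal.ofList (a4L g i) • ⊤ : Submodule R R) ≤ IsLocalRing.maximalIdeal R := by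
        rw [smul_eq_mul, Ideal.mul_top, Ideal.ofList, Ideal.span_le]
        intro x hx
        obtain ⟨j, hj, rfl⟩ := (a4L_mem g i x).mp hx
        exact hg j (by omega)
      rw [htop] at hle
      exact (IsLocalRing.maximalIdeal.isMaximal R).ne_top (top_le_iff.mp hle)
    obtain ⟨rs', h1, h2, h3⟩ := depth_drop R (R ⧸ (Ideal.ofList (a4L g i) • ⊤ : Submodule R R))
      (N - (i + 1)) rs hl' hw hm (g i) (hg i (by omega)) hreg
    refine ⟨rs', h1, ?_, h3⟩
    exact ((Submodule.quotOfListConsSMulTopEquivQuotSMulTopOuter R (g i) (a4L g i)).isWeaklyRegular_congr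
      rs').mpr h2

/-- The variables are a weakly regular sequence. -/
private theorem a4_vars (Ω : Type) [Field Ω] (N : ℕ) :
    RingTheory.Sequence.IsWeaklyRegular (MvPolynomial (Fin N) Ω)
      (List.ofFn (fun i : Fin N => (X i : MvPolynomial (Fin N) Ω))) := by
  rw [RingTheory.Sequence.isWeaklyRegular_iff_Fin]
  intro i
  rw [isSMulRegular_quotient_iff_mem_of_smul_mem]
  have hi : (i : ℕ) < N := i.2.trans_eq List.length_ofFn
  have hgen : (Ideal.ofList ((List.ofFn (fun i : Fin N => (X i : MvPolynomial (Fin N) Ω))).take i) • ⊤ :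
      Submodule (MvPolynomial (Fin N) Ω) (MvPolynomial (Fin N) Ω)) =
      Ideal.span (X '' {j : Fin N | (j : ℕ) < i}) := by
    rw [smul_eq_mul, Ideal.mul_top, Ideal.ofList]
    congr 1
    ext x
    simp only [Set.mem_ofPred_eq, Set.mem_image]
    constructor
    · intro hx
      obtain ⟨j, hj, rfl⟩ := List.mem_iff_getElem.mp hx
      have hj' : j < (i : ℕ) := lt_of_lt_of_le (hj.trans_eq List.length_take) (min_le_left _ _)
      exact ⟨⟨j, hj'.trans hi⟩, hj', by simp⟩
    · rintro ⟨j, hj, rfl⟩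
      rw [List.mem_iff_getElem]
      have hjl : (j : ℕ) < ((List.ofFn (fun i : Fin N => (X i : MvPolynomial (Fin N) Ω))).take i).length := by
        simp only [List.length_take, List.length_ofFn]; omega
      exact ⟨j, hjl, by simp⟩
  rw [hgen]
  intro x hx
  have hget : (List.ofFn (fun i : Fin N => (X i : MvPolynomial (Fin N) Ω)))[(i : ℕ)] = X ⟨i, hi⟩ := by simp
  rw [Fin.getElem_fin, hget, smul_eq_mul] at hx
  rw [mem_ideal_span_X_image] at hx ⊢
  intro m hm
  have h1 : m + Finsupp.single ⟨i, hi⟩ 1 ∈ (X ⟨(i : ℕ), hi⟩ * x : MvPolynomial (Fin N) Ω).support := by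
    rw [mem_support_iff, mul_comm, coeff_mul_X]
    exact mem_support_iff.mp hm
  obtain ⟨j, hj, hne⟩ := hx _ h1
  refine ⟨j, hj, ?_⟩
  rw [Finsupp.add_apply, Finsupp.single_apply, if_neg, add_zero] at hne
  · exact hne
  · rintro rfl
    exact absurd hj (by simp)

theorem forms_regular (Ω : Type) [Field Ω] [IsAlgClosed Ω] {N : ℕ}
    (g : Fin N → MvPolynomial (Fin N) Ω) (d : Fin N → ℕ) (hd : ∀ i, 0 < d i)
    (hg : ∀ i, (g i).IsHomogeneous (d i)) (h0 : ∀ y : Fin N → Ω, (∀ i, eval y (g i) = 0) → y = 0)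
    (i : Fin N) (x : MvPolynomial (Fin N) Ω) (hx : g i * x ∈ Ideal.span (g '' {j | j < i})) :
    x ∈ Ideal.span (g '' {j | j < i}) := by
  classical
  set m0 : Ideal (MvPolynomial (Fin N) Ω) := RingHom.ker (eval (fun _ => (0 : Ω)) : MvPolynomial (Fin N) Ω →+* Ω) with hm0
  have hm0p : m0.IsPrime := RingHom.ker_isPrime _
  let R := Localization.AtPrime m0
  have : IsNoetherianRing R := IsLocalization.isNoetherianRing m0.primeCompl R inferInstance
  -- forms of positive degree vanish at the origin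
  have hg0 : ∀ j, g j ∈ m0 := by
    intro j
    rw [hm0, RingHom.mem_ker]
    have h2 : eval (fun _ => (0 : Ω)) (g j) = constantCoeff (g j) := by
      rw [← MvPolynomial.eval_zero]; rfl
    rw [h2, constantCoeff_eq]
    exact (hg j).coeff_eq_zero (by rw [map_zero]; exact (hd j).ne)
  let G : ℕ → R := fun j => if h : j < N then algebraMap (MvPolynomial (Fin N) Ω) R (g ⟨j, h⟩) else 0
  have hG : ∀ (j : ℕ) (h : j < N), G j = algebraMap (MvPolynomial (Fin N) Ω) R (g ⟨j, h⟩) := by
    intro j h; simp only [G, dif_pos h]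
  have hGm : ∀ j < N, G j ∈ IsLocalRing.maximalIdeal R := by
    intro j h
    rw [hG j h]
    exact (IsLocalization.AtPrime.to_map_mem_maximal_iff R m0 _).mpr (hg0 _)
  have hvars : ∀ f ∈ m0, f ∈ Ideal.span (X '' (Set.univ : Set (Fin N)) : Set (MvPolynomial (Fin N) Ω)) := by
    intro f hf
    rw [mem_ideal_span_X_image]
    intro m hm
    by_contra hcon
    push Not at hcon
    have hm0' : m = 0 := by
      ext j; exact hcon j (Set.mem_univ _)
    subst hm0'
    rw [hm0, RingHom.mem_ker] at hf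
    rw [mem_support_iff] at hm
    apply hm
    have h2 : eval (fun _ => (0 : Ω)) f = constantCoeff f := by
      rw [← MvPolynomial.eval_zero]; rfl
    rw [← constantCoeff_eq, ← h2, hf]
  have hprim : ∀ q : Ideal R, q.IsPrime → (∀ i < N, G i ∈ q) → q = IsLocalRing.maximalIdeal R := by
    intro q hq hGq
    have := hq
    have hQ : ∀ j, g j ∈ q.comap (algebraMap (MvPolynomial (Fin N) Ω) R) := by
      intro j
      rw [Ideal.mem_comap, ← hG j j.2]
      exact hGq j j.2
    have hX : ∀ l, (X l : MvPolynomial (Fin N) Ω) ∈ q.comap (algebraMap (MvPolynomial (Fin N) Ω) R) := by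
      intro l
      have hrad : (X l : MvPolynomial (Fin N) Ω) ∈ (Ideal.span (Set.range g)).radical := by
        rw [← vanishingIdeal_zeroLocus_eq_radical (K := Ω), mem_vanishingIdeal_iff]
        intro y hy
        have : y = 0 := h0 y (fun j => by
          have := hy (g j) (Ideal.subset_span ⟨j, rfl⟩)
          rwa [aeval_eq_eval] at this)
        rw [this, aeval_X]; rfl
      have hle : Ideal.span (Set.range g) ≤ q.comap (algebraMap (MvPolynomial (Fin N) Ω) R) := by
        rw [Ideal.span_le]; rintro _ ⟨j, rfl⟩; exact hQ j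
      have h3 := Ideal.radical_mono hle hrad
      rwa [(Ideal.comap_isPrime _ q).radical] at h3
    have hm0le : m0 ≤ q.comap (algebraMap (MvPolynomial (Fin N) Ω) R) := by
      intro f hf
      have := hvars f hf
      refine (Ideal.span_le.mpr ?_) this
      rintro _ ⟨l, -, rfl⟩
      exact hX l
    refine le_antisymm (IsLocalRing.le_maximalIdeal hq.ne_top) ?_
    rw [← Localization.AtPrime.map_eq_maximalIdeal]
    exact Ideal.map_le_iff_le_comap.mpr hm0le
  have hrs0 := RingTheory.Sequence.IsWeaklyRegular.of_isLocalization R m0.primeCompl (a4_vars Ω N)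
  obtain ⟨rs, hl, hw, hm⟩ := a4_main N G hGm hprim _ (by simp) hrs0 (by
    intro r hr
    obtain ⟨f, hf, rfl⟩ := List.mem_map.mp hr
    obtain ⟨j, rfl⟩ := (List.mem_ofFn' _ _).mp hf
    refine (IsLocalization.AtPrime.to_map_mem_maximal_iff R m0 _).mpr ?_
    rw [hm0, RingHom.mem_ker, eval_X]) i (le_of_lt i.2)
  have hreg := a4_reg N G hGm hprim i (N - (i + 1)) (by have := i.2; omega) rs (by have := i.2; omega) hw hm
  have hideal : (Ideal.ofList (a4L G i) • ⊤ : Submodule R R) =
      (Ideal.span (g '' {j | j < i})).map (algebraMap (MvPolynomial (Fin N) Ω) R) := by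
    rw [smul_eq_mul, Ideal.mul_top, Ideal.ofList, Ideal.map_span]
    congr 1
    ext z
    simp only [Set.mem_ofPred_eq, Set.mem_image]
    rw [a4L_mem]
    constructor
    · rintro ⟨j, hj, rfl⟩
      have hjN : j < N := hj.trans i.2
      exact ⟨g ⟨j, hjN⟩, ⟨⟨j, hjN⟩, hj, rfl⟩, (hG j hjN).symm⟩
    · rintro ⟨_, ⟨j, hj, rfl⟩, rfl⟩
      exact ⟨j, hj, hG j j.2⟩
  have hmem : algebraMap (MvPolynomial (Fin N) Ω) R x ∈ (Ideal.ofList (a4L G i) • ⊤ : Submodule R R) := by
    refine mem_of_isSMulRegular_quotient_of_smul_mem hreg ?_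
    rw [hideal, hG i i.2, smul_eq_mul, ← map_mul]
    exact Ideal.mem_map_of_mem _ hx
  rw [hideal, IsLocalization.algebraMap_mem_map_algebraMap_iff m0.primeCompl] at hmem
  obtain ⟨t, ht, htx⟩ := hmem
  have hrange : g '' {j | j < i} = Set.range (fun j : {j : Fin N // j < i} => g j) := by
    ext z; simp only [Set.mem_image, Set.mem_ofPred_eq, Set.mem_range, Subtype.exists, exists_prop]
  rw [hrange] at htx ⊢
  exact mem_of_mul_unit (fun j : {j : Fin N // j < i} => g j) (fun j => d j) (fun j => hg j) t x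
    (fun h => ht (by rw [SetLike.mem_coe, hm0, RingHom.mem_ker]; exact h)) htx

end Pool.Agent.LibHP.CIM
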