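import Mathlib

set_option autoImplicit false
open IsLocalRing

namespace Pool.Agent.LibHP.CIM

/-! # Row A6 (ONLY MATHLIB, MEDIUM): depth two and a punctured spectrum of domains

Let `f g = 0`, `I = {a : a f = 0}`, `I' = {b : b I = 0}`. For a prime `p ≠ m`: `I ⊔ I'` is not contained in `p`: apply `hloc` to products: if some `s ∉ p` kills `f`
then `s ∈ I`. Otherwise, for every `a ∈ I` (`a f = 0`) some `s_a ∉ p` kills `a`; `I` is finitely generated, so some `s ∉ p` kills `I`: `s ∈ I'`.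
So `I ⊔ I'` is in no prime except possibly `m`, hence (`Ideal.radical_eq_sInf` / Noetherian) `θ₁ ^ r, θ₂ ^ r ∈ I ⊔ I'` for some `r ≥ 1` (if `I ⊔ I' = ⊤` any `r`).
`θ₁^r = a₁ + b₁`, `θ₂^r = a₂ + b₂`, `a_i ∈ I`, `b_i ∈ I'`, `a_i b_j = 0`, so `θ₁^r a₂ = a₁ a₂ + b₁ a₂ = a₁ a₂ = θ₂^r a₁`. By `hreg`: `a₁ = θ₁^r ε`, then `θ₁^r (a₂ - θ₂^r ε) = 0`, `a₂ = θ₂^r ε`.
`a₁ b₁ = 0` is `θ₁^(2r) ε (1 - ε) = 0`, so `ε (1 - ε) = 0`; in a local ring `ε` or `1 - ε` is a unit, so `ε = 0` or `ε = 1`. `ε = 0`: `a₁ = 0`, `θ₁^r = b₁ ∈ I'` kills `I ∋ g`, so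
`g = 0`. `ε = 1`: `θ₁^r = a₁ ∈ I`: `θ₁^r f = 0`, `f = 0`. -/

theorem domain_of_punctured (A : Type) [CommRing A] [IsLocalRing A] [IsNoetherianRing A]
    (θ₁ θ₂ : A) (h1 : θ₁ ∈ maximalIdeal A) (h2 : θ₂ ∈ maximalIdeal A)
    (hreg : ∀ r : ℕ, 1 ≤ r → (∀ x, θ₁ ^ r * x = 0 → x = 0) ∧
      ∀ x y, θ₂ ^ r * x = θ₁ ^ r * y → ∃ z, x = θ₁ ^ r * z)
    (hloc : ∀ p : Ideal A, p.IsPrime → p ≠ maximalIdeal A → ∀ f g : A, f * g = 0 →
      ∃ s, s ∉ p ∧ (s * f = 0 ∨ s * g = 0)) (f g : A) (hfg : f * g = 0) : f = 0 ∨ g = 0 := by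
  classical
  let I : Ideal A := (Ideal.span {f}).annihilator
  let I' : Ideal A := Submodule.annihilator I
  have hI : ∀ a, a ∈ I ↔ a * f = 0 := fun a => by
    show a ∈ (Submodule.span A {f}).annihilator ↔ a * f = 0
    rw [Submodule.mem_annihilator_span_singleton, smul_eq_mul]
  have hI' : ∀ b ∈ I', ∀ a ∈ I, b * a = 0 := fun b hb a ha =>
    (Submodule.mem_annihilator.1 hb) a ha
  -- primes containing `I ⊔ I'`
  have hprime : ∀ p : Ideal A, p.IsPrime → I ⊔ I' ≤ p → p = maximalIdeal A := by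
    intro p hp hle
    by_contra hne
    by_cases h : ∃ s, s ∉ p ∧ s * f = 0
    · obtain ⟨s, hs, hsf⟩ := h
      exact hs (hle (Ideal.mem_sup_left ((hI s).2 hsf)))
    · have hkill : ∀ a ∈ I, ∃ s, s ∉ p ∧ s * a = 0 := by
        intro a ha
        obtain ⟨s, hs, hs'⟩ := hloc p hp hne f a (by rw [mul_comm]; exact (hI a).1 ha)
        rcases hs' with h' | h'
        · exact absurd ⟨s, hs, h'⟩ h
        · exact ⟨s, hs, h'⟩
      obtain ⟨S, hS⟩ := (IsNoetherian.noetherian I : I.FG)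
      have hSI : ∀ a ∈ S, a ∈ I := fun a ha => by
        rw [← hS]
        exact Submodule.subset_span ha
      have hk : ∀ a : A, ∃ s, s ∉ p ∧ (a ∈ S → s * a = 0) := by
        intro a
        by_cases ha : a ∈ S
        · obtain ⟨s, hs, hs'⟩ := hkill a (hSI a ha)
          exact ⟨s, hs, fun _ => hs'⟩
        · exact ⟨1, fun h1 => hp.ne_top ((Ideal.eq_top_iff_one p).2 h1), fun h1 => absurd h1 ha⟩
      choose s hs hs' using hk
      have hprod : ∏ a ∈ S, s a ∉ p := by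
        intro h1
        obtain ⟨a, _, ha⟩ := (hp.prod_mem_iff).1 h1
        exact hs a ha
      apply hprod
      apply hle
      apply Ideal.mem_sup_right
      show ∏ a ∈ S, s a ∈ Submodule.annihilator I
      rw [← hS, Submodule.mem_annihilator_span]
      rintro ⟨a, ha⟩
      rw [smul_eq_mul, ← Finset.mul_prod_erase S s ha, mul_right_comm]
      show s a * a * _ = 0
      rw [hs' a ha, zero_mul]
  have hrad : ∀ θ ∈ maximalIdeal A, ∃ n : ℕ, θ ^ n ∈ I ⊔ I' := by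
    intro θ hθ
    have h1 : θ ∈ (I ⊔ I').radical := by
      rw [Ideal.radical_eq_sInf, Ideal.mem_sInf]
      rintro p ⟨hp1, hp2⟩
      rw [hprime p hp2 hp1]
      exact hθ
    exact h1
  obtain ⟨n1, hn1⟩ := hrad θ₁ h1
  obtain ⟨n2, hn2⟩ := hrad θ₂ h2
  obtain ⟨r, hr⟩ : ∃ r : ℕ, r = n1 + n2 + 1 := ⟨_, rfl⟩
  have hr1 : 1 ≤ r := by omega
  have hm1 : θ₁ ^ r ∈ I ⊔ I' := by
    have : θ₁ ^ r = θ₁ ^ (n2 + 1) * θ₁ ^ n1 := by
      rw [← pow_add, hr]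
      congr 1
      ring
    rw [this]
    exact Ideal.mul_mem_left _ _ hn1
  have hm2 : θ₂ ^ r ∈ I ⊔ I' := by
    have : θ₂ ^ r = θ₂ ^ (n1 + 1) * θ₂ ^ n2 := by
      rw [← pow_add, hr]
      congr 1
      ring
    rw [this]
    exact Ideal.mul_mem_left _ _ hn2
  obtain ⟨a₁, ha₁, b₁, hb₁, e₁⟩ := Submodule.mem_sup.1 hm1
  obtain ⟨a₂, ha₂, b₂, hb₂, e₂⟩ := Submodule.mem_sup.1 hm2
  obtain ⟨hinj, hdiv⟩ := hreg r hr1
  have h12 : b₁ * a₂ = 0 := hI' b₁ hb₁ a₂ ha₂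
  have h21 : b₂ * a₁ = 0 := hI' b₂ hb₂ a₁ ha₁
  have h11 : b₁ * a₁ = 0 := hI' b₁ hb₁ a₁ ha₁
  obtain ⟨ε, hε⟩ := hdiv a₁ a₂ (by
    rw [← e₁, ← e₂]
    linear_combination h21 - h12)
  have hb : b₁ = θ₁ ^ r * (1 - ε) := by
    rw [← e₁] at hε ⊢
    linear_combination -hε
  have hidem : ε * (1 - ε) = 0 := by
    apply hinj
    apply hinj
    rw [hb] at h11
    have : θ₁ ^ r * (θ₁ ^ r * (ε * (1 - ε))) = θ₁ ^ r * (1 - ε) * (θ₁ ^ r * ε) := by ring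
    rw [this, ← hε]
    exact h11
  rcases IsLocalRing.isUnit_or_isUnit_one_sub_self ε with hu | hu
  · left
    have h3 : 1 - ε = 0 := (hu.mul_right_eq_zero).1 hidem
    apply hinj
    have h4 : θ₁ ^ r = a₁ := by
      rw [← e₁, hb, h3, mul_zero, add_zero]
    rw [h4]
    exact (hI a₁).1 ha₁
  · right
    have h3 : ε = 0 := (hu.mul_left_eq_zero).1 hidem
    apply hinj
    have h4 : θ₁ ^ r = b₁ := by
      rw [hb, h3, sub_zero, mul_one]
    rw [h4]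
    exact hI' b₁ hb₁ g ((hI g).2 (by rw [mul_comm]; exact hfg))

end Pool.Agent.LibHP.CIM
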