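import Pool.Agent.LibCIM.A8
import Pool.Agent.LibHPF.Q2

set_option autoImplicit false
open MvPolynomial

namespace Pool.Agent.LibHP.CIM

/-! # Row A7 (MEDIUM): generic linear sections of a smooth system

`card ι + r = N`, `h` algebraically independent over `F` in `Ω`: the smooth system and the `r` generic linear forms have only the zero common zero. Suppose `v ≠ 0`; choose `l0` with `v l0 ≠ 0`; all
hypotheses are stable under `v ↦ v / v l0` if the `g i` are forms (`aeval (c • v) G = c ^ d * aeval v G`), so assume `v l0 = 1`. `W = {w | grd (g i) v · w = 0 for all i, w l0 = 0}` has dimension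
`N - card ι - 1 = r - 1` : the gradients are independent (`IsSmoothSys.ext`), they kill `v` (Euler, `MvPolynomial.IsHomogeneous.sum_X_mul_pderiv` or similar) and the `l0`-th coordinate does not. For every `t : Fin r → Ω` there is
a derivation `δ` of `Ω` over `F` with `δ (h (q, l0)) = t q`, `δ (h (q, l)) = 0` for `l ≠ l0` (`exists_derivation_of_rel`, LibHPF/Q2.lean, with the family `h`; no relations). `δ v ∈ W` (`δ (aeval v G) = ∑ l, δ (v l) * aeval v (pderiv l G)`, see
`E15_chain` in LibHPC/E15.lean) and `0 = δ (∑ l, h (q, l) * v l) = t q + ∑ l, h (q, l) * δ (v l)`. So `w ↦ (∑ l, h (q, l) * w l)_q` maps `W` onto `Ω ^ r`: contradiction. (Template: LibHPC/E8.lean.) -/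

/-- chain rule for a derivation -/
private theorem A7_chain {k Ω σ : Type} [Field k] [Field Ω] [Algebra k Ω] [Fintype σ]
    (δ : Derivation k Ω Ω) (x : σ → Ω) (G : MvPolynomial σ k) :
    δ (aeval x G) = ∑ i, δ (x i) * aeval x (pderiv i G) := by
  classical
  induction G using MvPolynomial.induction_on with
  | C a => simp
  | add p q hp hq =>
    simp only [map_add, mul_add, Finset.sum_add_distrib, hp, hq]
  | mul_X p j hp =>
    have h1 : ∀ i, δ (x i) * aeval x (pderiv i (p * X j)) =
        (if i = j then aeval x p * δ (x j) else 0) +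
          x j * (δ (x i) * aeval x (pderiv i p)) := by
      intro i
      rw [Derivation.leibniz, pderiv_X]
      by_cases h : i = j
      · subst h
        simp only [smul_eq_mul, Pi.single_eq_same, mul_one, map_add, map_mul, aeval_X, if_true]
        ring
      · simp only [smul_eq_mul, Pi.single_eq_of_ne (Ne.symm h), mul_zero, zero_add, map_mul,
          aeval_X, if_neg h]
        ring
    rw [Finset.sum_congr rfl fun i _ => h1 i, Finset.sum_add_distrib, ← Finset.mul_sum, ← hp,
      Finset.sum_ite_eq' Finset.univ j, if_pos (Finset.mem_univ j), map_mul, aeval_X,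
      Derivation.leibniz, smul_eq_mul, smul_eq_mul]

/-- a form at a multiple of a point -/
private theorem A7_homog {F : Type} [Field F] {N : ℕ} {G : MvPolynomial (Fin N) F} {d : ℕ}
    (hG : G.IsHomogeneous d) {Ω : Type} [Field Ω] [Algebra F Ω] (c : Ω) (v : Fin N → Ω) :
    aeval (fun l => c * v l) G = c ^ d * aeval v G := by
  rw [aeval_def, aeval_def, eval₂_eq, eval₂_eq, Finset.mul_sum]
  refine Finset.sum_congr rfl fun m hm => ?_
  have h1 : ∑ l ∈ m.support, m l = d := by
    have h2 := hG (mem_support_iff.1 hm)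
    rw [Finsupp.weight_apply, Finsupp.sum] at h2
    simpa using h2
  have h2 : ∏ l ∈ m.support, (c * v l) ^ m l = c ^ d * ∏ l ∈ m.support, v l ^ m l := by
    rw [← h1, ← Finset.prod_pow_eq_pow_sum, ← Finset.prod_mul_distrib]
    exact Finset.prod_congr rfl fun l _ => mul_pow _ _ _
  rw [h2]
  ring

theorem generic_forms {F : Type} [Field F] [CharZero F] {N r : ℕ} {ι : Type} [Fintype ι]
    (g : ι → MvPolynomial (Fin N) F) (d : ι → ℕ) (hg : ∀ i, (g i).IsHomogeneous (d i))
    (hs : IsSmoothSys g) (hN : Fintype.card ι + r = N) {Ω : Type} [Field Ω] [Algebra F Ω]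
    (h : Fin r × Fin N → Ω) (hh : AlgebraicIndependent F h) (v : Fin N → Ω)
    (hv : ∀ i, aeval v (g i) = 0) (hhv : ∀ q : Fin r, ∑ l, h (q, l) * v l = 0) : v = 0 := by
  classical
  by_contra hv0
  obtain ⟨l0, hl0⟩ : ∃ l0, v l0 ≠ 0 := Function.ne_iff.1 hv0
  obtain ⟨w, hw⟩ : ∃ w : Fin N → Ω, w = fun l => (v l0)⁻¹ * v l := ⟨_, rfl⟩
  have hw1 : w l0 = 1 := by
    rw [hw]
    exact inv_mul_cancel₀ hl0
  have hw0 : w ≠ 0 := by
    intro h0
    rw [h0, Pi.zero_apply] at hw1
    exact zero_ne_one hw1
  have hgw : ∀ i, aeval w (g i) = 0 := by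
    intro i
    rw [hw, A7_homog (hg i), hv i, mul_zero]
  have hhw : ∀ q : Fin r, ∑ l, h (q, l) * w l = 0 := by
    intro q
    have h1 : ∑ l, h (q, l) * w l = (v l0)⁻¹ * ∑ l, h (q, l) * v l := by
      rw [Finset.mul_sum, hw]
      exact Finset.sum_congr rfl fun l _ => by ring
    rw [h1, hhv q, mul_zero]
  -- the gradients
  obtain ⟨T, hT⟩ : ∃ T : (Fin N → Ω) →ₗ[Ω] (ι → Ω),
      ∀ b i, T b i = ∑ l, b l * aeval w (pderiv l (g i)) := by
    refine ⟨⟨⟨fun b i => ∑ l, b l * aeval w (pderiv l (g i)), ?_⟩, ?_⟩, fun b i => rfl⟩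
    · intro a b
      funext i
      simp only [Pi.add_apply, add_mul, Finset.sum_add_distrib]
    · intro c b
      funext i
      simp only [RingHom.id_apply, Pi.smul_apply, smul_eq_mul, Finset.mul_sum, mul_assoc]
  have hTs : LinearMap.range T = ⊤ := by
    by_contra hne
    obtain ⟨f, hf, hle⟩ := Submodule.exists_le_ker_of_lt_top _ (lt_top_iff_ne_top.2 hne)
    obtain ⟨ρ, hρ⟩ : ∃ ρ : ι → Ω, ρ = fun i => f (Pi.single i 1) := ⟨_, rfl⟩
    have hfy : ∀ y : ι → Ω, f y = ∑ i, y i * ρ i := by
      intro y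
      have h7 := f.pi_apply_eq_sum_univ y
      rw [h7]
      refine Finset.sum_congr rfl fun i _ => ?_
      rw [smul_eq_mul, hρ]
      congr 2
      funext j
      rw [Pi.single_apply]
      simp only [eq_comm]
    have hdep : ∑ i, ρ i • grd (g i) w = 0 := by
      funext l
      have h8 : f (T (Pi.single l 1)) = 0 := hle ⟨_, rfl⟩
      rw [hfy] at h8
      rw [Finset.sum_apply]
      refine Eq.trans (Finset.sum_congr rfl fun i _ => ?_) h8
      rw [hT, Finset.sum_eq_single l]
      · rw [Pi.single_eq_same, one_mul, mul_comm]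
        rfl
      · intro j _ hj
        rw [Pi.single_eq_of_ne hj, zero_mul]
      · intro hj
        exact absurd (Finset.mem_univ l) hj
    have hρ0 : ρ = 0 := by
      funext i
      exact Fintype.linearIndependent_iff.1 (hs.ext w hw0 hgw) ρ hdep i
    apply hf
    ext y
    rw [LinearMap.comp_apply, LinearMap.zero_comp, LinearMap.zero_apply, hfy, hρ0]
    simp
  -- the generic linear forms
  obtain ⟨Λ, hΛ⟩ : ∃ Λ : (Fin N → Ω) →ₗ[Ω] (Fin r → Ω), ∀ b q, Λ b q = ∑ l, h (q, l) * b l := by
    refine ⟨⟨⟨fun b q => ∑ l, h (q, l) * b l, ?_⟩, ?_⟩, fun b i => rfl⟩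
    · intro a b
      funext i
      simp only [Pi.add_apply, mul_add, Finset.sum_add_distrib]
    · intro c b
      funext i
      simp only [RingHom.id_apply, Pi.smul_apply, smul_eq_mul, Finset.mul_sum]
      exact Finset.sum_congr rfl fun l _ => by ring
  have hΛs : ∀ t : Fin r → Ω, ∃ b, T b = 0 ∧ Λ b = t := by
    intro t
    obtain ⟨c, hc⟩ : ∃ c : Fin r × Fin N → Ω, c = fun q => if q.2 = l0 then -t q.1 else 0 :=
      ⟨_, rfl⟩
    obtain ⟨δ, hδ⟩ := exists_derivation_of_rel F Ω (Fin r × Fin N) h c (by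
      intro G hG0
      have h9 : G = 0 := (injective_iff_map_eq_zero _).1 hh G hG0
      rw [h9]
      simp)
    refine ⟨fun l => δ (w l), ?_, ?_⟩
    · funext i
      rw [hT, ← A7_chain, hgw, map_zero]
      rfl
    · funext q
      rw [hΛ]
      have h10 := congrArg δ (hhw q)
      rw [map_zero, map_sum] at h10
      have h11 : ∀ l, δ (h (q, l) * w l) = c (q, l) * w l + h (q, l) * δ (w l) := by
        intro l
        rw [Derivation.leibniz, hδ]
        simp only [smul_eq_mul]
        ring
      rw [Finset.sum_congr rfl fun l _ => h11 l, Finset.sum_add_distrib] at h10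
      have h12 : ∑ l, c (q, l) * w l = -t q := by
        rw [Finset.sum_eq_single l0]
        · rw [hc]
          dsimp only
          rw [if_pos rfl, hw1, mul_one]
        · intro l _ hl
          rw [hc]
          dsimp only
          rw [if_neg hl, zero_mul]
        · intro hl
          exact absurd (Finset.mem_univ l0) hl
      rw [h12] at h10
      linear_combination h10
  -- dimension count
  have hMs : LinearMap.range (T.prod Λ) = ⊤ := by
    rw [LinearMap.range_eq_top]
    rintro ⟨u, t⟩
    obtain ⟨b0, hb0⟩ := LinearMap.range_eq_top.1 hTs u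
    obtain ⟨b1, hb1, hb1'⟩ := hΛs (t - Λ b0)
    refine ⟨b0 + b1, ?_⟩
    rw [LinearMap.prod_apply]
    show (T (b0 + b1), Λ (b0 + b1)) = (u, t)
    rw [map_add, map_add, hb0, hb1, hb1', add_zero, add_sub_cancel]
  have hdim := LinearMap.finrank_range_add_finrank_ker (T.prod Λ)
  rw [hMs, finrank_top, Module.finrank_prod, Module.finrank_pi, Module.finrank_fin_fun,
    Module.finrank_fin_fun] at hdim
  have hker : Module.finrank Ω (LinearMap.ker (T.prod Λ)) = 0 := by omega
  have hbot := Submodule.finrank_eq_zero.1 hker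
  have hmem : w ∈ LinearMap.ker (T.prod Λ) := by
    rw [LinearMap.mem_ker, LinearMap.prod_apply]
    show (T w, Λ w) = (0, 0)
    refine Prod.ext ?_ ?_
    · funext i
      have h13 := congrArg (aeval w) (hg i).sum_X_mul_pderiv
      rw [map_sum, map_nsmul, hgw i, smul_zero] at h13
      show T w i = 0
      rw [hT]
      refine Eq.trans (Finset.sum_congr rfl fun l _ => ?_) h13
      rw [map_mul, aeval_X]
    · funext q
      exact (hΛ _ _).trans (hhw q)
  rw [hbot, Submodule.mem_bot] at hmem
  exact hw0 hmem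

end Pool.Agent.LibHP.CIM
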