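import Pool.Agent.LibCIM.ADefs

set_option autoImplicit false
open MvPolynomial

namespace Pool.Agent.LibHP.CIM

/-! # Row A8 (ONLY MATHLIB, MEDIUM): extension of the field of coefficients

1. `IsSmoothSys.ext`. Suppose `y ≠ 0` is a common zero over `Ω` with dependent gradients, `y l0 ≠ 0`. All maximal minors of the matrix of gradients vanish at `y` (for
`s : ι → Fin N` injective, `det (fun i j => aeval y (pderiv (s j) (g i)))`; for dependent rows all these determinants vanish; conversely if they all vanish then the rows are dependent: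
`Q12_minor` in LibHPF/Q12.lean: independent rows have a nonzero maximal minor; copy it, it needs only Mathlib). Let `A := MvPolynomial (Option (Fin N)) F` modulo the ideal of the
`g i`, the minors and `X (some l0) * X none - 1`: there is a homomorphism `A → Ω`, so `A ≠ 0`, so there is an `F`-homomorphism `A → AlgebraicClosure F` (maximal ideal, `A / m` is finite over `F`
by `finite_of_finite_type_of_isJacobsonRing`, `IsAlgClosed.lift`; see `exists_avoid`, end of the proof, LibHPF/P5a.lean), which gives a point over `AlgebraicClosure F` with dependent gradients.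
2. `IsSmoothSys.extSys`: from 1. with `Ω := AlgebraicClosure E`.
3. `mem_span_of_ext`: `MvPolynomial.map` along a field extension, `H` in the span of the images of `g i` implies `H` in the span: `E` is free (faithfully flat) over `F`: e.g. choose an `F`-linear
retraction `ρ : E → F` of `algebraMap` (`LinearMap.exists_leftInverse_of_injective`) and apply it coefficientwise: `ρ_*(c * map g) = ρ_*(c) * g`. -/

/-- Nullstellensatz: a solution over an extension gives a solution over the algebraic closure. -/
private theorem A8_null {F : Type} [Field F] {σ : Type} [Finite σ] {Ω : Type} [Field Ω]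
    [Algebra F Ω] (z : σ → Ω) : ∃ z' : σ → AlgebraicClosure F,
      ∀ P : MvPolynomial σ F, aeval z P = 0 → aeval z' P = 0 := by
  have hI : RingHom.ker (aeval z : MvPolynomial σ F →ₐ[F] Ω) ≠ ⊤ := RingHom.ker_ne_top _
  obtain ⟨m, hm, hle⟩ := Ideal.exists_le_maximal _ hI
  let : Field (MvPolynomial σ F ⧸ m) := Ideal.Quotient.field m
  have : Algebra.FiniteType F (MvPolynomial σ F ⧸ m) := inferInstance
  have hfin : Module.Finite F (MvPolynomial σ F ⧸ m) :=
    finite_of_finite_type_of_isJacobsonRing F (MvPolynomial σ F ⧸ m)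
  have : Algebra.IsAlgebraic F (MvPolynomial σ F ⧸ m) := inferInstance
  let ψ : (MvPolynomial σ F ⧸ m) →ₐ[F] AlgebraicClosure F := IsAlgClosed.lift
  refine ⟨fun i => ψ (Ideal.Quotient.mk m (X i)), fun P hP => ?_⟩
  have h1 : (aeval (fun i => ψ (Ideal.Quotient.mk m (X i))) : MvPolynomial σ F →ₐ[F] _) =
      ψ.comp (Ideal.Quotient.mkₐ F m) := by
    refine MvPolynomial.algHom_ext fun i => ?_
    rw [aeval_X]
    rfl
  rw [h1, AlgHom.comp_apply]
  have h2 : Ideal.Quotient.mkₐ F m P = 0 := Ideal.Quotient.eq_zero_iff_mem.2 (hle hP)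
  rw [h2, map_zero]

theorem IsSmoothSys.ext {F : Type} [Field F] {N : ℕ} {ι : Type} [Finite ι]
    {g : ι → MvPolynomial (Fin N) F} (hs : IsSmoothSys g) {Ω : Type} [Field Ω] [Algebra F Ω]
    (y : Fin N → Ω) (hy : y ≠ 0) (h : ∀ i, aeval y (g i) = 0) :
    LinearIndependent Ω (fun i => grd (g i) y) := by
  classical
  have := Fintype.ofFinite ι
  by_contra hdep
  rw [Fintype.not_linearIndependent_iff] at hdep
  obtain ⟨c, hc, i0, hi0⟩ := hdep
  obtain ⟨l0, hl0⟩ : ∃ l0, y l0 ≠ 0 := Function.ne_iff.1 hy
  obtain ⟨z, hz⟩ : ∃ z : Option (Fin N ⊕ ι) → Ω,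
      z = fun o => o.elim ((y l0 * c i0)⁻¹) (Sum.elim y c) := ⟨_, rfl⟩
  have hzn : z none = (y l0 * c i0)⁻¹ := by rw [hz]; rfl
  have hzl : ∀ l, z (some (Sum.inl l)) = y l := fun l => by rw [hz]; rfl
  have hzr : ∀ i, z (some (Sum.inr i)) = c i := fun i => by rw [hz]; rfl
  obtain ⟨z', hz'⟩ := A8_null (F := F) z
  obtain ⟨y', hy'⟩ : ∃ y' : Fin N → AlgebraicClosure F, y' = fun l => z' (some (Sum.inl l)) :=
    ⟨_, rfl⟩
  obtain ⟨c', hc'⟩ : ∃ c' : ι → AlgebraicClosure F, c' = fun i => z' (some (Sum.inr i)) :=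
    ⟨_, rfl⟩
  have hren : ∀ G : MvPolynomial (Fin N) F,
      aeval z (rename (fun l => some (Sum.inl l) : Fin N → Option (Fin N ⊕ ι)) G) = aeval y G := by
    intro G
    rw [aeval_rename]
    congr 2
    funext l
    exact hzl l
  have hren' : ∀ G : MvPolynomial (Fin N) F,
      aeval z' (rename (fun l => some (Sum.inl l) : Fin N → Option (Fin N ⊕ ι)) G) =
        aeval y' G := by
    intro G
    rw [aeval_rename, hy']
    rfl
  have h1 : y' l0 * c' i0 * z' none = 1 := by
    have h2 := hz' (X (some (Sum.inl l0)) * X (some (Sum.inr i0)) * X none - 1) (by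
      rw [map_sub, map_mul, map_mul, aeval_X, aeval_X, aeval_X, hzn, hzl, hzr, map_one,
        mul_inv_cancel₀ (mul_ne_zero hl0 hi0), sub_self])
    rw [map_sub, map_mul, map_mul, aeval_X, aeval_X, aeval_X, map_one, sub_eq_zero] at h2
    rw [hy', hc']
    exact h2
  have hy0 : y' ≠ 0 := by
    intro h0
    rw [h0, Pi.zero_apply, zero_mul, zero_mul] at h1
    exact zero_ne_one h1
  have hc0 : c' i0 ≠ 0 := by
    intro h0
    rw [h0, mul_zero, zero_mul] at h1
    exact zero_ne_one h1
  have hg' : ∀ i, aeval y' (g i) = 0 := by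
    intro i
    rw [← hren']
    exact hz' _ (by rw [hren, h i])
  have hdep' : ∑ i, c' i • grd (g i) y' = 0 := by
    funext l
    have h2 := hz' (∑ i, X (some (Sum.inr i)) *
      rename (fun l => some (Sum.inl l) : Fin N → Option (Fin N ⊕ ι)) (pderiv l (g i))) (by
        rw [map_sum]
        have h3 := congrFun hc l
        rw [Finset.sum_apply] at h3
        refine Eq.trans (Finset.sum_congr rfl fun i _ => ?_) h3
        rw [map_mul, aeval_X, hzr, hren]
        rfl)
    rw [map_sum] at h2
    rw [Finset.sum_apply]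
    refine Eq.trans (Finset.sum_congr rfl fun i _ => ?_) h2
    rw [map_mul, aeval_X, hren', hc']
    rfl
  exact hc0 (Fintype.linearIndependent_iff.1 (hs y' hy0 hg') c' hdep' i0)

theorem IsSmoothSys.extSys {F : Type} [Field F] {N : ℕ} {ι : Type} [Finite ι]
    {g : ι → MvPolynomial (Fin N) F} (hs : IsSmoothSys g) (E : Type) [Field E] [Algebra F E] :
    IsSmoothSys (extSys E g) := by
  intro y hy h
  have h1 : ∀ G : MvPolynomial (Fin N) F,
      aeval y (MvPolynomial.map (algebraMap F E) G) = aeval y G := fun G =>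
    aeval_map_algebraMap E y G
  have h2 := hs.ext y hy fun i => by rw [← h1]; exact h i
  have h3 : (fun i => grd (CIM.extSys E g i) y) = fun i => grd (g i) y := by
    funext i l
    show aeval y (pderiv l (MvPolynomial.map (algebraMap F E) (g i))) = aeval y (pderiv l (g i))
    rw [pderiv_map, h1]
  rw [h3]
  exact h2

/-- Apply a linear map to the coefficients. -/
private noncomputable def A8_R {F E : Type} [Field F] [Field E] [Algebra F E] {N : ℕ}
    (ρ : E →ₗ[F] F) (P : MvPolynomial (Fin N) E) : MvPolynomial (Fin N) F :=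
  ∑ m ∈ P.support, monomial m (ρ (coeff m P))

private theorem A8_coeff {F E : Type} [Field F] [Field E] [Algebra F E] {N : ℕ}
    (ρ : E →ₗ[F] F) (P : MvPolynomial (Fin N) E) (m : Fin N →₀ ℕ) :
    coeff m (A8_R ρ P) = ρ (coeff m P) := by
  classical
  unfold A8_R
  rw [coeff_sum]
  simp only [coeff_monomial]
  rw [Finset.sum_ite_eq']
  split_ifs with h
  · rfl
  · rw [notMem_support_iff.1 h, map_zero]

private theorem A8_mul {F E : Type} [Field F] [Field E] [Algebra F E] {N : ℕ}
    (ρ : E →ₗ[F] F) (P : MvPolynomial (Fin N) E) (G : MvPolynomial (Fin N) F) :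
    A8_R ρ (P * MvPolynomial.map (algebraMap F E) G) = A8_R ρ P * G := by
  classical
  ext m
  rw [A8_coeff, coeff_mul, coeff_mul, map_sum]
  refine Finset.sum_congr rfl fun x _ => ?_
  rw [coeff_map, A8_coeff, mul_comm, ← Algebra.smul_def, map_smul, smul_eq_mul, mul_comm]

theorem mem_span_of_ext {F : Type} [Field F] {N : ℕ} {ι : Type} (g : ι → MvPolynomial (Fin N) F)
    (E : Type) [Field E] [Algebra F E] (H : MvPolynomial (Fin N) F)
    (h : MvPolynomial.map (algebraMap F E) H ∈ Ideal.span (Set.range (CIM.extSys E g))) :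
    H ∈ Ideal.span (Set.range g) := by
  obtain ⟨ρ, hρ⟩ := LinearMap.exists_leftInverse_of_injective (Algebra.linearMap F E)
    (LinearMap.ker_eq_bot.2 (algebraMap F E).injective)
  have hρ1 : ρ 1 = 1 := by
    have h1 := LinearMap.congr_fun hρ 1
    rw [LinearMap.comp_apply, Algebra.linearMap_apply, map_one] at h1
    exact h1
  have hR1 : A8_R (N := N) ρ 1 = 1 := by
    classical
    ext m
    rw [A8_coeff, coeff_one, coeff_one]
    split_ifs
    · exact hρ1
    · rw [map_zero]
  have hadd : ∀ P Q : MvPolynomial (Fin N) E, A8_R ρ (P + Q) = A8_R ρ P + A8_R ρ Q := by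
    intro P Q
    ext m
    rw [A8_coeff, coeff_add, coeff_add, A8_coeff, A8_coeff, map_add]
  have h0 : A8_R (N := N) ρ 0 = 0 := by
    ext m
    rw [A8_coeff, coeff_zero, coeff_zero, map_zero]
  have key : ∀ P ∈ Ideal.span (Set.range (CIM.extSys E g)), ∀ c : MvPolynomial (Fin N) E,
      A8_R ρ (c * P) ∈ Ideal.span (Set.range g) := by
    intro P hP
    induction hP using Submodule.span_induction with
    | mem x hx =>
      obtain ⟨i, rfl⟩ := hx
      intro c
      show A8_R ρ (c * MvPolynomial.map (algebraMap F E) (g i)) ∈ _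
      rw [A8_mul]
      exact Ideal.mul_mem_left _ _ (Ideal.subset_span ⟨i, rfl⟩)
    | zero =>
      intro c
      rw [mul_zero, h0]
      exact Ideal.zero_mem _
    | add x y _ _ hx hy =>
      intro c
      rw [mul_add, hadd]
      exact Ideal.add_mem _ (hx c) (hy c)
    | smul a x _ hx =>
      intro c
      rw [smul_eq_mul, ← mul_assoc]
      exact hx (c * a)
  have h2 := key _ h 1
  rw [A8_mul, hR1, one_mul] at h2
  exact h2

end Pool.Agent.LibHP.CIM
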