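import Pool.Agent.LibCIM.A4
import Pool.Agent.LibCIM.A6
import Pool.Agent.LibCIM.A7
import Pool.Agent.LibHPF.T7

set_option autoImplicit false
open MvPolynomial

namespace Pool.Agent.LibHP.CIM

/-! # Row A9 (STRONG): a smooth system with at least two variables more than forms generates a prime ideal

`Ω := AlgebraicClosure (FractionRing (MvPolynomial (Fin r × Fin N) F))`, `r = N - card ι ≥ 2`, with the independent elements `h` (`Q11_ind` in LibHPF/Q11.lean). It is enough to prove the statement for `extSys Ω g` (`mem_span_of_ext`;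
`1 ∉ span`: evaluate at `0`, `d i > 0`). Over `Ω`: let `R = Localization.AtPrime m0` (origin), `A = R ⧸ (g)`; `θ₁, θ₂` = the linear forms `ℓ_0, ℓ_1`, `ℓ_q = ∑ l, h (q, l) X l`. For `r0 ≥ 1` the `N` forms `g i` (card ι of them), `ℓ_0 ^ r0`, `ℓ_1 ^ r0`, `ℓ_2, .., ℓ_(r-1)` have only the trivial
common zero (A7), so `forms_regular` (A4; enumerate: first the `g i`, then `ℓ_0^r0`, `ℓ_1^r0`, ...) gives: `ℓ_0^r0 x ∈ (g) → x ∈ (g)`, `ℓ_1^r0 x ∈ (g, ℓ_0^r0) → x ∈ (g, ℓ_0^r0)`, for polynomials `x`, hence in `A` (clear denominators). `hloc` of `domain_of_punctured` (A6): a prime `p ≠ m` of `A`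
corresponds to a prime `P ⊇ (g)` of the polynomial ring, `P < m0`; some point `y ≠ 0` is a zero of `P` (Nullstellensatz, `P ≠ m0` prime), at `y` the local ring is a domain: `local_domain` (LibHPF/T7.lean, reindex `ι ≃ Fin (card ι)`), gradients independent by `hs.ext`. `s` with `s(y) ≠ 0` is not in `P`.
So `A` is a domain; if `f g' ∈ (g)` for polynomials then `t f ∈ (g)` or `t g' ∈ (g)` with `t(0) ≠ 0`, and `mem_of_mul_unit` (A5) concludes. -/

private theorem A9_punctured (A : Type) [CommRing A] [IsNoetherianRing A] (m : Ideal A)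
    (θ₁ θ₂ : A) (h1 : θ₁ ∈ m) (h2 : θ₂ ∈ m)
    (hreg : ∀ r : ℕ, 1 ≤ r → (∀ x, θ₁ ^ r * x = 0 → x = 0) ∧
      ∀ x y, θ₂ ^ r * x = θ₁ ^ r * y → ∃ z, x = θ₁ ^ r * z)
    (hloc : ∀ p : Ideal A, p.IsPrime → p ≠ m → ∀ f g : A, f * g = 0 →
      ∃ s, s ∉ p ∧ (s * f = 0 ∨ s * g = 0))
    (hid : ∀ ε : A, ε * (1 - ε) = 0 → ε = 0 ∨ 1 - ε = 0) (f g : A) (hfg : f * g = 0) :
    f = 0 ∨ g = 0 := by
  classical
  let I : Ideal A := (Ideal.span {f}).annihilator
  let I' : Ideal A := Submodule.annihilator I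
  have hI : ∀ a, a ∈ I ↔ a * f = 0 := fun a => by
    show a ∈ (Submodule.span A {f}).annihilator ↔ a * f = 0
    rw [Submodule.mem_annihilator_span_singleton, smul_eq_mul]
  have hI' : ∀ b ∈ I', ∀ a ∈ I, b * a = 0 := fun b hb a ha =>
    (Submodule.mem_annihilator.1 hb) a ha
  -- primes containing `I ⊔ I'`
  have hprime : ∀ p : Ideal A, p.IsPrime → I ⊔ I' ≤ p → p = m := by
    intro p hp hle
    by_contra hne
    by_cases h : ∃ s, s ∉ p ∧ s * f = 0
    · obtain ⟨s, hs, hsf⟩ := h
      exact hs (hle (Ideal.mem_sup_left ((hI s).2 hsf)))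
    · have hkill : ∀ a ∈ I, ∃ s, s ∉ p ∧ s * a = 0 := by
        intro a ha
        obtain ⟨s, hs, hs'⟩ := hloc p hp hne f a (by rw [mul_comm]; exact (hI a).1 ha)
        rcases hs' with h' | h'
        · exact absurd ⟨s, hs, h'⟩ h
        · exact ⟨s, hs, h'⟩
      obtain ⟨S, hS⟩ := (IsNoetherian.noetherian I : I.FG)
      have hSI : ∀ a ∈ S, a ∈ I := fun a ha => by
        rw [← hS]
        exact Submodule.subset_span ha
      have hk : ∀ a : A, ∃ s, s ∉ p ∧ (a ∈ S → s * a = 0) := by
        intro a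
        by_cases ha : a ∈ S
        · obtain ⟨s, hs, hs'⟩ := hkill a (hSI a ha)
          exact ⟨s, hs, fun _ => hs'⟩
        · exact ⟨1, fun h1 => hp.ne_top ((Ideal.eq_top_iff_one p).2 h1), fun h1 => absurd h1 ha⟩
      choose s hs hs' using hk
      have hprod : ∏ a ∈ S, s a ∉ p := by
        intro h1
        obtain ⟨a, _, ha⟩ := (hp.prod_mem_iff).1 h1
        exact hs a ha
      apply hprod
      apply hle
      apply Ideal.mem_sup_right
      show ∏ a ∈ S, s a ∈ Submodule.annihilator I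
      rw [← hS, Submodule.mem_annihilator_span]
      rintro ⟨a, ha⟩
      rw [smul_eq_mul, ← Finset.mul_prod_erase S s ha, mul_right_comm]
      show s a * a * _ = 0
      rw [hs' a ha, zero_mul]
  have hrad : ∀ θ ∈ m, ∃ n : ℕ, θ ^ n ∈ I ⊔ I' := by
    intro θ hθ
    have h1 : θ ∈ (I ⊔ I').radical := by
      rw [Ideal.radical_eq_sInf, Ideal.mem_sInf]
      rintro p ⟨hp1, hp2⟩
      rw [hprime p hp2 hp1]
      exact hθ
    exact h1
  obtain ⟨n1, hn1⟩ := hrad θ₁ h1
  obtain ⟨n2, hn2⟩ := hrad θ₂ h2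
  obtain ⟨r, hr⟩ : ∃ r : ℕ, r = n1 + n2 + 1 := ⟨_, rfl⟩
  have hr1 : 1 ≤ r := by omega
  have hm1 : θ₁ ^ r ∈ I ⊔ I' := by
    have : θ₁ ^ r = θ₁ ^ (n2 + 1) * θ₁ ^ n1 := by
      rw [← pow_add, hr]
      congr 1
      ring
    rw [this]
    exact Ideal.mul_mem_left _ _ hn1
  have hm2 : θ₂ ^ r ∈ I ⊔ I' := by
    have : θ₂ ^ r = θ₂ ^ (n1 + 1) * θ₂ ^ n2 := by
      rw [← pow_add, hr]
      congr 1
      ring
    rw [this]
    exact Ideal.mul_mem_left _ _ hn2
  obtain ⟨a₁, ha₁, b₁, hb₁, e₁⟩ := Submodule.mem_sup.1 hm1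
  obtain ⟨a₂, ha₂, b₂, hb₂, e₂⟩ := Submodule.mem_sup.1 hm2
  obtain ⟨hinj, hdiv⟩ := hreg r hr1
  have h12 : b₁ * a₂ = 0 := hI' b₁ hb₁ a₂ ha₂
  have h21 : b₂ * a₁ = 0 := hI' b₂ hb₂ a₁ ha₁
  have h11 : b₁ * a₁ = 0 := hI' b₁ hb₁ a₁ ha₁
  obtain ⟨ε, hε⟩ := hdiv a₁ a₂ (by
    rw [← e₁, ← e₂]
    linear_combination h21 - h12)
  have hb : b₁ = θ₁ ^ r * (1 - ε) := by
    rw [← e₁] at hε ⊢
    linear_combination -hε
  have hidem : ε * (1 - ε) = 0 := by
    apply hinj
    apply hinj
    rw [hb] at h11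
    have : θ₁ ^ r * (θ₁ ^ r * (ε * (1 - ε))) = θ₁ ^ r * (1 - ε) * (θ₁ ^ r * ε) := by ring
    rw [this, ← hε]
    exact h11
  rcases hid ε hidem with h3 | h3
  · right
    apply hinj
    have h4 : θ₁ ^ r = b₁ := by
      rw [hb, h3, sub_zero, mul_one]
    rw [h4]
    exact hI' b₁ hb₁ g ((hI g).2 (by rw [mul_comm]; exact hfg))
  · left
    apply hinj
    have h4 : θ₁ ^ r = a₁ := by
      rw [← e₁, hb, h3, mul_zero, add_zero]
    rw [h4]
    exact (hI a₁).1 ha₁

/-- an algebraically closed field with many independent elements -/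
private theorem A9_field (K ι : Type) [Field K] :
    ∃ (Ω : Type) (_ : Field Ω) (_ : IsAlgClosed Ω) (_ : Algebra K Ω) (h : ι → Ω),
      AlgebraicIndependent K h := by
  let f : MvPolynomial ι K →ₐ[K] AlgebraicClosure (FractionRing (MvPolynomial ι K)) :=
    (IsScalarTower.toAlgHom K (FractionRing (MvPolynomial ι K))
      (AlgebraicClosure (FractionRing (MvPolynomial ι K)))).comp
      (IsScalarTower.toAlgHom K (MvPolynomial ι K) (FractionRing (MvPolynomial ι K)))
  refine ⟨AlgebraicClosure (FractionRing (MvPolynomial ι K)), inferInstance, inferInstance,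
    inferInstance, fun i => f (X i), ?_⟩
  refine (MvPolynomial.algebraicIndependent_X ι K).map' (f := f) ?_
  have h1 : Function.Injective (algebraMap (FractionRing (MvPolynomial ι K))
      (AlgebraicClosure (FractionRing (MvPolynomial ι K)))) :=
    (algebraMap (FractionRing (MvPolynomial ι K))
      (AlgebraicClosure (FractionRing (MvPolynomial ι K)))).injective
  have h2 : Function.Injective (algebraMap (MvPolynomial ι K) (FractionRing (MvPolynomial ι K))) :=
    IsFractionRing.injective _ _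
  exact h1.comp h2

/-- Nullstellensatz: a prime ideal different from the one of the origin has a nonzero zero -/
private theorem A9_zero {Ω : Type} [Field Ω] [IsAlgClosed Ω] {N : ℕ}
    (P : Ideal (MvPolynomial (Fin N) Ω)) (hP : P.IsPrime)
    (hne : P ≠ RingHom.ker (eval (fun _ : Fin N => (0 : Ω)))) :
    ∃ y : Fin N → Ω, y ≠ 0 ∧ ∀ a ∈ P, eval y a = 0 := by
  by_contra hcon
  push Not at hcon
  apply hne
  have hmax : (RingHom.ker (eval (fun _ : Fin N => (0 : Ω)))).IsMaximal :=
    RingHom.ker_isMaximal_of_surjective _ fun c => ⟨C c, eval_C c⟩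
  have hle : RingHom.ker (eval (fun _ : Fin N => (0 : Ω))) ≤ P := by
    intro a ha
    rw [RingHom.mem_ker] at ha
    rw [← hP.radical, ← vanishingIdeal_zeroLocus_eq_radical (K := Ω) P, mem_vanishingIdeal_iff]
    intro y hy
    by_cases hy0 : y = 0
    · subst hy0
      exact ha
    · obtain ⟨b, hb, hb'⟩ := hcon y hy0
      have h1 : eval y b = 0 := (mem_zeroLocus_iff.1 hy) b hb
      exact absurd h1 hb'
  exact (hmax.eq_of_le hP.ne_top hle).symm

private theorem A9_eval0 {Ω : Type} [Field Ω] {N d : ℕ} (G : MvPolynomial (Fin N) Ω) (hd : 0 < d)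
    (hG : G.IsHomogeneous d) : eval (fun _ : Fin N => (0 : Ω)) G = 0 := by
  rw [eval_eq]
  refine Finset.sum_eq_zero fun u hu => ?_
  have h1 : u ≠ 0 := by
    rintro rfl
    have h2 := hG (mem_support_iff.1 hu)
    rw [map_zero] at h2
    omega
  obtain ⟨l, hl⟩ := Finsupp.ne_iff.1 h1
  have h2 : ∏ i ∈ u.support, ((fun _ : Fin N => (0 : Ω)) i) ^ u i = 0 := by
    refine Finset.prod_eq_zero (i := l) ?_ ?_
    · rw [Finsupp.mem_support_iff]
      exact hl
    · exact zero_pow hl
  rw [h2, mul_zero]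

/-- the statement over a large algebraically closed field -/
private theorem A9_big {F : Type} [Field F] [CharZero F] {N r : ℕ} {ι : Type} [Fintype ι]
    (g : ι → MvPolynomial (Fin N) F) (d : ι → ℕ) (hd : ∀ i, 0 < d i)
    (hg : ∀ i, (g i).IsHomogeneous (d i)) (hs : IsSmoothSys g) (hN : Fintype.card ι + r = N)
    (hr : 2 ≤ r) {Ω : Type} [Field Ω] [IsAlgClosed Ω] [Algebra F Ω]
    (h : Fin r × Fin N → Ω) (hh : AlgebraicIndependent F h) (f f' : MvPolynomial (Fin N) Ω)
    (hff : f * f' ∈ Ideal.span (Set.range (extSys Ω g))) :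
    f ∈ Ideal.span (Set.range (extSys Ω g)) ∨ f' ∈ Ideal.span (Set.range (extSys Ω g)) := by
  classical
  obtain ⟨G, hGdef⟩ : ∃ G : ι → MvPolynomial (Fin N) Ω, G = extSys Ω g := ⟨_, rfl⟩
  rw [← hGdef] at hff ⊢
  have hGhom : ∀ i, (G i).IsHomogeneous (d i) := fun i => by
    rw [hGdef]
    exact (hg i).map _
  have hGev : ∀ (y : Fin N → Ω) i, eval y (G i) = aeval y (g i) := fun y i => by
    rw [hGdef]
    show eval y (map (algebraMap F Ω) (g i)) = _
    rw [eval_map, aeval_def]
  obtain ⟨J, hJdef⟩ : ∃ J : Ideal (MvPolynomial (Fin N) Ω), J = Ideal.span (Set.range G) :=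
    ⟨_, rfl⟩
  -- the linear forms
  let ℓ : Fin r → MvPolynomial (Fin N) Ω := fun q => ∑ l, C (h (q, l)) * X l
  have hℓhom : ∀ q, (ℓ q).IsHomogeneous 1 := fun q =>
    IsHomogeneous.sum _ _ _ fun l _ => (isHomogeneous_X _ l).C_mul _
  have hℓev : ∀ (y : Fin N → Ω) q, eval y (ℓ q) = ∑ l, h (q, l) * y l := fun y q => by
    show eval y (∑ l, C (h (q, l)) * X l) = _
    rw [map_sum]
    refine Finset.sum_congr rfl fun l _ => ?_
    rw [map_mul, eval_C, eval_X]
  let em : Fin (Fintype.card ι) ≃ ι := (Fintype.equivFin ι).symm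
  obtain ⟨m, hm⟩ : ∃ m : ℕ, m = Fintype.card ι := ⟨_, rfl⟩
  let q0 : Fin r := ⟨0, by omega⟩
  let q1 : Fin r := ⟨1, by omega⟩
  -- the regular sequence
  let κ : ℕ → Fin r → ℕ := fun r0 q => if q.1 < 2 then r0 else 1
  let GG : ℕ → Fin N → MvPolynomial (Fin N) Ω := fun r0 j =>
    if hj : j.1 < Fintype.card ι then G (em ⟨j.1, hj⟩)
    else ℓ ⟨j.1 - Fintype.card ι, by omega⟩ ^ κ r0 ⟨j.1 - Fintype.card ι, by omega⟩
  let dd : ℕ → Fin N → ℕ := fun r0 j =>
    if hj : j.1 < Fintype.card ι then d (em ⟨j.1, hj⟩)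
    else κ r0 ⟨j.1 - Fintype.card ι, by omega⟩
  have hκ : ∀ r0 q, 1 ≤ r0 → 0 < κ r0 q := by
    intro r0 q hr0
    show 0 < if q.1 < 2 then r0 else 1
    split_ifs <;> omega
  have hregm : ∀ r0, 1 ≤ r0 → ∀ (i : Fin N) (x : MvPolynomial (Fin N) Ω),
      GG r0 i * x ∈ Ideal.span (GG r0 '' {j | j < i}) → x ∈ Ideal.span (GG r0 '' {j | j < i}) := by
    intro r0 hr0
    refine forms_regular Ω (GG r0) (dd r0) ?_ ?_ ?_
    · intro j
      by_cases hj : j.1 < Fintype.card ι
      · simp only [dd, hj, dite_true]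
        exact hd _
      · simp only [dd, hj, dite_false]
        exact hκ r0 _ hr0
    · intro j
      by_cases hj : j.1 < Fintype.card ι
      · simp only [dd, GG, hj, dite_true]
        exact hGhom _
      · simp only [dd, GG, hj, dite_false]
        have h1 := (hℓhom ⟨j.1 - Fintype.card ι, by omega⟩).pow
          (κ r0 ⟨j.1 - Fintype.card ι, by omega⟩)
        rwa [one_mul] at h1
    · intro y hy
      refine generic_forms g d hg hs hN h hh y ?_ ?_
      · intro i
        have h1 := hy ⟨(em.symm i).1, by have := (em.symm i).2; omega⟩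
        have h2 : (em.symm i).1 < Fintype.card ι := (em.symm i).2
        simp only [GG, h2, dite_true] at h1
        rw [← hGev]
        have h3 : em ⟨(em.symm i).1, h2⟩ = i := em.apply_symm_apply i
        rwa [h3] at h1
      · intro q
        have h1 := hy ⟨Fintype.card ι + q.1, by have := q.2; omega⟩
        have h2 : ¬ (Fintype.card ι + q.1 < Fintype.card ι) := by omega
        simp only [GG, h2, dite_false, map_pow] at h1
        rw [← hℓev]
        have h3 : (⟨Fintype.card ι + q.1 - Fintype.card ι, by omega⟩ : Fin r) = q :=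
          Fin.ext (by simp)
        have h4 := pow_eq_zero_iff (hκ r0 _ hr0).ne' |>.1 h1
        rwa [h3] at h4
  let i0 : Fin N := ⟨Fintype.card ι, by omega⟩
  let i1 : Fin N := ⟨Fintype.card ι + 1, by omega⟩
  have hG0 : ∀ r0, GG r0 i0 = ℓ q0 ^ r0 := by
    intro r0
    have h2 : ¬ (i0.1 < Fintype.card ι) := by
      show ¬ (Fintype.card ι < Fintype.card ι)
      omega
    simp only [GG, h2, dite_false]
    have h3 : (⟨i0.1 - Fintype.card ι, by omega⟩ : Fin r) = q0 :=
      Fin.ext (by show Fintype.card ι - Fintype.card ι = 0; omega)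
    rw [h3]
    rfl
  have hG1 : ∀ r0, GG r0 i1 = ℓ q1 ^ r0 := by
    intro r0
    have h2 : ¬ (i1.1 < Fintype.card ι) := by
      show ¬ (Fintype.card ι + 1 < Fintype.card ι)
      omega
    simp only [GG, h2, dite_false]
    have h3 : (⟨i1.1 - Fintype.card ι, by omega⟩ : Fin r) = q1 :=
      Fin.ext (by show Fintype.card ι + 1 - Fintype.card ι = 1; omega)
    rw [h3]
    rfl
  have hspan0 : ∀ r0, Ideal.span (GG r0 '' {j | j < i0}) = J := by
    intro r0
    rw [hJdef]
    congr 1
    ext a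
    constructor
    · rintro ⟨j, hj, rfl⟩
      have hj' : j.1 < Fintype.card ι := hj
      simp only [GG, hj', dite_true]
      exact ⟨_, rfl⟩
    · rintro ⟨i, rfl⟩
      refine ⟨⟨(em.symm i).1, by have := (em.symm i).2; omega⟩, (em.symm i).2, ?_⟩
      have h2 : (em.symm i).1 < Fintype.card ι := (em.symm i).2
      simp only [GG, h2, dite_true]
      congr 1
      exact em.apply_symm_apply i
  have hspan1 : ∀ r0, Ideal.span (GG r0 '' {j | j < i1}) = J ⊔ Ideal.span {ℓ q0 ^ r0} := by
    intro r0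
    have h1 : {j : Fin N | j < i1} = {j | j < i0} ∪ {i0} := by
      ext j
      simp only [Set.mem_setOf_eq, Set.union_singleton, Set.mem_insert_iff]
      constructor
      · intro hj
        have h2 : j.1 < Fintype.card ι + 1 := hj
        by_cases h3 : j.1 = Fintype.card ι
        · left
          exact Fin.ext h3
        · right
          show j.1 < Fintype.card ι
          omega
      · rintro (rfl | hj)
        · show Fintype.card ι < Fintype.card ι + 1
          omega
        · have h2 : j.1 < Fintype.card ι := hj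
          show j.1 < Fintype.card ι + 1
          omega
    rw [h1, Set.image_union, Ideal.span_union, hspan0, Set.image_singleton, hG0]
  -- the quotient
  let B := MvPolynomial (Fin N) Ω ⧸ J
  let π : MvPolynomial (Fin N) Ω →+* B := Ideal.Quotient.mk J
  have hπs : Function.Surjective π := Ideal.Quotient.mk_surjective
  have hπ0 : ∀ a, π a = 0 ↔ a ∈ J := fun a => Ideal.Quotient.eq_zero_iff_mem
  have hJ0 : ∀ a ∈ J, eval (fun _ : Fin N => (0 : Ω)) a = 0 := by
    intro a ha
    have h1 : J ≤ RingHom.ker (eval (fun _ : Fin N => (0 : Ω))) := by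
      rw [hJdef, Ideal.span_le]
      rintro _ ⟨i, rfl⟩
      exact A9_eval0 _ (hd i) (hGhom i)
    exact h1 ha
  let ev : B →+* Ω := Ideal.Quotient.lift J (eval (fun _ : Fin N => (0 : Ω))) hJ0
  have hev : ∀ a, ev (π a) = eval (fun _ : Fin N => (0 : Ω)) a := fun a => rfl
  have hunit : ∀ t x : MvPolynomial (Fin N) Ω, eval (fun _ : Fin N => (0 : Ω)) t ≠ 0 →
      t * x ∈ J → x ∈ J := by
    intro t x ht htx
    rw [hJdef] at htx ⊢
    exact mem_of_mul_unit G d hGhom t x ht htx
  have key := A9_punctured B (RingHom.ker ev) (π (ℓ q0)) (π (ℓ q1))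
    (by
      rw [RingHom.mem_ker, hev]
      exact A9_eval0 _ Nat.one_pos (hℓhom q0))
    (by
      rw [RingHom.mem_ker, hev]
      exact A9_eval0 _ Nat.one_pos (hℓhom q1))
    (by
      intro r0 hr0
      constructor
      · intro x hx
        obtain ⟨x, rfl⟩ := hπs x
        rw [← map_pow, ← map_mul, hπ0] at hx
        rw [hπ0]
        have h1 := hregm r0 hr0 i0 x
        rw [hspan0, hG0] at h1
        exact h1 hx
      · intro x y hxy
        obtain ⟨x, rfl⟩ := hπs x
        obtain ⟨y, rfl⟩ := hπs y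
        rw [← map_pow, ← map_pow, ← map_mul, ← map_mul, ← sub_eq_zero, ← map_sub, hπ0] at hxy
        have h1 := hregm r0 hr0 i1 x
        rw [hspan1, hG1] at h1
        have h2 : ℓ q1 ^ r0 * x ∈ J ⊔ Ideal.span {ℓ q0 ^ r0} := by
          have e1 : ℓ q1 ^ r0 * x = (ℓ q1 ^ r0 * x - ℓ q0 ^ r0 * y) + ℓ q0 ^ r0 * y := by ring
          rw [e1]
          exact Ideal.add_mem _ (Ideal.mem_sup_left hxy)
            (Ideal.mem_sup_right (Ideal.mul_mem_right _ _ (Ideal.mem_span_singleton_self _)))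
        obtain ⟨u, hu, v, hv, huv⟩ := Submodule.mem_sup.1 (h1 h2)
        obtain ⟨z, rfl⟩ := Ideal.mem_span_singleton.1 hv
        refine ⟨π z, ?_⟩
        rw [← map_pow, ← map_mul, ← huv, map_add, (hπ0 u).2 hu, zero_add])
    (by
      intro p hp hpne x x' hxx
      obtain ⟨x, rfl⟩ := hπs x
      obtain ⟨x', rfl⟩ := hπs x'
      rw [← map_mul, hπ0] at hxx
      have hP : (p.comap π).IsPrime := Ideal.IsPrime.comap π
      have hPne : p.comap π ≠ RingHom.ker (eval (fun _ : Fin N => (0 : Ω))) := by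
        intro h1
        apply hpne
        ext b
        obtain ⟨b, rfl⟩ := hπs b
        rw [RingHom.mem_ker, hev, ← RingHom.mem_ker, ← h1, Ideal.mem_comap]
      obtain ⟨y, hy0, hy⟩ := A9_zero (p.comap π) hP hPne
      have hyG : ∀ i, eval y (G i) = 0 := by
        intro i
        apply hy
        rw [Ideal.mem_comap, (hπ0 (G i)).2 (by rw [hJdef]; exact Ideal.subset_span ⟨i, rfl⟩)]
        exact zero_mem _
      have hli : LinearIndependent Ω (fun i => grd (g i) y) :=
        hs.ext y hy0 (fun i => by rw [← hGev]; exact hyG i)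
      have hli' : LinearIndependent Ω
          (fun (i : Fin (Fintype.card ι)) (j : Fin N) => eval y (pderiv j (G (em i)))) := by
        have h1 := hli.comp em em.injective
        have h2 : ((fun i => grd (g i) y) ∘ em) =
            fun (i : Fin (Fintype.card ι)) (j : Fin N) => eval y (pderiv j (G (em i))) := by
          funext i j
          show aeval y (pderiv j (g (em i))) = _
          rw [hGdef]
          show _ = eval y (pderiv j (map (algebraMap F Ω) (g (em i))))
          rw [pderiv_map, eval_map, aeval_def]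
        rwa [h2] at h1
      have hrange : Set.range (fun i : Fin (Fintype.card ι) => G (em i)) = Set.range G := by
        have : (fun i : Fin (Fintype.card ι) => G (em i)) = G ∘ em := rfl
        rw [this, em.surjective.range_comp]
      obtain ⟨s, hs0, hs1⟩ := local_domain Ω N (Fintype.card ι) (fun i => G (em i)) y
        (fun i => hyG _) hli' x x' (by rw [hrange, ← hJdef]; exact hxx)
      rw [hrange, ← hJdef] at hs1
      refine ⟨π s, fun h1 => hs0 (hy s h1), ?_⟩
      rw [← map_mul, ← map_mul, hπ0, hπ0]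
      exact hs1)
    (by
      intro ε hε
      obtain ⟨ε, rfl⟩ := hπs ε
      rw [← map_one π, ← map_sub, ← map_mul, hπ0] at hε
      rw [← map_one π, ← map_sub, hπ0, hπ0]
      by_cases h1 : eval (fun _ : Fin N => (0 : Ω)) ε = 0
      · left
        refine hunit (1 - ε) ε ?_ (by rw [mul_comm]; exact hε)
        rw [map_sub, map_one, h1, sub_zero]
        exact one_ne_zero
      · right
        exact hunit ε (1 - ε) h1 hε)
    (π f) (π f') (by rw [← map_mul, hπ0, hJdef]; exact hff)
  rw [hπ0, hπ0, hJdef] at key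
  exact key

theorem prime_of_smoothSys {F : Type} [Field F] [CharZero F] {N : ℕ} {ι : Type} [Fintype ι]
    (g : ι → MvPolynomial (Fin N) F) (d : ι → ℕ) (hd : ∀ i, 0 < d i)
    (hg : ∀ i, (g i).IsHomogeneous (d i)) (hs : IsSmoothSys g) (hN : Fintype.card ι + 2 ≤ N) :
    (Ideal.span (Set.range g)).IsPrime := by
  obtain ⟨r, hr⟩ : ∃ r : ℕ, Fintype.card ι + r = N := ⟨N - Fintype.card ι, by omega⟩
  obtain ⟨Ω, _, _, _, h, hh⟩ := A9_field F (Fin r × Fin N)
  refine ⟨?_, ?_⟩
  · rw [Ne, Ideal.eq_top_iff_one]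
    intro h1
    have h2 : Ideal.span (Set.range g) ≤ RingHom.ker (eval (fun _ : Fin N => (0 : F))) := by
      rw [Ideal.span_le]
      rintro _ ⟨i, rfl⟩
      exact A9_eval0 _ (hd i) (hg i)
    have h3 := h2 h1
    rw [RingHom.mem_ker, map_one] at h3
    exact one_ne_zero h3
  · intro f f' hff
    have h1 : map (algebraMap F Ω) f * map (algebraMap F Ω) f' ∈
        Ideal.span (Set.range (extSys Ω g)) := by
      rw [← map_mul]
      have h2 := Ideal.mem_map_of_mem (map (algebraMap F Ω)) hff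
      rw [Ideal.map_span, ← Set.range_comp] at h2
      exact h2
    rcases A9_big g d hd hg hs hr (by omega) h hh _ _ h1 with h2 | h2
    · exact Or.inl (mem_span_of_ext g Ω f h2)
    · exact Or.inr (mem_span_of_ext g Ω f' h2)

end Pool.Agent.LibHP.CIM
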