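import Mathlib

set_option autoImplicit false
open MvPolynomial

namespace Pool.Agent.LibHP.CIM

/-! # Definitions of the algebra block: smooth systems of forms -/

/-- The gradient of the polynomial `G` at the point `y`. -/
noncomputable def grd {F E : Type} [Field F] [CommRing E] [Algebra F E] {N : ℕ}
    (G : MvPolynomial (Fin N) F) (y : Fin N → E) : Fin N → E := fun l => aeval y (pderiv l G)

/-- A smooth system: at every nonzero common zero over the algebraic closure the gradients are
linearly independent. -/
def IsSmoothSys {F : Type} [Field F] {N : ℕ} {ι : Type} (g : ι → MvPolynomial (Fin N) F) : Prop :=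
  ∀ y : Fin N → AlgebraicClosure F, y ≠ 0 → (∀ i, aeval y (g i) = 0) →
    LinearIndependent (AlgebraicClosure F) (fun i => grd (g i) y)

/-- The system after extension of the field of coefficients. -/
noncomputable def extSys {F : Type} [Field F] (E : Type) [Field E] [Algebra F E] {N : ℕ} {ι : Type}
    (g : ι → MvPolynomial (Fin N) F) : ι → MvPolynomial (Fin N) E :=
  fun i => MvPolynomial.map (algebraMap F E) (g i)

/-- `v` is a generic zero of the ideal `J`. -/
def IsGen {F E : Type} [Field F] [Field E] [Algebra F E] {N : ℕ}
    (J : Ideal (MvPolynomial (Fin N) F)) (v : Fin N → E) : Prop :=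
  ∀ G : MvPolynomial (Fin N) F, aeval v G = 0 ↔ G ∈ J

/-- Every element of `E` is a fraction in the coordinates of `v`, with coefficients in `F`. -/
def GenOver (F : Type) {E : Type} [Field F] [Field E] [Algebra F E] {N : ℕ} (v : Fin N → E) : Prop :=
  ∀ z : E, ∃ G H : MvPolynomial (Fin N) F, aeval v H ≠ 0 ∧ z * aeval v H = aeval v G

end Pool.Agent.LibHP.CIM
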