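import Pool.Agent.LibCIM.B1

set_option autoImplicit false
open MvPolynomial

namespace Pool.Agent.LibHP.CIM

/-! # Row B0h (EASY): homomorphisms between generic points

`exists_hom_of_iff`: `z = G(v)/H(v) ↦ G(v')/H(v')` (see `exists_hom_of_gen` in LibHPF/Q19.lean and its proof; or `E` is the fraction field of `MvPolynomial ⧸ ker`, `IsFractionRing.lift`). `isPt_iff`: homogenise with `X 0`: `Gh = ∑ e ≤ m, X 0 ^ (m - e) * homogeneousComponent e G` has the same value as `G` at points with coordinate `1`.
`isGen_descend`: `mem_span_of_ext` (A8) and `cone_ext`-like naturality are not needed here: statement for a general family `g`. -/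

private theorem B0h_alg {F E E' : Type} [Field F] [Field E] [Field E'] [Algebra F E] [Algebra F E']
    {N : ℕ} (v : Fin N → E) (v' : Fin N → E') (hgen : GenOver F v)
    (hall : ∀ G : MvPolynomial (Fin N) F, aeval v G = 0 ↔ aeval v' G = 0) :
    ∃ τ : E →ₐ[F] E', ∀ j, τ (v j) = v' j := by
  choose G H hH hGH using hgen
  have key : ∀ (z : E) (G' H' : MvPolynomial (Fin N) F), aeval v H' ≠ 0 →
      z * aeval v H' = aeval v G' →
      aeval v' (G z) / aeval v' (H z) = aeval v' G' / aeval v' H' := by
    intro z G' H' hH' hz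
    have h1 : aeval v' (H z) ≠ 0 := fun h0 => hH z ((hall _).2 h0)
    have h2 : aeval v' H' ≠ 0 := fun h0 => hH' ((hall _).2 h0)
    rw [div_eq_div_iff h1 h2, ← map_mul, ← map_mul, ← sub_eq_zero, ← map_sub]
    refine (hall _).1 ?_
    rw [map_sub, map_mul, map_mul, ← hGH z, ← hz]
    ring
  refine ⟨{ toFun := fun z => aeval v' (G z) / aeval v' (H z)
            map_one' := ?_
            map_mul' := ?_
            map_zero' := ?_
            map_add' := ?_
            commutes' := ?_ }, ?_⟩
  · rw [key 1 1 1 (by rw [map_one]; exact one_ne_zero) (by rw [map_one, one_mul])]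
    rw [map_one, div_one]
  · intro z w
    rw [key (z * w) (G z * G w) (H z * H w) (by rw [map_mul]; exact mul_ne_zero (hH z) (hH w))
      (by rw [map_mul, map_mul, ← hGH z, ← hGH w]; ring), map_mul, map_mul, div_mul_div_comm]
  · rw [key 0 0 1 (by rw [map_one]; exact one_ne_zero) (by rw [map_zero, zero_mul])]
    rw [map_zero, zero_div]
  · intro z w
    have h1 : aeval v' (H z) ≠ 0 := fun h0 => hH z ((hall _).2 h0)
    have h2 : aeval v' (H w) ≠ 0 := fun h0 => hH w ((hall _).2 h0)
    rw [key (z + w) (G z * H w + H z * G w) (H z * H w)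
      (by rw [map_mul]; exact mul_ne_zero (hH z) (hH w))
      (by rw [map_mul, map_add, map_mul, map_mul, ← hGH z, ← hGH w]; ring), map_mul, map_add,
      map_mul, map_mul, div_add_div _ _ h1 h2]
  · intro c
    rw [key (algebraMap F E c) (C c) 1 (by rw [map_one]; exact one_ne_zero)
      (by rw [map_one, mul_one, aeval_C]), map_one, div_one, aeval_C]
  · intro j
    change aeval v' (G (v j)) / aeval v' (H (v j)) = v' j
    rw [key (v j) (X j) 1 (by rw [map_one]; exact one_ne_zero)
      (by rw [map_one, mul_one, aeval_X]), map_one, div_one, aeval_X]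

/-- the homogenisation -/
private noncomputable def B0h_h {k σ : Type} [Field k] (i0 : σ) (G : MvPolynomial σ k) :
    MvPolynomial σ k :=
  ∑ e ∈ Finset.range (G.totalDegree + 1),
    X i0 ^ (G.totalDegree - e) * homogeneousComponent e G

private theorem B0h_h_hom {k σ : Type} [Field k] (i0 : σ) (G : MvPolynomial σ k) :
    (B0h_h i0 G).IsHomogeneous G.totalDegree := by
  unfold B0h_h
  refine IsHomogeneous.sum _ _ _ fun e he => ?_
  have h1 := (isHomogeneous_X_pow (R := k) i0 (G.totalDegree - e)).mul
    (homogeneousComponent_isHomogeneous e G)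
  have h2 : G.totalDegree - e + e = G.totalDegree := by
    rw [Finset.mem_range] at he
    omega
  rwa [h2] at h1

private theorem B0h_h_eval {k σ E : Type} [Field k] [Field E] [Algebra k E] (i0 : σ)
    (G : MvPolynomial σ k) (x : σ → E) (hx : x i0 = 1) : aeval x (B0h_h i0 G) = aeval x G := by
  conv_rhs => rw [← sum_homogeneousComponent G]
  unfold B0h_h
  rw [map_sum, map_sum]
  refine Finset.sum_congr rfl fun e _ => ?_
  rw [map_mul, map_pow, aeval_X, hx, one_pow, one_mul]

theorem exists_hom_of_iff {F E E' : Type} [Field F] [Field E] [Field E'] [Algebra F E] [Algebra F E']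
    {N : ℕ} (v : Fin N → E) (v' : Fin N → E') (hgen : GenOver F v)
    (h : ∀ G : MvPolynomial (Fin N) F, aeval v G = 0 ↔ aeval v' G = 0) :
    ∃ τ : E →ₐ[F] E', ∀ j, τ (v j) = v' j := by
  exact B0h_alg v v' hgen h

theorem isPt_iff {k : Type} [Field k] {n a e : ℕ} {S : Sys k n a e} {K E : Type} [Field K] [Field E]
    [Algebra k K] [Algebra k E] {P : Fin (n + 1) → K} {x : Fin (n + 1) → E} (hP : S.IsPt P)
    (hx : S.IsPt x) (G : MvPolynomial (Fin (n + 1)) k) : aeval P G = 0 ↔ aeval x G = 0 := by
  rw [← B0h_h_eval 0 G P hP.1, ← B0h_h_eval 0 G x hx.1, hP.2 _ _ (B0h_h_hom 0 G),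
    hx.2 _ _ (B0h_h_hom 0 G)]

theorem exists_hom_pt {k : Type} [Field k] {n a e : ℕ} {S : Sys k n a e} {K E : Type} [Field K]
    [Field E] [Algebra k K] [Algebra k E] {P : Fin (n + 1) → K} {x : Fin (n + 1) → E} (hP : S.IsPt P)
    (hgen : GenOver k P) (hx : S.IsPt x) : ∃ τ : K →ₐ[k] E, ∀ j, τ (P j) = x j := by
  exact exists_hom_of_iff P x hgen (isPt_iff hP hx)

theorem genOver_of_adjoin {k K : Type} [Field k] [Field K] [Algebra k K] {N : ℕ} (y : Fin N → K)
    (h : IntermediateField.adjoin k (Set.range y) = ⊤) : GenOver k y := by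
  intro z
  have hz : z ∈ IntermediateField.adjoin k (Set.range y) := by
    rw [h]
    exact IntermediateField.mem_top
  rw [IntermediateField.mem_adjoin_range_iff] at hz
  obtain ⟨r, s, hrs⟩ := hz
  by_cases hs : aeval y s = 0
  · refine ⟨0, 1, ?_, ?_⟩
    · rw [map_one]
      exact one_ne_zero
    · rw [hrs, hs, div_zero, zero_mul, map_zero]
  · exact ⟨r, s, hs, by rw [hrs, div_mul_cancel₀ _ hs]⟩

end Pool.Agent.LibHP.CIM
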