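import Pool.Agent.LibCIM.T2
import Pool.Agent.LibHPF.Q2

set_option autoImplicit false
open MvPolynomial

namespace Pool.Agent.LibHP.CIM

/-! # Row B1 (MEDIUM): generic points and derivations

Templates: `E4_homogeneous`, `IsGenPt.map` in LibHPC/E4.lean, `exists_derivation_pt` in LibHPC/E2.lean. `II_hom`: `Ideal.homogeneous_span`. `IsPt.zero`: elements of `II` vanish at `P` (decompose in homogeneous components).
`exists_der`: `exists_derivation_of_rel` (LibHPF/Q2.lean): for `G` with `aeval P G = 0`, `Gh = ∑ e ≤ m, X 0 ^ (m - e) * homogeneousComponent e G` is in `II` (`P 0 = 1`), and `∑ l, b l * aeval P (pderiv l Gh) = 0` for elements of `II` (Leibniz, `P` is a zero, the hypothesis `hb`);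
as `P 0 = 1` and `b 0 = 0` the same sum for `G` is equal to it. -/

variable {k : Type} [Field k] {n a e : ℕ} (S : Sys k n a e)

theorem B1_hom (G : MvPolynomial (Fin (n + 1)) k) :
    G ∈ S.II ↔ ∀ d, homogeneousComponent d G ∈ S.II := by
  let _ : GradedAlgebra (homogeneousSubmodule (Fin (n + 1)) k) := gradedAlgebra
  exact mem_iff_homogeneousComponent_mem (Ideal.homogeneous_span _ _ (by
    rintro x ⟨o, rfl⟩
    exact ⟨S.famDeg o, S.fam_hom o⟩)) G

theorem II_hom (G : MvPolynomial (Fin (n + 1)) k) (hG : G ∈ S.II) (d : ℕ) :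
    homogeneousComponent d G ∈ S.II := (B1_hom S G).1 hG d

variable {S}

theorem IsPt.map {Ω Ω' : Type} [Field Ω] [Algebra k Ω] [Field Ω'] [Algebra k Ω']
    {P : Fin (n + 1) → Ω} (hP : S.IsPt P) (f : Ω →ₐ[k] Ω') : S.IsPt (fun l => f (P l)) := by
  refine ⟨?_, fun d G hG => ?_⟩
  · show f (P 0) = 1
    rw [hP.1, map_one]
  rw [← hP.2 d G hG, ← map_eq_zero_iff f f.injective]
  have h : aeval (fun i => f (P i)) G = f (aeval P G) := by
    rw [← AlgHom.comp_apply, MvPolynomial.comp_aeval]
  rw [h]

theorem IsPt.zero {Ω : Type} [Field Ω] [Algebra k Ω] {P : Fin (n + 1) → Ω} (hP : S.IsPt P)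
    (G : MvPolynomial (Fin (n + 1)) k) (hG : G ∈ S.II) : aeval P G = 0 := by
  conv_lhs => rw [← sum_homogeneousComponent G]
  rw [map_sum]
  exact Finset.sum_eq_zero fun d _ =>
    (hP.2 d _ (homogeneousComponent_isHomogeneous d G)).2 (II_hom S G hG d)

theorem B1_const {G : MvPolynomial (Fin (n + 1)) k} {d : ℕ} (hG : G.IsHomogeneous d) (hd : d ≠ 0) :
    constantCoeff G = 0 := by
  rw [constantCoeff_eq]
  exact hG.coeff_eq_zero (by simpa using hd.symm)

/-- the coordinate `X i` does not vanish at the generic point (all the forms have degree at least `2`) -/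
theorem IsPt.ne_zero (he : 2 ≤ e) (hdg : ∀ j, 2 ≤ S.dg j) {Ω : Type} [Field Ω] [Algebra k Ω] {P : Fin (n + 1) → Ω}
    (hP : S.IsPt P) (i : Fin (n + 1)) : P i ≠ 0 := by
  intro h
  have h1 : (X i : MvPolynomial (Fin (n + 1)) k) ∈ S.II := by
    rw [← hP.2 1 (X i) (isHomogeneous_X k i), aeval_X, h]
  have key : ∀ G ∈ S.II, constantCoeff G = 0 ∧ constantCoeff (pderiv i G) = 0 := by
    intro G hG
    unfold Sys.II at hG
    induction hG using Submodule.span_induction with
    | mem x hx =>
      obtain ⟨o, rfl⟩ := hx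
      have hd : 2 ≤ S.famDeg o := by
        cases o with
        | none => exact he
        | some j => exact hdg j
      exact ⟨B1_const (S.fam_hom o) (by omega), B1_const (S.fam_hom o).pderiv (by omega)⟩
    | zero => exact ⟨by simp, by simp⟩
    | add x y _ _ hx hy =>
      exact ⟨by rw [map_add, hx.1, hy.1, add_zero], by rw [map_add, map_add, hx.2, hy.2, add_zero]⟩
    | smul c x _ hx =>
      refine ⟨by rw [smul_eq_mul, map_mul, hx.1, mul_zero], ?_⟩
      rw [smul_eq_mul, Derivation.leibniz, smul_eq_mul, smul_eq_mul, map_add, map_mul, map_mul,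
        hx.1, hx.2, mul_zero, zero_mul, add_zero]
  have h2 := (key _ h1).2
  rw [pderiv_X_self, map_one] at h2
  exact one_ne_zero h2

theorem B1_leib {Ω : Type} [Field Ω] [Algebra k Ω] (P : Fin (n + 1) → Ω)
    (hP : S.IsPt P) (b : Fin (n + 1) → Ω)
    (hb : ∀ o : Option (Fin a), ∑ l, b l * aeval P (pderiv l (S.fam o)) = 0)
    (G : MvPolynomial (Fin (n + 1)) k) (hG : G ∈ S.II) : ∑ l, b l * aeval P (pderiv l G) = 0 := by
  have key : aeval P G = 0 ∧ ∑ l, b l * aeval P (pderiv l G) = 0 := by
    unfold Sys.II at hG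
    induction hG using Submodule.span_induction with
    | mem x hx =>
      obtain ⟨o, rfl⟩ := hx
      exact ⟨IsPt.zero hP _ (Ideal.subset_span ⟨o, rfl⟩), hb o⟩
    | zero => exact ⟨by simp, by simp⟩
    | add x y _ _ hx hy =>
      refine ⟨by rw [map_add, hx.1, hy.1, add_zero], ?_⟩
      simp only [map_add, mul_add, Finset.sum_add_distrib, hx.2, hy.2, add_zero]
    | smul c x _ hx =>
      refine ⟨by rw [smul_eq_mul, map_mul, hx.1, mul_zero], ?_⟩
      have e1 : ∀ l, b l * aeval P (pderiv l (c • x)) =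
          aeval P c * (b l * aeval P (pderiv l x)) := by
        intro l
        rw [smul_eq_mul, Derivation.leibniz, smul_eq_mul, smul_eq_mul, map_add, map_mul, map_mul,
          hx.1]
        ring
      simp only [e1]
      rw [← Finset.mul_sum, hx.2, mul_zero]
  exact key.2

theorem exists_der [CharZero k] {Ω : Type} [Field Ω] [Algebra k Ω] (P : Fin (n + 1) → Ω)
    (hP : S.IsPt P) (b : Fin (n + 1) → Ω) (hb0 : b 0 = 0)
    (hb : ∀ o : Option (Fin a), ∑ l, b l * aeval P (pderiv l (S.fam o)) = 0) :
    ∃ δ : Derivation k Ω Ω, ∀ l, δ (P l) = b l := by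
  refine exists_derivation_of_rel k Ω (Fin (n + 1)) P b fun G hG => ?_
  set m := G.totalDegree with hm
  set Gh : MvPolynomial (Fin (n + 1)) k :=
    ∑ e ∈ Finset.range (m + 1), X 0 ^ (m - e) * homogeneousComponent e G with hGh
  have hsum : ∑ e ∈ Finset.range (m + 1), homogeneousComponent e G = G :=
    sum_homogeneousComponent G
  have hhom : Gh.IsHomogeneous m := by
    refine IsHomogeneous.sum _ _ _ fun e he => ?_
    have h1 : m = (m - e) + e := by
      have := Finset.mem_range.1 he
      omega
    have h2 : ((X 0 : MvPolynomial (Fin (n + 1)) k) ^ (m - e)).IsHomogeneous (m - e) := by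
      have h3 := (isHomogeneous_X k (0 : Fin (n + 1))).pow (m - e)
      rwa [one_mul] at h3
    have h3 := h2.mul (homogeneousComponent_isHomogeneous e G)
    rwa [← h1] at h3
  have h0 : aeval P Gh = 0 := by
    rw [hGh, map_sum]
    have h1 : ∀ e ∈ Finset.range (m + 1),
        aeval P (X 0 ^ (m - e) * homogeneousComponent e G) =
          aeval P (homogeneousComponent e G) := by
      intro e _
      rw [map_mul, map_pow, aeval_X, hP.1, one_pow, one_mul]
    rw [Finset.sum_congr rfl h1, ← map_sum, hsum, hG]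
  have hH := (hP.2 m Gh hhom).1 h0
  have h2 := B1_leib P hP b hb Gh hH
  rw [← h2]
  refine Finset.sum_congr rfl fun i _ => ?_
  by_cases hi : i = 0
  · rw [hi, hb0, zero_mul, zero_mul]
  · congr 1
    conv_lhs => rw [← hsum]
    rw [hGh, map_sum, map_sum, map_sum, map_sum]
    refine Finset.sum_congr rfl fun e _ => ?_
    rw [Derivation.leibniz, Derivation.leibniz_pow, pderiv_X, Pi.single_eq_of_ne (Ne.symm hi),
      smul_zero, smul_zero, smul_zero, add_zero, smul_eq_mul, map_mul, map_pow, aeval_X, hP.1,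
      one_pow, one_mul]

/-- chain rule -/
theorem der_aeval {Ω : Type} [Field Ω] [Algebra k Ω] {N : ℕ} (δ : Derivation k Ω Ω) (y : Fin N → Ω)
    (G : MvPolynomial (Fin N) k) : δ (aeval y G) = ∑ l, δ (y l) * aeval y (pderiv l G) := by
  classical
  induction G using MvPolynomial.induction_on with
  | C c =>
    rw [aeval_C, Derivation.map_algebraMap]
    symm
    refine Finset.sum_eq_zero fun l _ => ?_
    rw [pderiv_C, map_zero, mul_zero]
  | add p q hp hq =>
    rw [map_add, map_add, hp, hq, ← Finset.sum_add_distrib]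
    refine Finset.sum_congr rfl fun l _ => ?_
    rw [map_add, map_add, mul_add]
  | mul_X p i hp =>
    rw [map_mul, aeval_X, Derivation.leibniz, hp, smul_eq_mul, smul_eq_mul]
    have e1 : ∀ l, δ (y l) * aeval y (pderiv l (p * X i)) =
        (if l = i then aeval y p * δ (y i) else 0) + y i * (δ (y l) * aeval y (pderiv l p)) := by
      intro l
      rw [Derivation.leibniz, smul_eq_mul, smul_eq_mul, map_add, map_mul, map_mul, aeval_X, pderiv_X]
      by_cases hl : l = i
      · subst hl
        rw [Pi.single_eq_same, map_one, if_pos rfl]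
        ring
      · rw [Pi.single_eq_of_ne (Ne.symm hl), map_zero, if_neg hl]
        ring
    simp only [e1]
    rw [Finset.sum_add_distrib, Finset.sum_ite_eq' Finset.univ i, if_pos (Finset.mem_univ i),
      ← Finset.mul_sum]

end Pool.Agent.LibHP.CIM
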