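import Pool.Agent.LibCIM.B5
import Pool.Agent.LibHPF.Q11
import Pool.Agent.LibHPF.Q12
import Pool.Agent.LibHPF.Q13

set_option autoImplicit false
open MvPolynomial

namespace Pool.Agent.LibHP.CIM

/-! # Row B10 (MEDIUM/STRONG): from a special point to the generic point of the prime divisor

Same proof as `exists_generic_pair` in LibHPC/E13.lean (proved), with the `∑ dg + (e - 1)` equations in the unknown vector `Y` over `B = MvPolynomial (Fin (n+1)) k` (coordinates `Xc` of the point of the divisor): `tc (Q j) Y Xc i`, `i < dg j`, and `tc F Y Xc i`, `i ≤ e - 2` (elements of `MvPolynomial (Fin (n+1)) B`, `B` a `k`-algebra). Their gradients with respect to `Y`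
at `(P, x)` are `gr (Q j) P x i`, `gr F P x i` : independent by `pair_indep` (B5). [The derivative of `tc G Y x i` with respect to `Y_l` is `gr G Y x i l`: `pderiv l` of `tc G (fun l => X l) (fun l => C (x l)) i` is `tc (pderiv l G) ..  i`, by induction on `G`.] `going_down_smooth` (LibHPF/Q12.lean) is general. At the end `P'` is a zero of the family
(equations `i = 0`) and satisfies no other relation (it specialises to `P`), `P' 0 ≠ 0`: divide by `P' 0` (`Contact`, `tc` are homogeneous in `P` too: `tc G (c • P) (c • v) i = c ^ d tc G P v i` by `aeval_comb`-like naturality, or normalise as in E13). -/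

section Eqs
variable {k : Type} [Field k] {n : ℕ}

/-- evaluation of the Taylor coefficients with the unknown vector `X` and the coordinates `Q13_Xc` -/
private theorem B10_eval {E : Type} [Field E] [Algebra k E] (τ : MvPolynomial (Fin (n + 1)) k →+* E)
    (hτ : ∀ c : k, τ (C c) = algebraMap k E c) (y : Fin (n + 1) → E)
    (G : MvPolynomial (Fin (n + 1)) k) (i : ℕ) :
    eval₂ τ y (tc G (fun l => (X l : MvPolynomial (Fin (n + 1)) (MvPolynomial (Fin (n + 1)) k)))
      (Q13_Xc k n) i) = tc G y (fun l => τ (X l)) i := by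
  let f : MvPolynomial (Fin (n + 1)) (MvPolynomial (Fin (n + 1)) k) →ₐ[k] E :=
    { eval₂Hom τ y with
      commutes' := fun c => by
        show eval₂ τ y (algebraMap k _ c) = _
        rw [MvPolynomial.algebraMap_apply, MvPolynomial.algebraMap_eq, eval₂_C]
        exact hτ c }
  have h := tc_map f G (fun l => (X l : MvPolynomial (Fin (n + 1)) (MvPolynomial (Fin (n + 1)) k))) (Q13_Xc k n) i
  have h1 : (fun l => f (X l : MvPolynomial (Fin (n + 1)) (MvPolynomial (Fin (n + 1)) k))) = y := Q13_eX τ y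
  have h2 : (fun l => f (Q13_Xc k n l)) = fun l => τ (X l) := Q13_eXc τ y
  rw [h1, h2] at h
  exact h

private theorem B10_pderiv (G : MvPolynomial (Fin (n + 1)) k) (i : ℕ) (j : Fin (n + 1)) :
    pderiv j (tc G (fun l => (X l : MvPolynomial (Fin (n + 1)) (MvPolynomial (Fin (n + 1)) k)))
      (Q13_Xc k n) i) =
    tc (pderiv j G) (fun l => (X l : MvPolynomial (Fin (n + 1)) (MvPolynomial (Fin (n + 1)) k)))
      (Q13_Xc k n) i := by
  have h0 : ∀ i', ∑ l, gr G (fun l => (X l : MvPolynomial (Fin (n + 1)) (MvPolynomial (Fin (n + 1)) k)))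
      (Q13_Xc k n) i' l * (Q13_D k j) (X l) =
      tc (pderiv j G) (fun l => (X l : MvPolynomial (Fin (n + 1)) (MvPolynomial (Fin (n + 1)) k)))
        (Q13_Xc k n) i' := by
    intro i'
    rw [Finset.sum_eq_single j]
    · have h1 : (Q13_D k j) (X j) = (1 : MvPolynomial (Fin (n + 1)) (MvPolynomial (Fin (n + 1)) k)) := pderiv_X_self j
      rw [h1, mul_one]
      rfl
    · intro l _ hl
      have h1 : (Q13_D k j) (X l) = (0 : MvPolynomial (Fin (n + 1)) (MvPolynomial (Fin (n + 1)) k)) :=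
        pderiv_X_of_ne hl
      rw [h1, mul_zero]
    · intro h
      exact absurd (Finset.mem_univ j) h
  have hc : ∀ l, (Q13_D k j) (Q13_Xc k n l) = 0 := fun l => congrFun (Q13_D_Xc (k := k) (n := n) j) l
  rcases i with _ | i
  · have h := tc_der_zero (Q13_D k j) G
      (fun l => (X l : MvPolynomial (Fin (n + 1)) (MvPolynomial (Fin (n + 1)) k))) (Q13_Xc k n)
    rw [h0] at h
    exact h
  · have h := tc_der_succ (Q13_D k j) G
      (fun l => (X l : MvPolynomial (Fin (n + 1)) (MvPolynomial (Fin (n + 1)) k))) (Q13_Xc k n) i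
    rw [h0] at h
    simp only [hc, mul_zero, Finset.sum_const_zero, add_zero] at h
    exact h

private theorem B10_scale {R : Type} [CommRing R] [Algebra k R] {G : MvPolynomial (Fin (n + 1)) k} {d : ℕ}
    (hG : G.IsHomogeneous d) (P v : Fin (n + 1) → R) (c : R) (i : ℕ) :
    tc G (c • P) (c • v) i = c ^ d * tc G P v i := by
  unfold tc tl
  have h1 : (fun l => Polynomial.C ((c • P) l) + Polynomial.X * Polynomial.C ((c • v) l)) =
      fun l => Polynomial.C c * (Polynomial.C (P l) + Polynomial.X * Polynomial.C (v l)) := by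
    funext l
    simp only [Pi.smul_apply, smul_eq_mul, Polynomial.C_mul]
    ring
  rw [h1, Q11_scale hG, ← Polynomial.C_pow, Polynomial.coeff_C_mul]

private theorem B10_scale2 {E : Type} [Field E] [Algebra k E] {G : MvPolynomial (Fin (n + 1)) k} {d : ℕ}
    (hG : G.IsHomogeneous d) (P v : Fin (n + 1) → E) {c b : E} (hc : c ≠ 0) (i : ℕ) :
    tc G (c • P) (b • v) i = c ^ d * ((b / c) ^ i * tc G P v i) := by
  have h1 : b • v = c • ((b / c) • v) := by
    rw [smul_smul, mul_div_cancel₀ b hc]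
  rw [h1, B10_scale hG, tc_smul]

end Eqs

/-- the equations -/
private noncomputable def B10_g {k : Type} [Field k] {n a e : ℕ} (S : Sys k n a e)
    (q : Σ o : Option (Fin a), Fin (S.len (e - 1) o)) :
    MvPolynomial (Fin (n + 1)) (MvPolynomial (Fin (n + 1)) k) :=
  tc (S.fam q.1) (fun l => (X l : MvPolynomial (Fin (n + 1)) (MvPolynomial (Fin (n + 1)) k)))
    (Q13_Xc k n) q.2.val

private theorem B10_jac {k : Type} [Field k] [CharZero k] {n a e : ℕ} (S : Sys k n a e)
    (hS : S.Good) {Ω : Type} [Field Ω] [Algebra k Ω] (P x : Fin (n + 1) → Ω) (hP : S.IsPt P)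
    (hc : S.Contact P x (e - 2)) (hne : tc S.F P x (e - 1) ≠ 0)
    (τ : MvPolynomial (Fin (n + 1)) k →+* Ω)
    (hτ : ∀ c : k, τ (C c) = algebraMap k Ω c) (hτx : (fun i => τ (X i)) = x) {M : ℕ}
    (ε : Fin M ≃ Σ o : Option (Fin a), Fin (S.len (e - 1) o)) :
    LinearIndependent Ω (fun (i : Fin M) (j : Fin (n + 1)) =>
      eval₂ τ P (pderiv j (B10_g S (ε i)))) := by
  rw [Fintype.linearIndependent_iff]
  intro ρ hρ
  have hval : ∀ (q : Σ o : Option (Fin a), Fin (S.len (e - 1) o)) (j : Fin (n + 1)),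
      eval₂ τ P (pderiv j (B10_g S q)) = gr (S.fam q.1) P x q.2.val j := by
    intro q j
    unfold B10_g
    rw [B10_pderiv, B10_eval τ hτ, hτx]
    rfl
  have hrel : Rel S P x (e - 1) (fun o i => ρ (ε.symm ⟨o, i⟩)) := by
    intro l
    have h1 := congrFun hρ l
    simp only [Finset.sum_apply, Pi.smul_apply, smul_eq_mul, hval, Pi.zero_apply] at h1
    have h2 : ∑ m, ρ m * gr (S.fam (ε m).1) P x (ε m).2.val l =
        ∑ q : Σ o : Option (Fin a), Fin (S.len (e - 1) o), ρ (ε.symm q) * gr (S.fam q.1) P x q.2.val l := by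
      rw [← Equiv.sum_comp ε]
      refine Finset.sum_congr rfl fun m _ => ?_
      rw [ε.symm_apply_apply]
    rw [h2, Fintype.sum_sigma] at h1
    exact h1
  have hz := pair_indep S hS P x hP hc hne _ hrel
  intro m
  have h3 := congrFun (congrFun hz (ε m).1) (ε m).2
  simpa using h3

theorem exists_generic_pair {k : Type} [Field k] [CharZero k] {n a e : ℕ} (S : Sys k n a e)
    (hS : S.Good) {Ω : Type} [Field Ω] [Algebra k Ω] (P x : Fin (n + 1) → Ω) (hP : S.IsPt P)
    (hc : S.Contact P x (e - 2)) (hne : tc S.F P x (e - 1) ≠ 0) {κ : Type} [Field κ] [Algebra k κ]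
    (d : Fin (n + 1) → κ) (i0 : Fin (n + 1)) (hd : d i0 = 1) (hd2 : ∀ o, aeval d (S.fam o) = 0)
    (hgen : GenOver k d)
    (hsp : ∀ (e : ℕ) (G : MvPolynomial (Fin (n + 1)) k), G.IsHomogeneous e → aeval d G = 0 →
      aeval x G = 0) :
    ∃ (Ω' : Type) (_ : Field Ω') (_ : Algebra k Ω') (g : κ →ₐ[k] Ω') (P' : Fin (n + 1) → Ω'),
      S.IsPt P' ∧ S.Contact P' (fun i => g (d i)) (e - 2) ∧
      tc S.F P' (fun i => g (d i)) (e - 1) ≠ 0 := by
  obtain ⟨hsm, he2, hdg2, hsm2⟩ := hS
  have hS : S.Good := ⟨hsm, he2, hdg2, hsm2⟩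
  obtain ⟨κ', _, _, f, s, hs0, hker, -⟩ := exists_cone_of_point k (Fin (n + 1)) κ d i0 hd
  let 𝔭 : Ideal (MvPolynomial (Fin (n + 1)) k) :=
    RingHom.ker (aeval (fun i => s * f (d i)) : MvPolynomial (Fin (n + 1)) k →ₐ[k] κ')
  have h𝔭 : ∀ G : MvPolynomial (Fin (n + 1)) k,
      G ∈ 𝔭 ↔ ∀ e, aeval d (homogeneousComponent e G) = 0 := fun G => by
    rw [← hker G]
    exact RingHom.mem_ker
  haveI : 𝔭.IsPrime := RingHom.ker_isPrime _
  let τ : MvPolynomial (Fin (n + 1)) k →+* Ω := (aeval x : _ →ₐ[k] Ω).toRingHom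
  have hτ : ∀ c : k, τ (C c) = algebraMap k Ω c := fun c => aeval_C x c
  have hτx : (fun i => τ (X i)) = x := by
    funext i
    exact aeval_X x i
  have hle : ∀ b ∈ 𝔭, τ b = 0 := by
    intro b hb
    rw [h𝔭] at hb
    rw [← sum_homogeneousComponent b, map_sum]
    refine Finset.sum_eq_zero fun e _ => ?_
    exact hsp e _ (homogeneousComponent_isHomogeneous e b) (hb e)
  have hy : ∀ q : Σ o : Option (Fin a), Fin (S.len (e - 1) o), eval₂ τ P (B10_g S q) = 0 := by
    rintro ⟨o, i⟩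
    unfold B10_g
    rw [B10_eval τ hτ, hτx]
    rcases o with _ | j
    · have hi : i.val < e - 1 := i.2
      exact hc.2 i.val (by omega)
    · exact hc.1 j i.val
  obtain ⟨M, ⟨ε⟩⟩ : ∃ M : ℕ, Nonempty (Fin M ≃ Σ o : Option (Fin a), Fin (S.len (e - 1) o)) :=
    ⟨_, ⟨(Fintype.equivFin _).symm⟩⟩
  obtain ⟨Ω', _, τ', y', hkτ, hy', hspec⟩ := going_down_smooth (MvPolynomial (Fin (n + 1)) k)
    (n + 1) M (fun i => B10_g S (ε i)) Ω τ P (fun i => hy (ε i)) (B10_jac S hS P x hP hc hne τ hτ hτx ε) 𝔭 hle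
  letI : Algebra k Ω' := (τ'.comp C).toAlgebra
  have hτ' : ∀ c : k, τ' (C c) = algebraMap k Ω' c := fun c => rfl
  obtain ⟨x', hx'⟩ : ∃ x' : Fin (n + 1) → Ω', x' = fun i => τ' (X i) := ⟨_, rfl⟩
  have hax : ∀ G : MvPolynomial (Fin (n + 1)) k, aeval x' G = τ' G := by
    intro G
    have h4 : (aeval x' : MvPolynomial (Fin (n + 1)) k →ₐ[k] Ω').toRingHom = τ' := by
      refine MvPolynomial.ringHom_ext (fun c => ?_) (fun i => ?_)
      · exact (aeval_C x' c).trans (hτ' c).symm
      · exact (aeval_X x' i).trans (congrFun hx' i)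
    exact congrArg (fun F : MvPolynomial (Fin (n + 1)) k →+* Ω' => F G) h4
  have hx0 : ∀ G : MvPolynomial (Fin (n + 1)) k,
      aeval x' G = 0 ↔ ∀ e, aeval d (homogeneousComponent e G) = 0 := fun G => by
    rw [hax, ← h𝔭, ← hkτ]
    exact RingHom.mem_ker.symm
  have hxh : ∀ (e : ℕ) (G : MvPolynomial (Fin (n + 1)) k), G.IsHomogeneous e →
      (aeval d G = 0 ↔ aeval x' G = 0) := by
    intro e G hG
    rw [hx0]
    constructor
    · intro h4 e'
      rw [homogeneousComponent_of_mem hG]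
      split_ifs
      · exact h4
      · exact map_zero _
    · intro h4
      have h5 := h4 e
      rw [homogeneousComponent_of_mem hG, if_pos rfl] at h5
      exact h5
  have hxi0 : x' i0 ≠ 0 := by
    intro h4
    have h5 := (hxh 1 (X i0) (isHomogeneous_X k i0)).mpr (by rw [aeval_X]; exact h4)
    rw [aeval_X, hd] at h5
    exact one_ne_zero h5
  obtain ⟨g, hg⟩ := exists_hom_of_gen k (Fin (n + 1)) κ Ω' d i0 hd hgen x' hxi0 hxh
  have hy0 : y' 0 ≠ 0 := by
    intro h4
    have h5 := hspec (X 0) (by rw [eval₂_X]; exact h4)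
    rw [eval₂_X, hP.1] at h5
    exact one_ne_zero h5
  have hyG : ∀ G : MvPolynomial (Fin (n + 1)) k, aeval y' G = 0 → aeval P G = 0 := by
    intro G hG
    have h5 := hspec (map C G) (by rw [eval₂_map]; exact hG)
    rw [eval₂_map] at h5
    have h6 : τ.comp C = algebraMap k Ω := RingHom.ext hτ
    rw [h6] at h5
    exact h5
  have hf : ∀ (o : Option (Fin a)) (i : ℕ), i < S.len (e - 1) o → tc (S.fam o) y' x' i = 0 := by
    intro o i hi
    have h4 := hy' (ε.symm ⟨o, ⟨i, hi⟩⟩)
    simp only [ε.apply_symm_apply] at h4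
    unfold B10_g at h4
    rw [B10_eval τ' hτ', ← hx'] at h4
    exact h4
  have hlen : ∀ o : Option (Fin a), 0 < S.len (e - 1) o := by
    intro o
    rcases o with _ | j
    · show 0 < e - 1
      omega
    · show 0 < S.dg j
      have := hdg2 j
      omega
  have hzero : ∀ G ∈ S.II, aeval y' G = 0 := by
    intro G hG
    have h4 : S.II ≤ RingHom.ker (aeval y' : MvPolynomial (Fin (n + 1)) k →ₐ[k] Ω') := by
      unfold Sys.II
      rw [Ideal.span_le]
      rintro _ ⟨o, rfl⟩
      have h5 := hf o 0 (hlen o)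
      rw [tc_zero] at h5
      exact h5
    exact h4 hG
  have hF1 : tc S.F y' x' (e - 1) ≠ 0 := by
    intro h5
    have h6 := hspec (tc S.F (fun l => (X l : MvPolynomial (Fin (n + 1)) (MvPolynomial (Fin (n + 1)) k)))
      (Q13_Xc k n) (e - 1)) (by
      rw [B10_eval τ' hτ', ← hx']
      exact h5)
    rw [B10_eval τ hτ, hτx] at h6
    exact hne h6
  have hgd : (fun i => g (d i)) = (x' i0)⁻¹ • x' := by
    funext i
    rw [hg i, Pi.smul_apply, smul_eq_mul, div_eq_inv_mul]
  have hyi : (y' 0)⁻¹ ≠ 0 := inv_ne_zero hy0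
  have hxi : (x' i0)⁻¹ ≠ 0 := inv_ne_zero hxi0
  have hgd0 : ∀ o, aeval (fun i => g (d i)) (S.fam o) = 0 := by
    intro o
    have h5 : aeval (fun i => g (d i)) (S.fam o) = g (aeval d (S.fam o)) :=
      (comp_aeval_apply d g (S.fam o)).symm
    rw [h5, hd2 o, map_zero]
  refine ⟨Ω', inferInstance, inferInstance, g, (y' 0)⁻¹ • y', ⟨?_, ?_⟩, ⟨?_, ?_⟩, ?_⟩
  · rw [Pi.smul_apply, smul_eq_mul, inv_mul_cancel₀ hy0]
  · intro e G hG
    have h5 : aeval ((y' 0)⁻¹ • y') G = (y' 0)⁻¹ ^ e * aeval y' G := Q11_scale hG (y' 0)⁻¹ y'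
    rw [h5]
    constructor
    · intro h6
      rcases mul_eq_zero.mp h6 with h7 | h7
      · exact absurd h7 (pow_ne_zero e hyi)
      · exact (hP.2 e G hG).mp (hyG G h7)
    · intro h6
      rw [hzero G h6, mul_zero]
  · intro j i
    rcases Nat.lt_trichotomy i (S.dg j) with hi | hi | hi
    · have h5 : tc (S.Q j) y' x' i = 0 := hf (some j) i hi
      rw [hgd, B10_scale2 (S.hQ j) y' x' hyi, h5, mul_zero, mul_zero]
    · rw [hi, tc_top (S.hQ j)]
      exact hgd0 (some j)
    · exact tc_gt (S.hQ j) _ _ _ hi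
  · intro i hi
    have h5 : tc S.F y' x' i = 0 := hf none i (show i < e - 1 by omega)
    rw [hgd, B10_scale2 S.hF y' x' hyi, h5, mul_zero, mul_zero]
  · rw [hgd, B10_scale2 S.hF y' x' hyi]
    exact mul_ne_zero (pow_ne_zero _ hyi) (mul_ne_zero (pow_ne_zero _ (div_ne_zero hxi hyi)) hF1)

end Pool.Agent.LibHP.CIM
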