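import Pool.Agent.LibCIM.B5

set_option autoImplicit false
open MvPolynomial

namespace Pool.Agent.LibHP.CIM

/-! # Row B11 (MEDIUM): adapting a transversal tangent vector

Same proof as `exists_tangent` in LibHPC/E15.lean (proved), with the functionals `gr (Q j) P x i` (`i < dg j`), `gr F P x i` (`i ≤ e - 2`), independent by `pair_indep` (B5), so they take arbitrary values (`E15_values`): there is `b` with `gr (Q j) P x 0 · b = 0`, `gr F P x 0 · b = 0`, `gr (Q j) P x (i+1) · b = - gr (Q j) P x i · ξ` for `i + 2 ≤ dg j`, `gr F P x (i+1) · b = - gr F P x i · ξ` for `i + 1 ≤ e - 2`. Subtract `b 0 • P` (`gr_dot_P`: all values unchanged), so `b 0 = 0`; `exists_der` (B1) gives `δ` with `δ P = b`; `β = ξ - δ x`. `der_aeval` (B1) gives the last property; `tc_der_succ` applied to `tc (Q j) P x (i+1) = 0`, `tc F P x (i+1) = 0` gives the others. -/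

/-- independent functionals take arbitrary values -/
private theorem B11_values {Ω V ι : Type} [Field Ω] [AddCommGroup V] [Module Ω V] [Fintype ι]
    [DecidableEq ι] (L : ι → V →ₗ[Ω] Ω)
    (hL : ∀ ρ : ι → Ω, (∀ a, ∑ i, ρ i * L i a = 0) → ρ = 0) (b : ι → Ω) :
    ∃ a : V, ∀ i, L i a = b i := by
  have h : LinearMap.range (LinearMap.pi L) = ⊤ := by
    by_contra hcon
    obtain ⟨f, hf, hle⟩ := Submodule.exists_le_ker_of_lt_top _ (lt_top_iff_ne_top.2 hcon)
    apply hf
    have h1 : (fun i => f (fun j => if i = j then 1 else 0)) = (0 : ι → Ω) := by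
      refine hL _ fun a => ?_
      have h2 : f (LinearMap.pi L a) = 0 := hle (LinearMap.mem_range_self _ a)
      rw [f.pi_apply_eq_sum_univ] at h2
      simp only [LinearMap.pi_apply, smul_eq_mul] at h2
      exact Eq.trans (Finset.sum_congr rfl fun i _ => mul_comm _ _) h2
    refine LinearMap.ext fun y => ?_
    rw [f.pi_apply_eq_sum_univ]
    refine Finset.sum_eq_zero fun i _ => ?_
    have h3 := congrFun h1 i
    simp only [Pi.zero_apply] at h3
    rw [h3, smul_zero]
  have hb : b ∈ LinearMap.range (LinearMap.pi L) := by rw [h]; trivial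
  obtain ⟨a, ha⟩ := hb
  exact ⟨a, fun i => congrFun ha i⟩

/-- the functional `b ↦ w · b` -/
private noncomputable def B11_dot {Ω : Type} [Field Ω] {n : ℕ} (w : Fin n → Ω) :
    (Fin n → Ω) →ₗ[Ω] Ω :=
  { toFun := fun b => ∑ l, w l * b l
    map_add' := fun x y => by
      simp only [Pi.add_apply, mul_add, Finset.sum_add_distrib]
    map_smul' := fun c x => by
      simp only [Pi.smul_apply, smul_eq_mul, RingHom.id_apply, Finset.mul_sum]
      exact Finset.sum_congr rfl fun l _ => by ring }

private theorem B11_dot_apply {Ω : Type} [Field Ω] {n : ℕ} (w b : Fin n → Ω) :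
    B11_dot w b = ∑ l, w l * b l := rfl

/-- a vector with prescribed products with the gradients -/
private theorem B11_exists {k : Type} [Field k] [CharZero k] {n a e : ℕ} (S : Sys k n a e)
    (hS : S.Good) {Ω : Type} [Field Ω] [Algebra k Ω] (P x : Fin (n + 1) → Ω) (hP : S.IsPt P)
    (hc : S.Contact P x (e - 2)) (hne : tc S.F P x (e - 1) ≠ 0)
    (c : Option (Fin a) → ℕ → Ω) :
    ∃ b : Fin (n + 1) → Ω, b 0 = 0 ∧ ∀ (o : Option (Fin a)) (i : ℕ), i < S.len (e - 1) o →
      ∑ l, gr (S.fam o) P x i l * b l = c o i := by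
  classical
  have he : 2 ≤ e := hS.2.1
  obtain ⟨b', hb'⟩ := B11_values
    (fun p : (Σ o : Option (Fin a), Fin (S.len (e - 1) o)) =>
      B11_dot (gr (S.fam p.1) P x p.2.val)) (by
      intro ρ hρ
      have h := pair_indep S hS P x hP hc hne (fun o i => ρ ⟨o, i⟩) (by
        intro l
        have h1 := hρ (Pi.single l 1)
        rw [Fintype.sum_sigma] at h1
        refine Eq.trans ?_ h1
        refine Finset.sum_congr rfl fun o _ => Finset.sum_congr rfl fun i _ => ?_
        rw [B11_dot_apply]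
        congr 1
        rw [Finset.sum_eq_single l]
        · rw [Pi.single_eq_same, mul_one]
        · intro m _ hm
          rw [Pi.single_eq_of_ne hm, mul_zero]
        · intro hm
          exact absurd (Finset.mem_univ l) hm)
      funext p
      obtain ⟨o, i⟩ := p
      exact congrFun (congrFun h o) i)
    (fun p => c p.1 p.2.val)
  have hzero : ∀ (o : Option (Fin a)) (i : ℕ), i < S.len (e - 1) o →
      ∑ l, gr (S.fam o) P x i l * P l = 0 := by
    intro o i hi
    have h1 := gr_dot_P (S.fam_hom o) P x i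
    have h2 : tc (S.fam o) P x i = 0 := by
      cases o with
      | none =>
        have hi' : i < e - 1 := hi
        exact hc.2 i (by omega)
      | some j => exact hc.1 j i
    rwa [h2, mul_zero, mul_zero, add_zero] at h1
  refine ⟨fun l => b' l - b' 0 * P l, ?_, ?_⟩
  · show b' 0 - b' 0 * P 0 = 0
    rw [hP.1, mul_one, sub_self]
  · intro o i hi
    have h1 : ∑ l, gr (S.fam o) P x i l * b' l = c o i := hb' ⟨o, ⟨i, hi⟩⟩
    have h2 : ∑ l, gr (S.fam o) P x i l * (b' l - b' 0 * P l) =
        ∑ l, gr (S.fam o) P x i l * b' l - b' 0 * ∑ l, gr (S.fam o) P x i l * P l := by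
      rw [Finset.mul_sum, ← Finset.sum_sub_distrib]
      exact Finset.sum_congr rfl fun l _ => by ring
    show ∑ l, gr (S.fam o) P x i l * (b' l - b' 0 * P l) = c o i
    rw [h2, h1, hzero o i hi, mul_zero, sub_zero]

theorem exists_tangent {k : Type} [Field k] [CharZero k] {n a e : ℕ} (S : Sys k n a e) (hS : S.Good)
    {Ω : Type} [Field Ω] [Algebra k Ω] (P x ξ : Fin (n + 1) → Ω) (hP : S.IsPt P)
    (hc : S.Contact P x (e - 2)) (hne : tc S.F P x (e - 1) ≠ 0) :
    ∃ β : Fin (n + 1) → Ω, (∀ j i, i + 2 ≤ S.dg j → ∑ l, gr (S.Q j) P x i l * β l = 0) ∧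
      (∀ i, i + 1 ≤ e - 2 → ∑ l, gr S.F P x i l * β l = 0) ∧
      ∀ G : MvPolynomial (Fin (n + 1)) k, aeval x G = 0 →
        ∑ i, β i * aeval x (pderiv i G) = ∑ i, ξ i * aeval x (pderiv i G) := by
  have he : 2 ≤ e := hS.2.1
  have hdg : ∀ j, 2 ≤ S.dg j := hS.2.2.1
  obtain ⟨b, hb0, hb⟩ := B11_exists S hS P x hP hc hne
    (fun o i => if i = 0 then 0 else -∑ l, gr (S.fam o) P x (i - 1) l * ξ l)
  obtain ⟨δ, hδ⟩ := exists_der P hP b hb0 (by
    intro o
    have hpos : 0 < S.len (e - 1) o := by
      cases o with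
      | none => show 0 < e - 1; omega
      | some j => exact lt_of_lt_of_le Nat.two_pos (hdg j)
    have h1 := hb o 0 hpos
    rw [if_pos rfl] at h1
    rw [← h1]
    refine Finset.sum_congr rfl fun l _ => ?_
    rw [gr_zero, mul_comm])
  have key : ∀ (o : Option (Fin a)) (i : ℕ), i + 1 < S.len (e - 1) o →
      tc (S.fam o) P x (i + 1) = 0 →
      ∑ l, gr (S.fam o) P x i l * (ξ l - δ (x l)) = 0 := by
    intro o i hi h0
    have h1 := tc_der_succ δ (S.fam o) P x i
    rw [h0, map_zero] at h1
    have h2 := hb o (i + 1) hi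
    rw [if_neg (Nat.succ_ne_zero i), Nat.add_sub_cancel] at h2
    have h3 : ∑ l, gr (S.fam o) P x (i + 1) l * δ (P l) =
        ∑ l, gr (S.fam o) P x (i + 1) l * b l :=
      Finset.sum_congr rfl fun l _ => by rw [hδ]
    rw [h3, h2] at h1
    have h4 : ∑ l, gr (S.fam o) P x i l * (ξ l - δ (x l)) =
        ∑ l, gr (S.fam o) P x i l * ξ l - ∑ l, gr (S.fam o) P x i l * δ (x l) := by
      rw [← Finset.sum_sub_distrib]
      exact Finset.sum_congr rfl fun l _ => by ring
    rw [h4]
    linear_combination h1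
  refine ⟨fun l => ξ l - δ (x l), ?_, ?_, ?_⟩
  · intro j i hi
    exact key (some j) i (by show i + 1 < S.dg j; omega) (hc.1 j (i + 1))
  · intro i hi
    exact key none i (by show i + 1 < e - 1; omega) (hc.2 (i + 1) hi)
  · intro G hG
    have h5 := der_aeval δ x G
    rw [hG, map_zero] at h5
    simp only [sub_mul, Finset.sum_sub_distrib]
    rw [← h5, sub_zero]

end Pool.Agent.LibHP.CIM
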