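import Pool.Agent.LibCIM.B8
import Pool.Agent.LibHPF.Q4
import Pool.Agent.LibHPF.Q5
import Pool.Agent.LibHPF.Q11

set_option autoImplicit false
open MvPolynomial

namespace Pool.Agent.LibHP.CIM

/-! # Row B9 (STRONG): a special point of a prime divisor on the cone of contact directions

Same proof as `exists_special_point` in LibHPC/E11.lean (proved; `E11_core` and `LibHPF/Q11.lean`), with the forms over `Ω = AlgebraicClosure (FractionRing (MvPolynomial (Fin r × Fin (n+1)) K))`, `r = n - ∑ dg - e`: `cf (Q j) P' i`, `1 ≤ i ≤ dg j - 1` (degree `i`), `cf F P' i`, `1 ≤ i ≤ e - 2` (degree `i`), and the `r` generic linear forms `∑ j, C (h (i, j)) * (X j - C (P' j) * X 0)`: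
together `∑ (dg j - 1) + (e - 2) + r = n - a - 2 = N` forms (`exists_common_zero`; the cone over `d` gives `N + 1` independent elements, `exists_cone_of_point`). The point `x ≠ 0` satisfies the homogeneous relations of `d`, in particular the family vanishes at `x`. `Contact P' x (e-2)`: `aeval_cf`; `tc (Q j) P' x 0 = 0`, `tc (Q j) P' x (dg j) = aeval x (Q j) = 0`, `tc_gt`.
If `tc F P' x (e-1) = 0` then `Contact P' x e` (`tc F P' x e = aeval x F = 0`), so `x = c • P'` by `lines_section` (B8), `c ≠ 0`, and `G0(P') = 0`: contradiction. -/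

private theorem B9_evalcf {k : Type} [Field k] {n : ℕ} {Ω : Type} [Field Ω] [Algebra k Ω]
    (G : MvPolynomial (Fin (n + 1)) k) (P y : Fin (n + 1) → Ω) (i : ℕ) :
    eval y (cf G P i) = tc G P y i := by
  have h := aeval_cf (R := Ω) (R'' := Ω) G P i y
  have h2 : (aeval y (cf G P i) : Ω) = eval y (cf G P i) := by
    rw [aeval_def, eval₂_eq_eval_map]
    simp only [Algebra.algebraMap_self, MvPolynomial.map_id]
  rw [← h2, h]
  rfl

private theorem B9_card {a e r N n : ℕ} (dg : Fin a → ℕ) (hdg : ∀ j, 2 ≤ dg j) (he : 2 ≤ e)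
    (hr : r + ∑ j, dg j + e = n) (hN : N + a + 2 = n) :
    Fintype.card ((Σ j : Fin a, Fin (dg j - 1)) ⊕ (Fin (e - 2) ⊕ Fin r)) = N := by
  simp only [Fintype.card_sum, Fintype.card_sigma, Fintype.card_fin]
  have h1 : ∑ j, (dg j - 1) + a = ∑ j, dg j := by
    have h2 : ∑ j, dg j = ∑ j, ((dg j - 1) + 1) :=
      Finset.sum_congr rfl fun j _ => by have := hdg j; omega
    rw [h2, Finset.sum_add_distrib]
    simp
  omega

private theorem B9_core {k : Type} [Field k] [CharZero k] {n a e : ℕ} (S : Sys k n a e)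
    (hS : S.Good) (r : ℕ) (hr : r + ∑ j, S.dg j + e = n) (N : ℕ) (hN : N + a + 2 = n) {K : Type} [Field K] [Algebra k K]
    (P : Fin (n + 1) → K) (hP : S.IsPt P) {κ : Type} [Field κ] [Algebra k κ] (d : Fin (n + 1) → κ)
    (i0 : Fin (n + 1)) (hd : d i0 = 1) (hd2 : ∀ o, aeval d (S.fam o) = 0)
    (T : Fin N → MvPolynomial (Fin (n + 1)) k) (hT : AlgebraicIndependent k fun i => aeval d (T i))
    (e0 : ℕ) (G0 : MvPolynomial (Fin (n + 1)) k) (hG0 : G0.IsHomogeneous e0)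
    (hG0d : aeval d G0 = 0) (hG0F : G0 ∉ S.II) (Ω : Type) [Field Ω] [IsAlgClosed Ω]
    [Algebra k Ω] [Algebra K Ω] [IsScalarTower k K Ω] (h : Fin r × Fin (n + 1) → Ω)
    (hh : AlgebraicIndependent K h) :
    ∃ (P' x : Fin (n + 1) → Ω), S.IsPt P' ∧ x ≠ 0 ∧
      (∀ (e : ℕ) (G : MvPolynomial (Fin (n + 1)) k), G.IsHomogeneous e → aeval d G = 0 →
        aeval x G = 0) ∧
      S.Contact P' x (e - 2) ∧ tc S.F P' x (e - 1) ≠ 0 := by
  obtain ⟨hsm, he2, hdg2, hsm2⟩ := hS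
  have hS : S.Good := ⟨hsm, he2, hdg2, hsm2⟩
  obtain ⟨κ', _, _, f, s, hs0, hker, hind⟩ := exists_cone_of_point k (Fin (n + 1)) κ d i0 hd
  obtain ⟨T', hT'⟩ := hind N T hT
  have hform : ∀ (e : ℕ) (G : MvPolynomial (Fin (n + 1)) k), G.IsHomogeneous e →
      aeval d G = 0 → aeval (fun i => s * f (d i)) G = 0 := by
    intro e G hG hGd
    rw [hker]
    intro e'
    rw [homogeneousComponent_of_mem hG]
    split_ifs
    · exact hGd
    · exact map_zero _
  have hP' : S.IsPt (fun i => algebraMap K Ω (P i)) :=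
    IsPt.map hP (IsScalarTower.toAlgHom k K Ω)
  obtain ⟨P', hPP'⟩ : ∃ P' : Fin (n + 1) → Ω, P' = fun i => algebraMap K Ω (P i) := ⟨_, rfl⟩
  rw [← hPP'] at hP'
  have hcard := B9_card S.dg hdg2 he2 hr hN
  let eqv : Fin N ≃ (Σ j : Fin a, Fin (S.dg j - 1)) ⊕ (Fin (e - 2) ⊕ Fin r) :=
    (Fintype.equivFinOfCardEq hcard).symm
  let fm : (Σ j : Fin a, Fin (S.dg j - 1)) ⊕ (Fin (e - 2) ⊕ Fin r) → MvPolynomial (Fin (n + 1)) Ω :=
    Sum.elim (fun q => cf (S.Q q.1) P' (q.2.val + 1))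
      (Sum.elim (fun i => cf S.F P' (i.val + 1)) (fun i => Q11_L P' (fun j => h (i, j))))
  let dg : (Σ j : Fin a, Fin (S.dg j - 1)) ⊕ (Fin (e - 2) ⊕ Fin r) → ℕ :=
    Sum.elim (fun q => q.2.val + 1) (Sum.elim (fun i => i.val + 1) (fun _ => 1))
  have hdg : ∀ i, 0 < dg i := by
    rintro (i | (i | i))
    · exact Nat.succ_pos _
    · exact Nat.succ_pos _
    · exact Nat.one_pos
  have hfm : ∀ i, (fm i).IsHomogeneous (dg i) := by
    rintro (i | (i | i))
    · exact cf_hom _ _ _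
    · exact cf_hom _ _ _
    · exact Q11_homL P' _
  obtain ⟨y, hy0, hyG, hyf⟩ := exists_common_zero k (Fin (n + 1)) Ω κ' (fun i => s * f (d i))
    (fun G hG e => hform e _ (homogeneousComponent_isHomogeneous e G) ((hker G).mp hG e))
    N T' hT' (fun i => fm (eqv i)) (fun i => dg (eqv i)) (fun i => hdg _) (fun i => hfm _)
  have hyf' : ∀ i, eval y (fm i) = 0 := fun i => by
    have := hyf (eqv.symm i)
    rwa [eqv.apply_symm_apply] at this
  have e1 : ∀ (j : Fin a) (i : ℕ), i + 1 < S.dg j → tc (S.Q j) P' y (i + 1) = 0 := by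
    intro j i hi
    rw [← B9_evalcf]
    exact hyf' (Sum.inl ⟨j, ⟨i, by omega⟩⟩)
  have e2 : ∀ i : ℕ, i + 1 ≤ e - 2 → tc S.F P' y (i + 1) = 0 := by
    intro i hi
    rw [← B9_evalcf]
    exact hyf' (Sum.inr (Sum.inl ⟨i, by omega⟩))
  have e3 : ∀ i, ∑ j, h (i, j) * (y j - y 0 * P' j) = 0 := fun i => by
    rw [← Q11_evalL P' (fun j => h (i, j)) y]
    exact hyf' (Sum.inr (Sum.inr i))
  have hyd : ∀ (e : ℕ) (G : MvPolynomial (Fin (n + 1)) k), G.IsHomogeneous e → aeval d G = 0 →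
      aeval y G = 0 := fun e G hG hGd => hyG G (hform e G hG hGd)
  have e4 : ∀ j, aeval y (S.Q j) = 0 := fun j => hyd _ _ (S.hQ j) (hd2 (some j))
  have e5 : aeval y S.F = 0 := hyd _ _ S.hF (hd2 none)
  have e6 : ∀ j, aeval P' (S.Q j) = 0 := fun j => IsPt.zero hP' _ (Ideal.subset_span ⟨some j, rfl⟩)
  have e7 : aeval P' S.F = 0 := IsPt.zero hP' _ (Ideal.subset_span ⟨none, rfl⟩)
  have hcQ : ∀ j i, tc (S.Q j) P' y i = 0 := by
    intro j i
    rcases Nat.lt_trichotomy i (S.dg j) with hi | hi | hi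
    · rcases i with _ | i
      · rw [tc_zero]
        exact e6 j
      · exact e1 j i hi
    · rw [hi, tc_top (S.hQ j)]
      exact e4 j
    · exact tc_gt (S.hQ j) _ _ _ hi
  have hcF : ∀ i, i ≤ e - 2 → tc S.F P' y i = 0 := by
    intro i hi
    rcases i with _ | i
    · rw [tc_zero]
      exact e7
    · exact e2 i hi
  refine ⟨P', y, hP', hy0, hyd, ⟨hcQ, hcF⟩, fun h8 => ?_⟩
  have hcont : S.Contact P' y e := by
    refine ⟨hcQ, fun i hi => ?_⟩
    rcases Nat.lt_or_ge i (e - 1) with h9 | h9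
    · exact hcF i (by omega)
    · rcases Nat.lt_or_ge i e with h10 | h10
      · have h11 : i = e - 1 := by omega
        rw [h11]
        exact h8
      · have h11 : i = e := by omega
        rw [h11, tc_top S.hF]
        exact e5
  obtain ⟨c, hc⟩ := lines_section S hS r hr P hP h hh P' y (fun i => congrFun hPP' i) hcont e3
  have hc0 : c ≠ 0 := by
    rintro rfl
    exact hy0 (by rw [hc, zero_smul])
  have h6 := hyd e0 G0 hG0 hG0d
  have h7 : y = fun i => c * P' i := hc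
  rw [h7, Q11_scale hG0] at h6
  rcases mul_eq_zero.mp h6 with h8 | h8
  · exact hc0 (eq_zero_of_pow_eq_zero h8)
  · exact hG0F ((hP'.2 e0 G0 hG0).mp h8)

theorem exists_special_point {k : Type} [Field k] [CharZero k] {n a e : ℕ} (S : Sys k n a e)
    (hS : S.Good) (hn : ∑ j, S.dg j + e ≤ n) (N : ℕ) (hN : N + a + 2 = n) {K : Type} [Field K] [Algebra k K]
    (P : Fin (n + 1) → K) (hP : S.IsPt P) {κ : Type} [Field κ] [Algebra k κ] (d : Fin (n + 1) → κ)
    (i0 : Fin (n + 1)) (hd : d i0 = 1) (hd2 : ∀ o, aeval d (S.fam o) = 0)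
    (T : Fin N → MvPolynomial (Fin (n + 1)) k) (hT : AlgebraicIndependent k fun i => aeval d (T i))
    (e0 : ℕ) (G0 : MvPolynomial (Fin (n + 1)) k) (hG0 : G0.IsHomogeneous e0)
    (hG0d : aeval d G0 = 0) (hG0F : G0 ∉ S.II) :
    ∃ (Ω : Type) (_ : Field Ω) (_ : Algebra k Ω) (P' x : Fin (n + 1) → Ω), S.IsPt P' ∧ x ≠ 0 ∧
      (∀ (e : ℕ) (G : MvPolynomial (Fin (n + 1)) k), G.IsHomogeneous e → aeval d G = 0 →
        aeval x G = 0) ∧
      S.Contact P' x (e - 2) ∧ tc S.F P' x (e - 1) ≠ 0 := by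
  obtain ⟨r, hr⟩ : ∃ r, r + ∑ j, S.dg j + e = n := ⟨n - (∑ j, S.dg j + e), by omega⟩
  obtain ⟨Ω, _, _, _, h, hh⟩ := Q11_ind K (Fin r × Fin (n + 1))
  letI : Algebra k Ω := ((algebraMap K Ω).comp (algebraMap k K)).toAlgebra
  haveI : IsScalarTower k K Ω := IsScalarTower.of_algebraMap_eq fun _ => rfl
  obtain ⟨P', x, hx⟩ := B9_core S hS r hr N hN P hP d i0 hd hd2 T hT e0 G0 hG0 hG0d hG0F Ω h hh
  exact ⟨Ω, _, _, P', x, hx⟩

end Pool.Agent.LibHP.CIM
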