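import Pool.Agent.LibCIM.T3

set_option autoImplicit false
open MvPolynomial

namespace Pool.Agent.LibHP.CIM

/-! # Row B13n (EASY/MEDIUM, needs only T1, T3): numerators

`R l := S.resid (fun l => C (P l)) (fun l => X l) l ∈ MvPolynomial (Fin (n+1)) Ω`; `D := G.totalDegree`, `N := ∑ q ∈ range (D + 1), R i ^ (D - q) * aeval R (homogeneousComponent q G)`. For `y` in `B`: `aeval y (R l) = S.resid P y l = r * z l` (`resid_map`), `R i ↦ r`, `aeval (fun l => r * z l) (homogeneousComponent q G) = r ^ q * aeval z (homogeneousComponent q G)`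
(see `E25_smul` in LibHPC/E25.lean, for commutative rings), sum. -/

private theorem B13n_smul {k σ E : Type} [Field k] [CommRing E] [Algebra k E]
    {F : MvPolynomial σ k} {D : ℕ} (hF : F.IsHomogeneous D) (c : E) (y : σ → E) :
    aeval (fun j => c * y j) F = c ^ D * aeval y F := by
  rw [aeval_def, aeval_def, eval₂_eq, eval₂_eq, Finset.mul_sum]
  refine Finset.sum_congr rfl fun d hd => ?_
  have hdeg : ∑ i ∈ d.support, d i = D := by
    by_contra hne
    exact (MvPolynomial.mem_support_iff.1 hd) (hF.coeff_eq_zero hne)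
  have h1 : ∏ i ∈ d.support, (c * y i) ^ d i = c ^ D * ∏ i ∈ d.support, y i ^ d i := by
    rw [← hdeg, ← Finset.prod_pow_eq_pow_sum, ← Finset.prod_mul_distrib]
    exact Finset.prod_congr rfl fun i _ => mul_pow _ _ _
  rw [h1]
  ring

theorem exists_num {k : Type} [Field k] {n a e : ℕ} (S : Sys k n a e) {Ω : Type} [Field Ω]
    [Algebra k Ω] (P : Fin (n + 1) → Ω) (i : Fin (n + 1)) (G : MvPolynomial (Fin (n + 1)) k) :
    ∃ (D : ℕ) (N : MvPolynomial (Fin (n + 1)) Ω), ∀ (B : Type) [CommRing B] [Algebra k B]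
      [Algebra Ω B] [IsScalarTower k Ω B] (y z : Fin (n + 1) → B) (r : B),
      (∀ l, S.resid (fun l => algebraMap Ω B (P l)) y l = r * z l) → z i = 1 →
      aeval y N = r ^ D * aeval z G := by
  obtain ⟨R, hR⟩ : ∃ R : Fin (n + 1) → MvPolynomial (Fin (n + 1)) Ω,
    R = fun l => S.resid (fun l => C (P l)) (fun l => X l) l := ⟨_, rfl⟩
  refine ⟨G.totalDegree, ∑ q ∈ Finset.range (G.totalDegree + 1),
    R i ^ (G.totalDegree - q) * aeval R (homogeneousComponent q G), ?_⟩
  intro B _ _ _ _ y z r hy hz
  have h1 : ∀ l, aeval y (R l) = r * z l := by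
    intro l
    rw [← hy l, hR]
    have h2 := resid_map S ((aeval y : MvPolynomial (Fin (n + 1)) Ω →ₐ[Ω] B).restrictScalars k)
      (fun l => C (P l)) (fun l => X l) l
    simp only [AlgHom.restrictScalars_apply, aeval_C, aeval_X] at h2
    exact h2
  have h3 : ∀ H : MvPolynomial (Fin (n + 1)) k,
      aeval y (aeval R H) = aeval (fun l => r * z l) H := by
    intro H
    have h4 : ((aeval y : MvPolynomial (Fin (n + 1)) Ω →ₐ[Ω] B).restrictScalars k).comp
        (aeval R) = aeval (fun l => r * z l) := by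
      refine MvPolynomial.algHom_ext fun l => ?_
      rw [AlgHom.comp_apply, aeval_X, aeval_X, AlgHom.restrictScalars_apply, h1]
    exact congrArg (fun f => f H) h4
  rw [map_sum]
  have h5 : ∀ q ∈ Finset.range (G.totalDegree + 1),
      aeval y (R i ^ (G.totalDegree - q) * aeval R (homogeneousComponent q G)) =
        r ^ G.totalDegree * aeval z (homogeneousComponent q G) := by
    intro q hq
    rw [map_mul, map_pow, h1, hz, mul_one, h3,
      B13n_smul (homogeneousComponent_isHomogeneous q G), ← mul_assoc, ← pow_add]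
    have : G.totalDegree - q + q = G.totalDegree := by
      rw [Finset.mem_range] at hq
      omega
    rw [this]
  rw [Finset.sum_congr rfl h5, ← Finset.mul_sum, ← map_sum, sum_homogeneousComponent]

end Pool.Agent.LibHP.CIM
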