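import Pool.Agent.LibCIM.A8
import Pool.Agent.LibCIM.B1

set_option autoImplicit false
open MvPolynomial

namespace Pool.Agent.LibHP.CIM

/-! # Row B3 (STRONG/MEDIUM): the shift of a relation (page, section 2; general degrees)

`Psi l = ∑ o, ∑ i, r o i * gr (fam o) P v (i + 1) l` (a vector). For every derivation `δ` of `Ω` over `k` (`tc_der_succ`): `gr (fam o) P v (i + 1) · δP + gr (fam o) P v i · δv = δ (tc (fam o) P v (i + 1)) = 0` for `i < len s o` (`Contact`; for `o = some j` all coefficients vanish, for `none` the ones `≤ s`).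
The relation `h` paired with `δv` gives `Psi · δP = 0`. By `exists_der`, `δP` is any vector `b` with `b 0 = 0` orthogonal to the gradients `gr (fam o) P v 0` (`gr_zero`) of the family at `P`. Also `Psi · P = 0` (`gr_dot_P`), so (as `P 0 = 1` and `P` itself is orthogonal to these gradients, by `gr_dot_P` with `i = 0` and `tc .. 0 = 0`)
`Psi · b = 0` for all `b` orthogonal to the gradients (take `b - b 0 • P`); so `Psi` is in their span (`mem_span_of_orth`: double orthogonal; e.g. `Submodule.exists_le_ker_of_lt_top`, or Mathlib's `mem_span_of_iInf_ker_le_ker`). -/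

/-- Relations between the gradients `gr (fam o) P v i`, `i < len s o`. -/
def Rel {k : Type} [Field k] {n a e : ℕ} (S : Sys k n a e) {Ω : Type} [Field Ω] [Algebra k Ω]
    (P v : Fin (n + 1) → Ω) (s : ℕ) (r : ∀ o : Option (Fin a), Fin (S.len s o) → Ω) : Prop :=
  ∀ l, ∑ o, ∑ i : Fin (S.len s o), r o i * gr (S.fam o) P v i.val l = 0

/-- a vector orthogonal to all vectors orthogonal to the `w o` is in their span -/
theorem mem_span_of_orth {Ω : Type} [Field Ω] {N : ℕ} {ι : Type} [Fintype ι] (w : ι → Fin N → Ω)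
    (x : Fin N → Ω) (h : ∀ b : Fin N → Ω, (∀ o, ∑ l, w o l * b l = 0) → ∑ l, x l * b l = 0) :
    ∃ g : ι → Ω, ∀ l, x l = ∑ o, g o * w o l := by
  classical
  let dl : (Fin N → Ω) → ((Fin N → Ω) →ₗ[Ω] Ω) := fun w => ∑ l, w l • LinearMap.proj l
  have hdl : ∀ w b, dl w b = ∑ l, w l * b l := by
    intro w b
    simp only [dl, LinearMap.sum_apply, LinearMap.smul_apply, LinearMap.proj_apply, smul_eq_mul]
  have hker : ⨅ o, LinearMap.ker (dl (w o)) ≤ LinearMap.ker (dl x) := by
    intro b hb
    rw [Submodule.mem_iInf] at hb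
    rw [LinearMap.mem_ker, hdl]
    refine h b fun o => ?_
    have h1 := hb o
    rwa [LinearMap.mem_ker, hdl] at h1
  have hmem := mem_span_of_iInf_ker_le_ker hker
  rw [Submodule.mem_span_range_iff_exists_fun] at hmem
  obtain ⟨c, hc⟩ := hmem
  refine ⟨c, fun l => ?_⟩
  have h1 := LinearMap.congr_fun hc (Pi.single l 1)
  rw [LinearMap.sum_apply, hdl] at h1
  have h2 : ∀ u : Fin N → Ω, ∑ m, u m * (Pi.single l (1 : Ω) : Fin N → Ω) m = u l := by
    intro u
    rw [Finset.sum_eq_single l]
    · rw [Pi.single_eq_same, mul_one]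
    · intro m _ hm
      rw [Pi.single_eq_of_ne hm, mul_zero]
    · intro h'
      exact absurd (Finset.mem_univ l) h'
  rw [h2] at h1
  rw [← h1]
  refine Finset.sum_congr rfl fun o _ => ?_
  rw [LinearMap.smul_apply, hdl, h2, smul_eq_mul]

/-- a vector which kills `P` and the `δ P` for all derivations `δ` is a combination of the gradients at `P` -/
theorem mem_span_grad {k : Type} [Field k] [CharZero k] {n a e : ℕ} (S : Sys k n a e) {Ω : Type}
    [Field Ω] [Algebra k Ω] (P v : Fin (n + 1) → Ω) (hP : S.IsPt P) (x : Fin (n + 1) → Ω)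
    (hxP : ∑ l, x l * P l = 0) (hx : ∀ δ : Derivation k Ω Ω, ∑ l, x l * δ (P l) = 0) :
    ∃ g : Option (Fin a) → Ω, ∀ l, x l = ∑ o, g o * gr (S.fam o) P v 0 l := by
  have hP0 : ∀ o : Option (Fin a), ∑ l, gr (S.fam o) P v 0 l * P l = 0 := by
    intro o
    have h3 := gr_dot_P (S.fam_hom o) P v 0
    have h4 : tc (S.fam o) P v 0 = 0 := by
      rw [tc_zero]
      exact IsPt.zero hP _ (Ideal.subset_span ⟨o, rfl⟩)
    rw [h4, mul_zero, mul_zero, add_zero] at h3
    exact h3
  refine mem_span_of_orth (fun o : Option (Fin a) => gr (S.fam o) P v 0) x fun b hb => ?_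
  obtain ⟨δ, hδ⟩ := exists_der (S := S) P hP (fun l => b l - b 0 * P l) (by
    show b 0 - b 0 * P 0 = 0
    rw [hP.1, mul_one, sub_self]) (by
    intro o
    have e1 : ∀ l, (b l - b 0 * P l) * aeval P (pderiv l (S.fam o)) =
        gr (S.fam o) P v 0 l * b l - b 0 * (gr (S.fam o) P v 0 l * P l) := by
      intro l
      rw [gr_zero]
      ring
    simp only [e1]
    rw [Finset.sum_sub_distrib, ← Finset.mul_sum, hP0 o, mul_zero, sub_zero]
    exact hb o)
  have h3 := hx δ
  simp only [hδ, mul_sub] at h3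
  rw [Finset.sum_sub_distrib] at h3
  have e2 : ∑ l, x l * (b 0 * P l) = b 0 * ∑ l, x l * P l := by
    rw [Finset.mul_sum]
    exact Finset.sum_congr rfl fun l _ => by ring
  rw [e2, hxP, mul_zero, sub_zero] at h3
  exact h3

/-- exchange of the sums in the pairing of a relation with a vector -/
theorem B3_swap {Ω : Type} [Field Ω] {N : ℕ} {ι : Type} [Fintype ι] {A : ι → Type} [∀ o, Fintype (A o)]
    (r : ∀ o, A o → Ω) (f : ∀ o, A o → Fin N → Ω) (d : Fin N → Ω) :
    ∑ l, (∑ o, ∑ i, r o i * f o i l) * d l = ∑ o, ∑ i, r o i * ∑ l, f o i l * d l := by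
  simp only [Finset.sum_mul, Finset.mul_sum]
  rw [Finset.sum_comm]
  refine Finset.sum_congr rfl fun o _ => ?_
  rw [Finset.sum_comm]
  refine Finset.sum_congr rfl fun i _ => Finset.sum_congr rfl fun l _ => ?_
  ring

theorem shift {k : Type} [Field k] [CharZero k] {n a e : ℕ} (S : Sys k n a e) {Ω : Type} [Field Ω]
    [Algebra k Ω] (P v : Fin (n + 1) → Ω) (hP : S.IsPt P) (s : ℕ) (hc : S.Contact P v s)
    (r : ∀ o : Option (Fin a), Fin (S.len s o) → Ω) (h : Rel S P v s r) :
    ∃ g : Option (Fin a) → Ω, ∀ l, ∑ o, ∑ i : Fin (S.len s o), r o i * gr (S.fam o) P v (i.val + 1) l =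
      ∑ o, g o * gr (S.fam o) P v 0 l := by
  have htc : ∀ (o : Option (Fin a)) (i : Fin (S.len s o)), tc (S.fam o) P v (i.val + 1) = 0 := by
    intro o i
    cases o with
    | none => exact hc.2 _ i.isLt
    | some j => exact hc.1 j _
  refine mem_span_grad S P v hP
    (fun l => ∑ o, ∑ i : Fin (S.len s o), r o i * gr (S.fam o) P v (i.val + 1) l) ?_ fun δ => ?_
  · rw [B3_swap r (fun o (i : Fin (S.len s o)) l => gr (S.fam o) P v (i.val + 1) l) P]
    refine Finset.sum_eq_zero fun o _ => Finset.sum_eq_zero fun i _ => ?_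
    have h1 := gr_dot_P (S.fam_hom o) P v (i.val + 1)
    rw [htc o i, mul_zero, mul_zero, add_zero] at h1
    rw [h1, mul_zero]
  · have d1 : ∀ (o : Option (Fin a)) (i : Fin (S.len s o)),
        ∑ l, gr (S.fam o) P v (i.val + 1) l * δ (P l) = - ∑ l, gr (S.fam o) P v i.val l * δ (v l) := by
      intro o i
      have h1 := tc_der_succ δ (S.fam o) P v i.val
      rw [htc o i, map_zero] at h1
      rw [eq_neg_iff_add_eq_zero]
      exact h1.symm
    have hrel : ∑ l, (∑ o, ∑ i : Fin (S.len s o), r o i * gr (S.fam o) P v i.val l) * δ (v l) = 0 :=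
      Finset.sum_eq_zero fun l _ => by rw [h l, zero_mul]
    rw [B3_swap r (fun o (i : Fin (S.len s o)) l => gr (S.fam o) P v i.val l) (fun l => δ (v l))] at hrel
    rw [B3_swap r (fun o (i : Fin (S.len s o)) l => gr (S.fam o) P v (i.val + 1) l) (fun l => δ (P l))]
    simp only [d1, mul_neg, Finset.sum_neg_distrib]
    rw [hrel, neg_zero]

end Pool.Agent.LibHP.CIM
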