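import Mathlib

set_option autoImplicit false

namespace Pool.Agent.LibHP.CIM

/-! # Row B3e (ONLY MATHLIB, MEDIUM): eigenvectors of a shift

`R` is a subspace of the space of the families `r o i`, `i < L o`. For `r ∈ R` there is `r' ∈ R` with `r' o (i + 1) = r o i`; it is unique by `huniq` (the difference of two of them vanishes for `i ≠ 0`). So `r ↦ r'` is a linear map `θ : R → R` (choose; linearity by uniqueness) of a finite-dimensional
nonzero space over an algebraically closed field: it has an eigenvector (`Module.End.exists_eigenvalue`). -/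

theorem exists_eigen {Ω : Type} [Field Ω] [IsAlgClosed Ω] {ι : Type} [Fintype ι] {L : ι → ℕ}
    (R : Submodule Ω (∀ o, Fin (L o) → Ω))
    (hR : ∀ r ∈ R, ∃ r' ∈ R, ∀ o (i : ℕ) (hi : i + 1 < L o), r' o ⟨i + 1, hi⟩ = r o ⟨i, by omega⟩)
    (huniq : ∀ r ∈ R, (∀ o (i : Fin (L o)), i.val ≠ 0 → r o i = 0) → r = 0)
    (hne : ∃ r ∈ R, r ≠ 0) :
    ∃ r ∈ R, r ≠ 0 ∧ ∃ c : Ω, ∀ o (i : ℕ) (hi : i + 1 < L o),
      r o ⟨i, by omega⟩ = c * r o ⟨i + 1, hi⟩ := by
  -- the shift is unique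
  have hu : ∀ r₁ ∈ R, ∀ r₂ ∈ R, (∀ o (i : ℕ) (hi : i + 1 < L o),
      r₁ o ⟨i + 1, hi⟩ = r₂ o ⟨i + 1, hi⟩) → r₁ = r₂ := by
    intro r₁ h₁ r₂ h₂ h4
    rw [← sub_eq_zero]
    refine huniq _ (R.sub_mem h₁ h₂) ?_
    rintro o ⟨i, hi⟩ h0
    obtain ⟨j, rfl⟩ := Nat.exists_eq_succ_of_ne_zero h0
    rw [Pi.sub_apply, Pi.sub_apply]
    exact sub_eq_zero.2 (h4 o j hi)
  choose! θ hθR hθ2 using hR
  let T : R →ₗ[Ω] R :=
    { toFun := fun r => ⟨θ r, hθR r r.2⟩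
      map_add' := by
        intro r t
        apply Subtype.ext
        refine hu _ (hθR _ (r + t).2) _ (R.add_mem (hθR r r.2) (hθR t t.2)) ?_
        intro o i hi
        rw [hθ2 _ (r + t).2 o i hi]
        exact (congrArg₂ (· + ·) (hθ2 r r.2 o i hi) (hθ2 t t.2 o i hi)).symm
      map_smul' := by
        intro c r
        apply Subtype.ext
        refine hu _ (hθR _ (c • r).2) _ (R.smul_mem c (hθR r r.2)) ?_
        intro o i hi
        rw [hθ2 _ (c • r).2 o i hi]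
        exact (congrArg (c • ·) (hθ2 r r.2 o i hi)).symm }
  obtain ⟨r₀, hr₀, hr₀'⟩ := hne
  have : Nontrivial R := ⟨⟨⟨r₀, hr₀⟩, 0, fun h => hr₀' (congrArg Subtype.val h)⟩⟩
  obtain ⟨c, hc⟩ := Module.End.exists_eigenvalue (K := Ω) (V := R) T
  obtain ⟨v, hv⟩ := hc.exists_hasEigenvector
  have h1 : T v = c • v := hv.apply_eq_smul
  have h2 : θ (v : ∀ o, Fin (L o) → Ω) = c • (v : ∀ o, Fin (L o) → Ω) :=
    congrArg Subtype.val h1
  refine ⟨v, v.2, fun h => hv.2 (Subtype.ext h), c, ?_⟩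
  intro o i hi
  rw [← hθ2 v v.2 o i hi, h2, Pi.smul_apply, Pi.smul_apply, smul_eq_mul]

end Pool.Agent.LibHP.CIM
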