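import Pool.Agent.LibCIM.B2
import Pool.Agent.LibCIM.B3
import Pool.Agent.LibCIM.B3e

set_option autoImplicit false
open MvPolynomial

namespace Pool.Agent.LibHP.CIM

/-! # Row B4 (STRONG): the independence theorem (page, section 2; general degrees) -/

section aux
variable {k : Type} [Field k] {n : ℕ} {Ω : Type} [Field Ω] [Algebra k Ω]

private theorem B4_smul {σ : Type} (t : Ω) (y : σ → Ω) (e : ℕ) (ψ : MvPolynomial σ k)
    (hψ : ψ.IsHomogeneous e) : aeval (fun i => t * y i) ψ = t ^ e * aeval y ψ := by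
  rw [aeval_def, eval₂_eq, aeval_def, eval₂_eq, Finset.mul_sum]
  refine Finset.sum_congr rfl fun s hs => ?_
  have h1 : ∑ i ∈ s.support, s i = e := hψ.degree_eq_sum_deg_support hs |>.symm
  have h3 : ∏ i ∈ s.support, (t * y i) ^ s i = t ^ e * ∏ i ∈ s.support, y i ^ s i := by
    rw [← h1, ← Finset.prod_pow_eq_pow_sum, ← Finset.prod_mul_distrib]
    exact Finset.prod_congr rfl fun i _ => mul_pow _ _ _
  rw [h3]
  ring

private theorem B4_der [CharZero k] (δ : Derivation k Ω Ω) {z : Ω} (hz : IsAlgebraic k z) : δ z = 0 := by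
  have h1 : (minpoly k z).Separable := (minpoly.irreducible hz.isIntegral).separable
  have h2 : Polynomial.aeval z (Polynomial.derivative (minpoly k z)) ≠ 0 :=
    h1.aeval_derivative_ne_zero (minpoly.aeval k z)
  have h3 := δ.map_aeval (minpoly k z) z
  rw [minpoly.aeval, map_zero, smul_eq_mul] at h3
  exact (mul_eq_zero.mp h3.symm).resolve_left h2

private theorem B4_eval (G : MvPolynomial (Fin (n + 1)) k) (P v : Fin (n + 1) → Ω) (c : Ω) :
    (tl G P v).eval c = aeval (fun l => P l + c * v l) G := by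
  have h1 : (Polynomial.aeval c).restrictScalars k (tl G P v) =
      aeval (fun l => P l + c * v l) G := by
    unfold tl
    rw [← AlgHom.comp_apply, MvPolynomial.comp_aeval]
    congr 1
    congr 1
    funext l
    simp
    ring
  rw [← h1]
  simp [Polynomial.aeval_def]

private theorem B4_shift {G : MvPolynomial (Fin (n + 1)) k} {d : ℕ} (hG : G.IsHomogeneous d)
    (P v : Fin (n + 1) → Ω) (c : Ω) :
    aeval (v + c • P) G = ∑ i ∈ Finset.range (d + 1), c ^ (d - i) * tc G P v i := by
  rcases eq_or_ne c 0 with rfl | hc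
  · rw [zero_smul, add_zero, Finset.sum_eq_single d]
    · rw [Nat.sub_self, pow_zero, one_mul, tc_top hG]
    · intro i hi hid
      have := Finset.mem_range.1 hi
      rw [zero_pow (by omega), zero_mul]
    · intro h
      exact absurd (Finset.mem_range.2 (Nat.lt_succ_self d)) h
  · have h1 : v + c • P = fun l => c * (P l + c⁻¹ * v l) := by
      funext l
      rw [Pi.add_apply, Pi.smul_apply, smul_eq_mul, mul_add, ← mul_assoc, mul_inv_cancel₀ hc, one_mul,
        add_comm]
    rw [h1, B4_smul _ _ _ _ hG, ← B4_eval,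
      Polynomial.eval_eq_sum_range' (n := d + 1) (Nat.lt_succ_of_le (T1_top hG P v).1), Finset.mul_sum]
    refine Finset.sum_congr rfl fun i hi => ?_
    have hi' := Finset.mem_range.1 hi
    show c ^ d * (tc G P v i * c⁻¹ ^ i) = c ^ (d - i) * tc G P v i
    have h2 : c ^ d = c ^ (d - i) * c ^ i := by
      rw [← pow_add]
      congr 1
      omega
    have h3 : c ^ i * c⁻¹ ^ i = 1 := by rw [← mul_pow, mul_inv_cancel₀ hc, one_pow]
    rw [h2]
    linear_combination c ^ (d - i) * tc G P v i * h3

private theorem B4_gshift {G : MvPolynomial (Fin (n + 1)) k} {d : ℕ} (hG : G.IsHomogeneous d)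
    (hd : 0 < d) (P v : Fin (n + 1) → Ω) (c : Ω) (l : Fin (n + 1)) :
    aeval (v + c • P) (pderiv l G) = ∑ i : Fin d, c ^ (d - 1 - i.val) * gr G P v i.val l := by
  have h : (pderiv l G).IsHomogeneous (d - 1) := hG.pderiv
  rw [B4_shift h P v c, Finset.sum_range, Nat.sub_add_cancel hd]
  rfl

omit [Field k] [Algebra k Ω] in
private theorem B4_fin {L : ℕ} (hL : 0 < L) (x : Fin L → Ω) (y : ℕ → Ω) (g : Ω)
    (hlast : x ⟨L - 1, by omega⟩ * y L = 0) :
    ∑ i : Fin L, (if i.val = 0 then -g else x ⟨i.val - 1, by omega⟩) * y i.val =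
      -(g * y 0) + ∑ i : Fin L, x i * y (i.val + 1) := by
  obtain ⟨L, rfl⟩ : ∃ L', L = L' + 1 := ⟨L - 1, by omega⟩
  rw [Fin.sum_univ_succ, Fin.sum_univ_castSucc (f := fun i => x i * y (i.val + 1))]
  have h1 : x (Fin.last L) * y (L + 1) = 0 := hlast
  simp only [Fin.val_last, h1, add_zero, Fin.val_zero, if_true, neg_mul]
  congr 1

omit [Field k] [Algebra k Ω] in
private theorem B4_first {L : ℕ} (x : Fin L → Ω) (y : ℕ → Ω) (hx : ∀ i : Fin L, i.val ≠ 0 → x i = 0) :
    ∑ i : Fin L, x i * y i.val = (if h : 0 < L then x ⟨0, h⟩ else 0) * y 0 := by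
  by_cases h : 0 < L
  · rw [dif_pos h, Finset.sum_eq_single (⟨0, h⟩ : Fin L)]
    · intro i _ hi
      rw [hx i (fun h0 => hi (Fin.ext h0)), zero_mul]
    · intro h'
      exact absurd (Finset.mem_univ _) h'
  · obtain rfl : L = 0 := by omega
    rw [dif_neg h, zero_mul]
    exact Finset.sum_of_isEmpty _

omit [Field k] [Algebra k Ω] in
private theorem B4_geo {L : ℕ} (x : Fin L → Ω) (c : Ω)
    (hx : ∀ (i : ℕ) (hi : i + 1 < L), x ⟨i, by omega⟩ = c * x ⟨i + 1, hi⟩) :
    ∀ (m : ℕ) (i : ℕ) (hi : i < L), L - 1 - i = m → x ⟨i, hi⟩ = c ^ m * x ⟨L - 1, by omega⟩ := by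
  intro m
  induction m with
  | zero =>
    intro i hi h
    obtain rfl : i = L - 1 := by omega
    rw [pow_zero, one_mul]
  | succ m ih =>
    intro i hi h
    rw [hx i (by omega), ih (i + 1) (by omega) (by omega), pow_succ]
    ring

end aux

section core
variable {k : Type} [Field k] [CharZero k] {n a e : ℕ} (S : Sys k n a e) {Ω : Type} [Field Ω]
  [Algebra k Ω]

private theorem B4_famzero {P : Fin (n + 1) → Ω} (hP : S.IsPt P) (o : Option (Fin a)) :
    aeval P (S.fam o) = 0 :=
  (hP.2 _ _ (S.fam_hom o)).2 (Ideal.subset_span ⟨o, rfl⟩)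

private theorem B4_ne {P : Fin (n + 1) → Ω} (hP : S.IsPt P) : P ≠ 0 := fun h => by
  have := hP.1
  rw [h] at this
  exact zero_ne_one this

omit [CharZero k] in
private theorem B4_pair {ι : Type} [Fintype ι] (L : ι → ℕ) (G : ι → MvPolynomial (Fin (n + 1)) k)
    (P v : Fin (n + 1) → Ω) (r : ∀ o, Fin (L o) → Ω) (m : ℕ) :
    ∑ l, (∑ o, ∑ i : Fin (L o), r o i * gr (G o) P v (i.val + m) l) * v l =
      ∑ o, ∑ i : Fin (L o), r o i * (((i.val + m : ℕ) + 1) * tc (G o) P v (i.val + m + 1)) := by
  have h1 : ∀ l, (∑ o, ∑ i : Fin (L o), r o i * gr (G o) P v (i.val + m) l) * v l =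
      ∑ o, ∑ i : Fin (L o), r o i * (gr (G o) P v (i.val + m) l * v l) := by
    intro l
    rw [Finset.sum_mul]
    refine Finset.sum_congr rfl fun o _ => ?_
    rw [Finset.sum_mul]
    exact Finset.sum_congr rfl fun i _ => mul_assoc _ _ _
  rw [Finset.sum_congr rfl fun l _ => h1 l, Finset.sum_comm]
  refine Finset.sum_congr rfl fun o _ => ?_
  rw [Finset.sum_comm]
  refine Finset.sum_congr rfl fun i _ => ?_
  rw [← Finset.mul_sum, gr_dot_v]

omit [CharZero k] in
private theorem B4_pair0 {ι : Type} [Fintype ι] (G : ι → MvPolynomial (Fin (n + 1)) k)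
    (P v : Fin (n + 1) → Ω) (g : ι → Ω) :
    ∑ l, (∑ o, g o * gr (G o) P v 0 l) * v l = ∑ o, g o * tc (G o) P v 1 := by
  have h1 : ∀ l, (∑ o, g o * gr (G o) P v 0 l) * v l = ∑ o, g o * (gr (G o) P v 0 l * v l) := by
    intro l
    rw [Finset.sum_mul]
    exact Finset.sum_congr rfl fun i _ => mul_assoc _ _ _
  rw [Finset.sum_congr rfl fun l _ => h1 l, Finset.sum_comm]
  refine Finset.sum_congr rfl fun o _ => ?_
  rw [← Finset.mul_sum, gr_dot_v]
  simp

/-- the last coefficients -/
private theorem B4_last (P v : Fin (n + 1) → Ω) (s : ℕ) (hc : S.Contact P v s)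
    (hlast : tc S.F P v (s + 1) ≠ 0) (r : ∀ o : Option (Fin a), Fin (S.len s o) → Ω)
    (g : Option (Fin a) → Ω)
    (hg : ∀ l, ∑ o, ∑ i : Fin (S.len s o), r o i * gr (S.fam o) P v (i.val + 1) l =
      ∑ o, g o * gr (S.fam o) P v 0 l) :
    (∀ h : 0 < s, r none ⟨s - 1, show s - 1 < s by omega⟩ = 0) ∧ (s = 0 → g none = 0) := by
  have h0 : CharZero Ω := charZero_of_injective_algebraMap (algebraMap k Ω).injective
  have h1 : ∑ l, (∑ o, ∑ i : Fin (S.len s o), r o i * gr (S.fam o) P v (i.val + 1) l) * v l =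
      ∑ l, (∑ o, g o * gr (S.fam o) P v 0 l) * v l :=
    Finset.sum_congr rfl fun l _ => by rw [hg l]
  rw [B4_pair (S.len s) S.fam P v r 1, B4_pair0, Fintype.sum_option, Fintype.sum_option] at h1
  have h2 : ∑ j : Fin a, ∑ i : Fin (S.len s (some j)), r (some j) i *
      (((i.val + 1 : ℕ) + 1) * tc (S.fam (some j)) P v (i.val + 1 + 1)) = 0 := by
    refine Finset.sum_eq_zero fun j _ => Finset.sum_eq_zero fun i _ => ?_
    rw [show tc (S.fam (some j)) P v (i.val + 1 + 1) = 0 from hc.1 j _, mul_zero, mul_zero]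
  have h3 : ∑ j : Fin a, g (some j) * tc (S.fam (some j)) P v 1 = 0 := by
    refine Finset.sum_eq_zero fun j _ => ?_
    rw [show tc (S.fam (some j)) P v 1 = 0 from hc.1 j _, mul_zero]
  rw [h2, h3, add_zero, add_zero] at h1
  constructor
  · intro hs
    have h4 : g none * tc (S.fam none) P v 1 = 0 := by
      rw [show tc (S.fam none) P v 1 = 0 from hc.2 1 (by omega), mul_zero]
    rw [h4] at h1
    have h5 : ∑ i : Fin (S.len s none), r none i *
        (((i.val + 1 : ℕ) + 1) * tc (S.fam none) P v (i.val + 1 + 1)) =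
        r none ⟨s - 1, show s - 1 < s by omega⟩ * (((s - 1 + 1 : ℕ) + 1) * tc S.F P v (s - 1 + 1 + 1)) := by
      refine Finset.sum_eq_single (⟨s - 1, show s - 1 < s by omega⟩ : Fin (S.len s none)) ?_ ?_
      · intro i _ hi
        have hi1 : i.val < s := i.isLt
        have hi2 : i.val ≠ s - 1 := fun h => hi (Fin.ext h)
        rw [show tc (S.fam none) P v (i.val + 1 + 1) = 0 from hc.2 _ (by omega), mul_zero, mul_zero]
      · intro h
        exact absurd (Finset.mem_univ _) h
    rw [h5] at h1
    have h6 : s - 1 + 1 = s := by omega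
    rw [h6] at h1
    have h7 : ((s : ℕ) + 1 : Ω) ≠ 0 := by exact_mod_cast Nat.succ_ne_zero s
    rcases mul_eq_zero.1 h1 with h8 | h8
    · exact h8
    · exact absurd h8 (mul_ne_zero h7 hlast)
  · intro hs
    subst hs
    have h5 : ∑ i : Fin (S.len 0 none), r none i *
        (((i.val + 1 : ℕ) + 1) * tc (S.fam none) P v (i.val + 1 + 1)) = 0 :=
      Finset.sum_eq_zero fun i _ => absurd (show i.val < 0 from i.isLt) (Nat.not_lt_zero _)
    rw [h5] at h1
    rcases mul_eq_zero.1 h1.symm with h8 | h8
    · exact h8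
    · exact absurd h8 hlast

/-- the submodule of relations -/
private def B4_R (P v : Fin (n + 1) → Ω) (s : ℕ) :
    Submodule Ω (∀ o : Option (Fin a), Fin (S.len s o) → Ω) where
  carrier := {r | Rel S P v s r}
  zero_mem' := fun l => Finset.sum_eq_zero fun o _ => Finset.sum_eq_zero fun i _ => zero_mul _
  add_mem' := fun {r r'} hr hr' l => by
    have h := congrArg₂ (· + ·) (hr l) (hr' l)
    simp only [add_zero, ← Finset.sum_add_distrib] at h
    rw [← h]
    exact Finset.sum_congr rfl fun o _ => Finset.sum_congr rfl fun i _ => add_mul _ _ _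
  smul_mem' := fun c r hr l => by
    have h := congrArg (c * ·) (hr l)
    simp only [mul_zero, Finset.mul_sum] at h
    rw [← h]
    exact Finset.sum_congr rfl fun o _ => Finset.sum_congr rfl fun i _ => mul_assoc _ _ _

private theorem B4_mem (P v : Fin (n + 1) → Ω) (s : ℕ) (r : ∀ o : Option (Fin a), Fin (S.len s o) → Ω) :
    r ∈ B4_R S P v s ↔ Rel S P v s r := Iff.rfl

variable {S}

private theorem B4_core (hS : S.Good) [IsAlgClosed Ω] (P v : Fin (n + 1) → Ω) (hP : S.IsPt P)
    (hv : ∀ c : Ω, v ≠ c • P) (s : ℕ) (hse : s ≤ e) (hs1 : 1 ≤ s ∨ IsSmoothSys S.Q)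
    (hc : S.Contact P v s) (hlast : s = e ∨ tc S.F P v (s + 1) ≠ 0)
    (r : ∀ o : Option (Fin a), Fin (S.len s o) → Ω) (h : Rel S P v s r) : r = 0 := by
  by_contra hr0
  have he2 : 2 ≤ e := hS.2.1
  have hdg : ∀ j, 2 ≤ S.dg j := hS.2.2.1
  have h0 : CharZero Ω := charZero_of_injective_algebraMap (algebraMap k Ω).injective
  -- the shift
  have hR : ∀ r ∈ B4_R S P v s, ∃ r' ∈ B4_R S P v s, ∀ o (i : ℕ) (hi : i + 1 < S.len s o),
      r' o ⟨i + 1, hi⟩ = r o ⟨i, by omega⟩ := by
    intro r hr
    obtain ⟨g, hg⟩ := shift S P v hP s hc r hr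
    refine ⟨fun o i => if i.val = 0 then -g o else r o ⟨i.val - 1, by omega⟩, ?_, ?_⟩
    · rw [B4_mem]
      intro l
      have h1 : ∀ o, ∑ i : Fin (S.len s o), (if i.val = 0 then -g o else r o ⟨i.val - 1, by omega⟩) *
          gr (S.fam o) P v i.val l = -(g o * gr (S.fam o) P v 0 l) +
            ∑ i : Fin (S.len s o), r o i * gr (S.fam o) P v (i.val + 1) l := by
        intro o
        cases o with
        | some j =>
          have hL : 0 < S.len s (some j) := lt_of_lt_of_le (by norm_num) (hdg j)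
          refine B4_fin hL (r (some j)) (fun i => gr (S.fam (some j)) P v i l) (g (some j)) ?_
          exact mul_eq_zero_of_right _ (gr_gt (S.hQ j) P v (S.dg j) le_rfl l)
        | none =>
          rcases Nat.eq_zero_or_pos s with hs | hs
          · -- the case `s = 0`
            have hlast' : tc S.F P v (s + 1) ≠ 0 := by
              rcases hlast with h | h
              · omega
              · exact h
            have hg0 := (B4_last S P v s hc hlast' r g hg).2 hs
            have hE : IsEmpty (Fin (S.len s none)) := by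
              rw [hs]
              exact Fin.isEmpty
            rw [hg0, zero_mul, neg_zero, zero_add, Finset.sum_of_isEmpty, Finset.sum_of_isEmpty]
          · refine B4_fin (L := s) hs (r none) (fun i => gr (S.fam none) P v i l) (g none) ?_
            rcases hlast with h | h
            · exact mul_eq_zero_of_right _ (gr_gt S.hF P v s h.ge l)
            · exact mul_eq_zero_of_left ((B4_last S P v s hc h r g hg).1 hs) _
      have h2 : ∑ o, ∑ i : Fin (S.len s o), (if i.val = 0 then -g o else r o ⟨i.val - 1, by omega⟩) *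
          gr (S.fam o) P v i.val l = ∑ o, (-(g o * gr (S.fam o) P v 0 l) +
            ∑ i : Fin (S.len s o), r o i * gr (S.fam o) P v (i.val + 1) l) :=
        Finset.sum_congr rfl fun o _ => h1 o
      rw [h2, Finset.sum_add_distrib, hg l, Finset.sum_neg_distrib]
      ring
    · intro o i hi
      simp
  have hli := hS.1.ext P (B4_ne S hP) (B4_famzero S hP)
  have huniq : ∀ r ∈ B4_R S P v s, (∀ o (i : Fin (S.len s o)), i.val ≠ 0 → r o i = 0) → r = 0 := by
    intro r hr h1
    have h2 := Fintype.linearIndependent_iff.1 hli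
      (fun o => if h : 0 < S.len s o then r o ⟨0, h⟩ else 0) (by
        funext l
        rw [Finset.sum_apply]
        refine Eq.trans ?_ (hr l)
        refine Finset.sum_congr rfl fun o _ => ?_
        rw [B4_first (r o) (fun i => gr (S.fam o) P v i l) (h1 o)]
        show _ * aeval P (pderiv l (S.fam o)) = _ * gr (S.fam o) P v 0 l
        rw [gr_zero])
    funext o i
    by_cases hi : i.val = 0
    · have h3 := h2 o
      have hL : 0 < S.len s o := by omega
      rw [dif_pos hL] at h3
      rw [show i = ⟨0, hL⟩ from Fin.ext hi]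
      exact h3
    · exact h1 o i hi
  obtain ⟨r, hr, hrn, c, hrc⟩ := exists_eigen (B4_R S P v s) hR huniq ⟨r, h, hr0⟩
  obtain ⟨mu, hmu⟩ : ∃ mu : Option (Fin a) → Ω, mu = fun o =>
      if h : 0 < S.len s o then r o ⟨S.len s o - 1, by omega⟩ else 0 := ⟨_, rfl⟩
  have hgeo : ∀ o (i : Fin (S.len s o)), r o i = c ^ (S.len s o - 1 - i.val) * mu o := by
    intro o i
    have hL : 0 < S.len s o := lt_of_le_of_lt (Nat.zero_le _) i.isLt
    have h1 := B4_geo (r o) c (hrc o) _ i.val i.isLt rfl
    rw [hmu]
    show r o i = _ * (if h : 0 < S.len s o then r o ⟨S.len s o - 1, by omega⟩ else 0)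
    rw [dif_pos hL]
    exact h1
  have hmu0 : mu ≠ 0 := by
    intro h1
    apply hrn
    funext o i
    rw [hgeo o i, h1]
    exact mul_zero _
  obtain ⟨w, hw⟩ : ∃ w : Fin (n + 1) → Ω, w = v + c • P := ⟨_, rfl⟩
  have hw0 : w ≠ 0 := by
    intro h1
    apply hv (-c)
    rw [neg_smul, eq_neg_iff_add_eq_zero, ← hw, h1]
  have hwQ : ∀ j, aeval w (S.Q j) = 0 := by
    intro j
    rw [hw, B4_shift (S.hQ j)]
    exact Finset.sum_eq_zero fun i _ => by rw [hc.1 j i, mul_zero]
  -- the sums for the forms `Q j`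
  have hsumQ : ∀ (j : Fin a) (l : Fin (n + 1)), ∑ i : Fin (S.len s (some j)), r (some j) i *
      gr (S.fam (some j)) P v i.val l = mu (some j) * aeval w (pderiv l (S.Q j)) := by
    intro j l
    rw [hw, B4_gshift (S.hQ j) (lt_of_lt_of_le (by norm_num) (hdg j)), Finset.mul_sum]
    show ∑ i : Fin (S.dg j), r (some j) i * gr (S.Q j) P v i.val l = _
    refine Finset.sum_congr rfl fun i _ => ?_
    rw [hgeo (some j) i]
    show c ^ (S.dg j - 1 - i.val) * _ * _ = _
    ring
  rcases hlast with hse' | hlast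
  · -- the case `s = e`
    have hwF : aeval w S.F = 0 := by
      rw [hw, B4_shift S.hF]
      refine Finset.sum_eq_zero fun i hi => ?_
      rw [hc.2 i (by have := Finset.mem_range.1 hi; omega), mul_zero]
    have hwf : ∀ o, aeval w (S.fam o) = 0 := by
      intro o
      cases o with
      | none => exact hwF
      | some j => exact hwQ j
    have hli' := hS.1.ext w hw0 hwf
    apply hmu0
    funext o
    refine Fintype.linearIndependent_iff.1 hli' mu ?_ o
    funext l
    rw [Finset.sum_apply]
    have h1 := hr l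
    rw [Fintype.sum_option] at h1 ⊢
    rw [Pi.zero_apply, ← h1]
    congr 1
    · show mu none * aeval w (pderiv l S.F) = _
      rw [hw, B4_gshift S.hF (by omega), Finset.mul_sum]
      show _ = ∑ i : Fin s, r none i * gr S.F P v i.val l
      subst hse'
      refine Finset.sum_congr rfl fun i _ => ?_
      rw [hgeo none i]
      show _ = c ^ (s - 1 - i.val) * _ * _
      ring
    · refine Finset.sum_congr rfl fun j _ => ?_
      rw [hsumQ j l]
      rfl
  · -- the case `s < e`
    obtain ⟨g, hg⟩ := shift S P v hP s hc r hr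
    have hmun : mu none = 0 := by
      rw [hmu]
      show (if h : 0 < s then r none ⟨s - 1, show s - 1 < s by omega⟩ else 0) = 0
      split_ifs with hs
      · exact (B4_last S P v s hc hlast r g hg).1 hs
      · rfl
    have hrel : ∀ l, ∑ j, mu (some j) * aeval w (pderiv l (S.Q j)) = 0 := by
      intro l
      have h1 := hr l
      rw [Fintype.sum_option] at h1
      have h2 : ∑ i : Fin (S.len s none), r none i * gr (S.fam none) P v i.val l = 0 := by
        refine Finset.sum_eq_zero fun i _ => ?_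
        rw [hgeo none i, hmun, mul_zero, zero_mul]
      rw [h2, zero_add] at h1
      rw [← h1]
      exact Finset.sum_congr rfl fun j _ => (hsumQ j l).symm
    have hmuQ : (fun j => mu (some j)) ≠ 0 := by
      intro h1
      apply hmu0
      funext o
      cases o with
      | none => exact hmun
      | some j => exact congrFun h1 j
    by_cases hsm : IsSmoothSys S.Q
    · apply hmuQ
      funext j
      refine Fintype.linearIndependent_iff.1 (hsm.ext w hw0 hwQ) (fun j => mu (some j)) ?_ j
      funext l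
      rw [Finset.sum_apply]
      exact hrel l
    · have hs : 1 ≤ s := hs1.resolve_right hsm
      obtain ⟨l0, hl0⟩ : ∃ l0, w l0 ≠ 0 := Function.ne_iff.1 hw0
      have halg := fun i => vertex_algebraic S (by omega) hS.1 w hw0 hwQ (fun j => mu (some j)) hmuQ
        hrel i l0 hl0
      obtain ⟨w', hw'⟩ : ∃ w' : Fin (n + 1) → Ω, w' = (w l0)⁻¹ • w := ⟨_, rfl⟩
      have hder : ∀ (δ : Derivation k Ω Ω) (l : Fin (n + 1)), δ (w' l) = 0 := by
        intro δ l
        have h1 : IsAlgebraic k (w' l) := by
          rw [hw']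
          show IsAlgebraic k ((w l0)⁻¹ * w l)
          rw [mul_comm, ← div_eq_mul_inv]
          exact halg l
        exact B4_der δ h1
      have htc : ∀ (G : MvPolynomial (Fin (n + 1)) k) (d : ℕ), G.IsHomogeneous d → ∀ m : ℕ,
          (∀ i, i < m → tc G P v i = 0) → (∀ i, i < m → tc G P w' i = 0) ∧
            tc G P w' m = (w l0)⁻¹ ^ m * tc G P v m := by
        intro G d hG m h1
        have h2 := tc_shift hG P v c m h1
        rw [hw']
        refine ⟨fun i hi => ?_, ?_⟩
        · rw [tc_smul, hw, h2.1 i hi, mul_zero]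
        · rw [tc_smul, hw, h2.2]
      have hF := htc S.F e S.hF (s + 1) (fun i hi => hc.2 i (by omega))
      have hQ : ∀ j i, tc (S.Q j) P w' i = 0 := fun j i =>
        (htc (S.Q j) (S.dg j) (S.hQ j) (i + 1) (fun i' _ => hc.1 j i')).1 i (Nat.lt_succ_self i)
      obtain ⟨g', hg'⟩ := mem_span_grad S P w' hP (fun l => gr S.F P w' s l) (by
          have h1 := gr_dot_P S.hF P w' s
          rw [hF.1 s (Nat.lt_succ_self s), mul_zero, mul_zero, add_zero] at h1
          exact h1) (by
          intro δ
          have h1 := tc_der_succ δ S.F P w' (s - 1)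
          rw [Nat.sub_add_cancel hs, hF.1 s (Nat.lt_succ_self s), map_zero] at h1
          have h2 : ∑ l, gr S.F P w' (s - 1) l * δ (w' l) = 0 :=
            Finset.sum_eq_zero fun l _ => by rw [hder, mul_zero]
          rw [h2, add_zero] at h1
          exact h1.symm)
      have h1 : ∑ l, gr S.F P w' s l * w' l = ∑ l, (∑ o, g' o * gr (S.fam o) P w' 0 l) * w' l :=
        Finset.sum_congr rfl fun l _ => by rw [← hg' l]
      rw [gr_dot_v, B4_pair0, Fintype.sum_option] at h1
      have h2 : ∑ j : Fin a, g' (some j) * tc (S.fam (some j)) P w' 1 = 0 :=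
        Finset.sum_eq_zero fun j _ => by
          rw [show tc (S.fam (some j)) P w' 1 = 0 from hQ j 1, mul_zero]
      rw [h2, show tc (S.fam none) P w' 1 = 0 from hF.1 1 (by omega), mul_zero, add_zero,
        hF.2] at h1
      have h7 : ((s : ℕ) + 1 : Ω) ≠ 0 := by exact_mod_cast Nat.succ_ne_zero s
      rcases mul_eq_zero.1 h1 with h8 | h8
      · exact h7 h8
      · exact mul_ne_zero (pow_ne_zero _ (inv_ne_zero hl0)) hlast h8

end core

private theorem B4_closed {k : Type} [Field k] [CharZero k] {n a e : ℕ} (S : Sys k n a e) (hS : S.Good)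
    {Ω : Type} [Field Ω] [Algebra k Ω] [IsAlgClosed Ω] (P v : Fin (n + 1) → Ω) (hP : S.IsPt P)
    (hv : ∀ c : Ω, v ≠ c • P) : ∀ (m s : ℕ), e - s = m → s ≤ e → (1 ≤ s ∨ IsSmoothSys S.Q) →
    S.Contact P v s → ∀ (r : ∀ o : Option (Fin a), Fin (S.len s o) → Ω), Rel S P v s r → r = 0 := by
  intro m
  induction m with
  | zero =>
    intro s hm hse hs1 hc r h
    exact B4_core hS P v hP hv s hse hs1 hc (Or.inl (by omega)) r h
  | succ m ih =>
    intro s hm hse hs1 hc r h
    by_cases h0 : tc S.F P v (s + 1) = 0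
    · obtain ⟨r', hr'⟩ : ∃ r' : ∀ o : Option (Fin a), Fin (S.len (s + 1) o) → Ω,
          r' = fun o => match o with
            | none => (Fin.snoc (α := fun _ => Ω) (r none) 0 : Fin (s + 1) → Ω)
            | some j => r (some j) := ⟨_, rfl⟩
      have hr0 := ih (s + 1) (by omega) (by omega) (Or.inl (by omega))
        ⟨hc.1, fun i hi => by
          rcases Nat.lt_or_ge i (s + 1) with h1 | h1
          · exact hc.2 i (by omega)
          · rw [show i = s + 1 by omega]
            exact h0⟩ r' (by
          intro l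
          rw [← h l, Fintype.sum_option, Fintype.sum_option, hr']
          congr 1
          show ∑ i : Fin (s + 1), (Fin.snoc (α := fun _ => Ω) (r none) 0 : Fin (s + 1) → Ω) i *
            gr S.F P v i.val l = ∑ i : Fin s, r none i * gr S.F P v i.val l
          rw [Fin.sum_univ_castSucc]
          simp only [Fin.snoc_castSucc, Fin.snoc_last, zero_mul, add_zero, Fin.val_castSucc])
      funext o
      cases o with
      | none =>
        have h1 := congrFun hr0 none
        rw [hr'] at h1
        funext i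
        have h2 := congrFun h1 (Fin.castSucc (n := s) i)
        have h3 : (Fin.snoc (α := fun _ => Ω) (r none) 0 : Fin (s + 1) → Ω) (Fin.castSucc (n := s) i) =
          r none i := Fin.snoc_castSucc (α := fun _ => Ω) _ _ _
        exact h3.symm.trans h2
      | some j =>
        have h1 := congrFun hr0 (some j)
        rw [hr'] at h1
        exact h1
    · exact B4_core hS P v hP hv s hse hs1 hc (Or.inr h0) r h

theorem indep {k : Type} [Field k] [CharZero k] {n a e : ℕ} (S : Sys k n a e) (hS : S.Good)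
    {Ω : Type} [Field Ω] [Algebra k Ω] (P v : Fin (n + 1) → Ω) (hP : S.IsPt P)
    (hv : ∀ c : Ω, v ≠ c • P) (s : ℕ) (hse : s ≤ e) (hs1 : 1 ≤ s ∨ IsSmoothSys S.Q)
    (hc : S.Contact P v s) (r : ∀ o : Option (Fin a), Fin (S.len s o) → Ω) (h : Rel S P v s r) :
    r = 0 := by
  obtain ⟨f, hf⟩ : ∃ f : Ω →ₐ[k] AlgebraicClosure Ω, f = IsScalarTower.toAlgHom k Ω (AlgebraicClosure Ω) :=
    ⟨_, rfl⟩
  have hfi : Function.Injective f := f.toRingHom.injective
  have h1 := B4_closed S hS (fun l => f (P l)) (fun l => f (v l)) (IsPt.map hP f) (by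
      intro c h1
      have h2 := congrFun h1 0
      rw [Pi.smul_apply, smul_eq_mul] at h2
      rw [hP.1, map_one, mul_one] at h2
      apply hv (v 0)
      funext l
      apply hfi
      rw [Pi.smul_apply, smul_eq_mul, map_mul]
      have h3 := congrFun h1 l
      rw [Pi.smul_apply, smul_eq_mul] at h3
      rw [h3, h2]) (e - s) s rfl hse hs1
    ⟨fun j i => by rw [← tc_map, hc.1 j i, map_zero], fun i hi => by rw [← tc_map, hc.2 i hi, map_zero]⟩
    (fun o i => f (r o i)) (by
      intro l
      have h2 := congrArg f (h l)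
      rw [map_zero, map_sum] at h2
      rw [← h2]
      refine Finset.sum_congr rfl fun o _ => ?_
      rw [map_sum]
      refine Finset.sum_congr rfl fun i _ => ?_
      rw [map_mul]
      congr 1
      exact (tc_map f _ P v _).symm)
  funext o i
  apply hfi
  rw [congrFun (congrFun h1 o) i]
  exact (map_zero f).symm

end Pool.Agent.LibHP.CIM
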