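import Pool.Agent.LibCIM.A9
import Pool.Agent.LibCIM.B4
import Pool.Agent.LibHPF.Q4

set_option autoImplicit false
open MvPolynomial

namespace Pool.Agent.LibHP.CIM

/-! # Row B5 (MEDIUM): the cone of contact directions is a smooth system (general degrees)

`cone_smooth`: at a nonzero zero `v` over `AlgebraicClosure Ω`: `v 0 = 0`, `P 0 = 1`, so `v` is not a multiple of `P`; `Contact P v s` (`aeval_cf`; `tc (Q j) P v i` for `i = 0` (`tc_zero`, `P` is a zero), `1 ≤ i ≤ dg j` equations, `i > dg j` (`tc_gt`)). A relation between the gradients (`grd_cf`): pair it with `P`: all gradients except the one of `X 0` kill `P` (`gr_dot_P`),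
so the coefficient of `X 0` is `0`; the other coefficients are a relation `Rel` (`r (some j) i = ` coefficient of `some (inl ⟨j, i⟩)`, `r none i = ` coefficient of `some (inr i)`; `Fintype.sum_option`, `Fintype.sum_sum_type`, `Fintype.sum_sigma`); then `indep` (B4). `cone_hom`: `cf_hom`. `cone_ext`: `map_cf`.
`pair_indep`: page 2.2: pair the relation with `x` (`gr_dot_v`): `gr F P x (e-2) · x = (e-1) tc F P x (e-1) ≠ 0`, the others kill `x`, so `r none (e-2) = 0`; then `indep` with `s = e - 2` (`x` is not a multiple of `P`, otherwise `tl F P x = (1 + c t)^e F(P) = 0`). `cone_prime`: `prime_of_smoothSys` (A9), `card_cone`. `cf_notMem`: the system `cone P (s+1)` has `∑ dg + s + 2 < n + 1` forms, so it has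
a nonzero zero `v` over `AlgebraicClosure Ω` (`exists_common_zero` (Q4) applied to `k := Ω`, `x := X` generic, or any Nullstellensatz argument), there the gradient of `cf F P (s+1)` is not in the span of the other gradients, but if `cf F P (s+1) = ∑ H_i g_i` it would be `∑ H_i(v) grd g_i v`. -/

variable {k : Type} [Field k] {n a e : ℕ} (S : Sys k n a e)

theorem cone_hom {R : Type} [CommRing R] [Algebra k R] (P : Fin (n + 1) → R) (s : ℕ)
    (o : S.Idx s) : (S.cone P s o).IsHomogeneous (S.coneDeg s o) := by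
  rcases o with _ | (⟨j, i⟩ | i)
  · exact isHomogeneous_X R 0
  · exact cf_hom (S.Q j) P (i.val + 1)
  · exact cf_hom S.F P (i.val + 1)

theorem cone_ext {Ω Ω' : Type} [Field Ω] [Algebra k Ω] [Field Ω'] [Algebra k Ω'] [Algebra Ω Ω']
    [IsScalarTower k Ω Ω'] (P : Fin (n + 1) → Ω) (s : ℕ) :
    extSys Ω' (S.cone P s) = S.cone (fun l => algebraMap Ω Ω' (P l)) s := by
  funext o
  unfold extSys
  rcases o with _ | (⟨j, i⟩ | i)
  · show MvPolynomial.map (algebraMap Ω Ω') (X 0) = X 0
    rw [map_X]
  · exact map_cf (S.Q j) P (i.val + 1)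
  · exact map_cf S.F P (i.val + 1)

/-- a zero of the cone is a contact direction -/
theorem contact_of_zero {Ω Ω' : Type} [Field Ω] [Algebra k Ω] [Field Ω'] [Algebra k Ω'] [Algebra Ω Ω']
    [IsScalarTower k Ω Ω'] (P : Fin (n + 1) → Ω) (hP : ∀ o, aeval P (S.fam o) = 0) (s : ℕ) (v : Fin (n + 1) → Ω') :
    (∀ o, aeval v (S.cone P s o) = 0) ↔
      v 0 = 0 ∧ S.Contact (fun l => algebraMap Ω Ω' (P l)) v s := by
  have h0 : ∀ o, tc (S.fam o) (fun l => algebraMap Ω Ω' (P l)) v 0 = 0 := by
    intro o
    rw [tc_zero]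
    have h1 := MvPolynomial.aeval_algebraMap_apply Ω' P (S.fam o)
    rw [hP o, map_zero] at h1
    exact h1
  constructor
  · intro h
    refine ⟨?_, fun j i => ?_, fun i hi => ?_⟩
    · have h1 := h none
      change aeval v (X 0) = 0 at h1
      rwa [aeval_X] at h1
    · rcases Nat.eq_zero_or_pos i with rfl | hi
      · exact h0 (some j)
      · by_cases hi2 : i ≤ S.dg j
        · have h1 := h (some (Sum.inl ⟨j, ⟨i - 1, by omega⟩⟩))
          change aeval v (cf (S.Q j) P (i - 1 + 1)) = 0 at h1
          rw [aeval_cf, Nat.sub_add_cancel hi] at h1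
          exact h1
        · exact tc_gt (S.hQ j) _ _ i (by omega)
    · rcases Nat.eq_zero_or_pos i with rfl | hi0
      · exact h0 none
      · have h1 := h (some (Sum.inr ⟨i - 1, by omega⟩))
        change aeval v (cf S.F P (i - 1 + 1)) = 0 at h1
        rw [aeval_cf, Nat.sub_add_cancel hi0] at h1
        exact h1
  · rintro ⟨hv, hQ, hF⟩ o
    rcases o with _ | (⟨j, i⟩ | i)
    · show aeval v (X 0) = 0
      rw [aeval_X]
      exact hv
    · show aeval v (cf (S.Q j) P (i.val + 1)) = 0
      rw [aeval_cf]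
      exact hQ j _
    · show aeval v (cf S.F P (i.val + 1)) = 0
      rw [aeval_cf]
      exact hF _ (by omega)

/-- the coefficients of the relation between the gradients of the equations of the cone, as a family of
coefficients of a relation `Rel` (the coefficient of the first equation is left out) -/
def B5_r {Ω : Type} (s : ℕ) (c : S.Idx s → Ω) : ∀ o : Option (Fin a), Fin (S.len s o) → Ω
  | none => fun i => c (some (Sum.inr i))
  | some j => fun i => c (some (Sum.inl ⟨j, i⟩))

variable [CharZero k]

theorem B5_core (hS : S.Good) {Ω Ω' : Type} [Field Ω] [Algebra k Ω] [Field Ω'] [Algebra k Ω']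
    [Algebra Ω Ω'] [IsScalarTower k Ω Ω'] (P : Fin (n + 1) → Ω)
    (hP : S.IsPt P) (s : ℕ) (hse : s ≤ e) (hs1 : 1 ≤ s ∨ IsSmoothSys S.Q) (y : Fin (n + 1) → Ω')
    (hy : y ≠ 0) (hzero : ∀ o, aeval y (S.cone P s o) = 0) :
    LinearIndependent Ω' (fun o => grd (S.cone P s o) y) := by
  have hfam : ∀ o, aeval P (S.fam o) = 0 := fun o => IsPt.zero hP _ (Ideal.subset_span ⟨o, rfl⟩)
  obtain ⟨hy0, hcon⟩ := (contact_of_zero S (Ω' := Ω') P hfam s y).1 hzero
  set P' : Fin (n + 1) → Ω' := fun l => algebraMap Ω Ω' (P l) with hP'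
  have hPt : S.IsPt P' := IsPt.map hP (IsScalarTower.toAlgHom k Ω Ω')
  have hne : ∀ c : Ω', y ≠ c • P' := by
    intro c hc
    have h1 : y 0 = c * P' 0 := by
      rw [hc]
      rfl
    rw [hy0, hPt.1, mul_one] at h1
    apply hy
    rw [hc, ← h1, zero_smul]
  rw [Fintype.linearIndependent_iff]
  intro c hc
  have hcoord : ∀ l, ∑ o, c o * grd (S.cone P s o) y l = 0 := by
    intro l
    have h1 := congrFun hc l
    rw [Finset.sum_apply] at h1
    exact h1
  have gQ : ∀ (j : Fin a) (i : Fin (S.dg j)) l, grd (S.cone P s (some (Sum.inl ⟨j, i⟩))) y l =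
      gr (S.Q j) P' y i.val l := fun j i l => congrFun (grd_cf (S.Q j) P i.val y) l
  have gF : ∀ (i : Fin s) l, grd (S.cone P s (some (Sum.inr i))) y l =
      gr S.F P' y i.val l := fun i l => congrFun (grd_cf S.F P i.val y) l
  have gX : ∀ l, grd (S.cone P s none) y l = if l = 0 then 1 else 0 := by
    intro l
    show aeval y (pderiv l (X 0 : MvPolynomial (Fin (n + 1)) Ω)) = _
    rw [pderiv_X]
    by_cases hl : l = 0
    · subst hl
      rw [Pi.single_eq_same, map_one, if_pos rfl]
    · rw [Pi.single_eq_of_ne (Ne.symm hl), map_zero, if_neg hl]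
  have htc0 : ∀ (o : Option (Fin a)) (i : Fin (S.len s o)), tc (S.fam o) P' y i.val = 0 := by
    intro o i
    cases o with
    | none => exact hcon.2 _ (by have h5 : i.val < s := i.isLt; omega)
    | some j => exact hcon.1 j _
  have hexp : ∀ l, c none * (if l = 0 then 1 else 0) +
      ∑ o, ∑ i : Fin (S.len s o), B5_r S s c o i * gr (S.fam o) P' y i.val l = 0 := by
    intro l
    have h1 := hcoord l
    rw [Fintype.sum_option, Fintype.sum_sum_type, Fintype.sum_sigma] at h1
    simp only [gQ, gF, gX] at h1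
    rw [Fintype.sum_option]
    rw [add_comm (∑ j : Fin a, _)] at h1
    exact h1
  have hnone : c none = 0 := by
    have h1 : ∑ l, (c none * (if l = 0 then 1 else 0) +
      ∑ o, ∑ i : Fin (S.len s o), B5_r S s c o i * gr (S.fam o) P' y i.val l) * P' l = 0 :=
      Finset.sum_eq_zero fun l _ => by rw [hexp l, zero_mul]
    simp only [add_mul, Finset.sum_add_distrib] at h1
    rw [B3_swap (B5_r S s c) (fun o (i : Fin (S.len s o)) l => gr (S.fam o) P' y i.val l) P'] at h1
    have h3 : ∑ o, ∑ i : Fin (S.len s o), B5_r S s c o i * ∑ l, gr (S.fam o) P' y i.val l * P' l = 0 := by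
      refine Finset.sum_eq_zero fun o _ => Finset.sum_eq_zero fun i _ => ?_
      have h4 := gr_dot_P (S.fam_hom o) P' y i.val
      rw [htc0 o i, mul_zero, mul_zero, add_zero] at h4
      rw [h4, mul_zero]
    rw [h3, add_zero] at h1
    have h2 : ∑ l, c none * (if l = 0 then (1 : Ω') else 0) * P' l = c none := by
      rw [Finset.sum_eq_single 0]
      · rw [if_pos rfl, mul_one, hPt.1, mul_one]
      · intro l _ hl
        rw [if_neg hl, mul_zero, zero_mul]
      · intro h'
        exact absurd (Finset.mem_univ _) h'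
    rw [h2] at h1
    exact h1
  have hrel : Rel S P' y s (B5_r S s c) := by
    intro l
    have h1 := hexp l
    rw [hnone, zero_mul, zero_add] at h1
    exact h1
  have hr := indep S hS P' y hPt hne s hse hs1 hcon _ hrel
  intro o
  rcases o with _ | (⟨j, i⟩ | i)
  · exact hnone
  · exact congrFun (congrFun hr (some j)) i
  · exact congrFun (congrFun hr none) i

theorem cone_smooth (hS : S.Good) {Ω : Type} [Field Ω] [Algebra k Ω] (P : Fin (n + 1) → Ω)
    (hP : S.IsPt P) (s : ℕ) (hse : s ≤ e) (hs1 : 1 ≤ s ∨ IsSmoothSys S.Q) :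
    IsSmoothSys (S.cone P s) := fun y hy hzero => B5_core S hS P hP s hse hs1 y hy hzero

omit [CharZero k] in
theorem B5_zero_dir {R : Type} [CommRing R] [Algebra k R] (G : MvPolynomial (Fin (n + 1)) k)
    (P : Fin (n + 1) → R) (i : ℕ) (hi : i ≠ 0) : tc G P 0 i = 0 := by
  have h := tc_smul G P 0 (0 : R) i
  rw [zero_smul, zero_pow hi, zero_mul] at h
  exact h

/-- the relation without the last coefficient of the last form -/
def B5_cut {Ω : Type} {e' s : ℕ} (S : Sys k n a e') (r : ∀ o : Option (Fin a), Fin (S.len (s + 1) o) → Ω) :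
    ∀ o : Option (Fin a), Fin (S.len s o) → Ω
  | none => fun i => r none (Fin.castSucc (n := s) i)
  | some j => r (some j)

theorem B5_pair {e' : ℕ} (S : Sys k n a (e' + 2)) (hS : S.Good) {Ω : Type} [Field Ω] [Algebra k Ω]
    (P x : Fin (n + 1) → Ω)
    (hP : S.IsPt P) (hc : S.Contact P x e') (hne : tc S.F P x (e' + 1) ≠ 0)
    (r : ∀ o : Option (Fin a), Fin (S.len (e' + 1) o) → Ω) (h : Rel S P x (e' + 1) r) : r = 0 := by
  have hch : CharZero Ω := charZero_of_injective_algebraMap (algebraMap k Ω).injective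
  -- the last coefficient
  have hlast : r none (Fin.last e') = 0 := by
    have h1 : ∑ l, (∑ o, ∑ i : Fin (S.len (e' + 1) o), r o i * gr (S.fam o) P x i.val l) * x l = 0 :=
      Finset.sum_eq_zero fun l _ => by rw [h l, zero_mul]
    rw [B3_swap r (fun o (i : Fin (S.len (e' + 1) o)) l => gr (S.fam o) P x i.val l) x] at h1
    rw [Fintype.sum_option] at h1
    have h2 : ∑ j : Fin a, ∑ i : Fin (S.len (e' + 1) (some j)), r (some j) i *
        ∑ l, gr (S.fam (some j)) P x i.val l * x l = 0 := by
      refine Finset.sum_eq_zero fun j _ => Finset.sum_eq_zero fun i _ => ?_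
      rw [gr_dot_v]
      have h3 : tc (S.fam (some j)) P x (i.val + 1) = 0 := hc.1 j _
      rw [h3, mul_zero, mul_zero]
    rw [h2, add_zero] at h1
    change ∑ i : Fin (e' + 1), r none i * ∑ l, gr S.F P x i.val l * x l = 0 at h1
    simp only [gr_dot_v] at h1
    rw [Finset.sum_eq_single (Fin.last e')] at h1
    · rcases mul_eq_zero.1 h1 with h2 | h2
      · exact h2
      · rcases mul_eq_zero.1 h2 with h3 | h3
        · exfalso
          have h4 : ((Fin.last e').val : Ω) + 1 ≠ 0 := by
            exact_mod_cast Nat.succ_ne_zero (Fin.last e').val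
          exact h4 h3
        · exact absurd h3 hne
    · intro i _ hi
      have hi' : i.val + 1 ≤ e' := by
        have h5 := i.isLt
        have h6 : i.val ≠ e' := fun h7 => hi (Fin.ext h7)
        omega
      rw [hc.2 _ hi', mul_zero, mul_zero]
    · intro h'
      exact absurd (Finset.mem_univ _) h'
  have hxP : ∀ c : Ω, x ≠ c • P := by
    intro c hxc
    apply hne
    have h1 : ∀ i, i < e' + 1 → tc S.F P 0 i = 0 := by
      intro i _
      rcases Nat.eq_zero_or_pos i with rfl | hi
      · rw [tc_zero]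
        exact IsPt.zero hP _ (Ideal.subset_span ⟨none, rfl⟩)
      · exact B5_zero_dir S.F P i (by omega)
    have h2 := (tc_shift S.hF P 0 c (e' + 1) h1).2
    rw [zero_add, ← hxc] at h2
    rw [h2]
    exact B5_zero_dir S.F P (e' + 1) (by omega)
  have hrel : Rel S P x e' (B5_cut S r) := by
    intro l
    have h1 := h l
    rw [Fintype.sum_option] at h1 ⊢
    have h2 : ∑ i : Fin (S.len (e' + 1) none), r none i * gr (S.fam none) P x i.val l =
        ∑ i : Fin (S.len e' none), B5_cut S r none i * gr (S.fam none) P x i.val l := by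
      have h3 := Fin.sum_univ_castSucc (n := e') (fun i : Fin (e' + 1) => r none i * gr (S.fam none) P x i.val l)
      rw [hlast, zero_mul, add_zero] at h3
      exact h3
    rw [h2] at h1
    exact h1
  have hs1 : 1 ≤ e' ∨ IsSmoothSys S.Q := by
    rcases hS.2.2.2 with h1 | h1
    · exact Or.inl (by omega)
    · exact Or.inr h1
  have hr := indep S hS P x hP hxP e' (by omega) hs1 hc _ hrel
  funext o
  cases o with
  | none =>
    funext i
    refine Fin.lastCases (n := e') (motive := fun i => r none i = 0) hlast (fun i => ?_) i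
    exact congrFun (congrFun hr none) i
  | some j => exact congrFun hr (some j)

theorem pair_indep (hS : S.Good) {Ω : Type} [Field Ω] [Algebra k Ω] (P x : Fin (n + 1) → Ω)
    (hP : S.IsPt P) (hc : S.Contact P x (e - 2)) (hne : tc S.F P x (e - 1) ≠ 0)
    (r : ∀ o : Option (Fin a), Fin (S.len (e - 1) o) → Ω) (h : Rel S P x (e - 1) r) : r = 0 := by
  obtain ⟨e', rfl⟩ : ∃ e', e = e' + 2 := ⟨e - 2, by have := hS.2.1; omega⟩
  exact B5_pair S hS P x hP hc hne r h

theorem cone_prime (hS : S.Good) {Ω : Type} [Field Ω] [Algebra k Ω] (P : Fin (n + 1) → Ω)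
    (hP : S.IsPt P) (s : ℕ) (hse : s ≤ e) (hs1 : 1 ≤ s ∨ IsSmoothSys S.Q)
    (hn : ∑ j, S.dg j + s + 2 ≤ n) : (S.JJ P s).IsPrime := by
  have hch : CharZero Ω := charZero_of_injective_algebraMap (algebraMap k Ω).injective
  refine prime_of_smoothSys (S.cone P s) (S.coneDeg s) (S.coneDeg_pos s) (cone_hom S P s)
    (cone_smooth S hS P hP s hse hs1) ?_
  rw [S.card_cone]
  omega

theorem B5_notMem (hS : S.Good) {Ω Ω' : Type} [Field Ω] [Algebra k Ω] [Field Ω'] [Algebra k Ω']
    [Algebra Ω Ω'] [IsScalarTower k Ω Ω'] [IsAlgClosed Ω'] (P : Fin (n + 1) → Ω)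
    (hP : S.IsPt P) (s : ℕ) (hse : s + 1 ≤ e) (hn : ∑ j, S.dg j + s + 2 ≤ n)
    (hmem : cf S.F P (s + 1) ∈ S.JJ P s) : False := by
  -- a nonzero zero of the larger system
  obtain ⟨y, hy, hzero⟩ : ∃ y : Fin (n + 1) → Ω', y ≠ 0 ∧ ∀ o, aeval y (S.cone P (s + 1) o) = 0 := by
    have hcard : Fintype.card (S.Idx (s + 1)) = ∑ j, S.dg j + s + 2 := by
      rw [S.card_cone]
      omega
    let eq := (Fintype.equivFinOfCardEq hcard).symm
    obtain ⟨y, hy, -, hz⟩ := exists_common_zero Ω' (Fin (n + 1)) Ω'
      (FractionRing (MvPolynomial (Fin (n + 1)) Ω'))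
      (fun l => algebraMap (MvPolynomial (Fin (n + 1)) Ω') (FractionRing (MvPolynomial (Fin (n + 1)) Ω')) (X l))
      (by
        intro G hG d
        have h0 : (aeval (fun l => algebraMap (MvPolynomial (Fin (n + 1)) Ω')
            (FractionRing (MvPolynomial (Fin (n + 1)) Ω')) (X l)) : MvPolynomial (Fin (n + 1)) Ω' →ₐ[Ω'] _) =
            IsScalarTower.toAlgHom Ω' (MvPolynomial (Fin (n + 1)) Ω')
              (FractionRing (MvPolynomial (Fin (n + 1)) Ω')) := by
          apply MvPolynomial.algHom_ext
          intro l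
          rw [aeval_X]
          rfl
        have h1 : aeval (fun l => algebraMap (MvPolynomial (Fin (n + 1)) Ω')
            (FractionRing (MvPolynomial (Fin (n + 1)) Ω')) (X l)) G =
            algebraMap (MvPolynomial (Fin (n + 1)) Ω') (FractionRing (MvPolynomial (Fin (n + 1)) Ω')) G := by
          rw [h0]
          rfl
        rw [h1] at hG
        have h2 : G = 0 := by
          rw [map_eq_zero_iff _ (IsFractionRing.injective _ _)] at hG
          exact hG
        rw [h2, map_zero, map_zero])
      (∑ j, S.dg j + s + 2) (fun i => X (Fin.castLE (by omega) i))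
      (by
        have h1 : AlgebraicIndependent Ω' (fun l : Fin (n + 1) => algebraMap (MvPolynomial (Fin (n + 1)) Ω')
            (FractionRing (MvPolynomial (Fin (n + 1)) Ω')) (X l)) := by
          have h2 := MvPolynomial.algebraicIndependent_X (Fin (n + 1)) Ω'
          exact h2.map' (f := IsScalarTower.toAlgHom Ω' (MvPolynomial (Fin (n + 1)) Ω')
            (FractionRing (MvPolynomial (Fin (n + 1)) Ω'))) (IsFractionRing.injective _ _)
        have h3 := h1.comp (Fin.castLE (by omega : ∑ j, S.dg j + s + 2 + 1 ≤ n + 1)) (Fin.castLE_injective _)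
        simp only [aeval_X]
        exact h3)
      (fun i => extSys Ω' (S.cone P (s + 1)) (eq i)) (fun i => S.coneDeg (s + 1) (eq i))
      (fun i => S.coneDeg_pos (s + 1) _)
      (fun i => (cone_hom S P (s + 1) (eq i)).map (algebraMap Ω Ω'))
    refine ⟨y, hy, fun o => ?_⟩
    have h1 := hz (eq.symm o)
    rw [Equiv.apply_symm_apply] at h1
    unfold extSys at h1
    rw [eval_map] at h1
    exact h1
  have hind := B5_core S hS P hP (s + 1) hse (Or.inl (by omega)) y hy hzero
  -- the gradient of the last form is in the span of the others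
  have key : ∀ G ∈ S.JJ P s, aeval y G = 0 ∧ grd G y ∈ Submodule.span Ω'
      ((fun o => grd (S.cone P (s + 1) o) y) '' {o | o ≠ some (Sum.inr (Fin.last s))}) := by
    intro G hG
    unfold Sys.JJ at hG
    induction hG using Submodule.span_induction with
    | mem g hg =>
      obtain ⟨o, rfl⟩ := hg
      obtain ⟨o', ho', hoo⟩ : ∃ o', o' ≠ some (Sum.inr (Fin.last s)) ∧
          S.cone P (s + 1) o' = S.cone P s o := by
        rcases o with _ | (⟨j, i⟩ | i)
        · exact ⟨none, by simp, rfl⟩
        · exact ⟨some (Sum.inl ⟨j, i⟩), by simp, rfl⟩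
        · refine ⟨some (Sum.inr i.castSucc), ?_, rfl⟩
          intro h1
          rw [Option.some.injEq, Sum.inr.injEq] at h1
          exact absurd h1 (Fin.castSucc_lt_last i).ne
      rw [← hoo]
      exact ⟨hzero o', Submodule.subset_span ⟨o', ho', rfl⟩⟩
    | zero =>
      refine ⟨map_zero _, ?_⟩
      have h1 : grd (0 : MvPolynomial (Fin (n + 1)) Ω) y = 0 := by
        funext l
        show aeval y (pderiv l 0) = 0
        rw [map_zero, map_zero]
      rw [h1]
      exact Submodule.zero_mem _
    | add g g' _ _ hg hg' =>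
      refine ⟨by rw [map_add, hg.1, hg'.1, add_zero], ?_⟩
      have h1 : grd (g + g') y = grd g y + grd g' y := by
        funext l
        show aeval y (pderiv l (g + g')) = aeval y (pderiv l g) + aeval y (pderiv l g')
        rw [map_add, map_add]
      rw [h1]
      exact Submodule.add_mem _ hg.2 hg'.2
    | smul c g _ hg =>
      refine ⟨by rw [smul_eq_mul, map_mul, hg.1, mul_zero], ?_⟩
      have h1 : grd (c • g) y = aeval y c • grd g y := by
        funext l
        show aeval y (pderiv l (c • g)) = aeval y c * aeval y (pderiv l g)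
        rw [smul_eq_mul, Derivation.leibniz, smul_eq_mul, smul_eq_mul, map_add, map_mul, map_mul,
          hg.1, zero_mul, add_zero]
      rw [h1]
      exact Submodule.smul_mem _ _ hg.2
  have h1 := (key _ hmem).2
  have h2 := hind.notMem_span_image (s := {o | o ≠ some (Sum.inr (Fin.last s))})
    (x := some (Sum.inr (Fin.last s))) (fun h => h rfl)
  exact h2 h1

theorem cf_notMem (hS : S.Good) {Ω : Type} [Field Ω] [Algebra k Ω] (P : Fin (n + 1) → Ω)
    (hP : S.IsPt P) (s : ℕ) (hse : s + 1 ≤ e) (hn : ∑ j, S.dg j + s + 2 ≤ n) :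
    cf S.F P (s + 1) ∉ S.JJ P s := by
  intro hmem
  exact B5_notMem S (Ω' := AlgebraicClosure Ω) hS P hP s hse hn hmem

end Pool.Agent.LibHP.CIM
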