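import Pool.Agent.LibCIM.A11
import Pool.Agent.LibCIM.B13n
import Pool.Agent.LibCIM.B5
import Pool.Agent.LibHPF.T7

set_option autoImplicit false
open MvPolynomial

namespace Pool.Agent.LibHP.CIM

/-! # Row B13a (STRONG): the discrete valuation ring at a point of the cone (page, end of section 5)

`A := MvPolynomial (Fin (n+1)) Ω ⧸ JJ P (e-2)`, a Noetherian domain (`cone_prime`, `s = e - 2`) with fraction field `E` (`hv`, `hgv`). `y := x - x 0 • P`: a zero of `cone P (e-2)` (`contact_shift`, `P 0 = 1`), `resid P y = r x` with `r = - tc F P x (e-1) ≠ 0` (`resid_point`). `(D, g)` := `exists_num` for `G1`: `g(y) = r ^ D G1(x) = 0`.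
INDEPENDENCE: the gradients of the equations `cone P (e-2)` and of `g` at `y` are independent: the first ones are (`cone_smooth.ext`, `y ≠ 0` because `tc F P y (e-1) ≠ 0`); test vector `β' = β - β 0 • P`: over the dual numbers `B = TrivSqZeroExt Ω Ω` (or `Ω[X]/(X^2)`), `ε² = 0`, `x_ε = x + ε β`: `Contact P x_ε (e-2)` and `F(x_ε) = 0` by `tc_add_eps` and the hypotheses
`h1`, `h2`, `hβ`, so `y_ε = x_ε - (x_ε 0) P = y + ε β'` is a zero of the equations of the cone and `resid P y_ε = r_ε x_ε`, `r_ε` a unit (`resid_point` over `B`), `g(y_ε) = r_ε ^ D G1(x_ε) = r ^ D ε ∑ β l ∂_l G1 (x) ≠ 0`; but `h(y + ε β') = h(y) + ε ∑ β' l ∂_l h (y)`: `β'` kills the gradients of the cone and not the one of `g`.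
`p := {a ∈ A : t a ∈ (g) for some polynomial t with t(y) ≠ 0}`: an ideal, prime by `local_domain` (LibHPF/T7.lean) for the family `cone P (e-2)` together with `g` (reindexed by `Fin`), its elements vanish at `y`; `g ≠ 0` in `A` (its gradient is independent of the others; if `g = ∑ H_o cone_o` then `grd g y = ∑ H_o(y) grd cone_o y`). `exists_valuation` (A11) gives `V` with uniformizer `g`; elements of
`A` not vanishing at `y` are units of `V`. For `G : MvPolynomial (Fin (n+1)) k`: `(D', N')` := `exists_num`, in `E` with `r := resid i`, `z := resid / resid i`: `aeval z G = N'(v) / (resid i) ^ D'`, `resid i` is a unit of `V` (`resid P y i = r ≠ 0`), `N'(y) = r ^ D' G(x)`. -/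

private theorem B13a_jet {R B : Type} [CommRing R] [CommRing B] [Algebra R B] {N : ℕ} (ε : B)
    (hε : ε ^ 2 = 0) (y b : Fin N → B) (h : MvPolynomial (Fin N) R) :
    aeval (fun l => y l + ε * b l) h = aeval y h + ε * ∑ l, b l * aeval y (pderiv l h) := by
  induction h using MvPolynomial.induction_on with
  | C c => simp only [aeval_C, pderiv_C, map_zero, mul_zero, Finset.sum_const_zero, add_zero]
  | add p q hp hq =>
    rw [map_add, hp, hq]
    simp only [map_add, mul_add, Finset.sum_add_distrib]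
    ring
  | mul_X p i hp =>
    have h1 : ∑ l, b l * aeval y (pderiv l (p * X i)) =
        (∑ l, b l * aeval y (pderiv l p)) * y i + aeval y p * b i := by
      have h2 : ∀ l, b l * aeval y (pderiv l (p * X i)) =
          b l * aeval y (pderiv l p) * y i + (if l = i then aeval y p * b i else 0) := by
        intro l
        rw [Derivation.leibniz, pderiv_X, map_add, smul_eq_mul, smul_eq_mul, map_mul, map_mul,
          aeval_X]
        by_cases hl : l = i
        · subst hl
          rw [Pi.single_eq_same, map_one, if_pos rfl]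
          ring
        · rw [if_neg hl, Pi.single_eq_of_ne (Ne.symm hl), map_zero]
          ring
      rw [Finset.sum_congr rfl fun l _ => h2 l, Finset.sum_add_distrib, Finset.sum_mul,
        Finset.sum_ite_eq' Finset.univ i, if_pos (Finset.mem_univ _)]
    rw [map_mul, hp, aeval_X, map_mul, aeval_X, h1]
    linear_combination (∑ l, b l * aeval y (pderiv l p)) * b i * hε

private theorem B13a_val {Ω : Type} [Field Ω] {N : ℕ} {ι : Type} [Fintype ι]
    (f : ι → MvPolynomial (Fin N) Ω) (g : MvPolynomial (Fin N) Ω) (y b : Fin N → Ω)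
    (hJ : (Ideal.span (Set.range f)).IsPrime) (hf : ∀ o, eval y (f o) = 0) (hg : eval y g = 0)
    (hind : LinearIndependent Ω (fun (o : ι) (l : Fin N) => eval y (pderiv l (f o))))
    (hb : ∀ o, ∑ l, b l * eval y (pderiv l (f o)) = 0)
    (hbg : ∑ l, b l * eval y (pderiv l g) ≠ 0)
    {E : Type} [Field E] [Algebra Ω E] (v : Fin N → E)
    (hv : IsGen (Ideal.span (Set.range f)) v) (hgv : GenOver Ω v) :
    ∃ V : ValuationSubring E, IsUnif V (aeval v g) ∧ ∀ G : MvPolynomial (Fin N) Ω,
      aeval v G ∈ V ∧ (eval y G ≠ 0 → (aeval v G)⁻¹ ∈ V) := by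
  classical
  obtain ⟨F, hF⟩ : ∃ F : Option ι → MvPolynomial (Fin N) Ω, F = fun o => o.elim g f := ⟨_, rfl⟩
  have hFn : F none = g := by rw [hF]; rfl
  have hFs : ∀ o, F (some o) = f o := by intro o; rw [hF]; rfl
  have hF0 : ∀ o, eval y (F o) = 0 := by
    intro o
    rcases o with _ | o
    · rw [hFn]; exact hg
    · rw [hFs]; exact hf o
  have hlinF : LinearIndependent Ω (fun (o : Option ι) (l : Fin N) => eval y (pderiv l (F o))) := by
    rw [Fintype.linearIndependent_iff]
    intro c hc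
    rw [Fintype.sum_option] at hc
    simp only [hFn, hFs] at hc
    have h1 : ∀ l, c none * eval y (pderiv l g) + ∑ o, c (some o) * eval y (pderiv l (f o)) = 0 := by
      intro l
      have h2 := congrFun hc l
      simpa only [Pi.add_apply, Pi.smul_apply, Finset.sum_apply, smul_eq_mul, Pi.zero_apply] using h2
    have h3 : c none * ∑ l, b l * eval y (pderiv l g) = 0 := by
      have h4 : ∑ l, b l * (c none * eval y (pderiv l g) +
          ∑ o, c (some o) * eval y (pderiv l (f o))) = 0 :=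
        Finset.sum_eq_zero fun l _ => by rw [h1, mul_zero]
      simp only [mul_add, Finset.sum_add_distrib] at h4
      have h5 : ∑ l, b l * ∑ o, c (some o) * eval y (pderiv l (f o)) = 0 := by
        simp only [Finset.mul_sum]
        rw [Finset.sum_comm]
        refine Finset.sum_eq_zero fun o _ => ?_
        have h6 : ∀ l, b l * (c (some o) * eval y (pderiv l (f o))) =
            c (some o) * (b l * eval y (pderiv l (f o))) := fun l => by ring
        rw [Finset.sum_congr rfl fun l _ => h6 l, ← Finset.mul_sum, hb, mul_zero]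
      rw [h5, add_zero] at h4
      rw [Finset.mul_sum, ← h4]
      exact Finset.sum_congr rfl fun l _ => by ring
    have h0 : c none = 0 := (mul_eq_zero.1 h3).resolve_right hbg
    have h7 : ∀ o, c (some o) = 0 := by
      refine Fintype.linearIndependent_iff.1 hind (fun o => c (some o)) ?_
      funext l
      have h8 := h1 l
      rw [h0, zero_mul, zero_add] at h8
      simpa only [Pi.smul_apply, Finset.sum_apply, smul_eq_mul, Pi.zero_apply] using h8
    rintro (_ | o)
    · exact h0
    · exact h7 o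
  obtain ⟨J, hJd⟩ : ∃ J, J = Ideal.span (Set.range f) := ⟨_, rfl⟩
  rw [← hJd] at hv hJ
  obtain ⟨J1, hJ1⟩ : ∃ J1, J1 = J ⊔ Ideal.span {g} := ⟨_, rfl⟩
  have hle : J ≤ J1 := by rw [hJ1]; exact le_sup_left
  have hJ1F : J1 = Ideal.span (Set.range fun i => F ((Fintype.equivFin (Option ι)).symm i)) := by
    have h1 : (Set.range fun i => F ((Fintype.equivFin (Option ι)).symm i)) = Set.range F :=
      (Fintype.equivFin (Option ι)).symm.surjective.range_comp F
    rw [h1, hJ1, hJd]
    apply le_antisymm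
    · refine sup_le ?_ ?_
      · rw [Ideal.span_le]
        rintro _ ⟨o, rfl⟩
        exact Ideal.subset_span ⟨some o, hFs o⟩
      · rw [Ideal.span_le, Set.singleton_subset_iff]
        exact Ideal.subset_span ⟨none, hFn⟩
    · rw [Ideal.span_le]
      rintro _ ⟨o, rfl⟩
      rcases o with _ | o
      · rw [hFn]
        exact Ideal.mem_sup_right (Ideal.subset_span rfl)
      · rw [hFs]
        exact Ideal.mem_sup_left (Ideal.subset_span ⟨o, rfl⟩)
  have hJ10 : ∀ q ∈ J1, eval y q = 0 := by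
    intro q hq
    have h1 : J1 ≤ RingHom.ker (eval y) := by
      rw [hJ1F, Ideal.span_le]
      rintro _ ⟨o, rfl⟩
      exact hF0 _
    exact h1 hq
  have hld : ∀ q h : MvPolynomial (Fin N) Ω, q * h ∈ J1 →
      ∃ s : MvPolynomial (Fin N) Ω, eval y s ≠ 0 ∧ (s * q ∈ J1 ∨ s * h ∈ J1) := by
    intro q h hqh
    rw [hJ1F] at hqh ⊢
    exact local_domain Ω N _ (fun i => F ((Fintype.equivFin (Option ι)).symm i)) y
      (fun i => hF0 _) (hlinF.comp _ (Fintype.equivFin (Option ι)).symm.injective) q h hqh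
  -- the algebra
  have hlift : ∀ G ∈ J, aeval v G = 0 := fun G hG => (hv G).2 hG
  let φ : (MvPolynomial (Fin N) Ω ⧸ J) →ₐ[Ω] E := Ideal.Quotient.liftₐ J (aeval v) hlift
  let _ : Algebra (MvPolynomial (Fin N) Ω ⧸ J) E := φ.toRingHom.toAlgebra
  have hφ : ∀ G, algebraMap (MvPolynomial (Fin N) Ω ⧸ J) E (Ideal.Quotient.mk J G) =
      aeval v G := fun G => rfl
  have hinj : Function.Injective (algebraMap (MvPolynomial (Fin N) Ω ⧸ J) E) := by
    rw [injective_iff_map_eq_zero]
    intro x hx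
    obtain ⟨G, rfl⟩ := Ideal.Quotient.mk_surjective x
    rw [hφ, hv] at hx
    exact Ideal.Quotient.eq_zero_iff_mem.2 hx
  have : FaithfulSMul (MvPolynomial (Fin N) Ω ⧸ J) E :=
    (faithfulSMul_iff_algebraMap_injective _ _).2 hinj
  have : IsFractionRing (MvPolynomial (Fin N) Ω ⧸ J) E := by
    refine IsFractionRing.of_field _ _ fun z => ?_
    obtain ⟨G, H, hH, hz⟩ := hgv z
    refine ⟨Ideal.Quotient.mk J G, Ideal.Quotient.mk J H, ?_⟩
    rw [hφ, hφ, eq_div_iff hH, hz]
  obtain ⟨ϖ, hϖ⟩ : ∃ x, x = Ideal.Quotient.mk J g := ⟨_, rfl⟩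
  have hmem : ∀ q, Ideal.Quotient.mk J q ∈ Ideal.span {ϖ} ↔ q ∈ J1 := by
    intro q
    have h1 : Ideal.span {ϖ} = J1.map (Ideal.Quotient.mk J) := by
      rw [hJ1, Ideal.map_sup, Ideal.map_quotient_self, bot_sup_eq, Ideal.map_span,
        Set.image_singleton, hϖ]
    rw [h1]
    exact Ideal.mem_quotient_iff_mem hle
  let p : Ideal (MvPolynomial (Fin N) Ω ⧸ J) :=
    { carrier := {x | ∃ t, eval y t ≠ 0 ∧ Ideal.Quotient.mk J t * x ∈ Ideal.span {ϖ}}
      add_mem' := by
        rintro x1 x2 ⟨t1, ht1, h1⟩ ⟨t2, ht2, h2⟩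
        refine ⟨t1 * t2, by rw [map_mul]; exact mul_ne_zero ht1 ht2, ?_⟩
        have h3 : Ideal.Quotient.mk J (t1 * t2) * (x1 + x2) =
            Ideal.Quotient.mk J t2 * (Ideal.Quotient.mk J t1 * x1) +
            Ideal.Quotient.mk J t1 * (Ideal.Quotient.mk J t2 * x2) := by
          rw [map_mul]
          ring
        rw [h3]
        exact Ideal.add_mem _ (Ideal.mul_mem_left _ _ h1) (Ideal.mul_mem_left _ _ h2)
      zero_mem' := ⟨1, by rw [map_one]; exact one_ne_zero, by rw [mul_zero]; exact Ideal.zero_mem _⟩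
      smul_mem' := by
        rintro c x ⟨t, ht, h⟩
        refine ⟨t, ht, ?_⟩
        have h3 : Ideal.Quotient.mk J t * (c • x) = c * (Ideal.Quotient.mk J t * x) := by
          rw [smul_eq_mul]
          ring
        rw [h3]
        exact Ideal.mul_mem_left _ _ h }
  have hpm : ∀ q, Ideal.Quotient.mk J q ∈ p ↔ ∃ t, eval y t ≠ 0 ∧ t * q ∈ J1 := by
    intro q
    refine exists_congr fun t => and_congr_right fun _ => ?_
    rw [← map_mul]
    exact hmem (t * q)
  have hp0 : ∀ q, Ideal.Quotient.mk J q ∈ p → eval y q = 0 := by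
    intro q hq
    obtain ⟨t, ht, h⟩ := (hpm q).1 hq
    have h1 := hJ10 _ h
    rw [map_mul] at h1
    exact (mul_eq_zero.1 h1).resolve_left ht
  have hpp : p.IsPrime := by
    refine Ideal.isPrime_iff.2 ⟨?_, ?_⟩
    · intro h
      have h1 : Ideal.Quotient.mk J 1 ∈ p := by rw [h]; exact Submodule.mem_top
      have h2 := hp0 1 h1
      rw [map_one] at h2
      exact one_ne_zero h2
    · intro x1 x2 hx
      obtain ⟨q1, rfl⟩ := Ideal.Quotient.mk_surjective x1
      obtain ⟨q2, rfl⟩ := Ideal.Quotient.mk_surjective x2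
      rw [← map_mul, hpm] at hx
      obtain ⟨t, ht, h⟩ := hx
      rw [← mul_assoc] at h
      obtain ⟨s, hs, h3 | h3⟩ := hld _ _ h
      · left
        rw [hpm]
        refine ⟨s * t, by rw [map_mul]; exact mul_ne_zero hs ht, ?_⟩
        rw [mul_assoc]
        exact h3
      · right
        rw [hpm]
        exact ⟨s, hs, h3⟩
  have hϖp : ϖ ∈ p := by
    rw [hϖ, hpm]
    refine ⟨1, by rw [map_one]; exact one_ne_zero, ?_⟩
    rw [one_mul, hJ1]
    exact Ideal.mem_sup_right (Ideal.subset_span rfl)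
  have hϖ0 : ϖ ≠ 0 := by
    rw [hϖ, Ne, Ideal.Quotient.eq_zero_iff_mem, hJd]
    intro hgJ
    apply hbg
    have h1 : ∀ q ∈ Ideal.span (Set.range f), eval y q = 0 ∧
        ∑ l, b l * eval y (pderiv l q) = 0 := by
      intro q hq
      induction hq using Submodule.span_induction with
      | mem x hx =>
        obtain ⟨o, rfl⟩ := hx
        exact ⟨hf o, hb o⟩
      | zero => simp
      | add x1 x2 _ _ h1 h2 =>
        refine ⟨by rw [map_add, h1.1, h2.1, add_zero], ?_⟩
        simp only [map_add, mul_add, Finset.sum_add_distrib, h1.2, h2.2, add_zero]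
      | smul c x _ h1 =>
        refine ⟨by rw [smul_eq_mul, map_mul, h1.1, mul_zero], ?_⟩
        simp only [smul_eq_mul, Derivation.leibniz, map_add, map_mul, h1.1, zero_mul, add_zero]
        have h2 : ∀ l, b l * (eval y c * eval y (pderiv l x)) =
            eval y c * (b l * eval y (pderiv l x)) := fun l => by ring
        rw [Finset.sum_congr rfl fun l _ => h2 l, ← Finset.mul_sum, h1.2, mul_zero]
    exact (h1 g hgJ).2
  obtain ⟨V, hu, hA, hVinv, θ, hθ⟩ := exists_valuation (MvPolynomial (Fin N) Ω ⧸ J) E p ϖ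
    hϖp hϖ0 (fun x hx => by
      obtain ⟨t, ht, h⟩ := hx
      exact ⟨Ideal.Quotient.mk J t, fun h1 => ht (hp0 t h1), Ideal.mem_span_singleton.1 h⟩)
  refine ⟨V, ?_, fun G => ⟨hA (Ideal.Quotient.mk J G), fun h => ?_⟩⟩
  · rw [hϖ] at hu
    exact hu
  · exact hVinv (Ideal.Quotient.mk J G) fun h1 => h (hp0 G h1)

private theorem B13a_unif {E : Type} [Field E] (V : ValuationSubring E) (π u : E)
    (h : IsUnif V π) (hu : u ∈ V) (hu' : u⁻¹ ∈ V) (hu0 : u ≠ 0) : IsUnif V (π * u) := by
  obtain ⟨h1, h2, h3, h4⟩ := h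
  refine ⟨V.mul_mem _ _ h1 hu, mul_ne_zero h2 hu0, fun h5 => h3 ?_, fun a ha ha0 => ?_⟩
  · have h6 : π⁻¹ = (π * u)⁻¹ * u := by
      rw [mul_inv, mul_assoc, inv_mul_cancel₀ hu0, mul_one]
    rw [h6]
    exact V.mul_mem _ _ h5 hu
  · obtain ⟨m, w, hw, hw', haw⟩ := h4 a ha ha0
    refine ⟨m, w * u⁻¹ ^ m, V.mul_mem _ _ hw (V.toSubring.pow_mem hu' m), ?_, ?_⟩
    · rw [mul_inv, inv_pow, inv_inv]
      exact V.mul_mem _ _ hw' (V.toSubring.pow_mem hu m)
    · rw [haw, mul_pow, mul_assoc w, ← mul_assoc (u⁻¹ ^ m), mul_comm (u⁻¹ ^ m) (π ^ m),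
        mul_assoc (π ^ m), ← mul_pow, inv_mul_cancel₀ hu0, one_pow, mul_one]

private theorem B13a_tan {k : Type} [Field k] {n a e : ℕ} (S : Sys k n a e) (he : 2 ≤ e)
    {Ω : Type} [Field Ω] [Algebra k Ω] {B : Type} [CommRing B] [Algebra k B] [Algebra Ω B]
    [IsScalarTower k Ω B] (ε : B) (hε : ε ^ 2 = 0)
    (hind : ∀ s t : Ω, algebraMap Ω B s + ε * algebraMap Ω B t = 0 → s = 0 ∧ t = 0)
    (π : B →ₐ[Ω] Ω) (hπ : ∀ z : B, ε * z = ε * algebraMap Ω B (π z)) (hπε : π ε = 0)
    (P x β : Fin (n + 1) → Ω) (hP0 : P 0 = 1) (hPz : ∀ o, aeval P (S.fam o) = 0)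
    (i : Fin (n + 1)) (hxi : x i = 1) (hβi : β i = 0) (hc : S.Contact P x (e - 2))
    (hx : ∀ o, aeval x (S.fam o) = 0) (hβ : ∀ o, ∑ l, β l * aeval x (pderiv l (S.fam o)) = 0)
    (h1 : ∀ j i, i + 2 ≤ S.dg j → ∑ l, gr (S.Q j) P x i l * β l = 0)
    (h2 : ∀ i, i + 1 ≤ e - 2 → ∑ l, gr S.F P x i l * β l = 0)
    (y b : Fin (n + 1) → Ω) (hy : y = fun l => x l - x 0 * P l)
    (hb : b = fun l => β l - β 0 * P l) :
    (∀ o, aeval y (S.cone P (e - 2) o) = 0 ∧
      ∑ l, b l * aeval y (pderiv l (S.cone P (e - 2) o)) = 0) ∧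
    ∀ (D : ℕ) (N : MvPolynomial (Fin (n + 1)) Ω) (G : MvPolynomial (Fin (n + 1)) k),
      (∀ (y z : Fin (n + 1) → B) (r : B),
        (∀ l, S.resid (fun l => algebraMap Ω B (P l)) y l = r * z l) → z i = 1 →
          aeval y N = r ^ D * aeval z G) → aeval x G = 0 →
      ∑ l, b l * aeval y (pderiv l N) =
        (-tc S.F P x (e - 1)) ^ D * ∑ l, β l * aeval x (pderiv l G) := by
  -- general facts
  have haB : ∀ {R : Type} [CommRing R] [Algebra R Ω] [Algebra R B] [IsScalarTower R Ω B]
      (z : Fin (n + 1) → Ω) (h : MvPolynomial (Fin (n + 1)) R),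
      aeval (fun l => algebraMap Ω B (z l)) h = algebraMap Ω B (aeval z h) := by
    intro R _ _ _ _ z h
    exact MvPolynomial.aeval_algebraMap_apply B z h
  have hjet : ∀ {R : Type} [CommRing R] [Algebra R Ω] [Algebra R B] [IsScalarTower R Ω B]
      (z c : Fin (n + 1) → Ω) (h : MvPolynomial (Fin (n + 1)) R),
      aeval (fun l => algebraMap Ω B (z l) + ε * algebraMap Ω B (c l)) h =
        algebraMap Ω B (aeval z h) + ε * algebraMap Ω B (∑ l, c l * aeval z (pderiv l h)) := by
    intro R _ _ _ _ z c h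
    rw [B13a_jet ε hε (fun l => algebraMap Ω B (z l)) (fun l => algebraMap Ω B (c l)) h, haB,
      map_sum]
    congr 2
    exact Finset.sum_congr rfl fun l _ => by rw [haB, map_mul]
  have htcB : ∀ (G : MvPolynomial (Fin (n + 1)) k) (z : Fin (n + 1) → Ω) (m : ℕ),
      tc G (fun l => algebraMap Ω B (P l)) (fun l => algebraMap Ω B (z l)) m =
        algebraMap Ω B (tc G P z m) := by
    intro G z m
    exact (tc_map (IsScalarTower.toAlgHom k Ω B) G P z m).symm
  obtain ⟨PB, hPB⟩ : ∃ PB : Fin (n + 1) → B, PB = fun l => algebraMap Ω B (P l) := ⟨_, rfl⟩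
  obtain ⟨xe, hxe⟩ : ∃ xe : Fin (n + 1) → B,
      xe = fun l => algebraMap Ω B (x l) + ε * algebraMap Ω B (β l) := ⟨_, rfl⟩
  obtain ⟨ye, hye⟩ : ∃ ye : Fin (n + 1) → B,
      ye = fun l => algebraMap Ω B (y l) + ε * algebraMap Ω B (b l) := ⟨_, rfl⟩
  have hyx : ye = xe - xe 0 • PB := by
    funext l
    rw [hye, hxe, hPB, hy, hb]
    simp only [Pi.sub_apply, Pi.smul_apply, smul_eq_mul, map_sub, map_mul]
    ring
  have hPBz : ∀ o, aeval PB (S.fam o) = 0 := by
    intro o
    rw [hPB, haB, hPz, map_zero]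
  -- values of the coefficients along the infinitesimal line
  have htce : ∀ (G : MvPolynomial (Fin (n + 1)) k) (m : ℕ), tc G P x (m + 1) = 0 →
      ∑ l, gr G P x m l * β l = 0 → tc G PB xe (m + 1) = 0 := by
    intro G m hG1 hG2
    have h3 : xe = (fun l => algebraMap Ω B (x l)) + ε • (fun l => algebraMap Ω B (β l)) := by
      rw [hxe]
      rfl
    rw [h3, hPB, tc_add_eps G _ _ _ ε hε m, htcB, hG1, map_zero, zero_add]
    have h4 : ∑ l, gr G (fun l => algebraMap Ω B (P l)) (fun l => algebraMap Ω B (x l)) m l *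
        algebraMap Ω B (β l) = algebraMap Ω B (∑ l, gr G P x m l * β l) := by
      rw [map_sum]
      refine Finset.sum_congr rfl fun l _ => ?_
      rw [map_mul]
      congr 1
      exact htcB (pderiv l G) x m
    rw [h4, hG2, map_zero, mul_zero]
  have hce : S.Contact PB xe (e - 2) := by
    refine ⟨fun j m => ?_, fun m hm => ?_⟩
    · rcases m with _ | m
      · rw [tc_zero]
        exact hPBz (some j)
      · refine htce _ _ (hc.1 j _) ?_
        rcases lt_trichotomy (m + 1) (S.dg j) with h3 | h3 | h3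
        · exact h1 j m (by omega)
        · have h4 : (S.Q j).IsHomogeneous (m + 1) := by rw [h3]; exact S.hQ j
          rw [← hβ (some j)]
          refine Finset.sum_congr rfl fun l _ => ?_
          rw [gr_top h4, mul_comm]
          rfl
        · refine Finset.sum_eq_zero fun l _ => ?_
          rw [gr_gt (S.hQ j) P x m (by omega), zero_mul]
    · rcases m with _ | m
      · rw [tc_zero]
        exact hPBz none
      · exact htce _ _ (hc.2 _ hm) (h2 m hm)
  have hFe : aeval xe S.F = 0 := by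
    have h3 := hjet x β S.F
    rw [hxe, h3]
    have h4 : aeval x S.F = 0 := hx none
    have h5 : ∑ l, β l * aeval x (pderiv l S.F) = 0 := hβ none
    rw [h4, h5, map_zero, mul_zero, add_zero]
  have hcy : S.Contact PB ye (e - 2) := by
    have h3 := contact_shift S PB xe (e - 2) hce (-xe 0)
    rw [neg_smul, ← sub_eq_add_neg, ← hyx] at h3
    exact h3
  have hy0 : ye 0 = 0 := by
    rw [hyx, hPB]
    simp only [Pi.sub_apply, Pi.smul_apply, smul_eq_mul, hP0, map_one, mul_one, sub_self]
  have hcone : ∀ o, aeval ye (S.cone P (e - 2) o) = 0 := by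
    intro o
    rcases o with _ | (⟨j, m⟩ | m)
    · show aeval ye (X 0) = 0
      rw [aeval_X, hy0]
    · show aeval ye (cf (S.Q j) P (m.val + 1)) = 0
      rw [aeval_cf, ← hPB]
      exact hcy.1 j _
    · show aeval ye (cf S.F P (m.val + 1)) = 0
      rw [aeval_cf, ← hPB]
      exact hcy.2 _ (by omega)
  refine ⟨fun o => ?_, fun D N G hN hG => ?_⟩
  · have h3 := hjet y b (S.cone P (e - 2) o)
    rw [← hye, hcone o] at h3
    exact hind _ _ h3.symm
  · have hres : ∀ l, S.resid (fun l => algebraMap Ω B (P l)) ye l =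
        (-tc S.F PB xe (e - 1)) * xe l := by
      intro l
      rw [← hPB, hyx]
      exact resid_point S he PB xe hce hFe (xe 0) l
    have hxei : xe i = 1 := by
      rw [hxe]
      simp only [hxi, hβi, map_one, map_zero, mul_zero, add_zero]
    have h3 := hN ye xe (-tc S.F PB xe (e - 1)) hres hxei
    have h4 := hjet x β G
    rw [← hxe, hG, map_zero, zero_add] at h4
    have h5 := hjet y b N
    rw [← hye, h3, h4] at h5
    have h6 : π (tc S.F PB xe (e - 1)) = tc S.F P x (e - 1) := by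
      have h7 := tc_map (π.restrictScalars k) S.F PB xe (e - 1)
      have h8 : (fun l => (π.restrictScalars k) (PB l)) = P := by
        funext l
        rw [hPB]
        exact π.commutes (P l)
      have h9 : (fun l => (π.restrictScalars k) (xe l)) = x := by
        funext l
        rw [hxe]
        show π (algebraMap Ω B (x l) + ε * algebraMap Ω B (β l)) = x l
        rw [map_add, map_mul, hπε, zero_mul, add_zero, π.commutes]
        rfl
      rw [h8, h9] at h7
      exact h7
    have h10 : (-tc S.F PB xe (e - 1)) ^ D * (ε * algebraMap Ω B (∑ l, β l * aeval x (pderiv l G))) =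
        ε * algebraMap Ω B ((-tc S.F P x (e - 1)) ^ D * ∑ l, β l * aeval x (pderiv l G)) := by
      rw [mul_left_comm, hπ]
      congr 2
      rw [map_mul, map_pow, map_neg, h6, π.commutes]
      rfl
    rw [h10] at h5
    have h11 : algebraMap Ω B (aeval y N) + ε * algebraMap Ω B (∑ l, b l * aeval y (pderiv l N) -
        (-tc S.F P x (e - 1)) ^ D * ∑ l, β l * aeval x (pderiv l G)) = 0 := by
      rw [map_sub, mul_sub, h5]
      ring
    exact sub_eq_zero.1 (hind _ _ h11).2

theorem exists_local_valuation {k : Type} [Field k] [CharZero k] {n a e : ℕ} (S : Sys k n a e)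
    (hS : S.Good) (hn : ∑ j, S.dg j + e ≤ n) {Ω : Type} [Field Ω] [Algebra k Ω]
    (P x β : Fin (n + 1) → Ω) (hP : S.IsPt P) (i : Fin (n + 1)) (hxi : x i = 1) (hβi : β i = 0)
    (hc : S.Contact P x (e - 2)) (hne : tc S.F P x (e - 1) ≠ 0)
    (hx : ∀ o, aeval x (S.fam o) = 0) (hβ : ∀ o, ∑ l, β l * aeval x (pderiv l (S.fam o)) = 0)
    (h1 : ∀ j i, i + 2 ≤ S.dg j → ∑ l, gr (S.Q j) P x i l * β l = 0)
    (h2 : ∀ i, i + 1 ≤ e - 2 → ∑ l, gr S.F P x i l * β l = 0)
    (G1 : MvPolynomial (Fin (n + 1)) k) (hG1 : aeval x G1 = 0)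
    (hG1' : ∑ l, β l * aeval x (pderiv l G1) ≠ 0)
    {E : Type} [Field E] [Algebra k E] [Algebra Ω E] [IsScalarTower k Ω E] (v : Fin (n + 1) → E)
    (hv : IsGen (S.JJ P (e - 2)) v) (hgv : GenOver Ω v) :
    S.resid (fun l => algebraMap Ω E (P l)) v i ≠ 0 ∧ ∃ V : ValuationSubring E,
      (∀ G : MvPolynomial (Fin (n + 1)) k,
        aeval (fun l => S.resid (fun l => algebraMap Ω E (P l)) v l /
          S.resid (fun l => algebraMap Ω E (P l)) v i) G ∈ V ∧
        (aeval x G ≠ 0 → (aeval (fun l => S.resid (fun l => algebraMap Ω E (P l)) v l /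
          S.resid (fun l => algebraMap Ω E (P l)) v i) G)⁻¹ ∈ V)) ∧
      IsUnif V (aeval (fun l => S.resid (fun l => algebraMap Ω E (P l)) v l /
          S.resid (fun l => algebraMap Ω E (P l)) v i) G1) := by
  have he : 2 ≤ e := hS.2.1
  have hPz : ∀ o, aeval P (S.fam o) = 0 := fun o =>
    IsPt.zero hP _ (Ideal.subset_span ⟨o, rfl⟩)
  have hs1 : 1 ≤ e - 2 ∨ IsSmoothSys S.Q := by
    rcases hS.2.2.2 with h | h
    · exact Or.inl (by omega)
    · exact Or.inr h
  have hJ : (Ideal.span (Set.range (S.cone P (e - 2)))).IsPrime :=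
    cone_prime S hS P hP (e - 2) (by omega) hs1 (by omega)
  obtain ⟨r, hr⟩ : ∃ r, r = -tc S.F P x (e - 1) := ⟨_, rfl⟩
  have hr0 : r ≠ 0 := by rw [hr]; exact neg_ne_zero.2 hne
  obtain ⟨y, hy⟩ : ∃ y : Fin (n + 1) → Ω, y = fun l => x l - x 0 * P l := ⟨_, rfl⟩
  obtain ⟨b, hb⟩ : ∃ b : Fin (n + 1) → Ω, b = fun l => β l - β 0 * P l := ⟨_, rfl⟩
  have hyx : y = x - x 0 • P := by rw [hy]; rfl
  have hres : ∀ l, S.resid P y l = r * x l := by
    intro l
    rw [hyx, hr]
    exact resid_point S he P x hc (hx none) (x 0) l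
  obtain ⟨D, g, hg⟩ := exists_num S P i G1
  have htan := B13a_tan S he (B := DualNumber Ω) DualNumber.eps
    (by rw [pow_two, DualNumber.eps_mul_eps])
    (fun s t h => by
      have h3 := congrArg TrivSqZeroExt.fst h
      have h4 := congrArg TrivSqZeroExt.snd h
      simp [TrivSqZeroExt.algebraMap_eq_inl'] at h3 h4
      exact ⟨h3, h4⟩)
    (TrivSqZeroExt.fstHom Ω Ω Ω)
    (fun z => by
      apply TrivSqZeroExt.ext
      · simp [TrivSqZeroExt.algebraMap_eq_inl']
      · simp [TrivSqZeroExt.algebraMap_eq_inl'])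
    (by simp) P x β hP.1 hPz i hxi hβi hc hx hβ h1 h2 y b hy hb
  have hev : ∀ q : MvPolynomial (Fin (n + 1)) Ω, aeval y q = eval y q := fun q => by
    rw [MvPolynomial.aeval_eq_eval]
  have hgy : eval y g = 0 := by
    rw [← hev, hg Ω y x r hres hxi, hG1, mul_zero]
  have hgb : ∑ l, b l * eval y (pderiv l g) ≠ 0 := by
    have h3 := htan.2 D g G1 (hg (DualNumber Ω)) hG1
    simp only [hev] at h3
    rw [h3, ← hr]
    exact mul_ne_zero (pow_ne_zero _ hr0) hG1'
  have hy0 : y ≠ 0 := by
    intro h3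
    have h4 := hres i
    have h5 : ∀ m, 1 ≤ m → tc S.F P y m = 0 := by
      intro m hm
      have h6 : y = (0 : Ω) • y := by rw [zero_smul, h3]
      rw [h6, tc_smul, zero_pow (by omega), zero_mul]
    have h7 : S.resid P y i = tc S.F P y e * P i - tc S.F P y (e - 1) * y i := rfl
    rw [h7, h5 e (by omega), h5 (e - 1) (by omega), zero_mul, zero_mul, sub_zero, hxi,
      mul_one] at h4
    exact hr0 h4.symm
  have hind : LinearIndependent Ω (fun (o : S.Idx (e - 2)) (l : Fin (n + 1)) =>
      eval y (pderiv l (S.cone P (e - 2) o))) := by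
    have h3 := (cone_smooth S hS P hP (e - 2) (by omega) hs1).ext (Ω := Ω) y hy0
      (fun o => (htan.1 o).1)
    have h4 : (fun o : S.Idx (e - 2) => grd (S.cone P (e - 2) o) y) =
        fun (o : S.Idx (e - 2)) (l : Fin (n + 1)) => eval y (pderiv l (S.cone P (e - 2) o)) := by
      funext o l
      exact hev _
    rw [h4] at h3
    exact h3
  have hcy : ∀ o, eval y (S.cone P (e - 2) o) = 0 := fun o => by rw [← hev]; exact (htan.1 o).1
  obtain ⟨V, hu, hV⟩ := B13a_val (S.cone P (e - 2)) g y b hJ hcy hgy hind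
    (fun o => by
      have h3 := (htan.1 o).2
      simp only [hev] at h3
      exact h3) hgb v hv hgv
  -- the residual point as a polynomial
  obtain ⟨Rp, hRp⟩ : ∃ Rp : MvPolynomial (Fin (n + 1)) Ω,
      Rp = S.resid (fun l => C (P l)) (fun l => X l) i := ⟨_, rfl⟩
  have hRv : aeval v Rp = S.resid (fun l => algebraMap Ω E (P l)) v i := by
    have h3 := resid_map S ((aeval v : MvPolynomial (Fin (n + 1)) Ω →ₐ[Ω] E).restrictScalars k)
      (fun l => C (P l)) (fun l => X l) i
    simp only [AlgHom.restrictScalars_apply, aeval_C, aeval_X] at h3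
    rw [hRp]
    exact h3
  have hRy : eval y Rp = r := by
    have h3 := resid_map S ((aeval y : MvPolynomial (Fin (n + 1)) Ω →ₐ[Ω] Ω).restrictScalars k)
      (fun l => C (P l)) (fun l => X l) i
    simp only [AlgHom.restrictScalars_apply, aeval_C, aeval_X] at h3
    rw [← hev, hRp]
    refine h3.trans ?_
    have h4 := hres i
    rw [hxi, mul_one] at h4
    exact h4
  have hRE0 : S.resid (fun l => algebraMap Ω E (P l)) v i ≠ 0 := by
    rw [← hRv]
    intro h3
    have h4 := (hv Rp).1 h3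
    have h5 : S.JJ P (e - 2) ≤ RingHom.ker (eval y) := by
      unfold Sys.JJ
      rw [Ideal.span_le]
      rintro _ ⟨o, rfl⟩
      exact hcy o
    have h6 : eval y Rp = 0 := h5 h4
    rw [hRy] at h6
    exact hr0 h6
  have hREV : S.resid (fun l => algebraMap Ω E (P l)) v i ∈ V := by
    rw [← hRv]
    exact (hV Rp).1
  have hREV' : (S.resid (fun l => algebraMap Ω E (P l)) v i)⁻¹ ∈ V := by
    rw [← hRv]
    exact (hV Rp).2 (by rw [hRy]; exact hr0)
  refine ⟨hRE0, V, ?_, ?_⟩
  · intro G
    obtain ⟨D', N', hN'⟩ := exists_num S P i G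
    have h3 := hN' E v (fun l => S.resid (fun l => algebraMap Ω E (P l)) v l /
      S.resid (fun l => algebraMap Ω E (P l)) v i) (S.resid (fun l => algebraMap Ω E (P l)) v i)
      (fun l => (mul_div_cancel₀ _ hRE0).symm) (div_self hRE0)
    have h4 := hN' Ω y x r hres hxi
    have h5 : aeval (fun l => S.resid (fun l => algebraMap Ω E (P l)) v l /
        S.resid (fun l => algebraMap Ω E (P l)) v i) G =
        aeval v N' * (S.resid (fun l => algebraMap Ω E (P l)) v i)⁻¹ ^ D' := by
      rw [h3, mul_comm (S.resid (fun l => algebraMap Ω E (P l)) v i ^ D'), mul_assoc, ← mul_pow,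
        mul_inv_cancel₀ hRE0, one_pow, mul_one]
    rw [h5]
    refine ⟨V.mul_mem _ _ (hV N').1 (V.toSubring.pow_mem hREV' D'), fun h6 => ?_⟩
    rw [mul_inv, inv_pow, inv_inv]
    refine V.mul_mem _ _ ((hV N').2 ?_) (V.toSubring.pow_mem hREV D')
    rw [← hev, h4]
    exact mul_ne_zero (pow_ne_zero _ hr0) h6
  · have h3 := hg E v (fun l => S.resid (fun l => algebraMap Ω E (P l)) v l /
      S.resid (fun l => algebraMap Ω E (P l)) v i) (S.resid (fun l => algebraMap Ω E (P l)) v i)
      (fun l => (mul_div_cancel₀ _ hRE0).symm) (div_self hRE0)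
    have h5 : aeval (fun l => S.resid (fun l => algebraMap Ω E (P l)) v l /
        S.resid (fun l => algebraMap Ω E (P l)) v i) G1 =
        aeval v g * (S.resid (fun l => algebraMap Ω E (P l)) v i)⁻¹ ^ D := by
      rw [h3, mul_comm (S.resid (fun l => algebraMap Ω E (P l)) v i ^ D), mul_assoc, ← mul_pow,
        mul_inv_cancel₀ hRE0, one_pow, mul_one]
    rw [h5]
    refine B13a_unif V _ _ hu (V.toSubring.pow_mem hREV' D) ?_ (pow_ne_zero _ (inv_ne_zero hRE0))
    rw [inv_pow, inv_inv]
    exact V.toSubring.pow_mem hREV D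

end Pool.Agent.LibHP.CIM
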