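import Pool.Agent.LibHPF.G9

set_option autoImplicit false

namespace Pool.Agent.LibHP.CIM

/-- All the `[L : K]` extensions of the embedding `s : K → E` to `L` take values in `E`. -/
def AllEmbIn {K E : Type} [Field K] [Field E] (s : K →+* E) (L : Type) [Field L] [Algebra K L] : Prop :=
  ∃ ψ : Fin (Module.finrank K L) → (L →+* E), Function.Injective ψ ∧
    ∀ i a, ψ i (algebraMap K L a) = s a

/-- The prime ideal `P` of height one of the domain `A` (with fraction field `K`) is met by the family `s : K → E`
with multiplicity one: there is a discrete valuation ring `C` of `E` lying over the localization of `A` at `P`, such that a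
generator of `P` at `P` is a uniformizer of `C`. -/
def MetIn (A K : Type) {E : Type} [CommRing A] [Field K] [Algebra A K] [Field E] (P : Ideal A)
    (s : K →+* E) : Prop :=
  ∃ (C : ValuationSubring E) (π : A), IsUnif C (s (algebraMap A K π)) ∧
    (∀ a : A, s (algebraMap A K a) ∈ C) ∧ (∀ a : A, a ∉ P → (s (algebraMap A K a))⁻¹ ∈ C) ∧
    π ∈ P ∧ ∀ a ∈ P, ∃ t : A, t ∉ P ∧ π ∣ t * a

end Pool.Agent.LibHP.CIM
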