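import Pool.Agent.LibCIM.B12
import Pool.Agent.LibCIM.B13a
import Pool.Agent.LibCIM.B0h
import Pool.Agent.LibCIM.CDefs
import Pool.Agent.LibHPF.Q22
import Pool.Agent.LibHPF.Q26a

set_option autoImplicit false
open MvPolynomial

namespace Pool.Agent.LibHP.CIM

/-! # Row B13b (MEDIUM/STRONG): every prime divisor is met with multiplicity one

`exists_datum` (B12) gives `Ω`, `P'`, `x`, `β`, `G1`; enlarge `Ω` to be algebraically closed (`IsPt.map`, `tc_map`: all conditions are preserved; `aeval` of the image). `exists_hom_pt` (B0h): `τ0 : K → Ω`, `P ↦ P'`, extends to `Kb → Ω` (`IsAlgClosed.lift`, `Kb` algebraic over `K`). Make `Ω` a `Kb`-algebra. `E' := FractionRing (MvPolynomial (Fin (n+1)) Ω ⧸ JJ P' (e-2))`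
(`cone_prime`) with its generic point `v'` (`GenOver Ω v'`); `v'` is generic for `JJ Pb (e-2)` over `Kb` too (`Pb` = image of `P` in `Kb`; `mem_span_of_ext` (A8), `cone_ext` (B5)), so `exists_hom_of_iff` (B0h, `F := Kb`) gives `τ : Eb → E'` with `τ (v j) = v' j` and `τ = ` the given map on `Kb`. `exists_local_valuation` (B13a) gives `V` in `E'`; `C := V.comap τ`, `π := chartMap k P i G1`.
`τ (σ (chartMap k P i G)) = aeval (fun l => resid l / resid i) G` at `(P', v')` (`coe_chartMap`, `hσ`, `P i ≠ 0`, `resid_map`). `IsUnif.comap` (Q22). `generator_of_unif` (Q26a) gives the last condition (`hp'`: for `a = chartMap G ∈ p`, `a ≠ 0`, the inverse is not in `C`: in `V` the element `aeval .. G` is in the maximal ideal when `aeval x G = 0`: strengthen: if its inverse were in `V`,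
use: `p` is a DVR prime and `π` is not a unit; or prove `hp'` from `IsUnif` and `hdvr`: `a = unit * π0 ^ m` in the localization; see how LibHPC/E26.lean (E26_fin) does it). -/

private theorem B13b_aeval {k : Type} [Field k] {N : ℕ} {R R' : Type} [CommRing R] [Algebra k R]
    [CommRing R'] [Algebra k R'] (f : R →ₐ[k] R') (x : Fin N → R) (G : MvPolynomial (Fin N) k) :
    aeval (fun l => f (x l)) G = f (aeval x G) :=
  (MvPolynomial.comp_aeval_apply (φ := f) x G).symm

private theorem B13b_gr {k : Type} [Field k] {n : ℕ} {R R' : Type} [CommRing R] [Algebra k R]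
    [CommRing R'] [Algebra k R'] (f : R →ₐ[k] R') (G : MvPolynomial (Fin (n + 1)) k)
    (P x : Fin (n + 1) → R) (i : ℕ) (l : Fin (n + 1)) :
    gr G (fun l => f (P l)) (fun l => f (x l)) i l = f (gr G P x i l) :=
  (tc_map f (pderiv l G) P x i).symm

/-- the datum over an algebraically closed field -/
private theorem B13b_datum {k : Type} [Field k] [CharZero k] {n a e : ℕ} (S : Sys k n a e)
    (hS : S.Good) (hn : ∑ j, S.dg j + e ≤ n) {K : Type} [Field K] [Algebra k K]
    (P : Fin (n + 1) → K) (hP : S.IsPt P)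
    (i : Fin (n + 1)) (p : Ideal (chartRing k P i)) [p.IsPrime] (hp : p.height = 1)
    (hdvr : IsDiscreteValuationRing (Localization.AtPrime p)) :
    ∃ (Ω : Type) (_ : Field Ω) (_ : Algebra k Ω) (_ : IsAlgClosed Ω)
      (P' x β : Fin (n + 1) → Ω), S.IsPt P' ∧
      x i = 1 ∧ β i = 0 ∧ S.Contact P' x (e - 2) ∧ tc S.F P' x (e - 1) ≠ 0 ∧
      (∀ o, aeval x (S.fam o) = 0) ∧ (∀ o, ∑ l, β l * aeval x (pderiv l (S.fam o)) = 0) ∧
      (∀ j i, i + 2 ≤ S.dg j → ∑ l, gr (S.Q j) P' x i l * β l = 0) ∧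
      (∀ i, i + 1 ≤ e - 2 → ∑ l, gr S.F P' x i l * β l = 0) ∧
      (∀ G : MvPolynomial (Fin (n + 1)) k, aeval x G = 0 ↔ chartMap k P i G ∈ p) ∧
      ∃ G : MvPolynomial (Fin (n + 1)) k, aeval x G = 0 ∧
        ∑ l, β l * aeval x (pderiv l G) ≠ 0 := by
  obtain ⟨Ω, iF, iA, P', x, β, hP', hxi, hβi, hc, hne, hx, hβ, h1, h2, hxp, G1, hG1, hG1'⟩ :=
    exists_datum S hS hn P hP i p hp hdvr
  let f : Ω →ₐ[k] AlgebraicClosure Ω := IsScalarTower.toAlgHom k Ω (AlgebraicClosure Ω)
  have hf : Function.Injective f := f.toRingHom.injective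
  have hf0 : ∀ z : Ω, f z = 0 ↔ z = 0 := fun z => map_eq_zero_iff f hf
  refine ⟨AlgebraicClosure Ω, inferInstance, inferInstance, inferInstance, fun l => f (P' l),
    fun l => f (x l), fun l => f (β l), IsPt.map hP' f, ?_, ?_, ⟨?_, ?_⟩, ?_, ?_, ?_, ?_, ?_, ?_, G1,
    ?_, ?_⟩
  · show f (x i) = 1
    rw [hxi, map_one]
  · show f (β i) = 0
    rw [hβi, map_zero]
  · intro j q
    rw [← tc_map, hc.1, map_zero]
  · intro q hq
    rw [← tc_map, hc.2 q hq, map_zero]
  · rw [← tc_map]
    exact fun h => hne ((hf0 _).1 h)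
  · intro o
    rw [B13b_aeval, hx, map_zero]
  · intro o
    rw [← map_zero f, ← hβ o, map_sum]
    refine Finset.sum_congr rfl fun l _ => ?_
    rw [map_mul, B13b_aeval]
  · intro j q hq
    rw [← map_zero f, ← h1 j q hq, map_sum]
    refine Finset.sum_congr rfl fun l _ => ?_
    rw [map_mul, B13b_gr]
  · intro q hq
    rw [← map_zero f, ← h2 q hq, map_sum]
    refine Finset.sum_congr rfl fun l _ => ?_
    rw [map_mul, B13b_gr]
  · intro G
    rw [← hxp, B13b_aeval, hf0]
  · rw [B13b_aeval, hG1, map_zero]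
  · intro h
    apply hG1'
    rw [← hf0, map_sum, ← h]
    refine Finset.sum_congr rfl fun l _ => ?_
    rw [map_mul, B13b_aeval]

/-- the generic point of a prime ideal -/
private theorem B13b_gen (k : Type) {Ω : Type} [Field k] [Field Ω] [Algebra k Ω] {N : ℕ}
    (J : Ideal (MvPolynomial (Fin N) Ω)) (hJ : J.IsPrime) :
    ∃ (E : Type) (_ : Field E) (_ : Algebra k E) (_ : Algebra Ω E) (_ : IsScalarTower k Ω E)
      (v : Fin N → E), IsGen J v ∧ GenOver Ω v := by
  have hdom : IsDomain (MvPolynomial (Fin N) Ω ⧸ J) := Ideal.Quotient.isDomain J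
  have hinj : Function.Injective (algebraMap (MvPolynomial (Fin N) Ω ⧸ J)
      (FractionRing (MvPolynomial (Fin N) Ω ⧸ J))) := IsFractionRing.injective _ _
  have key : ∀ G : MvPolynomial (Fin N) Ω,
      aeval (fun l => algebraMap (MvPolynomial (Fin N) Ω ⧸ J)
        (FractionRing (MvPolynomial (Fin N) Ω ⧸ J)) (Ideal.Quotient.mk J (X l))) G =
      algebraMap (MvPolynomial (Fin N) Ω ⧸ J)
        (FractionRing (MvPolynomial (Fin N) Ω ⧸ J)) (Ideal.Quotient.mk J G) := by
    intro G
    have h1 : aeval (fun l => algebraMap (MvPolynomial (Fin N) Ω ⧸ J)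
        (FractionRing (MvPolynomial (Fin N) Ω ⧸ J)) (Ideal.Quotient.mk J (X l))) =
        (IsScalarTower.toAlgHom Ω (MvPolynomial (Fin N) Ω ⧸ J)
          (FractionRing (MvPolynomial (Fin N) Ω ⧸ J))).comp (Ideal.Quotient.mkₐ Ω J) := by
      refine MvPolynomial.algHom_ext fun l => ?_
      rw [aeval_X]
      rfl
    rw [h1]
    rfl
  refine ⟨FractionRing (MvPolynomial (Fin N) Ω ⧸ J), inferInstance, inferInstance, inferInstance,
    inferInstance, fun l => algebraMap (MvPolynomial (Fin N) Ω ⧸ J)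
      (FractionRing (MvPolynomial (Fin N) Ω ⧸ J)) (Ideal.Quotient.mk J (X l)), ?_, ?_⟩
  · intro G
    rw [key, map_eq_zero_iff _ hinj, Ideal.Quotient.eq_zero_iff_mem]
  · intro z
    obtain ⟨a, b, hb, rfl⟩ := IsFractionRing.div_surjective (A := MvPolynomial (Fin N) Ω ⧸ J) z
    obtain ⟨G, rfl⟩ := Ideal.Quotient.mk_surjective a
    obtain ⟨H, rfl⟩ := Ideal.Quotient.mk_surjective b
    have hb0 : algebraMap (MvPolynomial (Fin N) Ω ⧸ J)
        (FractionRing (MvPolynomial (Fin N) Ω ⧸ J)) (Ideal.Quotient.mk J H) ≠ 0 := by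
      intro h
      exact nonZeroDivisors.ne_zero hb ((map_eq_zero_iff _ hinj).1 h)
    refine ⟨G, H, ?_, ?_⟩
    · rw [key]
      exact hb0
    · rw [key, key, div_mul_cancel₀ _ hb0]

/-- the elements of `p` are not units of the valuation ring -/
private theorem B13b_nonunit (A K E : Type) [CommRing A] [IsDomain A] [Field K] [Algebra A K]
    [FaithfulSMul A K] [Field E] (p : Ideal A) [p.IsPrime]
    (hdvr : IsDiscreteValuationRing (Localization.AtPrime p)) (σ : K →+* E)
    (C : ValuationSubring E) (hA : ∀ a : A, σ (algebraMap A K a) ∈ C)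
    (hA' : ∀ a : A, a ∉ p → (σ (algebraMap A K a))⁻¹ ∈ C)
    (g : A) (hg : g ∈ p) (hu : IsUnif C (σ (algebraMap A K g))) :
    ∀ a : A, a ∈ p → a ≠ 0 → (σ (algebraMap A K a))⁻¹ ∉ C := by
  obtain ⟨hGC, hG0, hGi, -⟩ := hu
  intro a ha ha0 hinv
  have hg0 : g ≠ 0 := by
    rintro rfl
    exact hG0 (by rw [map_zero, map_zero])
  have hinj : Function.Injective (algebraMap A (Localization.AtPrime p)) :=
    IsLocalization.injective _ p.primeCompl_le_nonZeroDivisors
  have hinjK : Function.Injective (algebraMap A K) := FaithfulSMul.algebraMap_injective A K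
  have hs0 : ∀ b : A, b ≠ 0 → σ (algebraMap A K b) ≠ 0 := by
    intro b hb h
    rw [map_eq_zero_iff σ σ.injective, map_eq_zero_iff _ hinjK] at h
    exact hb h
  obtain ⟨ϖ, hϖ⟩ := IsDiscreteValuationRing.exists_irreducible (Localization.AtPrime p)
  have hgO : algebraMap A (Localization.AtPrime p) g ≠ 0 := by
    rw [Ne, map_eq_zero_iff _ hinj]
    exact hg0
  obtain ⟨m, hm⟩ := IsDiscreteValuationRing.associated_pow_irreducible hgO hϖ
  have haM : algebraMap A (Localization.AtPrime p) a ∈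
      IsLocalRing.maximalIdeal (Localization.AtPrime p) := by
    rw [IsLocalRing.mem_maximalIdeal, mem_nonunits_iff]
    exact (IsLocalization.AtPrime.isUnit_to_map_iff (Localization.AtPrime p) p a).not.2
      (fun h => h ha)
  rw [hϖ.maximalIdeal_eq, Ideal.mem_span_singleton] at haM
  have hdvd : algebraMap A (Localization.AtPrime p) g ∣
      algebraMap A (Localization.AtPrime p) a ^ m := hm.dvd.trans (pow_dvd_pow_of_dvd haM m)
  obtain ⟨c, hc⟩ := hdvd
  obtain ⟨⟨b, t⟩, hbt⟩ := IsLocalization.surj p.primeCompl c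
  have h1 : a ^ m * t = g * b := by
    apply hinj
    rw [map_mul, map_mul, map_pow, hc, ← hbt]
    ring
  have h2 := congrArg (fun x => σ (algebraMap A K x)) h1
  simp only [map_mul, map_pow] at h2
  apply hGi
  have ha1 := hs0 a ha0
  have ht1 : σ (algebraMap A K (t : A)) ≠ 0 := by
    refine hs0 _ ?_
    intro h
    exact t.2 (h ▸ p.zero_mem)
  have h3 : (σ (algebraMap A K g))⁻¹ = σ (algebraMap A K b) *
      ((σ (algebraMap A K a))⁻¹ ^ m * (σ (algebraMap A K (t : A)))⁻¹) := by
    rw [inv_pow, ← mul_inv, h2, mul_inv]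
    have hb1 : σ (algebraMap A K b) ≠ 0 := by
      intro h
      rw [h, mul_zero] at h2
      exact mul_ne_zero (pow_ne_zero m ha1) ht1 h2
    field_simp
  rw [h3]
  exact C.mul_mem _ _ (hA b) (C.mul_mem _ _ (pow_mem hinv m) (hA' _ t.2))

/-- generic zeros and extension of the field of coefficients -/
private theorem B13b_iff {k : Type} [Field k] {n a e : ℕ} (S : Sys k n a e) (s : ℕ)
    {F : Type} [Field F] [Algebra k F] {Ω : Type} [Field Ω] [Algebra k Ω] [Algebra F Ω]
    [IsScalarTower k F Ω] {E : Type} [Field E] [Algebra F E] [Algebra Ω E] [IsScalarTower F Ω E]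
    (P : Fin (n + 1) → F) (v : Fin (n + 1) → E)
    (hv : IsGen (S.JJ (fun l => algebraMap F Ω (P l)) s) v) (G : MvPolynomial (Fin (n + 1)) F) :
    aeval v G = 0 ↔ G ∈ S.JJ P s := by
  have h1 : aeval v G = aeval v (MvPolynomial.map (algebraMap F Ω) G) :=
    (MvPolynomial.aeval_map_algebraMap Ω v G).symm
  have h2 : S.JJ (fun l => algebraMap F Ω (P l)) s =
      Ideal.span (Set.range (CIM.extSys Ω (S.cone P s))) := by
    rw [cone_ext]
    rfl
  rw [h1, hv, h2]
  constructor
  · exact mem_span_of_ext _ Ω G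
  · intro h
    have h3 : Ideal.map (MvPolynomial.map (algebraMap F Ω)) (S.JJ P s) =
        Ideal.span (Set.range (CIM.extSys Ω (S.cone P s))) := by
      unfold Sys.JJ
      rw [Ideal.map_span, ← Set.range_comp]
      rfl
    rw [← h3]
    exact Ideal.mem_map_of_mem _ h

theorem metIn_all {k : Type} [Field k] [CharZero k] {n a e : ℕ} (S : Sys k n a e) (hS : S.Good)
    (hn : ∑ j, S.dg j + e ≤ n) {K : Type} [Field K] [Algebra k K] (P : Fin (n + 1) → K) (hP : S.IsPt P)
    (hgen : GenOver k P) {Kb : Type} [Field Kb] [Algebra k Kb] [Algebra K Kb] [IsScalarTower k K Kb]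
    [Algebra.IsAlgebraic K Kb] {Eb : Type} [Field Eb] [Algebra k Eb] [Algebra Kb Eb]
    [IsScalarTower k Kb Eb] (v : Fin (n + 1) → Eb)
    (hv : IsGen (S.JJ (fun l => algebraMap K Kb (P l)) (e - 2)) v) (hgv : GenOver Kb v)
    (σ : K →ₐ[k] Eb)
    (hσ : ∀ j, σ (P j) * S.resid (fun l => algebraMap Kb Eb (algebraMap K Kb (P l))) v 0 =
      S.resid (fun l => algebraMap Kb Eb (algebraMap K Kb (P l))) v j)
    (h0 : S.resid (fun l => algebraMap Kb Eb (algebraMap K Kb (P l))) v 0 ≠ 0)
    (i : Fin (n + 1)) (p : Ideal (chartRing k P i)) (hpp : p.IsPrime) (hp : p.height = 1)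
    (hdvr : IsDiscreteValuationRing (Localization.AtPrime p)) :
    MetIn (chartRing k P i) K p (σ : K →+* Eb) := by
  have he : 2 ≤ e := hS.2.1
  obtain ⟨Ω, iF, iA, iC, P', x, β, hP', hxi, hβi, hc, hne, hx, hβ, h1, h2, hxp, G1, hG1,
    hG1'⟩ := B13b_datum S hS hn P hP i p hp hdvr
  -- the field `Kb` maps to `Ω`
  obtain ⟨τ0, hτ0⟩ := exists_hom_pt hP hgen hP'
  let aK : Algebra K Ω := (τ0 : K →+* Ω).toAlgebra
  have hK : IsScalarTower k K Ω := IsScalarTower.of_algebraMap_eq' τ0.comp_algebraMap.symm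
  let κ0 : Kb →ₐ[K] Ω := IsAlgClosed.lift
  let aKb : Algebra Kb Ω := (κ0 : Kb →+* Ω).toAlgebra
  have hKb1 : ∀ z : K, algebraMap Kb Ω (algebraMap K Kb z) = τ0 z := fun z => κ0.commutes z
  have hKb : IsScalarTower k Kb Ω := by
    refine IsScalarTower.of_algebraMap_eq fun z => ?_
    rw [IsScalarTower.algebraMap_apply k K Kb, hKb1]
    exact (τ0.commutes z).symm
  have hPb : (fun l => algebraMap Kb Ω (algebraMap K Kb (P l))) = P' := by
    funext l
    rw [hKb1, hτ0]
  -- the generic point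
  have hprime : (S.JJ P' (e - 2)).IsPrime := by
    refine cone_prime S hS P' hP' (e - 2) (Nat.sub_le _ _) ?_ (by omega)
    rcases hS.2.2.2 with h | h
    · left
      omega
    · exact Or.inr h
  obtain ⟨E', iE1, iE2, iE3, iE4, v', hv', hgv'⟩ := B13b_gen k (S.JJ P' (e - 2)) hprime
  let aKE : Algebra Kb E' := ((algebraMap Ω E').comp (algebraMap Kb Ω)).toAlgebra
  have hKE : IsScalarTower Kb Ω E' := IsScalarTower.of_algebraMap_eq fun _ => rfl
  have hkKE : IsScalarTower k Kb E' := by
    refine IsScalarTower.of_algebraMap_eq fun z => ?_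
    show algebraMap k E' z = algebraMap Ω E' (algebraMap Kb Ω (algebraMap k Kb z))
    rw [← IsScalarTower.algebraMap_apply k Kb Ω, ← IsScalarTower.algebraMap_apply k Ω E']
  obtain ⟨τ, hτ⟩ := exists_hom_of_iff v v' hgv fun G => by
    rw [hv, ← B13b_iff S (e - 2) (Ω := Ω) (fun l => algebraMap K Kb (P l)) v'
      (by rw [hPb]; exact hv') G]
  obtain ⟨hri, V, hV, hVu⟩ := exists_local_valuation S hS hn P' x β hP' i hxi hβi hc hne hx hβ h1
    h2 G1 hG1 hG1' v' hv' hgv'
  -- the values of the elements of the chart ring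
  have hR : ∀ l, τ (S.resid (fun l => algebraMap Kb Eb (algebraMap K Kb (P l))) v l) =
      S.resid (fun l => algebraMap Ω E' (P' l)) v' l := by
    intro l
    have h3 := resid_map S (τ.restrictScalars k)
      (fun l => algebraMap Kb Eb (algebraMap K Kb (P l))) v l
    have h4 : (fun l => (τ.restrictScalars k) (algebraMap Kb Eb (algebraMap K Kb (P l)))) =
        fun l => algebraMap Ω E' (P' l) := by
      funext l
      rw [← hPb]
      exact τ.commutes _
    have h5 : (fun l => (τ.restrictScalars k) (v l)) = v' := funext hτ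
    rw [h4, h5] at h3
    exact h3
  have hval : ∀ G : MvPolynomial (Fin (n + 1)) k,
      τ (σ (algebraMap (chartRing k P i) K (chartMap k P i G))) =
      aeval (fun l => S.resid (fun l => algebraMap Ω E' (P' l)) v' l /
        S.resid (fun l => algebraMap Ω E' (P' l)) v' i) G := by
    intro G
    have h3 : algebraMap (chartRing k P i) K (chartMap k P i G) =
        aeval (fun j => P j / P i) G := coe_chartMap k P i G
    have h4 := B13b_aeval σ (fun j => P j / P i) G
    have h5 := B13b_aeval (τ.restrictScalars k) (fun j => σ (P j / P i)) G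
    rw [h4] at h5
    rw [h3]
    refine h5.symm.trans ?_
    congr 1
    have h6 : (fun l => (τ.restrictScalars k) (σ (P l / P i))) = fun l =>
        S.resid (fun l => algebraMap Ω E' (P' l)) v' l /
          S.resid (fun l => algebraMap Ω E' (P' l)) v' i := by
      funext l
      have h7 : ∀ j, σ (P j) = S.resid (fun l => algebraMap Kb Eb (algebraMap K Kb (P l))) v j /
          S.resid (fun l => algebraMap Kb Eb (algebraMap K Kb (P l))) v 0 := fun j =>
        eq_div_of_mul_eq h0 (hσ j)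
      rw [map_div₀ σ, h7, h7, div_div_div_cancel_right₀ h0]
      show τ _ = _
      rw [map_div₀, hR, hR]
    rw [h6]
  have hC1 : ∀ z : chartRing k P i, (σ : K →+* Eb) (algebraMap (chartRing k P i) K z) ∈
      V.comap (τ : Eb →+* E') := by
    intro z
    obtain ⟨G, rfl⟩ := chartMap_surjective k P i z
    rw [ValuationSubring.mem_comap]
    show τ (σ (algebraMap (chartRing k P i) K (chartMap k P i G))) ∈ V
    rw [hval]
    exact (hV G).1
  have hC2 : ∀ z : chartRing k P i, z ∉ p →
      ((σ : K →+* Eb) (algebraMap (chartRing k P i) K z))⁻¹ ∈ V.comap (τ : Eb →+* E') := by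
    intro z hz
    obtain ⟨G, rfl⟩ := chartMap_surjective k P i z
    rw [ValuationSubring.mem_comap, map_inv₀]
    show (τ (σ (algebraMap (chartRing k P i) K (chartMap k P i G))))⁻¹ ∈ V
    rw [hval]
    exact (hV G).2 fun h => hz ((hxp G).1 h)
  have hg : chartMap k P i G1 ∈ p := (hxp G1).1 hG1
  have hu : IsUnif (V.comap (τ : Eb →+* E'))
      ((σ : K →+* Eb) (algebraMap (chartRing k P i) K (chartMap k P i G1))) := by
    refine IsUnif.comap (τ : Eb →+* E') V _ ?_
    show IsUnif V (τ (σ (algebraMap (chartRing k P i) K (chartMap k P i G1))))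
    rw [hval]
    exact hVu
  have hp' := B13b_nonunit (chartRing k P i) K Eb p hdvr (σ : K →+* Eb) (V.comap (τ : Eb →+* E'))
    hC1 hC2 (chartMap k P i G1) hg hu
  exact ⟨V.comap (τ : Eb →+* E'), chartMap k P i G1, hu, hC1, hC2, hg,
    generator_of_unif (chartRing k P i) K Eb p hdvr (σ : K →+* Eb) (V.comap (τ : Eb →+* E'))
      hC1 hC2 hp' (chartMap k P i G1) hg hu⟩

end Pool.Agent.LibHP.CIM
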