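import Pool.Agent.LibCIM.A8
import Pool.Agent.LibHPC.C3
import Pool.Agent.LibHPF.Q12

set_option autoImplicit false
open MvPolynomial

namespace Pool.Agent.LibHP.CIM

/-! # Row B14a (MEDIUM): charts of a smooth system: relations and Jacobian criterion

Templates: `ci_chart_relation`, `ci_jacobian` in LibHPC/C1.lean. `sys_relation`: same proof with the ideal of the family (`Submodule`/`Ideal.span` arguments instead of explicit pairs). `sys_jacobian`: let `κ` be the residue field of `P` (fraction field of the quotient), `w` = image of `chartCoord` there: a common zero of the `g a` (`ci_chart_zero`), `w i = 1`. The gradients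
are independent over `κ` (`hs.ext`, A8). Also the matrix with the column `i` removed has independent rows: by Euler (`ci_euler`) the gradient paired with `w` is zero, so the entry at `i` is minus the sum of `w l` times the others. A nonzero maximal minor: `Q12_minor` (LibHPF/Q12.lean; reindex `ι ≃ Fin (card ι)` and `{l // l ≠ i}`). -/

/-- the maximal minor with the columns `s` -/
noncomputable def sminor {k : Type} [Field k] {n : ℕ} {ι : Type} [Fintype ι] [DecidableEq ι]
    (g : ι → MvPolynomial (Fin (n + 1)) k) (s : ι → Fin (n + 1)) : MvPolynomial (Fin (n + 1)) k :=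
  (Matrix.of fun a b => pderiv (s b) (g a)).det

theorem sys_relation {k K : Type} [Field k] [Field K] [Algebra k K] {n : ℕ} {ι : Type} [Fintype ι]
    (g : ι → MvPolynomial (Fin (n + 1)) k) (d : ι → ℕ) (hg : ∀ a, (g a).IsHomogeneous (d a))
    (y : Fin (n + 1) → K) (hy : ∀ (d : ℕ) (G : MvPolynomial (Fin (n + 1)) k), G.IsHomogeneous d →
      (aeval y G = 0 ↔ G ∈ Ideal.span (Set.range g))) (i : Fin (n + 1)) (hi : y i ≠ 0)
    (G : MvPolynomial (Fin (n + 1)) k) :
    aeval (fun j => y j / y i) G = 0 ↔ G ∈ Ideal.span (Set.range g ∪ {X i - 1}) := by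
  have hgm : ∀ a, g a ∈ Ideal.span (Set.range g ∪ {X i - 1}) := fun a =>
    Ideal.subset_span (Or.inl ⟨a, rfl⟩)
  have hXm : (X i - 1 : MvPolynomial (Fin (n + 1)) k) ∈ Ideal.span (Set.range g ∪ {X i - 1}) :=
    Ideal.subset_span (Or.inr rfl)
  constructor
  · intro h
    have h1 := G1_hom_aeval G.totalDegree i y hi G le_rfl
    rw [h, zero_mul] at h1
    have h2 : G1_hom G.totalDegree i G ∈ Ideal.span (Set.range g) :=
      (hy _ _ (G1_hom_isHomogeneous _ i G le_rfl)).1 h1.symm
    obtain ⟨b, hb⟩ := G1_sub_mem G.totalDegree i G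
    have h3 : G = G1_hom G.totalDegree i G + b * (X i - 1) := by
      rw [mul_comm b, ← hb]
      ring
    rw [h3]
    exact Ideal.add_mem _ (Ideal.span_mono Set.subset_union_left h2) (Ideal.mul_mem_left _ _ hXm)
  · intro h
    have hle : Ideal.span (Set.range g ∪ {X i - 1}) ≤
        RingHom.ker (aeval (fun j => y j / y i) : MvPolynomial (Fin (n + 1)) k →ₐ[k] K) := by
      rw [Ideal.span_le]
      rintro x (⟨a, rfl⟩ | rfl)
      · exact ci_chart_zero (g a) (hg a) y i ((hy (d a) (g a) (hg a)).2
          (Ideal.subset_span ⟨a, rfl⟩))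
      · change aeval (fun j => y j / y i) (X i - 1) = 0
        rw [map_sub, aeval_X, map_one, div_self hi, sub_self]
    exact hle h

private theorem B14a_rows {κ : Type} [Field κ] {n : ℕ} {ι : Type} [Fintype ι]
    (M : ι → Fin (n + 1) → κ) (hM : LinearIndependent κ M) (w : Fin (n + 1) → κ)
    (i : Fin (n + 1)) (hi : ∀ a, M a i = -∑ j ∈ Finset.univ.erase i, w j * M a j) :
    LinearIndependent κ (fun a (c : Fin n) => M a (i.succAbove c)) := by
  classical
  rw [Fintype.linearIndependent_iff] at hM ⊢
  intro c hc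
  refine hM c ?_
  have h1 : ∀ l, l ≠ i → ∑ a, c a * M a l = 0 := by
    intro l hl
    obtain ⟨l', rfl⟩ := Fin.exists_succAbove_eq hl
    have h2 := congrFun hc l'
    simpa only [Finset.sum_apply, Pi.smul_apply, smul_eq_mul, Pi.zero_apply] using h2
  funext l
  simp only [Finset.sum_apply, Pi.smul_apply, smul_eq_mul, Pi.zero_apply]
  by_cases hl : l = i
  · subst hl
    have h2 : ∀ a, c a * M a l = -∑ j ∈ Finset.univ.erase l, w j * (c a * M a j) := by
      intro a
      rw [hi a, mul_neg, Finset.mul_sum]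
      congr 1
      exact Finset.sum_congr rfl fun j _ => by ring
    rw [Finset.sum_congr rfl fun a _ => h2 a, Finset.sum_neg_distrib, Finset.sum_comm,
      neg_eq_zero]
    refine Finset.sum_eq_zero fun j hj => ?_
    rw [← Finset.mul_sum, h1 j (Finset.ne_of_mem_erase hj), mul_zero]
  · exact h1 l hl

theorem sys_jacobian {k K : Type} [Field k] [CharZero k] [Field K] [Algebra k K] {n : ℕ} {ι : Type}
    [Fintype ι] [DecidableEq ι] (g : ι → MvPolynomial (Fin (n + 1)) k) (d : ι → ℕ)
    (hg : ∀ a, (g a).IsHomogeneous (d a)) (hs : IsSmoothSys g)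
    (y : Fin (n + 1) → K) (hy : ∀ (d : ℕ) (G : MvPolynomial (Fin (n + 1)) k), G.IsHomogeneous d →
      (aeval y G = 0 ↔ G ∈ Ideal.span (Set.range g))) (i : Fin (n + 1)) (hi : y i ≠ 0)
    (P : Ideal (chartRing k y i)) (hP : P.IsPrime) :
    ∃ s : ι → Fin (n + 1), Function.Injective s ∧ (∀ a, s a ≠ i) ∧
      aeval (chartCoord k y i) (sminor g s) ∉ P := by
  set w := chartCoord k y i with hw
  have hg0 : ∀ a, aeval w (g a) = 0 := by
    intro a
    apply Subtype.ext
    rw [hw, G2_val]
    have := ci_chart_zero (g a) (hg a) y i ((hy (d a) (g a) (hg a)).2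
      (Ideal.subset_span ⟨a, rfl⟩))
    rw [this]; rfl
  have hci : w i = 1 := Subtype.ext (div_self hi)
  let κ : Type := FractionRing (chartRing k y i ⧸ P)
  let φ : chartRing k y i →ₐ[k] κ :=
    (IsScalarTower.toAlgHom k (chartRing k y i ⧸ P) κ).comp (Ideal.Quotient.mkₐ k P)
  have hφ : ∀ x, x ∈ P → φ x = 0 := by
    intro x hx
    show algebraMap (chartRing k y i ⧸ P) κ (Ideal.Quotient.mk P x) = 0
    rw [Ideal.Quotient.eq_zero_iff_mem.2 hx, map_zero]
  have hcomp : ∀ G : MvPolynomial (Fin (n + 1)) k,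
      aeval (fun j => φ (w j)) G = φ (aeval w G) := by
    intro G
    have := MvPolynomial.comp_aeval (f := w) φ
    exact (DFunLike.congr_fun this G).symm
  have hwi : (fun j => φ (w j)) i = 1 := by
    show φ (w i) = 1
    rw [hci, map_one]
  have hne : (fun j => φ (w j)) ≠ 0 := by
    intro h
    rw [h] at hwi
    exact zero_ne_one hwi
  have hz : ∀ a, aeval (fun j => φ (w j)) (g a) = 0 := by
    intro a
    rw [hcomp, hg0, map_zero]
  have hli := hs.ext (fun j => φ (w j)) hne hz
  have hrows := B14a_rows _ hli (fun j => φ (w j)) i (fun a => by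
    exact ci_euler (g a) (hg a) (fun j => φ (w j)) (hz a) i hwi)
  let eι := Fintype.equivFin ι
  have hrows2 : LinearIndependent κ (Matrix.of (fun (r : Fin (Fintype.card ι)) (c : Fin n) =>
      grd (g (eι.symm r)) (fun j => φ (w j)) (i.succAbove c))).row := by
    exact hrows.comp eι.symm eι.symm.injective
  obtain ⟨s0, hs0, hdet⟩ := Q12_minor _ hrows2
  refine ⟨fun a => i.succAbove (s0 (eι a)), ?_, ?_, ?_⟩
  · intro a b hab
    exact eι.injective (hs0 (Fin.succAbove_right_injective hab))
  · intro a
    exact Fin.succAbove_ne _ _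
  · intro hmem
    apply hdet
    have h1 := hφ _ hmem
    rw [← hcomp, sminor, ← AlgHom.coe_toRingHom, RingHom.map_det] at h1
    rw [← Matrix.det_submatrix_equiv_self eι, ← h1]
    congr 1
    ext a b
    simp [grd]

end Pool.Agent.LibHP.CIM
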