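import Pool.Agent.LibCIM.B14a

set_option autoImplicit false
open MvPolynomial

namespace Pool.Agent.LibHP.CIM

/-! # Row B14b (MEDIUM/STRONG): the charts of a smooth system are locally etale over affine spaces

Template: LibHPC/C3.lean (`C3_smooth`, `ci_chart_etale`, `ci_etaleCharts`): the relations `rename some (g a)` (`a : ι`), `X (some i) - 1`, `X none * rename some (sminor g s) - 1` in `MvPolynomial (Option (Fin (n + 1))) k`, indexed by `ι ⊕ Fin 2` (or `Option (Option ι)`), with the variables `some (s a)`, `some i`, `none` (injective): `PreSubmersivePresentation.naive`,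
the Jacobian determinant is `(rename some (sminor g s)) ^ 2` up to sign: block triangular (`Matrix.det_fromBlocks_zero₂₁` / `..zero₁₂`), a unit. The kernel of the evaluation: `sys_relation` and `G3_elim`. -/

/-- the relations -/
noncomputable def B14b_v {k : Type} [Field k] {n : ℕ} {ι : Type} [Fintype ι] [DecidableEq ι]
    (g : ι → MvPolynomial (Fin (n + 1)) k) (i : Fin (n + 1)) (s : ι → Fin (n + 1)) :
    Unit ⊕ (ι ⊕ Unit) → MvPolynomial (Option (Fin (n + 1))) k :=
  Sum.elim (fun _ => X none * rename some (sminor g s) - 1)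
    (Sum.elim (fun a => rename some (g a)) fun _ => X (some i) - 1)

/-- the variables of the relations -/
def B14b_w {n : ℕ} {ι : Type} (i : Fin (n + 1)) (s : ι → Fin (n + 1)) :
    Unit ⊕ (ι ⊕ Unit) → Option (Fin (n + 1)) :=
  Sum.elim (fun _ => none) (Sum.elim (fun a => some (s a)) fun _ => some i)

theorem B14b_inj {n : ℕ} {ι : Type} (i : Fin (n + 1)) (s : ι → Fin (n + 1))
    (hinj : Function.Injective s) (hsi : ∀ a, s a ≠ i) : Function.Injective (B14b_w i s) := by
  rintro (_ | x | _) (_ | y | _) hxy
  · rfl
  · exact absurd hxy (Option.some_ne_none _).symm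
  · exact absurd hxy (Option.some_ne_none _).symm
  · exact absurd hxy (Option.some_ne_none _)
  · rw [hinj (Option.some_injective _ hxy)]
  · exact absurd (Option.some_injective _ hxy) (hsi x)
  · exact absurd hxy (Option.some_ne_none _)
  · exact absurd (Option.some_injective _ hxy).symm (hsi y)
  · rfl

theorem B14b_det1 {R : Type} [CommRing R] (x : R) :
    (Matrix.of fun _ _ : Unit => x).det = x := by
  rw [Matrix.det_unique]
  rfl

/-- the quotient by the relations is standard smooth -/
theorem B14b_smooth {k : Type} [Field k] {n : ℕ} {ι : Type} [Fintype ι] [DecidableEq ι]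
    (g : ι → MvPolynomial (Fin (n + 1)) k) (i : Fin (n + 1)) (s : ι → Fin (n + 1))
    (hinj : Function.Injective s) (hsi : ∀ a, s a ≠ i) :
    Algebra.IsStandardSmooth k
      (MvPolynomial (Option (Fin (n + 1))) k ⧸ Ideal.span (Set.range (B14b_v g i s))) := by
  classical
  let P₀ := Algebra.PreSubmersivePresentation.naive (R := k) (v := B14b_v g i s)
    (B14b_w i s) (B14b_inj i s hinj hsi)
  have hsome : ∀ (G : MvPolynomial (Fin (n + 1)) k) (c : Fin (n + 1)),
      pderiv (some c) (rename some G : MvPolynomial (Option (Fin (n + 1))) k) =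
        rename some (pderiv c G) := fun G c => pderiv_rename (Option.some_injective _) c G
  have hnone : ∀ (G : MvPolynomial (Fin (n + 1)) k),
      pderiv none (rename some G : MvPolynomial (Option (Fin (n + 1))) k) = 0 := by
    intro G
    refine pderiv_eq_zero_of_notMem_vars fun h => ?_
    obtain ⟨a, -, ha⟩ := Finset.mem_image.1 (vars_rename some G h)
    exact Option.some_ne_none a ha
  have hX : ∀ c : Fin (n + 1), c ≠ i →
      pderiv (some c) (X (some i) - 1 : MvPolynomial (Option (Fin (n + 1))) k) = 0 := by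
    intro c hc
    rw [map_sub, pderiv_one, sub_zero, pderiv_X_of_ne]
    intro h
    exact hc (Option.some_injective _ h).symm
  have hXi : pderiv (some i) (X (some i) - 1 : MvPolynomial (Option (Fin (n + 1))) k) = 1 := by
    rw [map_sub, pderiv_one, sub_zero, pderiv_X_self]
  have hXn : pderiv none (X (some i) - 1 : MvPolynomial (Option (Fin (n + 1))) k) = 0 := by
    rw [map_sub, pderiv_one, sub_zero, pderiv_X_of_ne]
    exact Option.some_ne_none i
  have hU : pderiv none (X none * rename some (sminor g s) - 1 :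
      MvPolynomial (Option (Fin (n + 1))) k) = rename some (sminor g s) := by
    rw [map_sub, pderiv_one, sub_zero, pderiv_mul, pderiv_X_self, hnone]
    ring
  have hdet : P₀.jacobiMatrix.det = (rename some (sminor g s)) ^ 2 := by
    have hM : P₀.jacobiMatrix = Matrix.fromBlocks
        (Matrix.of fun _ _ : Unit => (rename some (sminor g s) :
          MvPolynomial (Option (Fin (n + 1))) k)) 0
        (Matrix.of fun (x : ι ⊕ Unit) (_ : Unit) =>
          pderiv (B14b_w i s (Sum.inr x)) (X none * rename some (sminor g s) - 1))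
        (Matrix.fromBlocks (Matrix.of fun b a => rename some (pderiv (s b) (g a))) 0
          (Matrix.of fun (_ : Unit) (a : ι) => rename some (pderiv i (g a)))
          (Matrix.of fun _ _ : Unit => 1)) := by
      refine Matrix.ext fun x y => ?_
      rw [Algebra.PreSubmersivePresentation.jacobiMatrix_naive]
      rcases x with x | x | x <;> rcases y with y | y | y
      · exact hU
      · exact hnone _
      · exact hXn
      · rfl
      · exact hsome _ _
      · exact hX _ (hsi x)
      · rfl
      · exact hsome _ _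
      · exact hXi
    have h1 : (Matrix.of fun b a => (rename some (pderiv (s b) (g a)) :
        MvPolynomial (Option (Fin (n + 1))) k)).det = rename some (sminor g s) := by
      rw [sminor, AlgHom.map_det, ← Matrix.det_transpose]
      rfl
    rw [hM, Matrix.det_fromBlocks_zero₁₂, Matrix.det_fromBlocks_zero₁₂, B14b_det1, B14b_det1, h1]
    ring
  have hunit : IsUnit P₀.jacobian := by
    have hal : ∀ x : MvPolynomial (Option (Fin (n + 1))) k,
        algebraMap P₀.Ring (MvPolynomial (Option (Fin (n + 1))) k ⧸
          Ideal.span (Set.range (B14b_v g i s))) x = Ideal.Quotient.mkₐ k _ x := by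
      intro x
      rw [P₀.algebraMap_apply]
      refine congrFun (congrArg DFunLike.coe (MvPolynomial.algHom_ext (fun i => ?_))) x
      rw [aeval_X]
      rfl
    rw [Algebra.PreSubmersivePresentation.jacobian_eq_jacobiMatrix_det, hdet, hal, map_pow]
    refine IsUnit.pow 2 ?_
    refine IsUnit.of_mul_eq_one (Ideal.Quotient.mkₐ k _ (X none)) ?_
    rw [← map_mul, ← sub_eq_zero, ← map_one (Ideal.Quotient.mkₐ k
      (Ideal.span (Set.range (B14b_v g i s)))), ← map_sub, Ideal.Quotient.mkₐ_eq_mk,
      Ideal.Quotient.eq_zero_iff_mem, mul_comm]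
    exact Ideal.subset_span ⟨Sum.inl (), rfl⟩
  exact (⟨P₀, hunit⟩ : Algebra.SubmersivePresentation k _ _ _).isStandardSmooth

theorem sys_chart_etale {k K : Type} [Field k] [CharZero k] [Field K] [Algebra k K] {n : ℕ}
    {ι : Type} [Fintype ι] [DecidableEq ι] (g : ι → MvPolynomial (Fin (n + 1)) k) (d : ι → ℕ)
    (hg : ∀ a, (g a).IsHomogeneous (d a)) (y : Fin (n + 1) → K)
    (hy : ∀ (d : ℕ) (G : MvPolynomial (Fin (n + 1)) k), G.IsHomogeneous d →
      (aeval y G = 0 ↔ G ∈ Ideal.span (Set.range g))) (i : Fin (n + 1)) (hi : y i ≠ 0)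
    (s : ι → Fin (n + 1)) (hinj : Function.Injective s) (hsi : ∀ a, s a ≠ i)
    (hh : aeval (fun l => y l / y i) (sminor g s) ≠ 0) :
    ∃ (N : ℕ) (ψ : MvPolynomial (Fin N) k →+* chartRingH y i (sminor g s)), ψ.Etale := by
  classical
  set w : Fin (n + 1) → K := fun l => y l / y i with hw
  set h₀ : K := aeval w (sminor g s) with hh₀
  let val : Option (Fin (n + 1)) → K := fun o => o.elim h₀⁻¹ w
  let Θ : MvPolynomial (Option (Fin (n + 1))) k →ₐ[k] K := aeval val
  have hΘr : ∀ G : MvPolynomial (Fin (n + 1)) k, Θ (rename some G) = aeval w G := by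
    intro G
    change aeval val (rename some G) = _
    rw [aeval_rename]
    rfl
  have hΘn : Θ (X none) = h₀⁻¹ := aeval_X _ _
  -- the range
  have hrange : Θ.range = chartRingH y i (sminor g s) := by
    change (aeval val : MvPolynomial (Option (Fin (n + 1))) k →ₐ[k] K).range = _
    rw [← Algebra.adjoin_range_eq_range_aeval]
    unfold chartRingH
    congr 1
    ext x
    constructor
    · rintro ⟨o, rfl⟩
      rcases o with _ | l
      · exact Or.inr rfl
      · exact Or.inl ⟨l, rfl⟩
    · rintro (⟨l, rfl⟩ | hx)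
      · exact ⟨some l, rfl⟩
      · exact ⟨none, (Set.mem_singleton_iff.1 hx).symm⟩
  -- the kernel
  set J : Ideal (MvPolynomial (Option (Fin (n + 1))) k) := Ideal.span (Set.range (B14b_v g i s))
    with hJ
  have hJ0 : ∀ a, rename some (g a) ∈ J := fun a => Ideal.subset_span ⟨Sum.inr (Sum.inl a), rfl⟩
  have hJ1 : X (some i) - 1 ∈ J := Ideal.subset_span ⟨Sum.inr (Sum.inr ()), rfl⟩
  have hJ2 : X none * rename some (sminor g s) - 1 ∈ J := Ideal.subset_span ⟨Sum.inl (), rfl⟩
  have hrel : ∀ G : MvPolynomial (Fin (n + 1)) k,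
      aeval w G = 0 ↔ G ∈ Ideal.span (Set.range g ∪ {X i - 1}) :=
    fun G => sys_relation g d hg y hy i hi G
  have hle : J ≤ RingHom.ker Θ := by
    rw [hJ, Ideal.span_le]
    rintro _ ⟨x, rfl⟩
    change Θ (B14b_v g i s x) = 0
    rcases x with x | x | x
    · change Θ (X none * rename some (sminor g s) - 1) = 0
      rw [map_sub, map_mul, hΘr, hΘn, map_one, inv_mul_cancel₀ hh, sub_self]
    · change Θ (rename some (g x)) = 0
      rw [hΘr, hrel]
      exact Ideal.subset_span (Or.inl ⟨x, rfl⟩)
    · change Θ (X (some i) - 1) = 0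
      have h1 : (X (some i) : MvPolynomial (Option (Fin (n + 1))) k) =
          rename some (X i) := by
        rw [rename_X]
      rw [h1, map_sub, hΘr, map_one, aeval_X, hw]
      simp only
      rw [div_self hi, sub_self]
  have hker : J = RingHom.ker Θ := by
    apply le_antisymm hle
    intro P hP
    have hP0 : Θ P = 0 := hP
    obtain ⟨D, G, hDG⟩ := G3_elim (sminor g s) J hJ2 P
    have hDG0 : Θ (P * (rename some (sminor g s)) ^ D - rename some G) = 0 := hle hDG
    rw [map_sub, map_mul, hP0, zero_mul, zero_sub, neg_eq_zero, hΘr, hrel] at hDG0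
    have hGJ : rename some G ∈ J := by
      have hle2 : Ideal.span (Set.range g ∪ {X i - 1}) ≤ J.comap (rename some :
          MvPolynomial (Fin (n + 1)) k →ₐ[k] MvPolynomial (Option (Fin (n + 1))) k) := by
        rw [Ideal.span_le]
        rintro x (⟨a, rfl⟩ | rfl)
        · exact hJ0 a
        · change rename some (X i - 1) ∈ J
          rw [map_sub, rename_X, map_one]
          exact hJ1
      exact hle2 hDG0
    have hPD : P * (rename some (sminor g s)) ^ D ∈ J := by
      have := J.add_mem hDG hGJ
      rwa [sub_add_cancel] at this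
    have h2 : (X none * rename some (sminor g s)) ^ D - 1 ∈ J := by
      have h3 : X none * rename some (sminor g s) - 1 ∣
          (X none * rename some (sminor g s)) ^ D - 1 := by
        have := sub_dvd_pow_sub_pow (X none * rename some (sminor g s) :
          MvPolynomial (Option (Fin (n + 1))) k) 1 D
        rwa [one_pow] at this
      exact Ideal.mem_of_dvd _ h3 hJ2
    have h4 : P = P * (rename some (sminor g s)) ^ D * (X none) ^ D -
        P * ((X none * rename some (sminor g s)) ^ D - 1) := by
      rw [mul_pow]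
      ring
    rw [h4]
    exact J.sub_mem (J.mul_mem_right _ hPD) (J.mul_mem_left _ h2)
  have hsm := B14b_smooth g i s hinj hsi
  have e1 : (MvPolynomial (Option (Fin (n + 1))) k ⧸ J) ≃ₐ[k]
      MvPolynomial (Option (Fin (n + 1))) k ⧸ RingHom.ker Θ := Ideal.quotientEquivAlgOfEq k hker
  have e2 : (MvPolynomial (Option (Fin (n + 1))) k ⧸ RingHom.ker Θ) ≃ₐ[k] Θ.range :=
    Ideal.quotientKerEquivRange Θ
  have e3 : Θ.range ≃ₐ[k] chartRingH y i (sminor g s) := Subalgebra.equivOfEq _ _ hrange
  have hst : Algebra.IsStandardSmooth k (chartRingH y i (sminor g s)) :=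
    Algebra.IsStandardSmooth.of_algEquiv ((e1.trans e2).trans e3)
  obtain ⟨N, ψ, -, hψ⟩ := RingHom.IsStandardSmooth.exists_etale_mvPolynomial
    (RingHom.isStandardSmooth_algebraMap.2 hst)
  exact ⟨N, ψ, hψ⟩

theorem sys_etaleCharts {k K : Type} [Field k] [CharZero k] [Field K] [Algebra k K] {n : ℕ}
    {ι : Type} [Fintype ι] (g : ι → MvPolynomial (Fin (n + 1)) k) (d : ι → ℕ)
    (hg : ∀ a, (g a).IsHomogeneous (d a)) (hs : IsSmoothSys g) (y : Fin (n + 1) → K)
    (hy : ∀ (d : ℕ) (G : MvPolynomial (Fin (n + 1)) k), G.IsHomogeneous d →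
      (aeval y G = 0 ↔ G ∈ Ideal.span (Set.range g))) : EtaleCharts k y := by
  classical
  intro i hi P hP
  obtain ⟨s, hinj, hsi, h⟩ := sys_jacobian g d hg hs y hy i hi P hP
  exact ⟨sminor g s, h, sys_chart_etale g d hg y hy i hi s hinj hsi (H1_ne y i _ P h)⟩

end Pool.Agent.LibHP.CIM
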