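import Pool.Agent.LibCIM.HDefs
import Pool.Agent.LibCIM.B1
import Pool.Agent.LibHPC.C8

set_option autoImplicit false
open MvPolynomial

namespace Pool.Agent.LibHP.CIM

/-! # Row B14c (EASY): normalized coordinates (template: `exists_ciPt` in LibHPC/C8.lean)

`X 0 ∉ II`: all forms of the family have degree at least two (look at the coefficient of `X 0` of an element of the span, `Submodule.span_induction` / `Ideal.mem_span_range_iff_exists_fun`; or `IsPt.ne_zero`-like argument). -/

/-- the monomials of degree at most one do not occur in the elements of the ideal -/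
private theorem B14c_coeff {k : Type} [Field k] {n a e : ℕ} (S : Sys k n a e)
    (he : 2 ≤ e) (hdg : ∀ j, 2 ≤ S.dg j) {G : MvPolynomial (Fin (n + 1)) k} (hG : G ∈ S.II) :
    ∀ m : Fin (n + 1) →₀ ℕ, m.degree ≤ 1 → coeff m G = 0 := by
  refine Submodule.span_induction
    (p := fun G _ => ∀ m : Fin (n + 1) →₀ ℕ, m.degree ≤ 1 → coeff m G = 0) ?_ ?_ ?_ ?_ hG
  · rintro _ ⟨o, rfl⟩ m hm
    refine (S.fam_hom o).coeff_eq_zero ?_
    have h1 : 2 ≤ S.famDeg o := by
      cases o with
      | none => exact he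
      | some j => exact hdg j
    omega
  · intro m _
    exact coeff_zero m
  · intro x y _ _ hx hy m hm
    rw [coeff_add, hx m hm, hy m hm, add_zero]
  · intro c x _ hx m hm
    classical
    rw [smul_eq_mul, coeff_mul]
    refine Finset.sum_eq_zero fun p hp => ?_
    have hp := Finset.HasAntidiagonal.mem_antidiagonal.1 hp
    have h3 := congrArg Finsupp.degree hp
    rw [map_add] at h3
    rw [hx p.2 (by omega), mul_zero]

theorem exists_pt {k K : Type} [Field k] [Field K] [Algebra k K] {n a e : ℕ} (S : Sys k n a e)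
    (he : 2 ≤ e) (hdg : ∀ j, 2 ≤ S.dg j) (z : Fin (n + 1) → K) (hz : IsCoord S.II z) :
    ∃ y : Fin (n + 1) → K, S.IsPt y ∧ IntermediateField.adjoin k (Set.range y) = ⊤ := by
  obtain ⟨_, hz2, hz3⟩ := hz
  have h0 : z 0 ≠ 0 := by
    intro h
    have h1 : (X 0 : MvPolynomial (Fin (n + 1)) k) ∈ S.II :=
      (hz2 1 (X 0) (isHomogeneous_X k 0)).1 (by rw [aeval_X, h])
    have h2 := B14c_coeff S he hdg h1 (Finsupp.single 0 1) (by rw [Finsupp.degree_single])
    rw [coeff_X] at h2
    simp at h2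
  refine ⟨fun i => (z 0)⁻¹ * z i, ⟨inv_mul_cancel₀ h0, fun d G hG => ?_⟩, ?_⟩
  · rw [G8_aeval_scale hG, ← hz2 d G hG, mul_eq_zero]
    exact ⟨fun h => h.resolve_left (pow_ne_zero _ (inv_ne_zero h0)), fun h => Or.inr h⟩
  · rw [eq_top_iff, ← hz3, IntermediateField.adjoin_le_iff]
    rintro c ⟨i, j, hj, rfl⟩
    have h1 : z i / z j = ((z 0)⁻¹ * z i) / ((z 0)⁻¹ * z j) := by
      rw [mul_div_mul_left _ _ (inv_ne_zero h0)]
    have hmem : ∀ l : Fin (n + 1), (z 0)⁻¹ * z l ∈
        IntermediateField.adjoin k (Set.range fun i => (z 0)⁻¹ * z i) := fun l =>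
      IntermediateField.subset_adjoin k _ ⟨l, rfl⟩
    rw [h1]
    exact div_mem (hmem i) (hmem j)

end Pool.Agent.LibHP.CIM
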