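import Pool.Agent.LibCIM.ADefs

set_option autoImplicit false
open MvPolynomial

namespace Pool.Agent.LibHP.CIM

/-! # Taylor coefficients along a line -/

section
variable {k : Type} [Field k] {n : ℕ} {R : Type} [CommRing R] [Algebra k R]

/-- The polynomial `G(P + t v)`. -/
noncomputable def tl (G : MvPolynomial (Fin (n + 1)) k) (P v : Fin (n + 1) → R) : Polynomial R :=
  aeval (fun l => Polynomial.C (P l) + Polynomial.X * Polynomial.C (v l)) G

/-- The coefficient of `t ^ i` in `G(P + t v)`. -/
noncomputable def tc (G : MvPolynomial (Fin (n + 1)) k) (P v : Fin (n + 1) → R) (i : ℕ) : R :=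
  (tl G P v).coeff i

/-- The coefficient of `t ^ i` in the gradient of `G` at `P + t v`. -/
noncomputable def gr (G : MvPolynomial (Fin (n + 1)) k) (P v : Fin (n + 1) → R) (i : ℕ) :
    Fin (n + 1) → R := fun l => tc (pderiv l G) P v i

/-- The coefficient of `t ^ i` in `G(P + t X)`, a form of degree `i` in the variables `X`. -/
noncomputable def cf (G : MvPolynomial (Fin (n + 1)) k) (P : Fin (n + 1) → R) (i : ℕ) :
    MvPolynomial (Fin (n + 1)) R := tc G (fun l => C (P l)) (fun l => X l) i

end

/-! # The complete intersections -/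

/-- `a` forms `Q j` of degrees `dg j` and one form `F` of degree `e` in `n + 1` variables. -/
structure Sys (k : Type) [Field k] (n a e : ℕ) where
  dg : Fin a → ℕ
  Q : Fin a → MvPolynomial (Fin (n + 1)) k
  F : MvPolynomial (Fin (n + 1)) k
  hQ : ∀ j, (Q j).IsHomogeneous (dg j)
  hF : F.IsHomogeneous e

namespace Sys
variable {k : Type} [Field k] {n a e : ℕ} (S : Sys k n a e)

/-- All the forms. -/
noncomputable def fam : Option (Fin a) → MvPolynomial (Fin (n + 1)) k := fun o => o.elim S.F S.Q

/-- The number of the coefficients of `(form o)(P + t v)`, starting from the first one, which are required to vanish; the degree of the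
form if `s = e`. -/
def len (s : ℕ) : Option (Fin a) → ℕ := fun o => o.elim s S.dg

/-- Their degrees. -/
def famDeg : Option (Fin a) → ℕ := S.len e

theorem fam_hom (o : Option (Fin a)) : (S.fam o).IsHomogeneous (S.famDeg o) := by
  cases o with
  | none => exact S.hF
  | some j => exact S.hQ j

/-- The ideal of the complete intersection. -/
noncomputable def II : Ideal (MvPolynomial (Fin (n + 1)) k) := Ideal.span (Set.range S.fam)

/-- The complete intersection is smooth, all degrees are at least two, and if `e = 2` then the intersection of the first `a` hypersurfaces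
is smooth. -/
def Good : Prop := IsSmoothSys S.fam ∧ 2 ≤ e ∧ (∀ j, 2 ≤ S.dg j) ∧ (3 ≤ e ∨ IsSmoothSys S.Q)

/-- `P` is a generic point of the complete intersection, with first coordinate `1`. -/
def IsPt {Ω : Type} [Field Ω] [Algebra k Ω] (P : Fin (n + 1) → Ω) : Prop :=
  P 0 = 1 ∧ ∀ (d : ℕ) (G : MvPolynomial (Fin (n + 1)) k), G.IsHomogeneous d →
    (aeval P G = 0 ↔ G ∈ S.II)

/-- The line through `P` in the direction `v` is contained in the hypersurfaces `Q j = 0`, and the first coefficients of
`F(P + t v)`, up to the exponent `s`, vanish. -/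
def Contact {R : Type} [CommRing R] [Algebra k R] (P v : Fin (n + 1) → R) (s : ℕ) : Prop :=
  (∀ j i, tc (S.Q j) P v i = 0) ∧ ∀ i, i ≤ s → tc S.F P v i = 0

/-- The index set of the equations of the cone of directions with contact of order `s + 1`. -/
abbrev Idx (s : ℕ) : Type := Option ((Σ j : Fin a, Fin (S.dg j)) ⊕ Fin s)

/-- The equations of the cone of directions `v` (normalised by `v 0 = 0`) with contact of order `s + 1`. -/
noncomputable def cone {R : Type} [CommRing R] [Algebra k R] (P : Fin (n + 1) → R) (s : ℕ) :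
    S.Idx s → MvPolynomial (Fin (n + 1)) R
  | none => X 0
  | some (Sum.inl ⟨j, i⟩) => cf (S.Q j) P (i.val + 1)
  | some (Sum.inr i) => cf S.F P (i.val + 1)

/-- The degrees of these equations. -/
def coneDeg (s : ℕ) : S.Idx s → ℕ
  | none => 1
  | some (Sum.inl ⟨_, i⟩) => i.val + 1
  | some (Sum.inr i) => i.val + 1

theorem coneDeg_pos (s : ℕ) (o : S.Idx s) : 0 < S.coneDeg s o := by
  rcases o with _ | (⟨j, i⟩ | i)
  · exact Nat.one_pos
  · exact Nat.succ_pos _
  · exact Nat.succ_pos _

theorem card_cone (s : ℕ) : Fintype.card (S.Idx s) = ∑ j, S.dg j + s + 1 := by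
  simp only [Fintype.card_option, Fintype.card_sum, Fintype.card_sigma, Fintype.card_fin]

/-- The ideal of the cone. -/
noncomputable def JJ {Ω : Type} [Field Ω] [Algebra k Ω] (P : Fin (n + 1) → Ω) (s : ℕ) :
    Ideal (MvPolynomial (Fin (n + 1)) Ω) := Ideal.span (Set.range (S.cone P s))

/-- `m` independent directions at `P` (over `k`) spanning a space of contact directions of order `e - 1`. -/
def ContactSpace (m : ℕ) (P : Fin (n + 1) → k) : Prop :=
  ∃ w : Fin m → Fin (n + 1) → k,
    LinearIndependent k (Fin.cons P w : Fin (m + 1) → Fin (n + 1) → k) ∧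
    ∀ c : Fin m → k, (∀ j, tl (S.Q j) P (∑ q, c q • w q) = 0) ∧
      (Polynomial.X : Polynomial k) ^ (e - 1) ∣ tl S.F P (∑ q, c q • w q)

/-- The points with a contact space are dense. -/
def DenseContact (m : ℕ) : Prop :=
  ∀ (d : ℕ) (G : MvPolynomial (Fin (n + 1)) k), G.IsHomogeneous d → G ∉ S.II →
    ∃ P : Fin (n + 1) → k, eval P G ≠ 0 ∧ S.ContactSpace m P

end Sys

/-- The number of quadratic equations of the cone of contact directions, if all `Q j` are quadratic. -/
def mQ (a e : ℕ) : ℕ := if e = 4 then a + 1 else a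

end Pool.Agent.LibHP.CIM
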