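import Pool.Agent.LibCIM.A8
import Pool.Agent.LibCIM.TDefs
import Pool.Agent.LibHPF.Q4
import Pool.Agent.LibHPF.Q5
import Pool.Agent.LibHPF.Q12

set_option autoImplicit false
open MvPolynomial

namespace Pool.Agent.LibHP.CIM

/-! # Row B2 (MEDIUM/STRONG): the singular points of `Y` are algebraic over `k`

`Y`: the common zeros of the forms `Q j`. `w ∈ Y`, `w ≠ 0`, the gradients of the `Q j` at `w` are dependent. Suppose `w i / w l` is transcendental over `k`. Enlarge `Ω` to be algebraically closed. `d := w / w l` (`d l = 1`); `exists_cone_of_point` (Q5) gives `κ'`, `f`, `s ≠ 0` such that `x = s * f (d)` satisfies: `aeval x G = 0` iff all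
homogeneous components of `G` vanish at `d`; with `T := ![X i]` (`aeval d (X i) = d i` transcendental) there are `T' : Fin 2 → ..` independent at `x`. `exists_common_zero` (Q4; `N = 1`, `f 0 = map F`, degree `e > 0`) over `Ω`: `y ≠ 0` with `aeval y G = 0` whenever `aeval x G = 0`, and `aeval y F = 0`. The polynomials `Q j` and all the maximal minors
`det (fun i j => pderiv (s j) (Q i))`, `s : Fin a → Fin (n+1)`, vanish at `w` (dependent rows), they are homogeneous, so they vanish at `d` and `x`, hence at `y`: the gradients of the `Q j` are dependent at `y` (`Q12_minor`, LibHPF/Q12.lean: independent rows have a nonzero maximal minor). So the gradients of the family `fam` at `y` are dependent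
and `y` is a common zero of the family: contradiction to `hs.ext` (A8). -/

private theorem B2_smul {σ A k : Type} [Field k] [CommRing A] [Algebra k A] (t : A)
    (y : σ → A) (e : ℕ) (ψ : MvPolynomial σ k) (hψ : ψ.IsHomogeneous e) :
    aeval (fun i => t * y i) ψ = t ^ e * aeval y ψ := by
  rw [aeval_def, eval₂_eq, aeval_def, eval₂_eq, Finset.mul_sum]
  refine Finset.sum_congr rfl fun s hs => ?_
  have h1 : ∑ i ∈ s.support, s i = e := hψ.degree_eq_sum_deg_support hs |>.symm
  have h3 : ∏ i ∈ s.support, (t * y i) ^ s i = t ^ e * ∏ i ∈ s.support, y i ^ s i := by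
    rw [← h1, ← Finset.prod_pow_eq_pow_sum, ← Finset.prod_mul_distrib]
    exact Finset.prod_congr rfl fun i _ => mul_pow _ _ _
  rw [h3]
  ring

private theorem B2_det {k τ : Type} [Field k] {a : ℕ} (D : Fin a → ℕ)
    (M : Matrix (Fin a) (Fin a) (MvPolynomial τ k)) (h : ∀ i j, (M i j).IsHomogeneous (D i)) :
    M.det.IsHomogeneous (∑ i, D i) := by
  rw [Matrix.det_apply]
  refine IsHomogeneous.sum _ _ _ fun σ _ => ?_
  have h1 : (∏ i, M (σ i) i).IsHomogeneous (∑ i, D i) := by
    have h2 := IsHomogeneous.prod Finset.univ (fun i => M (σ i) i) (fun i => D (σ i))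
      (fun i _ => h _ _)
    rwa [Equiv.sum_comp σ D] at h2
  rcases Int.units_eq_one_or (Equiv.Perm.sign σ) with hs | hs
  · rw [hs, one_smul]
    exact h1
  · rw [hs, Units.neg_smul, one_smul]
    exact (homogeneousSubmodule τ k _).neg_mem h1

theorem vertex_algebraic {k : Type} [Field k] [CharZero k] {n a e : ℕ} (S : Sys k n a e)
    (he : 0 < e) (hs : IsSmoothSys S.fam) {Ω : Type} [Field Ω] [Algebra k Ω] (w : Fin (n + 1) → Ω)
    (hw : w ≠ 0) (hQ : ∀ j, aeval w (S.Q j) = 0) (mu : Fin a → Ω) (hmu : mu ≠ 0)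
    (hrel : ∀ l, ∑ j, mu j * aeval w (pderiv l (S.Q j)) = 0) (i l : Fin (n + 1)) (hl : w l ≠ 0) :
    IsAlgebraic k (w i / w l) := by
  classical
  by_contra htr
  obtain ⟨d, hd⟩ : ∃ d : Fin (n + 1) → Ω, d = fun m => (w l)⁻¹ * w m := ⟨_, rfl⟩
  have hdl : d l = 1 := by
    rw [hd]
    exact inv_mul_cancel₀ hl
  have hdi : d i = w i / w l := by
    rw [hd]
    show (w l)⁻¹ * w i = w i / w l
    rw [div_eq_mul_inv, mul_comm]
  obtain ⟨κ', _, _, f, s, hs0, hker, hind⟩ := exists_cone_of_point k (Fin (n + 1)) Ω d l hdl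
  have hform : ∀ (D : ℕ) (G : MvPolynomial (Fin (n + 1)) k), G.IsHomogeneous D →
      aeval d G = 0 → aeval (fun i => s * f (d i)) G = 0 := by
    intro D G hG hGd
    rw [hker]
    intro e'
    rw [homogeneousComponent_of_mem hG]
    split_ifs
    · exact hGd
    · exact map_zero _
  have hT : AlgebraicIndependent k (fun j : Fin 1 => aeval d ((fun _ : Fin 1 =>
      (X i : MvPolynomial (Fin (n + 1)) k)) j)) := by
    rw [algebraicIndependent_unique_type_iff]
    show Transcendental k (aeval d (X i : MvPolynomial (Fin (n + 1)) k))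
    rw [aeval_X, hdi]
    exact htr
  obtain ⟨T', hT'⟩ := hind 1 (fun _ => X i) hT
  obtain ⟨y, hy0, hyG, hyf⟩ := exists_common_zero k (Fin (n + 1)) (AlgebraicClosure k) κ'
    (fun i => s * f (d i))
    (fun G hG e => hform e _ (homogeneousComponent_isHomogeneous e G) ((hker G).mp hG e))
    1 T' hT' (fun _ => MvPolynomial.map (algebraMap k (AlgebraicClosure k)) S.F) (fun _ => e)
    (fun _ => he) (fun _ => S.hF.map _)
  have key : ∀ (D : ℕ) (G : MvPolynomial (Fin (n + 1)) k), G.IsHomogeneous D →
      aeval w G = 0 → aeval y G = 0 := by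
    intro D G hG hGw
    refine hyG G (hform D G hG ?_)
    rw [hd, B2_smul _ w D G hG, hGw, mul_zero]
  have hyF : aeval y S.F = 0 := by
    have h := hyf 0
    rwa [eval_map, ← aeval_def] at h
  have hyfam : ∀ o, aeval y (S.fam o) = 0 := by
    intro o
    cases o with
    | none => exact hyF
    | some j => exact key (S.dg j) _ (S.hQ j) (hQ j)
  have hli : LinearIndependent (AlgebraicClosure k) (fun j : Fin a => grd (S.Q j) y) :=
    (hs y hy0 hyfam).comp some (Option.some_injective _)
  obtain ⟨c, -, hc⟩ := Q12_minor (Matrix.of fun (j : Fin a) (m : Fin (n + 1)) => grd (S.Q j) y m) hli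
  apply hc
  obtain ⟨M, hM⟩ : ∃ M : Matrix (Fin a) (Fin a) (MvPolynomial (Fin (n + 1)) k),
      M = Matrix.of fun j q => pderiv (c q) (S.Q j) := ⟨_, rfl⟩
  have hMh : M.det.IsHomogeneous (∑ j, (S.dg j - 1)) := by
    refine B2_det (fun j => S.dg j - 1) M fun j q => ?_
    rw [hM]
    exact (S.hQ j).pderiv
  have hMw : aeval w M.det = 0 := by
    rw [AlgHom.map_det]
    rw [← Matrix.exists_vecMul_eq_zero_iff]
    refine ⟨mu, hmu, ?_⟩
    funext q
    rw [hM]
    exact hrel (c q)
  have hMy := key _ _ hMh hMw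
  rw [AlgHom.map_det] at hMy
  rw [← hMy, hM]
  rfl

end Pool.Agent.LibHP.CIM
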