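import Pool.Agent.LibCIM.T2

set_option autoImplicit false
open MvPolynomial

namespace Pool.Agent.LibHP.CIM

/-! # Row T3 (MEDIUM, needs only T1, T2): the residual point

`aeval_comb`: for a form `G` of degree `d`, `G(α P + β v) = ∑ i ≤ d, α ^ (d - i) β ^ i tc G P v i` (monomials; or: both sides are polynomial in `α, β`; e.g. prove it for the polynomial ring first). `resid_map`: `tc_map`. `resid_zero`: `aeval_comb` with `α = c_e`, `β = - c_(e-1)`: for `F` only the terms `i = e - 1`, `e` are left and they cancel; for the `Q j` everything is `0`.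
`contact_shift`: `tc_shift` (for the `Q j` with a large `s`). `resid_point`: `y = x - c P`: `tc F P y (e-1) = tc F P x (e-1)` (`tc_shift`, `s = e - 1`), `tc F P y e = - c * tc F P x (e-1)` (`tc_shift_next`). -/

/-- Homogeneous coordinates of the residual point of intersection of the line through `P` in the direction `v` with `F = 0`. -/
noncomputable def Sys.resid {k : Type} [Field k] {n a e : ℕ} (S : Sys k n a e) {R : Type} [CommRing R]
    [Algebra k R] (P v : Fin (n + 1) → R) : Fin (n + 1) → R :=
  fun j => tc S.F P v e * P j - tc S.F P v (e - 1) * v j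

variable {k : Type} [Field k] {n a e : ℕ} {R R' : Type} [CommRing R] [Algebra k R] [CommRing R']
  [Algebra k R']

theorem aeval_comb {G : MvPolynomial (Fin (n + 1)) k} {d : ℕ} (hG : G.IsHomogeneous d)
    (P v : Fin (n + 1) → R) (α β : R) :
    aeval (α • P + β • v) G = ∑ i ∈ Finset.range (d + 1), α ^ (d - i) * β ^ i * tc G P v i := by
  let q : MvPolynomial (Fin 2) R := aeval (fun l => C (P l) * X 1 + C (v l) * X 0) G
  have hq : q.IsHomogeneous d := by
    have h1 := hG.aeval (fun l => (C (P l) * X 1 + C (v l) * X 0 : MvPolynomial (Fin 2) R)) (n := 1)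
      fun l => ((isHomogeneous_X R (1 : Fin 2)).C_mul (P l)).add
        ((isHomogeneous_X R (0 : Fin 2)).C_mul (v l))
    rwa [one_mul] at h1
  have hpq : aeval ![(Polynomial.X : Polynomial R), 1] q = tl G P v := by
    show aeval ![(Polynomial.X : Polynomial R), 1]
      (aeval (fun l => C (P l) * X 1 + C (v l) * X 0) G) = aeval _ G
    rw [← AlgHom.restrictScalars_apply k (aeval ![(Polynomial.X : Polynomial R), 1]),
      ← AlgHom.comp_apply, comp_aeval]
    congr 1
    congr 1
    funext l
    rw [AlgHom.restrictScalars_apply, map_add, map_mul, map_mul, aeval_C, aeval_C, aeval_X, aeval_X,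
      Polynomial.algebraMap_eq]
    show Polynomial.C (P l) * 1 + Polynomial.C (v l) * Polynomial.X = _
    ring
  have h1 : (tl G P v).homogenize d = q := Polynomial.homogenize_eq_of_isHomogeneous hq hpq
  have h2 : aeval ![β, α] q = aeval (α • P + β • v) G := by
    show aeval ![β, α] (aeval (fun l => C (P l) * X 1 + C (v l) * X 0) G) = _
    rw [← AlgHom.restrictScalars_apply k (aeval ![β, α]), ← AlgHom.comp_apply, comp_aeval]
    congr 1
    congr 1
    funext l
    rw [AlgHom.restrictScalars_apply, map_add, map_mul, map_mul, aeval_C, aeval_C, aeval_X, aeval_X]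
    show P l * α + v l * β = α * P l + β * v l
    ring
  rw [← h2, ← h1, Polynomial.homogenize, map_sum, Finset.Nat.sum_antidiagonal_eq_sum_range_succ_mk]
  refine Finset.sum_congr rfl fun i _ => ?_
  rw [aeval_monomial, Finsupp.update_eq_add_single (by simp),
    Finsupp.prod_add_index' (by simp) (by intros; rw [pow_add]),
    Finsupp.prod_single_index (by simp), Finsupp.prod_single_index (by simp)]
  show (tl G P v).coeff i * (β ^ i * α ^ (d - i)) = α ^ (d - i) * β ^ i * (tl G P v).coeff i
  ring

variable (S : Sys k n a e)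

theorem resid_map (f : R →ₐ[k] R') (P v : Fin (n + 1) → R) (j : Fin (n + 1)) :
    f (S.resid P v j) = S.resid (fun l => f (P l)) (fun l => f (v l)) j := by
  unfold Sys.resid
  rw [map_sub, map_mul, map_mul, tc_map, tc_map]

theorem contact_shift (P v : Fin (n + 1) → R) (s : ℕ) (hc : S.Contact P v s) (c : R) :
    S.Contact P (v + c • P) s := by
  refine ⟨fun j i => ?_, fun i hi => ?_⟩
  · exact (tc_shift (S.hQ j) P v c (i + 1) fun i' _ => hc.1 j i').1 i (Nat.lt_succ_self i)
  · exact (tc_shift S.hF P v c (s + 1) fun i' hi' => hc.2 i' (Nat.lt_succ_iff.1 hi')).1 i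
      (Nat.lt_succ_of_le hi)

theorem contact_smul (P v : Fin (n + 1) → R) (s : ℕ) (hc : S.Contact P v s) (c : R) :
    S.Contact P (c • v) s := by
  refine ⟨fun j i => ?_, fun i hi => ?_⟩
  · rw [tc_smul, hc.1 j i, mul_zero]
  · rw [tc_smul, hc.2 i hi, mul_zero]

theorem resid_zero (he : 2 ≤ e) (P v : Fin (n + 1) → R) (hc : S.Contact P v (e - 2))
    (o : Option (Fin a)) : aeval (S.resid P v) (S.fam o) = 0 := by
  have hr : S.resid P v = (tc S.F P v e) • P + (-tc S.F P v (e - 1)) • v := by
    funext j
    simp only [Sys.resid, Pi.add_apply, Pi.smul_apply, smul_eq_mul]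
    ring
  rw [hr]
  cases o with
  | some j =>
    show aeval _ (S.Q j) = 0
    rw [aeval_comb (S.hQ j)]
    refine Finset.sum_eq_zero fun i _ => ?_
    rw [hc.1 j i, mul_zero]
  | none =>
    show aeval _ S.F = 0
    rw [aeval_comb S.hF]
    obtain ⟨e', rfl⟩ := Nat.exists_eq_add_of_le he
    have h1 : 2 + e' + 1 = e' + 1 + 1 + 1 := by omega
    have h2 : 2 + e' - 1 = e' + 1 := by omega
    have h3 : 2 + e' - (e' + 1) = 1 := by omega
    have h4 : 2 + e' - (e' + 1 + 1) = 0 := by omega
    have h5 : 2 + e' = e' + 1 + 1 := by omega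
    rw [h1, Finset.sum_range_succ, Finset.sum_range_succ, Finset.sum_eq_zero, h2, h3, h4]
    · rw [← h5]
      rw [pow_one, pow_zero]
      have h7 : ∀ t : R, t ^ (2 + e') = t ^ (e' + 1) * t := fun t => by
        rw [← pow_succ]
        congr 1
      rw [h7]
      ring
    · intro i hi
      rw [hc.2 i (by have := Finset.mem_range.1 hi; omega), mul_zero]

theorem resid_point (he : 2 ≤ e) (P x : Fin (n + 1) → R) (hc : S.Contact P x (e - 2))
    (hx : aeval x S.F = 0) (c : R) (j : Fin (n + 1)) :
    S.resid P (x - c • P) j = - tc S.F P x (e - 1) * x j := by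
  obtain ⟨d, rfl⟩ : ∃ d, e = d + 1 := ⟨e - 1, by omega⟩
  have hy : x - c • P = x + (-c) • P := by
    rw [neg_smul, sub_eq_add_neg]
  have h0 : ∀ i, i < d → tc S.F P x i = 0 := fun i hi => hc.2 i (by omega)
  have h1 : tc S.F P (x - c • P) d = tc S.F P x d := by
    rw [hy]
    exact (tc_shift S.hF P x (-c) d h0).2
  have h2 : tc S.F P (x - c • P) (d + 1) = -c * tc S.F P x d := by
    rw [hy, tc_shift_next S.hF P x (-c) h0, tc_top S.hF, hx, zero_add]
  unfold Sys.resid
  rw [Nat.add_sub_cancel, h1, h2, Pi.sub_apply, Pi.smul_apply, smul_eq_mul]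
  ring

end Pool.Agent.LibHP.CIM
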