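import Pool.Agent.LibCIM.A10
import Pool.Agent.LibCIM.A11
import Pool.Agent.LibCIM.B0h
import Pool.Agent.LibCIM.B5
import Pool.Agent.LibCIM.T3
import Pool.Agent.LibHPF.P13

set_option autoImplicit false
open MvPolynomial

namespace Pool.Agent.LibHP.CIM

/-! # Row B6 (STRONG): the family of residual points and closedness (page, section 4)

Let `E0 := IntermediateField.adjoin K (Set.range v)`, so `E0 = K(v)` is the fraction field of `A := MvPolynomial (Fin (n+1)) K ⧸ JJ P (e-2)` (a domain, `cone_prime`). `ϖ` := class of `cf F P (e-1)`, nonzero (`cf_notMem`), `p := span {ϖ}` is prime: `JJ P (e-1)` is spanned by `JJ P (e-2)` and `cf F P (e-1)` (compare the two families `cone P (e-2)`, `cone P (e-1)`),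
and it is prime (`cone_prime`, `s = e - 1 ≥ 1`, `∑ dg + (e-1) + 2 ≤ n`). `exists_valuation` (A11; `hloc` with `s = 1`) gives `V`, `θ : V → κ := p.ResidueField`; `ṽ j = θ (v j)` is generic for `JJ P (e-1)` and generates `κ` over `K`. `tc F P ṽ e ≠ 0` (`cf_notMem`, `s = e - 1`), `tc F P ṽ (e-1) = 0`. `P 0 = 1`, `v 0 = 0`: `resid 0 = tc F P v e`, nonzero and a unit of `V`;
`x j = resid j / resid 0 ∈ V`, `θ (x j) = P j`. `x` is `IsPt`: zero of the family by `resid_zero` (homogeneous); if `aeval x G = 0` then `aeval P G = 0` in `κ`, so `G ∈ II`. `exists_hom_pt` gives `σ`, `σ (P j) = x j`, with values in `E0`. Closedness: `closed_of_anchor`-argument (P13, copy the proof with `κ` instead of the residue field: `e` integral over `σ K ⊆ V`, so `e ∈ V`; `θ e` is algebraic over `K = θ σ K`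
(`θ (σ a) = a` in `κ`: both are `k`-homomorphisms `K → κ` with the same values `P j`, `GenOver k P`), so it is in `K` by `closed_of_geomPrime` (A10; `cone_ext`, `cone_prime` over `AlgebraicClosure K`); so the minimal polynomial has a root in `K`). -/

private theorem B6_anchor {K E κ : Type} [Field K] [Field E] [Field κ] (σ : K →+* E)
    (V : ValuationSubring E) (hV : ∀ a, σ a ∈ V) (θ : V →+* κ)
    (hcl : ∀ z : κ, (∃ Q : Polynomial K, Q ≠ 0 ∧
      Q.eval₂ (θ.comp (σ.codRestrict V.toSubring hV)) z = 0) → ∃ a, θ ⟨σ a, hV a⟩ = z) :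
    ∀ z : E, (∃ Q : Polynomial K, Q ≠ 0 ∧ Q.eval₂ σ z = 0) → ∃ a, σ a = z := by
  rintro e ⟨P, hP, hPe⟩
  let _ := σ.toAlgebra
  have hint : IsIntegral K e := by
    rw [← isAlgebraic_iff_isIntegral]
    refine ⟨P, hP, ?_⟩
    rw [Polynomial.aeval_def]
    exact hPe
  obtain ⟨Q, hQ⟩ : ∃ Q, Q = minpoly K e := ⟨_, rfl⟩
  have hQm : Q.Monic := by rw [hQ]; exact minpoly.monic hint
  have hQi : Irreducible Q := by rw [hQ]; exact minpoly.irreducible hint
  have hQe : Q.eval₂ σ e = 0 := by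
    have h1 := minpoly.aeval K e
    rw [← hQ] at h1
    rwa [Polynomial.aeval_def] at h1
  obtain ⟨τ, hτ⟩ : ∃ τ : K →+* V, τ = σ.codRestrict V.toSubring hV := ⟨_, rfl⟩
  have hτa : ∀ a, τ a = ⟨σ a, hV a⟩ := by
    intro a
    rw [hτ]
    rfl
  have hτσ : V.subtype.comp τ = σ := by
    ext a
    simp only [RingHom.comp_apply, hτa]
    rfl
  -- the element lies in `V`
  have heV : e ∈ V := by
    have h1 : IsIntegral V e := by
      refine ⟨Q.map τ, hQm.map τ, ?_⟩
      rw [Polynomial.eval₂_map]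
      have h2 : (algebraMap V E).comp τ = σ := hτσ
      rw [h2]
      exact hQe
    obtain ⟨y, hy⟩ := (IsIntegrallyClosed.isIntegral_iff (R := V) (K := E)).1 h1
    rw [← hy]
    exact y.2
  have h2 : Q.eval₂ (θ.comp τ) (θ ⟨e, heV⟩) = 0 := by
    have h3 : Q.eval₂ τ (⟨e, heV⟩ : V) = 0 := by
      apply Subtype.ext
      have h4 := Polynomial.hom_eval₂ Q τ V.subtype ⟨e, heV⟩
      change V.subtype (Q.eval₂ τ ⟨e, heV⟩) = 0
      rw [h4, hτσ]
      exact hQe
    rw [← Polynomial.hom_eval₂, h3, map_zero]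
  rw [← hτ] at hcl
  obtain ⟨a, ha⟩ := hcl _ ⟨Q, hQi.ne_zero, h2⟩
  have h5 : Q.IsRoot a := by
    rw [← ha, ← hτa] at h2
    have h6 : (θ.comp τ) (Q.eval a) = 0 := by
      rw [← h2]
      exact (Polynomial.eval₂_at_apply (θ.comp τ) a).symm
    exact (map_eq_zero _).1 h6
  have h6 : Q = Polynomial.X - Polynomial.C a := by
    have h7 := (Polynomial.dvd_iff_isRoot.2 h5)
    have h8 : Associated (Polynomial.X - Polynomial.C a) Q :=
      (Polynomial.irreducible_X_sub_C a).associated_of_dvd hQi h7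
    exact (Polynomial.eq_of_monic_of_associated (Polynomial.monic_X_sub_C a) hQm h8).symm
  refine ⟨a, ?_⟩
  rw [h6] at hQe
  simp only [Polynomial.eval₂_sub, Polynomial.eval₂_X, Polynomial.eval₂_C] at hQe
  exact (sub_eq_zero.1 hQe).symm

private theorem B6_core {k : Type} [Field k] {n a e : ℕ} (S : Sys k n a e) (he : 2 ≤ e)
    {K A E κ : Type} [Field K] [CommRing A] [Field E] [Field κ] [Algebra k K] [Algebra k A]
    [Algebra k E] [Algebra k κ] [Algebra K A] [Algebra K E] [Algebra K κ] [Algebra A E]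
    [Algebra A κ] [IsScalarTower k K A] [IsScalarTower k K κ]
    [IsScalarTower K A E] [IsScalarTower K A κ] [IsScalarTower k A E] [IsScalarTower k A κ]
    (P : Fin (n + 1) → K) (hP : S.IsPt P) (hgen : GenOver k P) (w : Fin (n + 1) → A)
    (V : ValuationSubring E) (ϖ : A) (hu : IsUnif V (algebraMap A E ϖ))
    (hA : ∀ a, algebraMap A E a ∈ V)
    (hinv : ∀ a, algebraMap A κ a ≠ 0 → (algebraMap A E a)⁻¹ ∈ V) (θ : V →+* κ)
    (hθ : ∀ a : A, θ ⟨algebraMap A E a, hA a⟩ = algebraMap A κ a) (hϖ : algebraMap A κ ϖ = 0)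
    (h1 : tc S.F (fun l => algebraMap K A (P l)) w (e - 1) = ϖ)
    (h2 : algebraMap A κ (tc S.F (fun l => algebraMap K A (P l)) w e) ≠ 0)
    (hw0 : w 0 = 0) (hc : S.Contact (fun l => algebraMap K A (P l)) w (e - 2))
    (hcl : ∀ z : κ, IsAlgebraic K z → ∃ c : K, algebraMap K κ c = z) :
    S.resid (fun l => algebraMap K E (P l)) (fun l => algebraMap A E (w l)) 0 ≠ 0 ∧
    ∃ σ : K →ₐ[k] E,
      (∀ j, σ (P j) * S.resid (fun l => algebraMap K E (P l)) (fun l => algebraMap A E (w l)) 0 =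
        S.resid (fun l => algebraMap K E (P l)) (fun l => algebraMap A E (w l)) j) ∧
      ∀ z : E, (∃ q : Polynomial K, q ≠ 0 ∧ q.eval₂ (σ : K →+* E) z = 0) → ∃ a, σ a = z := by
  obtain ⟨rA, hrA⟩ : ∃ rA : Fin (n + 1) → A, rA = S.resid (fun l => algebraMap K A (P l)) w :=
    ⟨_, rfl⟩
  have hr : ∀ j, S.resid (fun l => algebraMap K E (P l)) (fun l => algebraMap A E (w l)) j =
      algebraMap A E (rA j) := by
    intro j
    have h3 := resid_map S (IsScalarTower.toAlgHom k A E) (fun l => algebraMap K A (P l)) w j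
    simp only [IsScalarTower.coe_toAlgHom', ← IsScalarTower.algebraMap_apply K A E] at h3
    rw [hrA, h3]
  simp only [hr]
  have hrA' : ∀ j, rA j = tc S.F (fun l => algebraMap K A (P l)) w e * algebraMap K A (P j) -
      ϖ * w j := by
    intro j
    rw [hrA, ← h1]
    rfl
  have hrA0 : rA 0 = tc S.F (fun l => algebraMap K A (P l)) w e := by
    rw [hrA', hw0, hP.1, map_one, mul_one, mul_zero, sub_zero]
  have hκ0 : algebraMap A κ (rA 0) ≠ 0 := by rw [hrA0]; exact h2
  have hne : ∀ a, algebraMap A κ a ≠ 0 → algebraMap A E a ≠ 0 := by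
    intro a ha h0
    apply ha
    rw [← hθ a]
    have h3 : (⟨algebraMap A E a, hA a⟩ : V) = 0 := Subtype.ext h0
    rw [h3, map_zero]
  have hE0 : algebraMap A E (rA 0) ≠ 0 := hne _ hκ0
  refine ⟨hE0, ?_⟩
  obtain ⟨x, hx⟩ : ∃ x : Fin (n + 1) → E, x = fun j =>
      algebraMap A E (rA j) / algebraMap A E (rA 0) := ⟨_, rfl⟩
  have hxV : ∀ j, x j ∈ V := by
    intro j
    rw [hx]
    show algebraMap A E (rA j) / algebraMap A E (rA 0) ∈ V
    rw [div_eq_mul_inv]
    exact V.mul_mem _ _ (hA _) (hinv _ hκ0)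
  have hxθ : ∀ j, θ ⟨x j, hxV j⟩ = algebraMap K κ (P j) := by
    intro j
    have h3 : (⟨x j, hxV j⟩ : V) * ⟨algebraMap A E (rA 0), hA _⟩ =
        ⟨algebraMap A E (rA j), hA _⟩ := by
      apply Subtype.ext
      show x j * algebraMap A E (rA 0) = algebraMap A E (rA j)
      rw [hx]
      exact div_mul_cancel₀ _ hE0
    have h4 := congrArg θ h3
    rw [map_mul, hθ, hθ] at h4
    have h5 : algebraMap A κ (rA j) = algebraMap K κ (P j) * algebraMap A κ (rA 0) := by
      rw [hrA' j, map_sub, map_mul, map_mul, hϖ, zero_mul, sub_zero, hrA0,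
        ← IsScalarTower.algebraMap_apply K A κ, mul_comm]
    rw [h5] at h4
    exact mul_right_cancel₀ hκ0 h4
  have hval : ∀ G : MvPolynomial (Fin (n + 1)) k, ∃ h : aeval x G ∈ V,
      θ ⟨aeval x G, h⟩ = algebraMap K κ (aeval P G) := by
    intro G
    induction G using MvPolynomial.induction_on with
    | C c =>
      have h3 : aeval x (C c) = algebraMap A E (algebraMap k A c) := by
        rw [aeval_C, ← IsScalarTower.algebraMap_apply k A E]
      refine ⟨by rw [h3]; exact hA _, ?_⟩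
      have h4 : (⟨aeval x (C c), by rw [h3]; exact hA _⟩ : V) =
          ⟨algebraMap A E (algebraMap k A c), hA _⟩ := Subtype.ext h3
      rw [h4, hθ, aeval_C, ← IsScalarTower.algebraMap_apply k A κ,
        ← IsScalarTower.algebraMap_apply k K κ]
    | add p q hp hq =>
      obtain ⟨hpV, hp⟩ := hp
      obtain ⟨hqV, hq⟩ := hq
      have h3 : aeval x (p + q) = aeval x p + aeval x q := map_add _ _ _
      refine ⟨by rw [h3]; exact V.add_mem _ _ hpV hqV, ?_⟩
      have h4 : (⟨aeval x (p + q), by rw [h3]; exact V.add_mem _ _ hpV hqV⟩ : V) =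
          ⟨aeval x p, hpV⟩ + ⟨aeval x q, hqV⟩ := Subtype.ext h3
      rw [h4, map_add, hp, hq, map_add, map_add]
    | mul_X p i hp =>
      obtain ⟨hpV, hp⟩ := hp
      have h3 : aeval x (p * X i) = aeval x p * x i := by rw [map_mul, aeval_X]
      refine ⟨by rw [h3]; exact V.mul_mem _ _ hpV (hxV i), ?_⟩
      have h4 : (⟨aeval x (p * X i), by rw [h3]; exact V.mul_mem _ _ hpV (hxV i)⟩ : V) =
          ⟨aeval x p, hpV⟩ * ⟨x i, hxV i⟩ := Subtype.ext h3
      rw [h4, map_mul, hp, hxθ, map_mul, aeval_X, map_mul]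
  have hx0 : x 0 = 1 := by
    rw [hx]
    exact div_self hE0
  have hcomb : x = (algebraMap A E (rA 0))⁻¹ • (fun j => algebraMap A E (rA j)) +
      (0 : E) • (fun _ => (0 : E)) := by
    funext j
    rw [hx]
    simp only [Pi.add_apply, Pi.smul_apply, smul_eq_mul, mul_zero, add_zero]
    rw [div_eq_inv_mul]
  have hfam : ∀ o, aeval x (S.fam o) = 0 := by
    intro o
    rw [hcomb, aeval_comb (S.fam_hom o)]
    refine Finset.sum_eq_zero fun i _ => ?_
    rcases Nat.eq_zero_or_pos i with hi | hi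
    · rw [hi, tc_zero]
      have h3 : aeval (fun j => algebraMap A E (rA j)) (S.fam o) =
          algebraMap A E (aeval rA (S.fam o)) := MvPolynomial.aeval_algebraMap_apply E rA (S.fam o)
      rw [h3, hrA, resid_zero S he _ w hc o, map_zero, mul_zero]
    · rw [zero_pow hi.ne', mul_zero, zero_mul]
  have hxpt : S.IsPt x := by
    refine ⟨hx0, fun d G hG => ⟨fun h0 => ?_, fun h0 => ?_⟩⟩
    · obtain ⟨h3, h4⟩ := hval G
      have h5 : (⟨aeval x G, h3⟩ : V) = 0 := Subtype.ext h0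
      rw [h5, map_zero] at h4
      have h6 : aeval P G = 0 := (map_eq_zero _).1 h4.symm
      exact (hP.2 d G hG).1 h6
    · have h3 : S.II ≤ RingHom.ker (aeval x : MvPolynomial (Fin (n + 1)) k →ₐ[k] E) := by
        unfold Sys.II
        rw [Ideal.span_le]
        rintro _ ⟨o, rfl⟩
        exact hfam o
      exact h3 h0
  obtain ⟨τ, hτ⟩ := exists_hom_pt hP hgen hxpt
  have hτG : ∀ G : MvPolynomial (Fin (n + 1)) k, τ (aeval P G) = aeval x G := by
    intro G
    have h3 : (fun j => τ (P j)) = x := funext hτ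
    rw [← h3]
    exact (MvPolynomial.comp_aeval_apply (f := P) τ G).symm ▸ rfl
  have hτV : ∀ c : K, ∃ h : τ c ∈ V, θ ⟨τ c, h⟩ = algebraMap K κ c := by
    intro c
    obtain ⟨G, H, hH, hGH⟩ := hgen c
    obtain ⟨hGV, hGθ⟩ := hval G
    obtain ⟨hHV, hHθ⟩ := hval H
    have hH' : algebraMap K κ (aeval P H) ≠ 0 := (map_ne_zero _).2 hH
    have hx0' : aeval x H ≠ 0 := by
      intro h3
      apply hH'
      rw [← hHθ]
      have h4 : (⟨aeval x H, hHV⟩ : V) = 0 := Subtype.ext h3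
      rw [h4, map_zero]
    have hHinv : (aeval x H)⁻¹ ∈ V := by
      obtain ⟨m, u, hu1, hu2, hu3⟩ := hu.2.2.2 _ hHV hx0'
      rcases Nat.eq_zero_or_pos m with hm | hm
      · rw [hm, pow_zero, mul_one] at hu3
        rw [hu3]
        exact hu2
      · exfalso
        apply hH'
        rw [← hHθ]
        have h4 : (⟨aeval x H, hHV⟩ : V) = ⟨u, hu1⟩ * ⟨algebraMap A E ϖ, hA ϖ⟩ ^ m :=
          Subtype.ext hu3
        rw [h4, map_mul, map_pow, hθ, hϖ, zero_pow hm.ne', mul_zero]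
    have h3 : τ c * aeval x H = aeval x G := by
      rw [← hτG H, ← hτG G, ← map_mul, hGH]
    have h4 : τ c = aeval x G * (aeval x H)⁻¹ := by
      rw [← h3, mul_assoc, mul_inv_cancel₀ hx0', mul_one]
    have h5 : τ c ∈ V := by rw [h4]; exact V.mul_mem _ _ hGV hHinv
    refine ⟨h5, ?_⟩
    have h6 : (⟨τ c, h5⟩ : V) * ⟨aeval x H, hHV⟩ = ⟨aeval x G, hGV⟩ := Subtype.ext h3
    have h7 := congrArg θ h6
    rw [map_mul, hHθ, hGθ, ← hGH, map_mul] at h7
    exact mul_right_cancel₀ hH' h7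
  refine ⟨τ, fun j => ?_, ?_⟩
  · rw [hτ, hx]
    exact div_mul_cancel₀ _ hE0
  · refine B6_anchor (τ : K →+* E) V (fun c => (hτV c).1) θ ?_
    rintro z ⟨Q, hQ, hQz⟩
    have h3 : θ.comp ((τ : K →+* E).codRestrict V.toSubring fun c => (hτV c).1) =
        algebraMap K κ := by
      ext c
      exact (hτV c).2
    rw [h3] at hQz
    obtain ⟨c, hc⟩ := hcl z ⟨Q, hQ, by rw [Polynomial.aeval_def]; exact hQz⟩
    exact ⟨c, (hτV c).2.trans hc⟩

private theorem B6_JJ_succ {k : Type} [Field k] {n a e : ℕ} (S : Sys k n a e) {Ω : Type} [Field Ω]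
    [Algebra k Ω] (P : Fin (n + 1) → Ω) (s : ℕ) :
    S.JJ P (s + 1) = S.JJ P s ⊔ Ideal.span {cf S.F P (s + 1)} := by
  apply le_antisymm
  · unfold Sys.JJ
    rw [Ideal.span_le]
    rintro _ ⟨o, rfl⟩
    rcases o with _ | (⟨j, i⟩ | i)
    · exact Ideal.mem_sup_left (Ideal.subset_span ⟨none, rfl⟩)
    · exact Ideal.mem_sup_left (Ideal.subset_span ⟨some (Sum.inl ⟨j, i⟩), rfl⟩)
    · rcases Nat.lt_succ_iff_lt_or_eq.1 i.2 with h | h
      · exact Ideal.mem_sup_left (Ideal.subset_span ⟨some (Sum.inr ⟨i.1, h⟩), rfl⟩)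
      · refine Ideal.mem_sup_right (Ideal.subset_span ?_)
        show cf S.F P (i.1 + 1) ∈ _
        rw [h]
        rfl
  · refine sup_le ?_ ?_
    · unfold Sys.JJ
      rw [Ideal.span_le]
      rintro _ ⟨o, rfl⟩
      rcases o with _ | (⟨j, i⟩ | i)
      · exact Ideal.subset_span ⟨none, rfl⟩
      · exact Ideal.subset_span ⟨some (Sum.inl ⟨j, i⟩), rfl⟩
      · exact Ideal.subset_span ⟨some (Sum.inr ⟨i.1, by omega⟩), rfl⟩
    · rw [Ideal.span_le, Set.singleton_subset_iff]
      exact Ideal.subset_span ⟨some (Sum.inr ⟨s, by omega⟩), rfl⟩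

private theorem B6_res {A : Type} [CommRing A] (p : Ideal A) [p.IsPrime] (z : p.ResidueField) :
    ∃ x y : A, algebraMap A p.ResidueField y ≠ 0 ∧
      z * algebraMap A p.ResidueField y = algebraMap A p.ResidueField x := by
  obtain ⟨x1, x2, hx2, hy⟩ := IsFractionRing.div_surjective (A := A ⧸ p) z
  obtain ⟨y1, rfl⟩ := Ideal.Quotient.mk_surjective x1
  obtain ⟨y2, rfl⟩ := Ideal.Quotient.mk_surjective x2
  have h1 : ∀ u : A, algebraMap (A ⧸ p) p.ResidueField (Ideal.Quotient.mk p u) =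
      algebraMap A p.ResidueField u := by
    intro u
    rw [IsScalarTower.algebraMap_apply A (A ⧸ p) p.ResidueField]
    rfl
  have h2 : algebraMap A p.ResidueField y2 ≠ 0 := by
    rw [← h1]
    exact (map_ne_zero_iff (algebraMap (A ⧸ p) p.ResidueField)
      (IsFractionRing.injective (A ⧸ p) p.ResidueField)).2 (nonZeroDivisors.ne_zero hx2)
  refine ⟨y1, y2, h2, ?_⟩
  rw [← hy, h1, h1, div_mul_cancel₀ _ h2]

private theorem B6_step {k : Type} [Field k] [CharZero k] {n a e : ℕ} (S : Sys k n a e)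
    (hS : S.Good) (hn : ∑ j, S.dg j + e + 1 ≤ n) {K : Type} [Field K] [Algebra k K]
    (P : Fin (n + 1) → K) (hP : S.IsPt P) (hgen : GenOver k P) {E : Type} [Field E] [Algebra k E]
    [Algebra K E] [IsScalarTower k K E] (v : Fin (n + 1) → E) (hv : IsGen (S.JJ P (e - 2)) v)
    (hgv : GenOver K v) :
    S.resid (fun l => algebraMap K E (P l)) v 0 ≠ 0 ∧ ∃ σ : K →ₐ[k] E,
      (∀ j, σ (P j) * S.resid (fun l => algebraMap K E (P l)) v 0 =
        S.resid (fun l => algebraMap K E (P l)) v j) ∧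
      ∀ z : E, (∃ q : Polynomial K, q ≠ 0 ∧ q.eval₂ (σ : K →+* E) z = 0) → ∃ a, σ a = z := by
  have he : 2 ≤ e := hS.2.1
  have : CharZero K := charZero_of_injective_algebraMap (algebraMap k K).injective
  have hPz : ∀ o, aeval P (S.fam o) = 0 := fun o =>
    IsPt.zero hP _ (Ideal.subset_span ⟨o, rfl⟩)
  obtain ⟨J0, hJ0⟩ : ∃ J, J = S.JJ P (e - 2) := ⟨_, rfl⟩
  obtain ⟨J1, hJ1⟩ : ∃ J, J = S.JJ P (e - 1) := ⟨_, rfl⟩
  rw [← hJ0] at hv
  have hp0 : J0.IsPrime := by
    rw [hJ0]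
    refine cone_prime S hS P hP (e - 2) (by omega) ?_ (by omega)
    rcases hS.2.2.2 with h | h
    · exact Or.inl (by omega)
    · exact Or.inr h
  have hp1 : J1.IsPrime := by
    rw [hJ1]
    exact cone_prime S hS P hP (e - 1) (by omega) (Or.inl (by omega)) (by omega)
  have hJ01 : J1 = J0 ⊔ Ideal.span {cf S.F P (e - 1)} := by
    have h1 := B6_JJ_succ S P (e - 2)
    have h2 : e - 2 + 1 = e - 1 := by omega
    rw [h2] at h1
    rw [hJ1, hJ0, h1]
  have hle : J0 ≤ J1 := by rw [hJ01]; exact le_sup_left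
  -- the algebra
  have hlift : ∀ G ∈ J0, aeval v G = 0 := fun G hG => (hv G).2 hG
  let φ : (MvPolynomial (Fin (n + 1)) K ⧸ J0) →ₐ[K] E := Ideal.Quotient.liftₐ J0 (aeval v) hlift
  let _ : Algebra (MvPolynomial (Fin (n + 1)) K ⧸ J0) E := φ.toRingHom.toAlgebra
  have hφ : ∀ G, algebraMap (MvPolynomial (Fin (n + 1)) K ⧸ J0) E (Ideal.Quotient.mk J0 G) =
      aeval v G := fun G => rfl
  have hT1 : IsScalarTower K (MvPolynomial (Fin (n + 1)) K ⧸ J0) E :=
    IsScalarTower.of_algebraMap_eq fun c => (φ.commutes c).symm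
  have hT2 : @IsScalarTower k (MvPolynomial (Fin (n + 1)) K ⧸ J0) E Algebra.toSMul Algebra.toSMul
      Algebra.toSMul := by
    refine IsScalarTower.of_algebraMap_eq fun c => ?_
    rw [IsScalarTower.algebraMap_apply k K E, IsScalarTower.algebraMap_apply K
      (MvPolynomial (Fin (n + 1)) K ⧸ J0) E, ← IsScalarTower.algebraMap_apply k K
      (MvPolynomial (Fin (n + 1)) K ⧸ J0)]
  have hinj : Function.Injective (algebraMap (MvPolynomial (Fin (n + 1)) K ⧸ J0) E) := by
    rw [injective_iff_map_eq_zero]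
    intro x hx
    obtain ⟨G, rfl⟩ := Ideal.Quotient.mk_surjective x
    rw [hφ, hv] at hx
    exact Ideal.Quotient.eq_zero_iff_mem.2 hx
  have : FaithfulSMul (MvPolynomial (Fin (n + 1)) K ⧸ J0) E :=
    (faithfulSMul_iff_algebraMap_injective _ _).2 hinj
  have : IsFractionRing (MvPolynomial (Fin (n + 1)) K ⧸ J0) E := by
    refine IsFractionRing.of_field _ _ fun z => ?_
    obtain ⟨G, H, hH, hz⟩ := hgv z
    refine ⟨Ideal.Quotient.mk J0 G, Ideal.Quotient.mk J0 H, ?_⟩
    rw [hφ, hφ, eq_div_iff hH, hz]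
  obtain ⟨ϖ, hϖ⟩ : ∃ x, x = Ideal.Quotient.mk J0 (cf S.F P (e - 1)) := ⟨_, rfl⟩
  obtain ⟨p, hp⟩ : ∃ p, p = J1.map (Ideal.Quotient.mk J0) := ⟨_, rfl⟩
  have hmemp : ∀ G, Ideal.Quotient.mk J0 G ∈ p ↔ G ∈ J1 := fun G => by
    rw [hp]
    exact Ideal.mem_quotient_iff_mem hle
  have hpp : p.IsPrime := by
    rw [hp]
    refine Ideal.map_isPrime_of_surjective Ideal.Quotient.mk_surjective ?_
    rw [Ideal.mk_ker]
    exact hle
  have hpspan : p = Ideal.span {ϖ} := by
    rw [hp, hJ01, Ideal.map_sup, Ideal.map_quotient_self, bot_sup_eq, Ideal.map_span,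
      Set.image_singleton, hϖ]
  have hϖp : ϖ ∈ p := by rw [hpspan]; exact Ideal.mem_span_singleton_self ϖ
  have hϖ0 : ϖ ≠ 0 := by
    rw [hϖ, Ne, Ideal.Quotient.eq_zero_iff_mem, hJ0]
    have h1 := cf_notMem S hS P hP (e - 2) (by omega) (by omega)
    have h2 : e - 2 + 1 = e - 1 := by omega
    rwa [h2] at h1
  obtain ⟨V, hu, hA, hVinv, θ, hθ⟩ := exists_valuation (MvPolynomial (Fin (n + 1)) K ⧸ J0) E p ϖ
    hϖp hϖ0 (fun x hx => ⟨1, hpp.one_notMem, by
      rw [one_mul]
      rw [hpspan] at hx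
      exact Ideal.mem_span_singleton.1 hx⟩)
  obtain ⟨w, hw⟩ : ∃ w : Fin (n + 1) → MvPolynomial (Fin (n + 1)) K ⧸ J0,
      w = fun j => Ideal.Quotient.mk J0 (X j) := ⟨_, rfl⟩
  have hmk : ∀ G : MvPolynomial (Fin (n + 1)) K, aeval w G = Ideal.Quotient.mk J0 G := by
    intro G
    have h1 : (aeval w : MvPolynomial (Fin (n + 1)) K →ₐ[K] _) = Ideal.Quotient.mkₐ K J0 := by
      apply MvPolynomial.algHom_ext
      intro j
      rw [aeval_X, hw]
      rfl
    rw [h1]
    rfl
  have hwv : ∀ j, algebraMap (MvPolynomial (Fin (n + 1)) K ⧸ J0) E (w j) = v j := by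
    intro j
    rw [hw]
    show algebraMap (MvPolynomial (Fin (n + 1)) K ⧸ J0) E (Ideal.Quotient.mk J0 (X j)) = v j
    rw [hφ, aeval_X]
  have hcf : ∀ (G : MvPolynomial (Fin (n + 1)) k) (i : ℕ),
      tc G (fun l => algebraMap K (MvPolynomial (Fin (n + 1)) K ⧸ J0) (P l)) w i =
        Ideal.Quotient.mk J0 (cf G P i) := by
    intro G i
    rw [← aeval_cf, hmk]
  have hκ : ∀ x, algebraMap (MvPolynomial (Fin (n + 1)) K ⧸ J0) p.ResidueField x = 0 ↔ x ∈ p :=
    fun x => Ideal.algebraMap_residueField_eq_zero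
  have hcz := (contact_of_zero S P hPz (e - 2) v).1 (fun o => hlift _ (by
    rw [hJ0]
    exact Ideal.subset_span ⟨o, rfl⟩))
  have htcE : ∀ (G : MvPolynomial (Fin (n + 1)) k) (i : ℕ),
      tc G (fun l => algebraMap K E (P l)) v i = 0 →
      tc G (fun l => algebraMap K (MvPolynomial (Fin (n + 1)) K ⧸ J0) (P l)) w i = 0 := by
    intro G i h
    apply hinj
    rw [map_zero, ← h]
    have h1 := tc_map (IsScalarTower.toAlgHom k (MvPolynomial (Fin (n + 1)) K ⧸ J0) E) G
      (fun l => algebraMap K (MvPolynomial (Fin (n + 1)) K ⧸ J0) (P l)) w i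
    simp only [IsScalarTower.coe_toAlgHom', ← IsScalarTower.algebraMap_apply K
      (MvPolynomial (Fin (n + 1)) K ⧸ J0) E, hwv] at h1
    exact h1
  have hw0 : w 0 = 0 := by
    apply hinj
    rw [map_zero, hwv]
    exact hcz.1
  have hcontact : S.Contact (fun l => algebraMap K (MvPolynomial (Fin (n + 1)) K ⧸ J0) (P l)) w
      (e - 2) := ⟨fun j i => htcE _ _ (hcz.2.1 j i), fun i hi => htcE _ _ (hcz.2.2 i hi)⟩
  have hcl : ∀ z : p.ResidueField, IsAlgebraic K z → ∃ c : K, algebraMap K p.ResidueField c = z := by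
    intro z hz
    have hb : (Ideal.span (Set.range (extSys (AlgebraicClosure K) (S.cone P (e - 1))))).IsPrime := by
      rw [cone_ext S P (e - 1)]
      exact cone_prime S hS (fun l => algebraMap K (AlgebraicClosure K) (P l))
        (IsPt.map hP (IsScalarTower.toAlgHom k K (AlgebraicClosure K))) (e - 1) (by omega)
        (Or.inl (by omega)) (by omega)
    have haev : ∀ G : MvPolynomial (Fin (n + 1)) K,
        aeval (fun j => algebraMap (MvPolynomial (Fin (n + 1)) K ⧸ J0) p.ResidueField (w j)) G =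
        algebraMap (MvPolynomial (Fin (n + 1)) K ⧸ J0) p.ResidueField (Ideal.Quotient.mk J0 G) := by
      intro G
      rw [← hmk]
      exact MvPolynomial.aeval_algebraMap_apply p.ResidueField w G
    refine closed_of_geomPrime (S.cone P (e - 1)) hb
      (fun j => algebraMap (MvPolynomial (Fin (n + 1)) K ⧸ J0) p.ResidueField (w j)) ?_ ?_ z hz
    · intro G
      rw [haev, hκ, hmemp, hJ1]
      rfl
    · intro y
      obtain ⟨y1, y2, hy2, hy⟩ := B6_res p y
      obtain ⟨G, rfl⟩ := Ideal.Quotient.mk_surjective y1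
      obtain ⟨H, rfl⟩ := Ideal.Quotient.mk_surjective y2
      refine ⟨G, H, by rw [haev]; exact hy2, ?_⟩
      rw [haev, haev]
      exact hy
  have hmain := B6_core S he (A := MvPolynomial (Fin (n + 1)) K ⧸ J0) (E := E)
    (κ := p.ResidueField) P hP hgen w V ϖ hu hA
    (fun x hx => hVinv x fun h => hx ((hκ x).2 h)) θ hθ ((hκ ϖ).2 hϖp)
    (by rw [hcf, hϖ]) (by
      rw [hcf, Ne, hκ, hmemp, hJ1]
      have h1 := cf_notMem S hS P hP (e - 1) (by omega) (by omega)
      have h2 : e - 1 + 1 = e := by omega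
      rwa [h2] at h1) hw0 hcontact hcl
  simp only [hwv] at hmain
  exact hmain

theorem exists_sigma {k : Type} [Field k] [CharZero k] {n a e : ℕ} (S : Sys k n a e) (hS : S.Good)
    (hn : ∑ j, S.dg j + e + 1 ≤ n) {K : Type} [Field K] [Algebra k K] (P : Fin (n + 1) → K)
    (hP : S.IsPt P) (hgen : GenOver k P) {E : Type} [Field E] [Algebra k E] [Algebra K E]
    [IsScalarTower k K E] (v : Fin (n + 1) → E) (hv : IsGen (S.JJ P (e - 2)) v) :
    S.resid (fun l => algebraMap K E (P l)) v 0 ≠ 0 ∧ ∃ σ : K →ₐ[k] E,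
      (∀ j, σ (P j) * S.resid (fun l => algebraMap K E (P l)) v 0 =
        S.resid (fun l => algebraMap K E (P l)) v j) ∧
      ∀ z ∈ IntermediateField.adjoin K (Set.range v),
        (∃ q : Polynomial K, q ≠ 0 ∧ q.eval₂ (σ : K →+* E) z = 0) → ∃ a, σ a = z := by
  obtain ⟨E0, hE0⟩ : ∃ E0 : IntermediateField K E, E0 = IntermediateField.adjoin K (Set.range v) :=
    ⟨_, rfl⟩
  have hvm : ∀ j, v j ∈ E0 := fun j => by
    rw [hE0]
    exact IntermediateField.subset_adjoin K _ ⟨j, rfl⟩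
  obtain ⟨v0, hv0⟩ : ∃ v0 : Fin (n + 1) → E0, v0 = fun j => ⟨v j, hvm j⟩ := ⟨_, rfl⟩
  have hval : ∀ j, E0.val (v0 j) = v j := fun j => by rw [hv0]; rfl
  have haev : ∀ G : MvPolynomial (Fin (n + 1)) K, E0.val (aeval v0 G) = aeval v G := by
    intro G
    have h1 := MvPolynomial.comp_aeval_apply (f := v0) E0.val G
    rw [h1]
    have h2 : (fun i => E0.val (v0 i)) = v := funext hval
    rw [h2]
  have hinj : Function.Injective E0.val := E0.val.toRingHom.injective
  have hgen0 : IsGen (S.JJ P (e - 2)) v0 := by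
    intro G
    rw [← hv G, ← haev G]
    exact (map_eq_zero_iff E0.val hinj).symm
  have hGO : GenOver K v0 := by
    intro z
    have hz : (z : E) ∈ IntermediateField.adjoin K (Set.range v) := by
      rw [← hE0]
      exact z.2
    obtain ⟨G, H, hGH⟩ := (IntermediateField.mem_adjoin_range_iff K v (z : E)).1 hz
    by_cases hH : aeval v H = 0
    · refine ⟨0, 1, by rw [map_one]; exact one_ne_zero, ?_⟩
      have h1 : (z : E) = 0 := by rw [hGH, hH, div_zero]
      have h2 : z = 0 := Subtype.ext h1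
      rw [h2, zero_mul, map_zero]
    · refine ⟨G, H, fun h => hH (by rw [← haev, h, map_zero]), ?_⟩
      apply hinj
      rw [map_mul, haev, haev]
      have h1 : E0.val z = (z : E) := rfl
      rw [h1, hGH, div_mul_cancel₀ _ hH]
  obtain ⟨h0, σ, hσ, hcl⟩ := B6_step S hS hn P hP hgen v0 hgen0 hGO
  have hres : ∀ j, S.resid (fun l => algebraMap K E (P l)) v j =
      E0.val (S.resid (fun l => algebraMap K E0 (P l)) v0 j) := by
    intro j
    have h1 := resid_map S (E0.val.restrictScalars k) (fun l => algebraMap K E0 (P l)) v0 j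
    simp only [AlgHom.restrictScalars_apply, AlgHom.commutes, hval] at h1
    exact h1.symm
  refine ⟨?_, (E0.val.restrictScalars k).comp σ, fun j => ?_, ?_⟩
  · rw [hres]
    exact (map_ne_zero_iff E0.val hinj).2 h0
  · rw [hres, hres, ← hσ j, map_mul]
    rfl
  · rintro z hz ⟨q, hq, hqz⟩
    rw [← hE0] at hz
    obtain ⟨c, hc⟩ := hcl ⟨z, hz⟩ ⟨q, hq, by
      apply hinj
      rw [map_zero]
      have h1 := Polynomial.hom_eval₂ q (σ : K →+* E0) (E0.val : E0 →+* E) ⟨z, hz⟩
      refine Eq.trans h1 (Eq.trans ?_ hqz)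
      rfl⟩
    refine ⟨c, ?_⟩
    show E0.val (σ c) = z
    rw [hc]
    rfl

end Pool.Agent.LibHP.CIM
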