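import Pool.Agent.LibCIM.A8
import Pool.Agent.LibCIM.B1
import Pool.Agent.LibHPF.QD

set_option autoImplicit false
open MvPolynomial

namespace Pool.Agent.LibHP.CIM

/-! # Row B7 (MEDIUM): independent elements of the chart rings

Same proof as `independent_chart` in LibHPC/E10.lean (proved; private lemmas can be copied), with the `a + 1` functionals `b ↦ ∑ l, b l * aeval P (pderiv l (fam o))` and `b ↦ b 0` instead of three: the space of `b` has dimension at least `n + 1 - (a + 2) = N` (no smoothness needed), `exists_der` (B1) and `IsPt.ne_zero`. -/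

section
variable {k : Type} [Field k] [CharZero k]

/-- A derivation killing a subfield kills the integral elements over it. -/
private theorem B7_der {Ω : Type} [Field Ω] [Algebra k Ω] (δ : Derivation k Ω Ω) (C : Subfield Ω)
    (hC : ∀ x, x ∈ C ↔ δ x = 0) (x : Ω) (hx : IsIntegral C x) : δ x = 0 := by
  let δ' : Derivation C Ω Ω := Derivation.mk'
    { toFun := δ
      map_add' := map_add δ
      map_smul' := fun c z => by
        show δ ((c : Ω) * z) = (c : Ω) * δ z
        rw [Derivation.leibniz, (hC c).1 c.2, smul_zero, add_zero, smul_eq_mul] }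
    (fun a b => by
      show δ (a * b) = a • δ b + b • δ a
      exact δ.leibniz a b)
  have : CharZero Ω := charZero_of_injective_algebraMap (algebraMap k Ω).injective
  have h1 : δ' (Polynomial.aeval x (minpoly C x)) =
      Polynomial.aeval x (Polynomial.derivative (minpoly C x)) • δ' x := δ'.map_aeval _ _
  rw [minpoly.aeval, map_zero, smul_eq_mul] at h1
  have hsep : (minpoly C x).Separable := (minpoly.irreducible hx).separable
  have h2 := hsep.aeval_derivative_ne_zero (minpoly.aeval C x)
  rcases mul_eq_zero.1 h1.symm with h | h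
  · exact absurd h h2
  · exact h

omit [CharZero k] in
/-- The constants of a derivation. -/
private theorem B7_const {Ω : Type} [Field Ω] [Algebra k Ω] (δ : Derivation k Ω Ω) :
    ∃ C : Subfield Ω, ∀ x, x ∈ C ↔ δ x = 0 := by
  refine ⟨{ carrier := {x | δ x = 0}
            mul_mem' := fun {a b} ha hb => ?_
            one_mem' := ?_
            add_mem' := fun {a b} ha hb => ?_
            zero_mem' := ?_
            neg_mem' := fun {a} ha => ?_
            inv_mem' := fun a ha => ?_ }, fun x => Iff.rfl⟩
  · show δ (a * b) = 0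
    have ha' : δ a = 0 := ha
    have hb' : δ b = 0 := hb
    rw [δ.leibniz, ha', hb', smul_zero, smul_zero, add_zero]
  · exact δ.map_one_eq_zero
  · show δ (a + b) = 0
    have ha' : δ a = 0 := ha
    have hb' : δ b = 0 := hb
    rw [map_add, ha', hb', add_zero]
  · exact map_zero δ
  · show δ (-a) = 0
    have ha' : δ a = 0 := ha
    rw [map_neg, ha', neg_zero]
  · show δ a⁻¹ = 0
    have ha' : δ a = 0 := ha
    rw [δ.leibniz_inv, ha', smul_zero]

/-- A derivation killing `s` kills the elements algebraic over the algebra generated by `s`. -/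
private theorem B7_alg {Ω : Type} [Field Ω] [Algebra k Ω] (δ : Derivation k Ω Ω)
    (R' : Subalgebra k Ω) (s : Set R') (hs : ∀ y ∈ s, δ (y : Ω) = 0) (x : R')
    (hx : IsAlgebraic (Algebra.adjoin k s) x) : δ (x : Ω) = 0 := by
  obtain ⟨C, hC⟩ := B7_const δ
  have hA : ∀ a ∈ Algebra.adjoin k s, ((a : R') : Ω) ∈ C := by
    intro a ha
    induction ha using Algebra.adjoin_induction with
    | mem y hy => exact (hC _).2 (hs y hy)
    | algebraMap r => exact (hC _).2 (δ.map_algebraMap r)
    | add a b _ _ ha hb => exact C.add_mem ha hb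
    | mul a b _ _ ha hb => exact C.mul_mem ha hb
  let g : Algebra.adjoin k s →+* C :=
    { toFun := fun a => ⟨((a : R') : Ω), hA _ a.2⟩
      map_one' := rfl
      map_mul' := fun a b => rfl
      map_zero' := rfl
      map_add' := fun a b => rfl }
  obtain ⟨p, hp0, hp⟩ := hx
  have hg : Function.Injective g := by
    intro a b hab
    have h1 : ((a : R') : Ω) = ((b : R') : Ω) := congrArg (fun z : C => (z : Ω)) hab
    exact Subtype.ext (Subtype.ext h1)
  have h1 : IsAlgebraic C (x : Ω) := by
    refine ⟨p.map g, ?_, ?_⟩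
    · rwa [Ne, Polynomial.map_eq_zero_iff hg]
    · have h2 : Polynomial.aeval (x : Ω) (p.map g) = R'.val (Polynomial.aeval x p) := by
        rw [Polynomial.aeval_def, Polynomial.eval₂_map, Polynomial.aeval_def]
        have h3 := Polynomial.hom_eval₂ p (algebraMap (Algebra.adjoin k s) R') (R'.val : R' →+* Ω) x
        exact h3.symm
      rw [h2, hp, map_zero]
  exact B7_der δ C hC _ h1.isIntegral

end

theorem independent_chart {k : Type} [Field k] [CharZero k] {n a e : ℕ} (S : Sys k n a e)
    (he : 2 ≤ e) (hdg : ∀ j, 2 ≤ S.dg j) (N : ℕ) (hN : N + a + 1 = n) {K : Type} [Field K] [Algebra k K]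
    (P : Fin (n + 1) → K) (hP : S.IsPt P) (i : Fin (n + 1)) :
    ∃ t : Fin N → chartRing k P i, AlgebraicIndependent k t := by
  classical
  have hPi : P i ≠ 0 := IsPt.ne_zero he hdg hP i
  set t : Set (chartRing k P i) := Set.range (fun j => chartMap k P i (X j)) with ht
  have htop : Algebra.adjoin k t = ⊤ := by
    rw [eq_top_iff]
    rintro z -
    obtain ⟨G, rfl⟩ := chartMap_surjective k P i z
    have h : (chartMap k P i) = aeval (fun j => chartMap k P i (X j)) :=
      MvPolynomial.algHom_ext fun j => by rw [aeval_X]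
    rw [ht, Algebra.adjoin_range_eq_range_aeval]
    exact ⟨G, (congrArg (fun f => f G) h).symm⟩
  have halg : Algebra.IsAlgebraic (Algebra.adjoin k t) (chartRing k P i) := ⟨fun z => by
    have hz : z ∈ Algebra.adjoin k t := by rw [htop]; trivial
    exact isAlgebraic_algebraMap (⟨z, hz⟩ : Algebra.adjoin k t)⟩
  obtain ⟨u, hut, hu⟩ := exists_isTranscendenceBasis_subset (R := k) t
  have hfin : Finite u := ((Set.finite_range _).subset hut).to_subtype
  have hfu : Fintype u := Fintype.ofFinite u
  by_cases hcard : N ≤ Fintype.card u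
  · let e : Fin N ↪ u := (Fin.castLEEmb hcard).trans (Fintype.equivFin u).symm.toEmbedding
    exact ⟨fun m => (e m : chartRing k P i), hu.1.comp e e.injective⟩
  · exfalso
    push Not at hcard
    obtain ⟨L1, hL1⟩ : ∃ L1 : (Fin (n + 1) → K) →ₗ[K] (Option (Fin a) → K),
        ∀ b o, L1 b o = ∑ l, b l * aeval P (pderiv l (S.fam o)) := by
      refine ⟨⟨⟨fun b o => ∑ l, b l * aeval P (pderiv l (S.fam o)), ?_⟩, ?_⟩, fun b o => rfl⟩
      · intro x y
        funext o
        show ∑ l, (x l + y l) * aeval P (pderiv l (S.fam o)) =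
          ∑ l, x l * aeval P (pderiv l (S.fam o)) + ∑ l, y l * aeval P (pderiv l (S.fam o))
        rw [← Finset.sum_add_distrib]
        exact Finset.sum_congr rfl fun j _ => add_mul _ _ _
      · intro r x
        funext o
        simp only [RingHom.id_apply, Pi.smul_apply, smul_eq_mul, Finset.mul_sum, mul_assoc]
    obtain ⟨L, hL⟩ : ∃ L : (Fin (n + 1) → K) →ₗ[K] (Option (Fin a) → K) × K,
        ∀ b, L b = (L1 b, b 0) := ⟨L1.prod (LinearMap.proj 0), fun b => rfl⟩
    have hfr : N ≤ Module.finrank K (LinearMap.ker L) := by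
      have h1 := LinearMap.finrank_range_add_finrank_ker L
      have h2 : Module.finrank K (LinearMap.range L) ≤ a + 1 + 1 := by
        have := Submodule.finrank_le (LinearMap.range L)
        simpa using this
      rw [Module.finrank_fintype_fun_eq_card, Fintype.card_fin] at h1
      omega
    obtain ⟨c, hc⟩ := exists_linearIndependent_of_le_finrank (R := K) (M := LinearMap.ker L)
      (n := Fintype.card u + 1) (by omega)
    have hc' : LinearIndependent K (fun l => (c l : Fin (n + 1) → K)) :=
      hc.map' (Submodule.subtype _) (Submodule.ker_subtype _)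
    have hker : ∀ l, (∀ o, ∑ j, (c l : Fin (n + 1) → K) j * aeval P (pderiv j (S.fam o)) = 0) ∧
        (c l : Fin (n + 1) → K) 0 = 0 := by
      intro l
      have h1 := LinearMap.mem_ker.1 (c l).2
      rw [hL] at h1
      refine ⟨fun o => ?_, congrArg Prod.snd h1⟩
      rw [← hL1]
      exact congrFun (congrArg Prod.fst h1) o
    have hδ := fun l => exists_der P hP (c l) (hker l).2 (hker l).1
    choose δ hδ using hδ
    have hdep : ¬ LinearIndependent K
        (fun l => fun y : u => δ l ((y : chartRing k P i) : K)) := by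
      intro h
      have h1 := h.fintype_card_le_finrank
      rw [Fintype.card_fin, Module.finrank_fintype_fun_eq_card] at h1
      omega
    rw [Fintype.not_linearIndependent_iff] at hdep
    obtain ⟨lam, hsum, l0, hl0⟩ := hdep
    let Δ : Derivation k K K := ∑ l, lam l • δ l
    have hΔ : ∀ z, Δ z = ∑ l, lam l * δ l z := by
      intro z
      have h1 : (Δ : K → K) = ∑ l, ((lam l • δ l : Derivation k K K) : K → K) :=
        map_sum (Derivation.coeFnAddMonoidHom (R := k) (A := K) (M := K)) _ _
      rw [h1, Finset.sum_apply]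
      exact Finset.sum_congr rfl fun l _ => rfl
    have hu0 : ∀ y ∈ u, Δ (y : K) = 0 := by
      intro y hy
      have h1 := congrFun hsum ⟨y, hy⟩
      rw [Finset.sum_apply, Pi.zero_apply] at h1
      rw [hΔ]
      exact h1
    have hR : ∀ x : chartRing k P i, Δ (x : K) = 0 := by
      intro x
      have h1 := hu.isAlgebraic
      rw [Subtype.range_coe] at h1
      exact B7_alg Δ _ u hu0 x (h1.isAlgebraic x)
    have hPj : ∀ j, Δ (P j) = 0 := by
      intro j
      have hj := hR ⟨P j / P i, Algebra.subset_adjoin ⟨j, rfl⟩⟩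
      have h0 := hR ⟨P 0 / P i, Algebra.subset_adjoin ⟨0, rfl⟩⟩
      have e : P j = (P j / P i) * (P 0 / P i)⁻¹ := by
        rw [hP.1]
        field_simp
      rw [e, Derivation.leibniz, Derivation.leibniz_inv]
      show (P j / P i) • (-((P 0 / P i)⁻¹ ^ 2) • Δ (P 0 / P i)) + (P 0 / P i)⁻¹ • Δ (P j / P i) = 0
      have hj' : Δ (P j / P i) = 0 := hj
      have h0' : Δ (P 0 / P i) = 0 := h0
      rw [hj', h0']
      simp
    have hz : ∑ l, lam l • (c l : Fin (n + 1) → K) = 0 := by
      funext j
      have h1 := hPj j
      rw [hΔ] at h1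
      rw [Finset.sum_apply, Pi.zero_apply, ← h1]
      refine Finset.sum_congr rfl fun l _ => ?_
      rw [hδ l j]
      rfl
    exact hl0 (Fintype.linearIndependent_iff.1 hc' lam hz l0)

end Pool.Agent.LibHP.CIM
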