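import Pool.Agent.LibCIM.B4
import Pool.Agent.LibCIM.T3

set_option autoImplicit false
open MvPolynomial

namespace Pool.Agent.LibHP.CIM

/-! # Row B8 (MEDIUM/STRONG): generic linear sections of the cone of lines through the generic point

Same proof as `lines_section` in LibHPC/E8.lean (proved), with the `∑ dg + e` functionals `gr (fam o) P' x i` (`i < len e o`), independent by `indep` (B4, `s = e`), all killing `P'` and `x` (`gr_dot_P`, `gr_dot_v`), and the `r = n - ∑ dg - e` generic linear forms. For a derivation `δ` with `δ P' = 0`: `tc_der_succ` gives `gr .. i · δx = 0`. -/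

theorem lines_section {k : Type} [Field k] [CharZero k] {n a e : ℕ} (S : Sys k n a e) (hS : S.Good)
    (r : ℕ) (hr : r + ∑ j, S.dg j + e = n) {Ω0 Ω1 : Type} [Field Ω0] [Algebra k Ω0] [Field Ω1]
    [Algebra k Ω1] [Algebra Ω0 Ω1] [IsScalarTower k Ω0 Ω1] (P : Fin (n + 1) → Ω0) (hP : S.IsPt P)
    (h : Fin r × Fin (n + 1) → Ω1) (hh : AlgebraicIndependent Ω0 h) (P' x : Fin (n + 1) → Ω1)
    (hP' : ∀ i, P' i = algebraMap Ω0 Ω1 (P i)) (hc : S.Contact P' x e)
    (hx : ∀ i, ∑ j, h (i, j) * (x j - x 0 * P' j) = 0) : ∃ c : Ω1, x = c • P' := by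
  classical
  by_contra hcon
  push Not at hcon
  have : CharZero Ω0 := charZero_of_injective_algebraMap (algebraMap k Ω0).injective
  have : CharZero Ω1 := charZero_of_injective_algebraMap (algebraMap k Ω1).injective
  have hG : S.IsPt P' := by
    have h5 := IsPt.map hP (IsScalarTower.toAlgHom k Ω0 Ω1)
    have h6 : P' = fun i => (IsScalarTower.toAlgHom k Ω0 Ω1) (P i) := by
      funext i
      exact hP' i
    rw [h6]
    exact h5
  have hP0 : P' 0 = 1 := hG.1
  -- the coefficients vanish
  have htc : ∀ o (i : ℕ), i ≤ S.len e o → tc (S.fam o) P' x i = 0 := by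
    intro o i hi
    cases o with
    | none => exact hc.2 i hi
    | some j => exact hc.1 j i
  -- the functionals
  obtain ⟨T, hT⟩ : ∃ T : (Fin (n + 1) → Ω1) →ₗ[Ω1] ((Σ o : Option (Fin a), Fin (S.len e o)) → Ω1),
      ∀ b q, T b q = ∑ l, gr (S.fam q.1) P' x q.2.val l * b l := by
    refine ⟨⟨⟨fun b q => ∑ l, gr (S.fam q.1) P' x q.2.val l * b l, ?_⟩, ?_⟩, fun b q => rfl⟩
    · intro u v
      funext q
      show ∑ l, gr (S.fam q.1) P' x q.2.val l * (u l + v l) =
        ∑ l, gr (S.fam q.1) P' x q.2.val l * u l + ∑ l, gr (S.fam q.1) P' x q.2.val l * v l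
      rw [← Finset.sum_add_distrib]
      exact Finset.sum_congr rfl fun j _ => mul_add _ _ _
    · intro t b
      funext q
      simp only [RingHom.id_apply, Pi.smul_apply, smul_eq_mul, Finset.mul_sum]
      exact Finset.sum_congr rfl fun j _ => by ring
  have hTs : LinearMap.range T = ⊤ := by
    by_contra hne
    obtain ⟨f, hf, hle⟩ := Submodule.exists_le_ker_of_lt_top _ (lt_top_iff_ne_top.2 hne)
    obtain ⟨ρ, hρ⟩ : ∃ ρ : (Σ o : Option (Fin a), Fin (S.len e o)) → Ω1,
      ρ = fun i => f (Pi.single i 1) := ⟨_, rfl⟩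
    have hfy : ∀ y : (Σ o : Option (Fin a), Fin (S.len e o)) → Ω1, f y = ∑ i, y i * ρ i := by
      intro y
      have h7 := f.pi_apply_eq_sum_univ y
      rw [h7]
      refine Finset.sum_congr rfl fun i _ => ?_
      rw [smul_eq_mul, hρ]
      congr 2
      funext j
      rw [Pi.single_apply]
      simp only [eq_comm]
    have hρ0 : (fun (o : Option (Fin a)) (i : Fin (S.len e o)) => ρ ⟨o, i⟩) = 0 := by
      refine indep S hS P' x hG hcon e le_rfl (Or.inl (le_trans one_le_two hS.2.1)) hc _ fun l => ?_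
      have h8 : f (T (Pi.single l 1)) = 0 := hle ⟨_, rfl⟩
      rw [hfy, Fintype.sum_sigma] at h8
      rw [← h8]
      refine Finset.sum_congr rfl fun o _ => Finset.sum_congr rfl fun i _ => ?_
      rw [hT, Finset.sum_eq_single l]
      · rw [Pi.single_eq_same, mul_one, mul_comm]
      · intro j _ hj
        rw [Pi.single_eq_of_ne hj, mul_zero]
      · intro hj
        exact absurd (Finset.mem_univ l) hj
    apply hf
    ext y
    rw [LinearMap.comp_apply, LinearMap.zero_comp, LinearMap.zero_apply, hfy]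
    refine Finset.sum_eq_zero fun q _ => ?_
    have h9 : ρ q = 0 := congrFun (congrFun hρ0 q.1) q.2
    rw [h9, mul_zero]
  -- the linear section
  obtain ⟨Λ, hΛ⟩ : ∃ Λ : (Fin (n + 1) → Ω1) →ₗ[Ω1] (Fin r → Ω1),
      ∀ b i, Λ b i = ∑ j, h (i, j) * (b j - b 0 * P' j) := by
    refine ⟨⟨⟨fun b i => ∑ j, h (i, j) * (b j - b 0 * P' j), ?_⟩, ?_⟩, fun b i => rfl⟩
    · intro a b
      funext i
      show ∑ j, h (i, j) * ((a j + b j) - (a 0 + b 0) * P' j) =
        ∑ j, h (i, j) * (a j - a 0 * P' j) + ∑ j, h (i, j) * (b j - b 0 * P' j)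
      rw [← Finset.sum_add_distrib]
      refine Finset.sum_congr rfl fun j _ => ?_
      ring
    · intro r b
      funext i
      simp only [RingHom.id_apply, Pi.smul_apply, smul_eq_mul, Finset.mul_sum]
      refine Finset.sum_congr rfl fun j _ => ?_
      ring
  have hΛs : ∀ t : Fin r → Ω1, ∃ b, T b = 0 ∧ Λ b = t := by
    intro t
    obtain ⟨j1, hj1⟩ : ∃ j1, x j1 - x 0 * P' j1 ≠ 0 := by
      by_contra hall
      push Not at hall
      apply hcon (x 0)
      funext j
      rw [Pi.smul_apply, smul_eq_mul]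
      exact sub_eq_zero.1 (hall j)
    obtain ⟨c, hc'⟩ : ∃ c : Fin r × Fin (n + 1) → Ω1,
      c = fun q => if q.2 = j1 then -t q.1 / (x j1 - x 0 * P' j1) else 0 := ⟨_, rfl⟩
    obtain ⟨δ, hδ⟩ := exists_derivation_of_rel Ω0 Ω1 (Fin r × Fin (n + 1)) h c (by
      intro G hG0
      have h9 : G = 0 := (injective_iff_map_eq_zero _).1 hh G hG0
      rw [h9]
      simp)
    obtain ⟨E, hE⟩ : ∃ E : Derivation k Ω1 Ω1, ∀ y, E y = δ y := ⟨δ.restrictScalars k, fun y => rfl⟩
    have hEP : ∀ i, E (P' i) = 0 := by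
      intro i
      rw [hE, hP', δ.map_algebraMap]
    refine ⟨fun i => E (x i), ?_, ?_⟩
    · funext q
      have e1 := tc_der_succ E (S.fam q.1) P' x q.2.val
      rw [htc q.1 (q.2.val + 1) q.2.isLt, map_zero] at e1
      have e2 : ∑ l, gr (S.fam q.1) P' x (q.2.val + 1) l * E (P' l) = 0 :=
        Finset.sum_eq_zero fun l _ => by rw [hEP, mul_zero]
      rw [e2, zero_add] at e1
      exact (hT _ _).trans e1.symm
    · funext i
      rw [hΛ]
      have h10 := congrArg E (hx i)
      rw [map_zero, map_sum] at h10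
      have h11 : ∀ j, E (h (i, j) * (x j - x 0 * P' j)) =
          c (i, j) * (x j - x 0 * P' j) + h (i, j) * (E (x j) - E (x 0) * P' j) := by
        intro j
        rw [Derivation.leibniz, map_sub, Derivation.leibniz, hEP, hE (h (i, j)), hδ]
        simp only [smul_eq_mul]
        ring
      rw [Finset.sum_congr rfl fun j _ => h11 j, Finset.sum_add_distrib] at h10
      have h12 : ∑ j, c (i, j) * (x j - x 0 * P' j) = -t i := by
        rw [Finset.sum_eq_single j1]
        · rw [hc']
          dsimp only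
          rw [if_pos rfl, div_mul_cancel₀ _ hj1]
        · intro j _ hj
          rw [hc']
          dsimp only
          rw [if_neg hj, zero_mul]
        · intro hj
          exact absurd (Finset.mem_univ j1) hj
      rw [h12] at h10
      linear_combination h10
  -- dimension count
  obtain ⟨M, hM⟩ : ∃ M : (Fin (n + 1) → Ω1) →ₗ[Ω1]
      ((Σ o : Option (Fin a), Fin (S.len e o)) → Ω1) × (Fin r → Ω1), ∀ b, M b = (T b, Λ b) :=
    ⟨T.prod Λ, fun b => rfl⟩
  have hMs : LinearMap.range M = ⊤ := by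
    rw [LinearMap.range_eq_top]
    rintro ⟨u, t⟩
    obtain ⟨b0, hb0⟩ := LinearMap.range_eq_top.1 hTs u
    obtain ⟨b1, hb1, hb1'⟩ := hΛs (t - Λ b0)
    refine ⟨b0 + b1, ?_⟩
    rw [hM, map_add, map_add, hb0, hb1, hb1', add_zero, add_sub_cancel]
  have hcard : Fintype.card (Σ o : Option (Fin a), Fin (S.len e o)) = e + ∑ j, S.dg j := by
    rw [Fintype.card_sigma, Fintype.sum_option]
    simp only [Fintype.card_fin]
    rfl
  have hdim := LinearMap.finrank_range_add_finrank_ker M
  rw [hMs, finrank_top, Module.finrank_prod, Module.finrank_fintype_fun_eq_card, Module.finrank_fin_fun,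
    Module.finrank_fin_fun, hcard] at hdim
  have hker : Module.finrank Ω1 (LinearMap.ker M) = 1 := by omega
  have hP'M : P' ∈ LinearMap.ker M := by
    rw [LinearMap.mem_ker, hM]
    refine Prod.ext ?_ ?_
    · funext q
      have e1 := gr_dot_P (S.fam_hom q.1) P' x q.2.val
      rw [htc q.1 q.2.val q.2.isLt.le, mul_zero, mul_zero, add_zero] at e1
      exact (hT _ _).trans e1
    · funext i
      refine (hΛ _ _).trans ?_
      refine Finset.sum_eq_zero fun j _ => ?_
      rw [hP0, one_mul, sub_self, mul_zero]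
  have hxM : x ∈ LinearMap.ker M := by
    rw [LinearMap.mem_ker, hM]
    refine Prod.ext ?_ ?_
    · funext q
      have e1 := gr_dot_v (S.fam q.1) P' x q.2.val
      rw [htc q.1 (q.2.val + 1) q.2.isLt, mul_zero] at e1
      exact (hT _ _).trans e1
    · funext i
      exact (hΛ _ _).trans (hx i)
  have hP'0 : (⟨P', hP'M⟩ : LinearMap.ker M) ≠ 0 := by
    intro h13
    have h14 : P' = 0 := congrArg Subtype.val h13
    rw [h14] at hP0
    exact zero_ne_one hP0
  obtain ⟨c, hc'⟩ := (finrank_eq_one_iff_of_nonzero' _ hP'0).1 hker ⟨x, hxM⟩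
  exact hcon c (congrArg Subtype.val hc').symm

end Pool.Agent.LibHP.CIM
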