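import Pool.Agent.LibCIM.CDefs
import Pool.Agent.LibHPF.P8c
import Pool.Agent.LibHPF.G9

set_option autoImplicit false

namespace Pool.Agent.LibHP.CIM

/-! # Row C1 (MEDIUM): unramified at the prime divisors which are met with multiplicity one

Copy the proofs of `etale_of_div` (LibHPF/P8c.lean; replace `Ω := RF (AlgebraicClosure M) r`, `s := sbar σ` by `E`, `σ`; `dvd_of_div` of P8b is general) and `unramAt_of_met` (LibHPF/G9.lean), with `m = 1`, `ϖ = σ π`, `u = 1`.
From `MetIn` to the localization `O = Localization.AtPrime P`: as in `G9_meets`; the condition `∀ a ∈ P, ∃ t ∉ P, π ∣ t * a` is the one used there. -/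

/-- the integral closure is etale -/
private theorem C1_etale (O K L : Type) [CommRing O] [IsDomain O] [IsDiscreteValuationRing O]
    [Field K] [CharZero K] (hQ : ∀ n : ℕ, n ≠ 0 → IsUnit (n : O))
    [Algebra O K] [IsFractionRing O K] [Field L] [Algebra K L] [Algebra O L]
    [IsScalarTower O K L] [FiniteDimensional K L] {E : Type} [Field E] (σ : K →+* E)
    (hL : AllEmbIn σ L) (C : ValuationSubring E) (π : O)
    (hϖ : IsUnif C (σ (algebraMap O K π))) (hC : ∀ a : O, σ (algebraMap O K a) ∈ C)
    (hπ : ∀ a : O, ¬ IsUnit a ↔ π ∣ a) :
    Algebra.Etale O (integralClosure O L) := by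
  have hfin : Module.Finite O (integralClosure O L) :=
    IsIntegralClosure.finite O K L (integralClosure O L)
  have hded : IsDedekindDomain (integralClosure O L) := integralClosure.isDedekindDomain O K L
  have hinjOL : Function.Injective (algebraMap O L) := by
    rw [IsScalarTower.algebraMap_eq O K L]
    exact (algebraMap K L).injective.comp (IsFractionRing.injective O K)
  have hinj : Function.Injective (algebraMap O (integralClosure O L)) := fun x y h =>
    hinjOL (congrArg (fun z : integralClosure O L => (z : L)) h)
  have hfs : FaithfulSMul O (integralClosure O L) :=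
    (faithfulSMul_iff_algebraMap_injective _ _).2 hinj
  have hfree : Module.Free O (integralClosure O L) := inferInstance
  have hfp : Algebra.FinitePresentation O (integralClosure O L) :=
    (Algebra.FinitePresentation.of_finiteType (R := O)).1 inferInstance
  have hchar : CharZero O :=
    ⟨fun a b h => by
      have h' := congrArg (algebraMap O K) h
      simpa using h'⟩
  obtain ⟨π0, hπ0⟩ := IsDiscreteValuationRing.exists_irreducible O
  obtain ⟨ψ, hψ, hψs⟩ := hL
  have hunr : Algebra.FormallyUnramified O (integralClosure O L) := by
    rw [Algebra.formallyUnramified_iff_forall]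
    rintro ⟨q, hq⟩
    rcases eq_or_ne q ⊥ with rfl | hq0
    · exact Algebra.isUnramifiedAt_bot
    have hqm : q.IsMaximal := hq.isMaximal hq0
    have hx : algebraMap O (integralClosure O L) π0 ≠ 0 := fun h =>
      hπ0.ne_zero (hinj (by rw [h, map_zero]))
    obtain ⟨e, a, b, s, t, hb, hs, ht, heq, he⟩ :=
      exists_repr_c (integralClosure O L) q hq0 _ hx
    have he1 : e = 1 :=
      Nat.dvd_one.1 (dvd_of_div O K L E σ ψ hψ hψs C (σ (algebraMap O K π)) hϖ
        hC π hπ 1 le_rfl 1 C.one_mem (by rw [inv_one]; exact C.one_mem)
        (by rw [one_mul, pow_one]) q hqm π0 hπ0 e a b s t hb hs ht heq)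
    have hunder : q.under O = IsLocalRing.maximalIdeal O := by
      have := hqm
      have h1 : (q.under O).IsMaximal := inferInstance
      exact IsLocalRing.eq_maximalIdeal h1
    have hcz : CharZero (q.under O).ResidueField := by
      refine charZero_of_inj_zero fun n hn => ?_
      by_contra hn0
      have h1 : IsUnit (algebraMap O (q.under O).ResidueField (n : O)) := (hQ n hn0).map _
      rw [map_natCast, hn] at h1
      exact not_isUnit_zero h1
    have hperf : PerfectField (q.under O).ResidueField := inferInstance
    rw [← Ideal.ramificationIdx_eq_one_iff, Ideal.ramificationIdx_def,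
      ENat.toNat_eq_iff_eq_natCast, Nat.cast_one, Module.length_eq_one_iff,
      isSimpleModule_iff_isCoatom, ← Ideal.isMaximal_def, IsLocalRing.isMaximal_iff, hunder,
      hπ0.maximalIdeal_eq, Ideal.map_span, Set.image_singleton,
      IsScalarTower.algebraMap_apply O (integralClosure O L) (Localization.AtPrime q)]
    exact he he1
  exact Algebra.Etale.of_formallyUnramified_of_flat

/-- from the ring to its localization -/
private theorem C1_meets (A O K : Type) [CommRing A] [IsDomain A] [CommRing O] [Field K]
    [Algebra A K] [Algebra A O] [Algebra O K] [IsScalarTower A O K] (P : Ideal A) [P.IsPrime]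
    [IsLocalization.AtPrime O P] {E : Type} [Field E] (σ : K →+* E) (h : MetIn A K P σ) :
    ∃ (C : ValuationSubring E) (π : O), IsUnif C (σ (algebraMap O K π)) ∧
      (∀ a : O, σ (algebraMap O K a) ∈ C) ∧ ∀ a : O, ¬ IsUnit a ↔ π ∣ a := by
  obtain ⟨C, π, hϖ, h1, h2, hπ, h3⟩ := h
  have hmk : ∀ (x : A) (s : P.primeCompl), algebraMap O K (IsLocalization.mk' O x s) *
      algebraMap A K s = algebraMap A K x := by
    intro x s
    rw [IsScalarTower.algebraMap_apply A O K, IsScalarTower.algebraMap_apply A O K x, ← map_mul,
      IsLocalization.mk'_spec]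
  have hs0 : ∀ s : P.primeCompl, algebraMap A K (s : A) ≠ 0 := by
    intro s
    have hun : IsUnit (algebraMap O K (algebraMap A O (s : A))) :=
      (IsLocalization.map_units O s).map (algebraMap O K)
    rw [IsScalarTower.algebraMap_apply A O K]
    exact hun.ne_zero
  refine ⟨C, algebraMap A O π, ?_, ?_, ?_⟩
  · rw [← IsScalarTower.algebraMap_apply A O K]
    exact hϖ
  · intro a
    obtain ⟨x, s, rfl⟩ := IsLocalization.exists_mk'_eq P.primeCompl a
    have h4 : algebraMap O K (IsLocalization.mk' O x s) =
        algebraMap A K x * (algebraMap A K (s : A))⁻¹ := by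
      rw [← hmk x s, mul_assoc, mul_inv_cancel₀ (hs0 s), mul_one]
    rw [h4, map_mul, map_inv₀]
    exact C.mul_mem _ _ (h1 x) (h2 s s.2)
  · intro a
    obtain ⟨x, s, rfl⟩ := IsLocalization.exists_mk'_eq P.primeCompl a
    constructor
    · intro hn
      have hx : x ∈ P := by
        by_contra hx
        exact hn ((IsLocalization.AtPrime.isUnit_mk'_iff O P x s).mpr hx)
      obtain ⟨s', hs', c, hc⟩ := h3 x hx
      have hun : IsUnit (algebraMap A O s') := IsLocalization.map_units O (⟨s', hs'⟩ : P.primeCompl)
      obtain ⟨t, ht⟩ := hun.exists_right_inv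
      refine ⟨IsLocalization.mk' O c s * t, ?_⟩
      have hus : IsUnit (algebraMap A O (s : A)) := IsLocalization.map_units O s
      have e1 : IsLocalization.mk' O x s * algebraMap A O s = algebraMap A O x :=
        IsLocalization.mk'_spec O x s
      have e2 : IsLocalization.mk' O c s * algebraMap A O s = algebraMap A O c :=
        IsLocalization.mk'_spec O c s
      have e3 : algebraMap A O s' * algebraMap A O x = algebraMap A O π * algebraMap A O c := by
        rw [← map_mul, hc, map_mul]
      refine hus.mul_left_injective ?_
      show IsLocalization.mk' O x s * algebraMap A O s =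
        algebraMap A O π * (IsLocalization.mk' O c s * t) * algebraMap A O s
      rw [e1]
      linear_combination (-(algebraMap A O x)) * ht + t * e3 - algebraMap A O π * t * e2
    · intro hd hun
      have h5 : IsUnit (algebraMap A O π) := isUnit_of_dvd_unit hd hun
      exact ((IsLocalization.AtPrime.isUnit_to_map_iff O P π).mp h5) hπ

theorem unramAt_of_metIn (A K : Type) [CommRing A] [IsDomain A] [IsNoetherianRing A]
    [IsIntegrallyClosed A] [Field K] [CharZero K] [Algebra A K] [IsFractionRing A K]
    (hQ : ∀ n : ℕ, n ≠ 0 → IsUnit (n : A)) (P : Ideal A) (hP : P.IsPrime) (hP1 : P.height = 1)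
    {E : Type} [Field E] (σ : K →+* E) (L : Type) [Field L] [Algebra K L]
    [Algebra A L] [IsScalarTower A K L] [FiniteDimensional K L] (hL : AllEmbIn σ L)
    (hmet : MetIn A K P σ) : UnramAt A L P := by
  let O := Localization.AtPrime P
  have hle : P.primeCompl ≤ nonZeroDivisors A := Ideal.primeCompl_le_nonZeroDivisors P
  let _ : Algebra O K := IsLocalization.localizationAlgebraOfSubmonoidLe O K P.primeCompl
    (nonZeroDivisors A) hle
  have htow : IsScalarTower A O K := IsLocalization.localization_isScalarTower_of_submonoid_le O K
    P.primeCompl (nonZeroDivisors A) hle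
  have hdom : IsDomain O := IsLocalization.isDomain_localization hle
  have hfrac : IsFractionRing O K :=
    IsFractionRing.isFractionRing_of_isDomain_of_isLocalization P.primeCompl O K
  have hno : IsNoetherianRing O := IsLocalization.isNoetherianRing P.primeCompl O inferInstance
  have hic : IsIntegrallyClosed O := isIntegrallyClosed_of_isLocalization (R := A) O P.primeCompl hle
  have hdim : ringKrullDim O = 1 := by
    rw [IsLocalization.AtPrime.ringKrullDim_eq_height P, hP1]
    rfl
  have hdvr : IsDiscreteValuationRing O := isDiscreteValuationRing_of_dim_one O hdim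
  let _ : Algebra O L := ((algebraMap K L).comp (algebraMap O K)).toAlgebra
  have htow2 : IsScalarTower O K L := IsScalarTower.of_algebraMap_eq' rfl
  have htow3 : IsScalarTower A O L := by
    refine IsScalarTower.of_algebraMap_eq fun a => ?_
    rw [IsScalarTower.algebraMap_apply A K L, IsScalarTower.algebraMap_apply O K L,
      ← IsScalarTower.algebraMap_apply A O K]
  have hQO : ∀ n : ℕ, n ≠ 0 → IsUnit (n : O) := by
    intro n hn
    have := (hQ n hn).map (algebraMap A O)
    rwa [map_natCast] at this
  obtain ⟨C, π, hϖ, hC, hπ⟩ := C1_meets A O K P σ hmet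
  have het : Algebra.Etale O (integralClosure O L) := C1_etale O K L hQO σ hL C π hϖ hC hπ
  intro D hD b hb
  have hD' : ∀ z : O, ∃ z' : O, D (algebraMap O L z) = algebraMap O L z' :=
    G9_der P.primeCompl D hD
  have hb' : IsIntegral O b := hb.tower_top
  have hDb : IsIntegral O (D b) := isIntegral_derivation_of_etale O K L D hD' b hb'
  obtain ⟨m, hm⟩ := hDb.exists_multiple_integral_of_isLocalization P.primeCompl _
  refine ⟨m, m.2, ?_⟩
  rwa [Submonoid.smul_def, Algebra.smul_def] at hm

end Pool.Agent.LibHP.CIM
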