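import Pool.Agent.LibCIM.CDefs
import Pool.Agent.LibHPF.P3

set_option autoImplicit false

namespace Pool.Agent.LibHP.CIM

/-! # Row C2 (MEDIUM): one root gives all embeddings

`q1 := q` mapped to `E0` by `σ` is irreducible over the field `E0` (`irreducible_map_of_closed`, LibHPF/P3a, with `hcl`). `E` is generated over `E0` by the elements of `Kb`; such an element `c` is a root of the image of `minpoly K c` (coefficients in `E0` by `h2`), which splits already over `Kb`: so the minimal polynomial of every element of `E`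
over `E0` splits in `E` (`P3b_core`, or `IntermediateField.splits_of_mem_adjoin`, see `splits_of_root_rf` in LibHPF/P3b). So `q.map σ` splits in `E`; separable (characteristic zero), so it has `natDegree q` distinct roots, each gives a homomorphism `AdjoinRoot.lift σ x`; enumerate them as in `allEmb_of_root` (LibHPF/P3.lean). -/

theorem allEmbIn_of_root {K Kb E : Type} [Field K] [CharZero K] [Field Kb] [IsAlgClosed Kb]
    [Field E] [Algebra K Kb] [Algebra.IsAlgebraic K Kb] [Algebra Kb E] (σ : K →+* E)
    (E0 : Subfield E) (h1 : ∀ a, σ a ∈ E0) (h2 : ∀ a : K, algebraMap Kb E (algebraMap K Kb a) ∈ E0)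
    (h3 : Subfield.closure ((E0 : Set E) ∪ Set.range (algebraMap Kb E)) = ⊤)
    (hcl : ∀ z ∈ E0, (∃ q : Polynomial K, q ≠ 0 ∧ q.eval₂ σ z = 0) → ∃ a, σ a = z)
    (q : Polynomial K) [Fact (Irreducible q)] (hq : q.Monic) (z : E) (hz : q.eval₂ σ z = 0) :
    AllEmbIn σ (AdjoinRoot q) := by
  classical
  let σ0 : K →+* E0 := σ.codRestrict E0 h1
  have hσ0 : E0.subtype.comp σ0 = σ := RingHom.ext fun a => rfl
  let τ0 : K →+* E0 := ((algebraMap Kb E).comp (algebraMap K Kb)).codRestrict E0 h2
  have hτ0 : E0.subtype.comp τ0 = (algebraMap Kb E).comp (algebraMap K Kb) :=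
    RingHom.ext fun a => rfl
  have hirr : Irreducible (q.map σ0) := by
    refine irreducible_map_of_closed σ0 ?_ q hq Fact.out
    rintro ⟨e, he⟩ ⟨P, hP, hP0⟩
    have h4 : P.eval₂ σ e = 0 := by
      have h5 := congrArg E0.subtype hP0
      rw [Polynomial.hom_eval₂, hσ0, map_zero] at h5
      exact h5
    obtain ⟨a, ha⟩ := hcl e he ⟨P, hP, h4⟩
    exact ⟨a, Subtype.ext ha⟩
  have hz0 : (q.map σ0).eval₂ E0.subtype z = 0 := by
    rw [Polynomial.eval₂_map, hσ0]
    exact hz
  have hs : ((q.map σ0).map E0.subtype).Splits := by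
    refine P3b_core E0.subtype (Set.range (algebraMap Kb E)) ?_ ?_ (q.map σ0) (hq.map σ0) hirr z hz0
    · rintro _ ⟨c, rfl⟩
      have hc : IsIntegral K c := Algebra.IsIntegral.isIntegral c
      refine ⟨(minpoly K c).map τ0, (minpoly.monic hc).map _, ?_, ?_⟩
      · rw [Polynomial.eval₂_map, hτ0, ← Polynomial.hom_eval₂]
        have h4 : (minpoly K c).eval₂ (algebraMap K Kb) c = 0 := minpoly.aeval K c
        rw [h4, map_zero]
      · rw [Polynomial.map_map, hτ0, ← Polynomial.map_map]
        exact (IsAlgClosed.splits _).map _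
    · intro K' hK1 hK2 w
      have h4 : Subfield.closure ((E0 : Set E) ∪ Set.range (algebraMap Kb E)) ≤ K' := by
        rw [Subfield.closure_le]
        rintro x (hx | hx)
        · exact hK1 ⟨x, hx⟩
        · exact hK2 hx
      rw [h3] at h4
      exact h4 (Subfield.mem_top w)
  have hs' : (q.map σ).Splits := by
    rwa [Polynomial.map_map, hσ0] at hs
  have hirrq : Irreducible q := Fact.out
  have hsep : (q.map σ).Separable := hirrq.separable.map
  have hnd : (q.map σ).roots.Nodup := Polynomial.nodup_roots hsep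
  have hcard : Multiset.card (q.map σ).roots = (q.map σ).natDegree :=
    hs'.natDegree_eq_card_roots.symm
  have hfin : Module.finrank K (AdjoinRoot q) = q.natDegree := by
    have h4 := (AdjoinRoot.powerBasis hirrq.ne_zero).finrank
    rwa [AdjoinRoot.powerBasis_dim] at h4
  have hcard2 : (q.map σ).roots.toFinset.card = Module.finrank K (AdjoinRoot q) := by
    rw [Multiset.toFinset_card_of_nodup hnd, hcard, Polynomial.natDegree_map, hfin]
  let e := Finset.equivFinOfCardEq hcard2
  have hx : ∀ x : {x // x ∈ (q.map σ).roots.toFinset}, q.eval₂ σ (x : E) = 0 := by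
    intro x
    have h4 := x.2
    rw [Multiset.mem_toFinset, Polynomial.mem_roots', Polynomial.IsRoot,
      Polynomial.eval_map] at h4
    exact h4.2
  refine ⟨fun i => AdjoinRoot.lift σ (e.symm i : E) (hx _), ?_, ?_⟩
  · intro i j hij
    have h4 := congrArg (fun f : AdjoinRoot q →+* E => f (AdjoinRoot.root q)) hij
    simp only [AdjoinRoot.lift_root] at h4
    exact e.symm.injective (Subtype.ext h4)
  · intro i a
    exact AdjoinRoot.lift_of (hx _)

end Pool.Agent.LibHP.CIM
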