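import Mathlib

set_option autoImplicit false
open MvPolynomial

namespace Pool.Agent.LibHP.CIM

/-! # Row G1 (ONLY MATHLIB, MEDIUM): unsolvable systems stay unsolvable under almost all specialisations

`J := Ideal.span (Set.range f)` in `MvPolynomial σ R`. If `C ρ ∈ J` for some `ρ ≠ 0` in `R` we are done: a common zero `x` over `F` gives `φ ρ = 0` (apply `eval₂ φ x`). Otherwise let `R' := FractionRing R`. `MvPolynomial σ R'` is the localization of `MvPolynomial σ R` at the constants `C a`, `a ≠ 0`
(`MvPolynomial.isLocalization`), so `J.map (MvPolynomial.map (algebraMap R R')) ≠ ⊤`; take a maximal ideal `𝔪` above it. The field `MvPolynomial σ R' ⧸ 𝔪` is finite over `R'` (`finite_of_finite_type_of_isJacobsonRing`) and embeds in `Ω` over `R'` (`IsAlgClosed.lift`, algebra structure `R' → Ω` from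
`IsFractionRing.lift hj`): a common zero over `Ω`, contradiction to `h`. Template: the end of the proof of `exists_avoid` in LibHPF/P5a.lean (steps 3 and 4 of the plan there). -/

theorem spread_unsolvable {R Ω : Type} [CommRing R] [IsDomain R] [Field Ω] [IsAlgClosed Ω]
    (j : R →+* Ω) (hj : Function.Injective j) {σ ι : Type} [Finite σ] (f : ι → MvPolynomial σ R)
    (h : ∀ x : σ → Ω, ∃ i, (f i).eval₂ j x ≠ 0) :
    ∃ ρ : R, ρ ≠ 0 ∧ ∀ (F : Type) [Field F] (φ : R →+* F), φ ρ ≠ 0 →
      ∀ x : σ → F, ∃ i, (f i).eval₂ φ x ≠ 0 := by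
  classical
  let J : Ideal (MvPolynomial σ R) := Ideal.span (Set.range f)
  by_cases hA : ∃ ρ : R, ρ ≠ 0 ∧ (MvPolynomial.C ρ : MvPolynomial σ R) ∈ J
  · obtain ⟨ρ, hρ, hρJ⟩ := hA
    refine ⟨ρ, hρ, ?_⟩
    intro F _ φ hφ x
    by_contra hcon
    push Not at hcon
    apply hφ
    let g : MvPolynomial σ R →+* F := MvPolynomial.eval₂Hom φ x
    have hJ : J ≤ RingHom.ker g := by
      rw [Ideal.span_le]
      rintro _ ⟨i, rfl⟩
      exact hcon i
    have h3 : g (MvPolynomial.C ρ) = 0 := hJ hρJ
    have h4 : g (MvPolynomial.C ρ) = φ ρ := MvPolynomial.eval₂Hom_C φ x ρ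
    rw [← h4, h3]
  · exfalso
    push Not at hA
    let K := FractionRing R
    let : Algebra (MvPolynomial σ R) (MvPolynomial σ K) := MvPolynomial.algebraMvPolynomial
    have : IsLocalization ((nonZeroDivisors R).map (MvPolynomial.C (σ := σ)))
        (MvPolynomial σ K) := MvPolynomial.isLocalization (nonZeroDivisors R) K
    have hne : J.map (algebraMap (MvPolynomial σ R) (MvPolynomial σ K)) ≠ ⊤ := by
      rw [IsLocalization.map_algebraMap_ne_top_iff_disjoint
        ((nonZeroDivisors R).map (MvPolynomial.C (σ := σ)))]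
      rw [Set.disjoint_left]
      rintro _ ⟨ρ, hρ, rfl⟩ hmem
      exact hA ρ (nonZeroDivisors.ne_zero hρ) hmem
    obtain ⟨mm, hmm, hle⟩ := Ideal.exists_le_maximal _ hne
    let : Field (MvPolynomial σ K ⧸ mm) := Ideal.Quotient.field mm
    have : Algebra.FiniteType K (MvPolynomial σ K ⧸ mm) := inferInstance
    have hfin : Module.Finite K (MvPolynomial σ K ⧸ mm) :=
      finite_of_finite_type_of_isJacobsonRing K (MvPolynomial σ K ⧸ mm)
    have : Algebra.IsAlgebraic K (MvPolynomial σ K ⧸ mm) := inferInstance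
    let : Algebra K Ω := (IsFractionRing.lift (A := R) (K := K) hj).toAlgebra
    let ψ : (MvPolynomial σ K ⧸ mm) →ₐ[K] Ω := IsAlgClosed.lift
    let g : MvPolynomial σ R →+* Ω :=
      (ψ : (MvPolynomial σ K ⧸ mm) →+* Ω).comp ((Ideal.Quotient.mk mm).comp
        (algebraMap (MvPolynomial σ R) (MvPolynomial σ K)))
    have hC : g.comp MvPolynomial.C = j := by
      ext x
      have h1 : algebraMap (MvPolynomial σ R) (MvPolynomial σ K) (MvPolynomial.C x) =
          algebraMap K (MvPolynomial σ K) (algebraMap R K x) := by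
        rw [MvPolynomial.algebraMap_def, MvPolynomial.map_C]
        rfl
      have h2 : g (MvPolynomial.C x) = ψ (algebraMap K _ (algebraMap R K x)) := by
        change ψ (Ideal.Quotient.mk mm (algebraMap (MvPolynomial σ R) (MvPolynomial σ K)
          (MvPolynomial.C x))) = _
        rw [h1]
        rfl
      rw [RingHom.comp_apply, h2, AlgHom.commutes]
      exact IsFractionRing.lift_algebraMap hj x
    have hJ : J ≤ RingHom.ker g := by
      intro x hx
      have h1 : algebraMap (MvPolynomial σ R) (MvPolynomial σ K) x ∈ mm :=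
        hle (Ideal.mem_map_of_mem _ hx)
      change ψ (Ideal.Quotient.mk mm (algebraMap (MvPolynomial σ R) (MvPolynomial σ K) x)) = 0
      rw [Ideal.Quotient.eq_zero_iff_mem.mpr h1, map_zero]
    obtain ⟨i, hi⟩ := h fun s => g (MvPolynomial.X s)
    apply hi
    have h5 : g = MvPolynomial.eval₂Hom j fun s => g (MvPolynomial.X s) := by
      apply MvPolynomial.ringHom_ext
      · intro r
        rw [MvPolynomial.eval₂Hom_C]
        exact RingHom.congr_fun hC r
      · intro s
        rw [MvPolynomial.eval₂Hom_X']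
    have h6 : g (f i) = 0 := hJ (Ideal.subset_span ⟨i, rfl⟩)
    rw [h5] at h6
    exact h6

end Pool.Agent.LibHP.CIM
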