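import Pool.Agent.LibCIM.GDefs
import Pool.Agent.LibCIM.G1
import Pool.Agent.LibCIM.A8

set_option autoImplicit false
open MvPolynomial

namespace Pool.Agent.LibHP.CIM

/-! # Row G3 (MEDIUM): the cones at almost all points are smooth

`map_cone`: cases on `o`; `tc_map` (T1) for `MvPolynomial.mapAlgHom φ`; compare `map_cf` (T1).
`spread_smooth`: unknowns `(y, c) : Fin (n+1) ⊕ S.Idx s`. For every `l : Fin (n+1)` and `o1 : S.Idx s` consider the system over `R := kP P`: `rename Sum.inl (cone (pR P) s o)` for all `o`; `∑ o, X (inr o) * rename Sum.inl (pderiv i (cone (pR P) s o))` for all `i`; `X (inl l) - 1`; `X (inr o1) - 1`.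
Over `Ω := AlgebraicClosure K` (`j` = inclusion) it has no solution: `y ≠ 0`, `c ≠ 0`, the gradients at `y` would be dependent, against `hsm` (`map_cone` for `K → AlgebraicClosure K`). `spread_unsolvable` (G1) gives `ρ (l, o1)`; `ρ` := their product. For `φ ρ ≠ 0` (`φ : kP P →ₐ[k] F`): if the cone at `φ ∘ pR P` is not smooth
there are `y ≠ 0` over `AlgebraicClosure F` and `c ≠ 0` with `∑ o, c o * grd .. = 0`; choose `l` with `y l ≠ 0`, `o1` with `c o1 ≠ 0`, scale `y` to `y l = 1` (the equations are homogeneous of degree `coneDeg`: `IsHomogeneous`; the gradient of equation `o` is multiplied by a power of the scalar depending on `o`: divide `c o` by it) and `c` to `c o1 = 1`,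
and apply the conclusion of G1 with the field `AlgebraicClosure F`, `x := Sum.elim y c`. (Homogeneity of the cone: `cone_hom` in B5 or reprove by `cf_hom`.) -/

variable {k : Type} [Field k] {n a e : ℕ} (S : Sys k n a e)

theorem map_cone {R R' : Type} [CommRing R] [Algebra k R] [CommRing R'] [Algebra k R']
    (φ : R →ₐ[k] R') (P : Fin (n + 1) → R) (s : ℕ) (o : S.Idx s) :
    MvPolynomial.map (φ : R →+* R') (S.cone P s o) = S.cone (fun l => φ (P l)) s o := by
  have e1 : ∀ p : MvPolynomial (Fin (n + 1)) R,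
      MvPolynomial.mapAlgHom (σ := Fin (n + 1)) φ p = MvPolynomial.map (φ : R →+* R') p :=
    fun p => rfl
  have e2 : ∀ (G : MvPolynomial (Fin (n + 1)) k) (i : ℕ),
      MvPolynomial.map (φ : R →+* R') (cf G P i) = cf G (fun l => φ (P l)) i := by
    intro G i
    have h := tc_map (MvPolynomial.mapAlgHom (σ := Fin (n + 1)) φ) G
      (fun l => C (P l)) (fun l => X l) i
    simp only [e1, MvPolynomial.map_C, MvPolynomial.map_X] at h
    exact h
  rcases o with _ | (⟨j, i⟩ | i)
  · exact MvPolynomial.map_X _ _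
  · exact e2 _ _
  · exact e2 _ _

private theorem G3_ev {K : Type} [Field K] [Algebra k K] (P : Fin (n + 1) → K) (s : ℕ)
    {F : Type} [Field F] [Algebra k F] (φ : kP (k := k) P →ₐ[k] F)
    (y : Fin (n + 1) → AlgebraicClosure F) (o : S.Idx s) :
    (S.cone (pR (k := k) P) s o).eval₂
      ((algebraMap F (AlgebraicClosure F)).comp (φ : kP (k := k) P →+* F)) y =
      aeval y (S.cone (fun l => φ (pR (k := k) P l)) s o) := by
  rw [← map_cone, aeval_def, eval₂_map]

private theorem G3_ev' {K : Type} [Field K] [Algebra k K] (P : Fin (n + 1) → K) (s : ℕ)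
    {F : Type} [Field F] [Algebra k F] (φ : kP (k := k) P →ₐ[k] F)
    (y : Fin (n + 1) → AlgebraicClosure F) (o : S.Idx s) (i : Fin (n + 1)) :
    (pderiv i (S.cone (pR (k := k) P) s o)).eval₂
      ((algebraMap F (AlgebraicClosure F)).comp (φ : kP (k := k) P →+* F)) y =
      grd (S.cone (fun l => φ (pR (k := k) P l)) s o) y i := by
  unfold grd
  rw [← map_cone, pderiv_map, aeval_def, eval₂_map]

/-- The system for the indices `l`, `o1`. -/
private noncomputable def G3_f {K : Type} [Field K] [Algebra k K] (P : Fin (n + 1) → K) (s : ℕ)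
    (l : Fin (n + 1)) (o1 : S.Idx s) : S.Idx s ⊕ Fin (n + 1) ⊕ Unit →
      MvPolynomial (Option (Fin (n + 1) ⊕ S.Idx s)) (kP (k := k) P)
  | Sum.inl o => rename (fun l => some (Sum.inl l)) (S.cone (pR (k := k) P) s o)
  | Sum.inr (Sum.inl i) => ∑ o, X (some (Sum.inr o)) *
      rename (fun l => some (Sum.inl l)) (pderiv i (S.cone (pR (k := k) P) s o))
  | Sum.inr (Sum.inr _) => X (some (Sum.inl l)) * X (some (Sum.inr o1)) * X none - 1

private theorem G3_smooth {K : Type} [Field K] [Algebra k K] (P : Fin (n + 1) → K) (s : ℕ)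
    {F : Type} [Field F] [Algebra k F] (φ : kP (k := k) P →ₐ[k] F) :
    IsSmoothSys (S.cone (fun l => φ (pR (k := k) P l)) s) ↔
      ∀ (l : Fin (n + 1)) (o1 : S.Idx s)
        (x : Option (Fin (n + 1) ⊕ S.Idx s) → AlgebraicClosure F), ∃ i, (G3_f S P s l o1 i).eval₂
          ((algebraMap F (AlgebraicClosure F)).comp (φ : kP (k := k) P →+* F)) x ≠ 0 := by
  obtain ⟨ψ, hψ⟩ : ∃ ψ, ψ =
    ((algebraMap F (AlgebraicClosure F)).comp (φ : kP (k := k) P →+* F)) := ⟨_, rfl⟩
  rw [← hψ]
  have e1 : ∀ (l : Fin (n + 1)) (o1 : S.Idx s)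
      (x : Option (Fin (n + 1) ⊕ S.Idx s) → AlgebraicClosure F) (o : S.Idx s),
      (G3_f S P s l o1 (Sum.inl o)).eval₂ ψ x =
        aeval (fun l => x (some (Sum.inl l))) (S.cone (fun l => φ (pR (k := k) P l)) s o) := by
    intro l o1 x o
    rw [← G3_ev, ← hψ]
    show (rename _ _).eval₂ ψ x = _
    rw [eval₂_rename]
    rfl
  have e2 : ∀ (l : Fin (n + 1)) (o1 : S.Idx s)
      (x : Option (Fin (n + 1) ⊕ S.Idx s) → AlgebraicClosure F) (i : Fin (n + 1)),
      (G3_f S P s l o1 (Sum.inr (Sum.inl i))).eval₂ ψ x = ∑ o, x (some (Sum.inr o)) *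
        grd (S.cone (fun l => φ (pR (k := k) P l)) s o) (fun l => x (some (Sum.inl l))) i := by
    intro l o1 x i
    show (∑ o, X (some (Sum.inr o)) * rename (fun l => some (Sum.inl l))
      (pderiv i (S.cone (pR (k := k) P) s o))).eval₂ ψ x = _
    rw [eval₂_sum]
    refine Finset.sum_congr rfl fun o _ => ?_
    rw [eval₂_mul, eval₂_X, eval₂_rename, ← G3_ev', ← hψ]
    rfl
  have e3 : ∀ (l : Fin (n + 1)) (o1 : S.Idx s)
      (x : Option (Fin (n + 1) ⊕ S.Idx s) → AlgebraicClosure F) (u : Unit),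
      (G3_f S P s l o1 (Sum.inr (Sum.inr u))).eval₂ ψ x =
        x (some (Sum.inl l)) * x (some (Sum.inr o1)) * x none - 1 := by
    intro l o1 x u
    show (X (some (Sum.inl l)) * X (some (Sum.inr o1)) * X none - 1 :
      MvPolynomial (Option (Fin (n + 1) ⊕ S.Idx s)) (kP (k := k) P)).eval₂ ψ x = _
    rw [eval₂_sub, eval₂_mul, eval₂_mul, eval₂_X, eval₂_X, eval₂_X, eval₂_one]
  constructor
  · intro hs l o1 x
    by_contra hcon
    push Not at hcon
    have h3 := hcon (Sum.inr (Sum.inr ()))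
    rw [e3, sub_eq_zero] at h3
    have hy0 : (fun l => x (some (Sum.inl l))) ≠ 0 := by
      intro h0
      have h4 := congrFun h0 l
      rw [Pi.zero_apply] at h4
      rw [h4, zero_mul, zero_mul] at h3
      exact zero_ne_one h3
    have h5 := hs (fun l => x (some (Sum.inl l))) hy0 (fun o => by
      rw [← e1 l o1 x o]; exact hcon _)
    have h6 := Fintype.linearIndependent_iff.1 h5 (fun o => x (some (Sum.inr o))) (by
      funext i
      rw [Finset.sum_apply]
      have h7 := hcon (Sum.inr (Sum.inl i))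
      rw [e2] at h7
      exact h7) o1
    rw [h6, mul_zero, zero_mul] at h3
    exact zero_ne_one h3
  · intro hs y hy0 hy
    by_contra hdep
    rw [Fintype.not_linearIndependent_iff] at hdep
    obtain ⟨c, hc, o1, ho1⟩ := hdep
    obtain ⟨l, hl⟩ : ∃ l, y l ≠ 0 := Function.ne_iff.1 hy0
    obtain ⟨i, hi⟩ := hs l o1 (fun o => o.elim ((y l * c o1)⁻¹) (Sum.elim y c))
    apply hi
    rcases i with o | i | u
    · rw [e1]; exact hy o
    · rw [e2]
      have h3 := congrFun hc i
      rw [Finset.sum_apply] at h3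
      exact h3
    · rw [e3]
      show y l * c o1 * (y l * c o1)⁻¹ - 1 = 0
      rw [mul_inv_cancel₀ (mul_ne_zero hl ho1), sub_self]

theorem spread_smooth {K : Type} [Field K] [Algebra k K] (P : Fin (n + 1) → K) (s : ℕ)
    (hsm : IsSmoothSys (S.cone P s)) :
    ∃ ρ : kP (k := k) P, ρ ≠ 0 ∧ ∀ (F : Type) [Field F] [Algebra k F] (φ : kP (k := k) P →ₐ[k] F),
      φ ρ ≠ 0 → IsSmoothSys (S.cone (fun l => φ (pR P l)) s) := by
  have h0 := (G3_smooth S P s (F := K) (kP (k := k) P).val).1 hsm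
  have hj : Function.Injective ((algebraMap K (AlgebraicClosure K)).comp
      ((kP (k := k) P).val : kP (k := k) P →+* K)) := by
    intro a b hab
    exact Subtype.ext ((algebraMap K (AlgebraicClosure K)).injective hab)
  have h1 : ∀ (l : Fin (n + 1)) (o1 : S.Idx s), ∃ ρ : kP (k := k) P, ρ ≠ 0 ∧
      ∀ (F : Type) [Field F] (φ : kP (k := k) P →+* F), φ ρ ≠ 0 →
        ∀ x : Option (Fin (n + 1) ⊕ S.Idx s) → F, ∃ i, (G3_f S P s l o1 i).eval₂ φ x ≠ 0 :=
    fun l o1 => spread_unsolvable _ hj (G3_f S P s l o1) (h0 l o1)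
  choose ρ hρ0 hρ using h1
  refine ⟨∏ l, ∏ o, ρ l o, ?_, ?_⟩
  · exact Finset.prod_ne_zero_iff.2 fun l _ => Finset.prod_ne_zero_iff.2 fun o _ => hρ0 l o
  · intro F _ _ φ hφ
    rw [G3_smooth S P s φ]
    intro l o1 x
    refine hρ l o1 (AlgebraicClosure F) _ ?_ x
    rw [map_prod, Finset.prod_ne_zero_iff] at hφ
    have h2 := hφ l (Finset.mem_univ _)
    rw [map_prod, Finset.prod_ne_zero_iff] at h2
    have h3 := h2 o1 (Finset.mem_univ _)
    intro h4
    apply h3
    have h5 : algebraMap F (AlgebraicClosure F) (φ (ρ l o1)) = 0 := h4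
    exact (map_eq_zero _).1 h5

end Pool.Agent.LibHP.CIM
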