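import Pool.Agent.LibCIM.GDefs
import Pool.Agent.LibCIM.A8
import Pool.Agent.LibCIM.B5

set_option autoImplicit false
open MvPolynomial

namespace Pool.Agent.LibHP.CIM

/-! # Row G4 (SHORT/MEDIUM): the next coefficient is not in the ideal of a smooth cone

Template: `cf_notMem` / `B5_notMem` in B5.lean. The `Σ dg + s + 2 ≤ n` forms `cone P (s + 1)` in `n + 1` variables have a nonzero common zero `y` over `AlgebraicClosure F` (as there). If `cf S.F P (s + 1) = ∑ A_o * cone P s o` then its gradient at `y` is `∑ A_o(y) *` (gradients of the others) (Leibniz, all of them vanish at `y`):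
but the gradients of `cone P (s + 1)` at `y` are independent. -/

theorem cf_notMem_of_smooth {k : Type} [Field k] {n a e : ℕ} (S : Sys k n a e) {F : Type} [Field F]
    [Algebra k F] (P : Fin (n + 1) → F) (s : ℕ) (hsm : IsSmoothSys (S.cone P (s + 1)))
    (hn : ∑ j, S.dg j + s + 2 ≤ n) : cf S.F P (s + 1) ∉ S.JJ P s := by
  intro hmem
  -- a nonzero zero of the larger system
  obtain ⟨y, hy, hzero⟩ : ∃ y : Fin (n + 1) → (AlgebraicClosure F), y ≠ 0 ∧ ∀ o, aeval y (S.cone P (s + 1) o) = 0 := by
    have hcard : Fintype.card (S.Idx (s + 1)) = ∑ j, S.dg j + s + 2 := by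
      rw [S.card_cone]
      omega
    let eq := (Fintype.equivFinOfCardEq hcard).symm
    obtain ⟨y, hy, -, hz⟩ := exists_common_zero (AlgebraicClosure F) (Fin (n + 1)) (AlgebraicClosure F)
      (FractionRing (MvPolynomial (Fin (n + 1)) (AlgebraicClosure F)))
      (fun l => algebraMap (MvPolynomial (Fin (n + 1)) (AlgebraicClosure F)) (FractionRing (MvPolynomial (Fin (n + 1)) (AlgebraicClosure F))) (X l))
      (by
        intro G hG d
        have h0 : (aeval (fun l => algebraMap (MvPolynomial (Fin (n + 1)) (AlgebraicClosure F))
            (FractionRing (MvPolynomial (Fin (n + 1)) (AlgebraicClosure F))) (X l)) : MvPolynomial (Fin (n + 1)) (AlgebraicClosure F) →ₐ[(AlgebraicClosure F)] _) =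
            IsScalarTower.toAlgHom (AlgebraicClosure F) (MvPolynomial (Fin (n + 1)) (AlgebraicClosure F))
              (FractionRing (MvPolynomial (Fin (n + 1)) (AlgebraicClosure F))) := by
          apply MvPolynomial.algHom_ext
          intro l
          rw [aeval_X]
          rfl
        have h1 : aeval (fun l => algebraMap (MvPolynomial (Fin (n + 1)) (AlgebraicClosure F))
            (FractionRing (MvPolynomial (Fin (n + 1)) (AlgebraicClosure F))) (X l)) G =
            algebraMap (MvPolynomial (Fin (n + 1)) (AlgebraicClosure F)) (FractionRing (MvPolynomial (Fin (n + 1)) (AlgebraicClosure F))) G := by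
          rw [h0]
          rfl
        rw [h1] at hG
        have h2 : G = 0 := by
          rw [map_eq_zero_iff _ (IsFractionRing.injective _ _)] at hG
          exact hG
        rw [h2, map_zero, map_zero])
      (∑ j, S.dg j + s + 2) (fun i => X (Fin.castLE (by omega) i))
      (by
        have h1 : AlgebraicIndependent (AlgebraicClosure F) (fun l : Fin (n + 1) => algebraMap (MvPolynomial (Fin (n + 1)) (AlgebraicClosure F))
            (FractionRing (MvPolynomial (Fin (n + 1)) (AlgebraicClosure F))) (X l)) := by
          have h2 := MvPolynomial.algebraicIndependent_X (Fin (n + 1)) (AlgebraicClosure F)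
          exact h2.map' (f := IsScalarTower.toAlgHom (AlgebraicClosure F) (MvPolynomial (Fin (n + 1)) (AlgebraicClosure F))
            (FractionRing (MvPolynomial (Fin (n + 1)) (AlgebraicClosure F)))) (IsFractionRing.injective _ _)
        have h3 := h1.comp (Fin.castLE (by omega : ∑ j, S.dg j + s + 2 + 1 ≤ n + 1)) (Fin.castLE_injective _)
        simp only [aeval_X]
        exact h3)
      (fun i => extSys (AlgebraicClosure F) (S.cone P (s + 1)) (eq i)) (fun i => S.coneDeg (s + 1) (eq i))
      (fun i => S.coneDeg_pos (s + 1) _)
      (fun i => (cone_hom S P (s + 1) (eq i)).map (algebraMap F (AlgebraicClosure F)))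
    refine ⟨y, hy, fun o => ?_⟩
    have h1 := hz (eq.symm o)
    rw [Equiv.apply_symm_apply] at h1
    unfold extSys at h1
    rw [eval_map] at h1
    exact h1
  have hind := hsm y hy hzero
  -- the gradient of the last form is in the span of the others
  have key : ∀ G ∈ S.JJ P s, aeval y G = 0 ∧ grd G y ∈ Submodule.span (AlgebraicClosure F)
      ((fun o => grd (S.cone P (s + 1) o) y) '' {o | o ≠ some (Sum.inr (Fin.last s))}) := by
    intro G hG
    unfold Sys.JJ at hG
    induction hG using Submodule.span_induction with
    | mem g hg =>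
      obtain ⟨o, rfl⟩ := hg
      obtain ⟨o', ho', hoo⟩ : ∃ o', o' ≠ some (Sum.inr (Fin.last s)) ∧
          S.cone P (s + 1) o' = S.cone P s o := by
        rcases o with _ | (⟨j, i⟩ | i)
        · exact ⟨none, by simp, rfl⟩
        · exact ⟨some (Sum.inl ⟨j, i⟩), by simp, rfl⟩
        · refine ⟨some (Sum.inr i.castSucc), ?_, rfl⟩
          intro h1
          rw [Option.some.injEq, Sum.inr.injEq] at h1
          exact absurd h1 (Fin.castSucc_lt_last i).ne
      rw [← hoo]
      exact ⟨hzero o', Submodule.subset_span ⟨o', ho', rfl⟩⟩
    | zero =>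
      refine ⟨map_zero _, ?_⟩
      have h1 : grd (0 : MvPolynomial (Fin (n + 1)) F) y = 0 := by
        funext l
        show aeval y (pderiv l 0) = 0
        rw [map_zero, map_zero]
      rw [h1]
      exact Submodule.zero_mem _
    | add g g' _ _ hg hg' =>
      refine ⟨by rw [map_add, hg.1, hg'.1, add_zero], ?_⟩
      have h1 : grd (g + g') y = grd g y + grd g' y := by
        funext l
        show aeval y (pderiv l (g + g')) = aeval y (pderiv l g) + aeval y (pderiv l g')
        rw [map_add, map_add]
      rw [h1]
      exact Submodule.add_mem _ hg.2 hg'.2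
    | smul c g _ hg =>
      refine ⟨by rw [smul_eq_mul, map_mul, hg.1, mul_zero], ?_⟩
      have h1 : grd (c • g) y = aeval y c • grd g y := by
        funext l
        show aeval y (pderiv l (c • g)) = aeval y c * aeval y (pderiv l g)
        rw [smul_eq_mul, Derivation.leibniz, smul_eq_mul, smul_eq_mul, map_add, map_mul, map_mul,
          hg.1, zero_mul, add_zero]
      rw [h1]
      exact Submodule.smul_mem _ _ hg.2
  have h1 := (key _ hmem).2
  have h2 := hind.notMem_span_image (s := {o | o ≠ some (Sum.inr (Fin.last s))})
    (x := some (Sum.inr (Fin.last s))) (fun h => h rfl)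
  exact h2 h1

end Pool.Agent.LibHP.CIM
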