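import Pool.Agent.LibCIM.G0
import Pool.Agent.LibCIM.G3
import Pool.Agent.LibCIM.G4

set_option autoImplicit false
open MvPolynomial

namespace Pool.Agent.LibHP.CIM

/-! # Row G10 (SHORT/MEDIUM): good points

`smooth_form`: `cone_smooth` (B5) for the generic `P`, `spread_smooth` (G3) gives `ρ`, `exists_form` (G0) the form `G`; for a point `P₀` over `F` with first coordinate `1` on the complete intersection `exists_spec` (G0) gives `φ : kP P →ₐ[k] F` with `φ (pR P l) = P₀ l`, and `aeval P₀ G = φ ρ`.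
`good_form`: the product of the forms for `s = e - 2, e - 1, e` (`II` is prime: it is the set of the `G` all of whose ... use `IsPt`: for forms, `aeval P (G G') = aeval P G * aeval P G' ≠ 0`); `prime_of_smoothSys` (A9) for the cones (`card_cone`, `coneDeg_pos`, `cone_hom`), `cf_notMem_of_smooth` (G4) with `s + 1 = e`. -/

variable {k : Type} [Field k] [CharZero k] {n a e : ℕ} (S : Sys k n a e)

/-- the cones at the points outside of a form are smooth -/
theorem smooth_form (hS : S.Good) {K : Type} [Field K] [Algebra k K] (P : Fin (n + 1) → K)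
    (hP : S.IsPt P) (s : ℕ) (hse : s ≤ e) (hs1 : 1 ≤ s ∨ IsSmoothSys S.Q) :
    ∃ (d : ℕ) (G : MvPolynomial (Fin (n + 1)) k), G.IsHomogeneous d ∧ G ∉ S.II ∧
      ∀ (F : Type) [Field F] [Algebra k F] (P₀ : Fin (n + 1) → F), P₀ 0 = 1 →
        (∀ o, aeval P₀ (S.fam o) = 0) → aeval P₀ G ≠ 0 → IsSmoothSys (S.cone P₀ s) := by
  obtain ⟨ρ, hρ, hφ⟩ := spread_smooth S P s (cone_smooth S hS P hP s hse hs1)
  obtain ⟨d, G, hGh, hGn, hG⟩ := exists_form S P hP ρ hρ
  refine ⟨d, G, hGh, hGn, ?_⟩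
  intro F _ _ P₀ h0 hx hne
  obtain ⟨φ, hφ'⟩ := exists_spec S P hP P₀ h0 hx
  have h1 : (fun l => φ (pR P l)) = P₀ := funext hφ'
  have h2 := hG F φ
  rw [h1] at h2
  have h3 := hφ F φ (by rw [← h2]; exact hne)
  rwa [h1] at h3

/-- the good points -/
theorem good_form (hS : S.Good) (hn : ∑ j, S.dg j + e + 1 ≤ n) {K : Type} [Field K] [Algebra k K]
    (P : Fin (n + 1) → K) (hP : S.IsPt P) :
    ∃ (d : ℕ) (G : MvPolynomial (Fin (n + 1)) k), G.IsHomogeneous d ∧ G ∉ S.II ∧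
      ∀ (F : Type) [Field F] [Algebra k F] (P₀ : Fin (n + 1) → F), P₀ 0 = 1 →
        (∀ o, aeval P₀ (S.fam o) = 0) → aeval P₀ G ≠ 0 →
        IsSmoothSys (S.cone P₀ (e - 2)) ∧ (S.JJ P₀ (e - 2)).IsPrime ∧ (S.JJ P₀ (e - 1)).IsPrime ∧
          cf S.F P₀ e ∉ S.JJ P₀ (e - 1) := by
  have he : 2 ≤ e := hS.2.1
  obtain ⟨d1, G1, h1h, h1n, h1⟩ := smooth_form S hS P hP (e - 2) (by omega)
    (hS.2.2.2.imp (fun h => by omega) id)
  obtain ⟨d2, G2, h2h, h2n, h2⟩ := smooth_form S hS P hP (e - 1) (by omega) (Or.inl (by omega))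
  obtain ⟨d3, G3, h3h, h3n, h3⟩ := smooth_form S hS P hP e le_rfl (Or.inl (by omega))
  have hne : ∀ {d : ℕ} {G : MvPolynomial (Fin (n + 1)) k}, G.IsHomogeneous d → G ∉ S.II →
      aeval P G ≠ 0 := fun hG hGn h0 => hGn ((hP.2 _ _ hG).1 h0)
  refine ⟨d1 + d2 + d3, G1 * G2 * G3, (h1h.mul h2h).mul h3h, ?_, ?_⟩
  · intro hmem
    have h4 := (hP.2 _ _ ((h1h.mul h2h).mul h3h)).2 hmem
    rw [map_mul, map_mul] at h4
    exact mul_ne_zero (mul_ne_zero (hne h1h h1n) (hne h2h h2n)) (hne h3h h3n) h4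
  · intro F _ _ P₀ h0 hx hP0
    rw [map_mul, map_mul] at hP0
    have k3 : aeval P₀ G3 ≠ 0 := right_ne_zero_of_mul hP0
    have k2 : aeval P₀ G2 ≠ 0 := right_ne_zero_of_mul (left_ne_zero_of_mul hP0)
    have k1 : aeval P₀ G1 ≠ 0 := left_ne_zero_of_mul (left_ne_zero_of_mul hP0)
    have s1 := h1 F P₀ h0 hx k1
    have s2 := h2 F P₀ h0 hx k2
    have s3 := h3 F P₀ h0 hx k3
    have hc : CharZero F := charZero_of_injective_algebraMap (algebraMap k F).injective
    have hpr : ∀ s : ℕ, s + 1 ≤ e → IsSmoothSys (S.cone P₀ s) → (S.JJ P₀ s).IsPrime := by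
      intro s hs hsm
      refine prime_of_smoothSys (S.cone P₀ s) (S.coneDeg s) (S.coneDeg_pos s)
        (cone_hom S P₀ s) hsm ?_
      rw [S.card_cone]
      omega
    refine ⟨s1, hpr _ (by omega) s1, hpr _ (by omega) s2, ?_⟩
    have he1 : e - 1 + 1 = e := by omega
    have h4 := cf_notMem_of_smooth S P₀ (e - 1) (by rw [he1]; exact s3) (by omega)
    rw [he1] at h4
    exact h4

end Pool.Agent.LibHP.CIM
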