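import Pool.Agent.LibCIM.GDefs
import Pool.Agent.LibCIM.B5

set_option autoImplicit false
open MvPolynomial

namespace Pool.Agent.LibHP.CIM

/-! # Row G9 (MEDIUM): the residual point at a point over `k`

`res P l = cf e * C (P l) - cf (e-1) * X l` (unfold). `res_hom`: `cf_hom` (degrees `e` and `(e - 1) + 1`), `IsHomogeneous` of `aeval` of forms at forms of degree `e` (`IsHomogeneous.aeval`/`eval₂`, or sums of products: `IsHomogeneous.sum`, `.prod`).
`map_res`: `resid_map` (T3) for `MvPolynomial.mapAlgHom φ`. `aeval_res`: `aeval v : MvPolynomial (Fin (n+1)) R →ₐ[R] R''`, restricted to `k`, and `resid_map`.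
`res_ne`: `r := S.resid P' y`, `x l = r l / r 0`, `r 0 = c_e` (as `y 0 = 0`: `X 0 ∈ JJ P (e-2)`). First part: `cf e ∉ JJ (e-1) ⊇ JJ (e-2)` (the cone for `e - 1` contains the equations for `e - 2`; `cf e` is a form, `hy`). `res P l ≡ cf e * C (P l)` modulo `cf (e-1)`, so `aeval (res P) D ≡ (cf e)^m * C (aeval P D)` modulo `cf (e-1)` (`D` homogeneous of degree `m`).
If `aeval r D = 0` then the form `aeval (res P) D` (`res_hom`, `aeval_res`) is in `JJ P (e - 2)` (`hy`), so in `JJ P (e - 1)`, which contains `cf (e - 1)` (`e ≥ 2`), so it contains `(cf e)^m * C (aeval P D)`: prime, `cf e ∉` it, so `C (aeval P D) ∈` it, so `aeval P D = 0` (a prime ideal is `≠ ⊤`). -/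

variable {k : Type} [Field k] {n a e : ℕ} (S : Sys k n a e)

theorem res_hom {R : Type} [CommRing R] [Algebra k R] (P : Fin (n + 1) → R) (he : 1 ≤ e) {m : ℕ}
    {G : MvPolynomial (Fin (n + 1)) k} (hG : G.IsHomogeneous m) :
    (aeval (S.res P) G).IsHomogeneous (e * m) := by
  refine hG.aeval (S.res P) (n := e) fun l => ?_
  show (cf S.F P e * C (P l) - cf S.F P (e - 1) * X l : MvPolynomial (Fin (n + 1)) R).IsHomogeneous e
  have h1 : (cf S.F P e * C (P l) : MvPolynomial (Fin (n + 1)) R).IsHomogeneous e := by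
    have h := (cf_hom S.F P e).mul (isHomogeneous_C (Fin (n + 1)) (P l))
    rwa [add_zero] at h
  have h2 : (cf S.F P (e - 1) * X l : MvPolynomial (Fin (n + 1)) R).IsHomogeneous e := by
    have h := (cf_hom S.F P (e - 1)).mul (isHomogeneous_X R l)
    rwa [Nat.sub_add_cancel he] at h
  exact h1.sub h2

theorem map_res {R R' : Type} [CommRing R] [Algebra k R] [CommRing R'] [Algebra k R']
    (φ : R →ₐ[k] R') (P : Fin (n + 1) → R) (G : MvPolynomial (Fin (n + 1)) k) :
    MvPolynomial.map (φ : R →+* R') (aeval (S.res P) G) = aeval (S.res fun l => φ (P l)) G := by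
  have e1 : ∀ p : MvPolynomial (Fin (n + 1)) R,
      MvPolynomial.mapAlgHom (σ := Fin (n + 1)) φ p = MvPolynomial.map (φ : R →+* R') p :=
    fun p => rfl
  rw [← e1, ← AlgHom.comp_apply, comp_aeval]
  congr 1
  congr 1
  funext l
  show MvPolynomial.mapAlgHom (σ := Fin (n + 1)) φ
    (S.resid (fun l => C (P l)) (fun l => X l) l) = S.resid (fun l => C (φ (P l))) (fun l => X l) l
  rw [resid_map]
  congr 1
  · funext l'
    rw [e1, map_C]
    rfl
  · funext l'
    rw [e1, map_X]

theorem aeval_res {R R'' : Type} [CommRing R] [Algebra k R] [CommRing R''] [Algebra k R''] [Algebra R R'']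
    [IsScalarTower k R R''] (P : Fin (n + 1) → R) (v : Fin (n + 1) → R'')
    (G : MvPolynomial (Fin (n + 1)) k) :
    aeval v (aeval (S.res P) G) = aeval (S.resid (fun l => algebraMap R R'' (P l)) v) G := by
  rw [← AlgHom.restrictScalars_apply k (aeval v), ← AlgHom.comp_apply, comp_aeval]
  congr 1
  congr 1
  funext l
  show ((aeval v : MvPolynomial (Fin (n + 1)) R →ₐ[R] R'').restrictScalars k)
    (S.resid (fun l => C (P l)) (fun l => X l) l) = _
  rw [resid_map]
  congr 1
  · funext l'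
    rw [AlgHom.restrictScalars_apply, aeval_C]
  · funext l'
    rw [AlgHom.restrictScalars_apply, aeval_X]

private theorem G9_scale {R : Type} [CommRing R] [Algebra k R] {G : MvPolynomial (Fin (n + 1)) k}
    {d : ℕ} (hG : G.IsHomogeneous d) (P : Fin (n + 1) → R) (α : R) :
    aeval (fun l => α * P l) G = α ^ d * aeval P G := by
  have h := aeval_comb hG P 0 α 0
  have e1 : α • P + (0 : R) • (0 : Fin (n + 1) → R) = fun l => α * P l := by
    funext l
    simp
  rw [e1] at h
  rw [h, Finset.sum_range_succ', Finset.sum_eq_zero]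
  · rw [tc_zero, zero_add, pow_zero, mul_one, Nat.sub_zero]
  · intro i _
    rw [pow_succ, mul_zero, mul_zero, zero_mul]

/-- a form which does not vanish at `P` does not vanish at the residual point of a generic contact line -/
theorem res_ne {κ : Type} [Field κ] [Algebra k κ] (he : 2 ≤ e) (P : Fin (n + 1) → k)
    (hprime : (S.JJ P (e - 1)).IsPrime) (hce : cf S.F P e ∉ S.JJ P (e - 1)) (y : Fin (n + 1) → κ)
    (hy : ∀ (d : ℕ) (G : MvPolynomial (Fin (n + 1)) k), G.IsHomogeneous d →
      (aeval y G = 0 ↔ G ∈ S.JJ P (e - 2))) (m : ℕ)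
    (D : MvPolynomial (Fin (n + 1)) k) (hD : D.IsHomogeneous m) (hDP : aeval P D ≠ 0) :
    aeval (S.resid (fun l => algebraMap k κ (P l)) y) D ≠ 0 := by
  intro h0
  have h1 : aeval y (aeval (S.res P) D) = 0 := by
    rw [aeval_res]
    exact h0
  have h2 : aeval (S.res P) D ∈ S.JJ P (e - 2) :=
    (hy (e * m) _ (res_hom S P (by omega) hD)).1 h1
  have hle : S.JJ P (e - 2) ≤ S.JJ P (e - 1) := by
    unfold Sys.JJ
    rw [Ideal.span_le]
    rintro _ ⟨o, rfl⟩
    rcases o with _ | (⟨j, i⟩ | i)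
    · exact Ideal.subset_span ⟨none, rfl⟩
    · exact Ideal.subset_span ⟨some (Sum.inl ⟨j, i⟩), rfl⟩
    · exact Ideal.subset_span ⟨some (Sum.inr ⟨i.val, by omega⟩), rfl⟩
  have hcm : cf S.F P (e - 1) ∈ S.JJ P (e - 1) := by
    have h : S.cone P (e - 1) (some (Sum.inr ⟨e - 2, by omega⟩)) ∈ S.JJ P (e - 1) :=
      Ideal.subset_span ⟨_, rfl⟩
    have h3 : S.cone P (e - 1) (some (Sum.inr ⟨e - 2, by omega⟩)) = cf S.F P (e - 1) := by
      show cf S.F P (e - 2 + 1) = _
      congr 1
      omega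
    rwa [h3] at h
  have h3 : aeval (S.res P) D ∈ S.JJ P (e - 1) := hle h2
  let q : MvPolynomial (Fin (n + 1)) k →ₐ[k] MvPolynomial (Fin (n + 1)) k ⧸ S.JJ P (e - 1) :=
    Ideal.Quotient.mkₐ k (S.JJ P (e - 1))
  have hq0 : ∀ x, q x = 0 ↔ x ∈ S.JJ P (e - 1) := fun x => Ideal.Quotient.eq_zero_iff_mem
  have h4 : q (aeval (S.res P) D) = q ((cf S.F P e) ^ m * C (aeval P D)) := by
    have h5 : ∀ l, q (S.res P l) = q (cf S.F P e) * q (C (P l)) := by
      intro l
      show q (cf S.F P e * C (P l) - cf S.F P (e - 1) * X l) = _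
      rw [map_sub, map_mul, map_mul, (hq0 _).2 hcm, zero_mul, sub_zero]
    rw [← AlgHom.comp_apply, comp_aeval, map_mul, map_pow]
    have h6 : aeval (fun i => q (S.res P i)) D = aeval (fun l => q (cf S.F P e) * q (C (P l))) D := by
      congr 1
      congr 1
      funext l
      exact h5 l
    have h7 : aeval (fun l => q (C (P l))) D = q (C (aeval P D)) := by
      have h8 := MvPolynomial.aeval_algebraMap_apply
        (MvPolynomial (Fin (n + 1)) k ⧸ S.JJ P (e - 1)) P D
      exact h8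
    exact h6.trans ((G9_scale hD (fun l => q (C (P l))) (q (cf S.F P e))).trans (by rw [h7]))
  rw [(hq0 _).2 h3] at h4
  have h9 : (cf S.F P e) ^ m * C (aeval P D) ∈ S.JJ P (e - 1) := (hq0 _).1 h4.symm
  rcases hprime.mem_or_mem h9 with h | h
  · exact hce (hprime.mem_of_pow_mem m h)
  · apply hprime.ne_top
    rw [Ideal.eq_top_iff_one]
    have h10 : (1 : MvPolynomial (Fin (n + 1)) k) = C ((aeval P D)⁻¹) * C (aeval P D) := by
      rw [← C_mul, inv_mul_cancel₀ hDP, C_1]
    rw [h10]
    exact Ideal.mul_mem_left _ _ h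

end Pool.Agent.LibHP.CIM
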