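import Pool.Agent.LibCIM.G6
import Pool.Agent.LibCIM.G9
import Pool.Agent.LibCIM.G10

set_option autoImplicit false
open MvPolynomial

namespace Pool.Agent.LibHP.CIM

/-! # Row G11 (MEDIUM/STRONG): polynomials without roots in the generic fibre have no roots modulo the ideals of the special fibres

`W_{P}(U) := U ^ d + ∑ i, G_i(res) D(res)^(d-1-i) U ^ i`, `G_i(res) = aeval (S.res P) (G i)`. Over `R := kP P` put `c i := aeval (S.res (pR P)) (G i) * aeval (S.res (pR P)) D ^ (d - 1 - i)`, homogeneous of degree `(e m) (d - i)` (`res_hom`), `g := S.cone (pR P) (e - 2)` (`cone_hom`, degrees `coneDeg`), `j : R → Kb`. Hypothesis of `spread_root` (G6; `M := e * m`): if `W(U) ∈ JJ Pb (e-2)` for some `U` over `Kb` (`map_res`,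
`map_cone`) then `u := aeval v U` satisfies `u ^ d + ∑ G_i(r) D(r)^(d-1-i) u ^ i = 0` in `Eb`, `r := S.resid P' v` (`hv`, `aeval_res`), `D(r) = r_0 ^ m D(σ P) = r_0 ^ m σ (D(P)) ≠ 0` (`hσ`, `h0`, `D` form, `D ∉ II`), `G_i(r) / D(r) = σ (c i)`. So `z := u / D(r)` is a root of `z ^ d + ∑ σ (c i) z ^ i`: excluded by `hroot`. `spread_root` gives `ρ ∈ kP P`, `exists_form` the form `H`; for `P₀` over `k`: `exists_spec` gives
`φ : kP P → k` with `φ (pR P l) = P₀ l`; `map_cone`, `map_res` along `φ`. -/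

private theorem g11_smul {k σ E : Type} [Field k] [CommRing E] [Algebra k E]
    {F : MvPolynomial σ k} {D : ℕ} (hF : F.IsHomogeneous D) (c : E) (y : σ → E) :
    aeval (fun j => c * y j) F = c ^ D * aeval y F := by
  rw [aeval_def, aeval_def, eval₂_eq, eval₂_eq, Finset.mul_sum]
  refine Finset.sum_congr rfl fun d hd => ?_
  have hdeg : ∑ i ∈ d.support, d i = D := by
    by_contra hne
    exact (MvPolynomial.mem_support_iff.1 hd) (hF.coeff_eq_zero hne)
  have h1 : ∏ i ∈ d.support, (c * y i) ^ d i = c ^ D * ∏ i ∈ d.support, y i ^ d i := by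
    rw [← hdeg, ← Finset.prod_pow_eq_pow_sum, ← Finset.prod_mul_distrib]
    exact Finset.prod_congr rfl fun i _ => mul_pow _ _ _
  rw [h1]
  ring

/-- helper: the equation over `E` -/
private theorem g11_alg {E : Type} [Field E] {d : ℕ} (s : Fin d → E) (u D : E) (hD : D ≠ 0)
    (h : u ^ d + ∑ i : Fin d, (s i * D) * D ^ (d - 1 - i.val) * u ^ i.val = 0) :
    (u / D) ^ d + ∑ i : Fin d, s i * (u / D) ^ i.val = 0 := by
  have h1 : D ^ d * ((u / D) ^ d + ∑ i : Fin d, s i * (u / D) ^ i.val) = 0 := by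
    rw [← h, mul_add, Finset.mul_sum]
    congr 1
    · rw [← mul_pow, mul_div_cancel₀ _ hD]
    · refine Finset.sum_congr rfl fun i _ => ?_
      have h2 : D ^ d = D * D ^ (d - 1 - i.val) * D ^ i.val := by
        rw [← pow_succ', ← pow_add]
        congr 1
        have := i.isLt
        omega
      rw [h2]
      have h3 : D ^ i.val * (u / D) ^ i.val = u ^ i.val := by
        rw [← mul_pow, mul_div_cancel₀ _ hD]
      rw [← h3]
      ring
  exact (mul_eq_zero.1 h1).resolve_left (pow_ne_zero _ hD)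

theorem no_root_special {k : Type} [Field k] [CharZero k] {n a e : ℕ} (S : Sys k n a e)
    (hS : S.Good) {K : Type} [Field K] [Algebra k K]
    (P : Fin (n + 1) → K) (hP : S.IsPt P) {Kb : Type} [Field Kb]
    [IsAlgClosed Kb] [Algebra k Kb] [Algebra K Kb] [IsScalarTower k K Kb]
    {Eb : Type} [Field Eb] [Algebra k Eb] [Algebra Kb Eb]
    [IsScalarTower k Kb Eb] (v : Fin (n + 1) → Eb)
    (hv : IsGen (S.JJ (fun l => algebraMap K Kb (P l)) (e - 2)) v)
    (σ : K →ₐ[k] Eb)
    (hσ : ∀ j, σ (P j) * S.resid (fun l => algebraMap Kb Eb (algebraMap K Kb (P l))) v 0 =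
      S.resid (fun l => algebraMap Kb Eb (algebraMap K Kb (P l))) v j)
    (h0 : S.resid (fun l => algebraMap Kb Eb (algebraMap K Kb (P l))) v 0 ≠ 0)
    (m d : ℕ) (D : MvPolynomial (Fin (n + 1)) k) (hD : D.IsHomogeneous m) (hDI : D ∉ S.II)
    (G : Fin d → MvPolynomial (Fin (n + 1)) k) (hG : ∀ i, (G i).IsHomogeneous m) (c : Fin d → K)
    (hc : ∀ i, c i * aeval P D = aeval P (G i))
    (hroot : ∀ z : Eb, z ^ d + ∑ i : Fin d, σ (c i) * z ^ i.val ≠ 0) :
    ∃ (d' : ℕ) (H : MvPolynomial (Fin (n + 1)) k), H.IsHomogeneous d' ∧ H ∉ S.II ∧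
      ∀ P₀ : Fin (n + 1) → k, P₀ 0 = 1 → (∀ o, aeval P₀ (S.fam o) = 0) → aeval P₀ H ≠ 0 →
        (S.JJ P₀ (e - 2)).IsPrime → ∀ U : MvPolynomial (Fin (n + 1)) k,
          U ^ d + ∑ i : Fin d, aeval (S.res P₀) (G i) * aeval (S.res P₀) D ^ (d - 1 - i.val) *
            U ^ i.val ∉ S.JJ P₀ (e - 2) := by
  classical
  have he : 1 ≤ e := le_trans (by norm_num) hS.2.1
  let φb : kP (k := k) P →ₐ[k] Kb := (IsScalarTower.toAlgHom k K Kb).comp (Subalgebra.val _)
  have hφb : ∀ l, φb (pR P l) = algebraMap K Kb (P l) := fun l => rfl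
  have hφinj : Function.Injective (φb : kP (k := k) P →+* Kb) := by
    intro x y hxy
    exact Subtype.ext ((algebraMap K Kb).injective hxy)
  let cc : Fin d → MvPolynomial (Fin (n + 1)) (kP (k := k) P) := fun i =>
    aeval (S.res (pR P)) (G i) * aeval (S.res (pR P)) D ^ (d - 1 - i.val)
  have hcc : ∀ i, (cc i).IsHomogeneous (e * m * (d - i.val)) := by
    intro i
    have h1 := (res_hom S (pR (k := k) P) he (hG i)).mul
      ((res_hom S (pR (k := k) P) he hD).pow (d - 1 - i.val))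
    have h2 : e * m + e * m * (d - 1 - i.val) = e * m * (d - i.val) := by
      have h3 : d - i.val = (d - 1 - i.val) + 1 := by
        have := i.isLt
        omega
      rw [h3]
      ring
    rw [← h2]
    exact h1
  have hmapc : ∀ (R' : Type) [CommRing R'] [Algebra k R'] (φ : kP (k := k) P →ₐ[k] R') (i : Fin d),
      MvPolynomial.map (φ : kP (k := k) P →+* R') (cc i) =
        aeval (S.res fun l => φ (pR P l)) (G i) *
          aeval (S.res fun l => φ (pR P l)) D ^ (d - 1 - i.val) := by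
    intro R' _ _ φ i
    show MvPolynomial.map (φ : kP (k := k) P →+* R')
      (aeval (S.res (pR P)) (G i) * aeval (S.res (pR P)) D ^ (d - 1 - i.val)) = _
    rw [map_mul, map_pow, map_res, map_res]
  have hmapg : ∀ (R' : Type) [CommRing R'] [Algebra k R'] (φ : kP (k := k) P →ₐ[k] R'),
      (fun o => MvPolynomial.map (φ : kP (k := k) P →+* R') (S.cone (pR P) (e - 2) o)) =
        S.cone (fun l => φ (pR P l)) (e - 2) := by
    intro R' _ _ φ
    funext o
    exact map_cone S φ (pR P) (e - 2) o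
  set r : Fin (n + 1) → Eb :=
    S.resid (fun l => algebraMap Kb Eb (algebraMap K Kb (P l))) v with hr
  have hr' : r = fun j => r 0 * σ (P j) := by
    funext j
    rw [← hσ j, mul_comm]
  have hval : ∀ F : MvPolynomial (Fin (n + 1)) k, F.IsHomogeneous m →
      aeval r F = r 0 ^ m * σ (aeval P F) := by
    intro F hF
    have h1 : aeval r F = aeval (fun j => r 0 * σ (P j)) F := by
      conv_lhs => rw [hr']
    rw [h1, g11_smul hF, MvPolynomial.comp_aeval_apply]
  have hDr : aeval r D ≠ 0 := by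
    rw [hval D hD]
    refine mul_ne_zero (pow_ne_zero _ h0) ?_
    rw [Ne, map_eq_zero]
    exact fun hh => hDI ((hP.2 m D hD).1 hh)
  have hGr : ∀ i, aeval r (G i) = σ (c i) * aeval r D := by
    intro i
    rw [hval _ (hG i), hval D hD, ← hc i, map_mul]
    ring
  obtain ⟨ρ, hρ, hspread⟩ := spread_root (φb : kP (k := k) P →+* Kb) hφinj
    (S.cone (pR P) (e - 2)) (S.coneDeg (e - 2)) (cone_hom S (pR P) (e - 2)) (e * m) d cc hcc (by
      intro U hU
      rw [hmapg Kb φb] at hU
      have h1 : U ^ d + ∑ i : Fin d, MvPolynomial.map (φb : kP (k := k) P →+* Kb) (cc i) *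
          U ^ i.val ∈ S.JJ (fun l => algebraMap K Kb (P l)) (e - 2) := hU
      have h2 := (hv _).2 h1
      rw [map_add, map_pow, map_sum] at h2
      refine hroot (aeval v U / aeval r D) (g11_alg (fun i => σ (c i)) (aeval v U) (aeval r D) hDr ?_)
      rw [← h2]
      congr 1
      refine Finset.sum_congr rfl fun i _ => ?_
      rw [hmapc Kb φb i, map_mul, map_mul, map_pow, map_pow]
      have h3 : ∀ F : MvPolynomial (Fin (n + 1)) k,
          aeval v (aeval (S.res fun l => φb (pR P l)) F) = aeval r F := by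
        intro F
        exact aeval_res S (fun l => algebraMap K Kb (P l)) v F
      rw [h3, h3, hGr i])
  obtain ⟨d', H, hH1, hH2, hH3⟩ := exists_form S P hP ρ hρ
  refine ⟨d', H, hH1, hH2, ?_⟩
  intro P₀ hP0 hP1 hP2 hprime U
  obtain ⟨φ, hφ⟩ := exists_spec S P hP P₀ hP0 hP1
  have hφ' : (fun l => φ (pR P l)) = P₀ := funext hφ
  have h4 : φ ρ ≠ 0 := by
    rw [← hH3 k φ, hφ']
    exact hP2
  have h5 : (Ideal.span (Set.range fun o => MvPolynomial.map (φ : kP (k := k) P →+* k)
      (S.cone (pR P) (e - 2) o))) = S.JJ P₀ (e - 2) := by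
    rw [hmapg k φ, hφ']
    rfl
  have h6 := hspread k (φ : kP (k := k) P →+* k) h4 (by rw [h5]; exact hprime) U
  rw [h5] at h6
  intro h7
  apply h6
  have h8 : ∀ i : Fin d, MvPolynomial.map (φ : kP (k := k) P →+* k) (cc i) =
      aeval (S.res P₀) (G i) * aeval (S.res P₀) D ^ (d - 1 - i.val) := by
    intro i
    rw [hmapc k φ i, hφ']
  simp only [h8]
  exact h7

end Pool.Agent.LibHP.CIM
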