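import Pool.Agent.LibCIM.A9

set_option autoImplicit false
open MvPolynomial

namespace Pool.Agent.LibHP.CIM

/-! # Row N4 (MEDIUM): two generic linear forms are a regular sequence modulo a smooth system

This is a part of the proof of `A9_big` (A9.lean): for `m ≥ 1` the `N` forms `g i` (`card ι` of them), `ℓ_0 ^ m`, `ℓ_1 ^ m`, `ℓ_2, ..` have only the trivial common zero (A7 `generic_forms`), so `forms_regular` (A4; enumerate: first the `g i`, then `ℓ_0 ^ m`, `ℓ_1 ^ m`, ...) applies: copy it. (`ℓ_1 ^ m * x - ℓ_0 ^ m * y ∈ J` gives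
`ℓ_1 ^ m * x ∈ span (g, ℓ_0 ^ m)`, so `x ∈ span (g, ℓ_0 ^ m)`.) -/

theorem regular_pair {F : Type} [Field F] [CharZero F] {N r : ℕ} {ι : Type} [Fintype ι]
    (g : ι → MvPolynomial (Fin N) F) (d : ι → ℕ) (hd : ∀ i, 0 < d i)
    (hg : ∀ i, (g i).IsHomogeneous (d i)) (hs : IsSmoothSys g) (hN : Fintype.card ι + r = N)
    (hr : 2 ≤ r) {Ω : Type} [Field Ω] [IsAlgClosed Ω] [Algebra F Ω]
    (h : Fin r × Fin N → Ω) (hh : AlgebraicIndependent F h) (ℓ₀ ℓ₁ : MvPolynomial (Fin N) Ω)
    (h0 : ℓ₀ = ∑ l, C (h (⟨0, by omega⟩, l)) * X l) (h1 : ℓ₁ = ∑ l, C (h (⟨1, by omega⟩, l)) * X l)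
    (m : ℕ) (hm : 1 ≤ m) :
    (∀ x, ℓ₀ ^ m * x ∈ Ideal.span (Set.range (extSys Ω g)) → x ∈ Ideal.span (Set.range (extSys Ω g))) ∧
    ∀ x y, ℓ₁ ^ m * x - ℓ₀ ^ m * y ∈ Ideal.span (Set.range (extSys Ω g)) →
      ∃ z, x - ℓ₀ ^ m * z ∈ Ideal.span (Set.range (extSys Ω g)) := by
  classical
  subst h0 h1
  obtain ⟨G, hGdef⟩ : ∃ G : ι → MvPolynomial (Fin N) Ω, G = extSys Ω g := ⟨_, rfl⟩
  rw [← hGdef]
  have hGhom : ∀ i, (G i).IsHomogeneous (d i) := fun i => by
    rw [hGdef]
    exact (hg i).map _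
  have hGev : ∀ (y : Fin N → Ω) i, eval y (G i) = aeval y (g i) := fun y i => by
    rw [hGdef]
    show eval y (map (algebraMap F Ω) (g i)) = _
    rw [eval_map, aeval_def]
  obtain ⟨J, hJdef⟩ : ∃ J : Ideal (MvPolynomial (Fin N) Ω), J = Ideal.span (Set.range G) :=
    ⟨_, rfl⟩
  -- the linear forms
  let ℓ : Fin r → MvPolynomial (Fin N) Ω := fun q => ∑ l, C (h (q, l)) * X l
  have hℓhom : ∀ q, (ℓ q).IsHomogeneous 1 := fun q =>
    IsHomogeneous.sum _ _ _ fun l _ => (isHomogeneous_X _ l).C_mul _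
  have hℓev : ∀ (y : Fin N → Ω) q, eval y (ℓ q) = ∑ l, h (q, l) * y l := fun y q => by
    show eval y (∑ l, C (h (q, l)) * X l) = _
    rw [map_sum]
    refine Finset.sum_congr rfl fun l _ => ?_
    rw [map_mul, eval_C, eval_X]
  let em : Fin (Fintype.card ι) ≃ ι := (Fintype.equivFin ι).symm
  let q0 : Fin r := ⟨0, by omega⟩
  let q1 : Fin r := ⟨1, by omega⟩
  -- the regular sequence
  let κ : ℕ → Fin r → ℕ := fun r0 q => if q.1 < 2 then r0 else 1
  let GG : ℕ → Fin N → MvPolynomial (Fin N) Ω := fun r0 j =>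
    if hj : j.1 < Fintype.card ι then G (em ⟨j.1, hj⟩)
    else ℓ ⟨j.1 - Fintype.card ι, by omega⟩ ^ κ r0 ⟨j.1 - Fintype.card ι, by omega⟩
  let dd : ℕ → Fin N → ℕ := fun r0 j =>
    if hj : j.1 < Fintype.card ι then d (em ⟨j.1, hj⟩)
    else κ r0 ⟨j.1 - Fintype.card ι, by omega⟩
  have hκ : ∀ r0 q, 1 ≤ r0 → 0 < κ r0 q := by
    intro r0 q hr0
    show 0 < if q.1 < 2 then r0 else 1
    split_ifs <;> omega
  have hregm : ∀ r0, 1 ≤ r0 → ∀ (i : Fin N) (x : MvPolynomial (Fin N) Ω),
      GG r0 i * x ∈ Ideal.span (GG r0 '' {j | j < i}) → x ∈ Ideal.span (GG r0 '' {j | j < i}) := by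
    intro r0 hr0
    refine forms_regular Ω (GG r0) (dd r0) ?_ ?_ ?_
    · intro j
      by_cases hj : j.1 < Fintype.card ι
      · simp only [dd, hj, dite_true]
        exact hd _
      · simp only [dd, hj, dite_false]
        exact hκ r0 _ hr0
    · intro j
      by_cases hj : j.1 < Fintype.card ι
      · simp only [dd, GG, hj, dite_true]
        exact hGhom _
      · simp only [dd, GG, hj, dite_false]
        have h1 := (hℓhom ⟨j.1 - Fintype.card ι, by omega⟩).pow
          (κ r0 ⟨j.1 - Fintype.card ι, by omega⟩)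
        rwa [one_mul] at h1
    · intro y hy
      refine generic_forms g d hg hs hN h hh y ?_ ?_
      · intro i
        have h1 := hy ⟨(em.symm i).1, by have := (em.symm i).2; omega⟩
        have h2 : (em.symm i).1 < Fintype.card ι := (em.symm i).2
        simp only [GG, h2, dite_true] at h1
        rw [← hGev]
        have h3 : em ⟨(em.symm i).1, h2⟩ = i := em.apply_symm_apply i
        rwa [h3] at h1
      · intro q
        have h1 := hy ⟨Fintype.card ι + q.1, by have := q.2; omega⟩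
        have h2 : ¬ (Fintype.card ι + q.1 < Fintype.card ι) := by omega
        simp only [GG, h2, dite_false, map_pow] at h1
        rw [← hℓev]
        have h3 : (⟨Fintype.card ι + q.1 - Fintype.card ι, by omega⟩ : Fin r) = q :=
          Fin.ext (by simp)
        have h4 := pow_eq_zero_iff (hκ r0 _ hr0).ne' |>.1 h1
        rwa [h3] at h4
  let i0 : Fin N := ⟨Fintype.card ι, by omega⟩
  let i1 : Fin N := ⟨Fintype.card ι + 1, by omega⟩
  have hG0 : ∀ r0, GG r0 i0 = ℓ q0 ^ r0 := by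
    intro r0
    have h2 : ¬ (i0.1 < Fintype.card ι) := by
      show ¬ (Fintype.card ι < Fintype.card ι)
      omega
    simp only [GG, h2, dite_false]
    have h3 : (⟨i0.1 - Fintype.card ι, by omega⟩ : Fin r) = q0 :=
      Fin.ext (by show Fintype.card ι - Fintype.card ι = 0; omega)
    rw [h3]
    rfl
  have hG1 : ∀ r0, GG r0 i1 = ℓ q1 ^ r0 := by
    intro r0
    have h2 : ¬ (i1.1 < Fintype.card ι) := by
      show ¬ (Fintype.card ι + 1 < Fintype.card ι)
      omega
    simp only [GG, h2, dite_false]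
    have h3 : (⟨i1.1 - Fintype.card ι, by omega⟩ : Fin r) = q1 :=
      Fin.ext (by show Fintype.card ι + 1 - Fintype.card ι = 1; omega)
    rw [h3]
    rfl
  have hspan0 : ∀ r0, Ideal.span (GG r0 '' {j | j < i0}) = J := by
    intro r0
    rw [hJdef]
    congr 1
    ext a
    constructor
    · rintro ⟨j, hj, rfl⟩
      have hj' : j.1 < Fintype.card ι := hj
      simp only [GG, hj', dite_true]
      exact ⟨_, rfl⟩
    · rintro ⟨i, rfl⟩
      refine ⟨⟨(em.symm i).1, by have := (em.symm i).2; omega⟩, (em.symm i).2, ?_⟩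
      have h2 : (em.symm i).1 < Fintype.card ι := (em.symm i).2
      simp only [GG, h2, dite_true]
      congr 1
      exact em.apply_symm_apply i
  have hspan1 : ∀ r0, Ideal.span (GG r0 '' {j | j < i1}) = J ⊔ Ideal.span {ℓ q0 ^ r0} := by
    intro r0
    have h1 : {j : Fin N | j < i1} = {j | j < i0} ∪ {i0} := by
      ext j
      simp only [Set.mem_ofPred_eq, Set.union_singleton, Set.mem_insert_iff]
      constructor
      · intro hj
        have h2 : j.1 < Fintype.card ι + 1 := hj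
        by_cases h3 : j.1 = Fintype.card ι
        · left
          exact Fin.ext h3
        · right
          show j.1 < Fintype.card ι
          omega
      · rintro (rfl | hj)
        · show Fintype.card ι < Fintype.card ι + 1
          omega
        · have h2 : j.1 < Fintype.card ι := hj
          show j.1 < Fintype.card ι + 1
          omega
    rw [h1, Set.image_union, Ideal.span_union, hspan0, Set.image_singleton, hG0]
  rw [← hJdef]
  constructor
  · intro x hx
    have h1 := hregm m hm i0 x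
    rw [hspan0, hG0] at h1
    exact h1 hx
  · intro x y hxy
    have h1 := hregm m hm i1 x
    rw [hspan1, hG1] at h1
    have h2 : ℓ q1 ^ m * x ∈ J ⊔ Ideal.span {ℓ q0 ^ m} := by
      have e1 : ℓ q1 ^ m * x = (ℓ q1 ^ m * x - ℓ q0 ^ m * y) + ℓ q0 ^ m * y := by ring
      rw [e1]
      exact Ideal.add_mem _ (Ideal.mem_sup_left hxy)
        (Ideal.mem_sup_right (Ideal.mul_mem_right _ _ (Ideal.mem_span_singleton_self _)))
    obtain ⟨u, hu, v, hv, huv⟩ := Submodule.mem_sup.1 (h1 h2)
    obtain ⟨z, rfl⟩ := Ideal.mem_span_singleton.1 hv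
    refine ⟨z, ?_⟩
    show x - ℓ q0 ^ m * z ∈ J
    rw [← huv, add_sub_cancel_right]
    exact hu

end Pool.Agent.LibHP.CIM
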