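import Pool.Agent.LibCIM.N3
import Pool.Agent.LibCIM.N4

set_option autoImplicit false
open MvPolynomial

namespace Pool.Agent.LibHP.CIM

/-! # Row N5 (MEDIUM): the affine cone over a smooth complete intersection is normal

1. `Ω` algebraically closed over `F` with independent `h : Fin r × Fin N → Ω`, `r = N - card ι` (`A9_field` in A9.lean, copy it). `JΩ := span (range (extSys Ω g))` is prime (`prime_of_smoothSys` for `extSys Ω g`, `IsSmoothSys.extSys`); `E' := FractionRing (MvPolynomial (Fin N) Ω ⧸ JΩ)`, `v'` the classes of the `X l`: `IsGen JΩ v'`. With `u * aeval v H = aeval v G` put `u' := aeval v' (map G) / aeval v' (map H)`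
(`H ∉ J`, so `map H ∉ JΩ`: `mem_span_of_ext`). The monic equation `∑ c_i(v) u^i = 0` times `H(v)^d` is a relation `∑ c_i G^i H^(d-i) ∈ J`, so it holds for `v'`, `u'`: `u'` is integral.
2. `coord_pow` (N3, over `Ω`): `v'_l ^ m * u' ∈ Ω[v']` for all `l`, so `(ℓ_q(v')) ^ m * u' ∈ Ω[v']` for a large `m` (binomial theorem / `{H | H(v') u' ∈ Ω[v']}` is an ideal; its radical contains all `X l`, so `ℓ_0, ℓ_1`): `= aeval v' a`, `= aeval v' b`. `ℓ_1^m a - ℓ_0^m b ∈ JΩ`, so `a - ℓ_0^m z ∈ JΩ` (`regular_pair`), `ℓ_0(v')^m (u' - z(v')) = 0`, `ℓ_0 ∉ JΩ` (first part of `regular_pair` with `x = 1` and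
`1 ∉ JΩ`; prime), so `u' = z(v')`.
3. So `map G - map H * z ∈ JΩ`: `map G` is in the ideal generated by the `extSys Ω g` and `map H`; by `mem_span_of_ext` (family `Option ι`) `G ∈ span (g, H)`: `G - H U ∈ J`, `u = aeval v U`. -/

/-- an algebraically closed field with many independent elements -/
private theorem N5_field (K ι : Type) [Field K] :
    ∃ (Ω : Type) (_ : Field Ω) (_ : IsAlgClosed Ω) (_ : Algebra K Ω) (h : ι → Ω),
      AlgebraicIndependent K h := by
  let f : MvPolynomial ι K →ₐ[K] AlgebraicClosure (FractionRing (MvPolynomial ι K)) :=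
    (IsScalarTower.toAlgHom K (FractionRing (MvPolynomial ι K))
      (AlgebraicClosure (FractionRing (MvPolynomial ι K)))).comp
      (IsScalarTower.toAlgHom K (MvPolynomial ι K) (FractionRing (MvPolynomial ι K)))
  refine ⟨AlgebraicClosure (FractionRing (MvPolynomial ι K)), inferInstance, inferInstance,
    inferInstance, fun i => f (X i), ?_⟩
  refine (MvPolynomial.algebraicIndependent_X ι K).map' (f := f) ?_
  have h1 : Function.Injective (algebraMap (FractionRing (MvPolynomial ι K))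
      (AlgebraicClosure (FractionRing (MvPolynomial ι K)))) :=
    (algebraMap (FractionRing (MvPolynomial ι K))
      (AlgebraicClosure (FractionRing (MvPolynomial ι K)))).injective
  have h2 : Function.Injective (algebraMap (MvPolynomial ι K) (FractionRing (MvPolynomial ι K))) :=
    IsFractionRing.injective _ _
  exact h1.comp h2

/-- clearing the denominators of a relation -/
private theorem N5_clear {R K : Type} [CommRing R] [Field K] (φ : R →+* K) (p : Polynomial R)
    (G H : R) (hH : φ H ≠ 0) :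
    φ (∑ i ∈ Finset.range (p.natDegree + 1), p.coeff i * G ^ i * H ^ (p.natDegree - i)) =
      φ H ^ p.natDegree * Polynomial.eval₂ φ (φ G / φ H) p := by
  rw [Polynomial.eval₂_eq_sum_range, map_sum, Finset.mul_sum]
  refine Finset.sum_congr rfl fun i hi => ?_
  have hi' : i ≤ p.natDegree := by
    have := Finset.mem_range.1 hi
    omega
  have h1 : φ H ^ p.natDegree = φ H ^ (p.natDegree - i) * φ H ^ i := by
    rw [← pow_add, Nat.sub_add_cancel hi']
  have h2 : φ H ^ i ≠ 0 := pow_ne_zero _ hH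
  rw [map_mul, map_mul, map_pow, map_pow, div_pow, h1]
  field_simp

/-- a generic point of a prime ideal -/
private theorem N5_gen {Ω : Type} [Field Ω] {N : ℕ} (J : Ideal (MvPolynomial (Fin N) Ω))
    (hJ : J.IsPrime) : ∃ (E' : Type) (_ : Field E') (_ : Algebra Ω E') (v' : Fin N → E'),
      IsGen J v' := by
  let B := MvPolynomial (Fin N) Ω ⧸ J
  let f : MvPolynomial (Fin N) Ω →ₐ[Ω] FractionRing B :=
    (IsScalarTower.toAlgHom Ω B (FractionRing B)).comp (Ideal.Quotient.mkₐ Ω J)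
  refine ⟨FractionRing B, inferInstance, inferInstance, fun l => f (X l), fun G => ?_⟩
  have h1 : aeval (fun l => f (X l)) G = f G := by
    have h2 := DFunLike.congr_fun (aeval_unique f) G
    exact h2.symm
  rw [h1]
  have h3 : f G = algebraMap B (FractionRing B) (Ideal.Quotient.mk J G) := rfl
  rw [h3, IsFractionRing.to_map_eq_zero_iff]
  exact Ideal.Quotient.eq_zero_iff_mem

/-- the statement over a large algebraically closed field -/
private theorem N5_big {F : Type} [Field F] [CharZero F] {N r : ℕ} {ι : Type} [Fintype ι]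
    (g : ι → MvPolynomial (Fin N) F) (d : ι → ℕ) (hd : ∀ i, 0 < d i)
    (hg : ∀ i, (g i).IsHomogeneous (d i)) (hs : IsSmoothSys g) (hN : Fintype.card ι + r = N)
    (hr : 2 ≤ r) {Ω : Type} [Field Ω] [IsAlgClosed Ω] [Algebra F Ω]
    (h : Fin r × Fin N → Ω) (hh : AlgebraicIndependent F h)
    (hP : (Ideal.span (Set.range (extSys Ω g))).IsPrime)
    {E : Type} [Field E] [Algebra Ω E] (v : Fin N → E)
    (hv : IsGen (Ideal.span (Set.range (extSys Ω g))) v) (u : E)
    (hu : ∃ G H : MvPolynomial (Fin N) Ω, aeval v H ≠ 0 ∧ u * aeval v H = aeval v G)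
    (hint : ((aeval v : MvPolynomial (Fin N) Ω →ₐ[Ω] E) :
      MvPolynomial (Fin N) Ω →+* E).IsIntegralElem u) :
    ∃ U : MvPolynomial (Fin N) Ω, u = aeval v U := by
  let I : Ideal (MvPolynomial (Fin N) Ω) :=
    { carrier := {H | ∃ U : MvPolynomial (Fin N) Ω, aeval v H * u = aeval v U}
      add_mem' := by
        rintro a b ⟨U, hU⟩ ⟨U', hU'⟩
        exact ⟨U + U', by rw [map_add, map_add, add_mul, hU, hU']⟩
      zero_mem' := ⟨0, by rw [map_zero, zero_mul]⟩
      smul_mem' := by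
        rintro c a ⟨U, hU⟩
        exact ⟨c * U, by rw [smul_eq_mul, map_mul, map_mul, mul_assoc, hU]⟩ }
  have hI : ∀ H, H ∈ I ↔ ∃ U : MvPolynomial (Fin N) Ω, aeval v H * u = aeval v U :=
    fun H => Iff.rfl
  have hX : ∀ l, (X l : MvPolynomial (Fin N) Ω) ∈ I.radical := by
    intro l
    obtain ⟨m, U, hU⟩ := coord_pow (extSys Ω g) (hs.extSys Ω) v hv u hu hint l
    exact ⟨m, (hI _).2 ⟨U, by rw [map_pow, aeval_X, hU]⟩⟩
  let ℓ₀ : MvPolynomial (Fin N) Ω := ∑ l, C (h (⟨0, by omega⟩, l)) * X l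
  let ℓ₁ : MvPolynomial (Fin N) Ω := ∑ l, C (h (⟨1, by omega⟩, l)) * X l
  have h0 : ℓ₀ ∈ I.radical := Ideal.sum_mem _ fun l _ => Ideal.mul_mem_left _ _ (hX l)
  have h1 : ℓ₁ ∈ I.radical := Ideal.sum_mem _ fun l _ => Ideal.mul_mem_left _ _ (hX l)
  obtain ⟨m0, hm0⟩ := h0
  obtain ⟨m1, hm1⟩ := h1
  obtain ⟨m, hm⟩ : ∃ m : ℕ, m = m0 + m1 + 1 := ⟨_, rfl⟩
  have hm0' : ℓ₀ ^ m ∈ I := by
    have : ℓ₀ ^ m = ℓ₀ ^ (m1 + 1) * ℓ₀ ^ m0 := by
      rw [← pow_add, hm]
      congr 1
      ring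
    rw [this]
    exact Ideal.mul_mem_left _ _ hm0
  have hm1' : ℓ₁ ^ m ∈ I := by
    have : ℓ₁ ^ m = ℓ₁ ^ (m0 + 1) * ℓ₁ ^ m1 := by
      rw [← pow_add, hm]
      congr 1
      ring
    rw [this]
    exact Ideal.mul_mem_left _ _ hm1
  obtain ⟨a, ha⟩ := (hI _).1 hm0'
  obtain ⟨b, hb⟩ := (hI _).1 hm1'
  obtain ⟨hr1, hr2⟩ := regular_pair g d hd hg hs hN hr h hh ℓ₀ ℓ₁ rfl rfl m (by omega)
  obtain ⟨z, hz⟩ := hr2 a b (by
    rw [← hv, map_sub, map_mul, map_mul, ← ha, ← hb]
    ring)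
  rw [← hv, map_sub, map_mul, ← ha, ← mul_sub, mul_eq_zero] at hz
  refine ⟨z, ?_⟩
  rcases hz with hz | hz
  · exfalso
    have h2 : ℓ₀ ^ m * 1 ∈ Ideal.span (Set.range (extSys Ω g)) := by
      rw [mul_one, ← hv]
      exact hz
    exact hP.ne_top ((Ideal.eq_top_iff_one _).2 (hr1 1 h2))
  · exact sub_eq_zero.1 hz

theorem normal_of_smoothSys {F : Type} [Field F] [CharZero F] {N : ℕ} {ι : Type} [Fintype ι]
    (g : ι → MvPolynomial (Fin N) F) (d : ι → ℕ) (hd : ∀ i, 0 < d i)
    (hg : ∀ i, (g i).IsHomogeneous (d i)) (hs : IsSmoothSys g) (hN : Fintype.card ι + 2 ≤ N)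
    {E : Type} [Field E] [Algebra F E] (v : Fin N → E) (hv : IsGen (Ideal.span (Set.range g)) v) (u : E)
    (hu : ∃ G H : MvPolynomial (Fin N) F, aeval v H ≠ 0 ∧ u * aeval v H = aeval v G)
    (hint : ((aeval v : MvPolynomial (Fin N) F →ₐ[F] E) : MvPolynomial (Fin N) F →+* E).IsIntegralElem u) :
    ∃ U : MvPolynomial (Fin N) F, u = aeval v U := by
  obtain ⟨r, hr⟩ : ∃ r : ℕ, Fintype.card ι + r = N := ⟨N - Fintype.card ι, by omega⟩
  obtain ⟨Ω, _, _, _, h, hh⟩ := N5_field F (Fin r × Fin N)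
  have hcz : CharZero Ω := charZero_of_injective_algebraMap (algebraMap F Ω).injective
  have hP : (Ideal.span (Set.range (extSys Ω g))).IsPrime :=
    prime_of_smoothSys (extSys Ω g) d hd (fun i => (hg i).map _) (hs.extSys Ω) hN
  obtain ⟨E', _, _, v', hv'⟩ := N5_gen _ hP
  obtain ⟨G, H, hH, hGH⟩ := hu
  obtain ⟨p, hp, hp0⟩ := hint
  -- elements of `J`
  have hJ : ∀ Q : MvPolynomial (Fin N) F, aeval v Q = 0 ↔
      aeval v' (MvPolynomial.map (algebraMap F Ω) Q) = 0 := by
    intro Q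
    rw [hv, hv']
    constructor
    · intro hQ
      have h1 : Ideal.map (MvPolynomial.map (algebraMap F Ω)) (Ideal.span (Set.range g)) =
          Ideal.span (Set.range (extSys Ω g)) := by
        rw [Ideal.map_span, ← Set.range_comp]
        rfl
      rw [← h1]
      exact Ideal.mem_map_of_mem _ hQ
    · exact mem_span_of_ext g Ω Q
  let φ : MvPolynomial (Fin N) F →+* E' :=
    ((aeval v' : MvPolynomial (Fin N) Ω →ₐ[Ω] E') : MvPolynomial (Fin N) Ω →+* E').comp
      (MvPolynomial.map (algebraMap F Ω))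
  have hφ : ∀ Q, φ Q = aeval v' (MvPolynomial.map (algebraMap F Ω) Q) := fun Q => rfl
  have hH' : φ H ≠ 0 := fun h0 => hH ((hJ H).2 h0)
  have hu' : u = aeval v G / aeval v H := by
    rw [eq_div_iff hH]
    exact hGH
  -- the fraction over `Ω`
  have hrel : Polynomial.eval₂ φ (φ G / φ H) p = 0 := by
    have h1 := N5_clear ((aeval v : MvPolynomial (Fin N) F →ₐ[F] E) :
      MvPolynomial (Fin N) F →+* E) p G H hH
    have h2 := N5_clear φ p G H hH'
    have h3 : ((aeval v : MvPolynomial (Fin N) F →ₐ[F] E) : MvPolynomial (Fin N) F →+* E) G /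
        ((aeval v : MvPolynomial (Fin N) F →ₐ[F] E) : MvPolynomial (Fin N) F →+* E) H = u :=
      hu'.symm
    rw [h3, hp0, mul_zero] at h1
    have h4 := (hJ _).1 h1
    rw [← hφ, h2] at h4
    exact (mul_eq_zero.1 h4).resolve_left (pow_ne_zero _ hH')
  obtain ⟨z, hz⟩ := N5_big g d hd hg hs hr (by omega) h hh hP v' hv' (φ G / φ H)
    ⟨MvPolynomial.map (algebraMap F Ω) G, MvPolynomial.map (algebraMap F Ω) H, hH',
      div_mul_cancel₀ _ hH'⟩
    ⟨p.map (MvPolynomial.map (algebraMap F Ω)), hp.map _, by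
      rw [Polynomial.eval₂_map]
      exact hrel⟩
  -- descent
  have h5 : aeval v' (MvPolynomial.map (algebraMap F Ω) G -
      MvPolynomial.map (algebraMap F Ω) H * z) = 0 := by
    rw [map_sub, map_mul, ← hz, ← hφ, ← hφ]
    field_simp
    ring
  rw [hv'] at h5
  let g' : Option ι → MvPolynomial (Fin N) F := fun o => o.elim H g
  have hg' : Set.range g' = insert H (Set.range g) := by
    ext x
    constructor
    · rintro ⟨o, rfl⟩
      rcases o with _ | i
      · exact Set.mem_insert _ _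
      · exact Set.mem_insert_of_mem _ ⟨i, rfl⟩
    · rintro (rfl | ⟨i, rfl⟩)
      · exact ⟨none, rfl⟩
      · exact ⟨some i, rfl⟩
  have h6 : G ∈ Ideal.span (Set.range g') := by
    refine mem_span_of_ext g' Ω G ?_
    have h7 : Ideal.span (Set.range (extSys Ω g)) ≤ Ideal.span (Set.range (extSys Ω g')) := by
      refine Ideal.span_mono ?_
      rintro _ ⟨i, rfl⟩
      exact ⟨some i, rfl⟩
    have h8 : MvPolynomial.map (algebraMap F Ω) H * z ∈ Ideal.span (Set.range (extSys Ω g')) :=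
      Ideal.mul_mem_right _ _ (Ideal.subset_span ⟨none, rfl⟩)
    have h9 := add_mem (h7 h5) h8
    rwa [sub_add_cancel] at h9
  rw [hg', Ideal.mem_span_insert] at h6
  obtain ⟨U, j, hj, hGU⟩ := h6
  refine ⟨U, ?_⟩
  have h10 : aeval v j = 0 := (hv j).2 hj
  rw [hu', hGU, map_add, map_mul, h10, add_zero, mul_div_cancel_right₀ _ hH]

end Pool.Agent.LibHP.CIM
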