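import Pool.Agent.LibCIM.G9
import Pool.Agent.LibCIM.G10
import Pool.Agent.LibCIM.N5

set_option autoImplicit false
open MvPolynomial

namespace Pool.Agent.LibHP.CIM

/-! # Row G12 (MEDIUM): no roots in the function field of a good special fibre

Let `z` be a root in `κ`. `w i := t * f (y i)` (`t ≠ 0`) is a generic zero of `J := JJ P₀ (e - 2)`. `ry := S.resid P' y`, `rw := S.resid P' w = t ^ e • f(ry)` (`P' l = algebraMap (P₀ l)`; `w = t • f(y)`, `tc_smul`, `resid_map`; `P' ` is not scaled: `tc S.F P' w e = t ^ e * f (..)`, `tc S.F P' w (e-1) * w l = t ^ (e-1) * t * ..`). `u := D(rw) * f z` satisfies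
`u ^ d + ∑ G_i(rw) D(rw)^(d-1-i) u ^ i = 0` (`s i * D(ry) = G_i(ry)`, apply `f`, homogeneity: `D(rw) = t^(e m) f (D(ry))`), a monic equation over `k[w]` (`aeval_res`). `hgw : GenOver k w`. So `normal_of_smoothSys` (N5, `g := S.cone P₀ (e-2)`, `card_cone`, `N = n + 1`) gives `U` with `u = aeval w U`, and `aeval w (U ^ d + ∑ ..) = 0`, so `U ^ d + ∑ .. ∈ J` (`hw`): excluded by `hU`. -/

private theorem G12_smul {σ A k : Type} [Fintype σ] [Field k] [CommRing A] [Algebra k A] (t : A)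
    (x : σ → A) (d : ℕ) (G : MvPolynomial σ k) (hG : G.IsHomogeneous d) :
    aeval (fun i => t * x i) G = t ^ d * aeval x G := by
  rw [aeval_def, eval₂_eq', aeval_def, eval₂_eq', Finset.mul_sum]
  refine Finset.sum_congr rfl fun s hs => ?_
  have h1 : ∑ l, s l = d := by
    have := hG (mem_support_iff.1 hs)
    rw [Finsupp.weight_apply] at this
    rw [← this, Finsupp.sum_fintype]
    · simp
    · intro i; simp
  have h2 : ∏ l, (t * x l) ^ s l = t ^ d * ∏ l, x l ^ s l := by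
    rw [← h1, ← Finset.prod_pow_eq_pow_sum, ← Finset.prod_mul_distrib]
    exact Finset.prod_congr rfl fun l _ => mul_pow _ _ _
  rw [h2]
  ring

private theorem G12_resid {k : Type} [Field k] {n a e : ℕ} (S : Sys k n a e) (he : 1 ≤ e)
    {κ E₀ : Type} [Field κ] [Algebra k κ] [Field E₀] [Algebra k E₀] (f : κ →ₐ[k] E₀) (t : E₀)
    (P₀ : Fin (n + 1) → k) (y : Fin (n + 1) → κ) :
    S.resid (fun l => algebraMap k E₀ (P₀ l)) (fun i => t * f (y i)) =
      fun j => t ^ e * f (S.resid (fun l => algebraMap k κ (P₀ l)) y j) := by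
  funext j
  rw [resid_map]
  have h1 : (fun l => f (algebraMap k κ (P₀ l))) = fun l => algebraMap k E₀ (P₀ l) := by
    funext l
    exact f.commutes _
  rw [h1]
  have h2 : (fun i => t * f (y i)) = t • fun i => f (y i) := rfl
  rw [h2]
  unfold Sys.resid
  rw [tc_smul, tc_smul, Pi.smul_apply, smul_eq_mul]
  obtain ⟨e', rfl⟩ : ∃ e', e = e' + 1 := ⟨e - 1, by omega⟩
  rw [Nat.add_sub_cancel, pow_succ]
  ring

private theorem G12_aeval {k : Type} [Field k] {n a e : ℕ} (S : Sys k n a e) (he : 1 ≤ e)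
    {κ E₀ : Type} [Field κ] [Algebra k κ] [Field E₀] [Algebra k E₀] (f : κ →ₐ[k] E₀) (t : E₀)
    (P₀ : Fin (n + 1) → k) (y : Fin (n + 1) → κ) (m : ℕ) (G : MvPolynomial (Fin (n + 1)) k)
    (hG : G.IsHomogeneous m) :
    aeval (fun i => t * f (y i)) (aeval (S.res P₀) G) =
      (t ^ e) ^ m * f (aeval (S.resid (fun l => algebraMap k κ (P₀ l)) y) G) := by
  rw [aeval_res S (R := k) (R'' := E₀) P₀ (fun i => t * f (y i)) G, G12_resid S he f t P₀ y,
    G12_smul _ _ m G hG]
  congr 1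
  rw [← AlgHom.comp_apply, MvPolynomial.comp_aeval]

theorem no_root_fibre {k : Type} [Field k] [CharZero k] {n a e : ℕ} (S : Sys k n a e)
    (he : 2 ≤ e) (hn : ∑ j, S.dg j + e + 1 ≤ n) (P₀ : Fin (n + 1) → k)
    (hsm : IsSmoothSys (S.cone P₀ (e - 2)))
    (m d : ℕ) (D : MvPolynomial (Fin (n + 1)) k) (hD : D.IsHomogeneous m)
    (G : Fin d → MvPolynomial (Fin (n + 1)) k) (hG : ∀ i, (G i).IsHomogeneous m)
    (hU : ∀ U : MvPolynomial (Fin (n + 1)) k,
      U ^ d + ∑ i : Fin d, aeval (S.res P₀) (G i) * aeval (S.res P₀) D ^ (d - 1 - i.val) *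
        U ^ i.val ∉ S.JJ P₀ (e - 2))
    {κ E₀ : Type} [Field κ] [Algebra k κ] [Field E₀] [Algebra k E₀] (f : κ →ₐ[k] E₀) (t : E₀)
    (ht : t ≠ 0) (y : Fin (n + 1) → κ) (hw : IsGen (S.JJ P₀ (e - 2)) (fun i => t * f (y i)))
    (hgw : GenOver k (fun i => t * f (y i)))
    (hDy : aeval (S.resid (fun l => algebraMap k κ (P₀ l)) y) D ≠ 0) (s : Fin d → κ)
    (hs : ∀ i, s i * aeval (S.resid (fun l => algebraMap k κ (P₀ l)) y) D =
      aeval (S.resid (fun l => algebraMap k κ (P₀ l)) y) (G i)) (z : κ) :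
    z ^ d + ∑ i : Fin d, s i * z ^ i.val ≠ 0 := by
  intro hz
  set w : Fin (n + 1) → E₀ := fun i => t * f (y i) with hwdef
  set Dy : κ := aeval (S.resid (fun l => algebraMap k κ (P₀ l)) y) D with hDyd
  set c : E₀ := (t ^ e) ^ m with hc
  have hD' : aeval w (aeval (S.res P₀) D) = c * f Dy := G12_aeval S (by omega) f t P₀ y m D hD
  have hG' : ∀ i, aeval w (aeval (S.res P₀) (G i)) = f (s i) * (c * f Dy) := by
    intro i
    rw [G12_aeval S (by omega) f t P₀ y m (G i) (hG i), ← hs i, map_mul]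
    ring
  have hfz : f z ^ d + ∑ i : Fin d, f (s i) * f z ^ i.val = 0 := by
    have h1 := congrArg f hz
    rw [map_add, map_pow, map_sum, map_zero] at h1
    rw [← h1]
    congr 1
    refine Finset.sum_congr rfl fun i _ => ?_
    rw [map_mul, map_pow]
  set Dw : E₀ := c * f Dy with hDw
  have hrel : (Dw * f z) ^ d + ∑ i : Fin d, (f (s i) * Dw) * Dw ^ (d - 1 - i.val) *
      (Dw * f z) ^ i.val = 0 := by
    have h1 : ∀ i : Fin d, (f (s i) * Dw) * Dw ^ (d - 1 - i.val) * (Dw * f z) ^ i.val =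
        Dw ^ d * (f (s i) * f z ^ i.val) := by
      intro i
      have h2 : Dw ^ d = Dw * Dw ^ (d - 1 - i.val) * Dw ^ i.val := by
        rw [← pow_succ', ← pow_add]
        congr 1
        have := i.isLt
        omega
      rw [h2, mul_pow]
      ring
    rw [Finset.sum_congr rfl fun i _ => h1 i, ← Finset.mul_sum, mul_pow, ← mul_add, hfz, mul_zero]
  have hN : Fintype.card (S.Idx (e - 2)) + 2 ≤ n + 1 := by
    rw [S.card_cone]
    omega
  obtain ⟨U, hUeq⟩ := normal_of_smoothSys (S.cone P₀ (e - 2)) (S.coneDeg (e - 2))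
    (S.coneDeg_pos (e - 2)) (cone_hom S P₀ (e - 2)) hsm hN w hw (Dw * f z) (by
      obtain ⟨G1, H1, hH1, hGH⟩ := hgw (Dw * f z)
      exact ⟨G1, H1, hH1, hGH⟩) (by
      refine ⟨Polynomial.X ^ d + ∑ i : Fin d, Polynomial.C (aeval (S.res P₀) (G i) *
        aeval (S.res P₀) D ^ (d - 1 - i.val)) * Polynomial.X ^ i.val,
        Polynomial.monic_X_pow_add (Polynomial.degree_sum_fin_lt _), ?_⟩
      rw [Polynomial.eval₂_add, Polynomial.eval₂_pow, Polynomial.eval₂_X, Polynomial.eval₂_finset_sum]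
      rw [← hrel]
      congr 1
      refine Finset.sum_congr rfl fun i _ => ?_
      rw [Polynomial.eval₂_mul, Polynomial.eval₂_C, Polynomial.eval₂_pow, Polynomial.eval₂_X]
      show aeval w (aeval (S.res P₀) (G i) * aeval (S.res P₀) D ^ (d - 1 - i.val)) * _ = _
      rw [map_mul, map_pow, hG', hD'])
  refine hU U ((hw _).1 ?_)
  rw [map_add, map_pow, map_sum, ← hUeq, ← hrel]
  congr 1
  refine Finset.sum_congr rfl fun i _ => ?_
  rw [map_mul, map_mul, map_pow, map_pow, hG', hD', ← hUeq]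

end Pool.Agent.LibHP.CIM
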