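import Pool.Agent.LibCIM.G0

set_option autoImplicit false
open MvPolynomial

namespace Pool.Agent.LibHP.CIM

/-! # Row G8 (MEDIUM): specialisations of a finitely generated algebra in `k(P)`

`A` is generated by finitely many elements; by `exists_common_den` (G0) their images in `K` have a common denominator `D1`, a form not in `II`; so `f(A)` is contained in the ring of the fractions `aeval P G / (aeval P D1) ^ r`, `G` any polynomial, i.e. in `B := ` (localisation of `kP P` at `aeval P D1`, as a subalgebra of `K`, or `Localization.Away`). `exists_spec` gives `φ : kP P → κ`,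
`pR P l ↦ x l`, which extends to `B` because `φ (D1(P)) = D1(x) ≠ 0` (`IsLocalization.Away.lift`). `s0 := (B → κ) ∘ f`. For `f a * aeval P D = aeval P G` the same holds in `B`, apply the homomorphism. (Work with `Localization.Away (aeval (pR P) D1)` and its injective map to `K`, see `H9_factor` in LibHP/H9.lean and LibHPF/P5b.lean.) -/

private theorem G8_val {k K : Type} [Field k] [Field K] [Algebra k K] {n : ℕ}
    (P : Fin (n + 1) → K) (G : MvPolynomial (Fin (n + 1)) k) :
    algebraMap (kP (k := k) P) K (aeval (pR P) G) = aeval P G := by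
  have h1 : ((kP (k := k) P).val.comp (aeval (pR P)) : MvPolynomial (Fin (n + 1)) k →ₐ[k] K) =
      aeval P := by
    refine MvPolynomial.algHom_ext fun l => ?_
    rw [AlgHom.comp_apply, aeval_X, aeval_X]
    rfl
  exact DFunLike.congr_fun h1 G

private theorem G8_map {k K κ : Type} [Field k] [Field K] [Algebra k K] [Field κ] [Algebra k κ]
    {n : ℕ} (P : Fin (n + 1) → K) (φ : kP (k := k) P →ₐ[k] κ) {x : Fin (n + 1) → κ}
    (hφ : ∀ l, φ (pR P l) = x l) (G : MvPolynomial (Fin (n + 1)) k) :
    φ (aeval (pR P) G) = aeval x G := by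
  have h1 : (φ.comp (aeval (pR P)) : MvPolynomial (Fin (n + 1)) k →ₐ[k] κ) = aeval x := by
    refine MvPolynomial.algHom_ext fun l => ?_
    rw [AlgHom.comp_apply, aeval_X, aeval_X, hφ]
  exact DFunLike.congr_fun h1 G

theorem exists_spec_alg {k : Type} [Field k] {n a e : ℕ} (S : Sys k n a e) {K : Type} [Field K]
    [Algebra k K] (P : Fin (n + 1) → K) (hP : S.IsPt P)
    (hgen : GenOver k P) (A : Type) [CommRing A] [Algebra k A]
    [Algebra.FiniteType k A] (f : A →ₐ[k] K) :
    ∃ (m : ℕ) (D1 : MvPolynomial (Fin (n + 1)) k), D1.IsHomogeneous m ∧ D1 ∉ S.II ∧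
      ∀ (κ : Type) [Field κ] [Algebra k κ] (x : Fin (n + 1) → κ), x 0 = 1 →
        (∀ o, aeval x (S.fam o) = 0) → aeval x D1 ≠ 0 →
        ∃ s0 : A →ₐ[k] κ, ∀ (a : A) (D G : MvPolynomial (Fin (n + 1)) k),
          f a * aeval P D = aeval P G → s0 a * aeval x D = aeval x G := by
  classical
  obtain ⟨Sg, hSg⟩ := Algebra.FiniteType.out (R := k) (A := A)
  obtain ⟨m, D1, Gd, hD1, -, hD1I, hc⟩ := exists_common_den S P hP hgen (fun s : Sg => f s)
  refine ⟨m, D1, hD1, hD1I, ?_⟩
  obtain ⟨g, hg⟩ : ∃ g : kP (k := k) P, g = aeval (pR P) D1 := ⟨_, rfl⟩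
  have hinj : Function.Injective (algebraMap (kP (k := k) P) K) := Subtype.val_injective
  have hgF : algebraMap (kP (k := k) P) K g ≠ 0 := by
    rw [hg, G8_val]
    exact fun h => hD1I ((hP.2 m D1 hD1).1 h)
  have hgval : algebraMap (kP (k := k) P) K g = aeval P D1 := by
    rw [hg, G8_val]
  have hg0 : g ≠ 0 := fun h => hgF (by rw [h, map_zero])
  have hunit : ∀ y : Submonoid.powers g, IsUnit (IsScalarTower.toAlgHom k
      (kP (k := k) P) K y) := by
    rintro ⟨y, m, rfl⟩
    simp only [IsScalarTower.coe_toAlgHom', map_pow]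
    exact (isUnit_iff_ne_zero.2 hgF).pow m
  have hle : Submonoid.powers g ≤ nonZeroDivisors (kP (k := k) P) :=
    powers_le_nonZeroDivisors_of_noZeroDivisors hg0
  obtain ⟨j, hj⟩ : ∃ j : Localization.Away g →ₐ[k] K,
      j = IsLocalization.liftAlgHom (M := Submonoid.powers g) hunit := ⟨_, rfl⟩
  have hjalg : ∀ p : kP (k := k) P, j (algebraMap _ _ p) = algebraMap _ _ p := by
    intro p
    rw [hj, IsLocalization.liftAlgHom_apply, IsLocalization.lift_eq]
    rfl
  have hjinj : Function.Injective j := by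
    rw [hj, IsLocalization.coe_liftAlgHom, IsLocalization.lift_injective_iff]
    intro x y
    constructor
    · intro h
      rw [IsLocalization.injective (Localization.Away g) hle h]
    · intro h
      rw [hinj h]
  have hrange : ∀ a : A, f a ∈ j.range := by
    have h1 : Algebra.adjoin k (Sg : Set A) ≤ (j.range).comap f := by
      apply Algebra.adjoin_le
      intro s hs
      have hp := hc ⟨s, hs⟩
      show f s ∈ j.range
      refine ⟨IsLocalization.mk' (Localization.Away g) (aeval (pR P) (Gd ⟨s, hs⟩))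
        ⟨g, Submonoid.mem_powers g⟩, ?_⟩
      have h2 := IsLocalization.mk'_spec (Localization.Away g) (aeval (pR P) (Gd ⟨s, hs⟩))
        (⟨g, Submonoid.mem_powers g⟩ : Submonoid.powers g)
      have h3 := congrArg j h2
      rw [map_mul, hjalg, hjalg, G8_val, ← hp] at h3
      have h4 : j (IsLocalization.mk' (Localization.Away g) (aeval (pR P) (Gd ⟨s, hs⟩))
          ⟨g, Submonoid.mem_powers g⟩) * algebraMap (kP (k := k) P) K g =
          f s * algebraMap (kP (k := k) P) K g := by
        have h5 : f s * aeval P D1 = f s * algebraMap (kP (k := k) P) K g := by rw [hgval]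
        exact h3.trans h5
      exact mul_right_cancel₀ hgF h4
    intro a
    have : a ∈ Algebra.adjoin k (Sg : Set A) := by rw [hSg]; trivial
    exact h1 this
  have hfac : ∃ t : A →ₐ[k] Localization.Away g, ∀ a, j (t a) = f a := by
    refine ⟨((AlgEquiv.ofInjective j hjinj).symm : j.range →ₐ[k] Localization.Away g).comp
      (f.codRestrict j.range hrange), fun a => ?_⟩
    have : AlgEquiv.ofInjective j hjinj ((AlgEquiv.ofInjective j hjinj).symm
        (f.codRestrict j.range hrange a)) = f.codRestrict j.range hrange a :=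
      AlgEquiv.apply_symm_apply _ _
    exact congrArg Subtype.val this
  obtain ⟨t, ht⟩ := hfac
  intro κ _ _ x hx0 hx hxD
  obtain ⟨φ, hφ⟩ := exists_spec S P hP x hx0 hx
  have hunit' : ∀ y : Submonoid.powers g, IsUnit (φ y) := by
    rintro ⟨y, m, rfl⟩
    have h1 : φ g ≠ 0 := by
      rw [hg, G8_map P φ hφ]
      exact hxD
    show IsUnit (φ (g ^ m))
    rw [map_pow]
    exact (isUnit_iff_ne_zero.2 h1).pow m
  obtain ⟨ψ, hψ⟩ : ∃ ψ : Localization.Away g →ₐ[k] κ,
      ψ = IsLocalization.liftAlgHom (M := Submonoid.powers g) hunit' := ⟨_, rfl⟩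
  have hψalg : ∀ p : kP (k := k) P, ψ (algebraMap _ _ p) = φ p := by
    intro p
    rw [hψ, IsLocalization.liftAlgHom_apply, IsLocalization.lift_eq]
    rfl
  refine ⟨ψ.comp t, fun a D G h => ?_⟩
  have h1 : t a * algebraMap (kP (k := k) P) (Localization.Away g) (aeval (pR P) D) =
      algebraMap (kP (k := k) P) (Localization.Away g) (aeval (pR P) G) := by
    apply hjinj
    rw [map_mul, ht, hjalg, hjalg, G8_val, G8_val, h]
  have h2 := congrArg ψ h1
  rw [map_mul, hψalg, hψalg, G8_map P φ hφ, G8_map P φ hφ] at h2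
  exact h2

end Pool.Agent.LibHP.CIM
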