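import Pool.Agent.LibCIM.G2
import Pool.Agent.LibCIM.G8
import Pool.Agent.LibCIM.G11
import Pool.Agent.LibCIM.G12

set_option autoImplicit false
open MvPolynomial

namespace Pool.Agent.LibHP.CIM

/-! # Row G13 (MEDIUM): assembly: a point of `A` from one good point with the Hilbert property

For every `i` write `T i` as `X ^ d_i + ∑ (j < d_i) C (b j) X ^ j` (`Polynomial.Monic.as_sum`); `exists_common_den` (G0) for the images of its coefficients in `K` gives `m_i, D_i, G_(i,j)`; `no_root_special` (G11) gives the form `H_i`; `exists_spec_alg` (G8) gives `D1`; `good_form` (G10) gives `H'`. `H` := product of all of them (`ι` is finite). For a point `P₀` with `aeval P₀ H ≠ 0`, and `κ, y, E₀, f, t` as in the statement: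
`r := S.resid P' y`; `res_ne` (G9) gives `aeval r D ≠ 0` for every form `D` with `aeval P₀ D ≠ 0`, in particular `r 0 ≠ 0` (`D = X 0`), `x l := r l / r 0`: `x 0 = 1`, a zero of the family (`resid_zero` (T3), `Contact` from `contact_of_zero` (B5), homogeneity), `aeval x D1 ≠ 0`. `exists_spec_alg` gives `s0 : A → κ` with
`s0 b * aeval x D_i = aeval x G_(i,j)`, so also with `r` in place of `x` (forms of the same degree). `no_root_fibre` (G12): `T i` has no root in `κ` via `s0`. `HPField.hom` (G2). (`hy` for forms follows from `hw`: `aeval (t * f y) G = t ^ deg * f (aeval y G)`.) -/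

private theorem G13_smul {k : Type} [Field k] {n : ℕ} {R : Type} [CommRing R] [Algebra k R]
    {G : MvPolynomial (Fin (n + 1)) k} {d : ℕ} (hG : G.IsHomogeneous d) (c : R)
    (r : Fin (n + 1) → R) : aeval (fun l => c * r l) G = c ^ d * aeval r G := by
  have h := aeval_comb hG r r c 0
  rw [zero_smul, add_zero, Finset.sum_range_succ', Finset.sum_eq_zero, zero_add, pow_zero,
    Nat.sub_zero, mul_one, tc_zero] at h
  · exact h
  · intro i _
    rw [pow_succ, mul_zero, mul_zero, zero_mul]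

theorem exists_pt_of_HP {k : Type} [Field k] [CharZero k] {n a e : ℕ} (S : Sys k n a e)
    (hS : S.Good) (hn : ∑ j, S.dg j + e + 1 ≤ n) {K : Type} [Field K] [Algebra k K]
    (P : Fin (n + 1) → K) (hP : S.IsPt P) (hgen : GenOver k P) {Kb : Type} [Field Kb]
    [IsAlgClosed Kb] [Algebra k Kb] [Algebra K Kb] [IsScalarTower k K Kb]
    {Eb : Type} [Field Eb] [Algebra k Eb] [Algebra Kb Eb]
    [IsScalarTower k Kb Eb] (v : Fin (n + 1) → Eb)
    (hv : IsGen (S.JJ (fun l => algebraMap K Kb (P l)) (e - 2)) v)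
    (σ : K →ₐ[k] Eb)
    (hσ : ∀ j, σ (P j) * S.resid (fun l => algebraMap Kb Eb (algebraMap K Kb (P l))) v 0 =
      S.resid (fun l => algebraMap Kb Eb (algebraMap K Kb (P l))) v j)
    (h0 : S.resid (fun l => algebraMap Kb Eb (algebraMap K Kb (P l))) v 0 ≠ 0)
    (A : Type) [CommRing A] [Algebra k A] [Algebra.FiniteType k A] [Algebra A K]
    [IsScalarTower k A K] (ι : Type) [Finite ι] (T : ι → Polynomial A)
    (hT : ∀ i, (T i).Monic)
    (hroot : ∀ i (z : Eb), (T i).eval₂ ((σ : K →+* Eb).comp (algebraMap A K)) z ≠ 0) :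
    ∃ (d : ℕ) (H : MvPolynomial (Fin (n + 1)) k), H.IsHomogeneous d ∧ H ∉ S.II ∧
      ∀ P₀ : Fin (n + 1) → k, P₀ 0 = 1 → (∀ o, aeval P₀ (S.fam o) = 0) → aeval P₀ H ≠ 0 →
        ∀ (κ E₀ : Type) [Field κ] [Algebra k κ] [Field E₀] [Algebra k E₀] (f : κ →ₐ[k] E₀) (t : E₀)
          (y : Fin (n + 1) → κ), t ≠ 0 → IsGen (S.JJ P₀ (e - 2)) (fun i => t * f (y i)) →
          GenOver k (fun i => t * f (y i)) → HPField k κ →
          ∃ φ : A →ₐ[k] k, ∀ i x, ¬ ((T i).map (φ : A →+* k)).IsRoot x := by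
  classical
  have := Fintype.ofFinite ι
  have he : 2 ≤ e := hS.2.1
  -- the denominators
  have hden : ∀ i, ∃ (m : ℕ) (D : MvPolynomial (Fin (n + 1)) k)
      (G : Fin (T i).natDegree → MvPolynomial (Fin (n + 1)) k),
      D.IsHomogeneous m ∧ (∀ j, (G j).IsHomogeneous m) ∧ D ∉ S.II ∧
        ∀ j, algebraMap A K ((T i).coeff j.val) * aeval P D = aeval P (G j) := fun i =>
    exists_common_den S P hP hgen (fun j : Fin (T i).natDegree =>
      algebraMap A K ((T i).coeff j.val))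
  choose m D G hD hG hDI hc using hden
  have hexp : ∀ {B : Type} [Field B] (g : A →+* B) (i : ι) (z : B),
      (T i).eval₂ g z = z ^ (T i).natDegree +
        ∑ j : Fin (T i).natDegree, g ((T i).coeff j.val) * z ^ j.val := by
    intro B _ g i z
    conv_lhs => rw [(hT i).as_sum]
    rw [Polynomial.eval₂_add, Polynomial.eval₂_pow, Polynomial.eval₂_X, Polynomial.eval₂_finset_sum,
      Finset.sum_range]
    congr 1
    refine Finset.sum_congr rfl fun j _ => ?_
    rw [Polynomial.eval₂_mul, Polynomial.eval₂_C, Polynomial.eval₂_pow, Polynomial.eval₂_X]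
  have hspecial : ∀ i, ∃ (d' : ℕ) (H : MvPolynomial (Fin (n + 1)) k), H.IsHomogeneous d' ∧
      H ∉ S.II ∧ ∀ P₀ : Fin (n + 1) → k, P₀ 0 = 1 → (∀ o, aeval P₀ (S.fam o) = 0) →
        aeval P₀ H ≠ 0 → (S.JJ P₀ (e - 2)).IsPrime → ∀ U : MvPolynomial (Fin (n + 1)) k,
          U ^ (T i).natDegree + ∑ j : Fin (T i).natDegree, aeval (S.res P₀) (G i j) *
            aeval (S.res P₀) (D i) ^ ((T i).natDegree - 1 - j.val) * U ^ j.val ∉
            S.JJ P₀ (e - 2) := by
    intro i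
    refine no_root_special S hS P hP v hv σ hσ h0 (m i) (T i).natDegree (D i) (hD i) (hDI i)
      (G i) (hG i) (fun j => algebraMap A K ((T i).coeff j.val)) (hc i) fun z => ?_
    have h1 := hroot i z
    rw [hexp] at h1
    exact h1
  choose d' H hH hHI hHU using hspecial
  obtain ⟨m1, D1, hD1, hD1I, hspec⟩ := exists_spec_alg S P hP hgen A
    (IsScalarTower.toAlgHom k A K)
  obtain ⟨d'', H', hH', hH'I, hgood⟩ := good_form S hS hn P hP
  have hne : ∀ {d : ℕ} {F : MvPolynomial (Fin (n + 1)) k}, F.IsHomogeneous d → F ∉ S.II →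
      aeval P F ≠ 0 := fun hF hFI h => hFI ((hP.2 _ _ hF).1 h)
  have hhom : ((∏ i, D i * H i) * D1 * H').IsHomogeneous ((∑ i, (m i + d' i)) + m1 + d'') :=
    ((IsHomogeneous.prod _ _ _ fun i _ => (hD i).mul (hH i)).mul hD1).mul hH'
  refine ⟨_, _, hhom, ?_, ?_⟩
  · intro hmem
    have h1 := (hP.2 _ _ hhom).2 hmem
    rw [map_mul, map_mul, map_prod] at h1
    refine mul_ne_zero (mul_ne_zero (Finset.prod_ne_zero_iff.2 fun i _ => ?_) (hne hD1 hD1I))
      (hne hH' hH'I) h1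
    rw [map_mul]
    exact mul_ne_zero (hne (hD i) (hDI i)) (hne (hH i) (hHI i))
  intro P₀ hP0 hfam hPH κ E₀ _ _ _ _ f t y ht hgw hgo hHP
  rw [map_mul, map_mul, map_prod] at hPH
  have hPH' : aeval P₀ H' ≠ 0 := right_ne_zero_of_mul hPH
  have hPD1 : aeval P₀ D1 ≠ 0 := right_ne_zero_of_mul (left_ne_zero_of_mul hPH)
  have hPi : ∀ i, aeval P₀ (D i) ≠ 0 ∧ aeval P₀ (H i) ≠ 0 := by
    intro i
    have h1 := Finset.prod_ne_zero_iff.1 (left_ne_zero_of_mul (left_ne_zero_of_mul hPH)) i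
      (Finset.mem_univ i)
    rw [map_mul] at h1
    exact ⟨left_ne_zero_of_mul h1, right_ne_zero_of_mul h1⟩
  obtain ⟨hsm, hpr2, hpr1, hcfe⟩ := hgood k P₀ hP0 hfam hPH'
  -- the generic point of the fibre
  have hy : ∀ (d : ℕ) (F : MvPolynomial (Fin (n + 1)) k), F.IsHomogeneous d →
      (aeval y F = 0 ↔ F ∈ S.JJ P₀ (e - 2)) := by
    intro d F hF
    rw [← hgw F, G13_smul hF t fun i => f (y i)]
    have h1 : aeval (fun i => f (y i)) F = f (aeval y F) := by
      rw [← comp_aeval_apply]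
    rw [h1]
    constructor
    · intro h
      rw [h, map_zero, mul_zero]
    · intro h
      exact (map_eq_zero f).1 ((mul_eq_zero.1 h).resolve_left (pow_ne_zero d ht))
  obtain ⟨r, hr⟩ : ∃ r : Fin (n + 1) → κ, r = S.resid (fun l => algebraMap k κ (P₀ l)) y :=
    ⟨_, rfl⟩
  have hrne : ∀ (d : ℕ) (F : MvPolynomial (Fin (n + 1)) k), F.IsHomogeneous d →
      aeval P₀ F ≠ 0 → aeval r F ≠ 0 := by
    intro d F hF hF0
    rw [hr]
    exact res_ne S he P₀ hpr1 hcfe y hy d F hF hF0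
  have hr0 : r 0 ≠ 0 := by
    have h1 := hrne 1 (X 0) (isHomogeneous_X k 0) (by rw [aeval_X, hP0]; exact one_ne_zero)
    rwa [aeval_X] at h1
  have hcon : S.Contact (fun l => algebraMap k κ (P₀ l)) y (e - 2) := by
    refine ((contact_of_zero S P₀ hfam (e - 2) y).1 fun o => ?_).2
    exact (hy _ _ (cone_hom S P₀ (e - 2) o)).2 (Ideal.subset_span ⟨o, rfl⟩)
  obtain ⟨x, hx⟩ : ∃ x : Fin (n + 1) → κ, x = fun l => (r 0)⁻¹ * r l := ⟨_, rfl⟩
  have hx0 : x 0 = 1 := by
    rw [hx]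
    exact inv_mul_cancel₀ hr0
  have hxhom : ∀ {d : ℕ} {F : MvPolynomial (Fin (n + 1)) k}, F.IsHomogeneous d →
      aeval x F = (r 0)⁻¹ ^ d * aeval r F := by
    intro d F hF
    rw [hx]
    exact G13_smul hF _ r
  have hxfam : ∀ o, aeval x (S.fam o) = 0 := by
    intro o
    rw [hxhom (S.fam_hom o), hr, resid_zero S he _ _ hcon o, mul_zero]
  have hxD1 : aeval x D1 ≠ 0 := by
    rw [hxhom hD1]
    exact mul_ne_zero (pow_ne_zero _ (inv_ne_zero hr0)) (hrne _ _ hD1 hPD1)
  obtain ⟨s0, hs0⟩ := hspec κ x hx0 hxfam hxD1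
  refine hHP.hom A s0 ι T hT fun i z => ?_
  rw [hexp]
  refine no_root_fibre S he hn P₀ hsm (m i) (T i).natDegree (D i) (hD i) (G i) (hG i)
    (hHU i P₀ hP0 hfam (hPi i).2 hpr2) f t ht y hgw hgo ?_ (fun j => s0 ((T i).coeff j.val)) ?_ z
  · rw [← hr]
    exact hrne _ _ (hD i) (hPi i).1
  · intro j
    rw [← hr]
    have h1 := hs0 ((T i).coeff j.val) (D i) (G i j) (hc i j)
    rw [hxhom (hD i), hxhom (hG i j), mul_left_comm] at h1
    exact mul_left_cancel₀ (pow_ne_zero _ (inv_ne_zero hr0)) h1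

end Pool.Agent.LibHP.CIM
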