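import Pool.Agent.LibCIM.GDefs
import Pool.Agent.LibCIM.ADefs

set_option autoImplicit false
open MvPolynomial

namespace Pool.Agent.LibHP.CIM

/-! # Row G7 (MEDIUM): the generic point of the cone over a projective variety

In `RatFunc κ`, `w i := X * C (y i)`. `aeval w G = ∑ e, X ^ e * C (aeval y (G_e))` (homogeneous components, `homogeneousComponent`, `sum_homogeneousComponent`), which vanishes iff all `aeval y (G_e) = 0` (`RatFunc.C`, `RatFunc.X`: image of a polynomial with these coefficients, `RatFunc.algebraMap_injective`), iff all `G_e ∈ J`, iff `G ∈ J`.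
`GenOver k w`: the set of the `z` with `z * aeval w H = aeval w G`, `aeval w H ≠ 0`, is a subfield (use `IntermediateField.adjoin k (range w)`; for its elements see `IntermediateField.mem_adjoin_range_iff` or `mem_adjoin_iff_div`) containing `X = w l`, `y i = w i / w l`, hence `C κ` (`GenOver k y`), all polynomials and all fractions (`RatFunc.induction_on`). -/

/-- helper: the coefficients of the value at the generic point of the cone -/
private theorem g7_coeff {k κ : Type} [Field k] [Field κ] [Algebra k κ] {N : ℕ}
    (y : Fin N → κ) (G : MvPolynomial (Fin N) k) (e : ℕ) :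
    (aeval (fun i => (Polynomial.X * Polynomial.C (y i) : Polynomial κ)) G).coeff e =
      aeval y (homogeneousComponent e G) := by
  induction G using MvPolynomial.induction_on' with
  | monomial m a =>
    have h1 : (monomial m a : MvPolynomial (Fin N) k) ∈ homogeneousSubmodule (Fin N) k m.degree :=
      (mem_homogeneousSubmodule _ _).2 (isHomogeneous_monomial a rfl)
    rw [homogeneousComponent_of_mem h1, aeval_monomial]
    have h2 : (m.prod fun i j => (Polynomial.X * Polynomial.C (y i) : Polynomial κ) ^ j) =
        Polynomial.X ^ m.degree * Polynomial.C (m.prod fun i j => y i ^ j) := by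
      rw [Finsupp.prod, Finsupp.prod, map_prod]
      have h3 : m.degree = ∑ i ∈ m.support, m i := rfl
      rw [h3, ← Finset.prod_pow_eq_pow_sum, ← Finset.prod_mul_distrib]
      refine Finset.prod_congr rfl fun i _ => ?_
      rw [mul_pow, map_pow]
    have h4 : (algebraMap k (Polynomial κ)) a = Polynomial.C (algebraMap k κ a) := rfl
    rw [h2, h4, ← mul_assoc, mul_comm (Polynomial.C _) (Polynomial.X ^ _), mul_assoc, ← Polynomial.C_mul,
      mul_comm (Polynomial.X ^ _), Polynomial.coeff_C_mul, Polynomial.coeff_X_pow]
    by_cases h5 : e = m.degree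
    · rw [if_pos h5, if_pos h5, mul_one, aeval_monomial]
    · rw [if_neg h5, if_neg h5, mul_zero, map_zero]
  | add p q hp hq =>
    rw [map_add, map_add, map_add, Polynomial.coeff_add, hp, hq]

/-- helper: the value in the rational functions is the image of the value in the polynomials -/
private theorem g7_aeval {k κ : Type} [Field k] [Field κ] [Algebra k κ] {N : ℕ}
    (y : Fin N → κ) (G : MvPolynomial (Fin N) k) :
    aeval (fun i => (RatFunc.X * RatFunc.C (y i) : RatFunc κ)) G =
      algebraMap (Polynomial κ) (RatFunc κ)
        (aeval (fun i => (Polynomial.X * Polynomial.C (y i) : Polynomial κ)) G) := by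
  rw [← MvPolynomial.aeval_algebraMap_apply]
  congr 2
  funext i
  rw [Function.comp_apply, map_mul, RatFunc.algebraMap_X, RatFunc.algebraMap_C]

theorem isGen_ratFunc {k κ : Type} [Field k] [Field κ] [Algebra k κ] {N : ℕ}
    (J : Ideal (MvPolynomial (Fin N) k)) (hJ : ∀ G ∈ J, ∀ e, homogeneousComponent e G ∈ J)
    (y : Fin N → κ) (l : Fin N) (h : IsPrj J y l) :
    IsGen J (fun i => (RatFunc.X * RatFunc.C (y i) : RatFunc κ)) ∧
      GenOver k (fun i => (RatFunc.X * RatFunc.C (y i) : RatFunc κ)) := by
  classical
  obtain ⟨h1, h2, h3⟩ := h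
  have hw : ∀ G : MvPolynomial (Fin N) k,
      aeval (fun i => (RatFunc.X * RatFunc.C (y i) : RatFunc κ)) G = 0 ↔
        ∀ e, aeval y (homogeneousComponent e G) = 0 := by
    intro G
    rw [g7_aeval, map_eq_zero_iff _ (RatFunc.algebraMap_injective κ)]
    constructor
    · intro h4 e
      rw [← g7_coeff, h4, Polynomial.coeff_zero]
    · intro h4
      ext e
      rw [g7_coeff, h4, Polynomial.coeff_zero]
  constructor
  · intro G
    rw [hw]
    constructor
    · intro h4
      rw [← sum_homogeneousComponent G]
      exact J.sum_mem fun e _ =>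
        (h2 e _ (homogeneousComponent_isHomogeneous e G)).1 (h4 e)
    · intro h4 e
      exact (h2 e _ (homogeneousComponent_isHomogeneous e G)).2 (hJ G h4 e)
  · set w : Fin N → RatFunc κ := fun i => (RatFunc.X * RatFunc.C (y i) : RatFunc κ) with hwdef
    have hCC : ∀ a : k, algebraMap k (RatFunc κ) a = RatFunc.C (algebraMap k κ a) := by
      intro a
      rw [← RatFunc.algebraMap_C]
      rfl
    set L : IntermediateField k (RatFunc κ) := IntermediateField.adjoin k (Set.range w) with hL
    have hwL : ∀ i, w i ∈ L := fun i => IntermediateField.subset_adjoin k _ ⟨i, rfl⟩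
    have hX : (RatFunc.X : RatFunc κ) ∈ L := by
      have := hwL l
      rw [hwdef] at this
      simp only [h1, map_one, mul_one] at this
      exact this
    have hy : ∀ i, (RatFunc.C (y i) : RatFunc κ) ∈ L := by
      intro i
      have h5 : (RatFunc.C (y i) : RatFunc κ) = w i / RatFunc.X := by
        rw [hwdef]
        field_simp [RatFunc.X_ne_zero]
      rw [h5]
      exact L.div_mem (hwL i) hX
    have hCa : ∀ G : MvPolynomial (Fin N) k, (RatFunc.C (aeval y G) : RatFunc κ) ∈ L := by
      intro G
      induction G using MvPolynomial.induction_on with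
      | C a =>
        rw [MvPolynomial.aeval_C, ← hCC]
        exact L.algebraMap_mem a
      | add p q hp hq =>
        rw [map_add, map_add]
        exact L.add_mem hp hq
      | mul_X p i hp =>
        rw [map_mul, map_mul, aeval_X]
        exact L.mul_mem hp (hy i)
    have hC : ∀ c : κ, (RatFunc.C c : RatFunc κ) ∈ L := by
      intro c
      obtain ⟨G, H, hH, hGH⟩ := h3 c
      have h6 : (RatFunc.C c : RatFunc κ) = RatFunc.C (aeval y G) / RatFunc.C (aeval y H) := by
        rw [eq_div_iff (by rw [Ne, map_eq_zero]; exact hH), ← map_mul, hGH]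
      rw [h6]
      exact L.div_mem (hCa G) (hCa H)
    have hP : ∀ p : Polynomial κ, algebraMap (Polynomial κ) (RatFunc κ) p ∈ L := by
      intro p
      induction p using Polynomial.induction_on' with
      | add p q hp hq =>
        rw [map_add]
        exact L.add_mem hp hq
      | monomial n a =>
        rw [← Polynomial.C_mul_X_pow_eq_monomial, map_mul, map_pow, RatFunc.algebraMap_X,
          RatFunc.algebraMap_C]
        exact L.mul_mem (hC a) (L.pow_mem hX n)
    intro z
    have hz : z ∈ L := by
      rw [← RatFunc.num_div_denom z]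
      exact L.div_mem (hP _) (hP _)
    rw [hL, IntermediateField.mem_adjoin_range_iff] at hz
    obtain ⟨r, s, hz⟩ := hz
    by_cases hs : aeval w s = 0
    · refine ⟨0, 1, ?_, ?_⟩
      · rw [map_one]
        exact one_ne_zero
      · rw [hz, hs, div_zero, zero_mul, map_zero]
    · exact ⟨r, s, hs, by rw [hz, div_mul_cancel₀ _ hs]⟩

end Pool.Agent.LibHP.CIM
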