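import Pool.Agent.LibCIM.GDefs
import Pool.Agent.LibCIM.G7

set_option autoImplicit false
open MvPolynomial

namespace Pool.Agent.LibHP.CIM

/-! # Row G14 (SHORT): the two forms of the hypothesis

`fibre_of_coneHP`: `κ = E₀ = FunField J`, `f = AlgHom.id`, `t = 1`, `y i` the class of `X i` (`Ideal.Quotient.mk`, `algebraMap`): `aeval y G = algebraMap _ _ (Ideal.Quotient.mk J G)`, zero iff `G ∈ J`; `GenOver`: `IsFractionRing.div_surjective`, `Ideal.Quotient.mk_surjective`. (`h : ∃ h : J.IsPrime, ..`.) -/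

/-- the fibres: the cone -/
theorem fibre_of_coneHP {k : Type} [Field k] {N : ℕ} (J : Ideal (MvPolynomial (Fin N) k))
    (h : ConeHP J) :
    ∃ (κ E₀ : Type) (_ : Field κ) (_ : Algebra k κ) (_ : Field E₀) (_ : Algebra k E₀)
      (f : κ →ₐ[k] E₀) (t : E₀) (y : Fin N → κ), t ≠ 0 ∧ IsGen J (fun i => t * f (y i)) ∧
      GenOver k (fun i => t * f (y i)) ∧ HPField k κ := by
  obtain ⟨hp, hHP⟩ := h
  haveI := hp
  have hval : ∀ G : MvPolynomial (Fin N) k,
      aeval (fun i : Fin N => (1 : FunField J) * (AlgHom.id k (FunField J))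
        (algebraMap (MvPolynomial (Fin N) k ⧸ J) (FunField J) (Ideal.Quotient.mk J (X i)))) G =
      algebraMap (MvPolynomial (Fin N) k ⧸ J) (FunField J) (Ideal.Quotient.mk J G) := by
    intro G
    have h1 : (aeval (fun i : Fin N => (1 : FunField J) * (AlgHom.id k (FunField J))
        (algebraMap (MvPolynomial (Fin N) k ⧸ J) (FunField J) (Ideal.Quotient.mk J (X i)))) :
        MvPolynomial (Fin N) k →ₐ[k] FunField J) =
        (IsScalarTower.toAlgHom k (MvPolynomial (Fin N) k ⧸ J) (FunField J)).comp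
          (Ideal.Quotient.mkₐ k J) := by
      refine MvPolynomial.algHom_ext (fun i => ?_)
      simp
    rw [h1]
    rfl
  refine ⟨FunField J, FunField J, inferInstance, inferInstance, inferInstance, inferInstance,
    AlgHom.id k (FunField J), 1,
    fun i => algebraMap (MvPolynomial (Fin N) k ⧸ J) (FunField J) (Ideal.Quotient.mk J (X i)),
    one_ne_zero, ?_, ?_, hHP⟩
  · intro G
    rw [hval G]
    rw [map_eq_zero_iff _ (IsFractionRing.injective (MvPolynomial (Fin N) k ⧸ J) (FunField J))]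
    exact Ideal.Quotient.eq_zero_iff_mem
  · intro z
    obtain ⟨a, b, hb, hab⟩ := IsFractionRing.div_surjective (A := MvPolynomial (Fin N) k ⧸ J) z
    obtain ⟨G, rfl⟩ := Ideal.Quotient.mk_surjective a
    obtain ⟨H, rfl⟩ := Ideal.Quotient.mk_surjective b
    have hH : algebraMap (MvPolynomial (Fin N) k ⧸ J) (FunField J) (Ideal.Quotient.mk J H) ≠ 0 :=
      IsFractionRing.to_map_ne_zero_of_mem_nonZeroDivisors hb
    refine ⟨G, H, ?_, ?_⟩
    · rw [hval H]
      exact hH
    · rw [hval H, hval G, ← hab, div_mul_cancel₀ _ hH]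

/-- the fibres: the projective variety -/
theorem fibre_of_prjHP {k : Type} [Field k] {N : ℕ} (J : Ideal (MvPolynomial (Fin N) k))
    (hJ : ∀ G ∈ J, ∀ e, homogeneousComponent e G ∈ J) (h : PrjHP J) :
    ∃ (κ E₀ : Type) (_ : Field κ) (_ : Algebra k κ) (_ : Field E₀) (_ : Algebra k E₀)
      (f : κ →ₐ[k] E₀) (t : E₀) (y : Fin N → κ), t ≠ 0 ∧ IsGen J (fun i => t * f (y i)) ∧
      GenOver k (fun i => t * f (y i)) ∧ HPField k κ := by
  obtain ⟨κ, _, _, y, l, hy, hHP⟩ := h
  obtain ⟨h1, h2⟩ := isGen_ratFunc J hJ y l hy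
  refine ⟨κ, RatFunc κ, inferInstance, inferInstance, inferInstance, inferInstance,
    IsScalarTower.toAlgHom k κ (RatFunc κ), RatFunc.X, y, RatFunc.X_ne_zero, ?_, ?_, hHP⟩
  · exact h1
  · exact h2

end Pool.Agent.LibHP.CIM
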