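import Pool.Agent.LibCIM.HDefs
import Pool.Agent.LibCIM.B6
import Pool.Agent.LibCIM.B13b
import Pool.Agent.LibCIM.G13
import Pool.Agent.LibCIM.G14

set_option autoImplicit false
open MvPolynomial

namespace Pool.Agent.LibHP.CIM

/-! # Row C3: specialisation to the fibres -/

theorem JJ_hom {k : Type} [Field k] {n a e : ℕ} (S : Sys k n a e) (P : Fin (n + 1) → k) (s : ℕ)
    (G : MvPolynomial (Fin (n + 1)) k) (hG : G ∈ S.JJ P s) (d : ℕ) :
    homogeneousComponent d G ∈ S.JJ P s := by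
  let _ : GradedAlgebra (homogeneousSubmodule (Fin (n + 1)) k) := gradedAlgebra
  exact (mem_iff_homogeneousComponent_mem (Ideal.homogeneous_span _ _ (by
    rintro x ⟨o, rfl⟩
    exact ⟨S.coneDeg s o, cone_hom S P s o⟩)) G).1 hG d

theorem spec_of_denseHP {k : Type} [Field k] [NumberField k] {n a e : ℕ} (S : Sys k n a e)
    (hS : S.Good) (hn : ∑ j, S.dg j + e + 1 ≤ n) (hd : S.DenseHP) {K : Type} [Field K] [Algebra k K]
    (P : Fin (n + 1) → K) (hP : S.IsPt P) (hgen : GenOver k P) {Kb : Type} [Field Kb]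
    [IsAlgClosed Kb] [Algebra k Kb] [Algebra K Kb] [IsScalarTower k K Kb]
    [Algebra.IsAlgebraic K Kb] {Eb : Type} [Field Eb] [Algebra k Eb] [Algebra Kb Eb]
    [IsScalarTower k Kb Eb] (v : Fin (n + 1) → Eb)
    (hv : IsGen (S.JJ (fun l => algebraMap K Kb (P l)) (e - 2)) v) (hgv : GenOver Kb v)
    (σ : K →ₐ[k] Eb)
    (hσ : ∀ j, σ (P j) * S.resid (fun l => algebraMap Kb Eb (algebraMap K Kb (P l))) v 0 =
      S.resid (fun l => algebraMap Kb Eb (algebraMap K Kb (P l))) v j)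
    (h0 : S.resid (fun l => algebraMap Kb Eb (algebraMap K Kb (P l))) v 0 ≠ 0)
    (A : Type) [CommRing A] [IsDomain A] [Algebra k A] [Algebra.FiniteType k A] [Algebra A K]
    [IsFractionRing A K] [IsScalarTower k A K] (ι : Type) [Finite ι] (T : ι → Polynomial A)
    (hT : ∀ i, (T i).Monic)
    (hroot : ∀ i (z : Eb), (T i).eval₂ ((σ : K →+* Eb).comp (algebraMap A K)) z ≠ 0) :
    ∃ φ : A →ₐ[k] k, ∀ i x, ¬ ((T i).map (φ : A →+* k)).IsRoot x := by
  obtain ⟨d, H, hH, hHI, h⟩ := exists_pt_of_HP S hS hn P hP hgen v hv σ hσ h0 A ι T hT hroot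
  obtain ⟨P₀, h1, h2, h3, h4⟩ := hd d H hH hHI
  rcases h4 with h4 | h4
  · obtain ⟨κ, E₀, _, _, _, _, f, t, y, h5, h6, h7, h8⟩ := fibre_of_coneHP _ h4
    exact h P₀ h1 h2 h3 κ E₀ f t y h5 h6 h7 h8
  · obtain ⟨κ, E₀, _, _, _, _, f, t, y, h5, h6, h7, h8⟩ :=
      fibre_of_prjHP _ (fun G hG e' => JJ_hom S P₀ (e - 2) G hG e') h4
    exact h P₀ h1 h2 h3 κ E₀ f t y h5 h6 h7 h8

end Pool.Agent.LibHP.CIM
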