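import Pool.Agent.LibCIM.CDefs
import Pool.Agent.LibHPF.P11

set_option autoImplicit false
open AlgebraicGeometry CategoryTheory

namespace Pool.Agent.LibHP.CIM

/-! # Row C4 (MEDIUM): the criterion

Copy the proofs of `exists_point_of_moves` (LibHPF/P6.lean) and `main_moves` (LibHPF/P11.lean). Type I: `T x := ∀ z : E, (Q x.1 x.2).eval₂ (σ.comp (algebraMap A K)) z ≠ 0`. Type II: `hsplit` gives `AllEmbIn σ (AdjoinRoot q)`, `hpres` + `exists_const_of_presAt` (P9) give the new constant, `no_root_of_const` the element `dd`. Then `hspec` is applied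
to `A' := Localization.Away d` (a domain of finite type over `k`, `IsFractionRing A' K` with the algebra structure `A' → K` from `IsLocalization.lift`) and the polynomials of type I. `hilbertProp_of_points` (P1) is the first step. No finiteness of the ramified points is needed here (`hpres` holds at all points of codimension one). -/

theorem hilbert_of_spec (k : Type) [Field k] [NumberField k] {X : Scheme}
    (f : X ⟶ Spec (CommRingCat.of k)) [IsIntegral X] [Smooth f] [IsSeparated f] [QuasiCompact f]
    (hsc : GeomSimplyConnected f) (E : Type) [Field E] (σ : X.functionField →+* E)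
    (hspec : ∀ (A : Type) [CommRing A] [IsDomain A] [Algebra k A] [Algebra.FiniteType k A]
      [Algebra A X.functionField] [IsFractionRing A X.functionField],
      (∀ c : k, algebraMap A X.functionField (algebraMap k A c) = toStalk f (genericPoint X) c) →
      ∀ (ι : Type) [Finite ι] (T : ι → Polynomial A), (∀ i, (T i).Monic) →
      (∀ i (z : E), (T i).eval₂ (σ.comp (algebraMap A X.functionField)) z ≠ 0) →
      ∃ φ : A →ₐ[k] k, ∀ i x, ¬ ((T i).map (φ : A →+* k)).IsRoot x)
    (hsplit : ∀ (q : Polynomial X.functionField) [Fact (Irreducible q)], q.Monic →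
      (∃ z : E, q.eval₂ σ z = 0) → AllEmbIn σ (AdjoinRoot q))
    (hpres : ∀ (L : Type) [Field L] [Algebra X.functionField L]
      [FiniteDimensional X.functionField L], AllEmbIn σ L →
      ∀ x, ringKrullDim (X.presheaf.stalk x) = 1 → PresAt (algebraMap X.functionField L) x) :
    HilbertProp f := by
  classical
  apply hilbertProp_of_points k f
  intro A _ _ _ _ _ _ _ hA ι _ P hP hroot
  letI : Algebra k X.functionField := (toStalk f (genericPoint X)).toAlgebra
  haveI : IsScalarTower k A X.functionField := IsScalarTower.of_algebraMap_eq fun c => (hA c).symm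
  haveI : CharZero X.functionField :=
    charZero_of_injective_algebraMap (algebraMap k X.functionField).injective
  have hAK : Function.Injective (algebraMap A X.functionField) := IsFractionRing.injective A _
  have hfac : ∀ i, ∃ (m : ℕ) (Q : Fin m → Polynomial A), (∀ j, (Q j).Monic) ∧
      (∀ j, Irreducible ((Q j).map (algebraMap A X.functionField))) ∧
      (∀ j, 2 ≤ (Q j).natDegree) ∧ P i = ∏ j, Q j :=
    fun i => exists_factors A X.functionField (P i) (hP i) (hroot i)
  choose m Q hQm hQirr hQdeg hQprod using hfac
  let T : (Σ i, Fin (m i)) → Prop := fun x => ∀ z : E,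
    (Q x.1 x.2).eval₂ (σ.comp (algebraMap A X.functionField)) z ≠ 0
  have hd : ∀ x : (Σ i, Fin (m i)), ∃ d : A, d ≠ 0 ∧ (T x ∨ ∀ φ : A →ₐ[k] k, φ d ≠ 0 →
      ∀ y : k, ¬ ((Q x.1 x.2).map (φ : A →+* k)).IsRoot y) := by
    intro x
    by_cases hx : T x
    · exact ⟨1, one_ne_zero, Or.inl hx⟩
    · simp only [T, not_forall, not_not] at hx
      obtain ⟨z, hz⟩ := hx
      haveI hfact : Fact (Irreducible ((Q x.1 x.2).map (algebraMap A X.functionField))) :=
        ⟨hQirr x.1 x.2⟩
      have hAll := hsplit ((Q x.1 x.2).map (algebraMap A X.functionField)) ((hQm x.1 x.2).map _)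
        ⟨z, by rw [Polynomial.eval₂_map]; exact hz⟩
      haveI : FiniteDimensional X.functionField
          (AdjoinRoot ((Q x.1 x.2).map (algebraMap A X.functionField))) :=
        (AdjoinRoot.powerBasis hfact.out.ne_zero).finite
      have hrank : Module.finrank X.functionField
          (AdjoinRoot ((Q x.1 x.2).map (algebraMap A X.functionField))) = (Q x.1 x.2).natDegree := by
        rw [(AdjoinRoot.powerBasis hfact.out.ne_zero).finrank, AdjoinRoot.powerBasis_dim,
          Polynomial.natDegree_map_eq_of_injective hAK]
      obtain ⟨α, hα1, hα2⟩ := exists_const_of_presAt f hsc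
        (AdjoinRoot ((Q x.1 x.2).map (algebraMap A X.functionField)))
        (by rw [hrank]; exact hQdeg _ _) (hpres _ hAll)
      obtain ⟨d, hd0, hd⟩ := no_root_of_const k A X.functionField (Q x.1 x.2) (hQm _ _) α
        (by rw [← IsScalarTower.algebraMap_eq k A X.functionField]; exact hα1)
        (by
          intro c
          rw [← IsScalarTower.algebraMap_apply k A X.functionField]
          exact hα2 c)
      exact ⟨d, hd0, Or.inr hd⟩
  choose dd hdd0 hdd using hd
  haveI : Fintype (Σ i, Fin (m i)) := Fintype.ofFinite _
  obtain ⟨d, hddef⟩ : ∃ d : A, d = ∏ x, dd x := ⟨_, rfl⟩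
  have hd0 : d ≠ 0 := by
    rw [hddef]
    exact Finset.prod_ne_zero_iff.2 (fun x _ => hdd0 x)
  have hle : Submonoid.powers d ≤ nonZeroDivisors A := powers_le_nonZeroDivisors_of_noZeroDivisors hd0
  haveI : IsDomain (Localization.Away d) := IsLocalization.isDomain_localization hle
  letI : Algebra (Localization.Away d) X.functionField :=
    IsLocalization.localizationAlgebraOfSubmonoidLe (Localization.Away d) X.functionField
      (Submonoid.powers d) (nonZeroDivisors A) hle
  haveI : IsScalarTower A (Localization.Away d) X.functionField :=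
    IsLocalization.localization_isScalarTower_of_submonoid_le (Localization.Away d) X.functionField
      (Submonoid.powers d) (nonZeroDivisors A) hle
  haveI : IsFractionRing (Localization.Away d) X.functionField :=
    IsFractionRing.isFractionRing_of_isDomain_of_isLocalization (Submonoid.powers d)
      (Localization.Away d) X.functionField
  obtain ⟨φ', hφ'⟩ := hspec (Localization.Away d)
    (by
      intro c
      rw [IsScalarTower.algebraMap_apply k A (Localization.Away d),
        ← IsScalarTower.algebraMap_apply A (Localization.Away d) X.functionField]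
      exact hA c)
    {x : (Σ i, Fin (m i)) // T x}
    (fun x => (Q x.1.1 x.1.2).map (algebraMap A (Localization.Away d)))
    (fun x => (hQm x.1.1 x.1.2).map _)
    (by
      rintro ⟨x, hx⟩ z hz
      apply hx z
      rw [Polynomial.eval₂_map, RingHom.comp_assoc,
        ← IsScalarTower.algebraMap_eq A (Localization.Away d) X.functionField] at hz
      exact hz)
  let φ : A →ₐ[k] k := φ'.comp (IsScalarTower.toAlgHom k A (Localization.Away d))
  have hφa : ∀ a, φ a = φ' (algebraMap A (Localization.Away d) a) := fun a => rfl
  have hφd : φ d ≠ 0 := by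
    rw [hφa]
    exact ((IsLocalization.Away.algebraMap_isUnit (S := Localization.Away d) d).map φ').ne_zero
  have hnr : ∀ x : (Σ i, Fin (m i)), ∀ y : k,
      ¬ ((Q x.1 x.2).map (φ : A →+* k)).IsRoot y := by
    intro x y
    rcases hdd x with hx | hx
    · have h1 := hφ' ⟨x, hx⟩ y
      rw [Polynomial.map_map] at h1
      exact h1
    · apply hx φ _ y
      intro h0
      apply hφd
      rw [hddef, map_prod]
      exact Finset.prod_eq_zero (Finset.mem_univ x) h0
  refine ⟨φ, fun i x hx => ?_⟩
  rw [hQprod i, Polynomial.map_prod, Polynomial.IsRoot, Polynomial.eval_prod,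
    Finset.prod_eq_zero_iff] at hx
  obtain ⟨j, _, hj⟩ := hx
  exact hnr ⟨i, j⟩ x hj

end Pool.Agent.LibHP.CIM
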