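import Pool.Agent.LibCIM.B0h
import Pool.Agent.LibCIM.B5
import Pool.Agent.LibCIM.B6

set_option autoImplicit false
open MvPolynomial

namespace Pool.Agent.LibHP.CIM

/-- every prime ideal has a generic zero generating a field -/
theorem exists_isGen {F : Type} [Field F] {N : ℕ} (J : Ideal (MvPolynomial (Fin N) F))
    (hJ : J.IsPrime) : ∃ (E : Type) (_ : Field E) (_ : Algebra F E) (v : Fin N → E),
      IsGen J v ∧ GenOver F v := by
  let A := MvPolynomial (Fin N) F ⧸ J
  let E := FractionRing A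
  let v : Fin N → E := fun i => algebraMap A E (Ideal.Quotient.mk J (X i))
  have hval : ∀ G : MvPolynomial (Fin N) F, aeval v G = algebraMap A E (Ideal.Quotient.mk J G) := by
    intro G
    have h : (aeval v : MvPolynomial (Fin N) F →ₐ[F] E) =
        (IsScalarTower.toAlgHom F A E).comp (Ideal.Quotient.mkₐ F J) := by
      refine MvPolynomial.algHom_ext fun i => ?_
      rw [aeval_X]
      rfl
    rw [h]
    rfl
  have hinj : Function.Injective (algebraMap A E) := IsFractionRing.injective A E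
  refine ⟨E, inferInstance, inferInstance, v, fun G => ?_, fun z => ?_⟩
  · rw [hval, map_eq_zero_iff _ hinj, Ideal.Quotient.eq_zero_iff_mem]
  · obtain ⟨a, b, hb, rfl⟩ := IsFractionRing.div_surjective (A := A) z
    obtain ⟨G, rfl⟩ := Ideal.Quotient.mk_surjective a
    obtain ⟨H, rfl⟩ := Ideal.Quotient.mk_surjective b
    have hH : aeval v H ≠ 0 := by
      rw [hval]
      intro h
      exact nonZeroDivisors.ne_zero hb ((map_eq_zero_iff _ hinj).1 h)
    refine ⟨G, H, hH, ?_⟩
    rw [← hval, ← hval, div_mul_cancel₀ _ hH]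

/-- genericity over a subfield -/
theorem isGen_descend {k : Type} [Field k] {n a e : ℕ} (S : Sys k n a e) {K Kb E : Type} [Field K]
    [Field Kb] [Field E] [Algebra k K] [Algebra k Kb] [Algebra K Kb] [IsScalarTower k K Kb]
    [Algebra K E] [Algebra Kb E] [IsScalarTower K Kb E] (P : Fin (n + 1) → K) (s : ℕ)
    (v : Fin (n + 1) → E) (hv : IsGen (S.JJ (fun l => algebraMap K Kb (P l)) s) v) :
    IsGen (S.JJ P s) v := by
  intro G
  have h1 : aeval v G = aeval v (MvPolynomial.map (algebraMap K Kb) G) :=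
    (aeval_map_algebraMap Kb v G).symm
  rw [h1, hv (MvPolynomial.map (algebraMap K Kb) G), Sys.JJ, Sys.JJ, ← cone_ext S P s]
  constructor
  · exact mem_span_of_ext (S.cone P s) Kb G
  · intro h
    have h2 := Ideal.mem_map_of_mem (MvPolynomial.map (algebraMap K Kb)) h
    rw [Ideal.map_span, ← Set.range_comp] at h2
    exact h2

/-- the generic fibre and the family of residual points -/
theorem exists_family {k : Type} [Field k] [CharZero k] {n a e : ℕ} (S : Sys k n a e) (hS : S.Good)
    (hn : ∑ j, S.dg j + e + 1 ≤ n) {K : Type} [Field K] [Algebra k K] (P : Fin (n + 1) → K)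
    (hP : S.IsPt P) (hgen : GenOver k P) (Kb : Type) [Field Kb] [Algebra k Kb] [Algebra K Kb]
    [IsScalarTower k K Kb] :
    ∃ (Eb : Type) (_ : Field Eb) (_ : Algebra k Eb) (_ : Algebra K Eb) (_ : Algebra Kb Eb)
      (_ : IsScalarTower k Kb Eb) (_ : IsScalarTower K Kb Eb) (_ : IsScalarTower k K Eb)
      (v : Fin (n + 1) → Eb) (σ : K →ₐ[k] Eb),
      IsGen (S.JJ (fun l => algebraMap K Kb (P l)) (e - 2)) v ∧ GenOver Kb v ∧
      S.resid (fun l => algebraMap Kb Eb (algebraMap K Kb (P l))) v 0 ≠ 0 ∧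
      (∀ j, σ (P j) * S.resid (fun l => algebraMap Kb Eb (algebraMap K Kb (P l))) v 0 =
        S.resid (fun l => algebraMap Kb Eb (algebraMap K Kb (P l))) v j) ∧
      ∀ z ∈ IntermediateField.adjoin K (Set.range v),
        (∃ q : Polynomial K, q ≠ 0 ∧ q.eval₂ (σ : K →+* Eb) z = 0) → ∃ a, σ a = z := by
  have hPb : S.IsPt (fun l => algebraMap K Kb (P l)) :=
    IsPt.map hP (IsScalarTower.toAlgHom k K Kb)
  have hs1 : 1 ≤ e - 2 ∨ IsSmoothSys S.Q := by
    rcases hS.2.2.2 with h | h
    · exact Or.inl (by omega)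
    · exact Or.inr h
  have hprime : (S.JJ (fun l => algebraMap K Kb (P l)) (e - 2)).IsPrime :=
    cone_prime S hS _ hPb (e - 2) (Nat.sub_le _ _) hs1 (by have := hS.2.1; omega)
  obtain ⟨Eb, iF, iA, v, hv, hgv⟩ := exists_isGen _ hprime
  letI i1 : Algebra k Eb := ((algebraMap Kb Eb).comp (algebraMap k Kb)).toAlgebra
  letI i2 : Algebra K Eb := ((algebraMap Kb Eb).comp (algebraMap K Kb)).toAlgebra
  haveI t1 : IsScalarTower k Kb Eb := IsScalarTower.of_algebraMap_eq' rfl
  haveI t2 : IsScalarTower K Kb Eb := IsScalarTower.of_algebraMap_eq' rfl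
  haveI t3 : IsScalarTower k K Eb := by
    refine IsScalarTower.of_algebraMap_eq fun c => ?_
    rw [IsScalarTower.algebraMap_apply k Kb Eb, IsScalarTower.algebraMap_apply K Kb Eb,
      IsScalarTower.algebraMap_apply k K Kb]
  obtain ⟨hr0, σ, hσ, hcl⟩ := exists_sigma S hS hn P hP hgen v
    (isGen_descend S (Kb := Kb) P (e - 2) v hv)
  exact ⟨Eb, iF, i1, i2, iA, t1, t2, t3, v, σ, hv, hgv, hr0, hσ, hcl⟩

end Pool.Agent.LibHP.CIM
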