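import Pool.Agent.LibCIM.E0
import Pool.Agent.LibCIM.C1
import Pool.Agent.LibCIM.C2
import Pool.Agent.LibCIM.C3
import Pool.Agent.LibCIM.C4
import Pool.Agent.LibCIM.B14b
import Pool.Agent.LibCIM.B14c
import Pool.Agent.LibHPC.C10

set_option autoImplicit false
open AlgebraicGeometry CategoryTheory MvPolynomial

namespace Pool.Agent.LibHP.CIM

/-- values of `σ` -/
theorem E1_mem {k K E : Type} [Field k] [Field K] [Field E] [Algebra k K] [Algebra k E] {n : ℕ}
    (y : Fin (n + 1) → K) (hadj : IntermediateField.adjoin k (Set.range y) = ⊤) (σ : K →ₐ[k] E)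
    (E0 : Subfield E) (hk : ∀ c : k, algebraMap k E c ∈ E0) (hy : ∀ j, σ (y j) ∈ E0) (a : K) :
    σ a ∈ E0 := by
  have h : ∀ x ∈ IntermediateField.adjoin k (Set.range y), σ x ∈ E0 := by
    intro x hx
    induction hx using IntermediateField.adjoin_induction with
    | mem x hx =>
      obtain ⟨j, rfl⟩ := hx
      exact hy j
    | algebraMap c =>
      rw [σ.commutes]
      exact hk c
    | add x y _ _ hx hy => rw [map_add]; exact add_mem hx hy
    | inv x _ hx => rw [map_inv₀]; exact inv_mem hx
    | mul x y _ _ hx hy => rw [map_mul]; exact mul_mem hx hy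
  exact h a (by rw [hadj]; trivial)

theorem E1_closure {F E : Type} [Field F] [Field E] [Algebra F E] {N : ℕ} (v : Fin N → E)
    (hgv : GenOver F v) (E0 : Subfield E) (hv : ∀ i, v i ∈ E0) :
    Subfield.closure ((E0 : Set E) ∪ Set.range (algebraMap F E)) = ⊤ := by
  have hG : ∀ G : MvPolynomial (Fin N) F,
      aeval v G ∈ Subfield.closure ((E0 : Set E) ∪ Set.range (algebraMap F E)) := by
    intro G
    induction G using MvPolynomial.induction_on with
    | C c =>
      rw [aeval_C]
      exact Subfield.subset_closure (Or.inr ⟨c, rfl⟩)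
    | add p q hp hq => rw [map_add]; exact add_mem hp hq
    | mul_X p i hp =>
      rw [map_mul, aeval_X]
      exact mul_mem hp (Subfield.subset_closure (Or.inl (hv i)))
  rw [eq_top_iff]
  intro z _
  obtain ⟨G, H, hH, hz⟩ := hgv z
  have : z = aeval v G / aeval v H := by rw [eq_div_iff hH, hz]
  rw [this]
  exact div_mem (hG G) (hG H)

theorem E1_resid {k K E : Type} [Field k] [Field K] [Field E] [Algebra k K] [Algebra k E]
    [Algebra K E] [IsScalarTower k K E] {n a e : ℕ} (S : Sys k n a e) (y : Fin (n + 1) → K)
    (v : Fin (n + 1) → E) (j : Fin (n + 1)) :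
    S.resid (fun l => algebraMap K E (y l)) v j ∈
      (IntermediateField.adjoin K (Set.range v)).toSubfield := by
  let E1 := IntermediateField.adjoin K (Set.range v)
  have hvE : ∀ i, v i ∈ E1 := fun i => IntermediateField.subset_adjoin _ _ ⟨i, rfl⟩
  haveI : IsScalarTower k E1 E := IsScalarTower.of_algebraMap_eq fun _ => rfl
  have h1 := resid_map S (IsScalarTower.toAlgHom k E1 E)
    (fun l => algebraMap K E1 (y l)) (fun l => (⟨v l, hvE l⟩ : E1)) j
  have h2 : S.resid (fun l => algebraMap K E (y l)) v j =
      ((S.resid (fun l => algebraMap K E1 (y l))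
        (fun l => (⟨v l, hvE l⟩ : E1)) j : E1) : E) := h1.symm
  rw [h2]
  exact Subtype.property _

theorem main_sys (k : Type) [Field k] [NumberField k] {X : Scheme}
    (f : X ⟶ Spec (CommRingCat.of k)) [IsIntegral X] [Smooth f] [IsSeparated f] [QuasiCompact f]
    (hsc : GeomSimplyConnected f) {n a e : ℕ} (S : Sys k n a e) (hS : S.Good)
    (hn : ∑ j, S.dg j + e + 1 ≤ n) (hd : S.DenseHP) (hX : IsModel f S.II) : HilbertProp f := by
  classical
  letI : Algebra k X.functionField := (toStalk f (genericPoint X)).toAlgebra
  have hcz : CharZero X.functionField :=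
    charZero_of_injective_ringHom (toStalk f (genericPoint X)).injective
  obtain ⟨z, hz0⟩ := hX
  have hz : IsCoord S.II z := hz0
  obtain ⟨y, hy, hadj⟩ := exists_pt S hS.2.1 hS.2.2.1 z hz
  have hgy : GenOver k y := genOver_of_adjoin y hadj
  have hE : EtaleCharts k y := sys_etaleCharts S.fam S.famDeg S.fam_hom hS.1 y hy.2
  -- the generic fibre
  haveI htow : IsScalarTower k X.functionField (AlgebraicClosure X.functionField) :=
    IsScalarTower.of_algebraMap_eq fun _ => rfl
  obtain ⟨Eb, _, _, _, _, _, _, _, v, σ, hv, hgv, hr0, hσ, hcl⟩ :=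
    exists_family S hS hn y hy hgy (AlgebraicClosure X.functionField)
  have hfun : (fun l => algebraMap X.functionField Eb (y l)) = fun l =>
      algebraMap (AlgebraicClosure X.functionField) Eb
        (algebraMap X.functionField (AlgebraicClosure X.functionField) (y l)) :=
    funext fun l => IsScalarTower.algebraMap_apply _ _ _ _
  have hr0' : S.resid (fun l => algebraMap X.functionField Eb (y l)) v 0 ≠ 0 := by
    rw [hfun]
    exact hr0
  have hσ' : ∀ j, σ (y j) * S.resid (fun l => algebraMap X.functionField Eb (y l)) v 0 =
      S.resid (fun l => algebraMap X.functionField Eb (y l)) v j := by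
    rw [hfun]
    exact hσ
  refine hilbert_of_spec k f hsc Eb (σ : X.functionField →+* Eb) ?_ ?_ ?_
  · intro A _ _ _ _ _ _ hA ι _ T hT hroot
    haveI : IsScalarTower k A X.functionField :=
      IsScalarTower.of_algebraMap_eq fun c => (hA c).symm
    exact spec_of_denseHP S hS hn hd y hy hgy v hv hgv σ hσ hr0 A ι T hT hroot
  · intro q _ hq hz
    obtain ⟨w, hw⟩ := hz
    have hvE : ∀ i, v i ∈ (IntermediateField.adjoin X.functionField (Set.range v)).toSubfield :=
      fun i => IntermediateField.subset_adjoin _ _ ⟨i, rfl⟩
    have hres : ∀ j, S.resid (fun l => algebraMap X.functionField Eb (y l)) v j ∈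
        (IntermediateField.adjoin X.functionField (Set.range v)).toSubfield := by
      intro j
      exact E1_resid S y v j
    refine allEmbIn_of_root (Kb := AlgebraicClosure X.functionField) (σ : X.functionField →+* Eb)
      (IntermediateField.adjoin X.functionField (Set.range v)).toSubfield ?_ ?_ ?_ ?_ q hq w hw
    · refine E1_mem y hadj σ _ ?_ ?_
      · intro c
        rw [IsScalarTower.algebraMap_apply k X.functionField Eb]
        exact IntermediateField.algebraMap_mem _ _
      · intro j
        have h1 : σ (y j) = S.resid (fun l => algebraMap X.functionField Eb (y l)) v j /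
            S.resid (fun l => algebraMap X.functionField Eb (y l)) v 0 := by
          rw [eq_div_iff hr0']
          exact hσ' j
        rw [h1]
        exact div_mem (hres j) (hres 0)
    · intro c
      rw [← IsScalarTower.algebraMap_apply X.functionField (AlgebraicClosure X.functionField) Eb]
      exact IntermediateField.algebraMap_mem (IntermediateField.adjoin X.functionField
        (Set.range v)) c
    · exact E1_closure v hgv _ hvE
    · intro z hz h
      exact hcl z hz h
  · intro L _ _ _ hL x hx
    refine presAt_of_unram' f (fun c => rfl) y hy.1 hadj hE L ?_ x hx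
    intro i hi p hp hp1
    haveI := chartRing_isNoetherianRing k y i
    haveI := chartRing_isIntegrallyClosed' y hy.1 hadj hE i hi
    haveI := chart_isFractionRing' y hy.1 hadj i hi
    refine unramAt_of_metIn (chartRing k y i) X.functionField ?_ p hp hp1
      (σ : X.functionField →+* Eb) L hL ?_
    · intro m hm
      have h : IsUnit (m : k) := (Nat.cast_ne_zero.mpr hm).isUnit
      have h' := h.map (algebraMap k (chartRing k y i))
      simpa using h'
    · exact metIn_all S hS (by omega) y hy hgy v hv hgv σ hσ hr0 i p hp hp1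
        (chartRing_dvr' y hy.1 hadj hE i hi p hp1)

end Pool.Agent.LibHP.CIM
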