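import Pool.Agent.LibCIM.R8
import Pool.Agent.LibCIM.T3

set_option autoImplicit false
open MvPolynomial

namespace Pool.Agent.LibHP.CIM

/-! # Row R9 (MEDIUM): contact spaces from common zeros of quadratic forms

At `P` (a zero of the family, `P ≠ 0`): `V := {v : v i0 = 0, tc (Q j) P v 1 = 0 for all j, and tc F P v 1 = 0 if 3 ≤ e}`, `P i0 ≠ 0` (linear conditions: `tc G P v 1 = ∑ l, v l * aeval P (pderiv l G)`, from `tc_der`-free lemmas of T1/T2, e.g. `gr_dot_v`-like with `i = 0`: `∑ l, gr G P v 0 l * v l = tc G P v 1`), of dimension at least `n + 1 - (a + 2)` (`n + 1 - (a + 1)` if `e = 2`).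
Quadratic forms: `tc (Q j) P v 2 = aeval v (Q j)` and, if `e = 4`, `v ↦ tc F P v 2` (`cf F P 2`, with `P` over `k`), `m = mQ a e` forms in total. `exists_isotropic` (R8) gives `w`. Independence of `P, w`: `P i0 ≠ 0`, `w j i0 = 0`. The conditions of `ContactSpace`: `tl G P v = ∑ i, tc .. i t^i`, `tc_gt`. -/

private theorem R9_quad {k : Type} [Field k] {n a e : ℕ} (S : Sys k n a e)
    (P : Fin (n + 1) → k) : ∃ q : Fin (mQ a e) → MvPolynomial (Fin (n + 1)) k,
      (∀ i, (q i).IsHomogeneous 2) ∧ ∀ v : Fin (n + 1) → k, (∀ i, eval v (q i) = 0) →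
        (∀ j, tc (S.Q j) P v 2 = 0) ∧ (e = 4 → tc S.F P v 2 = 0) := by
  have hev : ∀ (G : MvPolynomial (Fin (n + 1)) k) (v : Fin (n + 1) → k),
      eval v (cf G P 2) = tc G P v 2 := by
    intro G v
    have h1 := aeval_cf (R := k) (R'' := k) G P 2 v
    have h2 : eval v (cf G P 2) = aeval v (cf G P 2) := by
      rw [← coe_aeval_eq_eval]
      rfl
    rw [h2, h1]
    rfl
  by_cases he : e = 4
  · have hm : mQ a e = a + 1 := if_pos he
    refine ⟨fun i => cf (S.fam (finSuccEquiv a (Fin.cast hm i))) P 2, fun i => cf_hom _ _ _,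
      fun v hv => ⟨fun j => ?_, fun _ => ?_⟩⟩
    · have h1 := hv (Fin.cast hm.symm ((finSuccEquiv a).symm (some j)))
      rw [hev, Fin.cast_cast, Fin.cast_refl, id, Equiv.apply_symm_apply] at h1
      exact h1
    · have h1 := hv (Fin.cast hm.symm ((finSuccEquiv a).symm none))
      rw [hev, Fin.cast_cast, Fin.cast_refl, id, Equiv.apply_symm_apply] at h1
      exact h1
  · have hm : mQ a e = a := if_neg he
    refine ⟨fun i => cf (S.Q (Fin.cast hm i)) P 2, fun i => cf_hom _ _ _,
      fun v hv => ⟨fun j => ?_, fun h => absurd h he⟩⟩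
    have h1 := hv (Fin.cast hm.symm j)
    rw [hev, Fin.cast_cast, Fin.cast_refl, id] at h1
    exact h1

private theorem R9_tc1 {k : Type} [Field k] {n : ℕ} (G : MvPolynomial (Fin (n + 1)) k)
    (P v : Fin (n + 1) → k) : tc G P v 1 = ∑ l, aeval P (pderiv l G) * v l := by
  have h1 := gr_dot_v G P v 0
  rw [Nat.cast_zero, zero_add, one_mul, zero_add] at h1
  rw [← h1]
  refine Finset.sum_congr rfl fun l _ => ?_
  rw [gr_zero]

theorem contactSpace_of_quad {k : Type} [Field k] {n a e : ℕ} (S : Sys k n a e)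
    (hdg : ∀ j, S.dg j = 2) (he : 2 ≤ e) (he4 : e ≤ 4) {u : ℕ}
    (hu : ∀ q : Fin (mQ a e) → MvPolynomial (Fin u) k, (∀ i, (q i).IsHomogeneous 2) →
      ∃ x : Fin u → k, x ≠ 0 ∧ ∀ i, eval x (q i) = 0)
    (hn : u + (mQ a e) ^ 2 + a ≤ n) (P : Fin (n + 1) → k) (hP0 : P ≠ 0)
    (hP : ∀ o, aeval P (S.fam o) = 0) : S.ContactSpace (mQ a e) P := by
  obtain ⟨i0, hi0⟩ := Function.ne_iff.1 hP0
  obtain ⟨q, hq, hq2⟩ := R9_quad S P
  -- the linear conditions
  let A : (Fin (n + 1) → k) →ₗ[k] k × (Option (Fin a) → k) :=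
    (LinearMap.proj i0).prod (LinearMap.pi fun o =>
      ∑ l, aeval P (pderiv l (S.fam o)) • (LinearMap.proj l : (Fin (n + 1) → k) →ₗ[k] k))
  have hA : ∀ v, v ∈ LinearMap.ker A → v i0 = 0 ∧ ∀ o, tc (S.fam o) P v 1 = 0 := by
    intro v hv
    have h1 : A v = 0 := hv
    refine ⟨congrArg Prod.fst h1, fun o => ?_⟩
    have h2 := congrFun (congrArg Prod.snd h1) o
    rw [R9_tc1]
    have h3 : (A v).2 o = ∑ l, aeval P (pderiv l (S.fam o)) * v l := by
      show (∑ l, aeval P (pderiv l (S.fam o)) •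
        (LinearMap.proj l : (Fin (n + 1) → k) →ₗ[k] k)) v = _
      rw [LinearMap.sum_apply]
      rfl
    rw [← h3]
    exact h2
  have hfr : u + (mQ a e) ^ 2 ≤ Module.finrank k (LinearMap.ker A) + 1 := by
    have h1 := LinearMap.finrank_range_add_finrank_ker A
    have h2 : Module.finrank k (LinearMap.range A) ≤ a + 2 := by
      refine (Submodule.finrank_le _).trans (le_of_eq ?_)
      rw [Module.finrank_prod, Module.finrank_self, Module.finrank_pi, Fintype.card_option,
        Fintype.card_fin]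
      ring
    rw [Module.finrank_pi, Fintype.card_fin] at h1
    omega
  obtain ⟨w, hw, hwV, hwq⟩ := exists_isotropic hu q hq (LinearMap.ker A) hfr
  refine ⟨w, ?_, fun c => ?_⟩
  · rw [linearIndependent_finCons]
    refine ⟨hw, fun hmem => hi0 ?_⟩
    have h1 : Submodule.span k (Set.range w) ≤ LinearMap.ker A := by
      rw [Submodule.span_le]
      rintro _ ⟨j, rfl⟩
      exact hwV j
    exact (hA P (h1 hmem)).1
  · have hvV : (∑ j, c j • w j) ∈ LinearMap.ker A :=
      Submodule.sum_mem _ fun j _ => Submodule.smul_mem _ _ (hwV j)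
    obtain ⟨-, hv1⟩ := hA _ hvV
    obtain ⟨hv2, hv3⟩ := hq2 _ (hwq c)
    refine ⟨fun j => ?_, ?_⟩
    · refine Polynomial.ext fun i => ?_
      rw [Polynomial.coeff_zero]
      show tc (S.Q j) P (∑ j, c j • w j) i = 0
      rcases Nat.lt_or_ge 2 i with hi | hi
      · exact tc_gt (S.hQ j) _ _ i (by rw [hdg]; exact hi)
      · interval_cases i
        · rw [tc_zero]
          exact hP (some j)
        · exact hv1 (some j)
        · exact hv2 j
    · rw [Polynomial.X_pow_dvd_iff]
      intro i hi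
      show tc S.F P (∑ j, c j • w j) i = 0
      have hi2 : i ≤ 2 := by omega
      interval_cases i
      · rw [tc_zero]
        exact hP none
      · exact hv1 none
      · exact hv3 (by omega)

end Pool.Agent.LibHP.CIM
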