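import Pool.Agent.LibCIM.B14c
import Pool.Agent.LibCIM.R9
import Pool.Agent.LibHPC.C13

set_option autoImplicit false
open AlgebraicGeometry CategoryTheory MvPolynomial

namespace Pool.Agent.LibHP.CIM

/-! # Row E2a (MEDIUM): from the density of the rational points of `X` to the density of the contact points

Template: `denseContact23_of_isotropic` and the end of `main_ci_or` in LibHPC/C13.lean, with `exists_pt` (B14c), `densePts_functionField` (LibHPF/G12) and `contactSpace_of_quad` (R9) in place of `exists_ciPt`, `hasContactLine23_of_isotropic`. -/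

private theorem E2a_core {k : Type} [Field k] {K : Type} [Field K] [Algebra k K] {n a e : ℕ}
    (S : Sys k n a e) (hS : S.Good) (hdg : ∀ j, S.dg j = 2) (he4 : e ≤ 4) {u : ℕ}
    (hu : ∀ q : Fin (mQ a e) → MvPolynomial (Fin u) k, (∀ i, (q i).IsHomogeneous 2) →
      ∃ x : Fin u → k, x ≠ 0 ∧ ∀ i, eval x (q i) = 0)
    (hn : u + (mQ a e) ^ 2 + a ≤ n) (hK : DensePts k K) (y : Fin (n + 1) → K) (hy : S.IsPt y) :
    S.DenseContact (mQ a e) := by
  intro d G hG hFG
  have ha : MvPolynomial.aeval y G ≠ 0 := fun h => hFG ((hy.2 d G hG).1 h)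
  set R : Subalgebra k K := Algebra.adjoin k (Set.range y) with hR
  have hRfg : R.FG := Subalgebra.fg_def.2 ⟨Set.range y, Set.finite_range y, rfl⟩
  have hyR : ∀ i, y i ∈ R := fun i => Algebra.subset_adjoin ⟨i, rfl⟩
  let y' : Fin (n + 1) → R := fun i => ⟨y i, hyR i⟩
  have hy' : ∀ H : MvPolynomial (Fin (n + 1)) k,
      ((MvPolynomial.aeval y' H : R) : K) = MvPolynomial.aeval y H := by
    intro H
    have := MvPolynomial.comp_aeval_apply y' R.val H
    simpa [y'] using this
  obtain ⟨φ, hφ⟩ := hK R hRfg (MvPolynomial.aeval y' G) (by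
    intro h
    apply ha
    rw [← hy', h]
    rfl)
  have hev : ∀ H : MvPolynomial (Fin (n + 1)) k,
      φ (MvPolynomial.aeval y' H) = MvPolynomial.aeval (fun i => φ (y' i)) H := by
    intro H
    rw [MvPolynomial.comp_aeval_apply]
  have hz : ∀ {m : ℕ} (H : MvPolynomial (Fin (n + 1)) k), H.IsHomogeneous m →
      H ∈ S.II → MvPolynomial.aeval (fun i => φ (y' i)) H = 0 := by
    intro m H hH hm
    rw [← hev]
    have : (MvPolynomial.aeval y' H : R) = 0 := by
      apply Subtype.ext
      rw [hy']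
      exact (hy.2 m H hH).2 hm
    rw [this, map_zero]
  refine ⟨fun i => φ (y' i), ?_, ?_⟩
  · rw [hev] at hφ
    exact hφ
  · refine contactSpace_of_quad S hdg hS.2.1 he4 hu hn _ ?_
      (fun o => hz (S.fam o) (S.fam_hom o) (Ideal.subset_span ⟨o, rfl⟩))
    intro h
    have h0 : y' 0 = 1 := Subtype.ext hy.1
    have := congrFun h 0
    simp only [h0, map_one, Pi.zero_apply] at this
    exact one_ne_zero this

theorem denseContact_of_dense {k : Type} [Field k] {X : Scheme} (f : X ⟶ Spec (CommRingCat.of k))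
    [IsIntegral X] {n a e : ℕ} (S : Sys k n a e) (hS : S.Good) (hdg : ∀ j, S.dg j = 2)
    (he4 : e ≤ 4) {u : ℕ}
    (hu : ∀ q : Fin (mQ a e) → MvPolynomial (Fin u) k, (∀ i, (q i).IsHomogeneous 2) →
      ∃ x : Fin u → k, x ≠ 0 ∧ ∀ i, eval x (q i) = 0)
    (hn : u + (mQ a e) ^ 2 + a ≤ n) (hX : IsModel f S.II)
    (hdense : Dense {x : X | ∃ s : Spec (CommRingCat.of k) ⟶ X, s ≫ f = 𝟙 _ ∧
      x ∈ Set.range s.base}) : S.DenseContact (mQ a e) := by
  letI : Algebra k X.functionField := (toStalk f (genericPoint X)).toAlgebra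
  obtain ⟨z, hz0⟩ := hX
  have hz : IsCoord S.II z := hz0
  obtain ⟨y, hy, _⟩ := exists_pt S hS.2.1 hS.2.2.1 z hz
  exact E2a_core S hS hdg he4 hu hn (densePts_functionField f (fun _ => rfl) hdense) y hy

end Pool.Agent.LibHP.CIM
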