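import Pool.Agent.LibCIM.HDefs
import Pool.Agent.LibCIM.T3
import Pool.Agent.LibHPC.C10
import Pool.Agent.LibHPF.G13

set_option autoImplicit false
open AlgebraicGeometry CategoryTheory MvPolynomial

namespace Pool.Agent.LibHP.CIM

/-! # Row E2b (MEDIUM): the two old theorems in the language of systems

`mQ a e = 1` and `e = 3`, `4`: either `e = 4`, `a = 0`, `n = 4` (`main_quartic`, LibHPF/P12 or G13, for `F = S.F`) or `e = 3`, `a = 1`, `n = 5` (`main_ci`, LibHPC/C10, for `Q = S.Q 0`, `C = S.F`). Conversions: `S.II = Ideal.span {F}` (`Set.range fam`; `Ideal.mem_span_singleton`), resp. `Ideal.span {Q, C}`; `IsModel f S.II` is `IsHypModelOf f F`, resp. `IsCIModelOf f Q C`;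
`IsSmoothSys S.fam` gives `IsSmoothHyp F` (a linearly independent family of one vector: it is not zero), resp. `IsSmoothCI Q C` (two independent vectors have a nonzero minor of size two); `S.DenseContact 1` gives `DenseContact F`, resp. `DenseContact23 Q C` (`c = 1`, `Fin.cons P w` and `![P, w 0]`; `tl` is the polynomial there). -/

/-- one contact direction -/
private theorem E2b_dir {k : Type} [Field k] {n a e : ℕ} (S : Sys k n a e) {P : Fin (n + 1) → k}
    (h : S.ContactSpace 1 P) : ∃ v : Fin (n + 1) → k, LinearIndependent k ![P, v] ∧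
      (∀ j, tl (S.Q j) P v = 0) ∧ (Polynomial.X : Polynomial k) ^ (e - 1) ∣ tl S.F P v := by
  obtain ⟨w, h1, h2⟩ := h
  obtain ⟨h3, h4⟩ := h2 1
  have h5 : ∑ q, (1 : Fin 1 → k) q • w q = w 0 := by
    rw [Fin.sum_univ_one, Pi.one_apply, one_smul]
  rw [h5] at h4
  simp only [h5] at h3
  refine ⟨w 0, ?_, h3, h4⟩
  convert h1 using 1
  funext i
  refine Fin.cases rfl (fun i => ?_) i
  rw [Subsingleton.elim i 0]
  rfl

private theorem E2b_quartic (k : Type) [Field k] [NumberField k] {X : Scheme}
    (f : X ⟶ Spec (CommRingCat.of k)) [IsIntegral X] [Smooth f] [IsSeparated f] [QuasiCompact f]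
    (hsc : GeomSimplyConnected f) {n : ℕ} (S : Sys k n 0 4) (hS : S.Good) (hn : 4 ≤ n)
    (hd : S.DenseContact 1) (hX : IsModel f S.II) : HilbertProp f := by
  have hI : ∀ G, G ∈ S.II ↔ S.F ∣ G := by
    intro G
    have h1 : Set.range S.fam = {S.F} := by
      ext G
      constructor
      · rintro ⟨o, rfl⟩
        cases o with
        | none => exact rfl
        | some j => exact j.elim0
      · rintro rfl
        exact ⟨none, rfl⟩
    rw [Sys.II, h1, Ideal.mem_span_singleton]
  refine main_quartic k f hsc hn S.F S.hF ?_ ?_ ?_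
  · intro y hy hy0
    have h1 := hS.1 y hy (fun o => by
      cases o with
      | none => exact hy0
      | some j => exact j.elim0)
    by_contra hcon
    push Not at hcon
    refine h1.ne_zero none ?_
    funext i
    exact hcon i
  · intro d G hG hdvd
    obtain ⟨P, hP, hc⟩ := hd d G hG (fun h => hdvd ((hI G).1 h))
    obtain ⟨v, h1, _, h3⟩ := E2b_dir S hc
    exact ⟨P, hP, v, h1, h3⟩
  · letI : Algebra k X.functionField := RingHom.toAlgebra
      ((Scheme.ΓSpecIso (CommRingCat.of k)).inv ≫ f.appTop ≫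
        X.presheaf.germ ⊤ (genericPoint X) trivial).hom
    obtain ⟨z, h1, h2, h3⟩ := hX
    exact ⟨z, h1, fun d G hG => (h2 d G hG).trans (hI G), h3⟩

private theorem E2b_ci (k : Type) [Field k] [NumberField k] {X : Scheme}
    (f : X ⟶ Spec (CommRingCat.of k)) [IsIntegral X] [Smooth f] [IsSeparated f] [QuasiCompact f]
    (hsc : GeomSimplyConnected f) {n : ℕ} (S : Sys k n 1 3) (hS : S.Good)
    (hdg : ∀ j, S.dg j = 2) (hn : 5 ≤ n)
    (hd : S.DenseContact 1) (hX : IsModel f S.II) : HilbertProp f := by
  have hI : S.II = Ideal.span {S.Q 0, S.F} := by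
    have h1 : Set.range S.fam = {S.Q 0, S.F} := by
      ext G
      constructor
      · rintro ⟨o, rfl⟩
        cases o with
        | none => exact Or.inr rfl
        | some j =>
          rw [Subsingleton.elim j 0]
          exact Or.inl rfl
      · rintro (rfl | rfl)
        · exact ⟨some 0, rfl⟩
        · exact ⟨none, rfl⟩
    rw [Sys.II, h1]
  have hQ : (S.Q 0).IsHomogeneous 2 := by
    have h1 := S.hQ 0
    rwa [hdg 0] at h1
  refine main_ci k f hsc hn (S.Q 0) S.F hQ S.hF ?_ ?_ ?_
  · intro y hy hy0 hy1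
    have h1 := hS.1 y hy (fun o => by
      cases o with
      | none => exact hy1
      | some j =>
        rw [Subsingleton.elim j 0]
        exact hy0)
    by_contra hcon
    push Not at hcon
    have hmin : ∀ i j, grd (S.Q 0) y i * grd S.F y j = grd (S.Q 0) y j * grd S.F y i := by
      intro i j
      have h2 := hcon i j
      rw [map_sub, map_mul, map_mul, sub_eq_zero] at h2
      exact h2
    have hq0 : grd (S.Q 0) y ≠ 0 := h1.ne_zero (some 0)
    obtain ⟨i, hi⟩ : ∃ i, grd (S.Q 0) y i ≠ 0 := by
      by_contra h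
      push Not at h
      exact hq0 (funext h)
    have h2 := (linearIndependent_iff'.1 h1) Finset.univ
      (fun o => o.elim (- grd (S.Q 0) y i) (fun _ => grd S.F y i)) (by
        rw [Fintype.sum_option]
        funext j
        rw [Fin.sum_univ_one]
        change - grd (S.Q 0) y i * grd S.F y j + grd S.F y i * grd (S.Q 0) y j = 0
        rw [neg_mul, hmin i j]
        ring) none (Finset.mem_univ _)
    exact hi (neg_eq_zero.1 h2)
  · intro d G hG hdvd
    obtain ⟨P, hP, hc⟩ := hd d G hG (fun h => hdvd (by rw [← hI]; exact h))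
    obtain ⟨v, h1, h2, h3⟩ := E2b_dir S hc
    exact ⟨P, hP, v, h1, h2 0, h3⟩
  · letI : Algebra k X.functionField := RingHom.toAlgebra
      ((Scheme.ΓSpecIso (CommRingCat.of k)).inv ≫ f.appTop ≫
        X.presheaf.germ ⊤ (genericPoint X) trivial).hom
    obtain ⟨z, h1, h2, h3⟩ := hX
    exact ⟨z, h1, fun d G hG => (h2 d G hG).trans (by rw [hI]), h3⟩

theorem main_old (k : Type) [Field k] [NumberField k] {X : Scheme}
    (f : X ⟶ Spec (CommRingCat.of k)) [IsIntegral X] [Smooth f] [IsSeparated f] [QuasiCompact f]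
    (hsc : GeomSimplyConnected f) {n a e : ℕ} (S : Sys k n a e) (hS : S.Good)
    (hdg : ∀ j, S.dg j = 2) (he3 : 3 ≤ e) (he4 : e ≤ 4) (hm : mQ a e = 1) (hn : 2 * a + e ≤ n)
    (hd : S.DenseContact (mQ a e)) (hX : IsModel f S.II) : HilbertProp f := by
  rw [hm] at hd
  rcases Nat.lt_or_ge 3 e with he | he
  · obtain rfl : e = 4 := by omega
    obtain rfl : a = 0 := by
      rw [mQ, if_pos rfl] at hm
      omega
    exact E2b_quartic k f hsc S hS (by omega) hd hX
  · obtain rfl : e = 3 := by omega
    obtain rfl : a = 1 := by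
      rw [mQ, if_neg (by norm_num)] at hm
      exact hm
    exact E2b_ci k f hsc S hS hdg (by omega) hd hX

end Pool.Agent.LibHP.CIM
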