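import Pool.Agent.LibCIM.E0
import Pool.Agent.LibCIM.G10
import Pool.Agent.LibHPF.G8

set_option autoImplicit false
open MvPolynomial

namespace Pool.Agent.LibHP.CIM

theorem II_prime {k : Type} [Field k] [CharZero k] {n a e : ℕ} (S : Sys k n a e) (hS : S.Good)
    (hn : a + 2 ≤ n) : S.II.IsPrime := by
  refine prime_of_smoothSys S.fam S.famDeg ?_ S.fam_hom hS.1 ?_
  · intro o
    cases o with
    | none => exact lt_of_lt_of_le Nat.two_pos hS.2.1
    | some j => exact lt_of_lt_of_le Nat.two_pos (hS.2.2.1 j)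
  · rw [Fintype.card_option, Fintype.card_fin]
    omega

theorem X_notMem_II {k : Type} [Field k] {n a e : ℕ} (S : Sys k n a e) (hS : S.Good)
    (i : Fin (n + 1)) : (X i : MvPolynomial (Fin (n + 1)) k) ∉ S.II := by
  intro h1
  have key : ∀ G ∈ S.II, constantCoeff G = 0 ∧ constantCoeff (pderiv i G) = 0 := by
    intro G hG
    unfold Sys.II at hG
    induction hG using Submodule.span_induction with
    | mem x hx =>
      obtain ⟨o, rfl⟩ := hx
      have hd : 2 ≤ S.famDeg o := by
        cases o with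
        | none => exact hS.2.1
        | some j => exact hS.2.2.1 j
      exact ⟨B1_const (S.fam_hom o) (by omega), B1_const (S.fam_hom o).pderiv (by omega)⟩
    | zero => exact ⟨by simp, by simp⟩
    | add x y _ _ hx hy =>
      exact ⟨by rw [map_add, hx.1, hy.1, add_zero], by rw [map_add, map_add, hx.2, hy.2, add_zero]⟩
    | smul c x _ hx =>
      refine ⟨by rw [smul_eq_mul, map_mul, hx.1, mul_zero], ?_⟩
      rw [smul_eq_mul, Derivation.leibniz, smul_eq_mul, smul_eq_mul, map_add, map_mul, map_mul,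
        hx.1, hx.2, mul_zero, zero_mul, add_zero]
  have h2 := (key _ h1).2
  rw [pderiv_X_self, map_one] at h2
  exact one_ne_zero h2

theorem exists_isPt {k : Type} [Field k] [CharZero k] {n a e : ℕ} (S : Sys k n a e) (hS : S.Good)
    (hn : a + 2 ≤ n) : ∃ (K : Type) (_ : Field K) (_ : Algebra k K) (P : Fin (n + 1) → K),
      S.IsPt P := by
  obtain ⟨E, _, _, v, hv, _⟩ := exists_isGen S.II (II_prime S hS hn)
  have h0 : v 0 ≠ 0 := by
    intro h
    refine X_notMem_II S hS 0 ((hv (X 0)).1 ?_)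
    rw [aeval_X, h]
  refine ⟨E, inferInstance, inferInstance, fun i => (v 0)⁻¹ * v i, inv_mul_cancel₀ h0, ?_⟩
  intro d G hG
  rw [G8_aeval_scale hG, ← hv G, mul_eq_zero]
  exact ⟨fun h => h.resolve_left (pow_ne_zero _ (inv_ne_zero h0)), fun h => Or.inr h⟩

/-- the cone of contact directions is smooth outside of a proper closed subset -/
theorem smooth_form_k {k : Type} [Field k] [CharZero k] {n a e : ℕ} (S : Sys k n a e)
    (hS : S.Good) (hn : ∑ j, S.dg j + e + 1 ≤ n) :
    ∃ (d : ℕ) (H : MvPolynomial (Fin (n + 1)) k), H.IsHomogeneous d ∧ H ∉ S.II ∧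
      ∀ P : Fin (n + 1) → k, P 0 = 1 → (∀ o, aeval P (S.fam o) = 0) → aeval P H ≠ 0 →
        IsSmoothSys (S.cone P (e - 2)) := by
  have ha : a ≤ ∑ j, S.dg j := by
    have h := Finset.sum_le_sum (s := Finset.univ) (fun j _ => (hS.2.2.1 j : 2 ≤ S.dg j))
    simp at h
    omega
  have he := hS.2.1
  obtain ⟨K, _, _, P, hP⟩ := exists_isPt S hS (by omega)
  obtain ⟨d, G, h1, h2, h3⟩ := smooth_form S hS P hP (e - 2) (Nat.sub_le _ _) (by
    rcases hS.2.2.2 with h | h
    · exact Or.inl (by omega)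
    · exact Or.inr h)
  exact ⟨d, G, h1, h2, fun P₀ h4 h5 h6 => h3 k P₀ h4 h5 h6⟩

end Pool.Agent.LibHP.CIM
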