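import Pool.Agent.LibCIM.R6
import Pool.Agent.LibCIM.R7s

set_option autoImplicit false
open MvPolynomial

namespace Pool.Agent.LibHP.CIM

/-! # Row R7 (MEDIUM): contact spaces give the Hilbert property of the cones, densely

Given `G` (homogeneous, not in `II`): `H` from `smooth_form_k` (R7s); `II` is prime (`prime_of_smoothSys`, `2 * a + e + 1 ≤ n`, card = `a + 1`), `X 0 ∉ II` (degrees `≥ 2`, see `X_notMem_span` in LibHPC/C8.lean or B14c), so `G * H * X 0 ∉ II` is homogeneous; `hd` gives `P'` with a contact space where it does not vanish. `P'` is a zero of the family: `ContactSpace` with `c = 0`: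
`tl (Q j) P' 0 = C (aeval P' (Q j)) = 0`, and `X ^ (e - 1) ∣ C (aeval P' F)` with `e - 1 ≥ 1`. `P := (P' 0)⁻¹ • P'` (`contactSpace_smul`; `tl G (c • P) v` for homogeneous `G` is `c ^ d * tl G P (c⁻¹ • v)`; or take the vectors `c • w q`: `tl G (c • P) (c • v) = c ^ d * tl G P v`). Then R6 (`∑ dg = 2 * a`). -/

private theorem R7_scale {k A : Type} [Field k] [CommRing A] [Algebra k A] {N e : ℕ} (t : A)
    (y : Fin N → A) {G : MvPolynomial (Fin N) k} (hG : G.IsHomogeneous e) :
    aeval (fun i => t * y i) G = t ^ e * aeval y G := by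
  rw [aeval_def, eval₂_eq', aeval_def, eval₂_eq', Finset.mul_sum]
  refine Finset.sum_congr rfl fun s hs => ?_
  have h1 : ∑ i, s i = e := by
    have h2 : (Finsupp.weight (fun _ : Fin N => 1)) s = e := hG (mem_support_iff.1 hs)
    rw [← Finsupp.degree_eq_weight_one, Finsupp.degree_eq_sum] at h2
    exact h2
  have h3 : ∏ i, (t * y i) ^ s i = t ^ e * ∏ i, y i ^ s i := by
    rw [← h1, ← Finset.prod_pow_eq_pow_sum, ← Finset.prod_mul_distrib]
    exact Finset.prod_congr rfl fun i _ => mul_pow _ _ _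
  rw [h3]
  ring

private theorem R7_smul {k A : Type} [Field k] [CommRing A] [Algebra k A] {N e : ℕ} (t : A)
    (y : Fin N → A) {G : MvPolynomial (Fin N) k} (hG : G.IsHomogeneous e) :
    aeval (t • y) G = t ^ e * aeval y G := R7_scale t y hG

private theorem R7_tl {k : Type} [Field k] {n e : ℕ} {G : MvPolynomial (Fin (n + 1)) k}
    (hG : G.IsHomogeneous e) (P v : Fin (n + 1) → k) (c : k) :
    tl G (c • P) (c • v) = Polynomial.C c ^ e * tl G P v := by
  rw [tl, tl, ← R7_scale _ _ hG]
  congr 2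
  funext l
  rw [Pi.smul_apply, Pi.smul_apply, smul_eq_mul, smul_eq_mul, map_mul, map_mul]
  ring

/-- the monomials of degree at most one do not occur in the elements of the ideal -/
private theorem R7_coeff {k : Type} [Field k] {n a e : ℕ} (S : Sys k n a e)
    (he : 2 ≤ e) (hdg : ∀ j, 2 ≤ S.dg j) {G : MvPolynomial (Fin (n + 1)) k} (hG : G ∈ S.II) :
    ∀ m : Fin (n + 1) →₀ ℕ, m.degree ≤ 1 → coeff m G = 0 := by
  refine Submodule.span_induction
    (p := fun G _ => ∀ m : Fin (n + 1) →₀ ℕ, m.degree ≤ 1 → coeff m G = 0) ?_ ?_ ?_ ?_ hG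
  · rintro _ ⟨o, rfl⟩ m hm
    refine (S.fam_hom o).coeff_eq_zero ?_
    have h1 : 2 ≤ S.famDeg o := by
      cases o with
      | none => exact he
      | some j => exact hdg j
    omega
  · intro m _
    exact coeff_zero m
  · intro x y _ _ hx hy m hm
    rw [coeff_add, hx m hm, hy m hm, add_zero]
  · intro c x _ hx m hm
    classical
    rw [smul_eq_mul, coeff_mul]
    refine Finset.sum_eq_zero fun p hp => ?_
    have hp := Finset.HasAntidiagonal.mem_antidiagonal.1 hp
    have h3 := congrArg Finsupp.degree hp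
    rw [map_add] at h3
    rw [hx p.2 (by omega), mul_zero]

theorem contactSpace_smul {k : Type} [Field k] {n a e : ℕ} (S : Sys k n a e) (m : ℕ)
    (P : Fin (n + 1) → k) (c : k) (hc : c ≠ 0) (h : S.ContactSpace m P) :
    S.ContactSpace m (c • P) := by
  obtain ⟨w, h1, h2⟩ := h
  refine ⟨fun q => c • w q, ?_, fun b => ?_⟩
  · have h3 := h1.units_smul (fun _ => Units.mk0 c hc)
    convert h3 using 1
    funext i
    refine Fin.cases ?_ (fun i => ?_) i
    · rfl
    · rfl
  · have h4 : ∑ q, b q • c • w q = c • ∑ q, b q • w q := by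
      rw [Finset.smul_sum]
      exact Finset.sum_congr rfl fun q _ => smul_comm _ _ _
    obtain ⟨h5, h6⟩ := h2 b
    constructor
    · intro j
      rw [h4, R7_tl (S.hQ j), h5 j, mul_zero]
    · rw [h4, R7_tl S.hF]
      exact Dvd.dvd.mul_left h6 _

theorem denseHP_of_contact {k : Type} [Field k] [NumberField k] {n a e : ℕ} (S : Sys k n a e)
    (hS : S.Good) (hdg : ∀ j, S.dg j = 2) (he4 : e ≤ 4) (hn : 2 * a + e + 1 ≤ n)
    (hd : S.DenseContact (mQ a e)) : S.DenseHP := by
  have hS' := hS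
  obtain ⟨hsm, he, hdg2, _⟩ := hS'
  have hsum : ∑ j, S.dg j = 2 * a := by
    rw [Finset.sum_congr rfl fun j _ => hdg j, Finset.sum_const, Finset.card_univ,
      Fintype.card_fin, smul_eq_mul, mul_comm]
  have hprime : S.II.IsPrime := by
    refine prime_of_smoothSys S.fam S.famDeg (fun o => ?_) S.fam_hom hsm ?_
    · cases o with
      | none => exact (by omega : 0 < e)
      | some j => exact lt_of_lt_of_le two_pos (hdg2 j)
    · rw [Fintype.card_option, Fintype.card_fin]
      omega
  have hX : (X 0 : MvPolynomial (Fin (n + 1)) k) ∉ S.II := by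
    intro h
    have h2 := R7_coeff S he hdg2 h (Finsupp.single 0 1) (by rw [Finsupp.degree_single])
    rw [coeff_X] at h2
    simp at h2
  intro d G hG hGI
  obtain ⟨d', H, hH, hHI, hsp⟩ := smooth_form_k S hS (by rw [hsum]; exact hn)
  have hprod : G * H * X 0 ∉ S.II := fun h =>
    (hprime.mem_or_mem h).elim (fun h => (hprime.mem_or_mem h).elim hGI hHI) hX
  obtain ⟨P', hP', hcs⟩ := hd _ _ ((hG.mul hH).mul (isHomogeneous_X k 0)) hprod
  rw [eval_mul, eval_mul, eval_X, mul_ne_zero_iff, mul_ne_zero_iff] at hP'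
  obtain ⟨⟨hPG, hPH⟩, hP0⟩ := hP'
  -- `P'` is a zero of the family
  have hzero : ∀ G : MvPolynomial (Fin (n + 1)) k, tl G P' 0 = Polynomial.C (aeval P' G) := by
    intro G
    have h1 : (aeval (fun l => Polynomial.C (P' l) + Polynomial.X *
        Polynomial.C ((0 : Fin (n + 1) → k) l)) : MvPolynomial (Fin (n + 1)) k →ₐ[k]
          Polynomial k) = (Algebra.ofId k (Polynomial k)).comp (aeval P') := by
      refine MvPolynomial.algHom_ext fun l => ?_
      rw [AlgHom.comp_apply, aeval_X, aeval_X, Pi.zero_apply, map_zero, mul_zero, add_zero]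
      rfl
    have h2 := DFunLike.congr_fun h1 G
    exact h2
  have hfam : ∀ o, aeval P' (S.fam o) = 0 := by
    obtain ⟨w, _, h2⟩ := hcs
    obtain ⟨h3, h4⟩ := h2 0
    have h5 : ∑ q, (0 : Fin (mQ a e) → k) q • w q = 0 := by simp
    rw [h5] at h4
    simp only [h5] at h3
    intro o
    cases o with
    | none =>
      rw [hzero] at h4
      change aeval P' S.F = 0
      have h6 : (Polynomial.X : Polynomial k) ∣ Polynomial.C (aeval P' S.F) :=
        (dvd_pow_self _ (by omega)).trans h4
      rw [Polynomial.X_dvd_iff, Polynomial.coeff_C_zero] at h6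
      exact h6
    | some j =>
      have h6 := h3 j
      rw [hzero] at h6
      exact Polynomial.C_eq_zero.1 h6
  have hc0 : (P' 0)⁻¹ ≠ 0 := inv_ne_zero hP0
  have hone : ((P' 0)⁻¹ • P') 0 = 1 := inv_mul_cancel₀ hP0
  have hfam' : ∀ o, aeval ((P' 0)⁻¹ • P') (S.fam o) = 0 := by
    intro o
    rw [R7_smul _ _ (S.fam_hom o), hfam o, mul_zero]
  refine ⟨(P' 0)⁻¹ • P', hone, hfam', ?_, ?_⟩
  · rw [R7_smul _ _ hG]
    exact mul_ne_zero (pow_ne_zero _ hc0) hPG
  · refine Or.inl ?_
    refine coneHP_of_contactSpace S hdg he he4 hn _ hone hfam' (hsp _ hone hfam' ?_)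
      (contactSpace_smul S _ _ _ hc0 hcs)
    rw [R7_smul _ _ hH]
    exact mul_ne_zero (pow_ne_zero _ hc0) hPH

end Pool.Agent.LibHP.CIM
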