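import Pool.Agent.LibCIM.E1
import Pool.Agent.LibCIM.E2a
import Pool.Agent.LibCIM.E2b
import Pool.Agent.LibCIM.R7

set_option autoImplicit false
open AlgebraicGeometry CategoryTheory MvPolynomial

namespace Pool.Agent.LibHP.CIM

theorem sum_dg {k : Type} [Field k] {n a e : ℕ} (S : Sys k n a e) (hdg : ∀ j, S.dg j = 2) :
    ∑ j, S.dg j = 2 * a := by
  simp [hdg, mul_comm]

/-- The Hilbert property of smooth complete intersections of quadrics and one hypersurface of degree at most four, with dense contact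
spaces. -/
theorem main_contact (k : Type) [Field k] [NumberField k] {X : Scheme}
    (f : X ⟶ Spec (CommRingCat.of k)) [IsIntegral X] [Smooth f] [IsSeparated f] [QuasiCompact f]
    (hsc : GeomSimplyConnected f) {n a e : ℕ} (S : Sys k n a e) (hS : S.Good)
    (hdg : ∀ j, S.dg j = 2) (he4 : e ≤ 4)
    (hn : 2 * a + e + 1 ≤ n ∨ 3 ≤ e ∧ mQ a e = 1 ∧ 2 * a + e ≤ n)
    (hd : S.DenseContact (mQ a e)) (hX : IsModel f S.II) : HilbertProp f := by
  rcases hn with hn | ⟨he3, hm, hn⟩
  · exact main_sys k f hsc S hS (by rw [sum_dg S hdg]; exact hn)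
      (denseHP_of_contact S hS hdg he4 hn hd) hX
  · exact main_old k f hsc S hS hdg he3 he4 hm hn hd hX

end Pool.Agent.LibHP.CIM
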