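import Pool.Agent.LibCIM.GDefs
import Pool.Agent.LibCIM.B1

set_option autoImplicit false
open MvPolynomial

namespace Pool.Agent.LibHP.CIM

/-! # Row G0 (MEDIUM): the ring `k[P]` and its points

`exists_spec`: every element of `kP P` is `aeval P G` (`Algebra.adjoin_range_eq_range_aeval`); the kernel of `aeval P : MvPolynomial (Fin (n+1)) k → K` is contained in the kernel of `aeval x`: if `aeval P G = 0`, `Gh := ∑ e ≤ m, X 0 ^ (m - e) * homogeneousComponent e G` (`m = G.totalDegree`) is homogeneous,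
`aeval P Gh = aeval P G = 0` (`P 0 = 1`), so `Gh ∈ II`, so `aeval x Gh = 0` (`hx`), and `aeval x Gh = aeval x G` (`x 0 = 1`). Lift through `MvPolynomial ⧸ ker ≃ range` (`Ideal.quotientKerAlgEquivOfSurjective`, `AlgHom.rangeRestrict`, ...). Template for the homogenisation: LibHPC/E4.lean, B1.lean.
`exists_form`: `ρ = aeval P G0`, take `G := Gh`: `aeval P Gh = ρ ≠ 0`, so `Gh ∉ II`; `aeval (φ ∘ pR P) Gh = φ (aeval (pR P) Gh) = φ ρ`.
`exists_common_den`: `GenOver` gives `c i * aeval P H_i = aeval P G_i`; `D` := homogenisation (as above, padded with a power of `X 0`) of `∏ H_i`. -/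

variable {k : Type} [Field k] {n a e : ℕ} (S : Sys k n a e) {K : Type} [Field K] [Algebra k K]

/-- homogenisation in degree `m` -/
private noncomputable def g0_h (G : MvPolynomial (Fin (n + 1)) k) (m : ℕ) :
    MvPolynomial (Fin (n + 1)) k :=
  ∑ e ∈ Finset.range (m + 1), X 0 ^ (m - e) * homogeneousComponent e G

private theorem g0_hom (G : MvPolynomial (Fin (n + 1)) k) (m : ℕ) :
    (g0_h G m).IsHomogeneous m := by
  refine IsHomogeneous.sum _ _ _ fun e he => ?_
  have h1 : m = (m - e) + e := by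
    have := Finset.mem_range.1 he
    omega
  have h2 : ((X 0 : MvPolynomial (Fin (n + 1)) k) ^ (m - e)).IsHomogeneous (m - e) := by
    have h3 := (isHomogeneous_X k (0 : Fin (n + 1))).pow (m - e)
    rwa [one_mul] at h3
  have h3 := h2.mul (homogeneousComponent_isHomogeneous e G)
  rwa [← h1] at h3

private theorem g0_aeval {B : Type} [CommRing B] [Algebra k B] (x : Fin (n + 1) → B)
    (h0 : x 0 = 1) (G : MvPolynomial (Fin (n + 1)) k) {m : ℕ} (hm : G.totalDegree ≤ m) :
    aeval x (g0_h G m) = aeval x G := by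
  unfold g0_h
  rw [map_sum]
  have h1 : ∀ e ∈ Finset.range (m + 1),
      aeval x (X 0 ^ (m - e) * homogeneousComponent e G) =
        aeval x (homogeneousComponent e G) := by
    intro e _
    rw [map_mul, map_pow, aeval_X, h0, one_pow, one_mul]
  rw [Finset.sum_congr rfl h1, ← map_sum]
  congr 1
  conv_rhs => rw [← sum_homogeneousComponent G]
  symm
  refine Finset.sum_subset ?_ ?_
  · intro e he
    rw [Finset.mem_range] at he ⊢
    omega
  · intro e _ he
    rw [Finset.mem_range] at he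
    exact homogeneousComponent_eq_zero _ _ (by omega)

private theorem g0_coe (P : Fin (n + 1) → K) (G : MvPolynomial (Fin (n + 1)) k) :
    ((aeval (pR (k := k) P) G : kP (k := k) P) : K) = aeval P G := by
  have h1 : (kP (k := k) P).val (aeval (pR (k := k) P) G) =
      aeval (fun l => (kP (k := k) P).val (pR (k := k) P l)) G := by
    rw [← AlgHom.comp_apply, MvPolynomial.comp_aeval]
  exact h1

private theorem g0_surj (P : Fin (n + 1) → K) :
    Function.Surjective (aeval (R := k) (pR (k := k) P)) := by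
  intro ρ
  have h1 : (ρ : K) ∈ Algebra.adjoin k (Set.range P) := ρ.2
  rw [Algebra.adjoin_range_eq_range_aeval] at h1
  obtain ⟨G, hG⟩ := h1
  exact ⟨G, Subtype.ext ((g0_coe P G).trans hG)⟩

theorem exists_spec (P : Fin (n + 1) → K) (hP : S.IsPt P) {B : Type} [CommRing B] [Algebra k B]
    (x : Fin (n + 1) → B) (h0 : x 0 = 1) (hx : ∀ o, aeval x (S.fam o) = 0) :
    ∃ φ : kP (k := k) P →ₐ[k] B, ∀ l, φ (pR P l) = x l := by
  have hII : ∀ G ∈ S.II, aeval x G = 0 := by
    intro G hG
    have h1 : S.II ≤ RingHom.ker (aeval (R := k) x) := by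
      refine Ideal.span_le.2 ?_
      rintro _ ⟨o, rfl⟩
      exact hx o
    exact h1 hG
  have hker : ∀ G : MvPolynomial (Fin (n + 1)) k,
      G ∈ RingHom.ker (aeval (R := k) (pR (k := k) P)) → aeval x G = 0 := by
    intro G hG
    have h1 : aeval (R := k) (pR (k := k) P) G = 0 := hG
    have h2 : aeval P G = 0 := by
      rw [← g0_coe P G, h1]
      rfl
    have h3 : aeval P (g0_h G G.totalDegree) = 0 := by
      rw [g0_aeval P hP.1 G le_rfl, h2]
    rw [← g0_aeval x h0 G le_rfl]
    exact hII _ ((hP.2 _ _ (g0_hom G G.totalDegree)).1 h3)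
  refine ⟨(Ideal.Quotient.liftₐ (RingHom.ker (aeval (R := k) (pR (k := k) P))) (aeval x) hker).comp
    ((Ideal.quotientKerAlgEquivOfSurjective (g0_surj (k := k) P)).symm : _ →ₐ[k] _), ?_⟩
  intro l
  have h1 : (Ideal.quotientKerAlgEquivOfSurjective (g0_surj (k := k) P)).symm (pR P l) =
      Ideal.Quotient.mk _ (X l) := by
    rw [AlgEquiv.symm_apply_eq]
    exact (aeval_X (R := k) (pR (k := k) P) l).symm
  show Ideal.Quotient.liftₐ (RingHom.ker (aeval (R := k) (pR (k := k) P))) (aeval x) hker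
    ((Ideal.quotientKerAlgEquivOfSurjective (g0_surj (k := k) P)).symm (pR P l)) = x l
  rw [h1]
  exact aeval_X (R := k) x l

theorem exists_form (P : Fin (n + 1) → K) (hP : S.IsPt P) (ρ : kP (k := k) P) (hρ : ρ ≠ 0) :
    ∃ (d : ℕ) (G : MvPolynomial (Fin (n + 1)) k), G.IsHomogeneous d ∧ G ∉ S.II ∧
      ∀ (B : Type) [CommRing B] [Algebra k B] (φ : kP (k := k) P →ₐ[k] B),
        aeval (fun l => φ (pR P l)) G = φ ρ := by
  obtain ⟨G0, hG0⟩ := g0_surj (k := k) P ρ
  refine ⟨G0.totalDegree, g0_h G0 G0.totalDegree, g0_hom G0 _, ?_, ?_⟩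
  · intro hII
    have h1 := (hP.2 _ _ (g0_hom G0 G0.totalDegree)).2 hII
    rw [g0_aeval P hP.1 G0 le_rfl, ← g0_coe P G0, hG0] at h1
    exact hρ (Subtype.ext h1)
  · intro B _ _ φ
    have h0 : (fun l => φ (pR (k := k) P l)) 0 = 1 := by
      show φ (pR (k := k) P 0) = 1
      have h1 : pR (k := k) P 0 = 1 := Subtype.ext hP.1
      rw [h1, map_one]
    rw [g0_aeval _ h0 G0 le_rfl, ← hG0]
    have h2 : φ (aeval (pR (k := k) P) G0) = aeval (fun l => φ (pR (k := k) P l)) G0 := by
      rw [← AlgHom.comp_apply, MvPolynomial.comp_aeval]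
    exact h2.symm

/-- common denominators of elements of `k(P)`, by forms of the same degree -/
theorem exists_common_den (P : Fin (n + 1) → K) (hP : S.IsPt P)
    (hgen : GenOver k P) {ι : Type} [Finite ι] (c : ι → K) :
    ∃ (m : ℕ) (D : MvPolynomial (Fin (n + 1)) k) (G : ι → MvPolynomial (Fin (n + 1)) k),
      D.IsHomogeneous m ∧ (∀ i, (G i).IsHomogeneous m) ∧ D ∉ S.II ∧
        ∀ i, c i * aeval P D = aeval P (G i) := by
  classical
  have := Fintype.ofFinite ι
  choose G H hH hc using fun i => hgen (c i)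
  set D0 : MvPolynomial (Fin (n + 1)) k := ∏ i, H i with hD0
  set G' : ι → MvPolynomial (Fin (n + 1)) k := fun i => G i * ∏ j ∈ Finset.univ.erase i, H j
    with hG'
  set m : ℕ := D0.totalDegree + ∑ i, (G' i).totalDegree with hm
  have hm0 : D0.totalDegree ≤ m := by omega
  have hmi : ∀ i, (G' i).totalDegree ≤ m := by
    intro i
    have h1 : (G' i).totalDegree ≤ ∑ i, (G' i).totalDegree :=
      Finset.single_le_sum (f := fun i => (G' i).totalDegree) (fun _ _ => Nat.zero_le _)
        (Finset.mem_univ i)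
    omega
  refine ⟨m, g0_h D0 m, fun i => g0_h (G' i) m, g0_hom _ _, fun i => g0_hom _ _, ?_, ?_⟩
  · intro hII
    have h1 := (hP.2 _ _ (g0_hom D0 m)).2 hII
    rw [g0_aeval P hP.1 D0 hm0, hD0, map_prod] at h1
    obtain ⟨i, -, hi⟩ := Finset.prod_eq_zero_iff.1 h1
    exact hH i hi
  · intro i
    show c i * aeval P (g0_h D0 m) = aeval P (g0_h (G' i) m)
    rw [g0_aeval P hP.1 D0 hm0, g0_aeval P hP.1 (G' i) (hmi i), hD0,
      ← Finset.mul_prod_erase Finset.univ H (Finset.mem_univ i), map_mul, ← mul_assoc, hc i, hG',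
      map_mul]

end Pool.Agent.LibHP.CIM
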