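import Pool.Agent.LibCIM.GDefs

set_option autoImplicit false
open MvPolynomial

namespace Pool.Agent.LibHP.CIM

/-! # Row G2 (SHORT): the Hilbert property for arbitrary homomorphisms

Apply the definition to the subalgebra `f.range` (finitely generated: `Algebra.FiniteType` of `A`, `Subalgebra.fg_iff_finiteType`, surjection `f.rangeRestrict`) and the polynomials `(T i).map f.rangeRestrict` (`Polynomial.eval₂_map`), compose the point with `f.rangeRestrict` (`Polynomial.map_map`). -/

theorem HPField.hom {k κ : Type} [Field k] [Field κ] [Algebra k κ] (h : HPField k κ) (A : Type)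
    [CommRing A] [Algebra k A] [Algebra.FiniteType k A] (f : A →ₐ[k] κ) (ι : Type) [Finite ι]
    (T : ι → Polynomial A) (hm : ∀ i, (T i).Monic)
    (hroot : ∀ i z, (T i).eval₂ (f : A →+* κ) z ≠ 0) :
    ∃ φ : A →ₐ[k] k, ∀ i x, ¬ ((T i).map (φ : A →+* k)).IsRoot x := by
  have hfg : f.range.FG := by
    rw [← Algebra.map_top]
    exact Subalgebra.FG.map f Algebra.FiniteType.out
  obtain ⟨φ, hφ⟩ := h f.range hfg ι (fun i => (T i).map (f.rangeRestrict : A →+* f.range))
    (fun i => (hm i).map _) (fun i z => by
      rw [Polynomial.eval₂_map]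
      exact hroot i z)
  refine ⟨φ.comp f.rangeRestrict, fun i x => ?_⟩
  have h1 := hφ i x
  rw [Polynomial.map_map] at h1
  exact h1

end Pool.Agent.LibHP.CIM
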