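import Pool.Agent.LibCIM.A5

set_option autoImplicit false
open MvPolynomial

namespace Pool.Agent.LibHP.CIM

/-! # Row G5 (ONLY MATHLIB, MEDIUM): degree bounds

`root_degree`: `J` is prime and contains the homogeneous components of its elements. Let `U'` be the sum of the components of `U` of degree `≤ M`. All components of `U` of degree `i > M` are in `J`: otherwise let `i` be the largest degree `> M` with `U_i ∉ J`; `V := ∑ (j ≤ i) U_j`, `U - V ∈ J`, so `V^d + ∑ C_j V^j ∈ J` (`J` ideal), its component of
degree `i d` is `U_i ^ d` (`(C_j V^j)` has degree `≤ M (d - j) + i j < i d` for `j < d`), so `U_i ^ d ∈ J`, `U_i ∈ J`. (For `d = 0`: the hypothesis says `1 ∈ J`: excluded, `J` prime.)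
`cofactor_degree`: `f = ∑ B_i g_i`; take the components: `f_e = ∑ i, (B_i)_(e - d_i) g_i` (`e ≥ d_i`), so `A_i := ∑ (e ≤ D - d_i) (B_i)_e`, and `f = ∑ e ≤ D, f_e`. -/

private theorem G5_hc_mul {Ω σ : Type} [Field Ω] (a g : MvPolynomial σ Ω) (d D : ℕ)
    (hg : g.IsHomogeneous d) :
    homogeneousComponent D (a * g) =
      if d ≤ D then homogeneousComponent (D - d) a * g else 0 := by
  classical
  conv_lhs => rw [← sum_homogeneousComponent a, Finset.sum_mul, map_sum]
  have h : ∀ n, homogeneousComponent D (homogeneousComponent n a * g) =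
      if D = n + d then homogeneousComponent n a * g else 0 := fun n =>
    homogeneousComponent_of_mem ((homogeneousComponent_isHomogeneous n a).mul hg)
  simp only [h]
  split_ifs with hd
  · by_cases hn : D - d ∈ Finset.range (a.totalDegree + 1)
    · rw [Finset.sum_eq_single (D - d)]
      · rw [if_pos (by omega)]
      · intro b _ hb
        rw [if_neg (by omega)]
      · intro h'
        exact absurd hn h'
    · have h1 : homogeneousComponent (D - d) a = 0 := by
        apply homogeneousComponent_eq_zero
        rw [Finset.mem_range] at hn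
        omega
      rw [h1, zero_mul]
      refine Finset.sum_eq_zero fun n hn' => ?_
      rw [if_neg]
      intro h'
      apply hn
      have : n = D - d := by omega
      rwa [← this]
  · refine Finset.sum_eq_zero fun n _ => ?_
    rw [if_neg (by omega)]

private theorem G5_low {F : Type} [Field F] {N : ℕ} (U : MvPolynomial (Fin N) F) {n : ℕ}
    (hn : U.totalDegree = n + 1) : (U - homogeneousComponent (n + 1) U).totalDegree ≤ n := by
  have h1 := sum_homogeneousComponent U
  rw [hn, Finset.sum_range_succ] at h1
  have h2 : U - homogeneousComponent (n + 1) U =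
      ∑ i ∈ Finset.range (n + 1), homogeneousComponent i U := by
    rw [sub_eq_iff_eq_add]
    exact h1.symm
  rw [h2]
  refine totalDegree_finsetSum_le fun i hi => ?_
  have h3 := (homogeneousComponent_isHomogeneous i U).totalDegree_le
  have h4 := Finset.mem_range.1 hi
  omega

/-- the top component of the power -/
private theorem G5_pow {F : Type} [Field F] {N : ℕ} (U : MvPolynomial (Fin N) F) {n : ℕ}
    (hn : U.totalDegree = n + 1) (d : ℕ) :
    homogeneousComponent ((n + 1) * d) (U ^ d) = homogeneousComponent (n + 1) U ^ d := by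
  obtain ⟨V, hV⟩ : ∃ V, V = homogeneousComponent (n + 1) U := ⟨_, rfl⟩
  have hVh : V.IsHomogeneous (n + 1) := by
    rw [hV]
    exact homogeneousComponent_isHomogeneous _ _
  rcases Nat.eq_zero_or_pos d with rfl | hd
  · rw [pow_zero, pow_zero, mul_zero]
    exact homogeneousComponent_eq_self (isHomogeneous_one _ _)
  have h1 : U ^ d = V ^ d + (U - V) * ∑ i ∈ Finset.range d, U ^ i * V ^ (d - 1 - i) := by
    rw [(Commute.all U V).mul_geom_sum₂ d]
    ring
  have h2 : ((U - V) * ∑ i ∈ Finset.range d, U ^ i * V ^ (d - 1 - i)).totalDegree <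
      (n + 1) * d := by
    have h3 : (∑ i ∈ Finset.range d, U ^ i * V ^ (d - 1 - i)).totalDegree ≤ (n + 1) * (d - 1) := by
      refine totalDegree_finsetSum_le fun i hi => ?_
      have h4 := Finset.mem_range.1 hi
      refine (totalDegree_mul _ _).trans ?_
      have h5 := totalDegree_pow U i
      have h6 := totalDegree_pow V (d - 1 - i)
      have h7 := hVh.totalDegree_le
      rw [hn] at h5
      have h8 : (d - 1 - i) * V.totalDegree ≤ (d - 1 - i) * (n + 1) := Nat.mul_le_mul_left _ h7
      have h9 : i * (n + 1) + (d - 1 - i) * (n + 1) = (n + 1) * (d - 1) := by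
        rw [← add_mul, mul_comm]
        congr 1
        omega
      omega
    have h4 : (U - V).totalDegree ≤ n := by
      rw [hV]
      exact G5_low U hn
    have h5 := totalDegree_mul (U - V) (∑ i ∈ Finset.range d, U ^ i * V ^ (d - 1 - i))
    obtain ⟨d', rfl⟩ : ∃ d', d = d' + 1 := ⟨d - 1, by omega⟩
    rw [Nat.add_sub_cancel] at h3
    have h6 : (n + 1) * (d' + 1) = (n + 1) * d' + (n + 1) := by ring
    rw [h6]
    simp only [Nat.add_sub_cancel] at h5 ⊢
    omega
  rw [h1, map_add, homogeneousComponent_eq_zero _ _ h2, add_zero,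
    homogeneousComponent_eq_self (hVh.pow d), ← hV]

theorem root_degree {F : Type} [Field F] {N : ℕ} (J : Ideal (MvPolynomial (Fin N) F)) [J.IsPrime]
    (hJ : ∀ G ∈ J, ∀ e, homogeneousComponent e G ∈ J) (M d : ℕ) (c : Fin d → MvPolynomial (Fin N) F)
    (hc : ∀ i, (c i).IsHomogeneous (M * (d - i.val))) (U : MvPolynomial (Fin N) F)
    (hU : U ^ d + ∑ i : Fin d, c i * U ^ i.val ∈ J) :
    ∃ U' : MvPolynomial (Fin N) F, U'.totalDegree ≤ M ∧
      U' ^ d + ∑ i : Fin d, c i * U' ^ i.val ∈ J := by
  have key : ∀ (m : ℕ) (U : MvPolynomial (Fin N) F), U.totalDegree = m →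
      U ^ d + ∑ i : Fin d, c i * U ^ i.val ∈ J →
      ∃ U' : MvPolynomial (Fin N) F, U'.totalDegree ≤ M ∧
        U' ^ d + ∑ i : Fin d, c i * U' ^ i.val ∈ J := by
    intro m
    induction m using Nat.strong_induction_on with
    | _ m ih =>
      intro U hm hUJ
      by_cases hmM : m ≤ M
      · exact ⟨U, by omega, hUJ⟩
      obtain ⟨n, rfl⟩ : ∃ n, m = n + 1 := ⟨m - 1, by omega⟩
      have h1 := hJ _ hUJ ((n + 1) * d)
      rw [map_add, G5_pow U hm, map_sum] at h1
      have h2 : ∑ i : Fin d, homogeneousComponent ((n + 1) * d) (c i * U ^ i.val) = 0 := by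
        refine Finset.sum_eq_zero fun i _ => ?_
        apply homogeneousComponent_eq_zero
        have h3 := (hc i).totalDegree_le
        have h4 := totalDegree_pow U i.val
        rw [hm] at h4
        have h5 := totalDegree_mul (c i) (U ^ i.val)
        have h6 := i.isLt
        obtain ⟨r, hr⟩ : ∃ r, d = i.val + r + 1 := ⟨d - i.val - 1, by omega⟩
        have h7 : d - i.val = r + 1 := by omega
        rw [h7] at h3
        have h8 : M * (r + 1) < (n + 1) * (r + 1) := Nat.mul_lt_mul_of_pos_right (by omega) (by omega)
        have h9 : (n + 1) * d = (n + 1) * (r + 1) + i.val * (n + 1) :=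
          (congrArg (fun t => (n + 1) * t) hr).trans (by ring)
        omega
      rw [h2, add_zero] at h1
      have h3 : homogeneousComponent (n + 1) U ∈ J := Ideal.IsPrime.mem_of_pow_mem inferInstance _ h1
      have h4 : Ideal.Quotient.mk J (U - homogeneousComponent (n + 1) U) =
          Ideal.Quotient.mk J U := by
        rw [Ideal.Quotient.eq]
        have h5 : U - homogeneousComponent (n + 1) U - U = -homogeneousComponent (n + 1) U := by
          ring
        rw [h5]
        exact J.neg_mem h3
      have h6 := G5_low U hm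
      refine ih _ (by omega) (U - homogeneousComponent (n + 1) U) rfl ?_
      rw [← Ideal.Quotient.eq_zero_iff_mem] at hUJ ⊢
      rw [map_add, map_sum] at hUJ ⊢
      simp only [map_mul, map_pow] at hUJ ⊢
      rw [h4]
      exact hUJ
  exact key _ U rfl hU

theorem cofactor_degree {F : Type} [Field F] {N : ℕ} {ι : Type} [Fintype ι]
    (g : ι → MvPolynomial (Fin N) F) (dg : ι → ℕ) (hg : ∀ i, (g i).IsHomogeneous (dg i)) (D : ℕ)
    (f : MvPolynomial (Fin N) F) (hD : f.totalDegree ≤ D) (hf : f ∈ Ideal.span (Set.range g)) :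
    ∃ A : ι → MvPolynomial (Fin N) F, (∀ i, (A i).totalDegree ≤ D) ∧ f = ∑ i, A i * g i := by
  obtain ⟨B, hB⟩ := Ideal.mem_span_range_iff_exists_fun.1 hf
  refine ⟨fun i => ∑ e ∈ Finset.range (D + 1),
    if dg i ≤ e then homogeneousComponent (e - dg i) (B i) else 0, fun i => ?_, ?_⟩
  · refine totalDegree_finsetSum_le fun e he => ?_
    have h1 := Finset.mem_range.1 he
    split_ifs with h2
    · have h3 := (homogeneousComponent_isHomogeneous (e - dg i) (B i)).totalDegree_le
      omega
    · rw [totalDegree_zero]
      exact Nat.zero_le _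
  · have h1 : f = ∑ e ∈ Finset.range (D + 1), homogeneousComponent e f := by
      conv_lhs => rw [← sum_homogeneousComponent f]
      refine Finset.sum_subset (Finset.range_mono (by omega)) fun e _ he => ?_
      apply homogeneousComponent_eq_zero
      rw [Finset.mem_range] at he
      omega
    have h2 : ∀ e, homogeneousComponent e f = ∑ i, (if dg i ≤ e then
        homogeneousComponent (e - dg i) (B i) else 0) * g i := by
      intro e
      conv_lhs => rw [← hB]
      rw [map_sum]
      refine Finset.sum_congr rfl fun i _ => ?_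
      rw [G5_hc_mul _ _ _ _ (hg i)]
      split_ifs
      · rfl
      · rw [zero_mul]
    conv_lhs => rw [h1]
    simp only [h2]
    rw [Finset.sum_comm]
    refine Finset.sum_congr rfl fun i _ => ?_
    rw [Finset.sum_mul]

end Pool.Agent.LibHP.CIM
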