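import Pool.Agent.LibHPF.P5a
import Pool.Agent.LibCIM.G1
import Pool.Agent.LibCIM.G5

set_option autoImplicit false
open MvPolynomial

namespace Pool.Agent.LibHP.CIM

/-! # Row G6 (MEDIUM/STRONG): equations without solutions modulo the ideal stay without solutions

Unknowns: the coefficients of `U` (degree `≤ M` in each variable) and of the cofactors `A_i` (degree `≤ D := M * d`): `σ := (Fin N → Fin (M + 1)) ⊕ (ι × (Fin N → Fin (D + 1)))`, over `A0 := MvPolynomial σ R` take `U := p5aG N M (X ∘ inl)`, `A_i := p5aG N D (fun t => X (inr (i, t)))` (LibHPF/P5a.lean: `p5aG`, `p5aG_map`, `p5aG_eq`), and the system `f` of the coefficients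
(index: exponents `m : Fin N →₀ ℕ`) of `U ^ d + ∑ map C (c i) * U ^ i - ∑ A_i * map C (g i)`, elements of `A0`. A solution over `Ω` gives `U` with `U ^ d + ∑ .. ∈ span`: excluded by `h`. `spread_unsolvable` (G1) gives `ρ`. For `φ ρ ≠ 0` and `U` over `F` with `U ^ d + ∑ .. ∈ span`, prime: `root_degree` (G5) gives `U'` with `totalDegree ≤ M`; `U' ^ d + ∑ ..` has total degree
`≤ M * d`; `cofactor_degree` (G5) gives the `A_i`; their coefficients are a solution of the system over `F` (`p5aG_eq`). The ideal `span (range g)` is homogeneous (`Ideal.homogeneous_span`; see A5, B1). -/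

/-- The universal equation. -/
private noncomputable def G6_E {T : Type} [CommRing T] {N : ℕ} {ι : Type} [Fintype ι]
    (g : ι → MvPolynomial (Fin N) T) (M d : ℕ) (c : Fin d → MvPolynomial (Fin N) T)
    (u : (Fin N → Fin (M + 1)) → T) (a : ι → (Fin N → Fin (M * d + 1)) → T) :
    MvPolynomial (Fin N) T :=
  p5aG N M u ^ d + ∑ i : Fin d, c i * p5aG N M u ^ i.val - ∑ i, p5aG N (M * d) (a i) * g i

private theorem G6_map {T T' : Type} [CommRing T] [CommRing T'] (h : T →+* T') {N : ℕ} {ι : Type}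
    [Fintype ι] (g : ι → MvPolynomial (Fin N) T) (M d : ℕ) (c : Fin d → MvPolynomial (Fin N) T)
    (u : (Fin N → Fin (M + 1)) → T) (a : ι → (Fin N → Fin (M * d + 1)) → T) :
    MvPolynomial.map h (G6_E g M d c u a) =
      G6_E (fun i => MvPolynomial.map h (g i)) M d (fun i => MvPolynomial.map h (c i))
        (fun s => h (u s)) (fun i s => h (a i s)) := by
  unfold G6_E
  rw [map_sub, map_add, map_pow, map_sum, map_sum, p5aG_map]
  simp only [map_mul, map_pow, p5aG_map]

/-- The system. -/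
private noncomputable def G6_f {R : Type} [CommRing R] {N : ℕ} {ι : Type} [Fintype ι]
    (g : ι → MvPolynomial (Fin N) R) (M d : ℕ) (c : Fin d → MvPolynomial (Fin N) R)
    (m : Fin N →₀ ℕ) :
    MvPolynomial ((Fin N → Fin (M + 1)) ⊕ (ι × (Fin N → Fin (M * d + 1)))) R :=
  coeff m (G6_E (T := MvPolynomial ((Fin N → Fin (M + 1)) ⊕ (ι × (Fin N → Fin (M * d + 1)))) R)
    (fun i => MvPolynomial.map C (g i)) M d (fun i => MvPolynomial.map C (c i))
    (fun s => X (Sum.inl s)) (fun i s => X (Sum.inr (i, s))))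

private theorem G6_eval {R T : Type} [CommRing R] [CommRing T] (φ : R →+* T) {N : ℕ} {ι : Type}
    [Fintype ι] (g : ι → MvPolynomial (Fin N) R) (M d : ℕ) (c : Fin d → MvPolynomial (Fin N) R)
    (x : (Fin N → Fin (M + 1)) ⊕ (ι × (Fin N → Fin (M * d + 1))) → T) (m : Fin N →₀ ℕ) :
    (G6_f g M d c m).eval₂ φ x =
      coeff m (G6_E (fun i => MvPolynomial.map φ (g i)) M d (fun i => MvPolynomial.map φ (c i))
        (fun s => x (Sum.inl s)) (fun i s => x (Sum.inr (i, s)))) := by
  have h1 : (G6_f g M d c m).eval₂ φ x = eval₂Hom φ x (G6_f g M d c m) := rfl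
  rw [h1]
  unfold G6_f
  rw [← coeff_map, G6_map]
  have hC : (eval₂Hom φ x).comp C = φ := by
    ext r
    simp
  congr 2
  · funext i
    rw [map_map, hC]
  · funext i
    rw [map_map, hC]
  · funext s
    simp
  · funext i s
    simp

theorem spread_root {R Ω : Type} [CommRing R] [IsDomain R] [Field Ω] [IsAlgClosed Ω] (j : R →+* Ω)
    (hj : Function.Injective j) {N : ℕ} {ι : Type} [Fintype ι] (g : ι → MvPolynomial (Fin N) R)
    (dg : ι → ℕ) (hg : ∀ i, (g i).IsHomogeneous (dg i)) (M d : ℕ) (c : Fin d → MvPolynomial (Fin N) R)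
    (hc : ∀ i, (c i).IsHomogeneous (M * (d - i.val)))
    (h : ∀ U : MvPolynomial (Fin N) Ω, U ^ d + ∑ i : Fin d, MvPolynomial.map j (c i) * U ^ i.val ∉
      Ideal.span (Set.range fun i => MvPolynomial.map j (g i))) :
    ∃ ρ : R, ρ ≠ 0 ∧ ∀ (F : Type) [Field F] (φ : R →+* F), φ ρ ≠ 0 →
      (Ideal.span (Set.range fun i => MvPolynomial.map φ (g i))).IsPrime →
      ∀ U : MvPolynomial (Fin N) F, U ^ d + ∑ i : Fin d, MvPolynomial.map φ (c i) * U ^ i.val ∉
        Ideal.span (Set.range fun i => MvPolynomial.map φ (g i)) := by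
  classical
  obtain ⟨ρ, hρ, hs⟩ := spread_unsolvable j hj (G6_f g M d c) (by
    intro x
    by_contra hx
    push Not at hx
    have h0 : G6_E (fun i => MvPolynomial.map j (g i)) M d (fun i => MvPolynomial.map j (c i))
        (fun s => x (Sum.inl s)) (fun i s => x (Sum.inr (i, s))) = 0 := by
      ext m
      rw [← G6_eval, hx m, coeff_zero]
    unfold G6_E at h0
    apply h (p5aG N M fun s => x (Sum.inl s))
    rw [sub_eq_zero.1 h0]
    exact Ideal.sum_mem _ fun i _ => Ideal.mul_mem_left _ _ (Ideal.subset_span ⟨i, rfl⟩))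
  refine ⟨ρ, hρ, fun F _ φ hφ hp U hU => ?_⟩
  have hgφ : ∀ i, (MvPolynomial.map φ (g i)).IsHomogeneous (dg i) := fun i => (hg i).map φ
  have hcφ : ∀ i, (MvPolynomial.map φ (c i)).IsHomogeneous (M * (d - i.val)) :=
    fun i => (hc i).map φ
  let _ : GradedAlgebra (homogeneousSubmodule (Fin N) F) := gradedAlgebra
  have hI : ∀ G ∈ Ideal.span (Set.range fun i => MvPolynomial.map φ (g i)),
      ∀ e, homogeneousComponent e G ∈ Ideal.span (Set.range fun i => MvPolynomial.map φ (g i)) :=
    fun G hG => (mem_iff_homogeneousComponent_mem (Ideal.homogeneous_span _ _ (by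
      rintro z ⟨i, rfl⟩
      exact ⟨dg i, hgφ i⟩)) G).1 hG
  obtain ⟨U', hU'd, hU'⟩ := root_degree _ hI M d (fun i => MvPolynomial.map φ (c i)) hcφ U hU
  have hdeg : (U' ^ d + ∑ i : Fin d, MvPolynomial.map φ (c i) * U' ^ i.val).totalDegree ≤
      M * d := by
    refine (totalDegree_add _ _).trans (max_le ?_ (totalDegree_finsetSum_le fun i _ => ?_))
    · refine (totalDegree_pow _ _).trans ?_
      rw [mul_comm M d]
      exact Nat.mul_le_mul_left _ hU'd
    · refine (totalDegree_mul _ _).trans ?_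
      have h1 := (hcφ i).totalDegree_le
      have h2 : (U' ^ i.val).totalDegree ≤ M * i.val := by
        refine (totalDegree_pow _ _).trans ?_
        rw [mul_comm M]
        exact Nat.mul_le_mul_left _ hU'd
      have h3 : M * (d - i.val) + M * i.val = M * d := by
        rw [← Nat.mul_add, Nat.sub_add_cancel i.2.le]
      omega
  obtain ⟨A, hA, hAe⟩ := cofactor_degree _ dg hgφ (M * d) _ hdeg hU'
  obtain ⟨m, hm⟩ := hs F φ hφ (Sum.elim (fun s => coeff (p5aM N M s) U')
    (fun p => coeff (p5aM N (M * d) p.2) (A p.1)))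
  apply hm
  rw [G6_eval]
  have h0 : G6_E (fun i => MvPolynomial.map φ (g i)) M d (fun i => MvPolynomial.map φ (c i))
      (fun s => coeff (p5aM N M s) U') (fun i s => coeff (p5aM N (M * d) s) (A i)) = 0 := by
    unfold G6_E
    rw [p5aG_eq N M U' hU'd, hAe, sub_eq_zero]
    refine Finset.sum_congr rfl fun i _ => ?_
    rw [p5aG_eq N (M * d) (A i) (hA i)]
  simp only [Sum.elim_inl, Sum.elim_inr]
  rw [h0, coeff_zero]

end Pool.Agent.LibHP.CIM
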