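import Pool.Agent.LibCIM.HDefs
import Pool.Agent.LibCIM.T3

set_option autoImplicit false
open MvPolynomial

namespace Pool.Agent.LibHP.CIM

/-! # Definitions of block G (section 6) -/

/-- The residual point with coordinates `c_e P - c_(e-1) X`, forms of degree `e` in the variables `X`. -/
noncomputable def Sys.res {k : Type} [Field k] {n a e : ℕ} (S : Sys k n a e) {R : Type} [CommRing R]
    [Algebra k R] (P : Fin (n + 1) → R) : Fin (n + 1) → MvPolynomial (Fin (n + 1)) R :=
  S.resid (fun l => C (P l)) (fun l => X l)

/-- The ring `k[P]`. -/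
abbrev kP {k K : Type} [Field k] [Field K] [Algebra k K] {n : ℕ} (P : Fin (n + 1) → K) :
    Subalgebra k K := Algebra.adjoin k (Set.range P)

/-- The coordinates of `P` in `k[P]`. -/
def pR {k K : Type} [Field k] [Field K] [Algebra k K] {n : ℕ} (P : Fin (n + 1) → K) :
    Fin (n + 1) → kP (k := k) P := fun l => ⟨P l, Algebra.subset_adjoin ⟨l, rfl⟩⟩

/-- The determinant of the columns `s j` of the matrix of the partial derivatives. -/
noncomputable def minor {F : Type} [Field F] {N : ℕ} {ι : Type} [Fintype ι] [DecidableEq ι]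
    (g : ι → MvPolynomial (Fin N) F) (s : ι → Fin N) : MvPolynomial (Fin N) F :=
  (Matrix.of fun i j => pderiv (s j) (g i)).det

end Pool.Agent.LibHP.CIM
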