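import Pool.Agent.LibCIM.TDefs
import Pool.Agent.LibHP.SDefs

set_option autoImplicit false
open AlgebraicGeometry CategoryTheory MvPolynomial

namespace Pool.Agent.LibHP.CIM

/-- The Hilbert property of (a variety with) the function field `E`: for finitely many monic polynomials without roots in `E`, over
a finitely generated subalgebra of `E`, there is a `k`-point at which they have no roots. -/
def HPField (k E : Type) [Field k] [Field E] [Algebra k E] : Prop :=
  ∀ A : Subalgebra k E, A.FG → ∀ (ι : Type) [Finite ι] (T : ι → Polynomial A), (∀ i, (T i).Monic) →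
    (∀ i (z : E), (T i).eval₂ (algebraMap A E) z ≠ 0) →
    ∃ φ : A →ₐ[k] k, ∀ i x, ¬ ((T i).map (φ : A →+* k)).IsRoot x

/-- The function field of the zeros of the prime ideal `J`. -/
abbrev FunField {k : Type} [Field k] {N : ℕ} (J : Ideal (MvPolynomial (Fin N) k)) : Type :=
  FractionRing (MvPolynomial (Fin N) k ⧸ J)

/-- The cone of zeros of `J` (a prime ideal) has the Hilbert property. -/
def ConeHP {k : Type} [Field k] {N : ℕ} (J : Ideal (MvPolynomial (Fin N) k)) : Prop :=
  ∃ h : J.IsPrime, letI := h; HPField k (FunField J)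

/-- `y`, normalised by `y l = 1`, is a generic point of the projective variety with the homogeneous ideal `J`, and `κ` is generated
by its coordinates. -/
def IsPrj {k κ : Type} [Field k] [Field κ] [Algebra k κ] {N : ℕ} (J : Ideal (MvPolynomial (Fin N) k))
    (y : Fin N → κ) (l : Fin N) : Prop :=
  y l = 1 ∧
  (∀ (d : ℕ) (G : MvPolynomial (Fin N) k), G.IsHomogeneous d → (aeval y G = 0 ↔ G ∈ J)) ∧ GenOver k y

/-- The projective variety over `k` with the homogeneous ideal `J` is integral and has the Hilbert property. -/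
def PrjHP {k : Type} [Field k] {N : ℕ} (J : Ideal (MvPolynomial (Fin N) k)) : Prop :=
  ∃ (κ : Type) (_ : Field κ) (_ : Algebra k κ) (y : Fin N → κ) (l : Fin N), IsPrj J y l ∧ HPField k κ

/-- The points whose variety of contact directions of order `e - 1` (or the cone over it) has the Hilbert property are dense. -/
def Sys.DenseHP {k : Type} [Field k] {n a e : ℕ} (S : Sys k n a e) : Prop :=
  ∀ (d : ℕ) (G : MvPolynomial (Fin (n + 1)) k), G.IsHomogeneous d → G ∉ S.II →
    ∃ P : Fin (n + 1) → k, P 0 = 1 ∧ (∀ o, aeval P (S.fam o) = 0) ∧ aeval P G ≠ 0 ∧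
      (ConeHP (S.JJ P (e - 2)) ∨ PrjHP (S.JJ P (e - 2)))

/-- `z` is a system of homogeneous coordinates, with values in `K`, of a generic zero of the homogeneous ideal `I`,
and `K` is generated over `k` by the ratios of these coordinates. -/
def IsCoord {k K : Type} [Field k] [Field K] [Algebra k K] {n : ℕ}
    (I : Ideal (MvPolynomial (Fin (n + 1)) k)) (z : Fin (n + 1) → K) : Prop :=
  z ≠ 0 ∧
  (∀ (d : ℕ) (G : MvPolynomial (Fin (n + 1)) k), G.IsHomogeneous d → (aeval z G = 0 ↔ G ∈ I)) ∧
  IntermediateField.adjoin k {c : K | ∃ i j, z j ≠ 0 ∧ c = z i / z j} = ⊤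

/-- `X` is birational to the projective variety of the homogeneous ideal `I`. -/
def IsModel {k : Type} [Field k] {X : Scheme} [IsIntegral X]
    (f : X ⟶ Spec (CommRingCat.of k)) {n : ℕ} (I : Ideal (MvPolynomial (Fin (n + 1)) k)) : Prop :=
  letI : Algebra k X.functionField := RingHom.toAlgebra
    ((Scheme.ΓSpecIso (CommRingCat.of k)).inv ≫ f.appTop ≫
      X.presheaf.germ ⊤ (genericPoint X) trivial).hom
  ∃ z : Fin (n + 1) → X.functionField, IsCoord I z

end Pool.Agent.LibHP.CIM
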