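import Pool.Agent.LibCIM.GDefs

set_option autoImplicit false
open MvPolynomial

namespace Pool.Agent.LibHP.CIM

/-! # Row N1 (MEDIUM): the charts of a smooth system are standard smooth

Template: `C3_smooth` in LibHPC/C3.lean (there two forms and the equation `X i = 1`). `Algebra.PreSubmersivePresentation.naive (v := chartFam g s) (Option.map s) (injective)`. The Jacobian matrix (index `Option ι`) is block triangular: `pderiv none (rename some G) = 0`, `pderiv (some c) (rename some G) = rename some (pderiv c G)`,
`pderiv none (X none * rename some Δ - 1) = rename some Δ`; its determinant is `± (rename some Δ) ^ 2`, up to transposition (expand along the row/column `none`: `Matrix.det_succ_row`-like lemmas need `Fin`; or reindex `Option ι ≃ ι ⊕ Unit` (`Equiv.optionEquivSumPUnit`) and `Matrix.det_fromBlocks_zero₁₂`/`₂₁`). `Δ` is a unit in the quotient. -/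

/-- The relations of the chart `Δ ≠ 0`, `Δ = minor g s`. -/
noncomputable def chartFam {F : Type} [Field F] {N : ℕ} {ι : Type} [Fintype ι] [DecidableEq ι]
    (g : ι → MvPolynomial (Fin N) F) (s : ι → Fin N) : Option ι → MvPolynomial (Option (Fin N)) F :=
  fun o => o.elim (X none * rename some (minor g s) - 1) (fun i => rename some (g i))

theorem chart_smooth {F : Type} [Field F] {N : ℕ} {ι : Type} [Fintype ι] [DecidableEq ι]
    (g : ι → MvPolynomial (Fin N) F) (s : ι → Fin N) (hs : Function.Injective s) :
    Algebra.IsStandardSmooth F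
      (MvPolynomial (Option (Fin N)) F ⧸ Ideal.span (Set.range (chartFam g s))) := by
  have hinj : Function.Injective (Option.map s) := Option.map_injective hs
  let P₀ := Algebra.PreSubmersivePresentation.naive (R := F) (v := chartFam g s)
    (Option.map s) hinj
  have hsome : ∀ (G : MvPolynomial (Fin N) F) (c : Fin N),
      pderiv (some c) (rename some G : MvPolynomial (Option (Fin N)) F) =
        rename some (pderiv c G) := fun G c => pderiv_rename (Option.some_injective _) c G
  have hnone : ∀ (G : MvPolynomial (Fin N) F),
      pderiv none (rename some G : MvPolynomial (Option (Fin N)) F) = 0 := by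
    intro G
    refine pderiv_eq_zero_of_notMem_vars fun h => ?_
    obtain ⟨a, -, ha⟩ := Finset.mem_image.1 (vars_rename some G h)
    exact Option.some_ne_none a ha
  obtain ⟨Δ, hΔ⟩ : ∃ Δ, Δ = minor g s := ⟨_, rfl⟩
  have hU : pderiv none (X none * rename some Δ - 1 :
      MvPolynomial (Option (Fin N)) F) = rename some Δ := by
    rw [map_sub, pderiv_one, sub_zero, pderiv_mul, pderiv_X_self, hnone]
    ring
  have hdet : P₀.jacobiMatrix.det = (rename some Δ) ^ 2 := by
    rw [← Matrix.det_submatrix_equiv_self (Equiv.optionEquivSumPUnit.{0, 0} ι).symm P₀.jacobiMatrix]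
    have hM : P₀.jacobiMatrix.submatrix (Equiv.optionEquivSumPUnit.{0, 0} ι).symm
        (Equiv.optionEquivSumPUnit.{0, 0} ι).symm = Matrix.fromBlocks
        (Matrix.of fun i j => rename some (pderiv (s i) (g j)))
        (Matrix.of fun i _ => pderiv (some (s i)) (X none * rename some Δ - 1))
        (0 : Matrix Unit ι (MvPolynomial (Option (Fin N)) F))
        (Matrix.of fun _ _ => rename some Δ) := by
      refine Matrix.ext fun x y => ?_
      rw [Matrix.submatrix_apply, Algebra.PreSubmersivePresentation.jacobiMatrix_naive]
      rcases x with i | u <;> rcases y with j | w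
      · exact hsome (g j) (s i)
      · rw [hΔ]
        rfl
      · exact hnone (g j)
      · rw [hΔ] at hU
        rw [hΔ]
        exact hU
    have h2 : (Matrix.of fun (_ _ : Unit) => (rename some Δ :
        MvPolynomial (Option (Fin N)) F)).det = rename some Δ := Matrix.det_unique _
    rw [hM, Matrix.det_fromBlocks_zero₂₁, h2, sq]
    congr 1
    have h1 : (Matrix.of fun i j => rename some (pderiv (s i) (g j)) :
        Matrix ι ι (MvPolynomial (Option (Fin N)) F)) =
        (((rename some : MvPolynomial (Fin N) F →ₐ[F] MvPolynomial (Option (Fin N)) F) :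
          MvPolynomial (Fin N) F →+* MvPolynomial (Option (Fin N)) F).mapMatrix
          (Matrix.of fun i j => pderiv (s j) (g i))).transpose := by
      exact Matrix.ext fun i j => rfl
    rw [h1, Matrix.det_transpose, ← RingHom.map_det, hΔ]
    rfl
  have hunit : IsUnit P₀.jacobian := by
    have hal : ∀ x : MvPolynomial (Option (Fin N)) F,
        algebraMap P₀.Ring (MvPolynomial (Option (Fin N)) F ⧸
          Ideal.span (Set.range (chartFam g s))) x = Ideal.Quotient.mkₐ F _ x := by
      intro x
      rw [P₀.algebraMap_apply]
      refine congrFun (congrArg DFunLike.coe (MvPolynomial.algHom_ext (fun i => ?_))) x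
      rw [aeval_X]
      rfl
    rw [Algebra.PreSubmersivePresentation.jacobian_eq_jacobiMatrix_det, hdet, hal, map_pow]
    refine IsUnit.pow 2 ?_
    refine IsUnit.of_mul_eq_one (Ideal.Quotient.mkₐ F _ (X none)) ?_
    rw [← map_mul, ← sub_eq_zero, ← map_one (Ideal.Quotient.mkₐ F
      (Ideal.span (Set.range (chartFam g s)))), ← map_sub, Ideal.Quotient.mkₐ_eq_mk,
      Ideal.Quotient.eq_zero_iff_mem, mul_comm, hΔ]
    exact Ideal.subset_span ⟨none, rfl⟩
  exact (⟨P₀, hunit⟩ : Algebra.SubmersivePresentation F _ _ _).isStandardSmooth

end Pool.Agent.LibHP.CIM
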