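import Pool.Agent.LibCIM.N1
import Pool.Agent.LibHP.E3

set_option autoImplicit false
open MvPolynomial

namespace Pool.Agent.LibHP.CIM

/-! # Row N2 (MEDIUM): the charts of a smooth system are normal

Template: `ci_chart_etale` in LibHPC/C3.lean. `Θ : MvPolynomial (Option (Fin N)) F → E`, `X (some l) ↦ v l`, `X none ↦ Δ(v)⁻¹`. Its kernel is `span (range (chartFam g s))` (as in C3: `P ≡ X none ^ D * rename some G`; `G3_elim` in LibHPF/G3.lean). So `Θ.range` (a domain) is standard smooth over `F`
(`chart_smooth`; `s` is injective since otherwise `minor g s = 0`: two equal columns), so `RingHom.IsStandardSmooth.exists_etale_mvPolynomial` and `isIntegrallyClosed_of_etale` (LibHP/E3.lean): `Θ.range` is integrally closed. `u` is a fraction of elements of `Θ.range` and integral over it (its coefficients are in `Θ.range`), so `u ∈ Θ.range`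
(`IsIntegrallyClosed`, `IsIntegrallyClosed.algebraMap_eq_of_integral` in `FractionRing`, or `IsIntegrallyClosedIn`; embed `FractionRing Θ.range` in `E`). An element `Θ P` is `Δ(v)^(-m) * aeval v U` for some `m`, `U`. -/

private theorem N2_elim {k : Type} [Field k] {N : ℕ} (h : MvPolynomial (Fin N) k)
    (J : Ideal (MvPolynomial (Option (Fin N)) k))
    (hJ : X none * rename some h - 1 ∈ J) (P : MvPolynomial (Option (Fin N)) k) :
    ∃ (D : ℕ) (Q : MvPolynomial (Fin N) k),
      P * (rename some h) ^ D - rename some Q ∈ J := by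
  induction P using MvPolynomial.induction_on with
  | C a => exact ⟨0, C a, by simp⟩
  | add p q hp hq =>
    obtain ⟨D₁, Q₁, h₁⟩ := hp
    obtain ⟨D₂, Q₂, h₂⟩ := hq
    refine ⟨D₁ + D₂, Q₁ * h ^ D₂ + Q₂ * h ^ D₁, ?_⟩
    have e : (p + q) * (rename some h) ^ (D₁ + D₂) - rename some (Q₁ * h ^ D₂ + Q₂ * h ^ D₁) =
        (p * (rename some h) ^ D₁ - rename some Q₁) * (rename some h) ^ D₂ +
          (q * (rename some h) ^ D₂ - rename some Q₂) * (rename some h) ^ D₁ := by
      rw [map_add, map_mul, map_mul, map_pow, map_pow, pow_add]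
      ring
    rw [e]
    exact J.add_mem (J.mul_mem_right _ h₁) (J.mul_mem_right _ h₂)
  | mul_X p v hp =>
    obtain ⟨D, Q, h₁⟩ := hp
    rcases v with _ | l
    · refine ⟨D + 1, Q, ?_⟩
      have e : p * X none * (rename some h) ^ (D + 1) - rename some Q =
          (p * (rename some h) ^ D - rename some Q) * (X none * rename some h) +
            rename some Q * (X none * rename some h - 1) := by
        rw [pow_succ]
        ring
      rw [e]
      exact J.add_mem (J.mul_mem_right _ h₁) (J.mul_mem_left _ hJ)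
    · refine ⟨D, Q * X l, ?_⟩
      have e : p * X (some l) * (rename some h) ^ D - rename some (Q * X l) =
          (p * (rename some h) ^ D - rename some Q) * X (some l) := by
        rw [map_mul, rename_X]
        ring
      rw [e]
      exact J.mul_mem_right _ h₁

private theorem N2_inj {F : Type} [Field F] {N : ℕ} {ι : Type} [Fintype ι] [DecidableEq ι]
    (g : ι → MvPolynomial (Fin N) F) (s : ι → Fin N) (h : minor g s ≠ 0) :
    Function.Injective s := by
  intro i j hij
  by_contra hne
  apply h
  unfold minor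
  apply Matrix.det_zero_of_column_eq hne
  intro l
  simp [Matrix.of_apply, hij]

private theorem N2_closed {F : Type} [Field F] {N : ℕ} {ι : Type} [Fintype ι] [DecidableEq ι]
    (g : ι → MvPolynomial (Fin N) F) (s : ι → Fin N) {E : Type} [Field E] [Algebra F E]
    (v : Fin N → E) (hv : IsGen (Ideal.span (Set.range g)) v) (hΔ : aeval v (minor g s) ≠ 0)
    (Θ : MvPolynomial (Option (Fin N)) F →ₐ[F] E)
    (hΘr : ∀ G : MvPolynomial (Fin N) F, Θ (rename some G) = aeval v G)
    (hΘn : Θ (X none) = (aeval v (minor g s))⁻¹) :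
    IsIntegrallyClosed Θ.range := by
  classical
  have hs : Function.Injective s := by
    apply N2_inj g s
    intro h
    apply hΔ
    rw [h, map_zero]
  set J : Ideal (MvPolynomial (Option (Fin N)) F) := Ideal.span (Set.range (chartFam g s)) with hJ
  have hJ0 : ∀ i, rename some (g i) ∈ J := fun i => Ideal.subset_span ⟨some i, rfl⟩
  have hJ2 : X none * rename some (minor g s) - 1 ∈ J := Ideal.subset_span ⟨none, rfl⟩
  have hle : J ≤ RingHom.ker Θ := by
    rw [hJ, Ideal.span_le]
    rintro _ ⟨x, rfl⟩
    change Θ (chartFam g s x) = 0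
    rcases x with _ | i
    · change Θ (X none * rename some (minor g s) - 1) = 0
      rw [map_sub, map_mul, hΘr, hΘn, map_one, inv_mul_cancel₀ hΔ, sub_self]
    · change Θ (rename some (g i)) = 0
      rw [hΘr, hv]
      exact Ideal.subset_span ⟨i, rfl⟩
  have hker : J = RingHom.ker Θ := by
    apply le_antisymm hle
    intro P hP
    have hP0 : Θ P = 0 := hP
    obtain ⟨D, G, hDG⟩ := N2_elim (minor g s) J hJ2 P
    have hDG0 : Θ (P * (rename some (minor g s)) ^ D - rename some G) = 0 := hle hDG
    rw [map_sub, map_mul, hP0, zero_mul, zero_sub, neg_eq_zero, hΘr, hv] at hDG0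
    have hGJ : rename some G ∈ J := by
      have hle2 : Ideal.span (Set.range g) ≤ J.comap (rename some :
          MvPolynomial (Fin N) F →ₐ[F] MvPolynomial (Option (Fin N)) F) := by
        rw [Ideal.span_le]
        rintro _ ⟨i, rfl⟩
        exact hJ0 i
      exact hle2 hDG0
    have hPD : P * (rename some (minor g s)) ^ D ∈ J := by
      have := J.add_mem hDG hGJ
      rwa [sub_add_cancel] at this
    have h2 : (X none * rename some (minor g s)) ^ D - 1 ∈ J := by
      have h3 : X none * rename some (minor g s) - 1 ∣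
          (X none * rename some (minor g s)) ^ D - 1 := by
        have := sub_dvd_pow_sub_pow (X none * rename some (minor g s) :
          MvPolynomial (Option (Fin N)) F) 1 D
        rwa [one_pow] at this
      exact Ideal.mem_of_dvd _ h3 hJ2
    have h4 : P = P * (rename some (minor g s)) ^ D * (X none) ^ D -
        P * ((X none * rename some (minor g s)) ^ D - 1) := by
      rw [mul_pow]
      ring
    rw [h4]
    exact J.sub_mem (J.mul_mem_right _ hPD) (J.mul_mem_left _ h2)
  have hsm := chart_smooth g s hs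
  have e1 : (MvPolynomial (Option (Fin N)) F ⧸ J) ≃ₐ[F]
      MvPolynomial (Option (Fin N)) F ⧸ RingHom.ker Θ := Ideal.quotientEquivAlgOfEq F hker
  have e2 : (MvPolynomial (Option (Fin N)) F ⧸ RingHom.ker Θ) ≃ₐ[F] Θ.range :=
    Ideal.quotientKerEquivRange Θ
  have hst : Algebra.IsStandardSmooth F Θ.range :=
    Algebra.IsStandardSmooth.of_algEquiv (e1.trans e2)
  obtain ⟨M, φ, -, hφ⟩ := RingHom.IsStandardSmooth.exists_etale_mvPolynomial
    (RingHom.isStandardSmooth_algebraMap.2 hst)
  letI : Algebra (MvPolynomial (Fin M) F) Θ.range := φ.toAlgebra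
  haveI : Algebra.Etale (MvPolynomial (Fin M) F) Θ.range := hφ
  exact isIntegrallyClosed_of_etale F M Θ.range

theorem chart_normal {F : Type} [Field F] {N : ℕ} {ι : Type} [Fintype ι] [DecidableEq ι]
    (g : ι → MvPolynomial (Fin N) F) (s : ι → Fin N) {E : Type} [Field E] [Algebra F E]
    (v : Fin N → E) (hv : IsGen (Ideal.span (Set.range g)) v) (hΔ : aeval v (minor g s) ≠ 0) (u : E)
    (hu : ∃ G H : MvPolynomial (Fin N) F, aeval v H ≠ 0 ∧ u * aeval v H = aeval v G)
    (hint : ((aeval v : MvPolynomial (Fin N) F →ₐ[F] E) : MvPolynomial (Fin N) F →+* E).IsIntegralElem u) :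
    ∃ (m : ℕ) (U : MvPolynomial (Fin N) F), aeval v (minor g s) ^ m * u = aeval v U := by
  classical
  let val : Option (Fin N) → E := fun o => o.elim (aeval v (minor g s))⁻¹ v
  let Θ : MvPolynomial (Option (Fin N)) F →ₐ[F] E := aeval val
  have hΘr : ∀ G : MvPolynomial (Fin N) F, Θ (rename some G) = aeval v G := by
    intro G
    change aeval val (rename some G) = _
    rw [aeval_rename]
    rfl
  have hΘn : Θ (X none) = (aeval v (minor g s))⁻¹ := aeval_X _ _
  haveI hcl : IsIntegrallyClosed Θ.range := N2_closed g s v hv hΔ Θ hΘr hΘn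
  let ρ : MvPolynomial (Fin N) F →+* Θ.range :=
    (Θ.rangeRestrict : MvPolynomial (Option (Fin N)) F →+* Θ.range).comp
      ((rename some : MvPolynomial (Fin N) F →ₐ[F] MvPolynomial (Option (Fin N)) F) :
        MvPolynomial (Fin N) F →+* MvPolynomial (Option (Fin N)) F)
  have hρ : ∀ G, ((ρ G : Θ.range) : E) = aeval v G := hΘr
  obtain ⟨G, H, hH, huH⟩ := hu
  have hinj : Function.Injective (algebraMap Θ.range E) := Subtype.val_injective
  let L : FractionRing Θ.range →+* E := IsFractionRing.lift (K := FractionRing Θ.range) hinj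
  have hL : ∀ x : Θ.range, L (algebraMap Θ.range (FractionRing Θ.range) x) = (x : E) :=
    fun x => IsFractionRing.lift_algebraMap hinj x
  let u' : FractionRing Θ.range := algebraMap Θ.range (FractionRing Θ.range) (ρ G) /
    algebraMap Θ.range (FractionRing Θ.range) (ρ H)
  have hu' : L u' = u := by
    change L (_ / _) = u
    rw [map_div₀, hL, hL, hρ, hρ, ← huH, mul_div_cancel_right₀ _ hH]
  obtain ⟨p, hp, hpu⟩ := hint
  have hint' : IsIntegral Θ.range u' := by
    refine ⟨p.map ρ, hp.map ρ, ?_⟩
    apply L.injective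
    rw [Polynomial.eval₂_map, Polynomial.hom_eval₂, hu', map_zero, ← hpu]
    congr 1
    ext x
    · simp only [RingHom.coe_comp, Function.comp_apply, hL, hρ]
      simp
    · simp only [RingHom.coe_comp, Function.comp_apply, hL, hρ]
      simp
  obtain ⟨y, hy⟩ := IsIntegrallyClosed.algebraMap_eq_of_integral hint'
  have hyu : (y : E) = u := by rw [← hL, hy, hu']
  obtain ⟨P, hP⟩ := y.2
  have hPu : Θ P = u := by
    rw [← hyu]
    exact hP
  obtain ⟨D, Q, hDQ⟩ := N2_elim (minor g s) (RingHom.ker Θ) (by
    rw [RingHom.mem_ker, map_sub, map_mul, hΘr, hΘn, map_one, inv_mul_cancel₀ hΔ, sub_self]) P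
  refine ⟨D, Q, ?_⟩
  rw [RingHom.mem_ker, map_sub, map_mul, map_pow, hΘr, hΘr, hPu, sub_eq_zero] at hDQ
  rw [mul_comm, hDQ]

end Pool.Agent.LibHP.CIM
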