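import Pool.Agent.LibCIM.N2
import Pool.Agent.LibHPF.Q12

set_option autoImplicit false
open MvPolynomial

namespace Pool.Agent.LibHP.CIM

/-! # Row N3 (MEDIUM): the powers of the coordinates are denominators

`I := {H | ∃ U, aeval v H * u = aeval v U}` is an ideal of `MvPolynomial (Fin N) F`; it contains the `g i` (`aeval v (g i) = 0`) and powers of all the `minor g s`, `s : ι → Fin N` (N2, or `aeval v (minor g s) = 0`). Suppose no power of `X l` is in `I`: there is a prime ideal `𝔭 ⊇ I` not containing `X l` (`Ideal.radical_eq_sInf`), even a maximal one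
after adjoining `1 / X l`: the algebra `MvPolynomial (Option (Fin N)) F ⧸ (I, X none * X (some l) - 1)` is nonzero, so it has a homomorphism to `AlgebraicClosure F` (finite type, `finite_of_finite_type_of_isJacobsonRing`, `IsAlgClosed.lift`; as in A8 or P5a), i.e. a point `y` over `AlgebraicClosure F` with `y l ≠ 0`, `aeval y (g i) = 0`, `aeval y (minor g s) = 0` for all `s`.
By `hs` the gradients at `y` are independent, so (`Q12_minor`, LibHPF/Q12.lean, reindexed: or a copy of it) some maximal minor is nonzero: contradiction. -/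

/-- independent gradients have a nonzero maximal minor -/
private theorem N3_minor {F : Type} [Field F] {N : ℕ} {ι : Type} [Fintype ι] [DecidableEq ι]
    (g : ι → MvPolynomial (Fin N) F) {K : Type} [Field K] [Algebra F K] (y : Fin N → K)
    (hli : LinearIndependent K (fun i => grd (g i) y)) :
    ∃ s : ι → Fin N, aeval y (minor g s) ≠ 0 := by
  let eι := Fintype.equivFin ι
  have hrows : LinearIndependent K (Matrix.of (fun (r : Fin (Fintype.card ι)) (c : Fin N) =>
      grd (g (eι.symm r)) y c)).row := hli.comp eι.symm eι.symm.injective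
  obtain ⟨s0, -, hdet⟩ := Q12_minor _ hrows
  refine ⟨fun a => s0 (eι a), fun h1 => hdet ?_⟩
  rw [minor, ← AlgHom.coe_toRingHom, RingHom.map_det] at h1
  rw [← Matrix.det_submatrix_equiv_self eι, ← h1]
  congr 1
  ext a b
  simp [grd]

theorem coord_pow {F : Type} [Field F] {N : ℕ} {ι : Type} [Fintype ι]
    (g : ι → MvPolynomial (Fin N) F) (hs : IsSmoothSys g) {E : Type} [Field E] [Algebra F E]
    (v : Fin N → E) (hv : IsGen (Ideal.span (Set.range g)) v) (u : E)
    (hu : ∃ G H : MvPolynomial (Fin N) F, aeval v H ≠ 0 ∧ u * aeval v H = aeval v G)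
    (hint : ((aeval v : MvPolynomial (Fin N) F →ₐ[F] E) : MvPolynomial (Fin N) F →+* E).IsIntegralElem u)
    (l : Fin N) :
    ∃ (m : ℕ) (U : MvPolynomial (Fin N) F), v l ^ m * u = aeval v U := by
  classical
  let I : Ideal (MvPolynomial (Fin N) F) :=
    { carrier := {H | ∃ U : MvPolynomial (Fin N) F, aeval v H * u = aeval v U}
      zero_mem' := ⟨0, by rw [map_zero, zero_mul]⟩
      add_mem' := by
        rintro a b ⟨U, hU⟩ ⟨V, hV⟩
        exact ⟨U + V, by rw [map_add, map_add, add_mul, hU, hV]⟩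
      smul_mem' := by
        rintro c a ⟨U, hU⟩
        exact ⟨c * U, by rw [smul_eq_mul, map_mul, map_mul, mul_assoc, hU]⟩ }
  have hI : ∀ H : MvPolynomial (Fin N) F, H ∈ I ↔
      ∃ U : MvPolynomial (Fin N) F, aeval v H * u = aeval v U := fun H => Iff.rfl
  have hg : ∀ i, g i ∈ I := by
    intro i
    refine ⟨0, ?_⟩
    have h1 : aeval v (g i) = 0 := (hv (g i)).2 (Ideal.subset_span ⟨i, rfl⟩)
    rw [h1, zero_mul, map_zero]
  have hm : ∀ s : ι → Fin N, ∃ m : ℕ, minor g s ^ m ∈ I := by
    intro s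
    by_cases h0 : aeval v (minor g s) = 0
    · exact ⟨1, 0, by rw [pow_one, h0, zero_mul, map_zero]⟩
    · obtain ⟨m, U, hU⟩ := chart_normal g s v hv h0 u hu hint
      exact ⟨m, U, by rw [map_pow]; exact hU⟩
  have hrad : X l ∈ I.radical := by
    rw [← vanishingIdeal_zeroLocus_eq_radical (K := AlgebraicClosure F) I, mem_vanishingIdeal_iff]
    intro y hy
    rw [mem_zeroLocus_iff] at hy
    rw [aeval_X]
    by_contra hyl
    have hy0 : y ≠ 0 := fun h => hyl (by rw [h]; rfl)
    obtain ⟨s, hs1⟩ := N3_minor g y (hs y hy0 fun i => hy _ (hg i))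
    obtain ⟨m, hm1⟩ := hm s
    have h2 := hy _ hm1
    rw [map_pow] at h2
    exact pow_ne_zero m hs1 h2
  obtain ⟨m, hm1⟩ := hrad
  obtain ⟨U, hU⟩ := (hI _).1 hm1
  refine ⟨m, U, ?_⟩
  rw [map_pow, aeval_X] at hU
  exact hU

end Pool.Agent.LibHP.CIM
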