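import Pool.Agent.LibCIM.A8

set_option autoImplicit false
open MvPolynomial

namespace Pool.Agent.LibHP.CIM

/-! # Row R1 (ONLY MATHLIB, MEDIUM): polar forms, and a frame adapted to a space of zeros

`pol q x y = q(x + y) - q(x) - q(y)` for a quadratic form `q`: prove `aeval_add_quad` and the symmetry on monomials of degree 2 (or: both sides are additive in `q`; `MvPolynomial.induction_on`-free: write `q = ∑ monomials`, a monomial of degree 2 is `C c * X i * X j`), or from Taylor's formula.
`exists_frame`: `W` = common zeros of the linear forms in `F^N`, of dimension `m + r` (the linear forms are independent: `hind`), it contains the independent vectors `w j`; complete `w` by `u` to a basis of `W` and this to a basis of `F^N`; `lam l` = the coordinate functional of `u l` (vanishing on `w` and on the rest). For `x` over `Ω`: write the same decomposition over `Ω`: e.g. the basis of `F^N` consisting of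
`u`, `w` and `t` other vectors `z s'`; `x = ∑ coordinates`; the coordinate functionals are given by rational row vectors; the matrix `ℓ_s (z s')` is invertible over `F`, so if all `ℓ_s (x) = 0` then the coordinates along the `z s'` vanish. -/

/-- The polar form of a quadratic form. -/
noncomputable def pol {F E : Type} [Field F] [CommRing E] [Algebra F E] {N : ℕ}
    (q : MvPolynomial (Fin N) F) (x y : Fin N → E) : E := ∑ l, x l * aeval y (pderiv l q)

section
variable {F E : Type} [Field F] [CommRing E] [Algebra F E] {N : ℕ} (q : MvPolynomial (Fin N) F)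

theorem pol_add_left (x x' y : Fin N → E) : pol q (x + x') y = pol q x y + pol q x' y := by
  unfold pol
  rw [← Finset.sum_add_distrib]
  refine Finset.sum_congr rfl fun l _ => ?_
  rw [Pi.add_apply, add_mul]

theorem pol_smul_left (c : E) (x y : Fin N → E) : pol q (c • x) y = c * pol q x y := by
  unfold pol
  rw [Finset.mul_sum]
  refine Finset.sum_congr rfl fun l _ => ?_
  rw [Pi.smul_apply, smul_eq_mul, mul_assoc]

omit [CommRing E] [Algebra F E] in
private theorem r1_ind {P : MvPolynomial (Fin N) F → Prop} (h0 : P 0)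
    (hadd : ∀ p p', P p → P p' → P (p + p')) (hX : ∀ c i j, P (C c * X i * X j))
    (hq : q.IsHomogeneous 2) : P q := by
  rw [← support_sum_monomial_coeff q]
  refine Finset.sum_induction _ P hadd h0 fun d hd => ?_
  have h1 : Finsupp.degree d = 2 := by
    by_contra h
    exact (mem_support_iff.1 hd) (hq.coeff_eq_zero h)
  have h2 : Multiset.card (Finsupp.toMultiset d) = 2 := by
    rw [Finsupp.card_toMultiset, ← h1]
    rfl
  obtain ⟨i, j, hij⟩ := Multiset.card_eq_two.1 h2
  have h3 : d = Finsupp.single i 1 + Finsupp.single j 1 := by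
    have h4 := congrArg Multiset.toFinsupp hij
    rw [Finsupp.toMultiset_toFinsupp] at h4
    rw [h4]
    change Multiset.toFinsupp ({i} + {j}) = _
    rw [map_add, Multiset.toFinsupp_singleton, Multiset.toFinsupp_singleton]
  have h5 : monomial d (coeff d q) = C (coeff d q) * X i * X j := by
    conv_lhs => rw [h3]
    rw [X, X, C_mul_monomial, monomial_mul, mul_one, mul_one, h3]
  rw [h5]
  exact hX _ i j

private theorem r1_pol (c : F) (i j : Fin N) (x y : Fin N → E) :
    pol (C c * X i * X j) x y = algebraMap F E c * (x i * y j + x j * y i) := by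
  classical
  unfold pol
  have h1 : ∀ l, x l * aeval y (pderiv l (C c * X i * X j : MvPolynomial (Fin N) F)) =
      (if l = i then algebraMap F E c * (x i * y j) else 0) +
        (if l = j then algebraMap F E c * (x j * y i) else 0) := by
    intro l
    rw [pderiv_mul, pderiv_C_mul, pderiv_X, pderiv_X]
    by_cases hi : l = i
    · by_cases hj : l = j
      · subst hi; subst hj
        simp
        ring
      · subst hi
        have hj' : ¬ j = l := fun h => hj h.symm
        simp [hj, hj']
        ring
    · by_cases hj : l = j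
      · subst hj
        have hi' : ¬ i = l := fun h => hi h.symm
        simp [hi, hi']
        ring
      · have hi' : ¬ i = l := fun h => hi h.symm
        have hj' : ¬ j = l := fun h => hj h.symm
        simp [hi, hi', hj, hj']
  rw [Finset.sum_congr rfl fun l _ => h1 l, Finset.sum_add_distrib, Finset.sum_ite_eq',
    Finset.sum_ite_eq', if_pos (Finset.mem_univ _), if_pos (Finset.mem_univ _)]
  ring

private theorem r1_pol_add (q q' : MvPolynomial (Fin N) F) (x y : Fin N → E) :
    pol (q + q') x y = pol q x y + pol q' x y := by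
  unfold pol
  rw [← Finset.sum_add_distrib]
  refine Finset.sum_congr rfl fun l _ => ?_
  rw [map_add, map_add, mul_add]

private theorem r1_pol_zero (x y : Fin N → E) : pol (0 : MvPolynomial (Fin N) F) x y = 0 := by
  unfold pol
  refine Finset.sum_eq_zero fun l _ => ?_
  rw [map_zero, map_zero, mul_zero]

theorem pol_comm (hq : q.IsHomogeneous 2) (x y : Fin N → E) : pol q x y = pol q y x := by
  refine r1_ind q (P := fun q => pol q x y = pol q y x) ?_ ?_ ?_ hq
  · rw [r1_pol_zero, r1_pol_zero]
  · intro p p' h h'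
    rw [r1_pol_add, r1_pol_add, h, h']
  · intro c i j
    rw [r1_pol, r1_pol]
    ring

theorem aeval_add_quad (hq : q.IsHomogeneous 2) (x y : Fin N → E) :
    aeval (x + y) q = aeval x q + pol q x y + aeval y q := by
  refine r1_ind q (P := fun q => aeval (x + y) q = aeval x q + pol q x y + aeval y q)
    ?_ ?_ ?_ hq
  · rw [r1_pol_zero, map_zero, map_zero, map_zero, add_zero, add_zero]
  · intro p p' h h'
    rw [r1_pol_add, map_add, map_add, map_add, h, h']
    ring
  · intro c i j
    rw [r1_pol]
    simp only [map_mul, aeval_C, aeval_X, Pi.add_apply]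
    ring

theorem aeval_smul_quad (hq : q.IsHomogeneous 2) (c : E) (x : Fin N → E) :
    aeval (c • x) q = c ^ 2 * aeval x q := by
  refine r1_ind q (P := fun q => aeval (c • x) q = c ^ 2 * aeval x q) ?_ ?_ ?_ hq
  · rw [map_zero, map_zero, mul_zero]
  · intro p p' h h'
    rw [map_add, map_add, h, h']
    ring
  · intro a i j
    simp only [map_mul, aeval_C, aeval_X, Pi.smul_apply, smul_eq_mul]
    ring

theorem pol_map {E' : Type} [CommRing E'] [Algebra F E'] (f : E →ₐ[F] E') (x y : Fin N → E) :
    f (pol q x y) = pol q (fun l => f (x l)) (fun l => f (y l)) := by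
  unfold pol
  rw [map_sum]
  refine Finset.sum_congr rfl fun l _ => ?_
  rw [map_mul, comp_aeval_apply]

end

/-- The value of the linear form with the coefficients `a`. -/
noncomputable def lin {F E : Type} [Field F] [CommRing E] [Algebra F E] {N : ℕ} (a : Fin N → F)
    (x : Fin N → E) : E := ∑ l, algebraMap F E (a l) * x l

private theorem r1_lin_add {F E : Type} [Field F] [CommRing E] [Algebra F E] {N : ℕ}
    (a : Fin N → F) (x y : Fin N → E) : lin a (x + y) = lin a x + lin a y := by
  unfold lin
  rw [← Finset.sum_add_distrib]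
  refine Finset.sum_congr rfl fun l _ => ?_
  rw [Pi.add_apply, mul_add]

/-- The coefficients of a linear form. -/
private noncomputable def r1_cf {F : Type} [Field F] {N : ℕ} (ℓ : MvPolynomial (Fin N) F) :
    Fin N → F := fun i => coeff (Finsupp.single i 1) ℓ

private theorem r1_form {F : Type} [Field F] {N : ℕ} (ℓ : MvPolynomial (Fin N) F)
    (h : ℓ.IsHomogeneous 1) : ℓ = ∑ i, C (r1_cf ℓ i) * X i := by
  classical
  ext d
  rw [coeff_sum]
  by_cases hd : Finsupp.degree d = 1
  · have h2 : Multiset.card (Finsupp.toMultiset d) = 1 := by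
      rw [Finsupp.card_toMultiset, ← hd]
      rfl
    obtain ⟨i, hi⟩ := Multiset.card_eq_one.1 h2
    have h3 : d = Finsupp.single i 1 := by
      have h4 := congrArg Multiset.toFinsupp hi
      rw [Finsupp.toMultiset_toFinsupp, Multiset.toFinsupp_singleton] at h4
      exact h4
    subst h3
    rw [Finset.sum_eq_single i]
    · rw [coeff_C_mul, coeff_X, if_pos rfl, mul_one]
      rfl
    · intro j _ hj
      rw [coeff_C_mul, coeff_X, if_neg, mul_zero]
      intro h5
      exact hj ((Finsupp.single_left_inj one_ne_zero).1 h5)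
    · intro h5
      exact absurd (Finset.mem_univ _) h5
  · rw [h.coeff_eq_zero hd, Finset.sum_eq_zero]
    intro j _
    rw [coeff_C_mul, coeff_X, if_neg, mul_zero]
    intro h5
    apply hd
    rw [← h5, Finsupp.degree_single]

private theorem r1_eval {F E : Type} [Field F] [CommRing E] [Algebra F E] {N : ℕ}
    (ℓ : MvPolynomial (Fin N) F) (h : ℓ.IsHomogeneous 1) (x : Fin N → E) :
    aeval x ℓ = lin (r1_cf ℓ) x := by
  conv_lhs => rw [r1_form ℓ h]
  unfold lin
  rw [map_sum]
  refine Finset.sum_congr rfl fun i _ => ?_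
  rw [map_mul, aeval_C, aeval_X]

private theorem r1_cf_ind {F : Type} [Field F] {N t : ℕ} (ℓ : Fin t → MvPolynomial (Fin N) F)
    (h : ∀ s, (ℓ s).IsHomogeneous 1) (hind : LinearIndependent F ℓ) :
    LinearIndependent F fun s => r1_cf (ℓ s) := by
  let g : (Fin N → F) →ₗ[F] MvPolynomial (Fin N) F :=
    { toFun := fun a => ∑ i, C (a i) * X i
      map_add' := fun a b => by
        rw [← Finset.sum_add_distrib]
        refine Finset.sum_congr rfl fun i _ => ?_
        rw [Pi.add_apply, C_add, add_mul]
      map_smul' := fun c a => by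
        rw [RingHom.id_apply, Finset.smul_sum]
        refine Finset.sum_congr rfl fun i _ => ?_
        rw [Pi.smul_apply, smul_eq_mul, C_mul, smul_eq_C_mul, mul_assoc] }
  refine LinearIndependent.of_comp g ?_
  have h1 : (g ∘ fun s => r1_cf (ℓ s)) = ℓ := funext fun s => (r1_form (ℓ s) (h s)).symm
  rw [h1]
  exact hind

/-- `lin a` over `F` as a linear map in `x`. -/
private noncomputable def r1_L {F : Type} [Field F] {N t : ℕ} (a : Fin t → Fin N → F) :
    (Fin N → F) →ₗ[F] (Fin t → F) := Matrix.mulVecLin (Matrix.of a)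

private theorem r1_L_apply {F : Type} [Field F] {N t : ℕ} (a : Fin t → Fin N → F)
    (x : Fin N → F) (s : Fin t) : r1_L a x s = lin (a s) x := rfl

private theorem r1_surj {F : Type} [Field F] {N t : ℕ} (a : Fin t → Fin N → F)
    (ha : LinearIndependent F a) : Function.Surjective (r1_L a) := by
  have h1 : LinearIndependent F (Matrix.of a).row := ha
  have h2 := h1.rank_matrix
  rw [← LinearMap.range_eq_top]
  apply Submodule.eq_top_of_finrank_eq
  rw [Module.finrank_fin_fun]
  rw [Fintype.card_fin] at h2
  exact h2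

private theorem r1_ext {F V : Type} [Field F] [AddCommGroup V] [Module F V]
    [FiniteDimensional F V] {m r : ℕ} (K : Submodule F V) (hK : Module.finrank F K = m + r)
    (w : Fin m → V) (hw : LinearIndependent F w) (hwK : ∀ j, w j ∈ K) :
    ∃ u : Fin r → V, (∀ l, u l ∈ K) ∧ LinearIndependent F (Sum.elim w u) := by
  have hw'i : LinearIndependent F (fun j => (⟨w j, hwK j⟩ : K)) :=
    LinearIndependent.of_comp K.subtype hw
  obtain ⟨U, hU⟩ := Submodule.exists_isCompl (Submodule.span F (Set.range fun j => (⟨w j, hwK j⟩ : K)))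
  have hUd : Module.finrank F U = r := by
    have h1 := Submodule.finrank_add_eq_of_isCompl hU
    rw [finrank_span_eq_card hw'i, Fintype.card_fin, hK] at h1
    omega
  have bU : Module.Basis (Fin r) F U := Module.finBasisOfFinrankEq F U hUd
  have hu'i : LinearIndependent F (fun l => (bU l : K)) :=
    bU.linearIndependent.map' U.subtype (Submodule.ker_subtype U)
  have huU : Submodule.span F (Set.range fun l => (bU l : K)) ≤ U := by
    rw [Submodule.span_le]
    rintro _ ⟨l, rfl⟩
    exact (bU l).2
  have hwu := hw'i.sum_type hu'i (hU.disjoint.mono_right huU)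
  have h1 := hwu.map' K.subtype (Submodule.ker_subtype _)
  refine ⟨fun l => ((bU l : K) : V), fun l => (bU l : K).2, ?_⟩
  have h2 : (K.subtype ∘ Sum.elim (fun j => (⟨w j, hwK j⟩ : K)) (fun l => (bU l : K))) =
      Sum.elim w fun l => ((bU l : K) : V) := by
    funext k
    rcases k with k | k <;> rfl
  rw [h2] at h1
  exact h1

private theorem r1_basis {F V : Type} [Field F] [AddCommGroup V] [Module F V]
    [FiniteDimensional F V] {m r t : ℕ} (hV : Module.finrank F V = t + m + r)
    (L : V →ₗ[F] (Fin t → F)) (hL : Function.Surjective L)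
    (w : Fin m → V) (hw : LinearIndependent F w) (hwL : ∀ j, L (w j) = 0) :
    ∃ (u : Fin r → V) (z : Fin t → V) (b : Module.Basis ((Fin m ⊕ Fin r) ⊕ Fin t) F V),
      (∀ l, L (u l) = 0) ∧ (∀ s, L (z s) = Pi.single s 1) ∧ ⇑b = Sum.elim (Sum.elim w u) z := by
  have hker : Module.finrank F (LinearMap.ker L) = m + r := by
    have h1 := L.finrank_range_add_finrank_ker
    rw [LinearMap.range_eq_top.2 hL, finrank_top, Module.finrank_fin_fun, hV] at h1
    omega
  obtain ⟨u, hu, hwu⟩ := r1_ext (LinearMap.ker L) hker w hw fun j => LinearMap.mem_ker.2 (hwL j)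
  obtain ⟨z, hz⟩ : ∃ z : Fin t → V, ∀ s, L (z s) = Pi.single s 1 :=
    ⟨fun s => (hL (Pi.single s 1)).choose, fun s => (hL (Pi.single s 1)).choose_spec⟩
  have hzc : ∀ (c : Fin t → F), L (∑ s, c s • z s) = c := by
    intro c
    rw [map_sum]
    funext s
    rw [Finset.sum_apply, Finset.sum_eq_single s]
    · rw [map_smul, hz, Pi.smul_apply, Pi.single_eq_same, smul_eq_mul, mul_one]
    · intro s' _ hs'
      rw [map_smul, hz, Pi.smul_apply, Pi.single_eq_of_ne hs'.symm, smul_zero]
    · intro h
      exact absurd (Finset.mem_univ _) h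
  have hLi : LinearIndependent F (Sum.elim (Sum.elim w u) z) := by
    rw [Fintype.linearIndependent_iff] at hwu ⊢
    intro c hc
    rw [Fintype.sum_sum_type] at hc
    have h0 : ∀ k : Fin m ⊕ Fin r, L (c (Sum.inl k) • Sum.elim w u k) = 0 := by
      rintro (k | k)
      · rw [map_smul]
        change _ • L (w k) = 0
        rw [hwL, smul_zero]
      · rw [map_smul]
        change _ • L (u k) = 0
        rw [LinearMap.mem_ker.1 (hu k), smul_zero]
    have h1 := congrArg L hc
    rw [map_add, map_sum, map_zero] at h1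
    rw [Finset.sum_eq_zero, zero_add] at h1
    swap
    · intro k _
      exact h0 k
    have h2 : (fun s => c (Sum.inr s)) = 0 := by
      rw [← h1]
      exact (hzc fun s => c (Sum.inr s)).symm
    have h3 : ∀ s, c (Sum.inr s) = 0 := fun s => congrFun h2 s
    have h4 : ∑ k, c (Sum.inl k) • Sum.elim w u k = 0 := by
      have h5 : ∑ s, c (Sum.inr s) • Sum.elim (Sum.elim w u) z (Sum.inr s) = 0 :=
        Finset.sum_eq_zero fun s _ => by rw [h3, zero_smul]
      rw [h5, add_zero] at hc
      exact hc
    have h6 := hwu (fun k => c (Sum.inl k)) h4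
    rintro (k | k)
    · exact h6 k
    · exact h3 k
  have hcard : Fintype.card ((Fin m ⊕ Fin r) ⊕ Fin t) = Module.finrank F V := by
    rw [Fintype.card_sum, Fintype.card_sum, Fintype.card_fin, Fintype.card_fin, Fintype.card_fin,
      hV]
    omega
  rcases isEmpty_or_nonempty ((Fin m ⊕ Fin r) ⊕ Fin t) with hemp | hne
  · have h0 : Module.finrank F V = 0 := by rw [← hcard]; exact Fintype.card_eq_zero
    have hs : Subsingleton V := Module.finrank_zero_iff.1 h0
    refine ⟨u, z, Module.Basis.empty V, fun l => LinearMap.mem_ker.1 (hu l), hz, ?_⟩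
    funext k
    exact hemp.elim k
  · refine ⟨u, z, basisOfLinearIndependentOfCardEqFinrank hLi hcard,
      fun l => LinearMap.mem_ker.1 (hu l), hz, ?_⟩
    exact coe_basisOfLinearIndependentOfCardEqFinrank hLi hcard

private theorem r1_expand {F Ω κ : Type} [Field F] [CommRing Ω] [Algebra F Ω] [Fintype κ] {N : ℕ}
    (b : Module.Basis κ F (Fin N → F)) (x : Fin N → Ω) (i : Fin N) :
    x i = ∑ k, lin (fun j => b.repr (Pi.single j 1) k) x * algebraMap F Ω (b k i) := by
  classical
  have h1 : ∀ j, ∑ k, b.repr (Pi.single j 1) k * b k i = if i = j then 1 else 0 := by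
    intro j
    have h2 := congrFun (b.sum_repr (Pi.single j 1)) i
    rw [Finset.sum_apply] at h2
    simp only [Pi.smul_apply, smul_eq_mul] at h2
    rw [h2, Pi.single_apply]
  unfold lin
  have h3 : ∑ k, (∑ j, algebraMap F Ω (b.repr (Pi.single j 1) k) * x j) * algebraMap F Ω (b k i) =
      ∑ j, (∑ k, algebraMap F Ω (b.repr (Pi.single j 1) k * b k i)) * x j := by
    simp only [Finset.sum_mul]
    rw [Finset.sum_comm]
    refine Finset.sum_congr rfl fun j _ => Finset.sum_congr rfl fun k _ => ?_
    rw [map_mul]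
    ring
  rw [h3]
  have h4 : ∀ j, (∑ k, algebraMap F Ω (b.repr (Pi.single j 1) k * b k i)) * x j =
      if i = j then x j else 0 := by
    intro j
    rw [← map_sum, h1]
    split_ifs <;> simp
  rw [Finset.sum_congr rfl fun j _ => h4 j, Finset.sum_ite_eq, if_pos (Finset.mem_univ _)]

private theorem r1_coord {F κ : Type} [Field F] {N : ℕ}
    (b : Module.Basis κ F (Fin N → F)) (x : Fin N → F) (k : κ) :
    lin (fun j => b.repr (Pi.single j 1) k) x = b.repr x k := by
  classical
  have h1 : x = ∑ j, x j • (Pi.single j (1 : F) : Fin N → F) := by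
    funext i
    rw [Finset.sum_apply, Finset.sum_eq_single i]
    · rw [Pi.smul_apply, Pi.single_eq_same, smul_eq_mul, mul_one]
    · intro j _ hj
      rw [Pi.smul_apply, Pi.single_eq_of_ne hj.symm, smul_zero]
    · intro h
      exact absurd (Finset.mem_univ _) h
  have h2 : b.repr x k = ∑ j, x j * b.repr (Pi.single j 1) k := by
    conv_lhs => rw [h1]
    rw [map_sum, Finsupp.finsetSum_apply]
    refine Finset.sum_congr rfl fun j _ => ?_
    rw [map_smul, Finsupp.smul_apply, smul_eq_mul]
  rw [h2]
  unfold lin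
  refine Finset.sum_congr rfl fun j _ => ?_
  rw [mul_comm]
  rfl

private theorem r1_lin_eval {F Ω κ : Type} [Field F] [CommRing Ω] [Algebra F Ω] [Fintype κ] {N : ℕ}
    (b : Module.Basis κ F (Fin N → F)) (a : Fin N → F) (x : Fin N → Ω) :
    lin a x = ∑ k, lin (fun j => b.repr (Pi.single j 1) k) x * algebraMap F Ω (lin a (b k)) := by
  have h1 : lin a x = ∑ i, algebraMap F Ω (a i) *
      ∑ k, lin (fun j => b.repr (Pi.single j 1) k) x * algebraMap F Ω (b k i) :=
    Finset.sum_congr rfl fun i _ => by rw [← r1_expand b x i]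
  rw [h1]
  simp only [Finset.mul_sum]
  rw [Finset.sum_comm]
  refine Finset.sum_congr rfl fun k _ => ?_
  have h2 : algebraMap F Ω (lin a (b k)) = ∑ i, algebraMap F Ω (a i) * algebraMap F Ω (b k i) := by
    unfold lin
    rw [map_sum]
    refine Finset.sum_congr rfl fun i _ => ?_
    rw [map_mul]
    rfl
  rw [h2, Finset.mul_sum]
  refine Finset.sum_congr rfl fun i _ => ?_
  ring

theorem exists_frame {F : Type} [Field F] {N t m r : ℕ} (hN : t + m + r = N)
    (ℓ : Fin t → MvPolynomial (Fin N) F) (hℓ : ∀ s, (ℓ s).IsHomogeneous 1)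
    (hind : LinearIndependent F ℓ) (w : Fin m → Fin N → F) (hw : LinearIndependent F w)
    (hz : ∀ s j, aeval (w j) (ℓ s) = 0) :
    ∃ (u : Fin r → Fin N → F) (lam : Fin r → Fin N → F), (∀ l s, aeval (u l) (ℓ s) = 0) ∧
      (∀ l l', lin (lam l) (u l') = if l = l' then 1 else 0) ∧ (∀ l j, lin (lam l) (w j) = 0) ∧
      ∀ (Ω : Type) [Field Ω] [Algebra F Ω] (x : Fin N → Ω), (∀ s, aeval x (ℓ s) = 0) →
        ∃ c : Fin m → Ω, ∀ i, x i = ∑ l, lin (lam l) x * algebraMap F Ω (u l i) +
          ∑ j, c j * algebraMap F Ω (w j i) := by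
  classical
  have hai := r1_cf_ind ℓ hℓ hind
  have hLa : ∀ (x : Fin N → F) s, r1_L (fun s => r1_cf (ℓ s)) x s = lin (r1_cf (ℓ s)) x :=
    fun x s => rfl
  have hwL : ∀ j, r1_L (fun s => r1_cf (ℓ s)) (w j) = 0 := by
    intro j
    funext s
    rw [hLa, ← r1_eval (ℓ s) (hℓ s) (w j), hz]
    rfl
  obtain ⟨u, z, b, hu, hzz, hb⟩ := r1_basis (r := r) (by rw [Module.finrank_fin_fun, hN])
    (r1_L fun s => r1_cf (ℓ s)) (r1_surj _ hai) w hw hwL
  have hb1 : ∀ j, b (Sum.inl (Sum.inl j)) = w j := fun j => by rw [hb]; rfl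
  have hb2 : ∀ l, b (Sum.inl (Sum.inr l)) = u l := fun l => by rw [hb]; rfl
  have hb3 : ∀ s, b (Sum.inr s) = z s := fun s => by rw [hb]; rfl
  refine ⟨u, fun l j => b.repr (Pi.single j 1) (Sum.inl (Sum.inr l)), ?_, ?_, ?_, ?_⟩
  · intro l s
    rw [r1_eval (ℓ s) (hℓ s), ← hLa, hu]
    rfl
  · intro l l'
    rw [r1_coord, ← hb2, Module.Basis.repr_self, Finsupp.single_apply]
    by_cases h : l = l'
    · subst h; simp
    · rw [if_neg h, if_neg]
      intro h'
      exact h (Sum.inr_injective (Sum.inl_injective h')).symm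
  · intro l j
    rw [r1_coord, ← hb1, Module.Basis.repr_self, Finsupp.single_apply, if_neg]
    intro h'
    exact Sum.inl_ne_inr (Sum.inl_injective h')
  · intro Ω _ _ x hx
    have h1 : ∀ s, lin (fun j => b.repr (Pi.single j 1) (Sum.inr s)) x = 0 := by
      intro s
      have h2 := r1_lin_eval b (r1_cf (ℓ s)) x
      rw [← r1_eval (ℓ s) (hℓ s), hx, Fintype.sum_sum_type, Fintype.sum_sum_type] at h2
      have e1 : ∀ j : Fin m, lin (fun i => b.repr (Pi.single i 1) (Sum.inl (Sum.inl j))) x *
          algebraMap F Ω (lin (r1_cf (ℓ s)) (b (Sum.inl (Sum.inl j)))) = 0 := by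
        intro j
        rw [hb1, ← hLa, hwL, Pi.zero_apply, map_zero, mul_zero]
      have e2 : ∀ l : Fin r, lin (fun i => b.repr (Pi.single i 1) (Sum.inl (Sum.inr l))) x *
          algebraMap F Ω (lin (r1_cf (ℓ s)) (b (Sum.inl (Sum.inr l)))) = 0 := by
        intro l
        rw [hb2, ← hLa, hu, Pi.zero_apply, map_zero, mul_zero]
      rw [Finset.sum_congr rfl fun j _ => e1 j, Finset.sum_congr rfl fun l _ => e2 l,
        Finset.sum_const_zero, Finset.sum_const_zero, zero_add, zero_add,
        Finset.sum_eq_single s] at h2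
      · rw [hb3, ← hLa, hzz, Pi.single_eq_same, map_one, mul_one] at h2
        exact h2.symm
      · intro s' _ hs'
        rw [hb3, ← hLa, hzz, Pi.single_eq_of_ne hs'.symm, map_zero, mul_zero]
      · intro h
        exact absurd (Finset.mem_univ _) h
    refine ⟨fun j => lin (fun i => b.repr (Pi.single i 1) (Sum.inl (Sum.inl j))) x, fun i => ?_⟩
    rw [r1_expand b x i, Fintype.sum_sum_type, Fintype.sum_sum_type]
    have e3 : ∀ s : Fin t, lin (fun j => b.repr (Pi.single j 1) (Sum.inr s)) x *
        algebraMap F Ω (b (Sum.inr s) i) = 0 := by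
      intro s
      rw [h1, zero_mul]
    rw [Finset.sum_congr rfl fun s _ => e3 s, Finset.sum_const_zero, add_zero, add_comm]
    congr 1
    · refine Finset.sum_congr rfl fun l _ => ?_
      rw [hb2]
    · refine Finset.sum_congr rfl fun j _ => ?_
      rw [hb1]

end Pool.Agent.LibHP.CIM
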