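import Pool.Agent.LibCIM.R1
import Pool.Agent.LibHPF.Q2

set_option autoImplicit false
open MvPolynomial

namespace Pool.Agent.LibHP.CIM

/-! # Row R2 (MEDIUM/STRONG): the determinant of the parametrisation does not vanish

`Ω := FractionRing (MvPolynomial (Fin r) F)`, `y := ∑ X l • u l`. If `det = 0` there is `c ≠ 0` in `Ω^m` with `∑ j, A i j * c j = 0` for all `i` (`Matrix.exists_mulVec_eq_zero_iff`); normalise `c j0 = 1`. `ω := ∑ j, c j • w j ≠ 0` is a common zero over `Ω` of the system (`hz`: the values `q i (w j) = 0` and `pol (q i) (w j) (w j') = 0`), and `pol (q i) y ω = 0`, `pol (q i) (w j) ω = 0`.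
Let `δ l` be the derivation `∂/∂X l` of `Ω` over `F` (extend `pderiv l` to the fraction field; see LibHPF/Q2.lean, `exists_derivation_of_rel`, or `Derivation.liftOfSurjective`-free: Mathlib's `Derivation` on localizations). `0 = δ l (pol (q i) y ω) = pol (q i) (u l) ω + ∑ j ≠ j0, δ l (c j) * A i j`. So the vectors `b l = (pol (q i) (u l) ω) i` are in the span `S0` of the columns `A · j`, `j ≠ j0`,
of dimension `≤ m - 1`. But (smoothness at `ω`, `hs.ext`, A8) the gradients of the `ℓ s` and of the `q i` at `ω` are independent, so there is `x : Fin N → Ω` with `ℓ s (x) = 0` and `(pol (q i) x ω) i` any given vector of `Ω^m` (`x` paired with the gradient of `q i` at `ω` is `pol (q i) x ω`); by the frame property `x = ∑ lam l (x) u l + ∑ c' j w j` and `pol (q i) x ω = ∑ l, lam l (x) * b l i`: in `S0`.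
Contradiction (for `m = 0` the determinant is `1`). -/

private theorem r2_lin {F : Type} [Field F] {N : ℕ}
    (ℓ : MvPolynomial (Fin N) F) (hℓ : ℓ.IsHomogeneous 1) :
    ∃ a : Fin N → F, (∀ l, pderiv l ℓ = C (a l)) ∧ ∀ (E : Type) [CommRing E] [Algebra F E]
      (x : Fin N → E), aeval x ℓ = ∑ l, x l * algebraMap F E (a l) := by
  have h1 : ∀ l, ∃ a : F, pderiv l ℓ = C a := by
    intro l
    have h := hℓ.pderiv (i := l)
    have h0 : (pderiv l ℓ).totalDegree = 0 := by
      have := h.totalDegree_le
      omega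
    exact ⟨_, totalDegree_eq_zero_iff_eq_C.1 h0⟩
  choose a ha using h1
  refine ⟨a, ha, ?_⟩
  intro E _ _ x
  have h2 := hℓ.sum_X_mul_pderiv
  rw [one_smul] at h2
  conv_lhs => rw [← h2]
  rw [map_sum]
  refine Finset.sum_congr rfl fun l _ => ?_
  rw [map_mul, aeval_X, ha, aeval_C]

private theorem r2_pol_self {F E : Type} [Field F] [CommRing E] [Algebra F E] {N : ℕ}
    (q : MvPolynomial (Fin N) F) (hq : q.IsHomogeneous 2) (x : Fin N → E) :
    pol q x x = 2 * aeval x q := by
  have h2 := hq.sum_X_mul_pderiv
  have h3 := congrArg (aeval x) h2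
  rw [map_sum] at h3
  unfold pol
  have h4 : (∑ l, aeval x (X l * pderiv l q)) = ∑ l, x l * aeval x (pderiv l q) :=
    Finset.sum_congr rfl fun l _ => by rw [map_mul, aeval_X]
  rw [← h4, h3, map_nsmul]
  simp

private theorem r2_pol_sum_left {F E : Type} [Field F] [CommRing E] [Algebra F E] {N : ℕ}
    (q : MvPolynomial (Fin N) F) {ι : Type} (s : Finset ι) (c : ι → E) (x : ι → Fin N → E)
    (y : Fin N → E) : pol q (∑ j ∈ s, c j • x j) y = ∑ j ∈ s, c j * pol q (x j) y := by
  classical
  induction s using Finset.induction_on with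
  | empty => simp [pol]
  | insert a s ha ih => rw [Finset.sum_insert ha, Finset.sum_insert ha, pol_add_left, pol_smul_left, ih]

private theorem r2_functional {K : Type} [Field K] {ι : Type} {N : ℕ} (v : ι → Fin N → K)
    (hv : LinearIndependent K v) (b : ι → K) :
    ∃ x : Fin N → K, ∀ i, ∑ l, x l * v i l = b i := by
  obtain ⟨f, hf⟩ := LinearMap.exists_extend (Finsupp.linearCombination K b ∘ₗ hv.repr)
  have h1 : ∀ i, f (v i) = b i := by
    intro i
    have := congrArg (fun g => g ⟨v i, Submodule.subset_span ⟨i, rfl⟩⟩) hf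
    simp only [LinearMap.comp_apply, Submodule.subtype_apply] at this
    rw [this]
    have h2 : hv.repr ⟨v i, Submodule.subset_span ⟨i, rfl⟩⟩ = Finsupp.single i 1 :=
      hv.repr_eq_single i _ rfl
    rw [h2]
    simp
  refine ⟨fun l => f (fun l' => if l = l' then 1 else 0), fun i => ?_⟩
  rw [← h1 i, LinearMap.pi_apply_eq_sum_univ f (v i)]
  refine Finset.sum_congr rfl fun l _ => ?_
  rw [smul_eq_mul, mul_comm]

theorem det_ne_zero_par {F : Type} [Field F] [CharZero F] {N t m r : ℕ}
    (ℓ : Fin t → MvPolynomial (Fin N) F) (hℓ : ∀ s, (ℓ s).IsHomogeneous 1)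
    (q : Fin m → MvPolynomial (Fin N) F) (hq : ∀ i, (q i).IsHomogeneous 2)
    (hs : IsSmoothSys (Sum.elim ℓ q)) (w : Fin m → Fin N → F) (hw : LinearIndependent F w)
    (hz1 : ∀ s j, aeval (w j) (ℓ s) = 0) (hz2 : ∀ i j, aeval (w j) (q i) = 0)
    (hz3 : ∀ i j j', pol (q i) (w j) (w j') = 0) (u : Fin r → Fin N → F) (lam : Fin r → Fin N → F)
    (hfr : ∀ (Ω : Type) [Field Ω] [Algebra F Ω] (x : Fin N → Ω), (∀ s, aeval x (ℓ s) = 0) →
        ∃ c : Fin m → Ω, ∀ i, x i = ∑ l, lin (lam l) x * algebraMap F Ω (u l i) +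
          ∑ j, c j * algebraMap F Ω (w j i)) :
    (Matrix.of fun i j : Fin m => ∑ l : Fin r, X l * C (pol (q i) (u l) (w j)) :
      Matrix (Fin m) (Fin m) (MvPolynomial (Fin r) F)).det ≠ 0 := by
  classical
  intro hdet
  -- the field of rational functions
  let Ω := FractionRing (MvPolynomial (Fin r) F)
  let φ : MvPolynomial (Fin r) F →ₐ[F] Ω := IsScalarTower.toAlgHom F (MvPolynomial (Fin r) F) Ω
  have hφ : ∀ G, φ G = algebraMap (MvPolynomial (Fin r) F) Ω G := fun G => rfl
  have hφi : Function.Injective φ := IsFractionRing.injective (MvPolynomial (Fin r) F) Ω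
  have hφC : ∀ a : F, φ (C a) = algebraMap F Ω a := fun a => by
    have := φ.commutes a
    rwa [algebraMap_eq] at this
  set T : Fin r → Ω := fun l => φ (X l) with hT
  let U : Fin r → Fin N → Ω := fun l i => algebraMap F Ω (u l i)
  let W : Fin m → Fin N → Ω := fun j i => algebraMap F Ω (w j i)
  have hUW : ∀ i l j, pol (q i) (U l) (W j) = algebraMap F Ω (pol (q i) (u l) (w j)) := fun i l j =>
    (pol_map (q i) (Algebra.ofId F Ω) (u l) (w j)).symm
  have hWW : ∀ i j j', pol (q i) (W j) (W j') = 0 := fun i j j' => by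
    have := (pol_map (q i) (Algebra.ofId F Ω) (w j) (w j')).symm
    rw [hz3, map_zero] at this
    exact this
  let A : Matrix (Fin m) (Fin m) Ω := Matrix.of fun i j => ∑ l, T l * algebraMap F Ω (pol (q i) (u l) (w j))
  have hA0 : A.det = 0 := by
    have h1 := congrArg φ hdet
    rw [map_zero] at h1
    rw [← h1]
    have h2 := (φ.toRingHom.map_det (Matrix.of fun i j : Fin m => ∑ l : Fin r, X l * C (pol (q i) (u l) (w j)) :
      Matrix (Fin m) (Fin m) (MvPolynomial (Fin r) F)))
    refine Eq.trans ?_ h2.symm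
    congr 1
    ext i j
    simp only [A, Matrix.of_apply, RingHom.mapMatrix_apply, Matrix.map_apply, AlgHom.toRingHom_eq_coe,
      RingHom.coe_coe, map_sum, map_mul, hφC, hT]
  obtain ⟨c, hc0, hc⟩ := Matrix.exists_mulVec_eq_zero_iff.2 hA0
  have hAc : ∀ i, ∑ j, A i j * c j = 0 := fun i => by
    have := congrFun hc i
    simpa [Matrix.mulVec, dotProduct] using this
  -- the point
  let ω : Fin N → Ω := ∑ j, c j • W j
  have hω0 : ω ≠ 0 := by
    intro h0
    apply hc0
    funext j
    obtain ⟨x, hx⟩ := r2_functional w hw (fun j' => if j' = j then 1 else 0)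
    have h3 : ∑ i, algebraMap F Ω (x i) * ω i = c j := by
      have h4 : ∀ i, ω i = ∑ j', c j' * W j' i := fun i => by
        simp [ω, Finset.sum_apply]
      calc ∑ i, algebraMap F Ω (x i) * ω i = ∑ i, ∑ j', c j' * (algebraMap F Ω (x i) * algebraMap F Ω (w j' i)) := by
            refine Finset.sum_congr rfl fun i _ => ?_
            rw [h4, Finset.mul_sum]
            refine Finset.sum_congr rfl fun j' _ => ?_
            simp only [W]
            ring
        _ = ∑ j', c j' * algebraMap F Ω (∑ i, x i * w j' i) := by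
            rw [Finset.sum_comm]
            refine Finset.sum_congr rfl fun j' _ => ?_
            rw [← Finset.mul_sum, map_sum]
            simp only [map_mul]
        _ = c j := by
            simp only [hx]
            rw [Finset.sum_eq_single j]
            · simp
            · intro b _ hb
              rw [if_neg hb]
              simp
            · simp
    rw [h0] at h3
    simpa using h3.symm
  have hℓω : ∀ s, aeval ω (ℓ s) = 0 := by
    intro s
    obtain ⟨a, -, ha⟩ := r2_lin (ℓ s) (hℓ s)
    have h5 : ∀ j, ∑ l, W j l * algebraMap F Ω (a l) = 0 := fun j => by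
      have := hz1 s j
      rw [ha F] at this
      have := congrArg (algebraMap F Ω) this
      rw [map_sum, map_zero] at this
      simpa [W, map_mul] using this
    rw [ha Ω]
    calc ∑ l, ω l * algebraMap F Ω (a l) = ∑ l, ∑ j, c j * (W j l * algebraMap F Ω (a l)) := by
          refine Finset.sum_congr rfl fun l _ => ?_
          have h16 : ω l = ∑ j, c j * W j l := by
            simp [ω, Finset.sum_apply]
          rw [h16, Finset.sum_mul]
          refine Finset.sum_congr rfl fun j _ => ?_
          ring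
      _ = 0 := by
          rw [Finset.sum_comm]
          refine Finset.sum_eq_zero fun j _ => ?_
          rw [← Finset.mul_sum, h5, mul_zero]
  have hWω : ∀ i j, pol (q i) (W j) ω = 0 := by
    intro i j
    rw [pol_comm (q i) (hq i)]
    rw [r2_pol_sum_left]
    refine Finset.sum_eq_zero fun j' _ => ?_
    rw [hWW, mul_zero]
  have hqω : ∀ i, aeval ω (q i) = 0 := by
    intro i
    have h6 := r2_pol_self (q i) (hq i) ω
    have h7 : pol (q i) ω ω = 0 := by
      conv_lhs => rw [show ω = ∑ j, c j • W j from rfl]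
      rw [r2_pol_sum_left]
      exact Finset.sum_eq_zero fun j _ => by rw [hWω, mul_zero]
    rw [h7] at h6
    have : CharZero Ω := charZero_of_injective_algebraMap (algebraMap F Ω).injective
    rcases mul_eq_zero.1 h6.symm with h8 | h8
    · exact absurd h8 two_ne_zero
    · exact h8
  have hgr := hs.ext ω hω0 (by
    rintro (s | i)
    · exact hℓω s
    · exact hqω i)
  -- the derivations
  have hder : ∀ l : Fin r, ∃ δ : Derivation F Ω Ω, ∀ l', δ (T l') = if l' = l then 1 else 0 := by
    intro l
    refine exists_derivation_of_rel F Ω (Fin r) T (fun l' => if l' = l then 1 else 0) fun G hG => ?_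
    have h9 : (aeval T : MvPolynomial (Fin r) F →ₐ[F] Ω) = φ := by
      ext l'
      simp [hT]
    rw [h9] at hG
    have h10 : G = 0 := hφi (by rw [hG, map_zero])
    rw [h10]
    simp
  have hb : ∀ l, ∃ d : Fin m → Ω, ∀ i, pol (q i) (U l) ω = ∑ j, A i j * d j := by
    intro l
    obtain ⟨δ, hδ⟩ := hder l
    refine ⟨fun j => - δ (c j), fun i => ?_⟩
    have h11 := congrArg δ (hAc i)
    rw [map_zero, map_sum] at h11
    have h12 : ∀ j, δ (A i j) = pol (q i) (U l) (W j) := by
      intro j
      rw [hUW]
      simp only [A, Matrix.of_apply, map_sum, Derivation.leibniz, Derivation.map_algebraMap, hδ, smul_eq_mul]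
      rw [Finset.sum_eq_single l]
      · simp
      · intro b _ hb
        rw [if_neg hb, mul_zero, zero_add, mul_zero]
      · simp
    have h13 : pol (q i) (U l) ω = ∑ j, c j * pol (q i) (U l) (W j) := by
      rw [pol_comm (q i) (hq i), r2_pol_sum_left]
      exact Finset.sum_congr rfl fun j _ => by rw [pol_comm (q i) (hq i) (W j)]
    rw [h13]
    have h14 : ∀ j, δ (A i j * c j) = c j * pol (q i) (U l) (W j) - A i j * (- δ (c j)) := by
      intro j
      rw [Derivation.leibniz, h12, smul_eq_mul, smul_eq_mul]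
      ring
    simp only [h14, Finset.sum_sub_distrib] at h11
    exact sub_eq_zero.1 h11
  choose d hd using hb
  -- surjectivity
  have hsurj : Function.Surjective A.mulVec := by
    intro b
    obtain ⟨x, hx⟩ := r2_functional _ hgr (Sum.elim (fun _ => 0) b)
    have hx1 : ∀ s, aeval x (ℓ s) = 0 := by
      intro s
      obtain ⟨a, ha0, ha⟩ := r2_lin (ℓ s) (hℓ s)
      rw [ha Ω]
      have := hx (Sum.inl s)
      simpa [grd, ha0] using this
    have hx2 : ∀ i, pol (q i) x ω = b i := by
      intro i
      have := hx (Sum.inr i)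
      simpa [grd, pol] using this
    obtain ⟨c', hc'⟩ := hfr Ω x hx1
    have hx3 : x = ∑ l, lin (lam l) x • U l + ∑ j, c' j • W j := by
      funext i
      rw [hc' i]
      simp [U, W, Finset.sum_apply]
    refine ⟨fun j => ∑ l, lin (lam l) x * d l j, ?_⟩
    funext i
    rw [← hx2 i]
    conv_rhs => rw [hx3]
    rw [pol_add_left, r2_pol_sum_left, r2_pol_sum_left]
    simp only [hWω, mul_zero, Finset.sum_const_zero, add_zero, hd]
    simp only [Matrix.mulVec, dotProduct]
    have h15 : ∀ j, A i j * ∑ l, lin (lam l) x * d l j = ∑ l, lin (lam l) x * (A i j * d l j) := by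
      intro j
      rw [Finset.mul_sum]
      exact Finset.sum_congr rfl fun l _ => by ring
    simp only [h15]
    rw [Finset.sum_comm]
    exact Finset.sum_congr rfl fun l _ => by rw [Finset.mul_sum]
  have hunit := (Matrix.mulVec_surjective_iff_isUnit.1 hsurj)
  rw [Matrix.isUnit_iff_isUnit_det, hA0] at hunit
  exact not_isUnit_zero hunit

end Pool.Agent.LibHP.CIM
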