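import Pool.Agent.LibCIM.R2

set_option autoImplicit false
open MvPolynomial

namespace Pool.Agent.LibHP.CIM

/-! # Row R3 (MEDIUM/STRONG): the parametrisation

`u`, `lam` from `exists_frame` (the `ℓ s` are independent: if `m = 0`, `r` or not, use `hJ`... : at the common zero `w j` (or, for `m = 0`, at `u`-free: independence of the linear forms is the hypothesis `hind`)). `A` = the matrix of R2, `D = det A ≠ 0`. `R0 := Localization.Away D`, `y := ∑ X l • u l`, `c := - A⁻¹ (q i (y))` over `R0` (adjugate divided by `D`), `v0 := y + ∑ c j • w j` with coordinates in `R0`;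
`v` = image in `RF F r`. `ℓ s (v) = 0`, `q i (v) = q i (y) + ∑ j, c j A i j + 0 = 0` (`aeval_add_quad`), `lam l (v) = X l`. `GenOver`: `X l = lin (lam l) v`. GENERIC: `v` is a zero of the ideal `J`. Let `E := FractionRing (MvPolynomial ⧸ J)` with the generic point `x` (`J` prime), `y' l := lin (lam l) x`, `D' :=` the polynomial `D (lin (lam l) X)`: `aeval v D' = D ≠ 0`, so `D' ∉ J`, so `D (y') ≠ 0` in `E`.
So there is `ψ : R0 →ₐ[F] E`, `X l ↦ y' l` (`IsLocalization.liftAlgHom`), and `ψ (v0 i) = x i`: by the frame property `x = ∑ y' l u l + ∑ c' j w j`, and `0 = q i (x)` gives `A(y') c' = - q i (∑ y' l u l)`, whose unique solution is the image of `c`. So `aeval v G = 0` gives `aeval v0 G = 0` (`R0 → RF F r` injective), `aeval x G = 0`, `G ∈ J`. -/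

private theorem r3_lin {F : Type} [Field F] {N : ℕ}
    (ℓ : MvPolynomial (Fin N) F) (hℓ : ℓ.IsHomogeneous 1) :
    ∃ a : Fin N → F, ∀ (E : Type) [CommRing E] [Algebra F E]
      (x : Fin N → E), aeval x ℓ = ∑ l, x l * algebraMap F E (a l) := by
  have h1 : ∀ l, ∃ a : F, pderiv l ℓ = C a := by
    intro l
    have h := hℓ.pderiv (i := l)
    have h0 : (pderiv l ℓ).totalDegree = 0 := by
      have := h.totalDegree_le
      omega
    exact ⟨_, totalDegree_eq_zero_iff_eq_C.1 h0⟩
  choose a ha using h1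
  refine ⟨a, ?_⟩
  intro E _ _ x
  have h2 := hℓ.sum_X_mul_pderiv
  rw [one_smul] at h2
  conv_lhs => rw [← h2]
  rw [map_sum]
  refine Finset.sum_congr rfl fun l _ => ?_
  rw [map_mul, aeval_X, ha, aeval_C]

private theorem r3_pol_self {F E : Type} [Field F] [CommRing E] [Algebra F E] {N : ℕ}
    (q : MvPolynomial (Fin N) F) (hq : q.IsHomogeneous 2) (x : Fin N → E) :
    pol q x x = 2 * aeval x q := by
  have h2 := hq.sum_X_mul_pderiv
  have h3 := congrArg (aeval x) h2
  rw [map_sum] at h3
  unfold pol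
  have h4 : (∑ l, aeval x (X l * pderiv l q)) = ∑ l, x l * aeval x (pderiv l q) :=
    Finset.sum_congr rfl fun l _ => by rw [map_mul, aeval_X]
  rw [← h4, h3, map_nsmul]
  simp

private theorem r3_pol_sum_left {F E : Type} [Field F] [CommRing E] [Algebra F E] {N : ℕ}
    (q : MvPolynomial (Fin N) F) {ι : Type} (s : Finset ι) (c : ι → E) (x : ι → Fin N → E)
    (y : Fin N → E) : pol q (∑ j ∈ s, c j • x j) y = ∑ j ∈ s, c j * pol q (x j) y := by
  classical
  induction s using Finset.induction_on with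
  | empty => simp [pol]
  | insert a s ha ih => rw [Finset.sum_insert ha, Finset.sum_insert ha, pol_add_left, pol_smul_left, ih]

/-- the vector `u` with coordinates in `F`, over `E` -/
private noncomputable def r3_up {F : Type} [Field F] (E : Type) [CommRing E] [Algebra F E] {N : ℕ}
    (u : Fin N → F) : Fin N → E := fun i => algebraMap F E (u i)

private theorem r3_lin_zero {F : Type} [Field F] {N : ℕ}
    (ℓ : MvPolynomial (Fin N) F) (hℓ : ℓ.IsHomogeneous 1) (E : Type) [CommRing E] [Algebra F E]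
    {ι : Type} [Fintype ι] (u : ι → Fin N → F) (hu : ∀ j, aeval (u j) ℓ = 0) (c : ι → E) :
    aeval (∑ j, c j • r3_up E (u j)) ℓ = 0 := by
  obtain ⟨a, ha⟩ := r3_lin ℓ hℓ
  have h5 : ∀ j, ∑ l, r3_up E (u j) l * algebraMap F E (a l) = 0 := fun j => by
    have := hu j
    rw [ha F] at this
    have := congrArg (algebraMap F E) this
    rw [map_sum, map_zero] at this
    simpa [r3_up, map_mul] using this
  rw [ha E]
  calc ∑ l, (∑ j, c j • r3_up E (u j)) l * algebraMap F E (a l)
      = ∑ l, ∑ j, c j * (r3_up E (u j) l * algebraMap F E (a l)) := by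
        refine Finset.sum_congr rfl fun l _ => ?_
        rw [Finset.sum_apply, Finset.sum_mul]
        refine Finset.sum_congr rfl fun j _ => ?_
        rw [Pi.smul_apply, smul_eq_mul]
        ring
    _ = 0 := by
        rw [Finset.sum_comm]
        refine Finset.sum_eq_zero fun j _ => ?_
        rw [← Finset.mul_sum, h5, mul_zero]

private theorem r3_lin_add {F : Type} [Field F] {N : ℕ}
    (ℓ : MvPolynomial (Fin N) F) (hℓ : ℓ.IsHomogeneous 1) (E : Type) [CommRing E] [Algebra F E]
    (x y : Fin N → E) : aeval (x + y) ℓ = aeval x ℓ + aeval y ℓ := by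
  obtain ⟨a, ha⟩ := r3_lin ℓ hℓ
  rw [ha E, ha E, ha E, ← Finset.sum_add_distrib]
  exact Finset.sum_congr rfl fun l _ => by rw [Pi.add_apply, add_mul]

private theorem r3_quad {F : Type} [Field F] [CharZero F] {N m r : ℕ}
    (q : MvPolynomial (Fin N) F) (hq : q.IsHomogeneous 2) (w : Fin m → Fin N → F)
    (hz3 : ∀ j j', pol q (w j) (w j') = 0) (u : Fin r → Fin N → F)
    (E : Type) [Field E] [Algebra F E] (T : Fin r → E) (c : Fin m → E) :
    aeval (∑ l, T l • r3_up E (u l) + ∑ j, c j • r3_up E (w j)) q =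
      aeval (∑ l, T l • r3_up E (u l)) q +
        ∑ j, aeval T (∑ l : Fin r, X l * C (pol q (u l) (w j)) : MvPolynomial (Fin r) F) * c j := by
  have hWW : ∀ j j', pol q (r3_up E (w j)) (r3_up E (w j')) = 0 := fun j j' => by
    have := (pol_map q (Algebra.ofId F E) (w j) (w j')).symm
    rw [hz3, map_zero] at this
    exact this
  have hUW : ∀ l j, pol q (r3_up E (u l)) (r3_up E (w j)) = algebraMap F E (pol q (u l) (w j)) := fun l j =>
    (pol_map q (Algebra.ofId F E) (u l) (w j)).symm
  rw [aeval_add_quad q hq]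
  have h1 : aeval (∑ j, c j • r3_up E (w j)) q = 0 := by
    have h6 := r3_pol_self q hq (∑ j, c j • r3_up E (w j))
    have h7 : pol q (∑ j, c j • r3_up E (w j)) (∑ j, c j • r3_up E (w j)) = 0 := by
      rw [r3_pol_sum_left]
      refine Finset.sum_eq_zero fun j _ => ?_
      rw [pol_comm q hq, r3_pol_sum_left]
      rw [Finset.sum_eq_zero, mul_zero]
      exact fun j' _ => by rw [hWW, mul_zero]
    rw [h7] at h6
    have : CharZero E := charZero_of_injective_algebraMap (algebraMap F E).injective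
    rcases mul_eq_zero.1 h6.symm with h8 | h8
    · exact absurd h8 two_ne_zero
    · exact h8
  rw [h1, add_zero, pol_comm q hq, r3_pol_sum_left]
  congr 1
  refine Finset.sum_congr rfl fun j _ => ?_
  rw [pol_comm q hq, r3_pol_sum_left, mul_comm]
  congr 1
  rw [map_sum]
  refine Finset.sum_congr rfl fun l _ => ?_
  rw [map_mul, aeval_X, aeval_C, hUW]

private theorem r3_linadd {F E : Type} [Field F] [CommRing E] [Algebra F E] {N : ℕ} (a : Fin N → F)
    (x y : Fin N → E) : lin a (x + y) = lin a x + lin a y := by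
  simp only [lin, Pi.add_apply, mul_add, Finset.sum_add_distrib]

private theorem r3_linsum {F E : Type} [Field F] [CommRing E] [Algebra F E] {N : ℕ} (a : Fin N → F)
    {ι : Type} [Fintype ι] (c : ι → E) (x : ι → Fin N → E) :
    lin a (∑ j, c j • x j) = ∑ j, c j * lin a (x j) := by
  simp only [lin, Finset.sum_apply, Pi.smul_apply, smul_eq_mul, Finset.mul_sum]
  rw [Finset.sum_comm]
  exact Finset.sum_congr rfl fun _ _ => Finset.sum_congr rfl fun _ _ => by ring

private theorem r3_clear {F : Type} [Field F] {N r : ℕ} (D : MvPolynomial (Fin r) F)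
    (V : Fin N → MvPolynomial (Fin r) F) (G : MvPolynomial (Fin N) F) :
    ∃ (k : ℕ) (P : MvPolynomial (Fin r) F), ∀ (E : Type) [Field E] [Algebra F E] (T : Fin r → E)
      (x : Fin N → E), (∀ i, aeval T D * x i = aeval T (V i)) →
      aeval T D ^ k * aeval x G = aeval T P := by
  induction G using MvPolynomial.induction_on with
  | C a =>
    refine ⟨0, C a, fun E _ _ T x _ => ?_⟩
    rw [pow_zero, one_mul, aeval_C, aeval_C]
  | add p q hp hq =>
    obtain ⟨k, P, hP⟩ := hp
    obtain ⟨k', P', hP'⟩ := hq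
    refine ⟨k + k', D ^ k' * P + D ^ k * P', fun E _ _ T x hx => ?_⟩
    rw [map_add, map_add, map_mul, map_mul, map_pow, map_pow, ← hP E T x hx, ← hP' E T x hx]
    ring
  | mul_X p i hp =>
    obtain ⟨k, P, hP⟩ := hp
    refine ⟨k + 1, P * V i, fun E _ _ T x hx => ?_⟩
    rw [map_mul, map_mul, aeval_X, ← hP E T x hx, ← hx i]
    ring

theorem exists_par0 {F : Type} [Field F] [CharZero F] {N t m r : ℕ} (hN : t + m + r = N)
    (ℓ : Fin t → MvPolynomial (Fin N) F) (hℓ : ∀ s, (ℓ s).IsHomogeneous 1)
    (hind : LinearIndependent F ℓ)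
    (q : Fin m → MvPolynomial (Fin N) F) (hq : ∀ i, (q i).IsHomogeneous 2)
    (hs : IsSmoothSys (Sum.elim ℓ q)) (hJ : (Ideal.span (Set.range (Sum.elim ℓ q))).IsPrime)
    (w : Fin m → Fin N → F) (hw : LinearIndependent F w)
    (hz1 : ∀ s j, aeval (w j) (ℓ s) = 0) (hz2 : ∀ i j, aeval (w j) (q i) = 0)
    (hz3 : ∀ i j j', pol (q i) (w j) (w j') = 0) :
    ∃ v : Fin N → RF F r, IsGen (Ideal.span (Set.range (Sum.elim ℓ q))) v ∧ GenOver F v := by
  classical
  obtain ⟨u, lam, hu, hlu, hlw, hfr⟩ := exists_frame hN ℓ hℓ hind w hw hz1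
  let A : Matrix (Fin m) (Fin m) (MvPolynomial (Fin r) F) :=
    Matrix.of fun i j : Fin m => ∑ l : Fin r, X l * C (pol (q i) (u l) (w j))
  have hD : A.det ≠ 0 := det_ne_zero_par ℓ hℓ q hq hs w hw hz1 hz2 hz3 u lam hfr
  set D := A.det with hDdef
  -- polynomial formulas
  let Y : Fin N → MvPolynomial (Fin r) F := ∑ l, (X l : MvPolynomial (Fin r) F) • r3_up (MvPolynomial (Fin r) F) (u l)
  let Q : Fin m → MvPolynomial (Fin r) F := fun i => - aeval Y (q i)
  let Cc : Fin m → MvPolynomial (Fin r) F := A.adjugate.mulVec Q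
  let V : Fin N → MvPolynomial (Fin r) F := D • Y + ∑ j, Cc j • r3_up (MvPolynomial (Fin r) F) (w j)
  have hYE : ∀ (E : Type) [Field E] [Algebra F E] (T : Fin r → E),
      (fun i => aeval T (Y i)) = ∑ l, T l • r3_up E (u l) := by
    intro E _ _ T
    funext i
    simp [Y, r3_up, Finset.sum_apply]
  have key : ∀ (E : Type) [Field E] [Algebra F E] (T : Fin r → E) (c : Fin m → E) (x : Fin N → E),
      x = ∑ l, T l • r3_up E (u l) + ∑ j, c j • r3_up E (w j) → (∀ i, aeval x (q i) = 0) →
      ∀ n, aeval T D * x n = aeval T (V n) := by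
    intro E _ _ T c x hx hqx n
    have h1 : ∀ i, aeval T (Q i) = ∑ j, aeval T (A i j) * c j := by
      intro i
      have h2 := r3_quad (q i) (hq i) w (hz3 i) u E T c
      rw [← hx, hqx i] at h2
      have h3 : aeval T (Q i) = - aeval (∑ l, T l • r3_up E (u l)) (q i) := by
        rw [← hYE E T]
        simp only [Q, map_neg]
        rw [← comp_aeval_apply]
      rw [h3]
      have h4 : ∀ j, (aeval T) (A i j) = aeval T (∑ l : Fin r, X l * C (pol (q i) (u l) (w j)) : MvPolynomial (Fin r) F) :=
        fun j => rfl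
      simp only [h4]
      linear_combination h2
    have h5 : ∀ j, aeval T (Cc j) = aeval T D * c j := by
      intro j
      have h6 : aeval T (Cc j) = ∑ i, aeval T (A.adjugate j i) * aeval T (Q i) := by
        simp only [Cc, Matrix.mulVec, dotProduct, map_sum, map_mul]
      rw [h6]
      calc ∑ i, aeval T (A.adjugate j i) * aeval T (Q i)
          = ∑ i, ∑ j', aeval T (A.adjugate j i * A i j') * c j' := by
            refine Finset.sum_congr rfl fun i _ => ?_
            rw [h1, Finset.mul_sum]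
            exact Finset.sum_congr rfl fun j' _ => by rw [map_mul]; ring
        _ = ∑ j', aeval T ((A.adjugate * A) j j') * c j' := by
            rw [Finset.sum_comm]
            refine Finset.sum_congr rfl fun j' _ => ?_
            rw [Matrix.mul_apply, map_sum, Finset.sum_mul]
        _ = aeval T D * c j := by
            rw [Matrix.adjugate_mul]
            rw [Finset.sum_eq_single j]
            · simp [hDdef]
            · intro b _ hb
              simp [Matrix.one_apply_ne (Ne.symm hb)]
            · simp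
    have h7 : aeval T (V n) = aeval T D * aeval T (Y n) + ∑ j, aeval T (Cc j) * algebraMap F E (w j n) := by
      simp [V, r3_up, Finset.sum_apply]
    have h8 := congrFun (hYE E T) n
    rw [h7, hx, Pi.add_apply, ← h8, mul_add, Finset.sum_apply, Finset.mul_sum]
    congr 1
    refine Finset.sum_congr rfl fun j _ => ?_
    rw [h5, Pi.smul_apply, smul_eq_mul]
    simp only [r3_up]
    ring
  -- the point over the field of rational functions
  let Ω := RF F r
  let φ : MvPolynomial (Fin r) F →ₐ[F] Ω := IsScalarTower.toAlgHom F (MvPolynomial (Fin r) F) Ω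
  have hφi : Function.Injective φ := IsFractionRing.injective (MvPolynomial (Fin r) F) Ω
  let T0 : Fin r → Ω := fun l => φ (X l)
  have hT0 : (aeval T0 : MvPolynomial (Fin r) F →ₐ[F] Ω) = φ := by
    ext l
    simp [T0]
  have hD0 : φ D ≠ 0 := fun h => hD (hφi (by rw [h, map_zero]))
  let c0 : Fin m → Ω := fun j => φ (Cc j) / φ D
  let v : Fin N → Ω := ∑ l, T0 l • r3_up Ω (u l) + ∑ j, c0 j • r3_up Ω (w j)
  have hvℓ : ∀ s, aeval v (ℓ s) = 0 := by
    intro s
    rw [r3_lin_add _ (hℓ s), r3_lin_zero _ (hℓ s) Ω u (fun j => hu j s),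
      r3_lin_zero _ (hℓ s) Ω w (fun j => hz1 s j), add_zero]
  have hvq : ∀ i, aeval v (q i) = 0 := by
    intro i
    have h2 := r3_quad (q i) (hq i) w (hz3 i) u Ω T0 c0
    rw [h2, hT0]
    have h3 : φ (Q i) = - aeval (∑ l, T0 l • r3_up Ω (u l)) (q i) := by
      rw [← hYE Ω T0, hT0]
      simp only [Q, map_neg]
      rw [← comp_aeval_apply]
    have h4 : ∑ j, φ (A i j) * φ (Cc j) = φ D * φ (Q i) := by
      have h5 : A.mulVec Cc = D • Q := by
        simp only [Cc]
        rw [Matrix.mulVec_mulVec, Matrix.mul_adjugate, Matrix.smul_mulVec, Matrix.one_mulVec]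
      have h6 := congrArg φ (congrFun h5 i)
      simpa [Matrix.mulVec, dotProduct] using h6
    have h7 : ∑ j, φ (∑ l : Fin r, X l * C (pol (q i) (u l) (w j)) : MvPolynomial (Fin r) F) * c0 j = φ (Q i) := by
      have h8 : ∀ j, φ (∑ l : Fin r, X l * C (pol (q i) (u l) (w j)) : MvPolynomial (Fin r) F) * c0 j =
          (φ (A i j) * φ (Cc j)) / φ D := fun j => by
        simp only [c0]
        rw [← mul_div_assoc]
        rfl
      simp only [h8]
      rw [← Finset.sum_div, h4, mul_div_cancel_left₀ _ hD0]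
    rw [h7, h3]
    ring
  have hvlin : ∀ l, lin (lam l) v = T0 l := by
    intro l
    have h1 : ∀ (a : Fin N → F), lin (lam l) (r3_up Ω a) = algebraMap F Ω (lin (lam l) a) := by
      intro a
      simp [lin, r3_up]
    have h2 : lin (lam l) v = ∑ l', T0 l' * lin (lam l) (r3_up Ω (u l')) +
        ∑ j, c0 j * lin (lam l) (r3_up Ω (w j)) := by
      simp only [v]
      rw [r3_linadd, r3_linsum, r3_linsum]
    rw [h2]
    simp only [h1, hlu, hlw, map_zero, mul_zero, Finset.sum_const_zero, add_zero]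
    rw [Finset.sum_eq_single l]
    · simp
    · intro b _ hb
      rw [if_neg (Ne.symm hb), map_zero, mul_zero]
    · simp
  -- linear substitution
  let Lam : Fin r → MvPolynomial (Fin N) F := fun l => ∑ n, C (lam l n) * X n
  have hLam : ∀ (E : Type) [Field E] [Algebra F E] (x : Fin N → E) (G : MvPolynomial (Fin r) F),
      aeval x (aeval Lam G) = aeval (fun l => lin (lam l) x) G := by
    intro E _ _ x G
    rw [comp_aeval_apply]
    congr 1
    congr 1
    funext l
    simp [Lam, lin]
  have hvLam : ∀ G : MvPolynomial (Fin r) F, aeval v (aeval Lam G) = φ G := by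
    intro G
    rw [hLam, ← hT0]
    congr 1
    congr 1
    funext l
    exact hvlin l
  have hJv : ∀ G ∈ Ideal.span (Set.range (Sum.elim ℓ q)), aeval v G = 0 := by
    intro G hG
    have h1 : Ideal.span (Set.range (Sum.elim ℓ q)) ≤ RingHom.ker (aeval v : MvPolynomial (Fin N) F →ₐ[F] Ω) := by
      rw [Ideal.span_le]
      rintro _ ⟨(s | i), rfl⟩
      · exact hvℓ s
      · exact hvq i
    exact h1 hG
  refine ⟨v, fun G => ⟨fun hG => ?_, hJv G⟩, fun z => ?_⟩
  · obtain ⟨k, P, hP⟩ := r3_clear D V G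
    have hvV := key Ω T0 c0 v rfl hvq
    have h1 := hP Ω T0 v hvV
    rw [hG, mul_zero, hT0] at h1
    have hP0 : P = 0 := hφi (by rw [← h1, map_zero])
    -- the generic point of the ideal
    set J := Ideal.span (Set.range (Sum.elim ℓ q)) with hJdef
    have : IsDomain (MvPolynomial (Fin N) F ⧸ J) := Ideal.Quotient.isDomain J
    let E := FractionRing (MvPolynomial (Fin N) F ⧸ J)
    let x : Fin N → E := fun n => algebraMap (MvPolynomial (Fin N) F ⧸ J) E (Ideal.Quotient.mk J (X n))
    have hx : ∀ G : MvPolynomial (Fin N) F, aeval x G = algebraMap (MvPolynomial (Fin N) F ⧸ J) E (Ideal.Quotient.mk J G) := by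
      intro G
      let ψ : MvPolynomial (Fin N) F →ₐ[F] E :=
        (IsScalarTower.toAlgHom F (MvPolynomial (Fin N) F ⧸ J) E).comp (Ideal.Quotient.mkₐ F J)
      have h2 : (aeval x : MvPolynomial (Fin N) F →ₐ[F] E) = ψ := by
        ext n
        simp [x, ψ]
      rw [h2]
      rfl
    have hx0 : ∀ G : MvPolynomial (Fin N) F, aeval x G = 0 ↔ G ∈ J := by
      intro G
      rw [hx, map_eq_zero_iff _ (IsFractionRing.injective (MvPolynomial (Fin N) F ⧸ J) E),
        Ideal.Quotient.eq_zero_iff_mem]
    have hxℓ : ∀ s, aeval x (ℓ s) = 0 := fun s => (hx0 _).2 (Ideal.subset_span ⟨Sum.inl s, rfl⟩)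
    have hxq : ∀ i, aeval x (q i) = 0 := fun i => (hx0 _).2 (Ideal.subset_span ⟨Sum.inr i, rfl⟩)
    obtain ⟨c', hc'⟩ := hfr E x hxℓ
    have hx1 : x = ∑ l, (fun l => lin (lam l) x) l • r3_up E (u l) + ∑ j, c' j • r3_up E (w j) := by
      funext n
      rw [hc' n]
      simp [r3_up, Finset.sum_apply]
    have hxV := key E (fun l => lin (lam l) x) c' x hx1 hxq
    have h3 := hP E (fun l => lin (lam l) x) x hxV
    rw [hP0, map_zero] at h3
    have h4 : aeval (fun l => lin (lam l) x) D ≠ 0 := by
      intro h0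
      rw [← hLam, hx0] at h0
      have := hJv _ h0
      rw [hvLam] at this
      exact hD0 this
    have h5 := (mul_eq_zero.1 h3).resolve_left (pow_ne_zero _ h4)
    exact (hx0 G).1 h5
  · obtain ⟨G, H, hH, hz⟩ := IsFractionRing.div_surjective (A := MvPolynomial (Fin r) F) z
    have hH0 : φ H ≠ 0 := fun h => nonZeroDivisors.ne_zero hH (hφi (by rw [h, map_zero]))
    refine ⟨aeval Lam G, aeval Lam H, ?_, ?_⟩
    · rw [hvLam]
      exact hH0
    · rw [hvLam, hvLam, ← hz]
      exact div_mul_cancel₀ _ hH0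

end Pool.Agent.LibHP.CIM
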