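import Pool.Agent.LibCIM.A9
import Pool.Agent.LibCIM.R3
import Pool.Agent.LibHPF.Q4

set_option autoImplicit false
open MvPolynomial

namespace Pool.Agent.LibHP.CIM

/-! # Row R4 (MEDIUM): the parametrisation for a family with arbitrary indices

Reindex: `{i // d i = 1} ≃ Fin t`, `{i // d i = 2} ≃ Fin m`, `ℓ`, `q` the restrictions of `g`; `Set.range (Sum.elim ℓ q) = Set.range g`; `IsSmoothSys (Sum.elim ℓ q)` (independence does not depend on the indices: `LinearIndependent.comp` with an equivalence). Prime: `prime_of_smoothSys` (A9). `hind`: the system has a nonzero common zero over `AlgebraicClosure F`, because it has fewer forms than variables (`exists_common_zero`, Q4, as in the proof of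
`cf_notMem`, row B5, CIM_B5.lean: `B5_notMem`); there the gradients of the `ℓ s`, which are constant vectors, are independent; a form of degree one is determined by its gradient. `hz2`, `hz3` from `hz` with `c` = unit vectors and sums of two unit vectors (`aeval_add_quad`). -/

private theorem R4_ind {F : Type} [Field F] {N : ℕ} {ι κ : Type} [Fintype ι] [Fintype κ]
    (g : ι → MvPolynomial (Fin N) F) (d : ι → ℕ) (hd : ∀ i, 0 < d i)
    (hg : ∀ i, (g i).IsHomogeneous (d i)) (hs : IsSmoothSys g) (hN : Fintype.card ι < N)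
    (f : κ → ι) (hf : Function.Injective f) : LinearIndependent F (fun s => g (f s)) := by
  obtain ⟨y, hy, hz⟩ := exists_zero_of_lt (AlgebraicClosure F) (Fin N) ι
    (by rw [Fintype.card_fin]; exact hN)
    (fun i => MvPolynomial.map (algebraMap F (AlgebraicClosure F)) (g i)) d hd
    (fun i => (hg i).map _)
  have hz' : ∀ i, aeval y (g i) = 0 := by
    intro i
    have h := hz i
    rwa [eval_map, ← aeval_def] at h
  have h1 := (hs y hy hz').comp f hf
  rw [Fintype.linearIndependent_iff] at h1 ⊢
  intro c hc s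
  have h2 := h1 (fun s => algebraMap F (AlgebraicClosure F) (c s)) (by
    funext l
    have h3 := congrArg (fun p => aeval y (pderiv l p)) hc
    simp only [map_sum, map_zero, Derivation.map_smul, map_smul] at h3
    rw [Finset.sum_apply]
    simp only [Pi.smul_apply, Function.comp_apply, grd, smul_eq_mul, Pi.zero_apply]
    rw [← h3]
    refine Finset.sum_congr rfl fun s _ => ?_
    rw [Algebra.smul_def]) s
  exact (map_eq_zero _).1 h2

private theorem R4_card {ι : Type} [Fintype ι] (d : ι → ℕ) (hd : ∀ i, d i = 1 ∨ d i = 2) {m : ℕ}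
    (hm : Fintype.card {i // d i = 2} = m) : ∃ (t : ℕ) (E : Fin t ⊕ Fin m ≃ ι),
      t + m = Fintype.card ι ∧ (∀ s, d (E (Sum.inl s)) = 1) ∧ ∀ s, d (E (Sum.inr s)) = 2 := by
  classical
  let e1 : {i // d i = 1} ≃ Fin (Fintype.card {i // d i = 1}) := Fintype.equivFin _
  let e2 : {i // d i = 2} ≃ Fin m := Fintype.equivFinOfCardEq hm
  let e3 : {i // d i = 2} ≃ {i // ¬ d i = 1} := Equiv.subtypeEquivRight fun i => by
    rcases hd i with h | h <;> rw [h] <;> norm_num
  let E : Fin (Fintype.card {i // d i = 1}) ⊕ Fin m ≃ ι :=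
    (Equiv.sumCongr e1.symm (e2.symm.trans e3)).trans (Equiv.sumCompl fun i => d i = 1)
  refine ⟨_, E, ?_, fun s => ?_, fun s => ?_⟩
  · have h := Fintype.card_congr E
    rwa [Fintype.card_sum, Fintype.card_fin, Fintype.card_fin] at h
  · exact (e1.symm s).2
  · exact (e2.symm s).2

theorem exists_par {F : Type} [Field F] [CharZero F] {N m r : ℕ} {ι : Type} [Fintype ι]
    (g : ι → MvPolynomial (Fin N) F) (d : ι → ℕ) (hd : ∀ i, d i = 1 ∨ d i = 2)
    (hg : ∀ i, (g i).IsHomogeneous (d i)) (hs : IsSmoothSys g)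
    (hm : Fintype.card {i // d i = 2} = m) (hr : Fintype.card ι + r = N) (hr2 : 2 ≤ r)
    (w : Fin m → Fin N → F) (hw : LinearIndependent F w)
    (hz : ∀ (c : Fin m → F) (i : ι), aeval (∑ j, c j • w j) (g i) = 0) :
    ∃ v : Fin N → RF F r, IsGen (Ideal.span (Set.range g)) v ∧ GenOver F v := by
  classical
  obtain ⟨t, E, hcard, hE1, hE2⟩ := R4_card d hd hm
  have hd0 : ∀ i, 0 < d i := fun i => by
    rcases hd i with h | h <;> omega
  have hEq : (Sum.elim (fun s => g (E (Sum.inl s))) (fun s => g (E (Sum.inr s))) :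
      Fin t ⊕ Fin m → MvPolynomial (Fin N) F) = fun j => g (E j) := by
    funext j
    rcases j with j | j <;> rfl
  have hrange : Set.range (Sum.elim (fun s => g (E (Sum.inl s))) (fun s => g (E (Sum.inr s))) :
      Fin t ⊕ Fin m → MvPolynomial (Fin N) F) = Set.range g := by
    rw [hEq]
    exact E.surjective.range_comp g
  have hs' : IsSmoothSys (Sum.elim (fun s => g (E (Sum.inl s))) (fun s => g (E (Sum.inr s))) :
      Fin t ⊕ Fin m → MvPolynomial (Fin N) F) := by
    rw [hEq]
    intro y hy h
    refine (hs y hy fun i => ?_).comp E E.injective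
    have h1 : aeval y (g (E (E.symm i))) = 0 := h (E.symm i)
    rwa [E.apply_symm_apply] at h1
  have hJ := prime_of_smoothSys g d hd0 hg hs (by omega)
  have z1 : ∀ j i, aeval (w j) (g i) = 0 := by
    intro j i
    have h := hz (Pi.single j 1) i
    rwa [Fintype.sum_eq_single j (fun j' hj' => by rw [Pi.single_eq_of_ne hj', zero_smul]),
      Pi.single_eq_same, one_smul] at h
  have z3 : ∀ j j' i, aeval (w j + w j') (g i) = 0 := by
    intro j j' i
    have h := hz (Pi.single j 1 + Pi.single j' 1) i
    have h2 : ∑ l, (Pi.single j 1 + Pi.single j' 1 : Fin m → F) l • w l = w j + w j' := by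
      simp only [Pi.add_apply, add_smul]
      rw [Finset.sum_add_distrib,
        Fintype.sum_eq_single j (fun j' hj' => by rw [Pi.single_eq_of_ne hj', zero_smul]),
        Fintype.sum_eq_single j' (fun j hj => by rw [Pi.single_eq_of_ne hj, zero_smul]),
        Pi.single_eq_same, Pi.single_eq_same, one_smul, one_smul]
    rwa [h2] at h
  have hℓ : ∀ s, (g (E (Sum.inl s))).IsHomogeneous 1 := fun s => by
    have := hg (E (Sum.inl s))
    rwa [hE1] at this
  have hq : ∀ s, (g (E (Sum.inr s))).IsHomogeneous 2 := fun s => by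
    have := hg (E (Sum.inr s))
    rwa [hE2] at this
  obtain ⟨v, hv1, hv2⟩ := exists_par0 (t := t) (m := m) (r := r) (by omega)
    (fun s => g (E (Sum.inl s))) hℓ
    (R4_ind g d hd0 hg hs (by omega) (fun s => E (Sum.inl s))
      (fun a b h => Sum.inl_injective (E.injective h)))
    (fun s => g (E (Sum.inr s))) hq hs' (by rw [hrange]; exact hJ) w hw
    (fun s j => z1 j _) (fun i j => z1 j _) (fun i j j' => by
      have h := aeval_add_quad (g (E (Sum.inr i))) (hq i) (w j) (w j')
      rw [z1, z1, z3, zero_add, add_zero] at h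
      exact h.symm)
  refine ⟨v, ?_, hv2⟩
  rw [hrange] at hv1
  exact hv1

end Pool.Agent.LibHP.CIM
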