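import Pool.Agent.LibCIM.HDefs
import Pool.Agent.LibHP.H9
import Pool.Agent.LibHPF.Defs

set_option autoImplicit false
open MvPolynomial

namespace Pool.Agent.LibHP.CIM

/-! # Row R5 (MEDIUM/EASY): cones with a rational function field have the Hilbert property

`FunField J →ₐ[k] RF k r` (`IsFractionRing.liftAlgHom`, the quotient by `J` embeds by `X i ↦ v i`, `hv`), surjective by `hgv`: an isomorphism. For `A ≤ FunField J` finitely generated: compose `A → RF k r`; the polynomials have no roots there; `exists_point_of_hom` (LibHP/H9.lean). -/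

theorem coneHP_of_gen {k : Type} [Field k] [NumberField k] {N r : ℕ}
    (J : Ideal (MvPolynomial (Fin N) k)) (hJ : J.IsPrime) (v : Fin N → RF k r) (hv : IsGen J v)
    (hgv : GenOver k v) : ConeHP J := by
  refine ⟨hJ, ?_⟩
  letI := hJ
  intro A hA ι _ T hT hroot
  haveI : IsDomain (MvPolynomial (Fin N) k ⧸ J) := Ideal.Quotient.isDomain J
  let ψ : (MvPolynomial (Fin N) k ⧸ J) →ₐ[k] RF k r :=
    Ideal.Quotient.liftₐ J (aeval v) (fun a ha => (hv a).2 ha)
  have hψ : ∀ G : MvPolynomial (Fin N) k, ψ (Ideal.Quotient.mk J G) = aeval v G := fun G => rfl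
  have hψi : Function.Injective ψ := by
    rw [injective_iff_map_eq_zero]
    intro a ha
    obtain ⟨G, rfl⟩ := Ideal.Quotient.mk_surjective a
    rw [hψ, hv] at ha
    exact Ideal.Quotient.eq_zero_iff_mem.2 ha
  let Φ : FunField J →ₐ[k] RF k r := IsFractionRing.liftAlgHom (g := ψ) hψi
  have hΦ : ∀ a, Φ (algebraMap _ (FunField J) a) = ψ a := fun a =>
    IsFractionRing.lift_algebraMap (g := (ψ : (MvPolynomial (Fin N) k ⧸ J) →+* RF k r)) hψi a
  have hΦi : Function.Injective Φ := (Φ : FunField J →+* RF k r).injective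
  have hΦs : ∀ z : RF k r, ∃ y : FunField J, Φ y = z := by
    intro z
    obtain ⟨G, H, h1, h2⟩ := hgv z
    refine ⟨algebraMap _ (FunField J) (Ideal.Quotient.mk J G) /
      algebraMap _ (FunField J) (Ideal.Quotient.mk J H), ?_⟩
    rw [map_div₀, hΦ, hΦ, hψ, hψ, ← h2]
    exact mul_div_cancel_right₀ z h1
  haveI : Algebra.FiniteType k A := A.fg_iff_finiteType.1 hA
  refine exists_point_of_hom k r A (Φ.comp A.val) T hT fun i x hx => ?_
  obtain ⟨y, rfl⟩ := hΦs x
  apply hroot i y
  apply hΦi
  rw [map_zero]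
  rw [Polynomial.IsRoot, Polynomial.eval_map] at hx
  rw [← hx]
  exact Polynomial.hom_eval₂ (T i) (algebraMap A (FunField J)) (Φ : FunField J →+* RF k r) y

end Pool.Agent.LibHP.CIM
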