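import Pool.Agent.LibCIM.R4
import Pool.Agent.LibCIM.R5
import Pool.Agent.LibCIM.B5
import Pool.Agent.LibCIM.T3

set_option autoImplicit false
open MvPolynomial

namespace Pool.Agent.LibHP.CIM

/-! # Row R6 (MEDIUM): smooth contact cones with a contact space have the Hilbert property

Apply `exists_par` (R4) to `g := S.cone P (e - 2)`, `d := S.coneDeg (e - 2)` (values `1`, `2` because `dg j = 2` and `e - 2 ≤ 2`), `r := n + 1 - card` (`card_cone`; `∑ dg = 2 a`), number of the quadratic equations: `i = 1` in `Fin (dg j) = Fin 2` for every `j`, and `i = 1` in `Fin (e - 2)` if `e = 4`: `mQ a e` in total; prime: `prime_of_smoothSys`. The vectors: `w' q := w q - w q 0 • P`: first coordinate `0`, `contact_shift`;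
the equations of the cone vanish on their combinations: `contact_of_zero` (B5) or `aeval_cf`. Independence: from the one of `P, w`. Then R5. -/

private theorem R6_deg {k : Type} [Field k] {n a e : ℕ} (S : Sys k n a e)
    (hdg : ∀ j, S.dg j = 2) (he4 : e ≤ 4) (i : S.Idx (e - 2)) :
    S.coneDeg (e - 2) i = 1 ∨ S.coneDeg (e - 2) i = 2 := by
  rcases i with _ | (⟨j, i⟩ | i)
  · left; rfl
  · have h1 : i.val < 2 := by
      have := i.isLt
      have h2 := hdg j
      omega
    change i.val + 1 = 1 ∨ i.val + 1 = 2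
    omega
  · have h1 : i.val < e - 2 := i.isLt
    change i.val + 1 = 1 ∨ i.val + 1 = 2
    omega

private theorem R6_card {k : Type} [Field k] {n a e : ℕ} (S : Sys k n a e)
    (hdg : ∀ j, S.dg j = 2) (he : 2 ≤ e) (he4 : e ≤ 4) :
    Fintype.card {i : S.Idx (e - 2) // S.coneDeg (e - 2) i = 2} = mQ a e := by
  classical
  rw [Fintype.card_subtype, Finset.card_filter]
  rw [Fintype.sum_option, Fintype.sum_sum_type, Fintype.sum_sigma]
  have h0 : (if S.coneDeg (e - 2) none = 2 then 1 else 0) = 0 := by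
    rw [if_neg]
    change ¬ (1 = 2)
    omega
  have h1 : ∀ j : Fin a, (∑ i : Fin (S.dg j),
      if S.coneDeg (e - 2) (some (Sum.inl ⟨j, i⟩)) = 2 then 1 else 0) = 1 := by
    intro j
    have h := Fin.sum_univ_eq_sum_range (fun i : ℕ => if i + 1 = 2 then 1 else 0) (S.dg j)
    have h' : (∑ i : Fin (S.dg j),
      if S.coneDeg (e - 2) (some (Sum.inl ⟨j, i⟩)) = 2 then 1 else 0) =
      ∑ i : Fin (S.dg j), (fun i : ℕ => if i + 1 = 2 then 1 else 0) i.val := rfl
    rw [h', h, hdg j]
    rfl
  have h2 : (∑ i : Fin (e - 2),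
      if S.coneDeg (e - 2) (some (Sum.inr i)) = 2 then 1 else 0) = if e = 4 then 1 else 0 := by
    have h := Fin.sum_univ_eq_sum_range (fun i : ℕ => if i + 1 = 2 then 1 else 0) (e - 2)
    have h' : (∑ i : Fin (e - 2),
      if S.coneDeg (e - 2) (some (Sum.inr i)) = 2 then 1 else 0) =
      ∑ i : Fin (e - 2), (fun i : ℕ => if i + 1 = 2 then 1 else 0) i.val := rfl
    rw [h', h]
    obtain rfl | rfl | rfl : e = 2 ∨ e = 3 ∨ e = 4 := by omega
    · rfl
    · rfl
    · rfl
  rw [h0, h2, Finset.sum_congr rfl (fun j _ => h1 j)]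
  rw [Finset.sum_const, Finset.card_univ, Fintype.card_fin]
  unfold mQ
  split_ifs <;> simp

theorem coneHP_of_contactSpace {k : Type} [Field k] [NumberField k] {n a e : ℕ} (S : Sys k n a e)
    (hdg : ∀ j, S.dg j = 2) (he : 2 ≤ e) (he4 : e ≤ 4) (hn : 2 * a + e + 1 ≤ n)
    (P : Fin (n + 1) → k) (hP0 : P 0 = 1) (hP : ∀ o, aeval P (S.fam o) = 0)
    (hs : IsSmoothSys (S.cone P (e - 2))) (hc : S.ContactSpace (mQ a e) P) :
    ConeHP (S.JJ P (e - 2)) := by
  classical
  obtain ⟨w, hw, hcw⟩ := hc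
  have hcard : Fintype.card (S.Idx (e - 2)) = 2 * a + e - 1 := by
    rw [S.card_cone, Finset.sum_congr rfl (fun j _ => hdg j), Finset.sum_const, Finset.card_univ,
      Fintype.card_fin, smul_eq_mul]
    omega
  have hJ : (S.JJ P (e - 2)).IsPrime := by
    refine prime_of_smoothSys (S.cone P (e - 2)) (S.coneDeg (e - 2)) (S.coneDeg_pos _)
      (cone_hom S P (e - 2)) hs ?_
    rw [hcard]
    omega
  have hind : LinearIndependent k (fun q : Fin (mQ a e) => w q - w q 0 • P) := by
    rw [Fintype.linearIndependent_iff] at hw ⊢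
    intro g hg
    have h1 : ∑ i, (Fin.cons (-(∑ j, g j * w j 0)) g : Fin (mQ a e + 1) → k) i •
        (Fin.cons P w : Fin (mQ a e + 1) → Fin (n + 1) → k) i = 0 := by
      rw [Fin.sum_univ_succ]
      simp only [Fin.cons_zero, Fin.cons_succ]
      rw [neg_smul, Finset.sum_smul, neg_add_eq_sub, ← Finset.sum_sub_distrib]
      rw [← hg]
      refine Finset.sum_congr rfl (fun i _ => ?_)
      rw [smul_sub, smul_smul]
    intro i
    have h2 := hw _ h1 i.succ
    simpa using h2
  have hz : ∀ (c : Fin (mQ a e) → k) (i : S.Idx (e - 2)),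
      aeval (∑ j, c j • (w j - w j 0 • P)) (S.cone P (e - 2) i) = 0 := by
    intro c
    have hv : ∑ j, c j • (w j - w j 0 • P) =
        (∑ j, c j • w j) + (-(∑ j, c j * w j 0)) • P := by
      rw [neg_smul, ← sub_eq_add_neg, Finset.sum_smul, ← Finset.sum_sub_distrib]
      refine Finset.sum_congr rfl (fun i _ => ?_)
      rw [smul_sub, smul_smul]
    rw [hv]
    have hcon : S.Contact P (∑ j, c j • w j) (e - 2) := by
      obtain ⟨h1, h2⟩ := hcw c
      refine ⟨fun j i => ?_, fun i hi => ?_⟩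
      · unfold tc
        rw [h1 j, Polynomial.coeff_zero]
      · unfold tc
        rw [Polynomial.X_pow_dvd_iff] at h2
        exact h2 i (by omega)
    have hcon2 := contact_shift S P _ (e - 2) hcon (-(∑ j, c j * w j 0))
    refine (contact_of_zero (Ω := k) (Ω' := k) S P hP (e - 2) _).mpr ⟨?_, ?_⟩
    · simp [Finset.sum_apply, hP0]
    · simpa using hcon2
  obtain ⟨v, hv, hgv⟩ := exists_par (r := n + 1 - Fintype.card (S.Idx (e - 2)))
    (S.cone P (e - 2)) (S.coneDeg (e - 2)) (R6_deg S hdg he4) (cone_hom S P (e - 2)) hs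
    (R6_card S hdg he he4) (by rw [hcard]; omega) (by rw [hcard]; omega) _ hind hz
  exact coneHP_of_gen (S.JJ P (e - 2)) hJ v hv hgv

end Pool.Agent.LibHP.CIM
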