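import Pool.Agent.LibCIM.R1

set_option autoImplicit false
open MvPolynomial

namespace Pool.Agent.LibHP.CIM

/-! # Row R8 (ONLY MATHLIB, MEDIUM): isotropic spaces

`hu`: every `m` quadratic forms in `u` variables over `F` have a nontrivial common zero. Induction on `i ≤ m`: there are `i` independent vectors `w` in `V` with `q p (w j) = 0`, `pol (q p) (w j) (w j') = 0` for all `p`, `j`, `j'`. Step: `V' := {x ∈ V : pol (q p) (w j) x = 0 for all p, j}` has dimension at least `dim V - i m`, contains the `w j`; choose a complement `U` of their span in `V'`: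
dimension at least `dim V - i m - i ≥ u` for `i ≤ m - 1`; a basis of a `u`-dimensional subspace of `U` gives quadratic forms in `u` variables, a common zero is the next vector (not in the span of the `w j`). Template: LibHPC/C11.lean. -/

section R8

variable {F : Type} [Field F] {N : ℕ}

/-- the polar form as a linear form -/
noncomputable def R8_L (q : MvPolynomial (Fin N) F) (y : Fin N → F) : (Fin N → F) →ₗ[F] F :=
  ∑ l, (aeval y (pderiv l q) : F) • LinearMap.proj l

theorem R8_L_apply (q : MvPolynomial (Fin N) F) (y x : Fin N → F) :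
    R8_L q y x = pol q x y := by
  rw [R8_L, LinearMap.sum_apply]
  refine Finset.sum_congr rfl fun l _ => ?_
  rw [LinearMap.smul_apply, LinearMap.proj_apply, smul_eq_mul, mul_comm]

theorem R8_self {q : MvPolynomial (Fin N) F} (hq : q.IsHomogeneous 2) {x : Fin N → F}
    (hx : aeval x q = (0 : F)) : pol q x x = 0 := by
  have h1 := aeval_add_quad q hq x x
  have h2 := aeval_smul_quad q hq (2 : F) x
  rw [two_smul, h1, hx] at h2
  simpa using h2

theorem R8_sum {m i : ℕ} {q : Fin m → MvPolynomial (Fin N) F} (hq : ∀ p, (q p).IsHomogeneous 2)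
    {w : Fin i → Fin N → F} (h1 : ∀ p j, aeval (w j) (q p) = (0 : F))
    (h2 : ∀ p j j', pol (q p) (w j) (w j') = 0) (c : Fin i → F) (p : Fin m) :
    aeval (∑ j, c j • w j) (q p) = (0 : F) := by
  classical
  have key : ∀ s : Finset (Fin i), aeval (∑ j ∈ s, c j • w j) (q p) = (0 : F) ∧
      ∀ j', pol (q p) (∑ j ∈ s, c j • w j) (w j') = 0 := by
    intro s
    induction s using Finset.induction_on with
    | empty =>
      constructor
      · have h3 := aeval_smul_quad (q p) (hq p) (0 : F) (0 : Fin N → F)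
        rw [zero_smul] at h3
        rw [Finset.sum_empty, h3]
        ring
      · intro j'
        rw [Finset.sum_empty, ← R8_L_apply, map_zero]
    | insert a s ha ih =>
      constructor
      · rw [Finset.sum_insert ha, aeval_add_quad (q p) (hq p), ih.1, aeval_smul_quad (q p) (hq p),
          h1, pol_smul_left, pol_comm (q p) (hq p), ih.2]
        ring
      · intro j'
        rw [Finset.sum_insert ha, pol_add_left, pol_smul_left, h2, ih.2]
        ring
  exact (key Finset.univ).1

theorem R8_subst {u : ℕ} (b : Fin u → Fin N → F) (t : Fin u → F) (q : MvPolynomial (Fin N) F) :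
    eval t (aeval (fun l => ∑ k, C (b k l) * X k : Fin N → MvPolynomial (Fin u) F) q) =
      aeval (∑ k, t k • b k) q := by
  have h1 : ((aeval t : MvPolynomial (Fin u) F →ₐ[F] F).comp
      (aeval (fun l => ∑ k, C (b k l) * X k : Fin N → MvPolynomial (Fin u) F))) =
      aeval (∑ k, t k • b k) := by
    refine MvPolynomial.algHom_ext fun l => ?_
    rw [AlgHom.comp_apply, aeval_X, aeval_X, map_sum, Finset.sum_apply]
    refine Finset.sum_congr rfl fun k _ => ?_
    rw [map_mul, aeval_C, aeval_X, Pi.smul_apply, smul_eq_mul, mul_comm]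
    rfl
  have h2 := DFunLike.congr_fun h1 q
  rw [← h2, AlgHom.comp_apply]
  rfl

theorem R8_step {m u i : ℕ}
    (hu : ∀ q : Fin m → MvPolynomial (Fin u) F, (∀ i, (q i).IsHomogeneous 2) →
      ∃ x : Fin u → F, x ≠ 0 ∧ ∀ i, eval x (q i) = 0)
    {q : Fin m → MvPolynomial (Fin N) F} (hq : ∀ i, (q i).IsHomogeneous 2)
    {V : Submodule F (Fin N → F)} (hV : u + (m + 1) * i ≤ Module.finrank F V)
    {w : Fin i → Fin N → F} (hw : LinearIndependent F w) (hwV : ∀ j, w j ∈ V) :
    ∃ x, x ∉ Submodule.span F (Set.range w) ∧ x ∈ V ∧ (∀ p, aeval x (q p) = (0 : F)) ∧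
      ∀ p j, pol (q p) x (w j) = 0 := by
  classical
  -- the space orthogonal to the `w j`
  let L : (Fin N → F) →ₗ[F] (Fin m × Fin i → F) := LinearMap.pi fun pj => R8_L (q pj.1) (w pj.2)
  obtain ⟨H, hH⟩ := Submodule.exists_isCompl (Submodule.span F (Set.range w))
  have hsup : ∀ A B : Submodule F (Fin N → F),
      Module.finrank F A + Module.finrank F B ≤
        Module.finrank F (A ⊓ B : Submodule F (Fin N → F)) + N := by
    intro A B
    have h1 := Submodule.finrank_sup_add_finrank_inf_eq A B
    have h2 : Module.finrank F (A ⊔ B : Submodule F (Fin N → F)) ≤ N := by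
      have := Submodule.finrank_le (A ⊔ B)
      rwa [Module.finrank_fin_fun] at this
    omega
  have hfH : Module.finrank F H + i = N := by
    have h1 := Submodule.finrank_add_eq_of_isCompl hH
    rw [finrank_span_eq_card hw, Module.finrank_fin_fun, Fintype.card_fin] at h1
    omega
  have hfL : N ≤ Module.finrank F (LinearMap.ker L) + m * i := by
    have h1 := LinearMap.finrank_range_add_finrank_ker L
    have h2 : Module.finrank F (LinearMap.range L) ≤ m * i := by
      have := Submodule.finrank_le (LinearMap.range L)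
      rwa [Module.finrank_fintype_fun_eq_card, Fintype.card_prod, Fintype.card_fin,
        Fintype.card_fin] at this
    rw [Module.finrank_fin_fun] at h1
    omega
  have hfU : u ≤ Module.finrank F (V ⊓ LinearMap.ker L ⊓ H : Submodule F (Fin N → F)) := by
    have h1 := hsup V (LinearMap.ker L)
    have h2 := hsup (V ⊓ LinearMap.ker L) H
    have h3 : (m + 1) * i = m * i + i := by ring
    omega
  set U := (V ⊓ LinearMap.ker L ⊓ H : Submodule F (Fin N → F)) with hU
  let b0 := Module.finBasis F U
  let b : Fin u → (Fin N → F) := fun j => (b0 (Fin.castLE hfU j) : Fin N → F)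
  have hb : LinearIndependent F b := by
    have h1 : LinearIndependent F fun j : Fin u => b0 (Fin.castLE hfU j) :=
      b0.linearIndependent.comp _ (Fin.castLE_injective hfU)
    exact h1.map' U.subtype (Submodule.ker_subtype U)
  obtain ⟨t, ht0, ht⟩ := hu
    (fun p => aeval (fun l => ∑ k, C (b k l) * X k : Fin N → MvPolynomial (Fin u) F) (q p))
    (fun p => by
      have h1 := (hq p).aeval (fun l => ∑ k, C (b k l) * X k : Fin N → MvPolynomial (Fin u) F)
        (n := 1) (fun l => IsHomogeneous.sum _ _ _ fun k _ => by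
          have h2 := (isHomogeneous_C (Fin u) (b k l)).mul (isHomogeneous_X F k)
          rwa [zero_add] at h2)
      rwa [one_mul] at h1)
  have hxU : ∑ k, t k • b k ∈ U := U.sum_mem fun j _ => U.smul_mem _ (b0 (Fin.castLE hfU j)).2
  have hx0 : ∑ k, t k • b k ≠ 0 := by
    intro h
    apply ht0
    funext j
    exact Fintype.linearIndependent_iff.1 hb t h j
  refine ⟨∑ k, t k • b k, fun h => hx0 ?_, hxU.1.1, fun p => ?_, fun p j => ?_⟩
  · exact Submodule.disjoint_def.1 hH.disjoint _ h hxU.2
  · rw [← R8_subst]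
    exact ht p
  · have h1 : L (∑ k, t k • b k) = 0 := hxU.1.2
    have h2 := congrFun h1 (p, j)
    rw [← R8_L_apply]
    exact h2

theorem R8_ind {m u : ℕ}
    (hu : ∀ q : Fin m → MvPolynomial (Fin u) F, (∀ i, (q i).IsHomogeneous 2) →
      ∃ x : Fin u → F, x ≠ 0 ∧ ∀ i, eval x (q i) = 0)
    {q : Fin m → MvPolynomial (Fin N) F} (hq : ∀ i, (q i).IsHomogeneous 2)
    {V : Submodule F (Fin N → F)} (hV : u + m ^ 2 ≤ Module.finrank F V + 1) :
    ∀ i ≤ m, ∃ w : Fin i → Fin N → F, LinearIndependent F w ∧ (∀ j, w j ∈ V) ∧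
      (∀ p j, aeval (w j) (q p) = (0 : F)) ∧ ∀ p j j', pol (q p) (w j) (w j') = 0 := by
  intro i
  induction i with
  | zero =>
    intro _
    exact ⟨Fin.elim0, linearIndependent_empty_type, fun j => j.elim0, fun _ j => j.elim0,
      fun _ j => j.elim0⟩
  | succ i ih =>
    intro hi
    obtain ⟨w, h1, h2, h3, h4⟩ := ih (by omega)
    have h5 : (m + 1) * i + 1 ≤ m ^ 2 := by
      obtain ⟨d, rfl⟩ := Nat.exists_eq_add_of_le hi
      nlinarith
    obtain ⟨x, g1, g2, g3, g4⟩ := R8_step hu hq (V := V) (by omega) h1 h2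
    refine ⟨Fin.snoc w x, linearIndependent_finSnoc.2 ⟨h1, g1⟩, ?_, ?_, ?_⟩
    · intro j
      refine Fin.lastCases ?_ (fun j => ?_) j
      · rw [Fin.snoc_last]
        exact g2
      · rw [Fin.snoc_castSucc]
        exact h2 j
    · intro p j
      refine Fin.lastCases ?_ (fun j => ?_) j
      · rw [Fin.snoc_last]
        exact g3 p
      · rw [Fin.snoc_castSucc]
        exact h3 p j
    · intro p j j'
      refine Fin.lastCases ?_ (fun j => ?_) j
      · refine Fin.lastCases ?_ (fun j' => ?_) j'
        · rw [Fin.snoc_last]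
          exact R8_self (hq p) (g3 p)
        · rw [Fin.snoc_last, Fin.snoc_castSucc]
          exact g4 p j'
      · refine Fin.lastCases ?_ (fun j' => ?_) j'
        · rw [Fin.snoc_last, Fin.snoc_castSucc, pol_comm (q p) (hq p)]
          exact g4 p j
        · rw [Fin.snoc_castSucc, Fin.snoc_castSucc]
          exact h4 p j j'

end R8

theorem exists_isotropic {F : Type} [Field F] {N m u : ℕ}
    (hu : ∀ q : Fin m → MvPolynomial (Fin u) F, (∀ i, (q i).IsHomogeneous 2) →
      ∃ x : Fin u → F, x ≠ 0 ∧ ∀ i, eval x (q i) = 0)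
    (q : Fin m → MvPolynomial (Fin N) F) (hq : ∀ i, (q i).IsHomogeneous 2)
    (V : Submodule F (Fin N → F)) (hV : u + m ^ 2 ≤ Module.finrank F V + 1) :
    ∃ w : Fin m → Fin N → F, LinearIndependent F w ∧ (∀ j, w j ∈ V) ∧
      ∀ (c : Fin m → F) i, eval (∑ j, c j • w j) (q i) = 0 := by
  obtain ⟨w, h1, h2, h3, h4⟩ := R8_ind hu hq hV m le_rfl
  exact ⟨w, h1, h2, fun c i => R8_sum hq h3 h4 c i⟩

end Pool.Agent.LibHP.CIM
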