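import Pool.Agent.LibCIM.TDefs

set_option autoImplicit false
open MvPolynomial

namespace Pool.Agent.LibHP.CIM

/-! # Row T1 (ONLY MATHLIB, MEDIUM): first properties of the Taylor coefficients

`tl` is a value of `aeval`, so: `tl_add`, `tl_mul`, `tl_C` by `map_add`, ...; naturality `tc_map`: `Polynomial.mapAlgHom f` composed with `aeval` (`MvPolynomial.comp_aeval`), `Polynomial.coeff_map`. `tc_zero`: evaluate at `t = 0` (`Polynomial.coeff_zero_eq_eval_zero`). `tc_top`, `tc_gt`: by
`MvPolynomial` sums of monomials, or: `F(P + t v)` for a form `G` of degree `d`: it is enough to treat monomials (products of `d` linear factors; induction with `Polynomial.coeff_mul_degree_add_degree`-like lemmas `Polynomial.coeff_mul_of_natDegree_le`), with `MvPolynomial.induction_on'''` or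
`(MvPolynomial.support_sum_monomial_coeff G)`. `gr_top`, `gr_zero`, `gr_gt` follow (`IsHomogeneous.pderiv`). `tc_smul`: `tl G P (r • v) = (tl G P v).comp (C r * X)` or `Polynomial.scale...`; `cf_*`: naturality for `MvPolynomial.aeval v : MvPolynomial (Fin (n+1)) R → R'`. `cf_hom`: from `aeval` of homogeneous
polynomials: the coefficient of `t ^ i` of a product of linear forms `C (P l) + t X l` is homogeneous of degree `i`: by induction on `G` (sums, products: `Polynomial.coeff_mul`, `IsHomogeneous.mul`, `.sum`). -/

variable {k : Type} [Field k] {n : ℕ} {R R' : Type} [CommRing R] [Algebra k R] [CommRing R'] [Algebra k R']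

theorem T1_natDegree_lin (a b : R) :
    (Polynomial.C a + Polynomial.X * Polynomial.C b : Polynomial R).natDegree ≤ 1 := by
  refine (Polynomial.natDegree_add_le _ _).trans (max_le ?_ ?_)
  · rw [Polynomial.natDegree_C]; exact Nat.zero_le _
  · refine (Polynomial.natDegree_mul_le).trans ?_
    rw [Polynomial.natDegree_C]
    exact Polynomial.natDegree_X_le

theorem T1_coeff_lin_zero (a b : R) :
    (Polynomial.C a + Polynomial.X * Polynomial.C b : Polynomial R).coeff 0 = a := by
  simp

theorem T1_coeff_lin_one (a b : R) :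
    (Polynomial.C a + Polynomial.X * Polynomial.C b : Polynomial R).coeff 1 = b := by
  simp [Polynomial.coeff_C]

theorem T1_prod (P v : Fin (n + 1) → R) (s : Fin (n + 1) → ℕ) (S : Finset (Fin (n + 1))) :
    (∏ l ∈ S, (Polynomial.C (P l) + Polynomial.X * Polynomial.C (v l) : Polynomial R) ^ s l).natDegree
      ≤ ∑ l ∈ S, s l ∧
    (∏ l ∈ S, (Polynomial.C (P l) + Polynomial.X * Polynomial.C (v l) : Polynomial R) ^ s l).coeff
      (∑ l ∈ S, s l) = ∏ l ∈ S, v l ^ s l := by
  classical
  induction S using Finset.induction_on with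
  | empty => simp
  | insert l S hl ih =>
    have h1 : ((Polynomial.C (P l) + Polynomial.X * Polynomial.C (v l) : Polynomial R) ^ s l).natDegree
        ≤ s l := by
      have := Polynomial.natDegree_pow_le_of_le (s l) (T1_natDegree_lin (P l) (v l))
      simpa using this
    have h2 : ((Polynomial.C (P l) + Polynomial.X * Polynomial.C (v l) : Polynomial R) ^ s l).coeff
        (s l) = v l ^ s l := by
      have := Polynomial.coeff_pow_of_natDegree_le (m := s l) (T1_natDegree_lin (P l) (v l))
      rw [mul_one, T1_coeff_lin_one] at this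
      exact this
    rw [Finset.prod_insert hl, Finset.sum_insert hl, Finset.prod_insert hl]
    refine ⟨(Polynomial.natDegree_mul_le).trans (add_le_add h1 ih.1), ?_⟩
    rw [Polynomial.coeff_mul_add_eq_of_natDegree_le h1 ih.1, h2, ih.2]

theorem T1_top {G : MvPolynomial (Fin (n + 1)) k} {d : ℕ} (hG : G.IsHomogeneous d)
    (P v : Fin (n + 1) → R) :
    (tl G P v).natDegree ≤ d ∧ (tl G P v).coeff d = aeval v G := by
  classical
  have e1 : tl G P v = ∑ s ∈ G.support, algebraMap k (Polynomial R) (coeff s G) *
      ∏ l, (Polynomial.C (P l) + Polynomial.X * Polynomial.C (v l) : Polynomial R) ^ s l := by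
    unfold tl
    rw [aeval_def, eval₂_eq']
  have e2 : aeval v G = ∑ s ∈ G.support, algebraMap k R (coeff s G) * ∏ l, v l ^ s l := by
    rw [aeval_def, eval₂_eq']
  have hs : ∀ s ∈ G.support, ∑ l, s l = d := by
    intro s hs
    have := hG (mem_support_iff.1 hs)
    rw [Finsupp.weight_apply] at this
    rw [← this, Finsupp.sum_fintype]
    · simp
    · intro i; simp
  have e3 : ∀ s ∈ G.support, (algebraMap k (Polynomial R) (coeff s G) *
      ∏ l, (Polynomial.C (P l) + Polynomial.X * Polynomial.C (v l) : Polynomial R) ^ s l).natDegree ≤ d ∧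
      (algebraMap k (Polynomial R) (coeff s G) *
      ∏ l, (Polynomial.C (P l) + Polynomial.X * Polynomial.C (v l) : Polynomial R) ^ s l).coeff d
        = algebraMap k R (coeff s G) * ∏ l, v l ^ s l := by
    intro s hs'
    have h := T1_prod P v (fun l => s l) Finset.univ
    rw [hs s hs'] at h
    rw [Polynomial.algebraMap_apply]
    refine ⟨(Polynomial.natDegree_C_mul_le _ _).trans h.1, ?_⟩
    rw [Polynomial.coeff_C_mul, h.2]
  constructor
  · rw [e1]
    exact Polynomial.natDegree_sum_le_of_forall_le _ _ (fun s hs' => (e3 s hs').1)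
  · rw [e1, e2, Polynomial.finsetSum_coeff]
    exact Finset.sum_congr rfl (fun s hs' => (e3 s hs').2)

theorem tc_map (f : R →ₐ[k] R') (G : MvPolynomial (Fin (n + 1)) k) (P v : Fin (n + 1) → R) (i : ℕ) :
    f (tc G P v i) = tc G (fun l => f (P l)) (fun l => f (v l)) i := by
  have h : Polynomial.mapAlgHom f (tl G P v) = tl G (fun l => f (P l)) (fun l => f (v l)) := by
    unfold tl
    rw [← AlgHom.comp_apply, MvPolynomial.comp_aeval]
    congr 1
    congr 1
    funext l
    simp
  unfold tc
  rw [← h]
  simp [Polynomial.coeff_map]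

theorem tc_zero (G : MvPolynomial (Fin (n + 1)) k) (P v : Fin (n + 1) → R) :
    tc G P v 0 = aeval P G := by
  induction G using MvPolynomial.induction_on with
  | C a =>
    simp [tc, tl, Polynomial.algebraMap_apply]
  | add p q hp hq =>
    have : tc (p + q) P v 0 = tc p P v 0 + tc q P v 0 := by
      simp [tc, tl]
    rw [this, hp, hq, map_add]
  | mul_X p l hp =>
    have : tc (p * X l) P v 0 = tc p P v 0 * P l := by
      unfold tc tl
      rw [map_mul, aeval_X, Polynomial.mul_coeff_zero, T1_coeff_lin_zero]
    rw [this, hp, map_mul, aeval_X]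

theorem tc_top {G : MvPolynomial (Fin (n + 1)) k} {d : ℕ} (hG : G.IsHomogeneous d)
    (P v : Fin (n + 1) → R) : tc G P v d = aeval v G :=
  (T1_top hG P v).2

theorem tc_gt {G : MvPolynomial (Fin (n + 1)) k} {d : ℕ} (hG : G.IsHomogeneous d)
    (P v : Fin (n + 1) → R) (i : ℕ) (hi : d < i) : tc G P v i = 0 :=
  Polynomial.coeff_eq_zero_of_natDegree_lt ((T1_top hG P v).1.trans_lt hi)

theorem gr_zero (G : MvPolynomial (Fin (n + 1)) k) (P v : Fin (n + 1) → R) (l : Fin (n + 1)) :
    gr G P v 0 l = aeval P (pderiv l G) :=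
  tc_zero _ P v

theorem gr_top {G : MvPolynomial (Fin (n + 1)) k} {d : ℕ} (hG : G.IsHomogeneous (d + 1))
    (P v : Fin (n + 1) → R) (l : Fin (n + 1)) : gr G P v d l = aeval v (pderiv l G) := by
  have h : (pderiv l G).IsHomogeneous d := by simpa using hG.pderiv (i := l)
  exact tc_top h P v

theorem gr_gt {G : MvPolynomial (Fin (n + 1)) k} {d : ℕ} (hG : G.IsHomogeneous d)
    (P v : Fin (n + 1) → R) (i : ℕ) (hi : d ≤ i) (l : Fin (n + 1)) : gr G P v i l = 0 := by
  rcases Nat.eq_zero_or_pos d with h0 | h0
  · subst h0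
    have h1 : pderiv l G = 0 := by
      have h2 : G = C (coeff 0 G) := by
        have := (totalDegree_eq_zero_iff_eq_C (p := G)).1 ?_
        · exact this
        · rcases eq_or_ne G 0 with h | h
          · rw [h]; simp
          · exact hG.totalDegree h
      rw [h2, pderiv_C]
    show tc (pderiv l G) P v i = 0
    rw [h1]
    simp [tc, tl]
  · have h : (pderiv l G).IsHomogeneous (d - 1) := hG.pderiv
    exact tc_gt h P v i (by omega)

theorem tc_smul (G : MvPolynomial (Fin (n + 1)) k) (P v : Fin (n + 1) → R) (r : R) (i : ℕ) :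
    tc G P (r • v) i = r ^ i * tc G P v i := by
  induction G using MvPolynomial.induction_on generalizing i with
  | C a =>
    have h : ∀ w : Fin (n + 1) → R, tc (C a : MvPolynomial (Fin (n + 1)) k) P w i
        = (Polynomial.C (algebraMap k R a)).coeff i := by
      intro w
      unfold tc tl
      rw [aeval_C, Polynomial.algebraMap_apply]
    rw [h, h, Polynomial.coeff_C]
    split_ifs with h0
    · rw [h0]; simp
    · simp
  | add p q hp hq =>
    have h : ∀ w : Fin (n + 1) → R, tc (p + q) P w i = tc p P w i + tc q P w i := by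
      intro w; simp [tc, tl]
    rw [h, h, hp, hq]; ring
  | mul_X p l hp =>
    have h0 : ∀ w : Fin (n + 1) → R, tc (p * X l) P w 0 = tc p P w 0 * P l := by
      intro w
      unfold tc tl
      rw [map_mul, aeval_X, Polynomial.mul_coeff_zero, T1_coeff_lin_zero]
    have h1 : ∀ (w : Fin (n + 1) → R) (j : ℕ), tc (p * X l) P w (j + 1)
        = tc p P w (j + 1) * P l + tc p P w j * w l := by
      intro w j
      unfold tc tl
      rw [map_mul, aeval_X, mul_add, Polynomial.coeff_add, Polynomial.coeff_mul_C, ← mul_assoc,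
        Polynomial.coeff_mul_C, Polynomial.coeff_mul_X]
    rcases i with _ | j
    · rw [h0, h0, hp]; ring
    · rw [h1, h1, hp, hp, Pi.smul_apply, smul_eq_mul]; ring

/-- evaluation of the forms `cf G P i`, with values in any algebra -/
theorem aeval_cf {R'' : Type} [CommRing R''] [Algebra k R''] [Algebra R R''] [IsScalarTower k R R'']
    (G : MvPolynomial (Fin (n + 1)) k) (P : Fin (n + 1) → R) (i : ℕ) (v : Fin (n + 1) → R'') :
    aeval v (cf G P i) = tc G (fun l => algebraMap R R'' (P l)) v i := by
  have h := tc_map ((aeval v : MvPolynomial (Fin (n + 1)) R →ₐ[R] R'').restrictScalars k) G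
    (fun l => C (P l)) (fun l => X l) i
  simp only [AlgHom.restrictScalars_apply, aeval_C, aeval_X] at h
  exact h

theorem cf_hom (G : MvPolynomial (Fin (n + 1)) k) (P : Fin (n + 1) → R) (i : ℕ) :
    (cf G P i).IsHomogeneous i := by
  induction G using MvPolynomial.induction_on generalizing i with
  | C a =>
    have h : cf (C a : MvPolynomial (Fin (n + 1)) k) P i
        = (Polynomial.C (C (algebraMap k R a) : MvPolynomial (Fin (n + 1)) R)).coeff i := by
      unfold cf tc tl
      rw [aeval_C, Polynomial.algebraMap_apply, MvPolynomial.algebraMap_apply]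
    rw [h, Polynomial.coeff_C]
    split_ifs with h0
    · rw [h0]; exact isHomogeneous_C _ _
    · exact isHomogeneous_zero _ _ _
  | add p q hp hq =>
    have h : cf (p + q) P i = cf p P i + cf q P i := by
      simp [cf, tc, tl]
    rw [h]
    exact (hp i).add (hq i)
  | mul_X p l hp =>
    rcases i with _ | j
    · have h0 : cf (p * X l) P 0 = cf p P 0 * C (P l) := by
        unfold cf tc tl
        rw [map_mul, aeval_X, Polynomial.mul_coeff_zero, T1_coeff_lin_zero]
      rw [h0]
      exact (hp 0).mul (isHomogeneous_C _ _)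
    · have h1 : cf (p * X l) P (j + 1) = cf p P (j + 1) * C (P l) + cf p P j * X l := by
        unfold cf tc tl
        rw [map_mul, aeval_X, mul_add, Polynomial.coeff_add, Polynomial.coeff_mul_C, ← mul_assoc,
          Polynomial.coeff_mul_C, Polynomial.coeff_mul_X]
      rw [h1]
      exact ((hp (j + 1)).mul (isHomogeneous_C _ _)).add ((hp j).mul (isHomogeneous_X _ _))

theorem map_cf {R'' : Type} [CommRing R''] [Algebra k R''] [Algebra R R''] [IsScalarTower k R R'']
    (G : MvPolynomial (Fin (n + 1)) k) (P : Fin (n + 1) → R) (i : ℕ) :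
    MvPolynomial.map (algebraMap R R'') (cf G P i) = cf G (fun l => algebraMap R R'' (P l)) i := by
  have h := tc_map (MvPolynomial.mapAlgHom (σ := Fin (n + 1)) (IsScalarTower.toAlgHom k R R'')) G
    (fun l => C (P l)) (fun l => X l) i
  have e1 : ∀ p : MvPolynomial (Fin (n + 1)) R,
      MvPolynomial.mapAlgHom (σ := Fin (n + 1)) (IsScalarTower.toAlgHom k R R'') p
        = MvPolynomial.map (algebraMap R R'') p := fun p => rfl
  simp only [e1, MvPolynomial.map_C, MvPolynomial.map_X] at h
  exact h

end Pool.Agent.LibHP.CIM
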