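import Pool.Agent.LibCIM.T1

set_option autoImplicit false
open MvPolynomial

namespace Pool.Agent.LibHP.CIM

/-! # Row T2: derivatives of the Taylor coefficients -/

variable {k : Type} [Field k] {n : ℕ} {R : Type} [CommRing R] [Algebra k R]

/-- chain rule for an additive map with the Leibniz rule -/
private theorem T2_chain {A : Type} [CommRing A] [Algebra k A] (D : A → A)
    (hadd : ∀ a b, D (a + b) = D a + D b) (hmul : ∀ a b, D (a * b) = a * D b + D a * b)
    (hC : ∀ c : k, D (algebraMap k A c) = 0) (φ : Fin (n + 1) → A)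
    (G : MvPolynomial (Fin (n + 1)) k) :
    D (aeval φ G) = ∑ l, aeval φ (pderiv l G) * D (φ l) := by
  induction G using MvPolynomial.induction_on with
  | C a =>
    rw [aeval_C, hC]
    symm
    apply Finset.sum_eq_zero
    intro l _
    rw [pderiv_C, map_zero, zero_mul]
  | add p q hp hq =>
    rw [map_add, hadd, hp, hq, ← Finset.sum_add_distrib]
    refine Finset.sum_congr rfl fun l _ => ?_
    rw [map_add, map_add, add_mul]
  | mul_X p m hp =>
    rw [map_mul, aeval_X, hmul, hp]
    have h1 : ∀ l, aeval φ (pderiv l (p * X m)) * D (φ l) =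
        (aeval φ (pderiv l p) * D (φ l)) * φ m +
          (if l = m then aeval φ p * D (φ l) else 0) := by
      intro l
      rw [pderiv_mul, pderiv_X, map_add, map_mul, map_mul, aeval_X]
      by_cases hl : l = m
      · subst hl
        rw [Pi.single_eq_same, if_pos rfl, map_one]
        ring
      · rw [Pi.single_eq_of_ne' hl, if_neg hl, map_zero]
        ring
    rw [Finset.sum_congr rfl fun l _ => h1 l, Finset.sum_add_distrib, Finset.sum_ite_eq',
      if_pos (Finset.mem_univ _), Finset.sum_mul]
    ring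

theorem gr_dot_v (G : MvPolynomial (Fin (n + 1)) k) (P v : Fin (n + 1) → R) (i : ℕ) :
    ∑ l, gr G P v i l * v l = (i + 1) * tc G P v (i + 1) := by
  have h1 := T2_chain (k := k) (A := Polynomial R) (fun q => Polynomial.derivative q)
    (fun a b => Polynomial.derivative_add)
    (fun a b => by
      rw [Polynomial.derivative_mul]
      ring)
    (fun c => by
      rw [IsScalarTower.algebraMap_apply k R (Polynomial R), Polynomial.algebraMap_eq,
        Polynomial.derivative_C])
    (fun l => Polynomial.C (P l) + Polynomial.X * Polynomial.C (v l)) G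
  have h2 : ∀ l : Fin (n + 1), Polynomial.derivative
      (Polynomial.C (P l) + Polynomial.X * Polynomial.C (v l)) = Polynomial.C (v l) := by
    intro l
    simp
  simp only [h2] at h1
  have h3 := congrArg (fun q => Polynomial.coeff q i) h1
  rw [Polynomial.coeff_derivative, Polynomial.finsetSum_coeff] at h3
  simp only [Polynomial.coeff_mul_C] at h3
  unfold gr tc tl
  rw [← h3]
  ring

theorem gr_dot_P {G : MvPolynomial (Fin (n + 1)) k} {d : ℕ} (hG : G.IsHomogeneous d)
    (P v : Fin (n + 1) → R) (i : ℕ) :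
    ∑ l, gr G P v i l * P l + i * tc G P v i = d * tc G P v i := by
  have h1 := congrArg (aeval (fun l => Polynomial.C (P l) + Polynomial.X * Polynomial.C (v l)))
    hG.sum_X_mul_pderiv
  rw [map_sum, map_nsmul] at h1
  simp only [map_mul, aeval_X] at h1
  have h3 := congrArg (fun q => Polynomial.coeff q i) h1
  rw [Polynomial.finsetSum_coeff, Polynomial.coeff_smul, nsmul_eq_mul] at h3
  have h4 : ∀ l, ((Polynomial.C (P l) + Polynomial.X * Polynomial.C (v l)) *
      aeval (fun l => Polynomial.C (P l) + Polynomial.X * Polynomial.C (v l))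
        (pderiv l G)).coeff i = gr G P v i l * P l +
        (Polynomial.X * (Polynomial.C (v l) * tl (pderiv l G) P v)).coeff i := by
    intro l
    rw [add_mul, Polynomial.coeff_add, Polynomial.coeff_C_mul, mul_assoc]
    unfold gr tc tl
    ring
  rw [Finset.sum_congr rfl fun l _ => h4 l, Finset.sum_add_distrib] at h3
  have h5 : ∑ l, (Polynomial.X * (Polynomial.C (v l) * tl (pderiv l G) P v)).coeff i =
      i * tc G P v i := by
    rcases i with _ | i
    · simp
    · rw [Finset.sum_congr rfl fun l _ => Polynomial.coeff_X_mul _ _]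
      have h6 := gr_dot_v G P v i
      push_cast
      rw [← h6]
      refine Finset.sum_congr rfl fun l _ => ?_
      rw [Polynomial.coeff_C_mul, mul_comm]
      rfl
  rw [h5] at h3
  exact h3

private noncomputable def T2_D (δ : R → R) (q : Polynomial R) : Polynomial R :=
  ∑ i ∈ Finset.range (q.natDegree + 1), Polynomial.monomial i (δ (q.coeff i))

private theorem T2_D_coeff (δ : R → R) (h0 : δ 0 = 0) (q : Polynomial R) (i : ℕ) :
    (T2_D δ q).coeff i = δ (q.coeff i) := by
  unfold T2_D
  rw [Polynomial.finsetSum_coeff]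
  simp only [Polynomial.coeff_monomial]
  rw [Finset.sum_ite_eq']
  split_ifs with h
  · rfl
  · rw [Finset.mem_range, not_lt] at h
    rw [Polynomial.coeff_eq_zero_of_natDegree_lt (by omega), h0]

private theorem T2_der (δ : Derivation k R R) (G : MvPolynomial (Fin (n + 1)) k)
    (P v : Fin (n + 1) → R) (i : ℕ) :
    δ (tc G P v i) = (∑ l, tl (pderiv l G) P v * (Polynomial.C (δ (P l)) +
      Polynomial.X * Polynomial.C (δ (v l)))).coeff i := by
  have h0 : δ 0 = 0 := map_zero δ
  have hc := T2_D_coeff (fun r => δ r) h0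
  have h1 := T2_chain (k := k) (A := Polynomial R) (T2_D (fun r => δ r))
    (fun a b => by
      ext j
      rw [hc, Polynomial.coeff_add, Polynomial.coeff_add, hc, hc, map_add])
    (fun a b => by
      ext j
      rw [hc, Polynomial.coeff_mul, map_sum, Polynomial.coeff_add, Polynomial.coeff_mul,
        Polynomial.coeff_mul, ← Finset.sum_add_distrib]
      refine Finset.sum_congr rfl fun x _ => ?_
      rw [hc, hc, δ.leibniz, smul_eq_mul, smul_eq_mul]
      ring)
    (fun c => by
      ext j
      rw [hc, IsScalarTower.algebraMap_apply k R (Polynomial R), Polynomial.algebraMap_eq,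
        Polynomial.coeff_C, Polynomial.coeff_zero]
      split_ifs
      · exact δ.map_algebraMap c
      · exact h0)
    (fun l => Polynomial.C (P l) + Polynomial.X * Polynomial.C (v l)) G
  have h2 : ∀ l : Fin (n + 1), T2_D (fun r => δ r)
      (Polynomial.C (P l) + Polynomial.X * Polynomial.C (v l)) =
      Polynomial.C (δ (P l)) + Polynomial.X * Polynomial.C (δ (v l)) := by
    intro l
    ext j
    rw [hc, Polynomial.coeff_add, Polynomial.coeff_add, Polynomial.coeff_mul_C,
      Polynomial.coeff_mul_C, Polynomial.coeff_C, Polynomial.coeff_C, Polynomial.coeff_X, map_add]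
    congr 1
    · split_ifs
      · rfl
      · exact h0
    · split_ifs
      · rw [one_mul, one_mul]
      · rw [zero_mul, zero_mul, h0]
  simp only [h2] at h1
  have h3 := congrArg (fun q => Polynomial.coeff q i) h1
  rw [hc] at h3
  exact h3

theorem tc_der_zero (δ : Derivation k R R) (G : MvPolynomial (Fin (n + 1)) k)
    (P v : Fin (n + 1) → R) : δ (tc G P v 0) = ∑ l, gr G P v 0 l * δ (P l) := by
  rw [T2_der, Polynomial.finsetSum_coeff]
  refine Finset.sum_congr rfl fun l _ => ?_
  rw [Polynomial.mul_coeff_zero]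
  unfold gr tc
  simp

theorem tc_der_succ (δ : Derivation k R R) (G : MvPolynomial (Fin (n + 1)) k)
    (P v : Fin (n + 1) → R) (i : ℕ) :
    δ (tc G P v (i + 1)) = ∑ l, gr G P v (i + 1) l * δ (P l) + ∑ l, gr G P v i l * δ (v l) := by
  rw [T2_der, Polynomial.finsetSum_coeff, ← Finset.sum_add_distrib]
  refine Finset.sum_congr rfl fun l _ => ?_
  have h1 : tl (pderiv l G) P v * (Polynomial.C (δ (P l)) +
      Polynomial.X * Polynomial.C (δ (v l))) = tl (pderiv l G) P v * Polynomial.C (δ (P l)) +
      Polynomial.X * (tl (pderiv l G) P v * Polynomial.C (δ (v l))) := by ring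
  rw [h1, Polynomial.coeff_add, Polynomial.coeff_mul_C, Polynomial.coeff_X_mul,
    Polynomial.coeff_mul_C]
  rfl

/-- scaling of a homogeneous polynomial -/
private theorem T2_scale {B : Type} [CommRing B] (θ : k →+* B)
    {G : MvPolynomial (Fin (n + 1)) k} {d : ℕ} (hG : G.IsHomogeneous d) (u : B)
    (y : Fin (n + 1) → B) :
    eval₂Hom θ (fun l => u * y l) G = u ^ d * eval₂Hom θ y G := by
  rw [coe_eval₂Hom, coe_eval₂Hom, eval₂_eq', eval₂_eq', Finset.mul_sum]
  refine Finset.sum_congr rfl fun m hm => ?_
  have h1 : ∏ i, (u * y i) ^ m i = u ^ d * ∏ i, y i ^ m i := by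
    simp only [mul_pow]
    rw [Finset.prod_mul_distrib, Finset.prod_pow_eq_pow_sum]
    congr 2
    have h2 := hG (mem_support_iff.1 hm)
    rw [Finsupp.weight_apply, Finsupp.sum_fintype] at h2
    · simpa using h2
    · intro i
      simp
  rw [h1]
  ring

private theorem T2_shift {G : MvPolynomial (Fin (n + 1)) k} {d : ℕ} (hG : G.IsHomogeneous d)
    (P v : Fin (n + 1) → R) (c : R) (w : PowerSeries R)
    (hw : (1 + PowerSeries.C c * PowerSeries.X) * w = 1) (j N : ℕ)
    (hN : (tl G P v).natDegree < N) :
    tc G P (v + c • P) j = ∑ i ∈ Finset.range N, tc G P v i *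
      (if i ≤ j then PowerSeries.coeff (j - i)
        (w ^ i * (1 + PowerSeries.C c * PowerSeries.X) ^ d) else 0) := by
  obtain ⟨u, hu⟩ : ∃ u : PowerSeries R, u = 1 + PowerSeries.C c * PowerSeries.X := ⟨_, rfl⟩
  rw [← hu] at hw ⊢
  have hθ1 : (Polynomial.coeToPowerSeries.ringHom (R := R)).comp (algebraMap k (Polynomial R)) =
      (PowerSeries.C (R := R)).comp (algebraMap k R) := by
    ext a
    rw [RingHom.comp_apply, RingHom.comp_apply, IsScalarTower.algebraMap_apply k R (Polynomial R),
      Polynomial.algebraMap_eq, Polynomial.coeToPowerSeries.ringHom_apply, Polynomial.coe_C]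
  have hθ2 : (Polynomial.eval₂RingHom (PowerSeries.C (R := R)) (PowerSeries.X * w)).comp
      (algebraMap k (Polynomial R)) = (PowerSeries.C (R := R)).comp (algebraMap k R) := by
    ext a
    rw [RingHom.comp_apply, RingHom.comp_apply, IsScalarTower.algebraMap_apply k R (Polynomial R),
      Polynomial.algebraMap_eq, Polynomial.coe_eval₂RingHom, Polynomial.eval₂_C]
  have h1 : ((tl G P (v + c • P) : Polynomial R) : PowerSeries R) =
      u ^ d * Polynomial.eval₂RingHom (PowerSeries.C (R := R)) (PowerSeries.X * w) (tl G P v) := by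
    rw [← Polynomial.coeToPowerSeries.ringHom_apply]
    unfold tl
    rw [map_aeval, map_aeval, hθ1, hθ2, ← T2_scale _ hG]
    congr 2
    funext l
    rw [Polynomial.coeToPowerSeries.ringHom_apply, Polynomial.coe_add, Polynomial.coe_mul,
      Polynomial.coe_C, Polynomial.coe_C, Polynomial.coe_X, Polynomial.coe_eval₂RingHom,
      Polynomial.eval₂_add, Polynomial.eval₂_mul, Polynomial.eval₂_C, Polynomial.eval₂_C,
      Polynomial.eval₂_X, Pi.add_apply, Pi.smul_apply, smul_eq_mul, map_add, map_mul]
    have h2 : u * (PowerSeries.C (P l) + PowerSeries.X * w * PowerSeries.C (v l)) =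
        u * PowerSeries.C (P l) + (u * w) * (PowerSeries.X * PowerSeries.C (v l)) := by ring
    rw [h2, hw, hu]
    ring
  have h3 : tc G P (v + c • P) j = PowerSeries.coeff j
      (((tl G P (v + c • P) : Polynomial R) : PowerSeries R)) := by
    rw [Polynomial.coeff_coe]
    rfl
  rw [h3, h1, Polynomial.coe_eval₂RingHom, Polynomial.eval₂_eq_sum_range' _ hN, Finset.mul_sum,
    map_sum]
  refine Finset.sum_congr rfl fun i _ => ?_
  have h4 : u ^ d * (PowerSeries.C ((tl G P v).coeff i) * (PowerSeries.X * w) ^ i) =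
      PowerSeries.C ((tl G P v).coeff i) * (PowerSeries.X ^ i * (w ^ i * u ^ d)) := by
    rw [mul_pow]
    ring
  rw [h4, PowerSeries.coeff_C_mul, PowerSeries.coeff_X_pow_mul']
  rfl

private theorem T2_inv (c : R) : ∃ w : PowerSeries R,
    (1 + PowerSeries.C c * PowerSeries.X) * w = 1 :=
  ⟨_, PowerSeries.mul_invOfUnit (1 + PowerSeries.C c * PowerSeries.X) 1 (by simp)⟩

private theorem T2_coeff_zero (c : R) (w : PowerSeries R)
    (hw : (1 + PowerSeries.C c * PowerSeries.X) * w = 1) (i d : ℕ) :
    PowerSeries.coeff 0 (w ^ i * (1 + PowerSeries.C c * PowerSeries.X) ^ d) = 1 := by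
  have h1 : PowerSeries.constantCoeff w = 1 := by
    have h2 := congrArg PowerSeries.constantCoeff hw
    rw [map_mul] at h2
    simpa using h2
  rw [PowerSeries.coeff_zero_eq_constantCoeff_apply, map_mul, map_pow, map_pow, h1]
  simp

theorem tc_shift {G : MvPolynomial (Fin (n + 1)) k} {d : ℕ} (hG : G.IsHomogeneous d)
    (P v : Fin (n + 1) → R) (c : R) (s : ℕ) (h : ∀ i, i < s → tc G P v i = 0) :
    (∀ i, i < s → tc G P (v + c • P) i = 0) ∧ tc G P (v + c • P) s = tc G P v s := by
  obtain ⟨w, hw⟩ := T2_inv c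
  constructor
  · intro j hj
    rw [T2_shift hG P v c w hw j ((tl G P v).natDegree + 1) (Nat.lt_succ_self _)]
    refine Finset.sum_eq_zero fun i _ => ?_
    by_cases hij : i ≤ j
    · rw [h i (by omega), zero_mul]
    · rw [if_neg hij, mul_zero]
  · rw [T2_shift hG P v c w hw s ((tl G P v).natDegree + s + 1) (by omega),
      Finset.sum_eq_single s]
    · rw [if_pos le_rfl, Nat.sub_self, T2_coeff_zero c w hw, mul_one]
    · intro i _ hi
      by_cases hij : i ≤ s
      · rw [h i (by omega), zero_mul]
      · rw [if_neg hij, mul_zero]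
    · intro hs
      exact absurd (Finset.mem_range.2 (by omega)) hs

/-- the coefficient following two of them -/
theorem tc_shift_next {G : MvPolynomial (Fin (n + 1)) k} {d : ℕ} (hG : G.IsHomogeneous (d + 1))
    (P v : Fin (n + 1) → R) (c : R) (h : ∀ i, i < d → tc G P v i = 0) :
    tc G P (v + c • P) (d + 1) = tc G P v (d + 1) + c * tc G P v d := by
  obtain ⟨w, hw⟩ := T2_inv c
  rw [T2_shift hG P v c w hw (d + 1) ((tl G P v).natDegree + d + 2) (by omega)]
  have hsub : ∑ i ∈ Finset.range ((tl G P v).natDegree + d + 2), tc G P v i *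
      (if i ≤ d + 1 then PowerSeries.coeff (d + 1 - i)
        (w ^ i * (1 + PowerSeries.C c * PowerSeries.X) ^ (d + 1)) else 0) =
      ∑ i ∈ {d, d + 1}, tc G P v i *
      (if i ≤ d + 1 then PowerSeries.coeff (d + 1 - i)
        (w ^ i * (1 + PowerSeries.C c * PowerSeries.X) ^ (d + 1)) else 0) := by
    symm
    apply Finset.sum_subset
    · intro i hi
      rw [Finset.mem_insert, Finset.mem_singleton] at hi
      rw [Finset.mem_range]
      omega
    · intro i _ hi
      rw [Finset.mem_insert, Finset.mem_singleton, not_or] at hi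
      by_cases hij : i ≤ d + 1
      · rw [h i (by omega), zero_mul]
      · rw [if_neg hij, mul_zero]
  rw [hsub, Finset.sum_pair (by omega), if_pos (by omega), if_pos le_rfl, Nat.sub_self,
    T2_coeff_zero c w hw, Nat.add_sub_cancel_left]
  have h1 : w ^ d * (1 + PowerSeries.C c * PowerSeries.X) ^ (d + 1) =
      1 + PowerSeries.C c * PowerSeries.X := by
    rw [pow_succ, ← mul_assoc, ← mul_pow, mul_comm w, hw, one_pow, one_mul]
  have h2 : PowerSeries.coeff 1 (1 + PowerSeries.C c * PowerSeries.X : PowerSeries R) = c := by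
    rw [map_add, PowerSeries.coeff_C_mul, PowerSeries.coeff_one_X, mul_one,
      PowerSeries.coeff_one, if_neg one_ne_zero, zero_add]
  rw [h1, h2]
  ring

private theorem T2_eps {A : Type} [CommRing A] [Algebra k A] (φ ψ : Fin (n + 1) → A) (η : A)
    (hη : η ^ 2 = 0) (G : MvPolynomial (Fin (n + 1)) k) :
    aeval (fun l => φ l + η * ψ l) G = aeval φ G + η * ∑ l, aeval φ (pderiv l G) * ψ l := by
  induction G using MvPolynomial.induction_on with
  | C a =>
    rw [aeval_C, aeval_C]
    have h1 : ∑ l, aeval φ (pderiv l (C a : MvPolynomial (Fin (n + 1)) k)) * ψ l = 0 := by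
      apply Finset.sum_eq_zero
      intro l _
      rw [pderiv_C, map_zero, zero_mul]
    rw [h1, mul_zero, add_zero]
  | add p q hp hq =>
    have h1 : ∑ l, aeval φ (pderiv l (p + q)) * ψ l =
        ∑ l, aeval φ (pderiv l p) * ψ l + ∑ l, aeval φ (pderiv l q) * ψ l := by
      rw [← Finset.sum_add_distrib]
      refine Finset.sum_congr rfl fun l _ => ?_
      rw [map_add, map_add, add_mul]
    rw [map_add, map_add, hp, hq, h1]
    ring
  | mul_X p m hp =>
    have h1 : ∀ l, aeval φ (pderiv l (p * X m)) * ψ l =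
        (aeval φ (pderiv l p) * ψ l) * φ m + (if l = m then aeval φ p * ψ l else 0) := by
      intro l
      rw [pderiv_mul, pderiv_X, map_add, map_mul, map_mul, aeval_X]
      by_cases hl : l = m
      · subst hl
        rw [Pi.single_eq_same, if_pos rfl, map_one]
        ring
      · rw [Pi.single_eq_of_ne' hl, if_neg hl, map_zero]
        ring
    rw [map_mul, map_mul, aeval_X, aeval_X, hp, Finset.sum_congr rfl fun l _ => h1 l,
      Finset.sum_add_distrib, Finset.sum_ite_eq', if_pos (Finset.mem_univ _), ← Finset.sum_mul]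
    linear_combination ((∑ l, aeval φ (pderiv l p) * ψ l) * ψ m) * hη

theorem tc_add_eps (G : MvPolynomial (Fin (n + 1)) k) (P v β : Fin (n + 1) → R) (ε : R)
    (hε : ε ^ 2 = 0) (i : ℕ) :
    tc G P (v + ε • β) (i + 1) = tc G P v (i + 1) + ε * ∑ l, gr G P v i l * β l := by
  have h1 := T2_eps (k := k) (A := Polynomial R)
    (fun l => Polynomial.C (P l) + Polynomial.X * Polynomial.C (v l))
    (fun l => Polynomial.X * Polynomial.C (β l)) (Polynomial.C ε)
    (by rw [← Polynomial.C_pow, hε, Polynomial.C_0]) G
  have h2 : (fun l => Polynomial.C (P l) + Polynomial.X * Polynomial.C (v l) +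
      Polynomial.C ε * (Polynomial.X * Polynomial.C (β l))) =
      fun l => Polynomial.C (P l) + Polynomial.X * Polynomial.C ((v + ε • β) l) := by
    funext l
    rw [Pi.add_apply, Pi.smul_apply, smul_eq_mul, Polynomial.C_add, Polynomial.C_mul]
    ring
  rw [h2] at h1
  have h3 := congrArg (fun q => Polynomial.coeff q (i + 1)) h1
  rw [Polynomial.coeff_add, Polynomial.coeff_C_mul, Polynomial.finsetSum_coeff] at h3
  have h4 : ∀ l, (aeval (fun l => Polynomial.C (P l) + Polynomial.X * Polynomial.C (v l))
      (pderiv l G) * (Polynomial.X * Polynomial.C (β l))).coeff (i + 1) =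
      gr G P v i l * β l := by
    intro l
    have h5 : aeval (fun l => Polynomial.C (P l) + Polynomial.X * Polynomial.C (v l))
      (pderiv l G) * (Polynomial.X * Polynomial.C (β l)) =
      Polynomial.X * (aeval (fun l => Polynomial.C (P l) + Polynomial.X * Polynomial.C (v l))
      (pderiv l G) * Polynomial.C (β l)) := by ring
    rw [h5, Polynomial.coeff_X_mul, Polynomial.coeff_mul_C]
    rfl
  rw [Finset.sum_congr rfl fun l _ => h4 l] at h3
  exact h3

theorem pderiv_cf (G : MvPolynomial (Fin (n + 1)) k) (P : Fin (n + 1) → R) (i : ℕ)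
    (l : Fin (n + 1)) : pderiv l (cf G P (i + 1)) = cf (pderiv l G) P i := by
  have h1 := tc_der_succ (R := MvPolynomial (Fin (n + 1)) R)
    ((pderiv l : Derivation R (MvPolynomial (Fin (n + 1)) R) _).restrictScalars k) G
    (fun l => C (P l)) (fun l => X l) i
  simp only [Derivation.restrictScalars_apply] at h1
  unfold cf
  rw [h1]
  have h2 : ∑ m, gr G (fun l => C (P l)) (fun l => X l) (i + 1) m *
      pderiv l (C (P m) : MvPolynomial (Fin (n + 1)) R) = 0 := by
    apply Finset.sum_eq_zero
    intro m _
    rw [pderiv_C, mul_zero]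
  rw [h2, zero_add, Finset.sum_eq_single l]
  · rw [pderiv_X, Pi.single_eq_same, mul_one]
    rfl
  · intro m _ hm
    rw [pderiv_X, Pi.single_eq_of_ne' (Ne.symm hm), mul_zero]
  · intro h3
    exact absurd (Finset.mem_univ _) h3

/-- the gradient of `cf G P (i + 1)` -/
theorem grd_cf {Ω : Type} [Field Ω] [Algebra k Ω] {E : Type} [CommRing E] [Algebra Ω E] [Algebra k E]
    [IsScalarTower k Ω E] (G : MvPolynomial (Fin (n + 1)) k) (P : Fin (n + 1) → Ω) (i : ℕ)
    (v : Fin (n + 1) → E) :
    grd (cf G P (i + 1)) v = gr G (fun l => algebraMap Ω E (P l)) v i := by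
  funext l
  unfold grd gr
  rw [pderiv_cf, aeval_cf]

end Pool.Agent.LibHP.CIM
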